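import Pool.Agent.Lib.MP_f4f4db_co.G2.Basic

section

/-!
# Job FT1: Fourier analysis on a finite vector space over the field with two elements

Elementary orthogonality.  `Du V = V →ₗ[ZMod 2] ZMod 2`, `ft f l = av fun y => f y * sg (l y)`.
Hints: `sg` is multiplicative (`sg_add`), if `l v = 1` then the substitution `y ↦ y + v`
(`av_shift`) shows that `av (sg ∘ l) = - av (sg ∘ l)`; if `y ≠ 0` there is `l` with `l y = 1`
(`Module.exists_dual_forall_apply_eq_zero_iff`, `Module.forall_dual_apply_eq_zero_iff`), then
substitute `l' ↦ l' + l` in `su`.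
-/

set_option autoImplicit false

open Module

namespace G2

variable {V : Type} [AddCommGroup V] [Module (ZMod 2) V] [Finite V]

/-- the dual has the same number of elements (`Subspace.dual_finrank_eq`, `nc_finrank`) -/
theorem nc_Du : nc (Du V) = nc V := by
  rw [nc_finrank, nc_finrank]
  congr 1
  exact Subspace.dual_finrank_eq

theorem av_sg_zero : av (fun y : V => sg ((0 : Du V) y)) = 1 := by
  simp only [LinearMap.zero_apply, sg_zero]
  exact av_const 1

theorem av_sg_ne {l : Du V} (hl : l ≠ 0) : av (fun y => sg (l y)) = 0 := by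
  obtain ⟨v, hv⟩ : ∃ v, l v ≠ 0 := by
    by_contra h
    push Not at h
    exact hl (LinearMap.ext h)
  have hv1 : l v = 1 := (zmod2 (l v)).resolve_left hv
  have h1 := av_shift (fun y => sg (l y)) v
  have h2 : (fun y => sg (l (y + v))) = fun y => sg (l y) * (-1) := by
    funext y
    rw [map_add, sg_add, hv1, sg_one]
  rw [h2, av_mul_right] at h1
  linarith

theorem su_sg_zero : su (fun l : Du V => sg (l 0)) = nc V := by
  simp only [map_zero, sg_zero]
  rw [su_const, mul_one, nc_Du]

theorem su_sg_ne {y : V} (hy : y ≠ 0) : su (fun l : Du V => sg (l y)) = 0 := by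
  obtain ⟨l0, hl0⟩ : ∃ l : Du V, l y ≠ 0 := by
    by_contra h
    push Not at h
    exact hy ((Module.forall_dual_apply_eq_zero_iff (ZMod 2) y).1 h)
  have h1v : l0 y = 1 := (zmod2 (l0 y)).resolve_left hl0
  have h1 := su_equiv (Equiv.addRight l0) (fun l : Du V => sg (l y))
  have h2 : (fun l : Du V => sg ((Equiv.addRight l0 l) y)) = fun l => sg (l y) * (-1) := by
    funext l
    rw [Equiv.coe_addRight, LinearMap.add_apply, sg_add, h1v, sg_one]
  rw [h2, su_mul_right] at h1
  linarith

private theorem ft1_su_av {α β : Type} [Finite α] [Finite β] (f : α → β → ℝ) :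
    su (fun x => av (fun y => f x y)) = av (fun y => su (fun x => f x y)) := by
  have h1 : (fun x => av (fun y => f x y)) = fun x => su (fun y => f x y) * (nc β)⁻¹ := by
    funext x
    rw [av, div_eq_mul_inv]
  rw [h1, su_mul_right, su_comm, av, div_eq_mul_inv]

/-- Fourier inversion: expand `ft` and use `su_sg_zero`, `su_sg_ne` for `l (z) + l (y) = l (z + y)`. -/
theorem ft_inv (f : V → ℝ) (y : V) : su (fun l => ft f l * sg (l y)) = f y := by
  have h1 : (fun l : Du V => ft f l * sg (l y)) = fun l => av fun z => f z * sg (l (z + y)) := by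
    funext l
    rw [ft, ← av_mul_right]
    congr 1
    funext z
    rw [map_add, sg_add, mul_assoc]
  rw [h1, ft1_su_av]
  have h2 : (fun z => su fun l : Du V => f z * sg (l (z + y))) =
      fun z => f z * su fun l : Du V => sg (l (z + y)) := by
    funext z
    rw [su_mul_left]
  rw [h2]
  have := Fintype.ofFinite V
  rw [av_eq, Finset.sum_eq_single y]
  · rw [add_self, su_sg_zero, nc_eq]
    have h3 : (Fintype.card V : ℝ) ≠ 0 := by
      have : 0 < Fintype.card V := Fintype.card_pos
      positivity
    field_simp
  · intro z _ hz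
    rw [su_sg_ne, mul_zero]
    intro h0
    exact hz (eq_of_add_eq_zero h0)
  · intro h0
    exact absurd (Finset.mem_univ y) h0

/-- Parseval: insert `ft_inv` for `f` in `av (f * g)`. -/
theorem parseval (f g : V → ℝ) : su (fun l => ft f l * ft g l) = av fun y => f y * g y := by
  have h1 : (fun l : Du V => ft f l * ft g l) = fun l => av fun y => ft f l * (g y * sg (l y)) := by
    funext l
    rw [av_mul_left]
    rfl
  rw [h1, ft1_su_av]
  congr 1
  funext y
  have h2 : (fun l : Du V => ft f l * (g y * sg (l y))) = fun l => g y * (ft f l * sg (l y)) := by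
    funext l
    ring
  rw [h2, su_mul_left, ft_inv, mul_comm]

/-- `sg (l x) = sg (l y) * sg (l (y + x))`. -/
theorem ft_cor (f g : V → ℝ) (l : Du V) : ft (cor f g) l = ft f l * ft g l := by
  have h1 : ft (cor f g) l = av fun x => av fun y => f y * g (y + x) * sg (l x) := by
    rw [ft]
    congr 1
    funext x
    rw [cor, ← av_mul_right]
  rw [h1, av_comm]
  have h2 : (fun y => av fun x => f y * g (y + x) * sg (l x)) =
      fun y => f y * sg (l y) * ft g l := by
    funext y
    have h3 : (fun x => f y * g (y + x) * sg (l x)) =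
        fun x => f y * sg (l y) * (g (y + x) * sg (l (y + x))) := by
      funext x
      rw [map_add, sg_add]
      have := sg_mul_self (l y)
      linear_combination (-(f y * g (y + x) * sg (l x))) * this
    rw [h3, av_mul_left, av_shift_left (fun x => g x * sg (l x)) y]
    rfl
  rw [h2, av_mul_right]
  rfl

theorem av_cor (f g : V → ℝ) : av (cor f g) = av f * av g := by
  have h1 : av (cor f g) = av fun x => av fun y => f y * g (y + x) := rfl
  rw [h1, av_comm]
  have h2 : (fun y => av fun x => f y * g (y + x)) = fun y => f y * av g := by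
    funext y
    rw [av_mul_left, av_shift_left g y]
  rw [h2, av_mul_right]

theorem ft_zero (f : V → ℝ) : ft f 0 = av f := by
  rw [ft]
  simp only [LinearMap.zero_apply, sg_zero, mul_one]

theorem ft_add (f g : V → ℝ) (l : Du V) : ft (fun y => f y + g y) l = ft f l + ft g l := by
  rw [ft, ft, ft, ← av_add]
  congr 1
  funext y
  ring

theorem ft_sub (f g : V → ℝ) (l : Du V) : ft (fun y => f y - g y) l = ft f l - ft g l := by
  rw [ft, ft, ft, ← av_sub]
  congr 1
  funext y
  ring

theorem abs_ft_le (f : V → ℝ) (l : Du V) : |ft f l| ≤ av fun y => |f y| := by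
  rw [ft]
  refine (abs_av_le _).trans (le_of_eq ?_)
  congr 1
  funext y
  rw [abs_mul, abs_sg, mul_one]

/-- the fourth power of the `U^2` norm: `PK f x w = cor (f_x) (f_x) w` with
`f_x y = f y * f (y + x)`; so the average over `w` of `PK f x w` is `(cor f f x) ^ 2`, and the
average over `x` of this is `∑ (ft f l) ^ 4` by Parseval and `ft_cor`. -/
theorem u2_eq (f : V → ℝ) : av (fun x => av fun w => PK f x w) = su fun l => ft f l ^ 4 := by
  have h1 : (fun x => av fun w => PK f x w) = fun x => cor f f x * cor f f x := by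
    funext x
    have h2 : (fun w => PK f x w) = cor (fun y => f y * f (y + x)) (fun y => f y * f (y + x)) := by
      funext w
      rw [PK, cor]
      congr 1
      funext y
      rw [add_right_comm y x w]
    rw [h2, av_cor]
    rfl
  rw [h1, ← parseval]
  congr 1
  funext l
  rw [ft_cor]
  ring

/-- a single Fourier coefficient is bounded by the `U^2` norm -/
theorem ft_pow_four_le (f : V → ℝ) (l : Du V) : ft f l ^ 4 ≤ su fun l => ft f l ^ 4 := by
  refine le_su (f := fun l : Du V => ft f l ^ 4) (fun l => ?_) l
  positivity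

end G2
end

section

/-!
# Job FT2: fibres of linear maps and subspaces
-/

set_option autoImplicit false

open Module

namespace G2

variable {V L : Type} [AddCommGroup V] [Module (ZMod 2) V] [Finite V]
  [AddCommGroup L] [Module (ZMod 2) L] [Finite L]

/-- orthogonality of the characters `b ↦ sg (b (s + z))` of `Du L` (`su_sg_zero`, `su_sg_ne`,
`nc_Du`) -/
theorem ind_eq_av (s z : L) : ind {z | z = s} z = av fun b : Du L => sg (b s) * sg (b z) := by
  have h1 : (fun b : Du L => sg (b s) * sg (b z)) = fun b : Du L => sg (b (s + z)) := by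
    funext b
    rw [map_add, sg_add]
  rw [h1, av]
  by_cases h : z = s
  · rw [ind_pos (A := {z | z = s}) h, h, add_self, su_sg_zero, nc_Du, div_self]
    exact (nc_pos (α := L)).ne'
  · have h2 : s + z ≠ 0 := fun h0 => h (eq_of_add_eq_zero h0).symm
    rw [ind_neg (A := {z | z = s}) h, su_sg_ne h2, zero_div]

/-- a translate of a set has the same density -/
theorem dn_translate (A : Set V) (a : V) : dn {y | y + a ∈ A} = dn A := by
  have h : ind {y | y + a ∈ A} = fun y => ind A (y + a) := by
    funext y
    by_cases hy : y + a ∈ A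
    · rw [ind_pos (A := {y | y + a ∈ A}) hy, ind_pos hy]
    · rw [ind_neg (A := {y | y + a ∈ A}) hy, ind_neg hy]
  rw [dn, h, av_shift]
  rfl

/-- all nonempty fibres are translates of the kernel -/
theorem dn_fibre_ker (T : V →ₗ[ZMod 2] L) (y₀ : V) :
    dn {y | T y = T y₀} = dn (LinearMap.ker T : Set V) := by
  rw [← dn_translate (LinearMap.ker T : Set V) y₀]
  congr 1
  ext y
  change T y = T y₀ ↔ T (y + y₀) = 0
  rw [map_add]
  constructor
  · intro h
    rw [h, add_self]
  · intro h
    exact eq_of_add_eq_zero h

omit [Module (ZMod 2) V] [Module (ZMod 2) L] [AddCommGroup L] in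
private theorem ft2_su_av (g : L → V → ℝ) :
    su (fun s => av fun y => g s y) = av fun y => su fun s => g s y := by
  simp only [av]
  rw [← su_comm]
  have := Fintype.ofFinite L
  simp only [su_eq, Finset.sum_div]

private theorem ft2_sum_fibres (T : V →ₗ[ZMod 2] L) : su (fun s : L => dn {y | T y = s}) = 1 := by
  have h1 : su (fun s : L => dn {y | T y = s}) = av fun y => su fun s => ind {y | T y = s} y :=
    ft2_su_av fun s y => ind {y | T y = s} y
  have h2 : (fun y => su fun s => ind {y | T y = s} y) = fun _ : V => (1 : ℝ) := by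
    funext y
    have := Fintype.ofFinite L
    classical
    rw [su_eq, Finset.sum_eq_single (T y)]
    · exact ind_pos (A := {z | T z = T y}) rfl
    · intro s _ hs
      exact ind_neg (A := {y | T y = s}) fun h => hs (h : T y = s).symm
    · intro h
      exact absurd (Finset.mem_univ _) h
  rw [h1, h2, av_const]

/-- the fibres of a surjective linear map have density `1 / |L|` -/
theorem dn_fibre (T : V →ₗ[ZMod 2] L) (hT : Function.Surjective T) (s : L) :
    nc L * dn {y | T y = s} = 1 := by
  have h1 : (fun s : L => dn {y | T y = s}) = fun _ => dn (LinearMap.ker T : Set V) := by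
    funext s
    obtain ⟨y₀, rfl⟩ := hT s
    exact dn_fibre_ker T y₀
  have h2 := ft2_sum_fibres T
  rw [h1, su_const] at h2
  rw [congrFun h1 s, h2]

/-- a nonempty fibre has density at least `1 / |L|` (the densities of the fibres sum to `1`, at most
`|L|` of them are nonempty, and all nonempty ones have the same density) -/
theorem le_dn_fibre (T : V →ₗ[ZMod 2] L) (y₀ : V) : 1 ≤ nc L * dn {y | T y = T y₀} := by
  rw [dn_fibre_ker, ← su_const, ← ft2_sum_fibres T]
  refine su_le_su fun s => ?_
  by_cases h : ∃ y, T y = s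
  · obtain ⟨y, rfl⟩ := h
    rw [dn_fibre_ker]
  · have h1 : {y | T y = s} = ∅ := Set.eq_empty_iff_forall_notMem.2 fun y hy => h ⟨y, hy⟩
    rw [h1]
    refine le_trans (le_of_eq ?_) (dn_nonneg _)
    have h3 : ind (∅ : Set V) = fun _ => 0 := funext fun x => ind_neg (Set.notMem_empty x)
    rw [dn, h3, av_const]

/-- average over a fibre in terms of Fourier coefficients -/
theorem av_fibre (T : V →ₗ[ZMod 2] L) (f : V → ℝ) (s : L) :
    nc L * av (fun y => f y * ind {y | T y = s} y) =
      su fun b : Du L => ft f (b.comp T) * sg (b s) := by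
  have h1 : (fun b : Du L => ft f (b.comp T) * sg (b s)) =
      fun b : Du L => av fun y => f y * sg (b (T y)) * sg (b s) := by
    funext b
    rw [ft, av_mul_right]
    rfl
  have h2 : (fun y => su fun b : Du L => f y * sg (b (T y)) * sg (b s)) =
      fun y => nc L * (f y * ind {y | T y = s} y) := by
    funext y
    have h3 : ind {y | T y = s} y = ind {z | z = s} (T y) := by
      by_cases h : T y = s
      · rw [ind_pos (A := {y | T y = s}) h, ind_pos (A := {z | z = s}) h]
      · rw [ind_neg (A := {y | T y = s}) h, ind_neg (A := {z | z = s}) h]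
    have h4 : (fun b : Du L => f y * sg (b (T y)) * sg (b s)) =
        fun b : Du L => f y * (sg (b s) * sg (b (T y))) := by
      funext b
      ring
    rw [h3, ind_eq_av, h4, su_mul_left, av, nc_Du]
    have h5 := (nc_pos (α := L)).ne'
    field_simp
  rw [h1, ft2_su_av fun (b : Du L) y => f y * sg (b (T y)) * sg (b s), h2, av_mul_left]

/-- density of a subspace -/
theorem dn_submodule (W : Submodule (ZMod 2) V) :
    2 ^ (rk V - rk W) * dn (W : Set V) = 1 := by
  rw [dn_eq_card]
  have h1 : (Nat.card (W : Set V) : ℝ) = 2 ^ rk W := nc_finrank (V := W)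
  have h2 : (Nat.card V : ℝ) = 2 ^ rk V := nc_finrank (V := V)
  have h3 : rk W ≤ rk V := Submodule.finrank_le W
  rw [h1, h2, ← mul_div_assoc, ← pow_add, Nat.sub_add_cancel h3, div_self]
  positivity

omit [Module (ZMod 2) V] in
private theorem ft2_nc_set (A : Set V) : nc A = nc V * dn A := by
  rw [dn_eq_card]
  have h := (nc_pos (α := V)).ne'
  change nc A = nc V * (nc A / nc V)
  field_simp

theorem nc_submodule (W : Submodule (ZMod 2) V) : nc W = nc V * dn (W : Set V) := by
  exact ft2_nc_set (W : Set V)

theorem nc_set (A : Set V) : nc A = nc V * dn A := by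
  exact ft2_nc_set A

/-- averages over the cosets of a subspace: the average over `V` is the average over `v ∈ V` and
`w ∈ W` of `f (v + w)` -/
theorem av_cosets (W : Submodule (ZMod 2) V) (f : V → ℝ) :
    av (fun v => av fun w : W => f (v + w)) = av f := by
  rw [av_comm]
  have h : (fun w : W => av fun v => f (v + w)) = fun _ => av f := by
    funext w
    exact av_shift f w
  rw [h, av_const]

/-- the same for an injective (or arbitrary) linear map into `V` -/
theorem av_cosets_map (i : L →ₗ[ZMod 2] V) (f : V → ℝ) :
    av (fun v => av fun w : L => f (v + i w)) = av f := by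
  rw [av_comm]
  have h : (fun w : L => av fun v => f (v + i w)) = fun _ => av f := by
    funext w
    exact av_shift f (i w)
  rw [h, av_const]

omit [AddCommGroup V] [Module (ZMod 2) V] [AddCommGroup L] [Module (ZMod 2) L] in
private theorem ft2_su_inj (i : L → V) (hi : Function.Injective i) (f : V → ℝ) :
    su (fun w : L => f (i w)) = su fun y => f y * ind (Set.range i) y := by
  classical
  have := Fintype.ofFinite L
  have := Fintype.ofFinite V
  rw [su_eq, su_eq]
  rw [← Finset.sum_image (s := Finset.univ) (g := i) (f := f) (fun x _ y _ h => hi h)]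
  rw [← Finset.sum_subset (Finset.subset_univ (Finset.univ.image i))]
  · refine Finset.sum_congr rfl fun y hy => ?_
    obtain ⟨w, _, rfl⟩ := Finset.mem_image.1 hy
    rw [ind_pos (Set.mem_range_self w), mul_one]
  · intro y _ hy
    have h : y ∉ Set.range i := by
      rintro ⟨w, rfl⟩
      exact hy (Finset.mem_image_of_mem i (Finset.mem_univ w))
    rw [ind_neg h, mul_zero]

/-- average over a subspace -/
theorem av_submodule (W : Submodule (ZMod 2) V) (f : V → ℝ) :
    av (fun w : W => f w) * dn (W : Set V) = av fun y => f y * ind (W : Set V) y := by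
  have h1 := ft2_su_inj (fun w : W => (w : V)) Subtype.val_injective f
  have h2 : Set.range (fun w : W => (w : V)) = (W : Set V) := Subtype.range_coe
  rw [h2] at h1
  have h3 := nc_submodule W
  have h4 := (nc_pos (α := V)).ne'
  have h5 := (nc_pos (α := W)).ne'
  rw [av, av, ← h1]
  have h6 : dn (W : Set V) = nc W / nc V := by
    rw [h3]
    field_simp
  rw [h6]
  field_simp

/-- an injective linear map preserves averages over the image -/
theorem av_injective (i : L →ₗ[ZMod 2] V) (hi : Function.Injective i) (f : V → ℝ) :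
    av (fun w : L => f (i w)) * nc L = nc V * av fun y => f y * ind (Set.range i) y := by
  have h1 := ft2_su_inj (fun w : L => i w) hi f
  have h4 := (nc_pos (α := V)).ne'
  have h5 := (nc_pos (α := L)).ne'
  rw [av, av, h1]
  field_simp

/-- a subspace of `Du V` of dimension `d` has an annihilator of dimension `dim V - d`; in terms of
independent functionals: if `l : Fin d → Du V` is linearly independent then `y ↦ (l j y)_j` is
surjective -/
theorem pi_surjective {d : ℕ} (l : Fin d → Du V) (hl : LinearIndependent (ZMod 2) l) :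
    Function.Surjective (LinearMap.pi l : V →ₗ[ZMod 2] (Fin d → ZMod 2)) := by
  rw [← LinearMap.dualMap_injective_iff]
  refine (injective_iff_map_eq_zero _).2 fun a ha => ?_
  have h1 : ∀ x : Fin d → ZMod 2, a x = ∑ j, x j * a (Pi.single j 1) := by
    intro x
    have hx : x = ∑ j, x j • (Pi.single j 1 : Fin d → ZMod 2) := by
      funext k
      simp [Finset.sum_apply, Pi.single_apply]
    conv_lhs => rw [hx]
    rw [map_sum]
    refine Finset.sum_congr rfl fun j _ => ?_
    rw [map_smul, smul_eq_mul]
  have h2 : ∑ j, a (Pi.single j 1) • l j = 0 := by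
    apply LinearMap.ext
    intro y
    have h3 : a (fun j => l j y) = 0 := LinearMap.congr_fun ha y
    rw [h1] at h3
    rw [LinearMap.sum_apply, LinearMap.zero_apply, ← h3]
    refine Finset.sum_congr rfl fun j _ => ?_
    rw [LinearMap.smul_apply, smul_eq_mul, mul_comm]
  have h4 := Fintype.linearIndependent_iff.1 hl (fun j => a (Pi.single j 1)) h2
  apply LinearMap.ext
  intro x
  rw [h1 x, LinearMap.zero_apply]
  exact Finset.sum_eq_zero fun j _ => by rw [h4 j, mul_zero]

end G2
end

section

/-!
# Job QD1: algebra of quadratic maps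

`IsQ q φ : ∀ x y, q (x + y) = q x + q y + q 0 + φ x y`.
-/

set_option autoImplicit false

open Module

namespace G2

variable {V M L W : Type} [AddCommGroup V] [Module (ZMod 2) V] [AddCommGroup M] [Module (ZMod 2) M]
  [AddCommGroup L] [Module (ZMod 2) L] [AddCommGroup W] [Module (ZMod 2) W]

theorem qd1_aa (m : M) : m + m = 0 := ZModModule.add_self m

theorem IsQ.symm {q : V → M} {φ : Bil V M} (h : IsQ q φ) (x y : V) : φ x y = φ y x := by
  have h1 := h x y
  have h2 := h y x
  rw [add_comm y x, h1, add_comm (q y) (q x)] at h2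
  exact add_left_cancel h2

theorem IsQ.alt {q : V → M} {φ : Bil V M} (h : IsQ q φ) (x : V) : φ x x = 0 := by
  have h1 := h x x
  rw [qd1_aa x, qd1_aa (q x), zero_add] at h1
  have h2 : q 0 + 0 = q 0 + φ x x := by rw [add_zero]; exact h1
  exact (add_left_cancel h2).symm

/-- adding a linear map and a constant does not change the polar form -/
theorem IsQ.add_lin {q : V → M} {φ : Bil V M} (h : IsQ q φ) (l : V →ₗ[ZMod 2] M) (c : M) :
    IsQ (fun y => q y + (l y + c)) φ := by
  intro x y
  have h2 := qd1_aa c
  simp only [h x y, map_add, map_zero, zero_add]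
  have h3 : q x + (l x + c) + (q y + (l y + c)) + (q 0 + c) + φ x y
      = q x + q y + q 0 + φ x y + (l x + l y + c) + (c + c) := by abel
  rw [h3, h2, add_zero]

theorem IsQ.comp {q : V → M} {φ : Bil V M} (h : IsQ q φ) (b : M →ₗ[ZMod 2] L) :
    IsQ (fun y => b (q y)) (φ.compr₂ b) := by
  intro x y
  simp only [h x y, map_add, LinearMap.compr₂_apply]

/-- translation and restriction along a linear map -/
theorem IsQ.pull {q : V → M} {φ : Bil V M} (h : IsQ q φ) (i : W →ₗ[ZMod 2] V) (v : V) :
    IsQ (fun y => q (v + i y)) (G2.pull φ i) := by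
  intro x y
  have h1 : v + i (x + y) = (v + i x) + i y := by rw [map_add, add_assoc]
  have h2 := h (v + i x) (i y)
  have h3 := h v (i y)
  have h4 : (G2.pull φ i) x y = φ (i x) (i y) := by
    simp [G2.pull, LinearMap.compl₁₂_apply]
  show q (v + i (x + y)) = q (v + i x) + q (v + i y) + q (v + i 0) + (G2.pull φ i) x y
  rw [h1, h2, h4, h3, map_zero, add_zero, map_add, LinearMap.add_apply]
  have h5 : q (v + i x) + (q v + q (i y) + q 0 + φ v (i y)) + q v + φ (i x) (i y)
      = q (v + i x) + q (i y) + q 0 + (φ v (i y) + φ (i x) (i y)) + (q v + q v) := by abel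
  rw [h5, qd1_aa (q v), add_zero]

/-- pairs of quadratic maps -/
theorem IsQ.prod {q : V → M} {φ : Bil V M} {p : V → L} {Φ : Bil V L} (h : IsQ q φ)
    (h' : IsQ p Φ) : IsQ (fun y => (q y, p y)) (cmb φ Φ) := by
  intro x y
  have h1 : (cmb φ Φ) x y = (φ x y, Φ x y) := rfl
  rw [h1]
  simp only [h x y, h' x y, Prod.mk_add_mk]

theorem isQ_zero (c : M) : IsQ (fun _ : V => c) (0 : Bil V M) := by
  intro x y
  simp only [LinearMap.zero_apply, add_zero]
  rw [qd1_aa c, zero_add]

theorem qd1_symm_of_alt (Φ : Bil V L) (hΦ : ∀ x, Φ x x = 0) (x y : V) : Φ x y = Φ y x := by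
  have h1 := hΦ (x + y)
  simp only [map_add, LinearMap.add_apply, hΦ x, hΦ y, zero_add, add_zero] at h1
  have h2 : Φ y x + Φ x y = Φ x y + Φ x y := by rw [h1, qd1_aa]
  exact (add_right_cancel h2).symm

/-- an alternating bilinear form is the polar form of a quadratic map: choose a basis `e` of `V` and
put `Ψ (∑ x_i e_i) = ∑_{i<j} x_i x_j Φ (e_i, e_j)`; then `Ψ (x + y) + Ψ x + Ψ y =
∑_{i<j} (x_i y_j + y_i x_j) Φ (e_i, e_j) = ∑_{i ≠ j} x_i y_j Φ (e_i, e_j) = Φ (x, y)` because
`Φ (e_j, e_i) = Φ (e_i, e_j)` (characteristic two) and `Φ (e_i, e_i) = 0`. -/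
theorem exists_quadratic [Finite V] (Φ : Bil V L) (hΦ : ∀ x, Φ x x = 0) :
    ∃ Ψ : V → L, IsQ Ψ Φ := by
  classical
  have : Module.Finite (ZMod 2) V := Module.Finite.of_finite
  let b := Module.finBasis (ZMod 2) V
  let B : V →ₗ[ZMod 2] V →ₗ[ZMod 2] L := b.constr (ZMod 2) fun i => b.constr (ZMod 2) fun j =>
    if i < j then Φ (b i) (b j) else 0
  have hB : ∀ i j, B (b i) (b j) = if i < j then Φ (b i) (b j) else 0 := by
    intro i j
    show (b.constr (ZMod 2) fun i => b.constr (ZMod 2) fun j =>
      if i < j then Φ (b i) (b j) else 0) (b i) (b j) = _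
    rw [Basis.constr_basis, Basis.constr_basis]
  have hΦB : Φ = B + B.flip := by
    refine b.ext fun i => b.ext fun j => ?_
    rw [LinearMap.add_apply, LinearMap.add_apply, LinearMap.flip_apply, hB, hB]
    rcases lt_trichotomy i j with h | h | h
    · rw [if_pos h, if_neg (not_lt.mpr h.le), add_zero]
    · subst h
      simp [hΦ]
    · rw [if_neg (not_lt.mpr h.le), if_pos h, zero_add]
      exact qd1_symm_of_alt Φ hΦ _ _
  refine ⟨fun x => B x x, fun x y => ?_⟩
  have h1 : Φ x y = B x y + B y x := by
    rw [hΦB]; rfl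
  rw [h1]
  simp only [map_add, LinearMap.add_apply, map_zero, add_zero]
  abel

/-- a symmetric bilinear form becomes alternating on a subspace of codimension at most `dim L`: the
kernel of the linear map `x ↦ Φ x x` -/
theorem exists_alternating [Finite V] [Finite L] (Φ : Bil V L) (hΦ : ∀ x y, Φ x y = Φ y x) :
    ∃ W : Submodule (ZMod 2) V, rk V ≤ rk W + rk L ∧ ∀ x ∈ W, Φ x x = 0 := by
  have : Module.Finite (ZMod 2) V := Module.Finite.of_finite
  have : Module.Finite (ZMod 2) L := Module.Finite.of_finite
  let f : V →+ L :=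
    { toFun := fun x => Φ x x
      map_zero' := by simp
      map_add' := fun x y => by
        simp only [map_add, LinearMap.add_apply]
        rw [hΦ y x]
        have : Φ x x + Φ x y + (Φ x y + Φ y y) = Φ x x + Φ y y + (Φ x y + Φ x y) := by abel
        rw [this, qd1_aa, add_zero] }
  let g : V →ₗ[ZMod 2] L := f.toZModLinearMap 2
  refine ⟨LinearMap.ker g, ?_, fun x hx => ?_⟩
  · have h1 := LinearMap.finrank_range_add_finrank_ker g
    have h2 := Submodule.finrank_le (LinearMap.range g)
    show finrank (ZMod 2) V ≤ finrank (ZMod 2) (LinearMap.ker g) + finrank (ZMod 2) L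
    omega
  · exact LinearMap.mem_ker.mp hx

end G2
end
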