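import Pool.Agent.Lib.MP_f4f4db_co.G2.Basic
import Pool.Agent.Lib.MP_f4f4db_co.G2.QD1
import Pool.Agent.Lib.MP_f4f4db_co.Defs
import Pool.Agent.Lib.MP_f4f4db_co.ShiftSum

section

/-!
# Job PB: calculus of polynomial bounds and of the error term `er`

`pw C t = (t + 2) ^ C`, `PB f` : `f t ≤ pw C t` for some `C` and all `t`.
-/

set_option autoImplicit false

open Module

namespace G2

theorem pw_mono_left {C C' : ℕ} (h : C ≤ C') (t : ℕ) : pw C t ≤ pw C' t := by
  unfold pw
  exact Nat.pow_le_pow_right (by omega) h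

theorem pw_mono (C : ℕ) {t t' : ℕ} (h : t ≤ t') : pw C t ≤ pw C t' := by
  unfold pw
  exact Nat.pow_le_pow_left (by omega) C

theorem one_le_pw (C t : ℕ) : 1 ≤ pw C t := by
  unfold pw
  exact Nat.one_le_pow _ _ (by omega)

/-- `(t+2)^C' + 2 ≤ (t+2)^(C'+2)`, raised to the power `C`. -/
theorem pw_comp (C C' t : ℕ) : pw C (pw C' t) ≤ pw (C * (C' + 2)) t := by
  unfold pw
  rw [mul_comm, pow_mul]
  apply Nat.pow_le_pow_left
  have h1 : 1 ≤ (t + 2) ^ C' := Nat.one_le_pow _ _ (by omega)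
  have h2 : 4 ≤ (t + 2) ^ 2 := by
    have h3 := Nat.pow_le_pow_left (show 2 ≤ t + 2 by omega) 2
    omega
  rw [pow_add]
  nlinarith

theorem pw_mul (C C' t : ℕ) : pw C t * pw C' t = pw (C + C') t := by
  unfold pw
  rw [pow_add]

theorem pw_add (C C' t : ℕ) : pw C t + pw C' t ≤ pw (C + C' + 1) t := by
  have h1 := one_le_pw C t
  have h2 := one_le_pw C' t
  have h3 : pw (C + C' + 1) t = pw C t * pw C' t * (t + 2) := by
    unfold pw
    rw [pow_add, pow_add, pow_one]
  rw [h3]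
  have h4 : pw C t ≤ pw C t * pw C' t := Nat.le_mul_of_pos_right _ (by omega)
  have h5 : pw C' t ≤ pw C t * pw C' t := Nat.le_mul_of_pos_left _ (by omega)
  nlinarith

theorem PB.const (n : ℕ) : PB (fun _ => n) := by
  refine ⟨n, fun t => ?_⟩
  show n ≤ (t + 2) ^ n
  exact (Nat.lt_pow_self (by omega)).le

theorem PB.id : PB (fun t => t) := by
  refine ⟨1, fun t => ?_⟩
  show t ≤ (t + 2) ^ 1
  rw [pow_one]
  omega

theorem PB.pw (C : ℕ) : PB (fun t => pw C t) := ⟨C, fun _ => le_rfl⟩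

theorem PB.add {f g : ℕ → ℕ} (hf : PB f) (hg : PB g) : PB (fun t => f t + g t) := by
  obtain ⟨C, hC⟩ := hf
  obtain ⟨C', hC'⟩ := hg
  exact ⟨C + C' + 1, fun t => (Nat.add_le_add (hC t) (hC' t)).trans (pw_add C C' t)⟩

theorem PB.mul {f g : ℕ → ℕ} (hf : PB f) (hg : PB g) : PB (fun t => f t * g t) := by
  obtain ⟨C, hC⟩ := hf
  obtain ⟨C', hC'⟩ := hg
  exact ⟨C + C', fun t => (Nat.mul_le_mul (hC t) (hC' t)).trans (pw_mul C C' t).le⟩

theorem PB.pow {f : ℕ → ℕ} (hf : PB f) (n : ℕ) : PB (fun t => f t ^ n) := by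
  obtain ⟨C, hC⟩ := hf
  refine ⟨C * n, fun t => ?_⟩
  refine (Nat.pow_le_pow_left (hC t) n).trans ?_
  show ((t + 2) ^ C) ^ n ≤ (t + 2) ^ (C * n)
  rw [pow_mul]

theorem PB.mono {f g : ℕ → ℕ} (hg : PB g) (h : ∀ t, f t ≤ g t) : PB f := by
  obtain ⟨C, hC⟩ := hg
  exact ⟨C, fun t => (h t).trans (hC t)⟩

theorem PB.max {f g : ℕ → ℕ} (hf : PB f) (hg : PB g) : PB (fun t => Max.max (f t) (g t)) := by
  refine PB.mono (PB.add hf hg) fun t => ?_
  exact max_le (Nat.le_add_right _ _) (Nat.le_add_left _ _)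

/-- composition; `f t ≤ pw C t` for all `t`, `pw C` is monotone, and `pw C (pw C' t) ≤ pw _ t`. -/
theorem PB.comp {f g : ℕ → ℕ} (hf : PB f) (hg : PB g) : PB (fun t => f (g t)) := by
  obtain ⟨C, hC⟩ := hf
  obtain ⟨C', hC'⟩ := hg
  exact ⟨C * (C' + 2), fun t => (hC _).trans ((pw_mono C (hC' t)).trans (pw_comp C C' t))⟩

section
variable {M : Type} [AddCommGroup M] [Module (ZMod 2) M] [Finite M]

theorem er_nonneg (s R : ℕ) : 0 ≤ er M s R := by
  unfold er
  have := nc_nonneg M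
  positivity

/-- `2 |M| ≥ 2`. -/
theorem er_mono {s s' : ℕ} (h : s ≤ s') (R : ℕ) : er M s R ≤ er M s' R := by
  unfold er
  have h1 : (1 : ℝ) ≤ nc M := one_le_nc
  refine div_le_div_of_nonneg_right ?_ (by positivity)
  exact pow_le_pow_right₀ (by linarith) h

theorem er_anti (s : ℕ) {R R' : ℕ} (h : R ≤ R') : er M s R' ≤ er M s R := by
  unfold er
  have h1 : (1 : ℝ) ≤ nc M := one_le_nc
  refine div_le_div_of_nonneg_left (by positivity) (by positivity) ?_
  exact pow_le_pow_right₀ (by norm_num) h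

/-- `2 |M| = 2 ^ (rk M + 1)`. -/
theorem er_le {s R D : ℕ} (h : s * (rk M + 1) + D ≤ R) : er M s R ≤ (1 / 2 : ℝ) ^ D := by
  unfold er
  have h1 : 2 * nc M = 2 ^ (rk M + 1) := by
    rw [nc_finrank, pow_succ, mul_comm]
  rw [h1, ← pow_mul, one_div, inv_pow, ← one_div, div_le_div_iff₀ (by positivity) (by positivity),
    one_mul, ← pow_add]
  apply pow_le_pow_right₀ (by norm_num)
  rw [mul_comm (rk M + 1) s]
  exact h

theorem nc_mul_er (k s R : ℕ) : nc M ^ k * er M s R ≤ er M (k + s) R := by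
  unfold er
  have h1 : (1 : ℝ) ≤ nc M := one_le_nc
  rw [← mul_div_assoc]
  refine div_le_div_of_nonneg_right ?_ (by positivity)
  rw [pow_add]
  refine mul_le_mul_of_nonneg_right ?_ (by positivity)
  exact pow_le_pow_left₀ (by linarith) (by linarith) k

theorem two_mul_er (k s R : ℕ) : 2 ^ k * er M s R ≤ er M (k + s) R := by
  unfold er
  have h1 : (1 : ℝ) ≤ nc M := one_le_nc
  rw [← mul_div_assoc]
  refine div_le_div_of_nonneg_right ?_ (by positivity)
  rw [pow_add]
  refine mul_le_mul_of_nonneg_right ?_ (by positivity)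
  exact pow_le_pow_left₀ (by norm_num) (by linarith) k

end

end G2
end

section

/-!
# Job QD2: exponential sums of quadratic maps of high rank

(Q1), (Q2), (Q3) of paper 501.
-/

set_option autoImplicit false

open Module

namespace G2

variable {V M L : Type} [AddCommGroup V] [Module (ZMod 2) V] [Finite V]
  [AddCommGroup M] [Module (ZMod 2) M] [Finite M] [AddCommGroup L] [Module (ZMod 2) L] [Finite L]

theorem av_su_comm {α β : Type} [Finite α] [Finite β] (f : α → β → ℝ) :
    av (fun y => su (fun b => f y b)) = su (fun b => av (fun y => f y b)) := by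
  simp only [av, div_eq_mul_inv]
  rw [su_comm, su_mul_right]

/-- a sum with one main term -/
theorem abs_su_sub_le {β : Type} [Finite β] (F : β → ℝ) (b₀ : β) (c ε : ℝ)
    (h0 : |F b₀ - c| ≤ ε) (h : ∀ b, b ≠ b₀ → |F b| ≤ ε) : |su F - c| ≤ nc β * ε := by
  classical
  have := Fintype.ofFinite β
  have e1 : su F - c = ∑ b, (if b = b₀ then F b - c else F b) := by
    rw [su_eq]
    have : ∀ b, (if b = b₀ then F b - c else F b) = F b - (if b = b₀ then c else 0) := by
      intro b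
      split_ifs <;> ring
    simp only [this, Finset.sum_sub_distrib, Finset.sum_ite_eq', Finset.mem_univ, if_true]
  rw [e1, nc_eq]
  refine (Finset.abs_sum_le_sum_abs _ _).trans ?_
  refine (Finset.sum_le_card_nsmul _ _ ε ?_).trans ?_
  · intro b _
    split_ifs with hb
    · rw [hb]
      exact h0
    · exact h b hb
  · rw [Finset.card_univ, nsmul_eq_mul]

theorem abs_su_le' {β : Type} [Finite β] (F : β → ℝ) (ε : ℝ)
    (h : ∀ b, |F b| ≤ ε) : |su F| ≤ nc β * ε := by
  refine (abs_su_le F).trans ?_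
  rw [← su_const]
  exact su_le_su h

/-- (Q1). `(E_y sg p(y))^2 = E_{h} E_y sg (p(y) + p(y+h)) = E_h sg(p(h) + p(0)) E_y sg ψ(y,h)`, and
the inner average is `1` or `0` according to whether `ψ(·,h) = ψ(h,·)` vanishes
(`av_sg_zero`, `av_sg_ne`). -/
theorem char_sq {p : V → ZMod 2} {ψ : Bil V (ZMod 2)} (hp : IsQ p ψ) :
    (av fun y => sg (p y)) ^ 2 ≤ dn {x : V | ∀ y, ψ x y = 0} := by
  have key : ∀ h, av (fun y => sg (p y) * sg (p (y + h))) =
      sg (p h + p 0) * ind {x : V | ∀ y, ψ x y = 0} h := by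
    intro h
    have e : ∀ y, sg (p y) * sg (p (y + h)) = sg (p h + p 0) * sg (ψ h y) := by
      intro y
      rw [← sg_add, ← sg_add]
      congr 1
      rw [hp y h, hp.symm y h]
      have := add_self (p y)
      linear_combination this
    simp only [e, av_mul_left]
    congr 1
    by_cases hh : ψ h = 0
    · rw [ind_pos (A := {x : V | ∀ y, ψ x y = 0}) (fun y => by rw [hh]; rfl), hh]
      exact av_sg_zero
    · rw [ind_neg (A := {x : V | ∀ y, ψ x y = 0})
        (fun h' => hh (LinearMap.ext fun y => h' y))]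
      exact av_sg_ne hh
  have e1 : (av fun y => sg (p y)) ^ 2 =
      av fun h => sg (p h + p 0) * ind {x : V | ∀ y, ψ x y = 0} h := by
    rw [sq, av_mul_av]
    have : ∀ y, av (fun z => sg (p y) * sg (p z)) = av (fun h => sg (p y) * sg (p (y + h))) :=
      fun y => (av_shift_left (fun z => sg (p y) * sg (p z)) y).symm
    simp only [this]
    rw [av_comm]
    simp only [key]
  rw [e1]
  refine (le_abs_self _).trans ((abs_av_le _).trans (av_le_av fun h => ?_))
  rw [abs_mul, abs_sg, one_mul, abs_of_nonneg (ind_nonneg _ _)]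

/-- consequence: every nontrivial component of `q` plus a linear functional has small average -/
theorem char_le {q : V → M} {φ : Bil V M} (hq : IsQ q φ) {R : ℕ} (hR : HR φ R) {a : Du M}
    (ha : a ≠ 0) (l : Du V) : |av fun y => sg (a (q y)) * sg (l y)| ≤ 1 / 2 ^ R := by
  have h1 := char_sq ((hq.comp a).add_lin l 0)
  have h2 := hR a ha
  have e : ∀ y, sg (a (q y) + (l y + 0)) = sg (a (q y)) * sg (l y) := fun y => by
    rw [add_zero, sg_add]
  simp only [e] at h1
  have h3 : dn {x : V | ∀ y, (φ.compr₂ a) x y = 0} = dn {x : V | ∀ y, a (φ x y) = 0} := rfl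
  rw [h3] at h1
  have h4 : (0 : ℝ) < 4 ^ R := by positivity
  have h5 : (av fun y => sg (a (q y)) * sg (l y)) ^ 2 ≤ (1 / 2 ^ R) ^ 2 := by
    refine h1.trans ?_
    rw [div_pow, one_pow, ← pow_mul, mul_comm R 2, pow_mul, le_div_iff₀ (by norm_num)]
    norm_num
    linarith
  exact abs_le_of_sq_le_sq h5 (by positivity)

/-- `ν(y) = ∑_{a ∈ M*} sg(a(q y))` -/
theorem nu_eq_su (q : V → M) (y : V) : nu q y = su fun a : Du M => sg (a (q y)) := by
  by_cases h : q y = 0
  · rw [nu, ind_pos (A := {y | q y = 0}) h, mul_one, h, su_sg_zero]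
  · rw [nu, ind_neg (A := {y | q y = 0}) h, mul_zero, su_sg_ne h]

theorem nu_nonneg (q : V → M) (y : V) : 0 ≤ nu q y := by
  exact mul_nonneg (nc_nonneg M) (ind_nonneg _ _)

theorem nu_le (q : V → M) (y : V) : nu q y ≤ nc M := by
  exact mul_le_of_le_one_right (nc_nonneg M) (ind_le_one _ _)

/-- (Q2) for `l = 0` -/
theorem av_nu {q : V → M} {φ : Bil V M} (hq : IsQ q φ) {R : ℕ} (hR : HR φ R) :
    |av (nu q) - 1| ≤ er M 1 R := by
  have e : av (nu q) = su fun a : Du M => av fun y => sg (a (q y)) * sg ((0 : Du V) y) := by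
    have : nu q = fun y => su fun a : Du M => sg (a (q y)) * sg ((0 : Du V) y) := by
      funext y
      rw [nu_eq_su]
      simp only [LinearMap.zero_apply, sg_zero, mul_one]
    rw [this, av_su_comm]
  rw [e]
  refine (abs_su_sub_le _ 0 1 (1 / 2 ^ R) ?_ fun a ha => char_le hq hR ha 0).trans ?_
  · simp only [LinearMap.zero_apply, sg_zero, mul_one, av_const, sub_self, abs_zero]
    positivity
  · rw [nc_Du, er, pow_one, mul_one_div]
    refine div_le_div_of_nonneg_right ?_ (by positivity)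
    linarith [nc_nonneg M]

/-- (Q2) for `l ≠ 0` -/
theorem ft_nu {q : V → M} {φ : Bil V M} (hq : IsQ q φ) {R : ℕ} (hR : HR φ R) {l : Du V}
    (hl : l ≠ 0) : |ft (nu q) l| ≤ er M 1 R := by
  have e : ft (nu q) l = su fun a : Du M => av fun y => sg (a (q y)) * sg (l y) := by
    rw [ft, ← av_su_comm]
    congr 1
    funext y
    rw [nu_eq_su, su_mul_right]
  rw [e, ← sub_zero (su _)]
  refine (abs_su_sub_le _ 0 0 (1 / 2 ^ R) ?_ fun a ha => char_le hq hR ha l).trans ?_
  · simp only [LinearMap.zero_apply, sg_zero, one_mul, av_sg_ne hl, sub_self, abs_zero]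
    positivity
  · rw [nc_Du, er, pow_one, mul_one_div]
    refine div_le_div_of_nonneg_right ?_ (by positivity)
    linarith [nc_nonneg M]

/-- (Q3), first case: `l = b ∘ T`, with `b = 0` for the number of points in a fibre.
Expand the indicator function by `av_fibre`, then use (Q2): `b' ∘ T + b ∘ T = 0` only for
`b' = b`, because `T` is surjective. -/
theorem fibre_nu {q : V → M} {φ : Bil V M} (hq : IsQ q φ) {R : ℕ} (hR : HR φ R)
    (T : V →ₗ[ZMod 2] L) (hT : Function.Surjective T) (s : L) (b : Du L) :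
    |nc L * av (fun y => nu q y * ind {y | T y = s} y * sg (b (T y))) - sg (b s)| ≤
      nc L * er M 1 R := by
  have e0 : (fun y => nu q y * ind {y | T y = s} y * sg (b (T y))) =
      fun y => (nu q y * sg (b (T y))) * ind {y | T y = s} y := by
    funext y
    ring
  rw [e0, av_fibre]
  have e1 : ∀ b' : Du L, ft (fun y => nu q y * sg (b (T y))) (b'.comp T) =
      ft (nu q) ((b + b').comp T) := by
    intro b'
    unfold ft
    congr 1
    funext y
    rw [LinearMap.comp_apply, LinearMap.comp_apply, LinearMap.add_apply, sg_add, mul_assoc]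
  simp only [e1]
  have h0 := abs_su_sub_le (fun b' : Du L => ft (nu q) ((b + b').comp T) * sg (b' s)) b (sg (b s))
    (er M 1 R) ?_ ?_
  · rwa [nc_Du] at h0
  · have e2 : (b + b).comp T = (0 : Du V) := by rw [add_self, LinearMap.zero_comp]
    rw [e2, ft_zero]
    have e3 : av (nu q) * sg (b s) - sg (b s) = (av (nu q) - 1) * sg (b s) := by ring
    rw [e3, abs_mul, abs_sg, mul_one]
    exact av_nu hq hR
  · intro b' hb'
    rw [abs_mul, abs_sg, mul_one]
    refine ft_nu hq hR ?_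
    intro h
    apply hb'
    have h1 : b + b' = 0 := by
      ext x
      obtain ⟨y, rfl⟩ := hT x
      exact LinearMap.congr_fun h y
    exact (eq_of_add_eq_zero h1).symm

/-- (Q3), second case: `l` is not of the form `b ∘ T` (no surjectivity needed) -/
theorem fibre_nu' {q : V → M} {φ : Bil V M} (hq : IsQ q φ) {R : ℕ} (hR : HR φ R)
    (T : V →ₗ[ZMod 2] L) (s : L) (l : Du V) (hl : ∀ b : Du L, l ≠ b.comp T) :
    |nc L * av (fun y => nu q y * ind {y | T y = s} y * sg (l y))| ≤ nc L * er M 1 R := by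
  have e0 : (fun y => nu q y * ind {y | T y = s} y * sg (l y)) =
      fun y => (nu q y * sg (l y)) * ind {y | T y = s} y := by
    funext y
    ring
  rw [e0, av_fibre]
  have e1 : ∀ b' : Du L, ft (fun y => nu q y * sg (l y)) (b'.comp T) =
      ft (nu q) (l + b'.comp T) := by
    intro b'
    unfold ft
    congr 1
    funext y
    rw [LinearMap.add_apply, sg_add, mul_assoc]
  simp only [e1]
  have h0 := abs_su_le' (fun b' : Du L => ft (nu q) (l + b'.comp T) * sg (b' s)) (er M 1 R) ?_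
  · rwa [nc_Du] at h0
  · intro b'
    rw [abs_mul, abs_sg, mul_one]
    exact ft_nu hq hR fun h => hl b' (eq_of_add_eq_zero h)

/-- (Q5) restriction along an injective linear map with image of codimension at most `k`.
Let `a ≠ 0` and `K_W = {w : ∀ w', a φ(i w, i w') = 0}`.  The map `w ↦ aφ(i w, ·)` sends `K_W` into
the functionals vanishing on the image of `i`, of which there are at most `2^k`; its kernel is
contained in `i⁻¹ {x : aφ(x,·) = 0}`.  So `|K_W| ≤ 2^k · 4^(-R) |V| ≤ 4^k 4^(-R) |W|`. -/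
theorem HR.pull {φ : Bil V M} {R : ℕ} (hR : HR φ R) {W : Type} [AddCommGroup W]
    [Module (ZMod 2) W] [Finite W] (i : W →ₗ[ZMod 2] V) (hi : Function.Injective i) {k : ℕ}
    (hk : rk V ≤ rk W + k) (hkR : k ≤ R) : HR (G2.pull φ i) (R - k) := by
  intro a ha
  have hR' := hR a ha
  let A : V →ₗ[ZMod 2] Du V := φ.compr₂ a
  let r : Du V →ₗ[ZMod 2] Du W := i.dualMap
  let B : W →ₗ[ZMod 2] Du W := (r.comp A).comp i
  have e1 : {x : W | ∀ y, a (G2.pull φ i x y) = 0} = (LinearMap.ker B : Set W) := by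
    ext x
    simp only [Set.mem_ofPred_eq, SetLike.mem_coe, LinearMap.mem_ker]
    constructor
    · intro h
      ext y
      exact h y
    · intro h y
      exact LinearMap.congr_fun h y
  have e2 : {x : V | ∀ y, a (φ x y) = 0} = (LinearMap.ker A : Set V) := by
    ext x
    simp only [Set.mem_ofPred_eq, SetLike.mem_coe, LinearMap.mem_ker]
    constructor
    · intro h
      ext y
      exact h y
    · intro h y
      exact LinearMap.congr_fun h y
  rw [e2] at hR'
  rw [e1]
  -- dimensions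
  have hr : Function.Surjective r := LinearMap.dualMap_surjective_of_injective hi
  have d1 : rk (LinearMap.ker r) + rk W = rk V := by
    have h1 : rk (LinearMap.range r) + rk (LinearMap.ker r) = rk (Du V) :=
      LinearMap.finrank_range_add_finrank_ker r
    have h0 : rk (LinearMap.range r) = rk (Du W) := by
      rw [LinearMap.range_eq_top.2 hr]
      exact finrank_top _ _
    have h2 : rk (Du V) = rk V := Subspace.dual_finrank_eq
    have h3 : rk (Du W) = rk W := Subspace.dual_finrank_eq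
    omega
  have d2 : rk (LinearMap.ker B) ≤ rk (LinearMap.ker A) + rk (LinearMap.ker r) := by
    let C : LinearMap.ker B →ₗ[ZMod 2] LinearMap.ker r :=
      LinearMap.codRestrict (LinearMap.ker r) ((A.comp i).comp (LinearMap.ker B).subtype)
        (fun w => by
          have := w.2
          rw [LinearMap.mem_ker] at this ⊢
          exact this)
    have h1 : rk (LinearMap.range C) + rk (LinearMap.ker C) = rk (LinearMap.ker B) :=
      LinearMap.finrank_range_add_finrank_ker C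
    have h2 : rk (LinearMap.range C) ≤ rk (LinearMap.ker r) :=
      Submodule.finrank_le _
    let E : LinearMap.ker C →ₗ[ZMod 2] LinearMap.ker A :=
      LinearMap.codRestrict (LinearMap.ker A)
        ((i.comp (LinearMap.ker B).subtype).comp (LinearMap.ker C).subtype)
        (fun w => by
          have := w.2
          rw [LinearMap.mem_ker] at this ⊢
          exact congrArg Subtype.val this)
    have h3 : rk (LinearMap.ker C) ≤ rk (LinearMap.ker A) := by
      refine LinearMap.finrank_le_finrank_of_injective (f := E) ?_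
      intro x y hxy
      have h4 : i (x : LinearMap.ker B) = i (y : LinearMap.ker B) := congrArg Subtype.val hxy
      exact Subtype.ext (Subtype.ext (hi h4))
    omega
  have d3 : rk (LinearMap.ker A) ≤ rk V := Submodule.finrank_le _
  have d4 : rk (LinearMap.ker B) ≤ rk W := Submodule.finrank_le _
  have s1 := dn_submodule (LinearMap.ker A)
  have s2 := dn_submodule (LinearMap.ker B)
  have d5 : 2 * R + rk (LinearMap.ker A) ≤ rk V := by
    by_contra hc
    have h1 : rk V - rk (LinearMap.ker A) < 2 * R := by omega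
    have h2 : (2 : ℝ) ^ (rk V - rk (LinearMap.ker A)) < 2 ^ (2 * R) :=
      pow_lt_pow_right₀ (by norm_num) h1
    have h3 : 0 < dn (LinearMap.ker A : Set V) := dn_pos ⟨0, Submodule.zero_mem _⟩
    have h4 : (2 : ℝ) ^ (2 * R) = 4 ^ R := by rw [pow_mul]; norm_num
    rw [h4] at h2
    have h5 := mul_lt_mul_of_pos_right h2 h3
    rw [s1] at h5
    linarith
  have h6 : (4 : ℝ) ^ (R - k) ≤ 2 ^ (rk W - rk (LinearMap.ker B)) := by
    have h4 : (4 : ℝ) ^ (R - k) = 2 ^ (2 * (R - k)) := by rw [pow_mul]; norm_num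
    rw [h4]
    exact pow_le_pow_right₀ (by norm_num) (by omega)
  calc (4 : ℝ) ^ (R - k) * dn (LinearMap.ker B : Set W)
      ≤ 2 ^ (rk W - rk (LinearMap.ker B)) * dn (LinearMap.ker B : Set W) :=
        mul_le_mul_of_nonneg_right h6 (dn_nonneg _)
    _ = 1 := s2
    _ ≤ 1 := le_rfl

theorem HR.mono {φ : Bil V M} {R R' : ℕ} (hR : HR φ R) (h : R' ≤ R) : HR φ R' := by
  intro a ha
  refine (mul_le_mul_of_nonneg_right ?_ (dn_nonneg _)).trans (hR a ha)
  exact pow_le_pow_right₀ (by norm_num) h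

end G2
end

section

section

/-! # Block A: sifting with a reference density -/

set_option autoImplicit false

namespace EHProj

open Module

section KM
variable {G : Type} [AddCommGroup G] [Fintype G]

set_option linter.unusedSectionVars false

open Classical in
/-- indicator function -/
noncomputable def asI (A : Finset G) (y : G) : ℝ := if y ∈ A then 1 else 0

/-- number of representations -/
noncomputable def asR (A : Finset G) (x : G) : ℝ := ∑ y, asI A (x + y) * asI A y

/-- normalised number of representations -/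
noncomputable def hh (A : Finset G) (x : G) : ℝ := asR A x / (Fintype.card G : ℝ)

/-- indicator function of the intersection of translates -/
private noncomputable def asF (A : Finset G) {N : ℕ} (s : Fin N → G) (y : G) : ℝ :=
  ∏ i, asI A (y + s i)

theorem asI_nonneg (A : Finset G) (y : G) : 0 ≤ asI A y := by
  unfold asI; split_ifs <;> norm_num

theorem asR_nonneg (A : Finset G) (x : G) : 0 ≤ asR A x :=
  Finset.sum_nonneg fun _ _ => mul_nonneg (asI_nonneg _ _) (asI_nonneg _ _)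

theorem hh_nonneg (A : Finset G) (x : G) : 0 ≤ hh A x :=
  div_nonneg (asR_nonneg A x) (Nat.cast_nonneg _)

private theorem asF_nonneg (A : Finset G) {N : ℕ} (s : Fin N → G) (y : G) : 0 ≤ asF A s y :=
  Finset.prod_nonneg fun _ _ => asI_nonneg _ _

/-- the key identity -/
private theorem as_key (A : Finset G) (N : ℕ) (x : G) :
    ∑ s : Fin N → G, ∑ y, asF A s y * asF A s (x + y) =
      (Fintype.card G : ℝ) * asR A x ^ N := by
  rw [Finset.sum_comm]
  have e : ∀ y : G, ∑ s : Fin N → G, asF A s y * asF A s (x + y) = asR A x ^ N := by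
    intro y
    have e1 : ∀ s : Fin N → G, asF A s y * asF A s (x + y) =
        ∏ i, (asI A (y + s i) * asI A (x + y + s i)) := by
      intro s
      unfold asF
      rw [Finset.prod_mul_distrib]
    simp only [e1]
    have e2 := Finset.prod_univ_sum (fun _ : Fin N => (Finset.univ : Finset G))
      (fun _ g => asI A (y + g) * asI A (x + y + g))
    rw [Fintype.piFinset_univ] at e2
    rw [← e2]
    have e3 : ∑ g : G, asI A (y + g) * asI A (x + y + g) = asR A x := by
      have := Equiv.sum_comp (Equiv.addLeft y) (fun g => asI A (x + g) * asI A g)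
      simp only [Equiv.coe_addLeft] at this
      unfold asR
      rw [← this]
      refine Finset.sum_congr rfl fun g _ => ?_
      rw [← add_assoc, mul_comm]
    rw [e3, Finset.prod_const, Finset.card_univ, Fintype.card_fin]
  simp only [e]
  rw [Finset.sum_const, Finset.card_univ, nsmul_eq_mul]

private theorem as_first (A : Finset G) (N : ℕ) :
    ∑ s : Fin N → G, ∑ y, asF A s y = (Fintype.card G : ℝ) * (A.card : ℝ) ^ N := by
  classical
  rw [Finset.sum_comm]
  have e : ∀ y : G, ∑ s : Fin N → G, asF A s y = (A.card : ℝ) ^ N := by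
    intro y
    have e2 := Finset.prod_univ_sum (fun _ : Fin N => (Finset.univ : Finset G))
      (fun _ g => asI A (y + g))
    rw [Fintype.piFinset_univ] at e2
    unfold asF
    rw [← e2]
    have e3 : ∑ g : G, asI A (y + g) = (A.card : ℝ) := by
      have := Equiv.sum_comp (Equiv.addLeft y) (fun g => asI A g)
      simp only [Equiv.coe_addLeft] at this
      rw [this]
      unfold asI
      rw [Finset.sum_boole]
      congr 2
      ext z
      simp
    rw [e3, Finset.prod_const, Finset.card_univ, Fintype.card_fin]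
  simp only [e]
  rw [Finset.sum_const, Finset.card_univ, nsmul_eq_mul]

/-- weighted pairs -/
private theorem as_pairs (F w : G → ℝ) :
    ∑ x, w x * ∑ y, F y * F (x + y) = ∑ y, ∑ z, F y * F z * w (z - y) := by
  have e : ∀ y : G, ∑ z, F y * F z * w (z - y) = ∑ x, w x * (F y * F (x + y)) := by
    intro y
    rw [← Equiv.sum_comp (Equiv.addRight y)]
    refine Finset.sum_congr rfl fun x _ => ?_
    simp only [Equiv.coe_addRight, add_sub_cancel_right]
    ring
  simp only [e, Finset.mul_sum]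
  rw [Finset.sum_comm]

open Classical in
theorem siftG (A : Finset G) (N E : ℕ) (hE : 1 ≤ E) (B u w : ℝ) (hB : 0 < B)
    (hu : 1 ≤ u) (hw : 0 ≤ w) (hAB : (A.card : ℝ) / (Fintype.card G : ℝ) ≤ B)
    (hN : 2 * (E : ℝ) * w ^ N ≤ u ^ N) (h : (u * B ^ 2) ^ N ≤ avg (fun x => hh A x ^ N)) :
    ∃ A' : Finset G, A'.Nonempty ∧ B ^ N / 4 ≤ (A'.card : ℝ) / (Fintype.card G : ℝ) ∧
      (1 - 1 / (E : ℝ)) * (A'.card : ℝ) ^ 2 ≤
        (((A' ×ˢ A').filter (fun q => w * B ^ 2 ≤ hh A (q.2 - q.1))).card : ℝ) := by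
  have hG : (0 : ℝ) < (Fintype.card G : ℝ) := by
    have : 0 < Fintype.card G := Fintype.card_pos_iff.mpr ⟨0⟩
    positivity
  have hE0 : (0 : ℝ) < (E : ℝ) := by exact_mod_cast hE
  set g : ℝ := (Fintype.card G : ℝ) with hg
  set c : ℝ := (A.card : ℝ) with hc
  have hc0 : 0 ≤ c := by positivity
  set M : ℝ := ∑ x, asR A x ^ N with hM
  -- lower bound for M
  have hM1 : g * ((u * B ^ 2) ^ N * g ^ N) ≤ M := by
    have e : avg (fun x => hh A x ^ N) = M / (g * g ^ N) := by
      unfold avg hh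
      simp only [div_pow]
      rw [← Finset.sum_div, div_div, mul_comm (g ^ N) _]
    rw [e, le_div_iff₀ (by positivity)] at h
    calc g * ((u * B ^ 2) ^ N * g ^ N) = (u * B ^ 2) ^ N * (g * g ^ N) := by ring
      _ ≤ M := h
  have hM0 : g * ((B ^ 2) ^ N * g ^ N) ≤ M := by
    refine le_trans ?_ hM1
    have : (1 : ℝ) ≤ u ^ N := one_le_pow₀ hu
    rw [mul_pow u]
    refine mul_le_mul_of_nonneg_left ?_ hG.le
    refine mul_le_mul_of_nonneg_right ?_ (by positivity)
    exact le_mul_of_one_le_left (by positivity) this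
  have hMpos : 0 < M := lt_of_lt_of_le (by positivity) hM0
  -- notation
  set S : (Fin N → G) → ℝ := fun s => ∑ y, asF A s y with hS
  set wb : G → ℝ := fun x => if w * B ^ 2 ≤ hh A x then 0 else 1 with hwb
  set wg : G → ℝ := fun x => if w * B ^ 2 ≤ hh A x then 1 else 0 with hwg
  set bad : (Fin N → G) → ℝ := fun s => ∑ x, wb x * ∑ y, asF A s y * asF A s (x + y) with hbad
  have hS0 : ∀ s, 0 ≤ S s := fun s => Finset.sum_nonneg fun y _ => asF_nonneg _ _ _
  have hbad0 : ∀ s, 0 ≤ bad s := fun s => Finset.sum_nonneg fun x _ => by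
    refine mul_nonneg ?_ (Finset.sum_nonneg fun y _ =>
      mul_nonneg (asF_nonneg _ _ _) (asF_nonneg _ _ _))
    simp only [hwb]; split_ifs <;> norm_num
  have hSsq : ∀ s, S s ^ 2 = ∑ x, ∑ y, asF A s y * asF A s (x + y) := by
    intro s
    have := as_pairs (asF A s) (fun _ => 1)
    simp only [one_mul, mul_one] at this
    rw [this, hS, sq, Finset.sum_mul_sum]
  -- (a)
  have ha : ∑ s, S s ^ 2 = g * M := by
    simp only [hSsq]
    rw [Finset.sum_comm]
    simp only [as_key]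
    rw [← Finset.mul_sum]
  -- (b)
  have hb : (E : ℝ) * ∑ s, bad s ≤ (1 / 2) * (g * M) := by
    simp only [hbad]
    rw [Finset.sum_comm]
    have e : ∀ x : G, ∑ s : Fin N → G, wb x * ∑ y, asF A s y * asF A s (x + y) =
        wb x * (g * asR A x ^ N) := by
      intro x
      rw [← Finset.mul_sum, as_key]
    simp only [e]
    have e2 : ∀ x : G, wb x * (g * asR A x ^ N) ≤ g * ((w * B ^ 2) ^ N * g ^ N) := by
      intro x
      by_cases hx : w * B ^ 2 ≤ hh A x
      · simp only [hwb, hx, if_true, zero_mul]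
        positivity
      · simp only [hwb, hx, if_false, one_mul]
        refine mul_le_mul_of_nonneg_left ?_ hG.le
        rw [← mul_pow]
        refine pow_le_pow_left₀ (asR_nonneg _ _) ?_ N
        have hx' : hh A x < w * B ^ 2 := not_le.mp hx
        rw [hh, div_lt_iff₀ (by positivity)] at hx'
        exact hx'.le
    have e3 : ∑ x : G, wb x * (g * asR A x ^ N) ≤ g * (g * ((w * B ^ 2) ^ N * g ^ N)) := by
      refine (Finset.sum_le_sum fun x _ => e2 x).trans ?_
      rw [Finset.sum_const, Finset.card_univ, nsmul_eq_mul]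
    have e4 : (E : ℝ) * (w * B ^ 2) ^ N ≤ (1 / 2) * (u * B ^ 2) ^ N := by
      rw [mul_pow, mul_pow]
      have h0 : 0 ≤ (B ^ 2) ^ N := by positivity
      nlinarith [mul_le_mul_of_nonneg_right hN h0]
    calc (E : ℝ) * ∑ x : G, wb x * (g * asR A x ^ N)
        ≤ (E : ℝ) * (g * (g * ((w * B ^ 2) ^ N * g ^ N))) :=
          mul_le_mul_of_nonneg_left e3 hE0.le
      _ = ((E : ℝ) * (w * B ^ 2) ^ N) * (g * g * g ^ N) := by ring
      _ ≤ ((1 / 2) * (u * B ^ 2) ^ N) * (g * g * g ^ N) :=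
          mul_le_mul_of_nonneg_right e4 (by positivity)
      _ = (1 / 2) * (g * (g * ((u * B ^ 2) ^ N * g ^ N))) := by ring
      _ ≤ (1 / 2) * (g * M) := by
          refine mul_le_mul_of_nonneg_left ?_ (by norm_num)
          exact mul_le_mul_of_nonneg_left hM1 hG.le
  -- (d)
  set τ : ℝ := g * (B ^ N / 4) with hτ
  have hτ0 : 0 ≤ τ := by positivity
  have hd : ∑ s, (if S s < τ then S s ^ 2 else 0) ≤ (1 / 4) * (g * M) := by
    have e1 : ∀ s, (if S s < τ then S s ^ 2 else 0) ≤ τ * S s := by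
      intro s
      split_ifs with hs
      · rw [sq]
        exact mul_le_mul_of_nonneg_right hs.le (hS0 s)
      · exact mul_nonneg hτ0 (hS0 s)
    refine (Finset.sum_le_sum fun s _ => e1 s).trans ?_
    rw [← Finset.mul_sum]
    have e2 : ∑ s, S s = g * c ^ N := as_first A N
    rw [e2, hτ]
    have e5 : c ^ N ≤ (B * g) ^ N := by
      refine pow_le_pow_left₀ hc0 ?_ N
      rwa [div_le_iff₀ hG] at hAB
    calc g * (B ^ N / 4) * (g * c ^ N) ≤ g * (B ^ N / 4) * (g * (B * g) ^ N) := by gcongr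
      _ = (1 / 4) * (g * (g * ((B ^ 2) ^ N * g ^ N))) := by
          rw [mul_pow, ← pow_mul, mul_comm 2 N, pow_mul]
          ring
      _ ≤ (1 / 4) * (g * M) := by
          refine mul_le_mul_of_nonneg_left ?_ (by norm_num)
          exact mul_le_mul_of_nonneg_left hM0 hG.le
  -- choice of s
  have hpos : 0 < ∑ s, (S s ^ 2 - (E : ℝ) * bad s - (if S s < τ then S s ^ 2 else 0)) := by
    rw [Finset.sum_sub_distrib, Finset.sum_sub_distrib, ← Finset.mul_sum, ha]
    have : 0 < g * M := by positivity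
    linarith
  obtain ⟨s, -, hs⟩ : ∃ s ∈ (Finset.univ : Finset (Fin N → G)),
      0 < S s ^ 2 - (E : ℝ) * bad s - (if S s < τ then S s ^ 2 else 0) := by
    by_contra hcon
    push Not at hcon
    have := Finset.sum_nonpos hcon
    linarith
  have hEb : 0 ≤ (E : ℝ) * bad s := mul_nonneg hE0.le (hbad0 s)
  have hnot : ¬ S s < τ := by
    intro hlt
    rw [if_pos hlt] at hs
    linarith
  rw [if_neg hnot, sub_zero] at hs
  have hSpos : 0 < S s := by
    rcases (hS0 s).lt_or_eq with h0 | h0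
    · exact h0
    · rw [← h0] at hs
      norm_num at hs
      linarith
  -- the set
  set A' : Finset G := Finset.univ.filter (fun y => ∀ i, y + s i ∈ A) with hA'
  have hF : ∀ y, asF A s y = if y ∈ A' then 1 else 0 := by
    intro y
    unfold asF asI
    rw [Finset.prod_ite_zero]
    simp [hA']
  have hcard : S s = (A'.card : ℝ) := by
    rw [hS]
    simp only [hF]
    rw [Finset.sum_boole]
    congr 2
    ext z
    simp
  refine ⟨A', ?_, ?_, ?_⟩
  · rw [← Finset.card_pos]
    rw [hcard] at hSpos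
    exact_mod_cast hSpos
  · rw [le_div_iff₀ hG, ← hcard]
    have := not_lt.mp hnot
    rw [hτ] at this
    linarith
  · have hgood : (((A' ×ˢ A').filter (fun q => w * B ^ 2 ≤ hh A (q.2 - q.1))).card : ℝ) =
        ∑ x, wg x * ∑ y, asF A s y * asF A s (x + y) := by
      rw [as_pairs]
      rw [← Finset.sum_product', ← Finset.sum_boole, Finset.univ_product_univ]
      rw [← Finset.sum_subset (Finset.subset_univ (A' ×ˢ A'))]
      · rw [Finset.sum_congr rfl]
        intro q hq
        rw [Finset.mem_product] at hq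
        rw [hF, hF, if_pos hq.1, if_pos hq.2]
        simp [hwg]
      · intro q _ hq
        rw [hF, hF]
        rw [Finset.mem_product, not_and_or] at hq
        rcases hq with hq | hq
        · rw [if_neg hq]; ring
        · rw [if_neg hq]; ring
    have hsum : S s ^ 2 = (∑ x, wg x * ∑ y, asF A s y * asF A s (x + y)) + bad s := by
      rw [hSsq, hbad, ← Finset.sum_add_distrib]
      refine Finset.sum_congr rfl fun x _ => ?_
      simp only [hwg, hwb]
      split_ifs <;> ring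
    rw [hgood, ← hcard]
    have h1 : bad s < S s ^ 2 / E := by
      rw [lt_div_iff₀ hE0]; linarith
    have h2 : (1 - 1 / (E : ℝ)) * S s ^ 2 = S s ^ 2 - S s ^ 2 / E := by ring
    rw [h2]
    linarith

end KM

end EHProj
end

section

/-! # Block A: unbalancing, general precision -/

set_option autoImplicit false

namespace EHProj

open Module

section KM
variable {G : Type} [AddCommGroup G] [Fintype G]

private theorem aunb_amgm (x : ℝ) (hx : 0 ≤ x) (k : ℕ) :
    ((k : ℝ) + 1) * x ^ k ≤ k * x ^ (k + 1) + 1 := by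
  induction k with
  | zero => simp
  | succ k ih =>
    push_cast
    have h1 : 0 ≤ (1 + (k : ℝ) * x ^ (k + 1) - ((k : ℝ) + 1) * x ^ k) * x :=
      mul_nonneg (by linarith) hx
    have h2 : ((k : ℝ) + 1 + 1) * x ^ (k + 1) ≤ ((k : ℝ) + 1) * x ^ (k + 1 + 1) + 1 := by
      have h3 : 0 ≤ x ^ (k + 1) * (x - 1) ^ 2 + 0 := by positivity
      -- use the tangent line inequality x^(k+2) ≥ ...
      have hb := one_add_mul_le_pow (a := x - 1) (by linarith) (k + 1)
      have hb2 := one_add_mul_le_pow (a := x - 1) (by linarith) (k + 2)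
      have e1 : 1 + (x - 1) = x := by ring
      rw [e1] at hb hb2
      push_cast at hb hb2
      -- (k+1) x^(k+2) - (k+2) x^(k+1) + 1 ≥ 0
      have key : 0 ≤ ((k : ℝ) + 1) * x ^ (k + 1 + 1) - ((k : ℝ) + 1 + 1) * x ^ (k + 1) + 1 := by
        have e2 : ((k : ℝ) + 1) * x ^ (k + 1 + 1) - ((k : ℝ) + 1 + 1) * x ^ (k + 1) + 1 =
            (((k : ℝ)) * x ^ (k + 1) - ((k : ℝ) + 1) * x ^ k + 1) * x +
              (x ^ (k + 2) - 2 * x ^ (k + 1) + x ^ k * x - x + 1) := by ring
        have e3 : x ^ (k + 2) - 2 * x ^ (k + 1) + x ^ k * x - x + 1 =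
            (x - 1) * (x ^ (k + 1) - 1) := by ring
        have h4 : 0 ≤ (x - 1) * (x ^ (k + 1) - 1) := by
          rcases le_total 1 x with h | h
          · exact mul_nonneg (by linarith) (by have := one_le_pow₀ h (n := k + 1); linarith)
          · exact mul_nonneg_of_nonpos_of_nonpos (by linarith)
              (by have := pow_le_one₀ hx h (n := k + 1); linarith)
        rw [e2, e3]
        have h5 : 0 ≤ (((k : ℝ)) * x ^ (k + 1) - ((k : ℝ) + 1) * x ^ k + 1) * x :=
          mul_nonneg (by linarith) hx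
        linarith
      linarith
    exact h2

/-- unbalancing: `δ = 1 / (2 e)`, `N = (2 e + 1) (k + 1)` -/
theorem unbalanceG (F : G → ℝ) (e k : ℕ) (he : 1 ≤ e) (hk : Even k) (hk2 : 2 ≤ k)
    (hF : ∀ x, -1 ≤ F x)
    (h1 : (1 / (2 * (e : ℝ))) ^ k ≤ avg (fun x => F x ^ k))
    (h2 : 0 ≤ avg (fun x => F x ^ (k + 1))) :
    (1 + 1 / (4 * (e : ℝ))) ^ ((2 * e + 1) * (k + 1)) ≤
      avg (fun x => (1 + F x) ^ ((2 * e + 1) * (k + 1))) := by
  have hn : (0 : ℝ) < (Fintype.card G : ℝ) := by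
    have : 0 < Fintype.card G := Fintype.card_pos_iff.2 ⟨0⟩
    exact_mod_cast this
  have he0 : (0 : ℝ) < e := by exact_mod_cast he
  unfold avg at h1 h2 ⊢
  rw [le_div_iff₀ hn] at h1 ⊢
  have h2' : 0 ≤ ∑ x, F x ^ (k + 1) := by
    have := mul_nonneg h2 hn.le
    rwa [div_mul_cancel₀ _ hn.ne'] at this
  set n : ℝ := (Fintype.card G : ℝ) with hndef
  set δ : ℝ := 1 / (2 * (e : ℝ)) with hδ
  have hδ0 : 0 < δ := by positivity
  have hδe : (2 * (e : ℝ)) * δ = 1 := by rw [hδ]; field_simp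
  have hk0 : (0 : ℝ) < k := by
    have : 0 < k := by omega
    exact_mod_cast this
  have h3 : n ≤ ∑ x, (2 * e * |F x|) ^ k := by
    have h4 : ∑ x, (2 * e * |F x|) ^ k = (2 * e : ℝ) ^ k * ∑ x, F x ^ k := by
      rw [Finset.mul_sum]
      refine Finset.sum_congr rfl fun x _ => ?_
      rw [mul_pow, hk.pow_abs]
    rw [h4]
    have h5 : (2 * e : ℝ) ^ k * (δ ^ k * n) ≤ (2 * e : ℝ) ^ k * ∑ x, F x ^ k := by gcongr
    rw [← mul_assoc, ← mul_pow, hδe, one_pow, one_mul] at h5
    exact h5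
  have h6 : n ≤ ∑ x, (2 * e * |F x|) ^ (k + 1) := by
    have h7 : ∑ x, ((k : ℝ) + 1) * (2 * e * |F x|) ^ k ≤
        ∑ x, (k * (2 * e * |F x|) ^ (k + 1) + 1) :=
      Finset.sum_le_sum fun x _ => aunb_amgm _ (by positivity) k
    rw [← Finset.mul_sum, Finset.sum_add_distrib, ← Finset.mul_sum] at h7
    simp only [Finset.sum_const, Finset.card_univ, nsmul_eq_mul, mul_one] at h7
    rw [← hndef] at h7
    have h8 : ((k : ℝ) + 1) * n ≤ ((k : ℝ) + 1) * ∑ x, (2 * e * |F x|) ^ k := by gcongr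
    have h9 : k * n ≤ k * ∑ x, (2 * e * |F x|) ^ (k + 1) := by linarith
    exact le_of_mul_le_mul_left h9 hk0
  -- pointwise
  have hpt : ∀ t : ℝ, 0 ≤ t → (1 + δ) ^ (2 * e + 1) * (2 * e * t) ≤ (1 + t) ^ (2 * e + 1) := by
    intro t ht
    have hd : (0 : ℝ) < 1 + δ := by linarith
    have hb := one_add_mul_le_pow (a := (1 + t) / (1 + δ) - 1)
      (by have : 0 ≤ (1 + t) / (1 + δ) := by positivity
          linarith) (2 * e + 1)
    have e1 : 1 + ((1 + t) / (1 + δ) - 1) = (1 + t) / (1 + δ) := by ring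
    rw [e1, div_pow, le_div_iff₀ (by positivity)] at hb
    have e2 : 1 + ((2 * e + 1 : ℕ) : ℝ) * ((1 + t) / (1 + δ) - 1) = 2 * e * t := by
      push_cast
      have e3 : (1 + t) / (1 + δ) - 1 = (t - δ) / (1 + δ) := by field_simp; ring
      have e4 : (2 * (e : ℝ) + 1) * δ = 1 + δ := by linarith
      have e5 : (2 * (e : ℝ) + 1) / (1 + δ) = 2 * e := by
        rw [div_eq_iff hd.ne']
        nlinarith
      rw [e3, mul_div_assoc', mul_div_right_comm, e5]
      linarith
    rw [e2] at hb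
    linarith
  have h10 : ∀ x, ((1 + δ) ^ (2 * e + 1)) ^ (k + 1) *
      (((2 * e * |F x|) ^ (k + 1) + (2 * e * F x) ^ (k + 1)) / 2) ≤
      (1 + F x) ^ ((2 * e + 1) * (k + 1)) := by
    intro x
    rcases le_total 0 (F x) with h | h
    · rw [abs_of_nonneg h, add_self_div_two, ← mul_pow, pow_mul]
      exact pow_le_pow_left₀ (by positivity) (hpt _ h) _
    · have hodd : Odd (k + 1) := hk.add_one
      have e1 : (2 * e * |F x|) ^ (k + 1) + (2 * e * F x) ^ (k + 1) = 0 := by
        rw [abs_of_nonpos h, mul_neg, hodd.neg_pow]; ring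
      rw [e1, zero_div, mul_zero]
      have := hF x
      have h0 : 0 ≤ 1 + F x := by linarith
      positivity
  have h11 : ((1 + δ) ^ (2 * e + 1)) ^ (k + 1) * (n / 2) ≤
      ∑ x, (1 + F x) ^ ((2 * e + 1) * (k + 1)) := by
    refine le_trans ?_ (Finset.sum_le_sum fun x _ => h10 x)
    rw [← Finset.mul_sum, ← Finset.sum_div, Finset.sum_add_distrib]
    refine mul_le_mul_of_nonneg_left ?_ (by positivity)
    have e1 : ∑ x, (2 * e * F x) ^ (k + 1) = (2 * e : ℝ) ^ (k + 1) * ∑ x, F x ^ (k + 1) := by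
      rw [Finset.mul_sum]
      exact Finset.sum_congr rfl fun x _ => mul_pow _ _ _
    have e2 : 0 ≤ ∑ x, (2 * e * F x) ^ (k + 1) := by rw [e1]; positivity
    linarith
  refine le_trans ?_ h11
  rw [← pow_mul]
  set N : ℕ := (2 * e + 1) * (k + 1) with hN
  have hN4 : 4 * e + 1 ≤ N := by rw [hN]; nlinarith
  -- ((1+δ)/(1+δ/2))^N ≥ 2
  have h12 : (1 + 1 / (4 * (e : ℝ))) * (1 + 1 / ((4 * e + 1 : ℕ) : ℝ)) = 1 + δ := by
    rw [hδ]; push_cast; field_simp; ring
  have h13 : (2 : ℝ) ≤ (1 + 1 / ((4 * e + 1 : ℕ) : ℝ)) ^ N := by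
    have hb := one_add_mul_le_pow (a := 1 / ((4 * e + 1 : ℕ) : ℝ)) (by
      have : (0 : ℝ) ≤ 1 / ((4 * e + 1 : ℕ) : ℝ) := by positivity
      linarith) (4 * e + 1)
    have e1 : ((4 * e + 1 : ℕ) : ℝ) * (1 / ((4 * e + 1 : ℕ) : ℝ)) = 1 := by
      rw [mul_one_div_cancel]; positivity
    rw [e1] at hb
    refine le_trans (by linarith) (hb.trans ?_)
    refine pow_le_pow_right₀ ?_ hN4
    have : (0 : ℝ) ≤ 1 / ((4 * e + 1 : ℕ) : ℝ) := by positivity
    linarith
  rw [← h12, mul_pow]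
  have h14 : 0 ≤ (1 + 1 / (4 * (e : ℝ))) ^ N := by positivity
  calc (1 + 1 / (4 * (e : ℝ))) ^ N * n = (1 + 1 / (4 * (e : ℝ))) ^ N * 2 * (n / 2) := by ring
    _ ≤ (1 + 1 / (4 * (e : ℝ))) ^ N * (1 + 1 / ((4 * e + 1 : ℕ) : ℝ)) ^ N * (n / 2) := by
        refine mul_le_mul_of_nonneg_right ?_ (by positivity)
        exact mul_le_mul_of_nonneg_left h13 h14

end KM

end EHProj
end

section

/-! # Block A: the density step, general precision -/

set_option autoImplicit false

namespace EHProj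

open Module

section KM
variable {G : Type} [AddCommGroup G] [Fintype G]
variable {p : ℕ} [Fact p.Prime] [Module (ZMod p) G]

theorem density_stepG (A : Finset G) (hA : A.Nonempty) (W : Submodule (ZMod p) G)
    (u : G) (B w₀ κ : ℝ) (hw : 0 < w₀) (hκ : 0 < κ) (hB : 0 < B)
    (hAB : (A.card : ℝ) / (Fintype.card G : ℝ) ≤ B)
    (f : G → ℝ) (hf : ∀ x, w₀ * B ^ 2 * f x ≤ hh A x)
    (hu : κ * (Nat.card W : ℝ) ≤ ∑ᶠ w : W, f (u + (w : G))) :
    ∃ x : G, w₀ * κ * B ≤ rd (A : Set G) W x := by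
  classical
  have hn : (0 : ℝ) < (Fintype.card G : ℝ) := by
    have : 0 < Fintype.card G := Fintype.card_pos_iff.2 ⟨0⟩
    exact_mod_cast this
  have ha : (0 : ℝ) < (A.card : ℝ) := by
    have := hA.card_pos
    exact_mod_cast this
  have hW : (0 : ℝ) < (Nat.card W : ℝ) := by
    have : 0 < Nat.card W := Nat.card_pos
    exact_mod_cast this
  rw [finsum_eq_sum_of_fintype] at hu
  have hrd : ∀ x : G, rd (A : Set G) W x * (Nat.card W : ℝ) =
      ∑ w : W, asI A (x + (w : G)) := by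
    intro x
    unfold rd asI
    rw [div_mul_cancel₀ _ hW.ne', Nat.card_eq_fintype_card, Fintype.card_subtype,
      Finset.sum_boole]
    simp
  by_contra hcon
  push Not at hcon
  have h1 : w₀ * B ^ 2 * (κ * (Nat.card W : ℝ)) ≤ ∑ w : W, hh A (u + (w : G)) := by
    calc w₀ * B ^ 2 * (κ * (Nat.card W : ℝ))
        ≤ w₀ * B ^ 2 * ∑ w : W, f (u + (w : G)) :=
          mul_le_mul_of_nonneg_left hu (by positivity)
      _ = ∑ w : W, w₀ * B ^ 2 * f (u + (w : G)) := by rw [Finset.mul_sum]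
      _ ≤ ∑ w : W, hh A (u + (w : G)) := Finset.sum_le_sum fun w _ => hf _
  have h2 : ∑ w : W, hh A (u + (w : G)) =
      (∑ y ∈ A, rd (A : Set G) W (u + y) * (Nat.card W : ℝ)) / (Fintype.card G : ℝ) := by
    unfold hh asR
    rw [← Finset.sum_div, Finset.sum_comm]
    congr 1
    have e1 : ∀ y : G, ∑ w : W, asI A (u + (w : G) + y) * asI A y =
        if y ∈ A then rd (A : Set G) W (u + y) * (Nat.card W : ℝ) else 0 := by
      intro y
      rw [hrd]
      by_cases hy : y ∈ A
      · rw [if_pos hy]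
        refine Finset.sum_congr rfl fun w _ => ?_
        have : asI A y = 1 := if_pos hy
        rw [this, mul_one, show u + (w : G) + y = u + y + (w : G) by abel]
      · rw [if_neg hy]
        have : asI A y = 0 := if_neg hy
        simp [this]
    simp only [e1]
    rw [← Finset.sum_filter]
    congr 1
    ext y
    simp
  have h3 : ∑ y ∈ A, rd (A : Set G) W (u + y) * (Nat.card W : ℝ) <
      ∑ _y ∈ A, (w₀ * κ * B) * (Nat.card W : ℝ) := by
    refine Finset.sum_lt_sum_of_nonempty hA fun y _ => ?_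
    have := hcon (u + y)
    gcongr
  rw [Finset.sum_const, nsmul_eq_mul] at h3
  rw [h2, le_div_iff₀ hn] at h1
  rw [div_le_iff₀ hn] at hAB
  have h5 : (A.card : ℝ) * ((w₀ * κ * B) * (Nat.card W : ℝ)) ≤
      w₀ * B ^ 2 * (κ * (Nat.card W : ℝ)) * (Fintype.card G : ℝ) := by
    have h6 : (0 : ℝ) ≤ (w₀ * κ * B) * (Nat.card W : ℝ) := by positivity
    calc (A.card : ℝ) * ((w₀ * κ * B) * (Nat.card W : ℝ))
        ≤ (B * (Fintype.card G : ℝ)) * ((w₀ * κ * B) * (Nat.card W : ℝ)) :=
          mul_le_mul_of_nonneg_right hAB h6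
      _ = _ := by ring
  linarith

end KM

end EHProj
end

section

/-!
# Block A: the Fourier step, general precision `1 / E`
-/

set_option autoImplicit false

open scoped ComplexConjugate
open Module

namespace EHProj

section
variable {G : Type} [AddCommGroup G] [Fintype G]
variable {p : ℕ} [Fact p.Prime] [Module (ZMod p) G]

theorem fourier_stepG (f : G → ℝ) (hf0 : ∀ x, 0 ≤ f x) (hf1 : ∀ x, f x ≤ 1) (A' T : Finset G)
    (hA' : A'.Nonempty) (hTn : T.Nonempty) (a' j g₀ E : ℕ) (haj : a' + g₀ ≤ 2 * j)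
    (hE : 1 ≤ E) (hEg : E ≤ 2 ^ g₀)
    (hd : (1 / 2 : ℝ) ^ a' ≤ (A'.card : ℝ) / (Fintype.card G : ℝ))
    (W : Submodule (ZMod p) G)
    (hW : ∀ φ : Module.Dual (ZMod p) G,
        (1 / 2) * (T.card : ℝ) ≤ ‖∑ t ∈ T, (ZMod.stdAddChar (φ t) : ℂ)‖ → ∀ w ∈ W, φ w = 0)
    (htot : (1 - 2 / (E : ℝ)) * (A'.card : ℝ) ^ 2 * (T.card : ℝ) ^ (2 * j) ≤
      ∑ s ∈ Fintype.piFinset (fun _ : Fin j => T), ∑ s' ∈ Fintype.piFinset (fun _ : Fin j => T),
        ∑ y ∈ A', ∑ z ∈ A', f (z - y + ∑ i, (s i - s' i))) :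
    ∃ u : G, (1 - 3 / (E : ℝ)) * (Nat.card W : ℝ) ≤ ∑ᶠ w : W, f (u + (w : G)) := by
  classical
  have := fourierstep_finite_dual (G := G) (p := p)
  letI : Fintype (Module.Dual (ZMod p) G) := Fintype.ofFinite _
  letI : Fintype W := Fintype.ofFinite _
  obtain ⟨S, hS⟩ : ∃ S : G → ℝ, S = fun w => ∑ s ∈ Fintype.piFinset (fun _ : Fin j => T),
    ∑ s' ∈ Fintype.piFinset (fun _ : Fin j => T),
      ∑ y ∈ A', ∑ z ∈ A', f (z - y + ∑ i, (s i - s' i) + w) := ⟨_, rfl⟩
  set g : G → ℝ := fun u => ∑ w : W, f (u + (w : G)) with hg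
  have hA0 : (0 : ℝ) < A'.card := by exact_mod_cast hA'.card_pos
  have hE0 : (0 : ℝ) < (E : ℝ) := by exact_mod_cast hE
  have hT0 : (0 : ℝ) < T.card := by exact_mod_cast hTn.card_pos
  have hG0 : (0 : ℝ) < Fintype.card G := by exact_mod_cast Fintype.card_pos
  have hW0 : (0 : ℝ) < Fintype.card W := by exact_mod_cast Fintype.card_pos
  have hD0 : (0 : ℝ) < Fintype.card (Module.Dual (ZMod p) G) := by exact_mod_cast Fintype.card_pos
  -- sum of S over W
  have hSg : ∑ w : W, S (w : G) = ∑ s ∈ Fintype.piFinset (fun _ : Fin j => T),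
      ∑ s' ∈ Fintype.piFinset (fun _ : Fin j => T),
      ∑ y ∈ A', ∑ z ∈ A', g (z - y + ∑ i, (s i - s' i)) := by
    simp only [hS, hg]
    exact fourierstep_swap (Fintype.piFinset fun _ : Fin j => T) (Fintype.piFinset fun _ => T) A' A'
      Finset.univ (fun (w : W) s s' y z => f (z - y + ∑ i, (s i - s' i) + (w : G)))
  have hST : ∀ w : G, ((S w : ℝ) : ℂ) = ∑ φ : Module.Dual (ZMod p) G, fourierstepC f φ *
        (((‖∑ z ∈ A', fourierstepE φ z‖ ^ 2 * ‖∑ t ∈ T, fourierstepE φ t‖ ^ (2 * j) : ℝ) : ℂ)) *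
        fourierstepE φ w := fun w => by
    rw [hS]; exact fourierstep_total f A' T j w
  -- comparison
  have hdiff : |(Fintype.card W : ℝ) * S 0 - ∑ w : W, S (w : G)| ≤
      (Fintype.card G : ℝ) * A'.card * Fintype.card W * ((T.card : ℝ) / 2) ^ (2 * j) := by
    have h1 : (((Fintype.card W : ℝ) * S 0 - ∑ w : W, S (w : G) : ℝ) : ℂ) =
        ∑ φ : Module.Dual (ZMod p) G, fourierstepC f φ *
        (((‖∑ z ∈ A', fourierstepE φ z‖ ^ 2 * ‖∑ t ∈ T, fourierstepE φ t‖ ^ (2 * j) : ℝ) : ℂ)) *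
        ((Fintype.card W : ℂ) - ∑ w : W, fourierstepE φ (w : G)) := by
      rw [Complex.ofReal_sub, Complex.ofReal_mul, Complex.ofReal_sum]
      simp only [hST]
      rw [Finset.sum_comm, Complex.ofReal_natCast, Finset.mul_sum, ← Finset.sum_sub_distrib]
      refine Finset.sum_congr rfl fun φ _ => ?_
      rw [← Finset.mul_sum, AddChar.map_zero_eq_one]
      ring
    rw [← Real.norm_eq_abs, ← Complex.norm_real, h1]
    calc _ ≤ ∑ φ : Module.Dual (ZMod p) G, ‖fourierstepC f φ *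
        (((‖∑ z ∈ A', fourierstepE φ z‖ ^ 2 * ‖∑ t ∈ T, fourierstepE φ t‖ ^ (2 * j) : ℝ) : ℂ)) *
        ((Fintype.card W : ℂ) - ∑ w : W, fourierstepE φ (w : G))‖ := norm_sum_le _ _
      _ ≤ ∑ φ : Module.Dual (ZMod p) G,
          ((Fintype.card (Module.Dual (ZMod p) G) : ℝ)⁻¹ * (Fintype.card G : ℝ)) *
          (‖∑ z ∈ A', fourierstepE φ z‖ ^ 2 * ((T.card : ℝ) / 2) ^ (2 * j)) *
          (Fintype.card W : ℝ) := by
          refine Finset.sum_le_sum fun φ _ => ?_
          by_cases hφ : ∀ w ∈ W, φ w = 0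
          · have h2 : ∑ w : W, fourierstepE φ (w : G) = (Fintype.card W : ℂ) := by
              have : ∀ w : W, fourierstepE φ (w : G) = 1 := fun w => by
                rw [fourierstepE_apply, hφ w w.2, AddChar.map_zero_eq_one]
              simp [this]
            rw [h2, sub_self, mul_zero, norm_zero]
            positivity
          · rw [fourierstep_sum_sub W φ hφ, sub_zero, norm_mul, norm_mul, Complex.norm_natCast,
              Complex.norm_real, Real.norm_eq_abs, abs_of_nonneg (by positivity)]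
            have h3 : ‖∑ t ∈ T, fourierstepE φ t‖ ≤ (T.card : ℝ) / 2 := by
              by_contra hlt
              apply hφ
              apply hW
              have : ‖∑ t ∈ T, fourierstepE φ t‖ = ‖∑ t ∈ T, (ZMod.stdAddChar (φ t) : ℂ)‖ := rfl
              rw [← this]
              linarith
            have h4 := fourierstepC_norm f hf0 hf1 φ
            gcongr
      _ = ((Fintype.card (Module.Dual (ZMod p) G) : ℝ)⁻¹ * (Fintype.card G : ℝ)) *
          ((∑ φ : Module.Dual (ZMod p) G, ‖∑ z ∈ A', fourierstepE φ z‖ ^ 2) *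
            ((T.card : ℝ) / 2) ^ (2 * j)) * (Fintype.card W : ℝ) := by
          rw [Finset.sum_mul, Finset.mul_sum, Finset.sum_mul]
      _ = _ := by
          rw [fourierstep_parseval]
          field_simp
  -- bound of the error
  have herr : (Fintype.card G : ℝ) * A'.card * Fintype.card W * ((T.card : ℝ) / 2) ^ (2 * j) ≤
      (1 / (E : ℝ)) * Fintype.card W * ((A'.card : ℝ) ^ 2 * (T.card : ℝ) ^ (2 * j)) := by
    have h1 : (Fintype.card G : ℝ) * (1 / 2) ^ a' ≤ A'.card := by
      rw [le_div_iff₀ hG0] at hd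
      linarith
    have h2 : ((1 : ℝ) / 2) ^ (2 * j) ≤ (1 / 2) ^ a' * (1 / (E : ℝ)) := by
      have hEE : ((1 : ℝ) / 2) ^ g₀ ≤ 1 / (E : ℝ) := by
        rw [one_div_pow]
        exact one_div_le_one_div_of_le hE0 (by exact_mod_cast hEg)
      refine le_trans ?_ (mul_le_mul_of_nonneg_left hEE (by positivity))
      rw [← pow_add]
      exact pow_le_pow_of_le_one (by norm_num) (by norm_num) haj
    have h3 : ((T.card : ℝ) / 2) ^ (2 * j) = (T.card : ℝ) ^ (2 * j) * (1 / 2) ^ (2 * j) := by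
      rw [← mul_pow]; congr 1; ring
    rw [h3]
    calc (Fintype.card G : ℝ) * A'.card * Fintype.card W * ((T.card : ℝ) ^ (2 * j) * (1 / 2) ^ (2 * j))
        ≤ (Fintype.card G : ℝ) * A'.card * Fintype.card W *
          ((T.card : ℝ) ^ (2 * j) * ((1 / 2) ^ a' * (1 / (E : ℝ)))) := by gcongr
      _ = ((Fintype.card G : ℝ) * (1 / 2) ^ a') *
          (A'.card * Fintype.card W * (T.card : ℝ) ^ (2 * j) * (1 / (E : ℝ))) := by ring
      _ ≤ (A'.card : ℝ) * (A'.card * Fintype.card W * (T.card : ℝ) ^ (2 * j) * (1 / (E : ℝ))) := by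
          gcongr
      _ = _ := by ring
  have hS0 : (1 - 2 / (E : ℝ)) * (A'.card : ℝ) ^ 2 * (T.card : ℝ) ^ (2 * j) ≤ S 0 := by
    refine htot.trans (le_of_eq ?_)
    simp only [hS, add_zero]
  have hsum : (1 - 3 / (E : ℝ)) * (Fintype.card W : ℝ) * ((A'.card : ℝ) ^ 2 * (T.card : ℝ) ^ (2 * j)) ≤
      ∑ w : W, S (w : G) := by
    have h1 := (abs_le.1 (hdiff.trans herr)).2
    have h2 := mul_le_mul_of_nonneg_left hS0 hW0.le
    have h3 : (3 : ℝ) / E = 2 / E + 1 / E := by ring
    rw [h3]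
    nlinarith
  -- choose the best translate
  obtain ⟨u, hu⟩ := Finite.exists_max g
  refine ⟨u, ?_⟩
  rw [finsum_eq_sum_of_fintype, Nat.card_eq_fintype_card]
  change _ ≤ g u
  have hle : ∑ w : W, S (w : G) ≤ ((A'.card : ℝ) ^ 2 * (T.card : ℝ) ^ (2 * j)) * g u := by
    rw [hSg]
    calc _ ≤ ∑ s ∈ Fintype.piFinset (fun _ : Fin j => T),
          ∑ s' ∈ Fintype.piFinset (fun _ : Fin j => T), ∑ y ∈ A', ∑ z ∈ A', g u := by
          refine Finset.sum_le_sum fun s _ => Finset.sum_le_sum fun s' _ =>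
            Finset.sum_le_sum fun y _ => Finset.sum_le_sum fun z _ => hu _
      _ = _ := by
          simp only [Finset.sum_const, nsmul_eq_mul, Fintype.card_piFinset, Finset.prod_const,
            Finset.card_univ, Fintype.card_fin]
          push_cast
          ring
  have hpos : 0 < (A'.card : ℝ) ^ 2 * (T.card : ℝ) ^ (2 * j) := by positivity
  have h5 : ((A'.card : ℝ) ^ 2 * (T.card : ℝ) ^ (2 * j)) * ((1 - 3 / (E : ℝ)) * (Fintype.card W : ℝ)) ≤
      ((A'.card : ℝ) ^ 2 * (T.card : ℝ) ^ (2 * j)) * g u := by linarith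
  exact le_of_mul_le_mul_left h5 hpos

end

end EHProj
end

section

/-! # Block A: total after smoothing, general precision `1 / E` -/

set_option autoImplicit false

namespace EHProj

open Module

section KM
variable {G : Type} [AddCommGroup G] [Fintype G]

/-- the total after smoothing, general precision -/
theorem smooth_totalG (f : G → ℝ) (A' T : Finset G)
    (hA' : A'.Nonempty) (a' r j E : ℕ) (hr : Even r) (hr2 : 2 ≤ r) (har : a' ≤ r)
    (hj : 1 ≤ j) (hE : 1 ≤ E) (hd : (1 / 2 : ℝ) ^ a' ≤ (A'.card : ℝ) / (Fintype.card G : ℝ))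
    (hT : ∀ t ∈ T, ∀ t' ∈ T,
      avg (fun u => (sm A' f (u + (t - t')) - sm A' f u) ^ r) ≤ (2 / ((4 * E * j : ℕ) : ℝ)) ^ r)
    (hbase : (1 - 1 / (E : ℝ)) * (A'.card : ℝ) ^ 2 ≤ ∑ y ∈ A', ∑ z ∈ A', f (z - y)) :
    (1 - 2 / (E : ℝ)) * (A'.card : ℝ) ^ 2 * (T.card : ℝ) ^ (2 * j) ≤
      ∑ s ∈ Fintype.piFinset (fun _ : Fin j => T), ∑ s' ∈ Fintype.piFinset (fun _ : Fin j => T),
        ∑ y ∈ A', ∑ z ∈ A', f (z - y + ∑ i, (s i - s' i)) := by
  have hG : (0 : ℝ) < Fintype.card G := by exact_mod_cast Fintype.card_pos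
  have hA0 : (0 : ℝ) < A'.card := by exact_mod_cast hA'.card_pos
  have hj0 : (0 : ℝ) < j := by exact_mod_cast hj
  have hE0 : (0 : ℝ) < E := by exact_mod_cast hE
  set F : G → ℝ := sm A' f with hF
  have hinner : ∀ v : G, ∑ z ∈ A', f (v + z) = A'.card * F v := by
    intro v
    rw [hF]; unfold sm
    field_simp
  have hrw : ∀ σ : G, ∑ y ∈ A', ∑ z ∈ A', f (z - y + σ) = A'.card * ∑ y ∈ A', F (-y + σ) := by
    intro σ
    rw [Finset.mul_sum]
    refine Finset.sum_congr rfl fun y _ => ?_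
    rw [← hinner]
    refine Finset.sum_congr rfl fun z _ => ?_
    congr 1
    abel
  have hbase' : (1 - 1 / (E : ℝ)) * (A'.card : ℝ) ^ 2 ≤ A'.card * ∑ y ∈ A', F (-y) := by
    have h1 := hrw 0
    simp only [add_zero] at h1
    rw [← h1]; exact hbase
  have hone : ∀ σ : G, avg (fun u => (F (u + σ) - F u) ^ r) ≤ (1 / (2 * E) : ℝ) ^ r →
      (1 - 2 / (E : ℝ)) * (A'.card : ℝ) ^ 2 ≤ ∑ y ∈ A', ∑ z ∈ A', f (z - y + σ) := by
    intro σ hσ
    rw [hrw]
    have h1 : ∑ u, (F (u + σ) - F u) ^ r ≤ (1 / (2 * E) : ℝ) ^ r * Fintype.card G := by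
      unfold avg at hσ
      exact (div_le_iff₀ hG).mp hσ
    have h2 : ∑ y ∈ A', (F (-y + σ) - F (-y)) ^ r ≤ ∑ u, (F (u + σ) - F u) ^ r := by
      have h3 : ∑ u, (F (u + σ) - F u) ^ r = ∑ u, (F (-u + σ) - F (-u)) ^ r :=
        (Equiv.sum_comp (Equiv.neg G) (fun u => (F (u + σ) - F u) ^ r)).symm
      rw [h3]
      exact Finset.sum_le_sum_of_subset_of_nonneg (Finset.subset_univ _)
        fun u _ _ => hr.pow_nonneg _
    have h4 := Real.pow_arith_mean_le_arith_mean_pow A' (fun _ => 1 / (A'.card : ℝ))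
      (fun y => |F (-y + σ) - F (-y)|) (fun _ _ => by positivity) (by
        rw [Finset.sum_const, nsmul_eq_mul]; field_simp) (fun _ _ => abs_nonneg _) r
    have h5 : ∑ y ∈ A', 1 / (A'.card : ℝ) * |F (-y + σ) - F (-y)| ^ r ≤ (1 / E : ℝ) ^ r := by
      have h6 : ∑ y ∈ A', 1 / (A'.card : ℝ) * |F (-y + σ) - F (-y)| ^ r =
          1 / (A'.card : ℝ) * ∑ y ∈ A', (F (-y + σ) - F (-y)) ^ r := by
        rw [Finset.mul_sum]
        refine Finset.sum_congr rfl fun y _ => ?_
        rw [hr.pow_abs]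
      rw [h6]
      have h7 : (Fintype.card G : ℝ) ≤ 2 ^ r * A'.card := by
        have h8 : (1 / 2 : ℝ) ^ a' * Fintype.card G ≤ A'.card := (le_div_iff₀ hG).mp hd
        have h9 : (1 / 2 : ℝ) ^ r ≤ (1 / 2 : ℝ) ^ a' :=
          pow_le_pow_of_le_one (by norm_num) (by norm_num) har
        have h10 : (1 / 2 : ℝ) ^ r * Fintype.card G ≤ A'.card :=
          le_trans (mul_le_mul_of_nonneg_right h9 hG.le) h8
        have h11 : (2 : ℝ) ^ r * ((1 / 2 : ℝ) ^ r * Fintype.card G) = Fintype.card G := by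
          rw [← mul_assoc, ← mul_pow]; norm_num
        rw [← h11]
        exact mul_le_mul_of_nonneg_left h10 (by positivity)
      calc 1 / (A'.card : ℝ) * ∑ y ∈ A', (F (-y + σ) - F (-y)) ^ r
          ≤ 1 / (A'.card : ℝ) * ((1 / (2 * E) : ℝ) ^ r * Fintype.card G) := by
            apply mul_le_mul_of_nonneg_left (le_trans h2 h1) (by positivity)
        _ ≤ 1 / (A'.card : ℝ) * ((1 / (2 * E) : ℝ) ^ r * (2 ^ r * A'.card)) := by gcongr
        _ = (1 / (2 * E) : ℝ) ^ r * 2 ^ r := by field_simp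
        _ = (1 / E : ℝ) ^ r := by
          rw [← mul_pow]; congr 1; field_simp
    have h12 : ∑ y ∈ A', 1 / (A'.card : ℝ) * |F (-y + σ) - F (-y)| ≤ 1 / E :=
      le_of_pow_le_pow_left₀ (by omega : r ≠ 0) (by positivity) (le_trans h4 h5)
    have h13 : ∑ y ∈ A', |F (-y + σ) - F (-y)| ≤ A'.card * (1 / E) := by
      rw [← Finset.mul_sum] at h12
      have := mul_le_mul_of_nonneg_left h12 hA0.le
      rw [← mul_assoc, mul_one_div_cancel hA0.ne', one_mul] at this
      exact this
    have h14 : ∑ y ∈ A', F (-y) - A'.card * (1 / E) ≤ ∑ y ∈ A', F (-y + σ) := by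
      have h15 : ∑ y ∈ A', F (-y) - ∑ y ∈ A', F (-y + σ) ≤ ∑ y ∈ A', |F (-y + σ) - F (-y)| := by
        rw [← Finset.sum_sub_distrib]
        refine Finset.sum_le_sum fun y _ => ?_
        rw [abs_sub_comm]
        exact le_abs_self _
      linarith
    have h16 := mul_le_mul_of_nonneg_left h14 hA0.le
    have h17 : (2 : ℝ) / E = 1 / E + 1 / E := by ring
    rw [h17]
    nlinarith
  have hsh : ∀ s ∈ Fintype.piFinset (fun _ : Fin j => T),
      ∀ s' ∈ Fintype.piFinset (fun _ : Fin j => T),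
      (1 - 2 / (E : ℝ)) * (A'.card : ℝ) ^ 2 ≤
        ∑ y ∈ A', ∑ z ∈ A', f (z - y + ∑ i, (s i - s' i)) := by
    intro s hs s' hs'
    rw [Fintype.mem_piFinset] at hs hs'
    apply hone
    have h1 := shift_sum F T r (4 * E * j) hr hr2
      (Nat.one_le_iff_ne_zero.mpr (by positivity)) hT j s s' hs hs'
    refine le_trans h1 (le_of_eq ?_)
    congr 1
    push_cast
    field_simp
    norm_num
  have hcard : (((Fintype.piFinset (fun _ : Fin j => T)).card : ℕ) : ℝ) = (T.card : ℝ) ^ j := by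
    rw [Fintype.card_piFinset]; simp
  calc (1 - 2 / (E : ℝ)) * (A'.card : ℝ) ^ 2 * (T.card : ℝ) ^ (2 * j)
      = ∑ s ∈ Fintype.piFinset (fun _ : Fin j => T),
          ∑ s' ∈ Fintype.piFinset (fun _ : Fin j => T),
            (1 - 2 / (E : ℝ)) * (A'.card : ℝ) ^ 2 := by
        rw [Finset.sum_const, Finset.sum_const, nsmul_eq_mul, nsmul_eq_mul, hcard]
        ring
    _ ≤ _ := Finset.sum_le_sum fun s hs => Finset.sum_le_sum fun s' hs' => hsh s hs s' hs'

end KM

end EHProj
end

section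

/-! # Block A: from a large moment to a density increment -/

set_option autoImplicit false

namespace EHProj

open Module

/-- the exponent of the Hölder step -/
def gk (e t : ℕ) : ℕ := 2 * (t + 2 * (7 + e))
def gN (e t : ℕ) : ℕ := (2 * e + 1) * (gk e t + 1)
def ga (e t : ℕ) : ℕ := gN e t * t + 2
def gr (e t : ℕ) : ℕ := 2 * ((ga e t + 1) / 2)
def gj (e t : ℕ) : ℕ := (ga e t + (6 + e) + 1) / 2
def gm (e t : ℕ) : ℕ := 6 * gr e t * (4 * (64 * e) * gj e t) ^ 2
/-- codimension lost in one density increment, general precision -/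
def gK (e t : ℕ) : ℕ := 6 * (ga e t * gm e t + 1)

section KM
variable {G : Type} [AddCommGroup G] [Fintype G]
variable {p : ℕ} [Fact p.Prime] [Module (ZMod p) G]

theorem gk_even (e t : ℕ) : Even (gk e t) := by unfold gk; exact even_two_mul _

theorem gpow_ratio (e t : ℕ) (he : 1 ≤ e) :
    2 * ((64 * e : ℕ) : ℝ) * (1 + 1 / (8 * (e : ℝ))) ^ (gN e t) ≤
      (1 + 1 / (4 * (e : ℝ))) ^ (gN e t) := by
  have he0 : (0 : ℝ) < e := by exact_mod_cast he
  have h12 : (1 + 1 / (8 * (e : ℝ))) * (1 + 1 / ((8 * e + 1 : ℕ) : ℝ)) = 1 + 1 / (4 * (e : ℝ)) := by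
    push_cast; field_simp; ring
  rw [← h12, mul_pow, mul_comm]
  refine mul_le_mul_of_nonneg_left ?_ (by positivity)
  have hN : (8 * e + 1) * (7 + e) ≤ gN e t := by
    unfold gN gk; nlinarith
  have h1 : (1 : ℝ) ≤ 1 + 1 / ((8 * e + 1 : ℕ) : ℝ) := by
    have : (0 : ℝ) ≤ 1 / ((8 * e + 1 : ℕ) : ℝ) := by positivity
    linarith
  have h2 : (2 : ℝ) ≤ (1 + 1 / ((8 * e + 1 : ℕ) : ℝ)) ^ (8 * e + 1) := by
    have hb := one_add_mul_le_pow (a := 1 / ((8 * e + 1 : ℕ) : ℝ)) (by linarith) (8 * e + 1)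
    have e1 : ((8 * e + 1 : ℕ) : ℝ) * (1 / ((8 * e + 1 : ℕ) : ℝ)) = 1 := by
      rw [mul_one_div_cancel]; positivity
    rw [e1] at hb
    linarith
  calc 2 * ((64 * e : ℕ) : ℝ) = 128 * e := by push_cast; ring
    _ ≤ 2 ^ 7 * 2 ^ e := by
        have : (e : ℝ) ≤ 2 ^ e := by exact_mod_cast Nat.lt_two_pow_self.le
        nlinarith
    _ = 2 ^ (7 + e) := by rw [pow_add]
    _ ≤ ((1 + 1 / ((8 * e + 1 : ℕ) : ℝ)) ^ (8 * e + 1)) ^ (7 + e) :=
        pow_le_pow_left₀ (by norm_num) h2 _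
    _ = (1 + 1 / ((8 * e + 1 : ℕ) : ℝ)) ^ ((8 * e + 1) * (7 + e)) := by rw [pow_mul]
    _ ≤ _ := pow_le_pow_right₀ h1 hN

theorem akm_core (A : Finset G) (hA : A.Nonempty) (e t : ℕ) (he : 1 ≤ e) (B : ℝ)
    (hB : (1 / 2 : ℝ) ^ t ≤ B) (hAB : (A.card : ℝ) / (Fintype.card G : ℝ) ≤ B)
    (h : ((1 + 1 / (4 * (e : ℝ))) * B ^ 2) ^ (gN e t) ≤ avg (fun x => hh A x ^ (gN e t))) :
    ∃ W : Submodule (ZMod p) G, finrank (ZMod p) G ≤ finrank (ZMod p) W + gK e t ∧
      ∃ x, (1 + 1 / (16 * (e : ℝ))) * B ≤ rd (A : Set G) W x := by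
  classical
  have he0 : (0 : ℝ) < e := by exact_mod_cast he
  have he1 : (1 : ℝ) ≤ e := by exact_mod_cast he
  have hB0 : 0 < B := lt_of_lt_of_le (by positivity) hB
  have hE : 1 ≤ 64 * e := by omega
  obtain ⟨A', hA'n, hA'd, hA'c⟩ := siftG A (gN e t) (64 * e) hE B (1 + 1 / (4 * (e : ℝ)))
    (1 + 1 / (8 * (e : ℝ))) hB0 (by have : (0 : ℝ) < 1 / (4 * (e : ℝ)) := by positivity
                                    linarith) (by positivity) hAB (gpow_ratio e t he) h
  have hd : (1 / 2 : ℝ) ^ (ga e t) ≤ (A'.card : ℝ) / (Fintype.card G : ℝ) := by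
    refine le_trans ?_ hA'd
    have h1 : (1 / 2 : ℝ) ^ (ga e t) = ((1 / 2 : ℝ) ^ t) ^ (gN e t) / 4 := by
      unfold ga
      rw [pow_add, ← pow_mul, mul_comm (gN e t) t]
      norm_num
      ring
    rw [h1]
    have h2 : ((1 / 2 : ℝ) ^ t) ^ (gN e t) ≤ B ^ (gN e t) :=
      pow_le_pow_left₀ (by positivity) hB _
    linarith
  set f : G → ℝ := fun x => if (1 + 1 / (8 * (e : ℝ))) * B ^ 2 ≤ hh A x then (1 : ℝ) else 0
    with hf
  have hf0 : ∀ x, 0 ≤ f x := by intro x; rw [hf]; simp only; split_ifs <;> norm_num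
  have hf1 : ∀ x, f x ≤ 1 := by intro x; rw [hf]; simp only; split_ifs <;> norm_num
  have hfh : ∀ x, (1 + 1 / (8 * (e : ℝ))) * B ^ 2 * f x ≤ hh A x := by
    intro x
    rw [hf]; simp only
    split_ifs with hx
    · rwa [mul_one]
    · rw [mul_zero]; exact hh_nonneg A x
  have hbase : (1 - 1 / ((64 * e : ℕ) : ℝ)) * (A'.card : ℝ) ^ 2 ≤
      ∑ y ∈ A', ∑ z ∈ A', f (z - y) := by
    refine hA'c.trans (le_of_eq ?_)
    rw [Finset.card_filter, Nat.cast_sum, Finset.sum_product]
    apply Finset.sum_congr rfl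
    intro y _
    apply Finset.sum_congr rfl
    intro z _
    rw [hf]
    simp only
    split_ifs <;> simp
  have hr : Even (gr e t) := by unfold gr; exact even_two_mul _
  have hr2 : 2 ≤ gr e t := by unfold gr ga; omega
  have har : ga e t ≤ gr e t := by unfold gr; omega
  have hj1 : 1 ≤ gj e t := by unfold gj; omega
  have haj : ga e t + (6 + e) ≤ 2 * gj e t := by unfold gj; omega
  have hee : 1 ≤ 4 * (64 * e) * gj e t := Nat.one_le_iff_ne_zero.mpr (by positivity)
  obtain ⟨T, hTn, hTd, hT⟩ := almost_period f hf0 hf1 A' hA'n (gr e t) (4 * (64 * e) * gj e t)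
    (gm e t) hr hr2 hee rfl
  have htot := smooth_totalG f A' T hA'n (ga e t) (gr e t) (gj e t) (64 * e) hr hr2 har
    hj1 hE hd hT hbase
  have hD : (1 / 2 : ℝ) ^ (ga e t * gm e t + 1) ≤ (T.card : ℝ) / (Fintype.card G : ℝ) := by
    refine le_trans ?_ hTd
    rw [pow_succ, pow_mul]
    have h2 : ((1 / 2 : ℝ) ^ ga e t) ^ (gm e t)
        ≤ ((A'.card : ℝ) / (Fintype.card G : ℝ)) ^ (gm e t) :=
      pow_le_pow_left₀ (by positivity) hd _
    linarith
  obtain ⟨W, hWdim, hW⟩ := chang (p := p) T hTn (ga e t * gm e t + 1) hD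
  have hEg : 64 * e ≤ 2 ^ (6 + e) := by
    rw [pow_add]
    have : e ≤ 2 ^ e := Nat.lt_two_pow_self.le
    have h64 : (2 : ℕ) ^ 6 = 64 := by norm_num
    rw [h64]
    exact Nat.mul_le_mul_left _ this
  obtain ⟨u, hu⟩ := fourier_stepG f hf0 hf1 A' T hA'n hTn (ga e t) (gj e t) (6 + e) (64 * e) haj
    hE hEg hd W hW htot
  have hκ : (0 : ℝ) < 1 - 3 / ((64 * e : ℕ) : ℝ) := by
    have : 3 / ((64 * e : ℕ) : ℝ) ≤ 3 / 64 := by
      push_cast
      apply div_le_div_of_nonneg_left (by norm_num) (by norm_num)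
      nlinarith
    linarith
  obtain ⟨x, hx⟩ := density_stepG (p := p) A hA W u B (1 + 1 / (8 * (e : ℝ)))
    (1 - 3 / ((64 * e : ℕ) : ℝ)) (by positivity) hκ hB0 hAB f hfh hu
  refine ⟨W, hWdim, x, le_trans ?_ hx⟩
  refine mul_le_mul_of_nonneg_right ?_ hB0.le
  have e1 : (1 + 1 / (8 * (e : ℝ))) * (1 - 3 / ((64 * e : ℕ) : ℝ)) - (1 + 1 / (16 * (e : ℝ))) =
      (8 * e - 3) / (512 * e ^ 2) := by
    push_cast
    field_simp
    ring
  have e2 : (0 : ℝ) ≤ (8 * e - 3) / (512 * e ^ 2) := by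
    apply div_nonneg (by linarith) (by positivity)
  linarith

end KM

end EHProj
end

section

/-! # Block A: the codimension bound is polynomial -/

set_option autoImplicit false

namespace EHProj

/-- bounded by a power of `t + 2` -/
def Pw (f : ℕ → ℕ) : Prop := ∃ C : ℕ, ∀ t, f t ≤ (t + 2) ^ C

theorem Pw.mono {f g : ℕ → ℕ} (hg : Pw g) (h : ∀ t, f t ≤ g t) : Pw f := by
  obtain ⟨C, hC⟩ := hg
  exact ⟨C, fun t => (h t).trans (hC t)⟩

theorem Pw.const (c : ℕ) : Pw fun _ => c :=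
  ⟨c, fun t => (Nat.lt_two_pow_self.le).trans (Nat.pow_le_pow_left (by omega) c)⟩

theorem Pw.id : Pw fun t => t := ⟨1, fun t => by simp⟩

theorem Pw.mul {f g : ℕ → ℕ} (hf : Pw f) (hg : Pw g) : Pw fun t => f t * g t := by
  obtain ⟨C, hC⟩ := hf
  obtain ⟨D, hD⟩ := hg
  exact ⟨C + D, fun t => by rw [pow_add]; exact Nat.mul_le_mul (hC t) (hD t)⟩

theorem Pw.add {f g : ℕ → ℕ} (hf : Pw f) (hg : Pw g) : Pw fun t => f t + g t := by
  obtain ⟨C, hC⟩ := hf
  obtain ⟨D, hD⟩ := hg
  refine ⟨C + D + 1, fun t => ?_⟩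
  have h1 : (t + 2) ^ C ≤ (t + 2) ^ (C + D) := Nat.pow_le_pow_right (by omega) (by omega)
  have h2 : (t + 2) ^ D ≤ (t + 2) ^ (C + D) := Nat.pow_le_pow_right (by omega) (by omega)
  have h3 : (t + 2) ^ (C + D + 1) = (t + 2) * (t + 2) ^ (C + D) := by ring
  rw [h3]
  calc f t + g t ≤ (t + 2) ^ (C + D) + (t + 2) ^ (C + D) :=
        Nat.add_le_add ((hC t).trans h1) ((hD t).trans h2)
    _ = 2 * (t + 2) ^ (C + D) := by ring
    _ ≤ _ := Nat.mul_le_mul_right _ (by omega)

theorem Pw.sq {f : ℕ → ℕ} (hf : Pw f) : Pw fun t => f t ^ 2 := by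
  have := hf.mul hf
  simpa only [pow_two] using this

theorem gK_pw (e : ℕ) : Pw (gK e) := by
  have hk : Pw (gk e) := (Pw.const 2).mul (Pw.id.add (Pw.const (2 * (7 + e))))
  have hN : Pw (gN e) := (Pw.const (2 * e + 1)).mul (hk.add (Pw.const 1))
  have ha : Pw (ga e) := (hN.mul Pw.id).add (Pw.const 2)
  have hr : Pw (gr e) := (ha.add (Pw.const 1)).mono fun t => by unfold gr; omega
  have hj : Pw (gj e) := ((ha.add (Pw.const (6 + e))).add (Pw.const 1)).mono fun t => by
    unfold gj; omega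
  have hm : Pw (gm e) :=
    ((Pw.const 6).mul hr).mul (((Pw.const (4 * (64 * e))).mul hj).sq)
  exact (Pw.const 6).mul ((ha.mul hm).add (Pw.const 1))

theorem exists_pw (e : ℕ) : ∃ C : ℕ, ∀ t, gK e t ≤ G2.pw C t := gK_pw e

end EHProj
end

section

/-!
# Block A: the absolute Kelley-Meka increments (helper82)

Section 1 of paper 501.  `{y | y + b ∈ W}` is the coset `b + W`.
-/

set_option autoImplicit false

open Module

namespace G2

section aux

variable {V : Type} [AddCommGroup V] [Module (ZMod 2) V] [Fintype V]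

set_option linter.unusedSectionVars false

private instance : Fact (Nat.Prime 2) := ⟨Nat.prime_two⟩

private theorem akm_av (f : V → ℝ) : av f = EHProj.avg f := av_eq f

open Classical in
private theorem akm_dn (A : Set V) :
    dn A = ((Finset.univ.filter fun x => x ∈ A).card : ℝ) / (Fintype.card V : ℝ) := by
  rw [dn, av_eq]
  congr 1
  unfold ind
  rw [Finset.sum_boole]

open Classical in
private theorem akm_cor (A : Set V) (x : V) :
    cor (ind A) (ind A) x = EHProj.hh (Finset.univ.filter fun x => x ∈ A) x := by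
  rw [cor, av_eq]
  unfold EHProj.hh EHProj.asR
  congr 1
  refine Finset.sum_congr rfl fun y _ => ?_
  unfold EHProj.asI ind
  rw [add_comm x y]
  simp only [Finset.mem_filter, Finset.mem_univ, true_and]
  ring

open Classical in
private theorem akm_rd (A : Set V) (W : Submodule (ZMod 2) V) (x : V) :
    EHProj.rd ((Finset.univ.filter fun x => x ∈ A : Finset V) : Set V) W x * dn (W : Set V) =
      dn {y | y ∈ A ∧ y + x ∈ W} := by
  have hV : (0 : ℝ) < Fintype.card V := by exact_mod_cast Fintype.card_pos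
  have hW : (0 : ℝ) < (Nat.card W : ℝ) := by
    have : 0 < Nat.card W := Nat.card_pos
    exact_mod_cast this
  rw [dn_eq_card, dn_eq_card]
  unfold EHProj.rd
  have e1 : Nat.card {h : W // x + (h : V) ∈ ((Finset.univ.filter fun x => x ∈ A : Finset V) : Set V)} =
      Nat.card {y | y ∈ A ∧ y + x ∈ W} := by
    refine Nat.card_congr ⟨fun h => ⟨x + (h.1 : V), ?_, ?_⟩, fun y => ⟨⟨y.1 + x, y.2.2⟩, ?_⟩, ?_, ?_⟩
    · simpa using h.2
    · have : x + (h.1 : V) + x = h.1 := by
        rw [add_comm x, add_assoc, add_self, add_zero]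
      rw [this]
      exact h.1.2
    · have h1 : x + (y.1 + x) = y.1 := by
        rw [add_comm, add_assoc, add_self, add_zero]
      simp only [Finset.coe_filter, Finset.mem_univ, true_and]
      rw [h1]
      exact y.2.1
    · intro h
      apply Subtype.ext
      apply Subtype.ext
      show x + (h.1 : V) + x = h.1
      rw [add_comm x, add_assoc, add_self, add_zero]
    · intro y
      apply Subtype.ext
      show x + (y.1 + x) = y.1
      rw [add_comm, add_assoc, add_self, add_zero]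
  rw [e1]
  have e2 : (Nat.card ((W : Set V)) : ℝ) = Nat.card W := rfl
  rw [e2]
  field_simp

private theorem akm_conclude (A : Set V) (e t C : ℕ) (hC : ∀ t, EHProj.gK e t ≤ pw C t) (B : ℝ)
    (h : ∃ W : Submodule (ZMod 2) V, finrank (ZMod 2) V ≤ finrank (ZMod 2) W + EHProj.gK e t ∧
      ∃ x, (1 + 1 / (16 * (e : ℝ))) * B ≤
        EHProj.rd (((by classical exact Finset.univ.filter fun x => x ∈ A) : Finset V) : Set V) W x) :
    ∃ (W : Submodule (ZMod 2) V) (b : V), finrank (ZMod 2) V ≤ finrank (ZMod 2) W + pw C t ∧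
      (1 + 1 / (16 * (e : ℝ))) * B * dn (W : Set V) ≤ dn {y | y ∈ A ∧ y + b ∈ W} := by
  obtain ⟨W, h1, x, hx⟩ := h
  refine ⟨W, x, h1.trans (Nat.add_le_add_left (hC t) _), ?_⟩
  rw [← akm_rd]
  exact mul_le_mul_of_nonneg_right hx (dn_nonneg _)

end aux

/-- (AKM-) A set `A` which has too few pairs with difference in `S` has increased density on a coset
of a subspace of small codimension. -/
theorem akm_neg (e : ℕ) (he : 1 ≤ e) : ∃ C : ℕ, ∀ (t : ℕ) (V : Type) [AddCommGroup V]
    [Module (ZMod 2) V] [Finite V] (A S : Set V), (1 / 2 : ℝ) ^ t ≤ dn A → (1 / 2 : ℝ) ^ t ≤ dn S →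
    av (fun x => ind S x * cor (ind A) (ind A) x) ≤ (1 - 1 / (e : ℝ)) * dn A ^ 2 * dn S →
    ∃ (W : Submodule (ZMod 2) V) (b : V), finrank (ZMod 2) V ≤ finrank (ZMod 2) W + pw C t ∧
      (1 + 1 / (16 * (e : ℝ))) * dn A * dn (W : Set V) ≤ dn {y | y ∈ A ∧ y + b ∈ W} := by
  classical
  obtain ⟨C, hC⟩ := EHProj.exists_pw e
  refine ⟨C, fun t V _ _ _ A S hA hS h => ?_⟩
  have := Fintype.ofFinite V
  have he0 : (0 : ℝ) < e := by exact_mod_cast he
  set A' : Finset V := Finset.univ.filter fun x => x ∈ A with hA'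
  have hV : (0 : ℝ) < Fintype.card V := by exact_mod_cast Fintype.card_pos
  have hα : 0 < dn A := lt_of_lt_of_le (by positivity) hA
  have hγ : 0 < dn S := lt_of_lt_of_le (by positivity) hS
  have hdn : dn A = (A'.card : ℝ) / (Fintype.card V : ℝ) := akm_dn A
  have hA'c : (0 : ℝ) < A'.card := by
    rw [hdn, div_pos_iff] at hα
    rcases hα with h1 | h1
    · exact h1.1
    · linarith [h1.2]
  have hAn : A'.Nonempty := by rw [← Finset.card_pos]; exact_mod_cast hA'c
  -- the normalised function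
  set F : V → ℝ := fun x => EHProj.cnv (EHProj.mu A') (EHProj.mu A') x - 1 with hF
  have hcnv : ∀ x, EHProj.cnv (EHProj.mu A') (EHProj.mu A') x = EHProj.hh A' x / dn A ^ 2 := by
    intro x
    have e0 : ∀ z : V, EHProj.mu A' z =
        (Fintype.card V : ℝ) / (A'.card : ℝ) * EHProj.asI A' z := by
      intro z
      unfold EHProj.mu EHProj.asI
      split_ifs <;> simp
    unfold EHProj.cnv EHProj.avg EHProj.hh EHProj.asR
    have e2 : ∀ y : V, EHProj.mu A' (x + y) * EHProj.mu A' y =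
        ((Fintype.card V : ℝ) / (A'.card : ℝ)) ^ 2 *
          (EHProj.asI A' (x + y) * EHProj.asI A' y) := by
      intro y
      rw [e0, e0]; ring
    simp only [e2]
    rw [← Finset.mul_sum, hdn]
    field_simp
  have hF1 : ∀ x, -1 ≤ F x := by
    intro x
    have : 0 ≤ EHProj.cnv (EHProj.mu A') (EHProj.mu A') x := by
      rw [hcnv]; exact div_nonneg (EHProj.hh_nonneg _ _) (by positivity)
    simp only [hF]
    linarith
  -- Hölder
  have hk : Even (EHProj.gk e t) := EHProj.gk_even e t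
  have hkt : t ≤ EHProj.gk e t ∧ 2 ≤ EHProj.gk e t := by
    unfold EHProj.gk; constructor <;> omega
  have h1 : (1 / (2 * (e : ℝ))) ^ (EHProj.gk e t) ≤ EHProj.avg (fun x => F x ^ (EHProj.gk e t)) := by
    set k := EHProj.gk e t with hkdef
    set S' : Finset V := Finset.univ.filter fun x => x ∈ S with hS'
    have hdnS : dn S = (S'.card : ℝ) / (Fintype.card V : ℝ) := akm_dn S
    have hS'c : (0 : ℝ) < S'.card := by
      rw [hdnS, div_pos_iff] at hγ
      rcases hγ with h1 | h1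
      · exact h1.1
      · linarith [h1.2]
    have e1 : ∑ x ∈ S', F x ≤ -(1 / (e : ℝ)) * (S'.card : ℝ) := by
      have e2 : av (fun x => ind S x * cor (ind A) (ind A) x) =
          dn A ^ 2 * (∑ x ∈ S', (F x + 1)) / (Fintype.card V : ℝ) := by
        rw [av_eq]
        congr 1
        rw [Finset.mul_sum, hS', Finset.sum_filter]
        refine Finset.sum_congr rfl fun x _ => ?_
        rw [akm_cor]
        simp only [ind, hF]
        split_ifs
        · rw [sub_add_cancel, hcnv]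
          field_simp
          rfl
        · simp
      rw [e2, hdnS, div_le_iff₀ hV, Finset.sum_add_distrib, Finset.sum_const, nsmul_eq_mul,
        mul_one] at h
      have e3 : (1 - 1 / (e : ℝ)) * dn A ^ 2 * ((S'.card : ℝ) / (Fintype.card V : ℝ)) *
          (Fintype.card V : ℝ) = dn A ^ 2 * ((1 - 1 / (e : ℝ)) * S'.card) := by
        field_simp
      rw [e3] at h
      have e4 := le_of_mul_le_mul_left h (by positivity)
      linarith
    have e2 : (1 / (e : ℝ)) * (S'.card : ℝ) ≤ ∑ x ∈ S', |F x| := by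
      have h3 : -∑ x ∈ S', F x ≤ ∑ x ∈ S', |F x| := by
        rw [← Finset.sum_neg_distrib]
        exact Finset.sum_le_sum fun x _ => neg_le_abs (F x)
      linarith
    have e3 : (1 / (e : ℝ)) ^ k * (S'.card : ℝ) ≤ ∑ x ∈ S', |F x| ^ k := by
      have h4 := Real.pow_arith_mean_le_arith_mean_pow S' (fun _ => 1 / (S'.card : ℝ))
        (fun x => |F x|) (fun _ _ => by positivity)
        (by rw [Finset.sum_const, nsmul_eq_mul]; field_simp) (fun _ _ => abs_nonneg _) k
      rw [← Finset.mul_sum, ← Finset.mul_sum] at h4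
      have h5 : (1 / (e : ℝ)) ≤ 1 / (S'.card : ℝ) * ∑ x ∈ S', |F x| := by
        rw [div_mul_eq_mul_div, one_mul, le_div_iff₀ hS'c]
        exact e2
      have h6 := (pow_le_pow_left₀ (by positivity) h5 k).trans h4
      rw [div_mul_eq_mul_div, one_mul, le_div_iff₀ hS'c] at h6
      exact h6
    have e4 : ∑ x ∈ S', |F x| ^ k ≤ ∑ x, F x ^ k := by
      simp only [hk.pow_abs]
      exact Finset.sum_le_sum_of_subset_of_nonneg (Finset.subset_univ S')
        (fun x _ _ => hk.pow_nonneg (F x))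
    unfold EHProj.avg
    have h6 : (1 / (e : ℝ)) ^ k * dn S ≤ (∑ x, F x ^ k) / (Fintype.card V : ℝ) := by
      rw [hdnS, ← mul_div_assoc]
      exact div_le_div_of_nonneg_right (e3.trans e4) hV.le
    have h7 : (1 / (2 * (e : ℝ))) ^ k = (1 / (e : ℝ)) ^ k * (1 / 2 : ℝ) ^ k := by
      rw [← mul_pow]; congr 1; field_simp
    rw [h7]
    refine le_trans ?_ h6
    refine mul_le_mul_of_nonneg_left ?_ (by positivity)
    exact (pow_le_pow_of_le_one (by norm_num) (by norm_num) hkt.1).trans hS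
  have h2 : 0 ≤ EHProj.avg (fun x => F x ^ (EHProj.gk e t + 1)) := by
    have h1 := EHProj.avg_cnv_self_nonneg (fun y => EHProj.mu A' y - 1) (EHProj.gk e t + 1)
    have h2 : (fun x : V => EHProj.cnv (fun y => EHProj.mu A' y - 1) (fun y => EHProj.mu A' y - 1) x
        ^ (EHProj.gk e t + 1)) = (fun x : V => F x ^ (EHProj.gk e t + 1)) := by
      funext x
      rw [EHProj.cnv_mu_sub_one A' A' hAn hAn]
    rwa [h2] at h1
  have hunb := EHProj.unbalanceG F e (EHProj.gk e t) he hk hkt.2 hF1 h1 h2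
  have hmain : ((1 + 1 / (4 * (e : ℝ))) * dn A ^ 2) ^ (EHProj.gN e t) ≤
      EHProj.avg (fun x => EHProj.hh A' x ^ (EHProj.gN e t)) := by
    have e1 : ∀ x, EHProj.hh A' x ^ (EHProj.gN e t) =
        (1 + F x) ^ (EHProj.gN e t) * (dn A ^ 2) ^ (EHProj.gN e t) := by
      intro x
      rw [← mul_pow]
      congr 1
      simp only [hF]
      rw [hcnv]
      field_simp
      ring
    have e2 : EHProj.avg (fun x => EHProj.hh A' x ^ (EHProj.gN e t)) =
        EHProj.avg (fun x => (1 + F x) ^ (EHProj.gN e t)) * (dn A ^ 2) ^ (EHProj.gN e t) := by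
      simp only [e1]
      exact EHProj.moments_avg_mul_right _ _
    rw [e2, mul_pow]
    exact mul_le_mul_of_nonneg_right hunb (by positivity)
  have hfin := EHProj.akm_core (p := 2) A' hAn e t he (dn A) hA (le_of_eq hdn.symm) hmain
  exact akm_conclude A e t C hC (dn A) hfin

/-- (AKM+) A set `A` of density at most `B` which has too many pairs with difference in `S` (compared
with density `B`) has density at least `(1 + 1 / (16 e)) B` on a coset of a subspace of small
codimension. -/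
theorem akm_pos (e : ℕ) (he : 1 ≤ e) : ∃ C : ℕ, ∀ (t : ℕ) (V : Type) [AddCommGroup V]
    [Module (ZMod 2) V] [Finite V] (A S : Set V) (B : ℝ), (1 / 2 : ℝ) ^ t ≤ B → dn A ≤ B →
    (1 / 2 : ℝ) ^ t ≤ dn S →
    (1 + 1 / (e : ℝ)) * B ^ 2 * dn S ≤ av (fun x => ind S x * cor (ind A) (ind A) x) →
    ∃ (W : Submodule (ZMod 2) V) (b : V), finrank (ZMod 2) V ≤ finrank (ZMod 2) W + pw C t ∧
      (1 + 1 / (16 * (e : ℝ))) * B * dn (W : Set V) ≤ dn {y | y ∈ A ∧ y + b ∈ W} := by
  classical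
  obtain ⟨C, hC⟩ := EHProj.exists_pw e
  refine ⟨C, fun t V _ _ _ A S B hB hAB hS h => ?_⟩
  have := Fintype.ofFinite V
  have he0 : (0 : ℝ) < e := by exact_mod_cast he
  have hB0 : 0 < B := lt_of_lt_of_le (by positivity) hB
  set A' : Finset V := Finset.univ.filter fun x => x ∈ A with hA'
  set S' : Finset V := Finset.univ.filter fun x => x ∈ S with hS'
  have hV : (0 : ℝ) < Fintype.card V := by exact_mod_cast Fintype.card_pos
  have hγ : 0 < dn S := lt_of_lt_of_le (by positivity) hS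
  have hdn : dn A = (A'.card : ℝ) / (Fintype.card V : ℝ) := akm_dn A
  have hdnS : dn S = (S'.card : ℝ) / (Fintype.card V : ℝ) := akm_dn S
  have hS'c : (0 : ℝ) < S'.card := by
    rw [hdnS, div_pos_iff] at hγ
    rcases hγ with h1 | h1
    · exact h1.1
    · linarith [h1.2]
  have hsum : av (fun x => ind S x * cor (ind A) (ind A) x) =
      (∑ x ∈ S', EHProj.hh A' x) / (Fintype.card V : ℝ) := by
    rw [av_eq]
    congr 1
    rw [hS', Finset.sum_filter]
    refine Finset.sum_congr rfl fun x _ => ?_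
    rw [akm_cor]
    simp only [ind]
    split_ifs <;> simp [hA']
  rw [hsum, hdnS, ← mul_div_assoc] at h
  have h' : (1 + 1 / (e : ℝ)) * B ^ 2 * S'.card ≤ ∑ x ∈ S', EHProj.hh A' x :=
    (div_le_div_iff_of_pos_right hV).mp h
  have hAn : A'.Nonempty := by
    by_contra hcon
    rw [Finset.not_nonempty_iff_eq_empty] at hcon
    have h0 : ∀ x, EHProj.hh A' x = 0 := by
      intro x
      unfold EHProj.hh EHProj.asR EHProj.asI
      rw [hcon]
      simp
    simp only [h0, Finset.sum_const_zero] at h'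
    have : 0 < (1 + 1 / (e : ℝ)) * B ^ 2 * S'.card := by positivity
    linarith
  -- Jensen
  set N := EHProj.gN e t with hN
  have e3 : ((1 + 1 / (e : ℝ)) * B ^ 2) ^ N * (S'.card : ℝ) ≤ ∑ x ∈ S', EHProj.hh A' x ^ N := by
    have h4 := Real.pow_arith_mean_le_arith_mean_pow S' (fun _ => 1 / (S'.card : ℝ))
      (fun x => EHProj.hh A' x) (fun _ _ => by positivity)
      (by rw [Finset.sum_const, nsmul_eq_mul]; field_simp) (fun _ _ => EHProj.hh_nonneg _ _) N
    rw [← Finset.mul_sum, ← Finset.mul_sum] at h4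
    have h5 : (1 + 1 / (e : ℝ)) * B ^ 2 ≤ 1 / (S'.card : ℝ) * ∑ x ∈ S', EHProj.hh A' x := by
      rw [div_mul_eq_mul_div, one_mul, le_div_iff₀ hS'c]
      exact h'
    have h6 := (pow_le_pow_left₀ (by positivity) h5 N).trans h4
    rw [div_mul_eq_mul_div, one_mul, le_div_iff₀ hS'c] at h6
    exact h6
  have e4 : ∑ x ∈ S', EHProj.hh A' x ^ N ≤ ∑ x, EHProj.hh A' x ^ N :=
    Finset.sum_le_sum_of_subset_of_nonneg (Finset.subset_univ S')
      (fun x _ _ => pow_nonneg (EHProj.hh_nonneg _ _) N)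
  have e5 : ((1 + 1 / (e : ℝ)) * B ^ 2) ^ N * dn S ≤
      EHProj.avg (fun x => EHProj.hh A' x ^ N) := by
    unfold EHProj.avg
    rw [hdnS, ← mul_div_assoc]
    exact div_le_div_of_nonneg_right (e3.trans e4) hV.le
  have hmain : ((1 + 1 / (4 * (e : ℝ))) * B ^ 2) ^ N ≤
      EHProj.avg (fun x => EHProj.hh A' x ^ N) := by
    refine le_trans ?_ e5
    have e6 : (1 + 1 / (4 * (e : ℝ))) ^ N ≤ (1 + 1 / (e : ℝ)) ^ N * (1 / 2) ^ t := by
      have h12 : (1 + 1 / (4 * (e : ℝ))) * (1 + 1 / ((2 * e + 1 : ℕ) : ℝ)) ≤ 1 + 1 / (e : ℝ) := by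
        have : 1 + 1 / (e : ℝ) - (1 + 1 / (4 * (e : ℝ))) * (1 + 1 / ((2 * e + 1 : ℕ) : ℝ)) =
            (2 * e + 2) / (4 * e * (2 * e + 1)) := by
          push_cast; field_simp; ring
        have h0 : (0 : ℝ) ≤ (2 * e + 2) / (4 * e * (2 * e + 1)) := by positivity
        linarith
      have h13 : (2 : ℝ) ^ t ≤ (1 + 1 / ((2 * e + 1 : ℕ) : ℝ)) ^ N := by
        have h0 : (0 : ℝ) ≤ 1 / ((2 * e + 1 : ℕ) : ℝ) := by positivity
        have hb := one_add_mul_le_pow (a := 1 / ((2 * e + 1 : ℕ) : ℝ)) (by linarith) (2 * e + 1)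
        have e1 : ((2 * e + 1 : ℕ) : ℝ) * (1 / ((2 * e + 1 : ℕ) : ℝ)) = 1 := by
          rw [mul_one_div_cancel]; positivity
        rw [e1] at hb
        calc (2 : ℝ) ^ t ≤ 2 ^ (EHProj.gk e t + 1) :=
              pow_le_pow_right₀ (by norm_num) (by unfold EHProj.gk; omega)
          _ ≤ ((1 + 1 / ((2 * e + 1 : ℕ) : ℝ)) ^ (2 * e + 1)) ^ (EHProj.gk e t + 1) :=
              pow_le_pow_left₀ (by norm_num) (by linarith) _
          _ = _ := by rw [← pow_mul]; rfl
      have h14 : ((1 + 1 / (4 * (e : ℝ))) * (1 + 1 / ((2 * e + 1 : ℕ) : ℝ))) ^ N ≤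
          (1 + 1 / (e : ℝ)) ^ N := pow_le_pow_left₀ (by positivity) h12 N
      rw [mul_pow] at h14
      have h15 : (1 + 1 / (4 * (e : ℝ))) ^ N * 2 ^ t ≤ (1 + 1 / (e : ℝ)) ^ N :=
        le_trans (mul_le_mul_of_nonneg_left h13 (by positivity)) h14
      have h16 : (1 / 2 : ℝ) ^ t * 2 ^ t = 1 := by rw [← mul_pow]; norm_num
      calc (1 + 1 / (4 * (e : ℝ))) ^ N = (1 + 1 / (4 * (e : ℝ))) ^ N * 2 ^ t * (1 / 2) ^ t := by
            rw [mul_assoc, mul_comm ((2 : ℝ) ^ t), h16, mul_one]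
        _ ≤ _ := mul_le_mul_of_nonneg_right h15 (by positivity)
    rw [mul_pow, mul_pow]
    have h0 : (0 : ℝ) ≤ (B ^ 2) ^ N := by positivity
    have h1 : (0 : ℝ) ≤ (1 + 1 / (e : ℝ)) ^ N * (B ^ 2) ^ N := by positivity
    calc (1 + 1 / (4 * (e : ℝ))) ^ N * (B ^ 2) ^ N
        ≤ ((1 + 1 / (e : ℝ)) ^ N * (1 / 2) ^ t) * (B ^ 2) ^ N :=
          mul_le_mul_of_nonneg_right e6 h0
      _ = (1 + 1 / (e : ℝ)) ^ N * (B ^ 2) ^ N * (1 / 2) ^ t := by ring
      _ ≤ (1 + 1 / (e : ℝ)) ^ N * (B ^ 2) ^ N * dn S := mul_le_mul_of_nonneg_left hS h1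
  have hfin := EHProj.akm_core (p := 2) A' hAn e t he B hB (by rw [← hdn]; exact hAB) hmain
  exact akm_conclude A e t C hC B hfin

end G2
end
end
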