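import Mathlib

section

/-!
# `R(3, m)` over the field with two elements is polynomial (paper 501): definitions

All spaces are finite vector spaces over `ZMod 2`, in `Type`, and finiteness is expressed by
`[Finite _]`.  `su`, `av` are sum and average over a finite type, `nc` is the number of elements,
`dn` the density of a subset.
-/

set_option autoImplicit false

open Module

namespace G2

noncomputable section

/-- the sign character -/
def sg (a : ZMod 2) : ℝ := if a = 0 then 1 else -1

/-- sum over a finite type -/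
def su {α : Type} [Finite α] (f : α → ℝ) : ℝ :=
  letI := Fintype.ofFinite α
  ∑ x, f x

/-- number of elements, as a real number -/
def nc (α : Type) : ℝ := (Nat.card α : ℝ)

/-- average over a finite type -/
def av {α : Type} [Finite α] (f : α → ℝ) : ℝ := su f / nc α

open Classical in
/-- indicator function -/
def ind {α : Type} (A : Set α) (x : α) : ℝ := if x ∈ A then 1 else 0

/-- density -/
def dn {α : Type} [Finite α] (A : Set α) : ℝ := av (ind A)

/-- density of a set of triples -/
def d3 {α : Type} [Finite α] (P : α → α → α → Prop) : ℝ :=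
  av fun a => av fun b => av fun c => ind {p : α × α × α | P p.1 p.2.1 p.2.2} (a, b, c)

/-- linear functionals -/
abbrev Du (V : Type) [AddCommGroup V] [Module (ZMod 2) V] := V →ₗ[ZMod 2] ZMod 2

/-- bilinear maps `V × V → M` -/
abbrev Bil (V M : Type) [AddCommGroup V] [Module (ZMod 2) V] [AddCommGroup M] [Module (ZMod 2) M] :=
  V →ₗ[ZMod 2] V →ₗ[ZMod 2] M

variable {V M L : Type} [AddCommGroup V] [Module (ZMod 2) V] [AddCommGroup M] [Module (ZMod 2) M]
  [AddCommGroup L] [Module (ZMod 2) L]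

instance instFiniteLin [Finite V] [Finite M] : Finite (V →ₗ[ZMod 2] M) :=
  Finite.of_injective (fun f : V →ₗ[ZMod 2] M => (f : V → M)) DFunLike.coe_injective

/-- correlation `(f ∘ g)(x) = E_y f(y) g(y + x)` -/
def cor [Finite V] (f g : V → ℝ) (x : V) : ℝ := av fun y => f y * g (y + x)

/-- Fourier coefficient -/
def ft [Finite V] (f : V → ℝ) (l : Du V) : ℝ := av fun y => f y * sg (l y)

/-- `q` is a quadratic map with polar form `φ` -/
def IsQ (q : V → M) (φ : Bil V M) : Prop := ∀ x y, q (x + y) = q x + q y + q 0 + φ x y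

/-- high rank: the kernel of every nontrivial component of `φ` has density at most `4 ^ (-R)` -/
def HR [Finite V] (φ : Bil V M) (R : ℕ) : Prop :=
  ∀ a : Du M, a ≠ 0 → (4 : ℝ) ^ R * dn {x : V | ∀ y, a (φ x y) = 0} ≤ 1

/-- the weight `|M|` on `{q = 0}` -/
def nu (q : V → M) (y : V) : ℝ := nc M * ind {y | q y = 0} y

/-- the weight `|M|` on `F` -/
def wf (M : Type) (F : Set V) (y : V) : ℝ := nc M * ind F y

/-- the kernel `P(x, w) = E_y f(y) f(y+x) f(y+w) f(y+x+w)` -/
def PK [Finite V] (f : V → ℝ) (x w : V) : ℝ :=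
  av fun y => f y * f (y + x) * (f (y + w) * f (y + x + w))

/-- the polynomial `(t + 2) ^ C` -/
def pw (C t : ℕ) : ℕ := (t + 2) ^ C

/-- polynomially bounded -/
def PB (f : ℕ → ℕ) : Prop := ∃ C : ℕ, ∀ t, f t ≤ pw C t

/-- the dimension over `F_2` -/
abbrev rk (M : Type) [AddCommGroup M] [Module (ZMod 2) M] : ℕ := finrank (ZMod 2) M

/-- the error term `(2 |M|) ^ s / 2 ^ R` -/
def er (M : Type) (s R : ℕ) : ℝ := (2 * nc M) ^ s / 2 ^ R

/-- conclusion of the increment theorems: `d ≤ K` independent functionals with large Fourier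
coefficients and a coset of their kernel on which `f` has average at least `θ` -/
def Conc [Finite V] (f : V → ℝ) (θ : ℝ) (K h : ℕ) : Prop :=
  ∃ d : ℕ, d ≤ K ∧ ∃ (l : V →ₗ[ZMod 2] (Fin d → ZMod 2)) (s : Fin d → ZMod 2),
    Function.Surjective l ∧ θ ≤ 2 ^ d * av (fun y => f y * ind {y | l y = s} y) ∧
      ∀ j : Fin d, (1 / 2 : ℝ) ^ h ≤ |av fun y => f y * sg (l y j)|

/-- the bilinear map `(x, y) ↦ (φ x y, Φ x y)` -/
def cmb (φ : Bil V M) (Φ : Bil V L) : Bil V (M × L) :=
  LinearMap.mk₂ (ZMod 2) (fun x y => (φ x y, Φ x y))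
    (fun x x' y => by simp) (fun a x y => by simp) (fun x y y' => by simp) (fun a x y => by simp)

/-- the pull-back of a bilinear map -/
abbrev pull {W : Type} [AddCommGroup W] [Module (ZMod 2) W] (φ : Bil V M) (i : W →ₗ[ZMod 2] V) :
    Bil W M := φ.compl₁₂ i i

/-- increment conclusion of the stage theorem -/
def IC (F : Set V) (θ : ℝ) (n' r' : ℕ) : Prop :=
  ∃ (i : (Fin n' → ZMod 2) →ₗ[ZMod 2] V) (b : V) (q : (Fin n' → ZMod 2) → (Fin r' → ZMod 2))
    (φ : Bil (Fin n' → ZMod 2) (Fin r' → ZMod 2)),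
    Function.Injective i ∧ IsQ q φ ∧ (∃ x, q x = 0) ∧
      θ * nc {x // q x = 0} ≤ nc {x // b + i x ∈ F ∧ q x = 0}

/-! ### Sampling -/

/-- the point `y + ∑ α_i x_i` -/
def pt {D : ℕ} (y : V) (x : Fin D → V) (α : Fin D → ZMod 2) : V := y + ∑ i, α i • x i

/-- the linear combination `∑ α_i x_i` -/
def lc {D : ℕ} (x : Fin D → V) (α : Fin D → ZMod 2) : V := ∑ i, α i • x i

open Classical in
/-- the weight of the affine maps `F_2^D → {q = 0}` -/
def Wt [Finite M] (q : V → M) (D : ℕ) (z : V × (Fin D → V)) : ℝ :=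
  if ∀ α : Fin D → ZMod 2, q (pt z.1 z.2 α) = 0 then nc M ^ (1 + D + D * (D - 1) / 2) else 0

/-- weighted average over all affine maps `F_2^D → V`; the weight selects those with image in
`{q = 0}` and makes the total mass almost `1` -/
def ES [Finite V] [Finite M] (q : V → M) (D : ℕ) (G : V → (Fin D → V) → ℝ) : ℝ :=
  av fun z : V × (Fin D → V) => Wt q D z * G z.1 z.2

/-- the truncated Fourier series of `f`: coefficients of absolute value at least `2 ^ (-h)` -/
def tr [Finite V] (f : V → ℝ) (h : ℕ) (y : V) : ℝ :=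
  su fun l : Du V => ind {l : Du V | (1 / 2 : ℝ) ^ h ≤ |ft f l|} l * (ft f l * sg (l y))

/-- the weight `ν(y) ν(y+x) ν(y+x') ν(y+x+x')` -/
def w2 (q : V → M) (y x x' : V) : ℝ :=
  nu q y * nu q (y + x) * (nu q (y + x') * nu q (y + x + x'))

/-! ### Good quadruples -/

/-- `(φ(u_1), …, φ(u_l)) : V → M^l` is surjective -/
def Gen {l : ℕ} (φ : Bil V M) (u : Fin l → V) : Prop :=
  Function.Surjective fun (y : V) (i : Fin l) => φ (u i) y

/-- coefficients `A i` of the relation `∑ Ξ (w i) = ∑ A i ∘ φ (w i)` for `w 0, w 1, w 2` and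
`w 3 = w 0 + w 1 + w 2` -/
def Rel (φ : Bil V M) (Ξ : V → V →ₗ[ZMod 2] L) (a b c : V) (A : Fin 4 → M →ₗ[ZMod 2] L) : Prop :=
  Ξ a + Ξ b + Ξ c + Ξ (a + b + c) =
    (A 0).comp (φ a) + (A 1).comp (φ b) + (A 2).comp (φ c) + (A 3).comp (φ (a + b + c))

/-- good triples: all four points in `Ω`, generic, and a relation holds -/
def Good (φ : Bil V M) (Ω : Set V) (Ξ : V → V →ₗ[ZMod 2] L) (a b c : V) : Prop :=
  a ∈ Ω ∧ b ∈ Ω ∧ c ∈ Ω ∧ a + b + c ∈ Ω ∧ Gen φ ![a, b, c] ∧ ∃ A, Rel φ Ξ a b c A

/-! ### Data of step (7) -/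

/-- the data of step (7) -/
structure Dat (V M L : Type) [AddCommGroup V] [Module (ZMod 2) V] [AddCommGroup M]
    [Module (ZMod 2) M] [AddCommGroup L] [Module (ZMod 2) L] where
  /-- polar form of `q1`, `q2` -/
  φ : Bil V M
  /-- the new forms -/
  Φ : Bil V L
  /-- first quadratic map -/
  q1 : V → M
  /-- second quadratic map -/
  q2 : V → M
  /-- linear part of `q2 - q1` -/
  δ : V →ₗ[ZMod 2] M
  /-- linear part of the new condition -/
  μ : V →ₗ[ZMod 2] L
  /-- first set -/
  F1 : Set V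
  /-- second set -/
  F2 : Set V
  isQ1 : IsQ q1 φ
  isQ2 : IsQ q2 φ
  hδ : ∀ y, q2 y + q2 0 = q1 y + q1 0 + δ y
  sub1 : ∀ y ∈ F1, q1 y = 0
  sub2 : ∀ y ∈ F2, q2 y = 0

/-- the conditions on `y` for the shift `w` -/
def Dat.T (D : Dat V M L) (w : V) : V →ₗ[ZMod 2] (M × L) := (D.φ w + D.δ).prod (D.Φ w + D.μ)

/-- the average of `|M| 1_{F1}(y) 1_{F2}(y + w)` over a nonempty fibre of `T w` is at least `θ` -/
def Dat.Gd [Finite V] (D : Dat V M L) (θ : ℝ) (w : V) : Prop :=
  ∃ t : M × L, (∃ y, D.T w y = t) ∧ θ * dn {y | D.T w y = t} ≤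
    av fun y => ind {y | D.T w y = t} y * (nc M * (ind D.F1 y * ind D.F2 (y + w)))

end

end G2
end

section

/-!
# Calculus of `su`, `av`, `ind`, `dn`, `sg` (all proved)
-/

set_option autoImplicit false

open Module

namespace G2

section finite

variable {α β γ : Type}

theorem su_eq [Fintype α] (f : α → ℝ) : su f = ∑ x, f x := by
  unfold su
  congr 1
  exact congrArg (fun i : Fintype α => @Finset.univ α i) (Subsingleton.elim _ _)

theorem nc_eq [Fintype α] : nc α = (Fintype.card α : ℝ) := by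
  unfold nc
  rw [Nat.card_eq_fintype_card]

theorem av_eq [Fintype α] (f : α → ℝ) : av f = (∑ x, f x) / (Fintype.card α : ℝ) := by
  rw [av, su_eq, nc_eq]

theorem nc_pos [Finite α] [Nonempty α] : 0 < nc α := by
  unfold nc
  exact_mod_cast Nat.card_pos

theorem nc_nonneg (α : Type) : 0 ≤ nc α := Nat.cast_nonneg _

theorem one_le_nc [Finite α] [Nonempty α] : 1 ≤ nc α := by
  unfold nc
  exact_mod_cast (Nat.card_pos : 0 < Nat.card α)

theorem su_add [Finite α] (f g : α → ℝ) : su (fun x => f x + g x) = su f + su g := by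
  have := Fintype.ofFinite α
  simp only [su_eq, Finset.sum_add_distrib]

theorem su_sub [Finite α] (f g : α → ℝ) : su (fun x => f x - g x) = su f - su g := by
  have := Fintype.ofFinite α
  simp only [su_eq, Finset.sum_sub_distrib]

theorem su_mul_left [Finite α] (c : ℝ) (f : α → ℝ) : su (fun x => c * f x) = c * su f := by
  have := Fintype.ofFinite α
  simp only [su_eq, Finset.mul_sum]

theorem su_mul_right [Finite α] (c : ℝ) (f : α → ℝ) : su (fun x => f x * c) = su f * c := by
  have := Fintype.ofFinite α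
  simp only [su_eq, Finset.sum_mul]

theorem su_const [Finite α] (c : ℝ) : su (fun _ : α => c) = nc α * c := by
  have := Fintype.ofFinite α
  simp only [su_eq, Finset.sum_const, Finset.card_univ, nsmul_eq_mul, nc_eq]

theorem su_comm [Finite α] [Finite β] (f : α → β → ℝ) :
    su (fun x => su (fun y => f x y)) = su (fun y => su (fun x => f x y)) := by
  have := Fintype.ofFinite α
  have := Fintype.ofFinite β
  simp only [su_eq]
  exact Finset.sum_comm

theorem su_equiv [Finite α] [Finite β] (e : α ≃ β) (f : β → ℝ) : su (fun x => f (e x)) = su f := by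
  have := Fintype.ofFinite α
  have := Fintype.ofFinite β
  simp only [su_eq]
  exact Equiv.sum_comp e f

theorem su_le_su [Finite α] {f g : α → ℝ} (h : ∀ x, f x ≤ g x) : su f ≤ su g := by
  have := Fintype.ofFinite α
  simp only [su_eq]
  exact Finset.sum_le_sum fun x _ => h x

theorem su_nonneg [Finite α] {f : α → ℝ} (h : ∀ x, 0 ≤ f x) : 0 ≤ su f := by
  have := Fintype.ofFinite α
  simp only [su_eq]
  exact Finset.sum_nonneg fun x _ => h x

theorem abs_su_le [Finite α] (f : α → ℝ) : |su f| ≤ su (fun x => |f x|) := by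
  have := Fintype.ofFinite α
  simp only [su_eq]
  exact Finset.abs_sum_le_sum_abs _ _

theorem le_su [Finite α] {f : α → ℝ} (h : ∀ x, 0 ≤ f x) (x : α) : f x ≤ su f := by
  have := Fintype.ofFinite α
  simp only [su_eq]
  exact Finset.single_le_sum (fun y _ => h y) (Finset.mem_univ x)

theorem av_add [Finite α] (f g : α → ℝ) : av (fun x => f x + g x) = av f + av g := by
  rw [av, su_add, add_div]
  rfl

theorem av_sub [Finite α] (f g : α → ℝ) : av (fun x => f x - g x) = av f - av g := by
  rw [av, su_sub, sub_div]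
  rfl

theorem av_mul_left [Finite α] (c : ℝ) (f : α → ℝ) : av (fun x => c * f x) = c * av f := by
  rw [av, su_mul_left, mul_div_assoc]
  rfl

theorem av_mul_right [Finite α] (c : ℝ) (f : α → ℝ) : av (fun x => f x * c) = av f * c := by
  rw [av, su_mul_right, mul_div_right_comm]
  rfl

theorem av_const [Finite α] [Nonempty α] (c : ℝ) : av (fun _ : α => c) = c := by
  rw [av, su_const, mul_comm, mul_div_assoc, div_self (nc_pos (α := α)).ne', mul_one]

theorem av_comm [Finite α] [Finite β] (f : α → β → ℝ) :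
    av (fun x => av (fun y => f x y)) = av (fun y => av (fun x => f x y)) := by
  have := Fintype.ofFinite α
  have := Fintype.ofFinite β
  simp only [av_eq, ← Finset.sum_div]
  rw [Finset.sum_comm, div_div, div_div, mul_comm]

theorem av_equiv [Finite α] [Finite β] (e : α ≃ β) (f : β → ℝ) : av (fun x => f (e x)) = av f := by
  rw [av, av, su_equiv, nc, nc, Nat.card_congr e]

theorem av_le_av [Finite α] {f g : α → ℝ} (h : ∀ x, f x ≤ g x) : av f ≤ av g :=
  div_le_div_of_nonneg_right (su_le_su h) (nc_nonneg α)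

theorem av_nonneg [Finite α] {f : α → ℝ} (h : ∀ x, 0 ≤ f x) : 0 ≤ av f :=
  div_nonneg (su_nonneg h) (nc_nonneg α)

theorem abs_av_le [Finite α] (f : α → ℝ) : |av f| ≤ av (fun x => |f x|) := by
  rw [av, abs_div, abs_of_nonneg (nc_nonneg α)]
  exact div_le_div_of_nonneg_right (abs_su_le f) (nc_nonneg α)

theorem av_le_const [Finite α] [Nonempty α] {f : α → ℝ} {c : ℝ} (h : ∀ x, f x ≤ c) : av f ≤ c := by
  rw [← av_const (α := α) c]
  exact av_le_av h

theorem const_le_av [Finite α] [Nonempty α] {f : α → ℝ} {c : ℝ} (h : ∀ x, c ≤ f x) : c ≤ av f := by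
  rw [← av_const (α := α) c]
  exact av_le_av h

theorem av_prod [Finite α] [Finite β] (f : α × β → ℝ) :
    av f = av (fun x => av (fun y => f (x, y))) := by
  have := Fintype.ofFinite α
  have := Fintype.ofFinite β
  simp only [av_eq, ← Finset.sum_div]
  rw [Fintype.sum_prod_type, div_div, Fintype.card_prod, Nat.cast_mul, mul_comm]

theorem av_mul_av [Finite α] [Finite β] (f : α → ℝ) (g : β → ℝ) :
    av f * av g = av (fun x => av (fun y => f x * g y)) := by
  simp only [av_mul_left, av_mul_right]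

theorem exists_ge_av [Finite α] [Nonempty α] (f : α → ℝ) : ∃ x, av f ≤ f x := by
  by_contra h
  push Not at h
  have := Fintype.ofFinite α
  have h1 : ∑ x, f x < ∑ _x : α, av f :=
    Finset.sum_lt_sum_of_nonempty Finset.univ_nonempty fun x _ => h x
  rw [Finset.sum_const, Finset.card_univ, nsmul_eq_mul, av_eq] at h1
  have h2 : (0 : ℝ) < Fintype.card α := by exact_mod_cast Fintype.card_pos
  rw [mul_div_cancel₀ _ h2.ne'] at h1
  exact lt_irrefl _ h1

theorem exists_le_av [Finite α] [Nonempty α] (f : α → ℝ) : ∃ x, f x ≤ av f := by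
  obtain ⟨x, hx⟩ := exists_ge_av fun x => -1 * f x
  rw [av_mul_left] at hx
  exact ⟨x, by linarith⟩

/-- weighted Cauchy-Schwarz inequality -/
theorem av_cs_weight [Finite α] (w f : α → ℝ) (hw : ∀ x, 0 ≤ w x) :
    (av fun x => w x * f x) ^ 2 ≤ av w * av fun x => w x * f x ^ 2 := by
  have := Fintype.ofFinite α
  simp only [av_eq]
  rw [div_pow, div_mul_div_comm, ← sq]
  refine div_le_div_of_nonneg_right ?_ (by positivity)
  have h := Finset.sum_mul_sq_le_sq_mul_sq Finset.univ (fun x => Real.sqrt (w x))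
    (fun x => Real.sqrt (w x) * f x)
  have e1 : ∀ x, Real.sqrt (w x) * (Real.sqrt (w x) * f x) = w x * f x := fun x => by
    rw [← mul_assoc, Real.mul_self_sqrt (hw x)]
  have e2 : ∀ x, Real.sqrt (w x) ^ 2 = w x := fun x => Real.sq_sqrt (hw x)
  have e3 : ∀ x, (Real.sqrt (w x) * f x) ^ 2 = w x * f x ^ 2 := fun x => by
    rw [mul_pow, e2]
  simp only [e1, e2, e3] at h
  exact h

theorem av_cs [Finite α] (f g : α → ℝ) :
    (av fun x => f x * g x) ^ 2 ≤ (av fun x => f x ^ 2) * av fun x => g x ^ 2 := by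
  have := Fintype.ofFinite α
  simp only [av_eq]
  rw [div_pow, div_mul_div_comm, ← sq]
  exact div_le_div_of_nonneg_right (Finset.sum_mul_sq_le_sq_mul_sq _ _ _) (by positivity)

theorem sq_av_le [Finite α] [Nonempty α] (f : α → ℝ) : (av f) ^ 2 ≤ av fun x => f x ^ 2 := by
  have h := av_cs_weight (fun _ : α => (1 : ℝ)) f fun _ => zero_le_one
  rw [av_const, one_mul] at h
  simpa only [one_mul] using h

theorem ind_nonneg (A : Set α) (x : α) : 0 ≤ ind A x := by
  unfold ind
  split_ifs <;> norm_num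

theorem ind_le_one (A : Set α) (x : α) : ind A x ≤ 1 := by
  unfold ind
  split_ifs <;> norm_num

theorem ind_pos {A : Set α} {x : α} (h : x ∈ A) : ind A x = 1 := if_pos h

theorem ind_neg {A : Set α} {x : α} (h : x ∉ A) : ind A x = 0 := if_neg h

theorem ind_inter (A B : Set α) (x : α) : ind (A ∩ B) x = ind A x * ind B x := by
  by_cases h1 : x ∈ A <;> by_cases h2 : x ∈ B
  · rw [ind_pos (A := A ∩ B) ⟨h1, h2⟩, ind_pos h1, ind_pos h2, one_mul]
  · rw [ind_neg (A := A ∩ B) fun h => h2 h.2, ind_neg h2, mul_zero]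
  · rw [ind_neg (A := A ∩ B) fun h => h1 h.1, ind_neg h1, zero_mul]
  · rw [ind_neg (A := A ∩ B) fun h => h1 h.1, ind_neg h1, zero_mul]

theorem ind_mul_self (A : Set α) (x : α) : ind A x * ind A x = ind A x := by
  by_cases h : x ∈ A
  · rw [ind_pos h, one_mul]
  · rw [ind_neg h, zero_mul]

theorem ind_mono {A B : Set α} (h : A ⊆ B) (x : α) : ind A x ≤ ind B x := by
  by_cases h1 : x ∈ A
  · rw [ind_pos h1, ind_pos (h h1)]
  · rw [ind_neg h1]
    exact ind_nonneg B x

theorem ind_compl (A : Set α) (x : α) : ind Aᶜ x = 1 - ind A x := by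
  by_cases h : x ∈ A
  · rw [ind_neg (A := Aᶜ) fun h' => h' h, ind_pos h, sub_self]
  · rw [ind_pos (A := Aᶜ) h, ind_neg h, sub_zero]

theorem dn_nonneg [Finite α] (A : Set α) : 0 ≤ dn A := av_nonneg fun x => ind_nonneg A x

theorem dn_le_one [Finite α] (A : Set α) : dn A ≤ 1 := by
  cases isEmpty_or_nonempty α
  · have := Fintype.ofFinite α
    rw [dn, av_eq]
    simp
  · exact av_le_const fun x => ind_le_one A x

theorem dn_mono [Finite α] {A B : Set α} (h : A ⊆ B) : dn A ≤ dn B := av_le_av fun x => ind_mono h x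

theorem dn_union_le [Finite α] (A B : Set α) : dn (A ∪ B) ≤ dn A + dn B := by
  rw [dn, dn, dn, ← av_add]
  refine av_le_av fun x => ?_
  by_cases h1 : x ∈ A
  · rw [ind_pos (A := A ∪ B) (Or.inl h1), ind_pos h1]
    linarith [ind_nonneg B x]
  · by_cases h2 : x ∈ B
    · rw [ind_pos (A := A ∪ B) (Or.inr h2), ind_pos h2]
      linarith [ind_nonneg A x]
    · rw [ind_neg (A := A ∪ B) fun h => h.elim h1 h2]
      linarith [ind_nonneg A x, ind_nonneg B x]

theorem dn_eq_card [Finite α] (A : Set α) : dn A = (Nat.card A : ℝ) / Nat.card α := by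
  classical
  have := Fintype.ofFinite α
  rw [dn, av_eq, Nat.card_eq_fintype_card (α := α), Nat.card_eq_fintype_card (α := A),
    Fintype.card_subtype]
  congr 1
  unfold ind
  rw [Finset.sum_ite, Finset.sum_const_zero, add_zero, Finset.sum_const, nsmul_eq_mul, mul_one]

theorem dn_univ [Finite α] [Nonempty α] : dn (Set.univ : Set α) = 1 := by
  have h : ind (Set.univ : Set α) = fun _ => 1 := funext fun x => ind_pos (Set.mem_univ x)
  rw [dn, h]
  exact av_const 1

theorem dn_pos [Finite α] {A : Set α} (h : A.Nonempty) : 0 < dn A := by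
  obtain ⟨x, hx⟩ := h
  have : Nonempty α := ⟨x⟩
  have : Nonempty A := ⟨⟨x, hx⟩⟩
  rw [dn_eq_card]
  have h1 : (0 : ℝ) < Nat.card A := by exact_mod_cast Nat.card_pos
  have h2 : (0 : ℝ) < Nat.card α := by exact_mod_cast Nat.card_pos
  positivity

theorem nonempty_of_dn_pos [Finite α] {A : Set α} (h : 0 < dn A) : A.Nonempty := by
  by_contra h1
  rw [Set.not_nonempty_iff_eq_empty] at h1
  have h2 : dn A = 0 := by
    have h3 : ind (∅ : Set α) = fun _ => 0 := funext fun x => ind_neg (Set.notMem_empty x)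
    have := Fintype.ofFinite α
    rw [dn, h1, h3, av_eq]
    simp
  rw [h2] at h
  exact lt_irrefl _ h

/-- Markov's inequality -/
theorem markov [Finite α] {f : α → ℝ} (hf : ∀ x, 0 ≤ f x) (c : ℝ) :
    c * dn {x | c ≤ f x} ≤ av f := by
  rw [dn, ← av_mul_left]
  refine av_le_av fun x => ?_
  by_cases h : c ≤ f x
  · rw [ind_pos (A := {x | c ≤ f x}) h, mul_one]
    exact h
  · rw [ind_neg (A := {x | c ≤ f x}) h, mul_zero]
    exact hf x

/-- a function bounded by `m` with average at least `c` is at least `c'` on a set of density at least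
`(c - c') / m` -/
theorem reverse_markov [Finite α] [Nonempty α] {f : α → ℝ} {m c c' : ℝ} (hf : ∀ x, f x ≤ m)
    (hc : c ≤ av f) (hc' : 0 ≤ c') : c - c' ≤ m * dn {x | c' ≤ f x} := by
  have h1 : av f ≤ av fun x => c' + m * ind {x | c' ≤ f x} x := by
    refine av_le_av fun x => ?_
    by_cases h : c' ≤ f x
    · rw [ind_pos (A := {x | c' ≤ f x}) h, mul_one]
      linarith [hf x]
    · rw [ind_neg (A := {x | c' ≤ f x}) h, mul_zero, add_zero]
      exact (not_le.1 h).le
  rw [av_add, av_const, av_mul_left] at h1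
  rw [dn]
  linarith

end finite

section sign

theorem sg_zero : sg 0 = 1 := if_pos rfl

theorem sg_one : sg 1 = -1 := if_neg (by decide)

theorem zmod2 (a : ZMod 2) : a = 0 ∨ a = 1 := by
  revert a
  decide

theorem sg_add (a b : ZMod 2) : sg (a + b) = sg a * sg b := by
  rcases zmod2 a with rfl | rfl <;> rcases zmod2 b with rfl | rfl
  · rw [add_zero, sg_zero, one_mul]
  · rw [zero_add, sg_zero, one_mul]
  · rw [add_zero, sg_zero, mul_one]
  · rw [show (1 + 1 : ZMod 2) = 0 from rfl, sg_zero, sg_one]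
    norm_num

theorem sg_mul_self (a : ZMod 2) : sg a * sg a = 1 := by
  rcases zmod2 a with rfl | rfl
  · rw [sg_zero, one_mul]
  · rw [sg_one]
    norm_num

theorem abs_sg (a : ZMod 2) : |sg a| = 1 := by
  rcases zmod2 a with rfl | rfl
  · rw [sg_zero, abs_one]
  · rw [sg_one, abs_neg, abs_one]

theorem sg_ne_zero (a : ZMod 2) : sg a ≠ 0 := by
  intro h
  have := abs_sg a
  rw [h, abs_zero] at this
  exact zero_ne_one this

end sign

section space

variable {V M L : Type} [AddCommGroup V] [Module (ZMod 2) V] [AddCommGroup M] [Module (ZMod 2) M]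
  [AddCommGroup L] [Module (ZMod 2) L]

theorem add_self (v : V) : v + v = 0 := by
  rw [← two_smul (ZMod 2) v, show (2 : ZMod 2) = 0 from rfl, zero_smul]

theorem eq_of_add_eq_zero {v w : V} (h : v + w = 0) : v = w := by
  have h1 : v + w + w = w := by rw [h, zero_add]
  rwa [add_assoc, add_self, add_zero] at h1

theorem add_add_cancel (v w : V) : v + w + w = v := by rw [add_assoc, add_self, add_zero]

theorem nc_finrank [Finite V] : nc V = 2 ^ finrank (ZMod 2) V := by
  have := Fintype.ofFinite V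
  rw [nc, Nat.card_eq_fintype_card, Module.card_eq_pow_finrank (K := ZMod 2) (V := V), ZMod.card]
  push_cast
  rfl

omit [Module (ZMod 2) V] in
/-- translation invariance -/
theorem av_shift [Finite V] (f : V → ℝ) (a : V) : av (fun y => f (y + a)) = av f :=
  av_equiv (Equiv.addRight a) f

omit [Module (ZMod 2) V] in
theorem av_shift_left [Finite V] (f : V → ℝ) (a : V) : av (fun y => f (a + y)) = av f :=
  av_equiv (Equiv.addLeft a) f

end space

end G2
end
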