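import Pool.Agent.Lib.MP_f4f4db_co.G2.QD3b
import Pool.Agent.Lib.MP_f4f4db_co.G2.Basic
import Pool.Agent.Lib.MP_f4f4db_co.G2.Akm

section

/-!
# Job QD4: products of shifts of `ν`

`ν(y) ν(y+u) = |M| ν(y) 1[φ(u,y) = q(u) + q(0)]`.
-/

set_option autoImplicit false

open Module

namespace G2

variable {V M L : Type} [AddCommGroup V] [Module (ZMod 2) V] [Finite V]
  [AddCommGroup M] [Module (ZMod 2) M] [Finite M] [AddCommGroup L] [Module (ZMod 2) L] [Finite L]

omit [Finite V] [Finite M] in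
/-- the condition on a shift at a zero of `q` -/
theorem qd4_shift_iff {q : V → M} {φ : Bil V M} (hq : IsQ q φ) {y : V} (hy : q y = 0) (u : V) :
    q (y + u) = 0 ↔ φ u y = q u + q 0 := by
  rw [hq y u, hy, hq.symm y u, zero_add]
  constructor
  · intro h
    exact (eq_of_add_eq_zero h).symm
  · intro h
    rw [h]
    exact add_self _

omit [Finite V] [Finite M] in
theorem qd4_nu_shift {q : V → M} {φ : Bil V M} (hq : IsQ q φ) {y : V} (hy : q y = 0) (u : V) :
    nu q (y + u) = nc M * ind {y | φ u y = q u + q 0} y := by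
  unfold nu
  congr 1
  by_cases h : q (y + u) = 0
  · rw [ind_pos (A := {y | q y = 0}) h, ind_pos (A := {y | φ u y = q u + q 0})
      ((qd4_shift_iff hq hy u).1 h)]
  · rw [ind_neg (A := {y | q y = 0}) h, ind_neg (A := {y | φ u y = q u + q 0})
      fun h' => h ((qd4_shift_iff hq hy u).2 h')]

omit [Module (ZMod 2) V] [Finite V] [Module (ZMod 2) M] [Finite M] in
theorem qd4_nu_zero {q : V → M} {y : V} (hy : q y ≠ 0) : nu q y = 0 := by
  unfold nu
  rw [ind_neg (A := {y | q y = 0}) hy, mul_zero]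

theorem nu_mul_nu {q : V → M} {φ : Bil V M} (hq : IsQ q φ) (y u : V) :
    nu q y * nu q (y + u) = nc M * (nu q y * ind {y | φ u y = q u + q 0} y) := by
  by_cases hy : q y = 0
  · rw [qd4_nu_shift hq hy]
    ring
  · rw [qd4_nu_zero hy]
    ring

omit [AddCommGroup V] [Module (ZMod 2) V] [Finite V] in
theorem qd4_prod_ind {l : ℕ} (P : Fin l → Set V) (y : V) :
    ∏ i, ind (P i) y = ind {y | ∀ i, y ∈ P i} y := by
  by_cases h : ∀ i, y ∈ P i
  · rw [ind_pos (A := {y | ∀ i, y ∈ P i}) h]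
    exact Finset.prod_eq_one fun i _ => ind_pos (h i)
  · rw [ind_neg (A := {y | ∀ i, y ∈ P i}) h]
    push Not at h
    obtain ⟨i, hi⟩ := h
    exact Finset.prod_eq_zero (Finset.mem_univ i) (ind_neg hi)

/-- product of `ν(y)` and the shifts by `u_1, …, u_l` -/
theorem nu_mul_prod {q : V → M} {φ : Bil V M} (hq : IsQ q φ) {l : ℕ} (u : Fin l → V) (y : V) :
    nu q y * ∏ i, nu q (y + u i) =
      nc M ^ l * (nu q y * ind {y | gmap φ u y = fun i => q (u i) + q 0} y) := by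
  by_cases hy : q y = 0
  · have h1 : ∏ i, nu q (y + u i) = nc M ^ l * ind {y | gmap φ u y = fun i => q (u i) + q 0} y := by
      rw [Finset.prod_congr rfl fun i _ => qd4_nu_shift hq hy (u i), Finset.prod_mul_distrib,
        Finset.prod_const, Finset.card_univ, Fintype.card_fin, qd4_prod_ind]
      congr 2
      ext z
      exact ⟨fun h => funext h, fun h i => congrFun h i⟩
    rw [h1]
    ring
  · rw [qd4_nu_zero hy]
    ring

omit [AddCommGroup M] [Module (ZMod 2) M] in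
theorem qd4_nc_fun (l : ℕ) : nc (Fin l → M) = nc M ^ l := by
  unfold nc
  rw [Nat.card_fun, Nat.card_eq_fintype_card (α := Fin l), Fintype.card_fin]
  push_cast
  rfl

/-- for generic shifts the average is almost `1` (`fibre_nu` with `b = 0`) -/
theorem shift_zero {q : V → M} {φ : Bil V M} (hq : IsQ q φ) {R : ℕ} (hR : HR φ R) {l : ℕ}
    {u : Fin l → V} (hu : Gen φ u) :
    |av (fun y => nu q y * ∏ i, nu q (y + u i)) - 1| ≤ er M (l + 1) R := by
  have h := fibre_nu hq hR (gmap φ u) (gmap_surj hu) (fun i => q (u i) + q 0) 0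
  rw [qd4_nc_fun] at h
  simp only [LinearMap.zero_apply, sg_zero, mul_one] at h
  have h2 : (av fun y => nu q y * ∏ i, nu q (y + u i)) =
      nc M ^ l * av (fun y => nu q y * ind {y | gmap φ u y = fun i => q (u i) + q 0} y) := by
    rw [← av_mul_left]
    congr 1
    funext y
    exact nu_mul_prod hq u y
  rw [h2]
  exact h.trans (nc_mul_er l 1 R)

/-- with a linear phase: at most `1` in absolute value, up to the error (`|·| ≤` the average without
phase) -/
theorem shift_le {q : V → M} {φ : Bil V M} (hq : IsQ q φ) {R : ℕ} (hR : HR φ R) {l : ℕ}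
    {u : Fin l → V} (hu : Gen φ u) (σ : Du V) :
    |av fun y => nu q y * (∏ i, nu q (y + u i)) * sg (σ y)| ≤ 1 + er M (l + 1) R := by
  have h := (abs_le.1 (shift_zero hq hR hu)).2
  refine (abs_av_le _).trans ?_
  have h2 : (av fun y => |nu q y * (∏ i, nu q (y + u i)) * sg (σ y)|) =
      av fun y => nu q y * ∏ i, nu q (y + u i) := by
    congr 1
    funext y
    rw [abs_mul, abs_sg, mul_one, abs_of_nonneg]
    exact mul_nonneg (nu_nonneg q y) (Finset.prod_nonneg fun i _ => nu_nonneg q _)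
  rw [h2]
  linarith

/-- if the phase is not a combination of the `φ(u_i,·)` the average is tiny (`fibre_nu'`) -/
theorem shift_small {q : V → M} {φ : Bil V M} (hq : IsQ q φ) {R : ℕ} (hR : HR φ R) {l : ℕ}
    (u : Fin l → V) (σ : Du V) (hσ : ∀ b : Du (Fin l → M), σ ≠ b.comp (gmap φ u)) :
    |av fun y => nu q y * (∏ i, nu q (y + u i)) * sg (σ y)| ≤ er M (l + 1) R := by
  have h := fibre_nu' hq hR (gmap φ u) (fun i => q (u i) + q 0) σ hσ
  rw [qd4_nc_fun] at h
  have h2 : (av fun y => nu q y * (∏ i, nu q (y + u i)) * sg (σ y)) =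
      nc M ^ l * av (fun y => nu q y * ind {y | gmap φ u y = fun i => q (u i) + q 0} y *
        sg (σ y)) := by
    rw [← av_mul_left]
    congr 1
    funext y
    rw [nu_mul_prod hq u y]
    ring
  rw [h2]
  exact h.trans (nc_mul_er l 1 R)

/-- `(ν ∘ ν)(w)` for generic `w` -/
theorem cor_nu {q : V → M} {φ : Bil V M} (hq : IsQ q φ) {R : ℕ} (hR : HR φ R) {w : V}
    (hw : Gen φ ![w]) : |cor (nu q) (nu q) w - 1| ≤ er M 2 R := by
  have h := shift_zero hq hR hw
  simp only [Fin.prod_univ_one, Matrix.cons_val_zero] at h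
  exact h

theorem cor_nu_nonneg (q : V → M) (w : V) : 0 ≤ cor (nu q) (nu q) w :=
  av_nonneg fun y => mul_nonneg (nu_nonneg q y) (nu_nonneg q _)

/-- always `(ν ∘ ν)(w) ≤ |M| E ν ≤ 2 |M|^2`, in the form needed later -/
theorem cor_nu_le (q : V → M) (w : V) : cor (nu q) (nu q) w ≤ nc M ^ 2 := by
  unfold cor
  refine av_le_const fun y => ?_
  rw [sq]
  exact mul_le_mul (nu_le q y) (nu_le q _) (nu_nonneg q _) (nc_nonneg M)

theorem qd4_four {q : V → M} {φ : Bil V M} (hq : IsQ q φ) (y x w : V) :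
    q (y + x + w) = q (y + x) + q (y + w) + q y + φ x w := by
  rw [hq (y + x) w, hq y w, map_add, LinearMap.add_apply]
  have h1 := add_self (q y)
  have h2 := add_self (q 0)
  have h3 := add_self (φ y w)
  calc q (y + x) + q w + q 0 + (φ y w + φ x w)
      = q (y + x) + (0 + q w + q 0 + φ y w) + φ x w := by abel
    _ = q (y + x) + ((q y + q y) + q w + q 0 + φ y w) + φ x w := by rw [h1]
    _ = _ := by abel

theorem qd4_PK_pt {q : V → M} {φ : Bil V M} (hq : IsQ q φ) (y x w : V) :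
    nu q y * nu q (y + x) * (nu q (y + w) * nu q (y + x + w)) =
      nc M * ind {x | φ x w = 0} x * (nu q y * (nu q (y + x) * nu q (y + w))) := by
  by_cases h0 : q y = 0
  · by_cases h1 : q (y + x) = 0
    · by_cases h2 : q (y + w) = 0
      · have h3 := qd4_four hq y x w
        rw [h0, h1, h2, add_zero, add_zero, zero_add] at h3
        have h4 : nu q (y + x + w) = nc M * ind {x | φ x w = 0} x := by
          unfold nu
          congr 1
          by_cases h5 : φ x w = 0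
          · rw [ind_pos (A := {x | φ x w = 0}) h5, ind_pos (A := {y | q y = 0})
              (show q (y + x + w) = 0 by rw [h3, h5])]
          · rw [ind_neg (A := {x | φ x w = 0}) h5, ind_neg (A := {y | q y = 0})
              (show ¬ q (y + x + w) = 0 by rw [h3]; exact h5)]
        rw [h4]
        ring
      · rw [qd4_nu_zero h2]
        ring
    · rw [qd4_nu_zero h1]
      ring
  · rw [qd4_nu_zero h0]
    ring

/-- `P_ν(x, w)` for a generic pair: the four factors give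
`|M| 1[φ(x,w) = 0] ν(y) ν(y+x) ν(y+w)` -/
theorem PK_nu {q : V → M} {φ : Bil V M} (hq : IsQ q φ) {R : ℕ} (hR : HR φ R) {x w : V}
    (hxw : Gen φ ![x, w]) :
    |PK (nu q) x w - nc M * ind {x | φ x w = 0} x| ≤ er M 4 R := by
  have h := shift_zero hq hR hxw
  simp only [Fin.prod_univ_two, Matrix.cons_val_zero, Matrix.cons_val_one] at h
  have h2 : PK (nu q) x w = nc M * ind {x | φ x w = 0} x *
      av (fun y => nu q y * (nu q (y + x) * nu q (y + w))) := by
    unfold PK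
    rw [← av_mul_left]
    congr 1
    funext y
    exact qd4_PK_pt hq y x w
  rw [h2, show nc M * ind {x | φ x w = 0} x *
      av (fun y => nu q y * (nu q (y + x) * nu q (y + w))) - nc M * ind {x | φ x w = 0} x =
      nc M * ind {x | φ x w = 0} x *
      (av (fun y => nu q y * (nu q (y + x) * nu q (y + w))) - 1) by ring, abs_mul,
    abs_of_nonneg (mul_nonneg (nc_nonneg M) (ind_nonneg _ _))]
  have h3 := nc_mul_er (M := M) 1 3 R
  rw [pow_one] at h3
  refine le_trans ?_ h3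
  refine mul_le_mul ?_ h (abs_nonneg _) (nc_nonneg M)
  calc nc M * ind {x | φ x w = 0} x ≤ nc M * 1 :=
        mul_le_mul_of_nonneg_left (ind_le_one _ _) (nc_nonneg M)
    _ = nc M := mul_one _

theorem PK_nu_nonneg (q : V → M) (x w : V) : 0 ≤ PK (nu q) x w :=
  av_nonneg fun y => mul_nonneg (mul_nonneg (nu_nonneg q y) (nu_nonneg q _))
    (mul_nonneg (nu_nonneg q _) (nu_nonneg q _))

theorem PK_nu_le (q : V → M) (x w : V) : PK (nu q) x w ≤ nc M ^ 4 := by
  unfold PK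
  refine av_le_const fun y => ?_
  have h1 : nu q y * nu q (y + x) ≤ nc M * nc M :=
    mul_le_mul (nu_le q y) (nu_le q _) (nu_nonneg q _) (nc_nonneg M)
  have h2 : nu q (y + w) * nu q (y + x + w) ≤ nc M * nc M :=
    mul_le_mul (nu_le q _) (nu_le q _) (nu_nonneg q _) (nc_nonneg M)
  calc nu q y * nu q (y + x) * (nu q (y + w) * nu q (y + x + w))
      ≤ (nc M * nc M) * (nc M * nc M) := mul_le_mul h1 h2
        (mul_nonneg (nu_nonneg q _) (nu_nonneg q _)) (mul_nonneg (nc_nonneg M) (nc_nonneg M))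
    _ = nc M ^ 4 := by ring

theorem qd4_av_su {α β : Type} [Finite α] [Finite β] (f : α → β → ℝ) :
    av (fun x => su (fun b => f x b)) = su (fun b => av (fun x => f x b)) := by
  unfold av
  rw [su_comm]
  simp only [div_eq_mul_inv]
  rw [su_mul_right]

/-- a sum over a finite type whose terms are small except for one -/
theorem qd4_su_one {α : Type} [Finite α] (f : α → ℝ) (a0 : α) {c : ℝ} (hc : 0 ≤ c)
    (h : ∀ a, a ≠ a0 → |f a| ≤ c) : |su f - f a0| ≤ nc α * c := by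
  classical
  have := Fintype.ofFinite α
  rw [su_eq, nc_eq, ← Finset.add_sum_erase Finset.univ f (Finset.mem_univ a0), add_sub_cancel_left]
  refine (Finset.abs_sum_le_sum_abs _ _).trans ?_
  calc ∑ i ∈ Finset.univ.erase a0, |f i| ≤ ∑ i ∈ Finset.univ.erase a0, c :=
        Finset.sum_le_sum fun i hi => h i (Finset.ne_of_mem_erase hi)
    _ = ((Finset.univ.erase a0).card : ℝ) * c := by rw [Finset.sum_const, nsmul_eq_mul]
    _ ≤ (Fintype.card α : ℝ) * c := by
        refine mul_le_mul_of_nonneg_right ?_ hc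
        exact_mod_cast (Finset.card_le_card (Finset.erase_subset _ _))

/-- the bilinear exponential sum of a nontrivial component -/
theorem qd4_bil {φ : Bil V M} (hφ : ∀ x y, φ x y = φ y x) {R : ℕ} (hR : HR φ R)
    (u v : V → ℝ) (hu : ∀ x, |u x| ≤ 1) (hv : ∀ x, |v x| ≤ 1) {a : Du M} (ha : a ≠ 0) :
    |av (fun x => av fun w => sg (a (φ x w)) * (u x * v w))| ≤ 1 / 2 ^ R := by
  set g : V → ℝ := fun x => av fun w => sg (a (φ x w)) * v w with hg
  have h1 : (av (fun x => av fun w => sg (a (φ x w)) * (u x * v w))) = av fun x => u x * g x := by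
    congr 1
    funext x
    rw [hg, ← av_mul_left]
    congr 1
    funext w
    ring
  have h2 : (av fun x => u x * g x) ^ 2 ≤ av fun x => g x ^ 2 := by
    refine (sq_av_le _).trans (av_le_av fun x => ?_)
    rw [mul_pow]
    have h3 : u x ^ 2 ≤ 1 := by
      rw [← sq_abs]
      exact pow_le_one₀ (abs_nonneg _) (hu x)
    nlinarith [sq_nonneg (g x)]
  -- expand the square
  have h3 : (av fun x => g x ^ 2) =
      av fun w => av fun w' => v w * v w' * av fun x => sg (a (φ (w + w') x)) := by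
    have e1 : ∀ x, g x ^ 2 = av fun w => av fun w' => v w * v w' * sg (a (φ (w + w') x)) := by
      intro x
      rw [sq, hg, av_mul_av]
      congr 1
      funext w
      congr 1
      funext w'
      rw [map_add, LinearMap.add_apply, map_add, sg_add, hφ w x, hφ w' x]
      ring
    simp only [e1]
    rw [av_comm]
    congr 1
    funext w
    rw [av_comm]
    congr 1
    funext w'
    rw [av_mul_left]
  set K : Set V := {x : V | ∀ y, a (φ x y) = 0} with hK
  have h4 : ∀ z : V, (av fun x => sg (a (φ z x))) = ind K z := by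
    intro z
    by_cases hz : z ∈ K
    · rw [ind_pos hz]
      have e2 : ∀ x, sg (a (φ z x)) = 1 := fun x => by
        rw [show a (φ z x) = 0 from hz x, sg_zero]
      simp only [e2]
      exact av_const 1
    · rw [ind_neg hz]
      have e3 : (a.comp (φ z) : Du V) ≠ 0 := by
        intro h
        exact hz fun y => LinearMap.congr_fun h y
      exact av_sg_ne e3
  have h5 : (av fun x => g x ^ 2) ≤ dn K := by
    rw [h3]
    have e4 : ∀ w w' : V, v w * v w' * (av fun x => sg (a (φ (w + w') x))) ≤ ind K (w + w') := by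
      intro w w'
      rw [h4]
      have e5 : v w * v w' ≤ 1 := by
        refine (le_abs_self _).trans ?_
        rw [abs_mul]
        exact mul_le_one₀ (hv w) (abs_nonneg _) (hv w')
      calc v w * v w' * ind K (w + w') ≤ 1 * ind K (w + w') :=
            mul_le_mul_of_nonneg_right e5 (ind_nonneg _ _)
        _ = _ := one_mul _
    calc (av fun w => av fun w' => v w * v w' * av fun x => sg (a (φ (w + w') x)))
        ≤ av fun w : V => av fun w' => ind K (w + w') := av_le_av fun w => av_le_av fun w' => e4 w w'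
      _ = av fun _ : V => dn K := by
          congr 1
          funext w
          exact av_shift_left (ind K) w
      _ = dn K := av_const _
  have h6 := hR a ha
  have h7 : dn K ≤ (1 / 2 ^ R) ^ 2 := by
    have h8 : (0 : ℝ) < 4 ^ R := by positivity
    have h9 : ((1 : ℝ) / 2 ^ R) ^ 2 = 1 / 4 ^ R := by
      rw [div_pow, one_pow, ← pow_mul, mul_comm R 2, pow_mul]
      norm_num
    rw [h9, le_div_iff₀ h8, mul_comm]
    exact h6
  rw [h1]
  exact abs_le_of_sq_le_sq (h2.trans (h5.trans h7)) (by positivity)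

/-- `|M| 1[φ(x,w) = 0]` is uniform: for `|u|, |v| ≤ 1`,
`E_{x,w} |M| 1[φ(x,w)=0] u(x) v(w) = E u E v` up to `|M| / 2^R`.
Expand `|M| 1[φ(x,w) = 0] = ∑_{a ∈ M*} sg(a φ(x,w))`; for `a ≠ 0`,
`(E_x u(x) E_w v(w) sg(aφ(x,w)))^2 ≤ E_x (E_w v(w) sg(aφ(x,w)))^2 =
E_{w,w'} v(w) v(w') E_x sg(aφ(x,w+w')) ≤ dens {w : aφ(·,w) = 0} ≤ 4^(-R)` (`φ` is symmetric). -/
theorem iso_uniform {φ : Bil V M} (hφ : ∀ x y, φ x y = φ y x) {R : ℕ} (hR : HR φ R)
    (u v : V → ℝ) (hu : ∀ x, |u x| ≤ 1) (hv : ∀ x, |v x| ≤ 1) :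
    |av (fun x => av fun w => nc M * ind {x | φ x w = 0} x * (u x * v w)) - av u * av v| ≤
      er M 1 R := by
  have h1 : ∀ x w : V, nc M * ind {x | φ x w = 0} x * (u x * v w) =
      su fun a : Du M => sg (a (φ x w)) * (u x * v w) := by
    intro x w
    have h2 := nu_eq_su (fun x : V => φ x w) x
    rw [su_mul_right, ← h2]
    rfl
  set F : Du M → ℝ := fun a => av (fun x => av fun w => sg (a (φ x w)) * (u x * v w)) with hF
  have h2 : av (fun x => av fun w => nc M * ind {x | φ x w = 0} x * (u x * v w)) = su F := by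
    simp only [h1]
    rw [hF, ← qd4_av_su]
    congr 1
    funext x
    rw [qd4_av_su]
  have h3 : F 0 = av u * av v := by
    rw [hF, av_mul_av]
    simp only [LinearMap.zero_apply, sg_zero, one_mul]
  rw [h2, ← h3]
  refine (qd4_su_one F 0 (c := 1 / 2 ^ R) (by positivity)
    fun a ha => qd4_bil hφ hR u v hu hv ha).trans ?_
  have hnc : nc (Du M) = nc M := nc_Du
  rw [hnc, er, pow_one, mul_one_div]
  have h4 := nc_nonneg M
  exact div_le_div_of_nonneg_right (by linarith) (by positivity)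

end G2
end

section

section

/-!
# Job CO3b: pivots and popular values
-/

set_option autoImplicit false

open Module

namespace G2

variable {V M L : Type} [AddCommGroup V] [Module (ZMod 2) V] [Finite V]
  [AddCommGroup M] [Module (ZMod 2) M] [Finite M] [AddCommGroup L] [Module (ZMod 2) L] [Finite L]

theorem co3b_sq {α : Type} [Finite α] (f : α → ℝ) :
    (av f) ^ 2 = av fun x => av fun y => f x * f y := by
  rw [sq, av_mul_av]

omit [Module (ZMod 2) V] in
/-- box inequality for real functions -/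
theorem co3b_box (g : V → V → V → ℝ) :
    (av fun a => av fun b => av fun c => g a b c) ^ 4 ≤
      av fun a' => av fun b' => av fun a => av fun b => av fun c =>
        g a b c * g a' b c * (g a b' c * g a' b' c) := by
  have h1 : (av fun a => av fun b => av fun c => g a b c) ^ 2 ≤
      av fun b => av fun c => av fun a => av fun a' => g a b c * g a' b c := by
    have e : (av fun a => av fun b => av fun c => g a b c) =
        av fun b => av fun c => av fun a => g a b c := by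
      rw [av_comm]
      congr 1
      funext b
      rw [av_comm]
    rw [e]
    refine (sq_av_le _).trans (av_le_av fun b => (sq_av_le _).trans (av_le_av fun c => ?_))
    rw [co3b_sq]
  have h2 : (av fun b => av fun c => av fun a => av fun a' => g a b c * g a' b c) ^ 2 ≤
      av fun c => av fun a => av fun a' => av fun b => av fun b' =>
        g a b c * g a' b c * (g a b' c * g a' b' c) := by
    have e : (av fun b => av fun c => av fun a => av fun a' => g a b c * g a' b c) =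
        av fun c => av fun a => av fun a' => av fun b => g a b c * g a' b c := by
      rw [av_comm]
      congr 1
      funext c
      rw [av_comm]
      congr 1
      funext a
      rw [av_comm]
    rw [e]
    refine (sq_av_le _).trans (av_le_av fun c => (sq_av_le _).trans (av_le_av fun a =>
      (sq_av_le _).trans (av_le_av fun a' => ?_)))
    rw [co3b_sq]
  have h3 : (av fun c => av fun a => av fun a' => av fun b => av fun b' =>
        g a b c * g a' b c * (g a b' c * g a' b' c)) =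
      av fun a' => av fun b' => av fun a => av fun b => av fun c =>
        g a b c * g a' b c * (g a b' c * g a' b' c) := by
    calc (av fun c => av fun a => av fun a' => av fun b => av fun b' =>
          g a b c * g a' b c * (g a b' c * g a' b' c))
        = av fun a => av fun c => av fun a' => av fun b => av fun b' =>
          g a b c * g a' b c * (g a b' c * g a' b' c) := av_comm _
      _ = av fun a => av fun a' => av fun c => av fun b => av fun b' =>
          g a b c * g a' b c * (g a b' c * g a' b' c) := by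
            congr 1; funext a; exact av_comm _
      _ = av fun a' => av fun a => av fun c => av fun b => av fun b' =>
          g a b c * g a' b c * (g a b' c * g a' b' c) := av_comm _
      _ = av fun a' => av fun a => av fun b => av fun c => av fun b' =>
          g a b c * g a' b c * (g a b' c * g a' b' c) := by
            congr 1; funext a'; congr 1; funext a; exact av_comm _
      _ = av fun a' => av fun a => av fun b => av fun b' => av fun c =>
          g a b c * g a' b c * (g a b' c * g a' b' c) := by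
            congr 1; funext a'; congr 1; funext a; congr 1; funext b; exact av_comm _
      _ = av fun a' => av fun a => av fun b' => av fun b => av fun c =>
          g a b c * g a' b c * (g a b' c * g a' b' c) := by
            congr 1; funext a'; congr 1; funext a; exact av_comm _
      _ = av fun a' => av fun b' => av fun a => av fun b => av fun c =>
          g a b c * g a' b c * (g a b' c * g a' b' c) := by
            congr 1; funext a'; exact av_comm _
  calc (av fun a => av fun b => av fun c => g a b c) ^ 4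
      = ((av fun a => av fun b => av fun c => g a b c) ^ 2) ^ 2 := by ring
    _ ≤ (av fun b => av fun c => av fun a => av fun a' => g a b c * g a' b c) ^ 2 :=
        pow_le_pow_left₀ (sq_nonneg _) h1 2
    _ ≤ _ := h2
    _ = _ := h3

/-- box inequality: `(E g)^4 ≤ E g(a,b,c) g(a',b,c) g(a',b',c) g(a,b',c)`, by Cauchy-Schwarz
(`sq_av_le`) twice; so there are `a', b'` for which the average over `(a,b,c)` is at least
`(E g)^4` -/
theorem exists_pivots (P : V → V → V → Prop) : ∃ a' b' : V,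
    d3 P ^ 4 ≤ d3 fun a b c => P a b c ∧ P a' b c ∧ P a' b' c ∧ P a b' c := by
  obtain ⟨a', ha'⟩ := exists_ge_av fun a' => av fun b' => av fun a => av fun b => av fun c =>
    (fun a b c : V => ind {p : V × V × V | P p.1 p.2.1 p.2.2} (a, b, c)) a b c *
      (fun a b c : V => ind {p : V × V × V | P p.1 p.2.1 p.2.2} (a, b, c)) a' b c *
      ((fun a b c : V => ind {p : V × V × V | P p.1 p.2.1 p.2.2} (a, b, c)) a b' c *
      (fun a b c : V => ind {p : V × V × V | P p.1 p.2.1 p.2.2} (a, b, c)) a' b' c)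
  obtain ⟨b', hb'⟩ := exists_ge_av fun b' => av fun a => av fun b => av fun c =>
    (fun a b c : V => ind {p : V × V × V | P p.1 p.2.1 p.2.2} (a, b, c)) a b c *
      (fun a b c : V => ind {p : V × V × V | P p.1 p.2.1 p.2.2} (a, b, c)) a' b c *
      ((fun a b c : V => ind {p : V × V × V | P p.1 p.2.1 p.2.2} (a, b, c)) a b' c *
      (fun a b c : V => ind {p : V × V × V | P p.1 p.2.1 p.2.2} (a, b, c)) a' b' c)
  refine ⟨a', b', ?_⟩
  refine (co3b_box fun a b c : V => ind {p : V × V × V | P p.1 p.2.1 p.2.2} (a, b, c)).trans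
    (ha'.trans (hb'.trans ?_))
  unfold d3
  refine av_le_av fun a => av_le_av fun b => av_le_av fun c => ?_
  simp only [ind, Set.mem_setOf_eq]
  by_cases h1 : P a b c <;> by_cases h2 : P a' b c <;> by_cases h3 : P a b' c <;>
    by_cases h4 : P a' b' c <;> simp [h1, h2, h3, h4]

/-- bipartite graph `S ⊆ V × V` with `u a = v b` on all edges: the edges `e_l` with value `l`
satisfy `e_l ≤ α_l β_l`, so `∑ e_l ≤ max √e_l · ∑ √(α_l β_l) ≤ max √e_l`. -/
theorem exists_value {α β Λ : Type} [Finite α] [Finite β] [Nonempty α] [Nonempty β] [Finite Λ]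
    [Nonempty Λ] (S : Set (α × β)) (u : α → Λ) (v : β → Λ) (h : ∀ p ∈ S, u p.1 = v p.2) :
    ∃ l : Λ, dn S ^ 2 ≤ dn {p : α × β | p ∈ S ∧ u p.1 = l} := by
  classical
  have := Fintype.ofFinite Λ
  -- sums over the values
  have hsum : ∀ {γ : Type} [Finite γ] (T : Set γ) (w : γ → Λ),
      ∑ l, dn {x : γ | x ∈ T ∧ w x = l} = dn T := by
    intro γ _ T w
    have := Fintype.ofFinite γ
    simp only [dn, av_eq]
    rw [← Finset.sum_div, Finset.sum_comm]
    congr 1
    refine Finset.sum_congr rfl fun x _ => ?_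
    by_cases hx : x ∈ T
    · simp [ind, hx]
    · simp [ind, hx]
  have hα : ∑ l, dn {a : α | u a = l} = 1 := by
    have := hsum (Set.univ : Set α) u
    simpa [dn_univ] using this
  have hβ : ∑ l, dn {b : β | v b = l} = 1 := by
    have := hsum (Set.univ : Set β) v
    simpa [dn_univ] using this
  have hS : ∑ l, dn {p : α × β | p ∈ S ∧ u p.1 = l} = dn S := hsum S fun p => u p.1
  have hprod : ∀ l, dn {p : α × β | p ∈ S ∧ u p.1 = l} ≤ dn {a : α | u a = l} * dn {b : β | v b = l} := by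
    intro l
    rw [dn, dn, dn, av_prod, av_mul_av]
    refine av_le_av fun a => av_le_av fun b => ?_
    by_cases hab : (a, b) ∈ S ∧ u a = l
    · rw [ind_pos (A := {p : α × β | p ∈ S ∧ u p.1 = l}) hab, ind_pos (A := {a : α | u a = l}) hab.2,
        ind_pos (A := {b : β | v b = l}) ((h _ hab.1).symm.trans hab.2), one_mul]
    · rw [ind_neg (A := {p : α × β | p ∈ S ∧ u p.1 = l}) hab]
      exact mul_nonneg (ind_nonneg _ _) (ind_nonneg _ _)
  obtain ⟨l, -, hl⟩ := Finset.exists_max_image (Finset.univ : Finset Λ)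
    (fun l => dn {p : α × β | p ∈ S ∧ u p.1 = l}) Finset.univ_nonempty
  refine ⟨l, ?_⟩
  set e := dn {p : α × β | p ∈ S ∧ u p.1 = l} with he
  have he0 : 0 ≤ e := dn_nonneg _
  have key : ∀ k, dn {p : α × β | p ∈ S ∧ u p.1 = k} ≤
      Real.sqrt e * ((dn {a : α | u a = k} + dn {b : β | v b = k}) / 2) := by
    intro k
    have h0 := dn_nonneg {p : α × β | p ∈ S ∧ u p.1 = k}
    have h1 := hprod k
    have h2 := hl k (Finset.mem_univ _)
    have h3 := dn_nonneg {a : α | u a = k}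
    have h4 := dn_nonneg {b : β | v b = k}
    refine le_of_sq_le_sq ?_ (by positivity)
    rw [mul_pow, Real.sq_sqrt he0]
    calc dn {p : α × β | p ∈ S ∧ u p.1 = k} ^ 2
        = dn {p : α × β | p ∈ S ∧ u p.1 = k} * dn {p : α × β | p ∈ S ∧ u p.1 = k} := sq _
      _ ≤ e * (dn {a : α | u a = k} * dn {b : β | v b = k}) := mul_le_mul h2 h1 h0 he0
      _ ≤ e * ((dn {a : α | u a = k} + dn {b : β | v b = k}) / 2) ^ 2 := by
          refine mul_le_mul_of_nonneg_left ?_ he0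
          nlinarith [sq_nonneg (dn {a : α | u a = k} - dn {b : β | v b = k})]
  have htot : dn S ≤ Real.sqrt e := by
    rw [← hS]
    refine (Finset.sum_le_sum fun k _ => key k).trans ?_
    rw [← Finset.mul_sum, ← Finset.sum_div, Finset.sum_add_distrib, hα, hβ]
    norm_num
  calc dn S ^ 2 ≤ Real.sqrt e ^ 2 := pow_le_pow_left₀ (dn_nonneg _) htot 2
    _ = e := Real.sq_sqrt he0

end G2
end

section

/-!
# Job CO1: labels of good quadruples

The quadruple is `(a, b, c, a + b + c)`, with coefficients `A 0, A 1, A 2, A 3`; only the sums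
`A i + A j` are determined.
-/

set_option autoImplicit false

open Module

namespace G2

variable {V M L : Type} [AddCommGroup V] [Module (ZMod 2) V] [Finite V]
  [AddCommGroup M] [Module (ZMod 2) M] [Finite M] [AddCommGroup L] [Module (ZMod 2) L] [Finite L]

theorem co1_eq_add {L : Type} [AddCommGroup L] [Module (ZMod 2) L] {x y : L} (h : x + y = 0) :
    x = y := eq_of_add_eq_zero h

theorem co1_rel_apply {φ : Bil V M} {Ξ : V → V →ₗ[ZMod 2] L} {a b c : V}
    {A : Fin 4 → M →ₗ[ZMod 2] L} (h : Rel φ Ξ a b c A) (y : V) :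
    Ξ a y + Ξ b y + Ξ c y + Ξ (a + b + c) y =
      A 0 (φ a y) + A 1 (φ b y) + A 2 (φ c y) + A 3 (φ (a + b + c) y) := by
  have h1 := LinearMap.congr_fun h y
  simpa only [LinearMap.add_apply, LinearMap.comp_apply] using h1

/-- uniqueness of the coefficients up to a common summand: `φ(a+b+c) = φ(a) + φ(b) + φ(c)`, so for
two relations `(A 0 + A' 0 + A 3 + A' 3) φ(a) + … = 0`; use `gen_unique`. -/
theorem rel_unique (φ : Bil V M) (Ξ : V → V →ₗ[ZMod 2] L) (a b c : V) (hg : Gen φ ![a, b, c])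
    (A A' : Fin 4 → M →ₗ[ZMod 2] L) (h : Rel φ Ξ a b c A) (h' : Rel φ Ξ a b c A') (i j : Fin 4) :
    A i + A j = A' i + A' j := by
  have hB : ∀ i : Fin 3, (![A 0 + A' 0 + (A 3 + A' 3), A 1 + A' 1 + (A 3 + A' 3),
      A 2 + A' 2 + (A 3 + A' 3)] : Fin 3 → M →ₗ[ZMod 2] L) i = 0 := by
    refine gen_unique hg _ fun y => ?_
    have e1 := (co1_rel_apply h y).symm.trans (co1_rel_apply h' y)
    simp only [map_add, LinearMap.add_apply] at e1
    simp only [Fin.sum_univ_three, Matrix.cons_val_zero, Matrix.cons_val_one, Matrix.cons_val,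
      LinearMap.add_apply]
    have e2 := congrArg (fun z => z + (A' 0 (φ a y) + A' 1 (φ b y) + A' 2 (φ c y) +
      (A' 3 (φ a y) + A' 3 (φ b y) + A' 3 (φ c y)))) e1
    simp only [add_self] at e2
    rw [← e2]
    abel
  have h0 := hB 0
  have h1 := hB 1
  have h2 := hB 2
  simp only [Matrix.cons_val_zero, Matrix.cons_val_one, Matrix.cons_val] at h0 h1 h2
  have key : ∀ i : Fin 4, A i + A' i = A 3 + A' 3 := by
    intro i
    fin_cases i
    · exact co1_eq_add h0
    · exact co1_eq_add h1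
    · exact co1_eq_add h2
    · rfl
  apply co1_eq_add
  have h3 : A i + A j + (A' i + A' j) = (A i + A' i) + (A j + A' j) := by abel
  rw [h3, key i, key j, add_self]

open Classical in
/-- a choice of coefficients -/
noncomputable def lab (φ : Bil V M) (Ξ : V → V →ₗ[ZMod 2] L) (a b c : V) :
    Fin 4 → M →ₗ[ZMod 2] L :=
  if h : ∃ A, Rel φ Ξ a b c A then h.choose else 0

/-- the labels -/
noncomputable def lb (φ : Bil V M) (Ξ : V → V →ₗ[ZMod 2] L) (a b c : V) (i j : Fin 4) :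
    M →ₗ[ZMod 2] L := lab φ Ξ a b c i + lab φ Ξ a b c j

theorem rel_lab {φ : Bil V M} {Ω : Set V} {Ξ : V → V →ₗ[ZMod 2] L} {a b c : V}
    (h : Good φ Ω Ξ a b c) : Rel φ Ξ a b c (lab φ Ξ a b c) := by
  have h1 : ∃ A, Rel φ Ξ a b c A := h.2.2.2.2.2
  rw [lab, dif_pos h1]
  exact h1.choose_spec

theorem lb_eq {φ : Bil V M} {Ω : Set V} {Ξ : V → V →ₗ[ZMod 2] L} {a b c : V}
    (h : Good φ Ω Ξ a b c) {A : Fin 4 → M →ₗ[ZMod 2] L} (hA : Rel φ Ξ a b c A) (i j : Fin 4) :
    lb φ Ξ a b c i j = A i + A j :=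
  rel_unique φ Ξ a b c h.2.2.2.2.1 _ _ (rel_lab h) hA i j

/-- symmetries; in each case the permuted coefficients form a relation -/
theorem good_acb {φ : Bil V M} {Ω : Set V} {Ξ : V → V →ₗ[ZMod 2] L} {a b c : V}
    (h : Good φ Ω Ξ a b c) : Good φ Ω Ξ a c b ∧ lb φ Ξ a c b 0 1 = lb φ Ξ a b c 0 2 := by
  have hA := rel_lab h
  have e : a + c + b = a + b + c := by abel
  have hR : Rel φ Ξ a c b ![lab φ Ξ a b c 0, lab φ Ξ a b c 2, lab φ Ξ a b c 1,
      lab φ Ξ a b c 3] := by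
    unfold Rel at hA ⊢
    rw [e]
    simp only [Matrix.cons_val_zero, Matrix.cons_val_one, Matrix.cons_val]
    rw [show Ξ a + Ξ c + Ξ b + Ξ (a + b + c) = Ξ a + Ξ b + Ξ c + Ξ (a + b + c) by abel, hA]
    abel
  obtain ⟨ha, hb, hc, hd, hg, -⟩ := h
  have hG : Good φ Ω Ξ a c b := ⟨ha, hc, hb, by rw [e]; exact hd, (gen_swap12 φ a b c).1 hg, _, hR⟩
  exact ⟨hG, lb_eq hG hR 0 1⟩

theorem good_bca {φ : Bil V M} {Ω : Set V} {Ξ : V → V →ₗ[ZMod 2] L} {a b c : V}
    (h : Good φ Ω Ξ a b c) : Good φ Ω Ξ b c a ∧ lb φ Ξ b c a 0 1 = lb φ Ξ a b c 1 2 := by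
  have hA := rel_lab h
  have e : b + c + a = a + b + c := by abel
  have hR : Rel φ Ξ b c a ![lab φ Ξ a b c 1, lab φ Ξ a b c 2, lab φ Ξ a b c 0,
      lab φ Ξ a b c 3] := by
    unfold Rel at hA ⊢
    rw [e]
    simp only [Matrix.cons_val_zero, Matrix.cons_val_one, Matrix.cons_val]
    rw [show Ξ b + Ξ c + Ξ a + Ξ (a + b + c) = Ξ a + Ξ b + Ξ c + Ξ (a + b + c) by abel, hA]
    abel
  obtain ⟨ha, hb, hc, hd, hg, -⟩ := h
  have hG : Good φ Ω Ξ b c a := ⟨hb, hc, ha, by rw [e]; exact hd,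
    (gen_swap12 φ b a c).1 ((gen_swap01 φ a b c).1 hg), _, hR⟩
  exact ⟨hG, lb_eq hG hR 0 1⟩

/-- `a + (a + b + c) + c = b` -/
theorem good_adc {φ : Bil V M} {Ω : Set V} {Ξ : V → V →ₗ[ZMod 2] L} {a b c : V}
    (h : Good φ Ω Ξ a b c) :
    Good φ Ω Ξ a (a + b + c) c ∧ lb φ Ξ a (a + b + c) c 0 1 = lb φ Ξ a b c 0 3 := by
  have hA := rel_lab h
  have e : a + (a + b + c) + c = b := by
    have e1 : a + (a + b + c) + c = (a + a) + (c + c) + b := by abel
    rw [e1, add_self, add_self, add_zero, zero_add]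
  have hR : Rel φ Ξ a (a + b + c) c ![lab φ Ξ a b c 0, lab φ Ξ a b c 3, lab φ Ξ a b c 2,
      lab φ Ξ a b c 1] := by
    unfold Rel at hA ⊢
    rw [e]
    simp only [Matrix.cons_val_zero, Matrix.cons_val_one, Matrix.cons_val]
    rw [show Ξ a + Ξ (a + b + c) + Ξ c + Ξ b = Ξ a + Ξ b + Ξ c + Ξ (a + b + c) by abel, hA]
    abel
  obtain ⟨ha, hb, hc, hd, hg, -⟩ := h
  have hg' : Gen φ ![a, a + b + c, c] := by
    have h1 := (gen_swap12 φ a (a + b + c) c).2
    apply h1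
    have h2 := (gen_sum φ a c b).1 ((gen_swap12 φ a b c).1 hg)
    rwa [show a + c + b = a + b + c by abel] at h2
  have hG : Good φ Ω Ξ a (a + b + c) c := ⟨ha, hd, hc, by rw [e]; exact hb, hg', _, hR⟩
  exact ⟨hG, lb_eq hG hR 0 1⟩

/-- `b + (a + b + c) + a = c` -/
theorem good_bda {φ : Bil V M} {Ω : Set V} {Ξ : V → V →ₗ[ZMod 2] L} {a b c : V}
    (h : Good φ Ω Ξ a b c) :
    Good φ Ω Ξ b (a + b + c) a ∧ lb φ Ξ b (a + b + c) a 0 1 = lb φ Ξ a b c 1 3 := by
  have hA := rel_lab h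
  have e : b + (a + b + c) + a = c := by
    have e1 : b + (a + b + c) + a = (a + a) + (b + b) + c := by abel
    rw [e1, add_self, add_self, add_zero, zero_add]
  have hR : Rel φ Ξ b (a + b + c) a ![lab φ Ξ a b c 1, lab φ Ξ a b c 3, lab φ Ξ a b c 0,
      lab φ Ξ a b c 2] := by
    unfold Rel at hA ⊢
    rw [e]
    simp only [Matrix.cons_val_zero, Matrix.cons_val_one, Matrix.cons_val]
    rw [show Ξ b + Ξ (a + b + c) + Ξ a + Ξ c = Ξ a + Ξ b + Ξ c + Ξ (a + b + c) by abel, hA]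
    abel
  obtain ⟨ha, hb, hc, hd, hg, -⟩ := h
  have hg' : Gen φ ![b, a + b + c, a] := by
    have h1 := (gen_swap12 φ b (a + b + c) a).2
    apply h1
    have h2 := (gen_sum φ b a c).1 ((gen_swap01 φ a b c).1 hg)
    rwa [show b + a + c = a + b + c by abel] at h2
  have hG : Good φ Ω Ξ b (a + b + c) a := ⟨hb, hd, ha, by rw [e]; exact hc, hg', _, hR⟩
  exact ⟨hG, lb_eq hG hR 0 1⟩

omit [Finite V] in
theorem co1_sum (h w w' : V) : w + (w + h) + w' = w' + h := by
  have e1 : w + (w + h) + w' = (w + w) + (w' + h) := by abel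
  rw [e1, add_self, zero_add]

/-- exchanging the two pairs `{w, w+h}` and `{w', w'+h}` -/
theorem good_swap {φ : Bil V M} {Ω : Set V} {Ξ : V → V →ₗ[ZMod 2] L} {h w w' : V}
    (hG : Good φ Ω Ξ w (w + h) w') :
    Good φ Ω Ξ w' (w' + h) w ∧ lb φ Ξ w' (w' + h) w 0 1 = lb φ Ξ w (w + h) w' 2 3 := by
  have hA := rel_lab hG
  have e : w + (w + h) + w' = w' + h := co1_sum h w w'
  have e' : w' + (w' + h) + w = w + h := co1_sum h w' w
  have hR : Rel φ Ξ w' (w' + h) w ![lab φ Ξ w (w + h) w' 2, lab φ Ξ w (w + h) w' 3,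
      lab φ Ξ w (w + h) w' 0, lab φ Ξ w (w + h) w' 1] := by
    unfold Rel at hA ⊢
    rw [e']
    rw [e] at hA
    simp only [Matrix.cons_val_zero, Matrix.cons_val_one, Matrix.cons_val]
    rw [show Ξ w' + Ξ (w' + h) + Ξ w + Ξ (w + h) = Ξ w + Ξ (w + h) + Ξ w' + Ξ (w' + h) by abel,
      hA]
    abel
  obtain ⟨ha, hb, hc, hd, hg, -⟩ := hG
  have hg' : Gen φ ![w', w' + h, w] := by
    have h1 : Gen φ ![w, h, w'] := by
      have h2 := (gen_add_iff φ w (w + h) w').1 hg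
      rwa [show w + (w + h) = h by rw [← add_assoc, add_self, zero_add]] at h2
    have h3 := (gen_swap12 φ h w w').1 ((gen_swap01 φ w h w').1 h1)
    exact (gen_add_iff φ w' h w).1 ((gen_swap01 φ h w' w).1 h3)
  have hG' : Good φ Ω Ξ w' (w' + h) w :=
    ⟨hc, by rw [← e]; exact hd, ha, by rw [e']; exact hb, hg', _, hR⟩
  exact ⟨hG', lb_eq hG' hR 0 1⟩

/-- the cocycle identities of the labels are trivial -/
theorem lb_add (φ : Bil V M) (Ξ : V → V →ₗ[ZMod 2] L) (a b c : V) (i j k : Fin 4) :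
    lb φ Ξ a b c i j + lb φ Ξ a b c j k = lb φ Ξ a b c i k := by
  unfold lb
  have e1 : lab φ Ξ a b c i + lab φ Ξ a b c j + (lab φ Ξ a b c j + lab φ Ξ a b c k) =
      (lab φ Ξ a b c j + lab φ Ξ a b c j) + (lab φ Ξ a b c i + lab φ Ξ a b c k) := by abel
  rw [e1, add_self, zero_add]

theorem co1_rel_pair {φ : Bil V M} {Ω : Set V} {Ξ : V → V →ₗ[ZMod 2] L} {h w w' : V}
    (hG : Good φ Ω Ξ w (w + h) w') (y : V) :
    Ξ w y + Ξ (w + h) y + (Ξ w' y + Ξ (w' + h) y) =
      (lab φ Ξ w (w + h) w' 1 + lab φ Ξ w (w + h) w' 3) (φ h y) +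
      (lab φ Ξ w (w + h) w' 0 + lab φ Ξ w (w + h) w' 1) (φ w y) +
      (lab φ Ξ w (w + h) w' 2 + lab φ Ξ w (w + h) w' 3) (φ w' y) := by
  have h1 := co1_rel_apply (rel_lab hG) y
  rw [co1_sum h w w'] at h1
  simp only [map_add, LinearMap.add_apply] at h1 ⊢
  rw [← add_assoc, h1]
  abel

/-- 4-cycles.  Sum of the four relations of the quadruples `(w_i, w_i+h, w_{i+1}, w_{i+1}+h)`: the
left-hand sides cancel, and on the right-hand side the coefficient of `φ(w_0)` is the sum of the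
labels `{w_0, w_0+h}` of the two quadruples containing `w_0` (write `φ(w+h) = φ(w) + φ(h)`); now use
`gen_unique` for `(h, w_0, w_1, w_2, w_3)`. -/
theorem four_cycle {φ : Bil V M} {Ω : Set V} {Ξ : V → V →ₗ[ZMod 2] L} {h w₀ w₁ w₂ w₃ : V}
    (hg : Gen φ ![h, w₀, w₁, w₂, w₃]) (h01 : Good φ Ω Ξ w₀ (w₀ + h) w₁)
    (h12 : Good φ Ω Ξ w₁ (w₁ + h) w₂) (h23 : Good φ Ω Ξ w₂ (w₂ + h) w₃)
    (h30 : Good φ Ω Ξ w₃ (w₃ + h) w₀) :
    lb φ Ξ w₀ (w₀ + h) w₁ 0 1 = lb φ Ξ w₀ (w₀ + h) w₃ 0 1 := by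
  rw [(good_swap h30).2]
  set A := lab φ Ξ w₀ (w₀ + h) w₁ with hA
  set B := lab φ Ξ w₁ (w₁ + h) w₂ with hB
  set C := lab φ Ξ w₂ (w₂ + h) w₃ with hC
  set D := lab φ Ξ w₃ (w₃ + h) w₀ with hD
  have hu : ∀ i : Fin 5, (![(A 1 + A 3) + (B 1 + B 3) + (C 1 + C 3) + (D 1 + D 3),
      (A 0 + A 1) + (D 2 + D 3), (B 0 + B 1) + (A 2 + A 3), (C 0 + C 1) + (B 2 + B 3),
      (D 0 + D 1) + (C 2 + C 3)] : Fin 5 → M →ₗ[ZMod 2] L) i = 0 := by
    refine gen_unique hg _ fun y => ?_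
    have e1 := co1_rel_pair h01 y
    have e2 := co1_rel_pair h12 y
    have e3 := co1_rel_pair h23 y
    have e4 := co1_rel_pair h30 y
    rw [← hA] at e1
    rw [← hB] at e2
    rw [← hC] at e3
    rw [← hD] at e4
    have e5 : (Ξ w₀ y + Ξ (w₀ + h) y + (Ξ w₁ y + Ξ (w₁ + h) y)) +
        (Ξ w₁ y + Ξ (w₁ + h) y + (Ξ w₂ y + Ξ (w₂ + h) y)) +
        ((Ξ w₂ y + Ξ (w₂ + h) y + (Ξ w₃ y + Ξ (w₃ + h) y)) +
        (Ξ w₃ y + Ξ (w₃ + h) y + (Ξ w₀ y + Ξ (w₀ + h) y))) = 0 := by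
      have e6 : (Ξ w₀ y + Ξ (w₀ + h) y + (Ξ w₁ y + Ξ (w₁ + h) y)) +
          (Ξ w₁ y + Ξ (w₁ + h) y + (Ξ w₂ y + Ξ (w₂ + h) y)) +
          ((Ξ w₂ y + Ξ (w₂ + h) y + (Ξ w₃ y + Ξ (w₃ + h) y)) +
          (Ξ w₃ y + Ξ (w₃ + h) y + (Ξ w₀ y + Ξ (w₀ + h) y))) =
          (Ξ w₀ y + Ξ (w₀ + h) y + (Ξ w₁ y + Ξ (w₁ + h) y) + (Ξ w₂ y + Ξ (w₂ + h) y) +
          (Ξ w₃ y + Ξ (w₃ + h) y)) + (Ξ w₀ y + Ξ (w₀ + h) y + (Ξ w₁ y + Ξ (w₁ + h) y) +
          (Ξ w₂ y + Ξ (w₂ + h) y) + (Ξ w₃ y + Ξ (w₃ + h) y)) := by abel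
      rw [e6, add_self]
    rw [e1, e2, e3, e4] at e5
    rw [← e5]
    simp only [Fin.sum_univ_five, Matrix.cons_val_zero, Matrix.cons_val_one, Matrix.cons_val,
      LinearMap.add_apply]
    abel
  have h1 := hu 1
  simp only [Matrix.cons_val_one, Matrix.cons_val] at h1
  exact co1_eq_add h1

end G2
end

section

/-!
# Job CO2: the label of a pair depends only on the pair
-/

set_option autoImplicit false

open Module

namespace G2

/-- two quadruples containing the pair `{w₀, w₀+h}` with different labels there -/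
def BadT {V M L : Type} [AddCommGroup V] [Module (ZMod 2) V] [Finite V] [AddCommGroup M]
    [Module (ZMod 2) M] [Finite M] [AddCommGroup L] [Module (ZMod 2) L] [Finite L]
    (φ : Bil V M) (Ω : Set V) (Ξ : V → V →ₗ[ZMod 2] L) (h w₀ w₁ w₃ : V) : Prop :=
  Good φ Ω Ξ w₀ (w₀ + h) w₁ ∧ Good φ Ω Ξ w₀ (w₀ + h) w₃ ∧
    lb φ Ξ w₀ (w₀ + h) w₁ 0 1 ≠ lb φ Ξ w₀ (w₀ + h) w₃ 0 1

theorem co2_not_gen_five {V M : Type} [AddCommGroup V] [Module (ZMod 2) V] [Finite V]
    [AddCommGroup M] [Module (ZMod 2) M] [Finite M] (φ : Bil V M) {R : ℕ} (hR : HR φ R) :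
    (av fun h : V => av fun w₀ : V => av fun w₁ : V => av fun w₃ : V => av fun w₂ : V =>
      ind {u : Fin 5 → V | ¬ Gen φ u} ![h, w₀, w₁, w₂, w₃]) ≤ nc M ^ 5 / 4 ^ R := by
  refine le_trans (le_of_eq ?_) (dn_not_gen φ hR 5)
  let e : V × V × V × V × V ≃ (Fin 5 → V) :=
    { toFun := fun p => ![p.1, p.2.1, p.2.2.1, p.2.2.2.2, p.2.2.2.1]
      invFun := fun u => (u 0, u 1, u 2, u 4, u 3)
      left_inv := fun x => rfl
      right_inv := fun u => by
        funext i
        fin_cases i <;> rfl }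
  rw [dn, ← av_equiv e, av_prod]
  refine congrArg av (funext fun h => ?_)
  rw [av_prod]
  refine congrArg av (funext fun w₀ => ?_)
  rw [av_prod]
  refine congrArg av (funext fun w₁ => ?_)
  rw [av_prod]
  rfl

theorem co2_half_pow (n : ℕ) : (1 / 2 : ℝ) ^ n = 1 / 2 ^ n := by
  rw [one_div, inv_pow, one_div]

/-- Fix `h` and let `w ~ w'` mean `Good (w, w+h, w')` (a symmetric relation by `good_swap`).  Let
`ε = 2^(-s-1)`.  The `(w₀,w₁,w₃)` with `w₀ ~ w₁`, `w₀ ~ w₃` for which `w₁, w₃` have less than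
`ε |V|` common neighbours have density at most `ε` (sum over `w₀` first).  If `w₁, w₃` have at least
`ε |V|` common neighbours `w₂` and the two labels at `w₀` differ, then none of the
`(h,w₀,w₁,w₂,w₃)` is generic (`four_cycle`), so the density of these `(h,w₀,w₁,w₃)` is at most
`ε⁻¹ |M|^5 / 4^R ≤ ε` (`dn_not_gen` with `l = 5`). -/
theorem bad_small : ∃ C : ℕ, ∀ (s R : ℕ) (V M L : Type) [AddCommGroup V] [Module (ZMod 2) V]
    [Finite V] [AddCommGroup M] [Module (ZMod 2) M] [Finite M] [AddCommGroup L]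
    [Module (ZMod 2) L] [Finite L] (φ : Bil V M) (Ω : Set V) (Ξ : V → V →ₗ[ZMod 2] L),
    HR φ R → pw C (rk M + s) ≤ R →
    (av fun h => d3 fun w₀ w₁ w₃ => BadT φ Ω Ξ h w₀ w₁ w₃) ≤ (1 / 2 : ℝ) ^ s := by
  refine ⟨3, fun s R V M L _ _ _ _ _ _ _ _ _ φ Ω Ξ hR hC => ?_⟩
  set ε : ℝ := (1 / 2 : ℝ) ^ (s + 1) with hε
  have hεpos : 0 < ε := by positivity
  let N : V → V → V → Set V := fun h w₁ w₃ =>
    {w | Good φ Ω Ξ w₁ (w₁ + h) w ∧ Good φ Ω Ξ w (w + h) w₃}
  let X : V → V → V → V → ℝ := fun h w₀ w₁ w₃ =>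
    ind {p : V | Good φ Ω Ξ w₀ (w₀ + h) w₁ ∧ Good φ Ω Ξ w₀ (w₀ + h) w₃ ∧
      dn (N h w₁ w₃) < ε} w₀
  let Y : V → V → V → V → ℝ := fun h w₀ w₁ w₃ =>
    ε⁻¹ * av fun w₂ : V => ind {u : Fin 5 → V | ¬ Gen φ u} ![h, w₀, w₁, w₂, w₃]
  have hpt : ∀ h w₀ w₁ w₃, ind {p : V × V × V | BadT φ Ω Ξ h p.1 p.2.1 p.2.2} (w₀, w₁, w₃) ≤
      X h w₀ w₁ w₃ + Y h w₀ w₁ w₃ := by
    intro h w₀ w₁ w₃
    have hX0 : 0 ≤ X h w₀ w₁ w₃ := ind_nonneg _ _
    have hY0 : 0 ≤ Y h w₀ w₁ w₃ :=
      mul_nonneg (inv_nonneg.2 hεpos.le) (av_nonneg fun w₂ => ind_nonneg _ _)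
    by_cases hb : BadT φ Ω Ξ h w₀ w₁ w₃
    · rw [ind_pos (A := {p : V × V × V | BadT φ Ω Ξ h p.1 p.2.1 p.2.2}) hb]
      by_cases hc : dn (N h w₁ w₃) < ε
      · have : X h w₀ w₁ w₃ = 1 := ind_pos (A := {p : V | Good φ Ω Ξ w₀ (w₀ + h) w₁ ∧
          Good φ Ω Ξ w₀ (w₀ + h) w₃ ∧ dn (N h w₁ w₃) < ε}) ⟨hb.1, hb.2.1, hc⟩
        rw [this]
        linarith
      · push Not at hc
        have h1 : dn (N h w₁ w₃) ≤
            av fun w₂ : V => ind {u : Fin 5 → V | ¬ Gen φ u} ![h, w₀, w₁, w₂, w₃] := by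
          refine av_le_av fun w₂ => ?_
          by_cases hw : w₂ ∈ N h w₁ w₃
          · have hng : ¬ Gen φ ![h, w₀, w₁, w₂, w₃] := by
              intro hg
              exact hb.2.2 (four_cycle hg hb.1 hw.1 hw.2 (good_swap hb.2.1).1)
            rw [ind_pos hw, ind_pos (A := {u : Fin 5 → V | ¬ Gen φ u}) hng]
          · rw [ind_neg hw]
            exact ind_nonneg _ _
        have h2 : 1 ≤ Y h w₀ w₁ w₃ := by
          have h3 : ε⁻¹ * ε ≤ Y h w₀ w₁ w₃ :=
            mul_le_mul_of_nonneg_left (hc.trans h1) (inv_nonneg.2 hεpos.le)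
          rwa [inv_mul_cancel₀ hεpos.ne'] at h3
        linarith
    · rw [ind_neg (A := {p : V × V × V | BadT φ Ω Ξ h p.1 p.2.1 p.2.2}) hb]
      linarith
  have hXle : (av fun h => av fun w₀ => av fun w₁ => av fun w₃ => X h w₀ w₁ w₃) ≤ ε := by
    refine av_le_const fun h => ?_
    have e1 : (av fun w₀ => av fun w₁ => av fun w₃ => X h w₀ w₁ w₃) =
        av fun w₁ => av fun w₃ => av fun w₀ => X h w₀ w₁ w₃ := by
      rw [av_comm]
      refine congrArg av (funext fun w₁ => ?_)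
      rw [av_comm]
    rw [e1]
    refine av_le_const fun w₁ => av_le_const fun w₃ => ?_
    by_cases hc : dn (N h w₁ w₃) < ε
    · refine le_trans (av_le_av fun w₀ => ?_) hc.le
      by_cases hw : Good φ Ω Ξ w₀ (w₀ + h) w₁ ∧ Good φ Ω Ξ w₀ (w₀ + h) w₃
      · have hm : w₀ ∈ N h w₁ w₃ := ⟨(good_swap hw.1).1, hw.2⟩
        rw [ind_pos hm]
        exact ind_le_one _ _
      · have : X h w₀ w₁ w₃ = 0 := ind_neg (A := {p : V | Good φ Ω Ξ w₀ (w₀ + h) w₁ ∧
          Good φ Ω Ξ w₀ (w₀ + h) w₃ ∧ dn (N h w₁ w₃) < ε}) fun hh => hw ⟨hh.1, hh.2.1⟩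
        rw [this]
        exact ind_nonneg _ _
    · have : ∀ w₀, X h w₀ w₁ w₃ = 0 := fun w₀ =>
        ind_neg (A := {p : V | Good φ Ω Ξ w₀ (w₀ + h) w₁ ∧
          Good φ Ω Ξ w₀ (w₀ + h) w₃ ∧ dn (N h w₁ w₃) < ε}) fun hh => hc hh.2.2
      simp only [this]
      rw [av_const]
      exact hεpos.le
  have hYle : (av fun h => av fun w₀ => av fun w₁ => av fun w₃ => Y h w₀ w₁ w₃) ≤ ε := by
    have e1 : (av fun h => av fun w₀ => av fun w₁ => av fun w₃ => Y h w₀ w₁ w₃) =
        ε⁻¹ * (av fun h : V => av fun w₀ : V => av fun w₁ : V => av fun w₃ : V => av fun w₂ : V =>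
          ind {u : Fin 5 → V | ¬ Gen φ u} ![h, w₀, w₁, w₂, w₃]) := by
      simp only [Y, av_mul_left]
    rw [e1]
    have h1 := co2_not_gen_five φ hR
    have h2 : nc M ^ 5 / 4 ^ R ≤ ε * ε := by
      have h3 : pw 3 (rk M + s) = (rk M + s + 2) ^ 3 := rfl
      rw [h3] at hC
      have h4 : 4 * (rk M + s + 2) ≤ (rk M + s + 2) ^ 3 := by
        have h5 : 4 ≤ (rk M + s + 2) ^ 2 := by
          have := Nat.pow_le_pow_left (show 2 ≤ rk M + s + 2 by omega) 2
          omega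
        calc 4 * (rk M + s + 2) ≤ (rk M + s + 2) ^ 2 * (rk M + s + 2) :=
              Nat.mul_le_mul_right _ h5
          _ = (rk M + s + 2) ^ 3 := by ring
      rw [hε, co2_half_pow, nc_finrank, ← pow_mul, show (4 : ℝ) = 2 ^ 2 by norm_num, ← pow_mul,
        div_mul_div_comm, one_mul, ← pow_add, div_le_div_iff₀ (by positivity) (by positivity),
        one_mul, ← pow_add]
      refine pow_le_pow_right₀ (by norm_num) ?_
      have h6 : rk M = finrank (ZMod 2) M := rfl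
      rw [← h6]
      omega
    calc ε⁻¹ * (av fun h : V => av fun w₀ : V => av fun w₁ : V => av fun w₃ : V =>
          av fun w₂ : V => ind {u : Fin 5 → V | ¬ Gen φ u} ![h, w₀, w₁, w₂, w₃])
        ≤ ε⁻¹ * (ε * ε) := mul_le_mul_of_nonneg_left (h1.trans h2) (inv_nonneg.2 hεpos.le)
      _ = ε := by rw [← mul_assoc, inv_mul_cancel₀ hεpos.ne', one_mul]
  have hsum : (av fun h => d3 fun w₀ w₁ w₃ => BadT φ Ω Ξ h w₀ w₁ w₃) ≤
      (av fun h => av fun w₀ => av fun w₁ => av fun w₃ => X h w₀ w₁ w₃) +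
      (av fun h => av fun w₀ => av fun w₁ => av fun w₃ => Y h w₀ w₁ w₃) := by
    simp only [← av_add]
    unfold d3
    exact av_le_av fun h => av_le_av fun w₀ => av_le_av fun w₁ => av_le_av fun w₃ =>
      hpt h w₀ w₁ w₃
  have h2 : ε + ε = (1 / 2 : ℝ) ^ s := by
    rw [hε, pow_succ]
    ring
  linarith

/-- the most popular value: for a set `S` and a function `u` with finitely many values the value
`l` with the largest fibre satisfies `(dn {x ∈ S, u x ≠ l})^2 ≤ dn {(x,x') ∈ S², u x ≠ u x'}`: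
with `p_l = dn {x ∈ S, u x = l}`, `p = ∑ p_l`, the right-hand side is `p^2 - ∑ p_l^2 ≥
p^2 - p max p_l ≥ (p - max p_l)^2`. -/
theorem exists_popular {α Λ : Type} [Finite α] [Nonempty α] [Finite Λ] [Nonempty Λ] (S : Set α)
    (u : α → Λ) : ∃ l : Λ, dn {x | x ∈ S ∧ u x ≠ l} ^ 2 ≤
      av fun x => av fun x' => ind {p : α × α | p.1 ∈ S ∧ p.2 ∈ S ∧ u p.1 ≠ u p.2} (x, x') := by
  obtain ⟨l, hl⟩ := Finite.exists_max fun l : Λ => dn {x | x ∈ S ∧ u x = l}
  refine ⟨l, ?_⟩
  have hsplit : ∀ (k : Λ) (x : α), ind {x | x ∈ S ∧ u x ≠ k} x =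
      ind S x - ind {x | x ∈ S ∧ u x = k} x := by
    intro k x
    by_cases h1 : x ∈ S
    · by_cases h2 : u x = k
      · rw [ind_neg (A := {x | x ∈ S ∧ u x ≠ k}) fun h => h.2 h2, ind_pos h1,
          ind_pos (A := {x | x ∈ S ∧ u x = k}) ⟨h1, h2⟩, sub_self]
      · rw [ind_pos (A := {x | x ∈ S ∧ u x ≠ k}) ⟨h1, h2⟩, ind_pos h1,
          ind_neg (A := {x | x ∈ S ∧ u x = k}) fun h => h2 h.2, sub_zero]
    · rw [ind_neg (A := {x | x ∈ S ∧ u x ≠ k}) fun h => h1 h.1, ind_neg h1,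
        ind_neg (A := {x | x ∈ S ∧ u x = k}) fun h => h1 h.1, sub_zero]
  have hdn : ∀ k : Λ, dn {x | x ∈ S ∧ u x ≠ k} = dn S - dn {x | x ∈ S ∧ u x = k} := by
    intro k
    unfold dn
    rw [← av_sub]
    exact congrArg av (funext fun x => hsplit k x)
  have hpt : ∀ x, (av fun x' => ind {p : α × α | p.1 ∈ S ∧ p.2 ∈ S ∧ u p.1 ≠ u p.2} (x, x')) =
      ind S x * (dn S - dn {x' | x' ∈ S ∧ u x' = u x}) := by
    intro x
    rw [← hdn, dn, ← av_mul_left]
    refine congrArg av (funext fun x' => ?_)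
    by_cases h1 : x ∈ S
    · rw [ind_pos h1, one_mul]
      by_cases h2 : x' ∈ S ∧ u x' ≠ u x
      · rw [ind_pos (A := {x_1 | x_1 ∈ S ∧ u x_1 ≠ u x}) h2,
          ind_pos (A := {p : α × α | p.1 ∈ S ∧ p.2 ∈ S ∧ u p.1 ≠ u p.2})
            ⟨h1, h2.1, fun h => h2.2 h.symm⟩]
      · rw [ind_neg (A := {x_1 | x_1 ∈ S ∧ u x_1 ≠ u x}) h2,
          ind_neg (A := {p : α × α | p.1 ∈ S ∧ p.2 ∈ S ∧ u p.1 ≠ u p.2})
            fun h => h2 ⟨h.2.1, fun hh => h.2.2 hh.symm⟩]
    · rw [ind_neg h1, zero_mul]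
      exact ind_neg (A := {p : α × α | p.1 ∈ S ∧ p.2 ∈ S ∧ u p.1 ≠ u p.2}) fun h => h1 h.1
  simp only [hpt]
  have h1 : (av fun x => ind S x * (dn S - dn {x' | x' ∈ S ∧ u x' = l})) ≤
      av fun x => ind S x * (dn S - dn {x' | x' ∈ S ∧ u x' = u x}) := by
    refine av_le_av fun x => mul_le_mul_of_nonneg_left ?_ (ind_nonneg _ _)
    have := hl (u x)
    linarith
  refine le_trans ?_ h1
  rw [av_mul_right, hdn]
  have h2 : dn {x | x ∈ S ∧ u x = l} ≤ dn S := dn_mono fun x hx => hx.1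
  have h3 : 0 ≤ dn {x | x ∈ S ∧ u x = l} := dn_nonneg _
  have h4 : av (fun x => ind S x) = dn S := rfl
  rw [h4]
  nlinarith

/-- Choose `Dl w₀ (w₀ + h)` as the most popular label of the pair (`exists_popular` for
`α = V ∋ w₁`, `S = {w₁ : Good (w₀, w₀+h, w₁)}`); then by `bad_small` (for `2 s`) and
`sq_av_le` the exceptional triples have density at most `2^(-s)`. -/
theorem popular_label : ∃ C : ℕ, ∀ (s R : ℕ) (V M L : Type) [AddCommGroup V]
    [Module (ZMod 2) V] [Finite V] [AddCommGroup M] [Module (ZMod 2) M] [Finite M]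
    [AddCommGroup L] [Module (ZMod 2) L] [Finite L] (φ : Bil V M) (Ω : Set V)
    (Ξ : V → V →ₗ[ZMod 2] L), HR φ R → pw C (rk M + s) ≤ R →
    ∃ Dl : V → V → M →ₗ[ZMod 2] L,
      d3 (fun a b c => Good φ Ω Ξ a b c ∧ lb φ Ξ a b c 0 1 ≠ Dl a b) ≤ (1 / 2 : ℝ) ^ s := by
  obtain ⟨C, hC⟩ := bad_small
  refine ⟨2 * C, fun s R V M L _ _ _ _ _ _ _ _ _ φ Ω Ξ hR hCR => ?_⟩
  have hpw : pw C (rk M + 2 * s) ≤ R := by
    refine le_trans ?_ hCR
    unfold pw
    rw [pow_mul]
    refine Nat.pow_le_pow_left ?_ C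
    nlinarith
  have hbad := hC (2 * s) R V M L φ Ω Ξ hR hpw
  choose Dl hDl using fun a b : V => exists_popular {c | Good φ Ω Ξ a b c}
    (fun c => lb φ Ξ a b c 0 1)
  refine ⟨Dl, ?_⟩
  set F : V → V → ℝ := fun a b => dn {c | c ∈ {c | Good φ Ω Ξ a b c} ∧
    lb φ Ξ a b c 0 1 ≠ Dl a b} with hF
  have e1 : d3 (fun a b c => Good φ Ω Ξ a b c ∧ lb φ Ξ a b c 0 1 ≠ Dl a b) =
      av fun a => av fun b => F a b := by
    unfold d3
    refine congrArg av (funext fun a => congrArg av (funext fun b => congrArg av (funext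
      fun c => ?_)))
    by_cases h1 : Good φ Ω Ξ a b c ∧ lb φ Ξ a b c 0 1 ≠ Dl a b
    · rw [ind_pos (A := {p : V × V × V | Good φ Ω Ξ p.1 p.2.1 p.2.2 ∧
        lb φ Ξ p.1 p.2.1 p.2.2 0 1 ≠ Dl p.1 p.2.1}) h1,
        ind_pos (A := {c | c ∈ {c | Good φ Ω Ξ a b c} ∧ lb φ Ξ a b c 0 1 ≠ Dl a b}) h1]
    · rw [ind_neg (A := {p : V × V × V | Good φ Ω Ξ p.1 p.2.1 p.2.2 ∧
        lb φ Ξ p.1 p.2.1 p.2.2 0 1 ≠ Dl p.1 p.2.1}) h1,
        ind_neg (A := {c | c ∈ {c | Good φ Ω Ξ a b c} ∧ lb φ Ξ a b c 0 1 ≠ Dl a b}) h1]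
  rw [e1]
  have h1 : (av fun a => av fun b => F a b) ^ 2 ≤ av fun a => av fun b => F a b ^ 2 :=
    (sq_av_le _).trans (av_le_av fun a => sq_av_le _)
  have h2 : (av fun a => av fun b => F a b ^ 2) ≤
      av fun h => d3 fun w₀ w₁ w₃ => BadT φ Ω Ξ h w₀ w₁ w₃ := by
    have e2 : (av fun h => d3 fun w₀ w₁ w₃ => BadT φ Ω Ξ h w₀ w₁ w₃) =
        av fun a => av fun h => av fun w₁ => av fun w₃ =>
          ind {p : V × V × V | BadT φ Ω Ξ h p.1 p.2.1 p.2.2} (a, w₁, w₃) := by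
      unfold d3
      rw [av_comm]
    rw [e2]
    refine av_le_av fun a => ?_
    have e3 : (av fun b => F a b ^ 2) = av fun h => F a (a + h) ^ 2 :=
      (av_shift_left (fun b => F a b ^ 2) a).symm
    rw [e3]
    refine av_le_av fun h => ?_
    refine (hDl a (a + h)).trans (le_of_eq ?_)
    refine congrArg av (funext fun w₁ => congrArg av (funext fun w₃ => ?_))
    by_cases h3 : BadT φ Ω Ξ h a w₁ w₃
    · rw [ind_pos (A := {p : V × V × V | BadT φ Ω Ξ h p.1 p.2.1 p.2.2}) h3,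
        ind_pos (A := {p : V × V | p.1 ∈ {c | Good φ Ω Ξ a (a + h) c} ∧
          p.2 ∈ {c | Good φ Ω Ξ a (a + h) c} ∧
          lb φ Ξ a (a + h) p.1 0 1 ≠ lb φ Ξ a (a + h) p.2 0 1}) h3]
    · rw [ind_neg (A := {p : V × V × V | BadT φ Ω Ξ h p.1 p.2.1 p.2.2}) h3,
        ind_neg (A := {p : V × V | p.1 ∈ {c | Good φ Ω Ξ a (a + h) c} ∧
          p.2 ∈ {c | Good φ Ω Ξ a (a + h) c} ∧
          lb φ Ξ a (a + h) p.1 0 1 ≠ lb φ Ξ a (a + h) p.2 0 1}) h3]
  have h3 : (av fun a => av fun b => F a b) ^ 2 ≤ ((1 / 2 : ℝ) ^ s) ^ 2 := by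
    rw [← pow_mul, mul_comm s 2]
    exact h1.trans (h2.trans hbad)
  exact le_of_sq_le_sq h3 (by positivity)

end G2
end

section

/-!
# Job CO3a: very good quadruples
-/

set_option autoImplicit false

open Module

namespace G2

variable {V M L : Type} [AddCommGroup V] [Module (ZMod 2) V] [Finite V]
  [AddCommGroup M] [Module (ZMod 2) M] [Finite M] [AddCommGroup L] [Module (ZMod 2) L] [Finite L]

/-- the labels of the quadruple are given by the function `Dl` -/
def VG (φ : Bil V M) (Ω : Set V) (Ξ : V → V →ₗ[ZMod 2] L) (Dl : V → V → M →ₗ[ZMod 2] L)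
    (a b c : V) : Prop :=
  Good φ Ω Ξ a b c ∧ lb φ Ξ a b c 0 1 = Dl a b ∧ lb φ Ξ a b c 0 2 = Dl a c ∧
    lb φ Ξ a b c 1 2 = Dl b c ∧ lb φ Ξ a b c 0 3 = Dl a (a + b + c) ∧
    lb φ Ξ a b c 1 3 = Dl b (a + b + c)

omit [AddCommGroup V] [Module (ZMod 2) V] [Finite V] in
private theorem co3a_ind (P : V → V → V → Prop) (a b c : V) [Decidable (P a b c)] :
    ind {p : V × V × V | P p.1 p.2.1 p.2.2} (a, b, c) = if P a b c then 1 else 0 := by
  unfold ind
  by_cases h : P a b c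
  · rw [if_pos h, if_pos]
    exact h
  · rw [if_neg h, if_neg]
    exact h

omit [AddCommGroup V] [Module (ZMod 2) V] in
open Classical in
private theorem co3a_d3 (P : V → V → V → Prop) :
    d3 P = av fun a => av fun b => av fun c => if P a b c then (1 : ℝ) else 0 := by
  unfold d3
  simp only [co3a_ind]

/-- changes of variables in a density of triples: `(a, b, c) ↦ (a, c, b)`, `(b, c, a)`,
`(a, a+b+c, c)`, `(b, a+b+c, a)` are bijections of `V^3` -/
theorem d3_acb (P : V → V → V → Prop) : d3 (fun a b c => P a c b) = d3 P := by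
  classical
  rw [co3a_d3, co3a_d3]
  congr 1
  funext a
  exact av_comm fun b c => if P a c b then (1 : ℝ) else 0

theorem d3_bca (P : V → V → V → Prop) : d3 (fun a b c => P b c a) = d3 P := by
  classical
  rw [co3a_d3, co3a_d3, av_comm]
  congr 1
  funext b
  exact av_comm fun a c => if P b c a then (1 : ℝ) else 0

theorem d3_adc (P : V → V → V → Prop) : d3 (fun a b c => P a (a + b + c) c) = d3 P := by
  classical
  rw [co3a_d3, co3a_d3]
  congr 1
  funext a
  rw [av_comm, av_comm fun b c => if P a b c then (1 : ℝ) else 0]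
  congr 1
  funext c
  have h := av_shift (fun b => if P a b c then (1 : ℝ) else 0) (a + c)
  rw [← h]
  congr 1
  funext b
  rw [show a + b + c = b + (a + c) by abel]

theorem d3_bda (P : V → V → V → Prop) : d3 (fun a b c => P b (a + b + c) a) = d3 P := by
  classical
  rw [← d3_bca P, co3a_d3, co3a_d3]
  congr 1
  funext a
  congr 1
  funext b
  have h := av_shift (fun c => if P b c a then (1 : ℝ) else 0) (a + b)
  rw [← h]
  congr 1
  funext c
  rw [show a + b + c = c + (a + b) by abel]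

theorem d3_mono {P Q : V → V → V → Prop} (h : ∀ a b c, P a b c → Q a b c) : d3 P ≤ d3 Q := by
  classical
  rw [co3a_d3, co3a_d3]
  refine av_le_av fun a => av_le_av fun b => av_le_av fun c => ?_
  by_cases hP : P a b c
  · rw [if_pos hP, if_pos (h a b c hP)]
  · rw [if_neg hP]
    split_ifs <;> norm_num

theorem d3_or_le (P Q : V → V → V → Prop) :
    d3 (fun a b c => P a b c ∨ Q a b c) ≤ d3 P + d3 Q := by
  classical
  rw [co3a_d3, co3a_d3, co3a_d3, ← av_add]
  refine av_le_av fun a => ?_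
  rw [← av_add]
  refine av_le_av fun b => ?_
  rw [← av_add]
  refine av_le_av fun c => ?_
  by_cases hP : P a b c <;> by_cases hQ : Q a b c <;> simp [hP, hQ]

/-- a good quadruple which is not very good violates one of the five equations; by the symmetries
`good_acb`, `good_bca`, `good_adc`, `good_bda` and the changes of variables each violation has the
same density bound. -/
theorem vg_large (φ : Bil V M) (Ω : Set V) (Ξ : V → V →ₗ[ZMod 2] L)
    (Dl : V → V → M →ₗ[ZMod 2] L) (ε : ℝ)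
    (hD : d3 (fun a b c => Good φ Ω Ξ a b c ∧ lb φ Ξ a b c 0 1 ≠ Dl a b) ≤ ε) :
    d3 (fun a b c => Good φ Ω Ξ a b c) - 5 * ε ≤ d3 (fun a b c => VG φ Ω Ξ Dl a b c) := by
  set Q : V → V → V → Prop := fun a b c => Good φ Ω Ξ a b c ∧ lb φ Ξ a b c 0 1 ≠ Dl a b with hQ
  have h1 : d3 (fun a b c => Good φ Ω Ξ a b c) ≤
      d3 (fun a b c => VG φ Ω Ξ Dl a b c ∨ (Q a b c ∨ (Q a c b ∨ (Q b c a ∨
        (Q a (a + b + c) c ∨ Q b (a + b + c) a))))) := by
    refine d3_mono fun a b c hG => ?_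
    by_cases e1 : lb φ Ξ a b c 0 1 = Dl a b
    · by_cases e2 : lb φ Ξ a b c 0 2 = Dl a c
      · by_cases e3 : lb φ Ξ a b c 1 2 = Dl b c
        · by_cases e4 : lb φ Ξ a b c 0 3 = Dl a (a + b + c)
          · by_cases e5 : lb φ Ξ a b c 1 3 = Dl b (a + b + c)
            · exact Or.inl ⟨hG, e1, e2, e3, e4, e5⟩
            · refine Or.inr (Or.inr (Or.inr (Or.inr (Or.inr ⟨(good_bda hG).1, ?_⟩))))
              rw [(good_bda hG).2]
              exact e5
          · refine Or.inr (Or.inr (Or.inr (Or.inr (Or.inl ⟨(good_adc hG).1, ?_⟩))))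
            rw [(good_adc hG).2]
            exact e4
        · refine Or.inr (Or.inr (Or.inr (Or.inl ⟨(good_bca hG).1, ?_⟩)))
          rw [(good_bca hG).2]
          exact e3
      · refine Or.inr (Or.inr (Or.inl ⟨(good_acb hG).1, ?_⟩))
        rw [(good_acb hG).2]
        exact e2
    · exact Or.inr (Or.inl ⟨hG, e1⟩)
  have h2 := d3_or_le (fun a b c => VG φ Ω Ξ Dl a b c) (fun a b c => Q a b c ∨ (Q a c b ∨
    (Q b c a ∨ (Q a (a + b + c) c ∨ Q b (a + b + c) a))))
  have h3 := d3_or_le Q (fun a b c => Q a c b ∨ (Q b c a ∨ (Q a (a + b + c) c ∨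
    Q b (a + b + c) a)))
  have h4 := d3_or_le (fun a b c => Q a c b) (fun a b c => Q b c a ∨ (Q a (a + b + c) c ∨
    Q b (a + b + c) a))
  have h5 := d3_or_le (fun a b c => Q b c a) (fun a b c => Q a (a + b + c) c ∨
    Q b (a + b + c) a)
  have h6 := d3_or_le (fun a b c => Q a (a + b + c) c) (fun a b c => Q b (a + b + c) a)
  rw [d3_acb Q] at h4
  rw [d3_bca Q] at h5
  rw [d3_adc Q, d3_bda Q] at h6
  linarith

end G2
end

section

/-!
# Job CO3c: the coefficient functions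
-/

set_option autoImplicit false

open Module

namespace G2

variable {V M L : Type} [AddCommGroup V] [Module (ZMod 2) V] [Finite V]
  [AddCommGroup M] [Module (ZMod 2) M] [Finite M] [AddCommGroup L] [Module (ZMod 2) L] [Finite L]

omit [Finite V] in
private theorem co3c_cancel (x y z : V) (h : x = y + z) : x + y = z := by
  rw [h, add_comm y z, add_assoc, add_self, add_zero]

/-- consequences of very good for the labels -/
private theorem co3c_vg {φ : Bil V M} {Ω : Set V} {Ξ : V → V →ₗ[ZMod 2] L}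
    {Dl : V → V → M →ₗ[ZMod 2] L} {a b c : V} (h : VG φ Ω Ξ Dl a b c) :
    Dl b c = Dl a b + Dl a c ∧ Dl a b = Dl a (a + b + c) + Dl b (a + b + c) := by
  obtain ⟨-, h01, h02, h12, h03, h13⟩ := h
  constructor
  · rw [← h01, ← h02, ← h12, ← lb_add φ Ξ a b c 1 0 2]
    congr 1
    unfold lb
    exact add_comm _ _
  · rw [← h01, ← h03, ← h13, ← lb_add φ Ξ a b c 0 3 1]
    congr 1
    unfold lb
    exact add_comm _ _

omit [Module (ZMod 2) V] in
private theorem co3c_d3 (Q : V → V → V → Prop) :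
    d3 Q = av fun d => dn {p : V × V | Q p.1 p.2 (p.1 + p.2 + d)} := by
  unfold d3 dn
  have h1 : ∀ d : V, av (ind {p : V × V | Q p.1 p.2 (p.1 + p.2 + d)}) =
      av fun a => av fun b => ind {p : V × V | Q p.1 p.2 (p.1 + p.2 + d)} (a, b) := by
    intro d
    rw [av_prod]
  simp only [h1]
  rw [av_comm fun d a => av fun b => ind {p : V × V | Q p.1 p.2 (p.1 + p.2 + d)} (a, b)]
  congr 1
  funext a
  rw [av_comm fun d b => ind {p : V × V | Q p.1 p.2 (p.1 + p.2 + d)} (a, b)]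
  congr 1
  funext b
  rw [← av_shift_left (fun c => ind {p : V × V × V | Q p.1 p.2.1 p.2.2} (a, b, c)) (a + b)]
  congr 1

/-- With pivots `a', b'` put `C 0 w = Dl w b' + Dl a' b'`, `C 1 w = Dl a' w`, `C 2 w = Dl a' w`.
If `(a,b,c), (a',b,c), (a',b',c), (a,b',c)` are very good then (`lb_add`)
`Dl b c = C 1 b + C 2 c`, `Dl a c = C 0 a + C 2 c`, `Dl a b = C 0 a + C 1 b`, and with
`d = a + b + c`: `C 0 a + Dl a d = C 1 b + Dl b d`.  For fixed `d` apply `exists_value` in the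
variables `(a, b)` (`c = a + b + d`) to get `C 3 d` with
`dn {(a,b) : …, C 0 a + Dl a d = C 3 d} ≥ (density for d)^2`; average over `d` (`sq_av_le`).
For these triples the coefficients `C i (w_i)` differ from `lab` by the common summand
`lab 0 + C 0 a`, so they form a relation (`φ(a) + φ(b) + φ(c) + φ(a+b+c) = 0`). -/
theorem exists_coeff (φ : Bil V M) (Ω : Set V) (Ξ : V → V →ₗ[ZMod 2] L)
    (Dl : V → V → M →ₗ[ZMod 2] L) : ∃ C : Fin 4 → V → M →ₗ[ZMod 2] L,
    d3 (fun a b c => VG φ Ω Ξ Dl a b c) ^ 8 ≤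
      d3 fun a b c => (a ∈ Ω ∧ b ∈ Ω ∧ c ∈ Ω ∧ a + b + c ∈ Ω) ∧
        Rel φ Ξ a b c ![C 0 a, C 1 b, C 2 c, C 3 (a + b + c)] := by
  classical
  obtain ⟨a', b', hab⟩ := exists_pivots (fun a b c => VG φ Ω Ξ Dl a b c)
  set Q : V → V → V → Prop := fun a b c => VG φ Ω Ξ Dl a b c ∧ VG φ Ω Ξ Dl a' b c ∧
    VG φ Ω Ξ Dl a' b' c ∧ VG φ Ω Ξ Dl a b' c with hQ
  -- consequences
  have key : ∀ a b c, Q a b c → Dl a b = (Dl a b' + Dl a' b') + Dl a' b ∧
      Dl a c = (Dl a b' + Dl a' b') + Dl a' c ∧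
      (Dl a b' + Dl a' b') + Dl a (a + b + c) = Dl a' b + Dl b (a + b + c) := by
    rintro a b c ⟨h1, h2, h3, h4⟩
    have e1 := co3c_vg h1
    have e2 := (co3c_vg h2).1
    have e3 := (co3c_vg h3).1
    have e4 := (co3c_vg h4).1
    have hac : Dl a c = (Dl a b' + Dl a' b') + Dl a' c := by
      have h : Dl a b' + Dl a c = Dl a' b' + Dl a' c := by rw [← e4, e3]
      have h5 : Dl a c = Dl a b' + (Dl a' b' + Dl a' c) := by
        rw [← h, ← add_assoc, add_self, zero_add]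
      rw [h5, add_assoc]
    have hAB : Dl a b = (Dl a b' + Dl a' b') + Dl a' b := by
      have h : Dl a b = Dl b c + Dl a c := by
        rw [e1.1, add_assoc, add_self, add_zero]
      rw [h, e2, hac]
      have h5 : Dl a' b + Dl a' c + (Dl a b' + Dl a' b' + Dl a' c) =
          Dl a b' + Dl a' b' + Dl a' b + (Dl a' c + Dl a' c) := by abel
      rw [h5, add_self, add_zero]
    refine ⟨hAB, hac, ?_⟩
    have h := e1.2
    rw [hAB] at h
    have h5 : (Dl a b' + Dl a' b') + Dl a (a + b + c) =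
        (Dl a b' + Dl a' b' + Dl a' b) + Dl a (a + b + c) + Dl a' b := by
      have h6 : (Dl a b' + Dl a' b' + Dl a' b) + Dl a (a + b + c) + Dl a' b =
        (Dl a b' + Dl a' b') + Dl a (a + b + c) + (Dl a' b + Dl a' b) := by abel
      rw [h6, add_self, add_zero]
    rw [h5, h]
    have h6 : Dl a (a + b + c) + Dl b (a + b + c) + Dl a (a + b + c) + Dl a' b =
      Dl a' b + Dl b (a + b + c) + (Dl a (a + b + c) + Dl a (a + b + c)) := by abel
    rw [h6, add_self, add_zero]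
  have hex : ∀ d : V, ∃ l : M →ₗ[ZMod 2] L,
      dn {p : V × V | Q p.1 p.2 (p.1 + p.2 + d)} ^ 2 ≤
        dn {p : V × V | p ∈ {p : V × V | Q p.1 p.2 (p.1 + p.2 + d)} ∧
          (fun a => (Dl a b' + Dl a' b') + Dl a d) p.1 = l} := by
    intro d
    refine exists_value {p : V × V | Q p.1 p.2 (p.1 + p.2 + d)}
      (fun a => (Dl a b' + Dl a' b') + Dl a d) (fun b => Dl a' b + Dl b d) ?_
    rintro ⟨a, b⟩ hp
    have h := (key a b (a + b + d) hp).2.2
    rw [show a + b + (a + b + d) = d by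
      rw [← add_assoc, add_self, zero_add]] at h
    exact h
  choose C3 hC3 using hex
  refine ⟨![fun w => Dl w b' + Dl a' b', fun w => Dl a' w, fun w => Dl a' w, C3], ?_⟩
  have h0 : 0 ≤ d3 (fun a b c => VG φ Ω Ξ Dl a b c) := by
    unfold d3
    exact av_nonneg fun a => av_nonneg fun b => av_nonneg fun c => ind_nonneg _ _
  calc d3 (fun a b c => VG φ Ω Ξ Dl a b c) ^ 8
      = (d3 (fun a b c => VG φ Ω Ξ Dl a b c) ^ 4) ^ 2 := by ring
    _ ≤ (d3 Q) ^ 2 := pow_le_pow_left₀ (by positivity) hab 2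
    _ = (av fun d => dn {p : V × V | Q p.1 p.2 (p.1 + p.2 + d)}) ^ 2 := by rw [co3c_d3]
    _ ≤ av fun d => dn {p : V × V | Q p.1 p.2 (p.1 + p.2 + d)} ^ 2 := sq_av_le _
    _ ≤ av fun d => dn {p : V × V | p ∈ {p : V × V | Q p.1 p.2 (p.1 + p.2 + d)} ∧
          (fun a => (Dl a b' + Dl a' b') + Dl a d) p.1 = C3 d} := av_le_av hC3
    _ = av fun d => dn {p : V × V | (fun a b c => Q a b c ∧
          (Dl a b' + Dl a' b') + Dl a (a + b + c) = C3 (a + b + c)) p.1 p.2 (p.1 + p.2 + d)} := by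
        congr 1
        funext d
        congr 1
        ext ⟨a, b⟩
        simp only [Set.mem_ofPred_eq]
        rw [show a + b + (a + b + d) = d by rw [← add_assoc, add_self, zero_add]]
    _ = d3 (fun a b c => Q a b c ∧
          (Dl a b' + Dl a' b') + Dl a (a + b + c) = C3 (a + b + c)) := by rw [co3c_d3]
    _ ≤ _ := by
        refine d3_mono fun a b c => ?_
        rintro ⟨hq, h3⟩
        obtain ⟨hab1, hac1, -⟩ := key a b c hq
        have hG := hq.1.1
        refine ⟨⟨hG.1, hG.2.1, hG.2.2.1, hG.2.2.2.1⟩, ?_⟩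
        have hA := rel_lab hG
        have l01 := hq.1.2.1
        have l02 := hq.1.2.2.1
        have l03 := hq.1.2.2.2.2.1
        unfold lb at l01 l02 l03
        set A := lab φ Ξ a b c with hAdef
        set e := A 0 + (Dl a b' + Dl a' b') with he
        have a0 : A 0 = (Dl a b' + Dl a' b') + e := by
          rw [he]
          have h6 : (Dl a b' + Dl a' b') + (A 0 + (Dl a b' + Dl a' b')) =
            A 0 + ((Dl a b' + Dl a' b') + (Dl a b' + Dl a' b')) := by abel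
          rw [h6, add_self, add_zero]
        have aux : ∀ i X, A 0 + A i = (Dl a b' + Dl a' b') + X → A i = X + e := by
          intro i X h
          rw [he]
          have h6 : X + (A 0 + (Dl a b' + Dl a' b')) = A 0 + ((Dl a b' + Dl a' b') + X) := by
            abel
          rw [h6, ← h, ← add_assoc, add_self, zero_add]
        have a1 : A 1 = Dl a' b + e := aux 1 _ (by rw [l01, hab1])
        have a2 : A 2 = Dl a' c + e := aux 2 _ (by rw [l02, hac1])
        have a3 : A 3 = C3 (a + b + c) + e := by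
          refine aux 3 _ ?_
          rw [l03, ← h3, ← add_assoc, add_self, zero_add]
        unfold Rel at hA ⊢
        rw [hA, a0, a1, a2, a3]
        simp only [Matrix.cons_val_zero, Matrix.cons_val_one, Matrix.cons_val]
        simp only [LinearMap.add_comp, map_add, LinearMap.comp_add]
        abel_nf
        have z1 : ∀ (z : V →ₗ[ZMod 2] L), (2 : ℤ) • z = 0 := by
          intro z
          rw [two_zsmul, add_self]
        simp [z1]

end G2
end

section

/-!
# Job CO4: additive energy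
-/

set_option autoImplicit false

open Module

namespace G2

section energy

variable {V H : Type} [AddCommGroup V] [Module (ZMod 2) V] [Finite V]
  [AddCommGroup H] [Module (ZMod 2) H] [Finite H]

/-- the density of the relation -/
private noncomputable def co4_E (Ω : Set V) (f g f' g' : V → H) : ℝ :=
  d3 (fun a b c => (a ∈ Ω ∧ b ∈ Ω ∧ c ∈ Ω ∧ a + b + c ∈ Ω) ∧
    f a + g b + f' c + g' (a + b + c) = 0)

/-- the indicator of `x, x + p ∈ Ω`, `f x + g (x + p) = π` -/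
private noncomputable def co4_I (Ω : Set V) (f g : V → H) (p : V) (w : H) (x : V) : ℝ :=
  ind {x | (x ∈ Ω ∧ x + p ∈ Ω) ∧ f x + g (x + p) = w} x

omit [AddCommGroup V] [Module (ZMod 2) V] [AddCommGroup H] [Module (ZMod 2) H] in
private theorem co4_av_su (F : H → V → ℝ) :
    (av fun a => su fun w => F w a) = su fun w => av (F w) := by
  have := Fintype.ofFinite V
  have := Fintype.ofFinite H
  simp only [av_eq, su_eq]
  rw [Finset.sum_comm, Finset.sum_div]

omit [Module (ZMod 2) H] [Finite V] in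
private theorem co4_I_su (Ω : Set V) (f g f' g' : V → H) (p a c : V)
    (h2 : ∀ w : H, w + w = 0) :
    ind {q : V × V × V | (q.1 ∈ Ω ∧ q.2.1 ∈ Ω ∧ q.2.2 ∈ Ω ∧ q.1 + q.2.1 + q.2.2 ∈ Ω) ∧
      f q.1 + g q.2.1 + f' q.2.2 + g' (q.1 + q.2.1 + q.2.2) = 0} (a, a + p, c) =
      su fun w => co4_I Ω f g p w a * co4_I Ω f' g' p w c := by
  classical
  have := Fintype.ofFinite H
  rw [su_eq]
  have e1 : a + (a + p) + c = c + p := by
    rw [← add_assoc, add_self, zero_add, add_comm]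
  have hsub : ∀ x y : H, x + y = 0 → x = y := by
    intro x y h
    have h1 : x + y + y = y := by rw [h, zero_add]
    rwa [add_assoc, h2, add_zero] at h1
  rw [Finset.sum_eq_single (f a + g (a + p))]
  · have hiff : (a, a + p, c) ∈ {q : V × V × V | (q.1 ∈ Ω ∧ q.2.1 ∈ Ω ∧ q.2.2 ∈ Ω ∧
        q.1 + q.2.1 + q.2.2 ∈ Ω) ∧ f q.1 + g q.2.1 + f' q.2.2 + g' (q.1 + q.2.1 + q.2.2) = 0} ↔
        (a ∈ Ω ∧ a + p ∈ Ω) ∧ ((c ∈ Ω ∧ c + p ∈ Ω) ∧ f' c + g' (c + p) = f a + g (a + p)) := by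
      change (a ∈ Ω ∧ a + p ∈ Ω ∧ c ∈ Ω ∧ a + (a + p) + c ∈ Ω) ∧
        f a + g (a + p) + f' c + g' (a + (a + p) + c) = 0 ↔ _
      rw [e1]
      constructor
      · rintro ⟨⟨h3, h4, h5, h6⟩, h7⟩
        refine ⟨⟨h3, h4⟩, ⟨h5, h6⟩, ?_⟩
        rw [add_assoc] at h7
        exact (hsub _ _ h7).symm
      · rintro ⟨⟨h3, h4⟩, ⟨h5, h6⟩, h7⟩
        refine ⟨⟨h3, h4, h5, h6⟩, ?_⟩
        rw [add_assoc, h7, h2]
    unfold co4_I
    by_cases ha : a ∈ Ω ∧ a + p ∈ Ω
    · rw [ind_pos (A := {x | (x ∈ Ω ∧ x + p ∈ Ω) ∧ f x + g (x + p) = f a + g (a + p)}) ⟨ha, rfl⟩,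
        one_mul]
      by_cases hc : (c ∈ Ω ∧ c + p ∈ Ω) ∧ f' c + g' (c + p) = f a + g (a + p)
      · rw [ind_pos (hiff.2 ⟨ha, hc⟩), ind_pos (A := {x | (x ∈ Ω ∧ x + p ∈ Ω) ∧
          f' x + g' (x + p) = f a + g (a + p)}) hc]
      · rw [ind_neg fun h => hc (hiff.1 h).2, ind_neg (A := {x | (x ∈ Ω ∧ x + p ∈ Ω) ∧
          f' x + g' (x + p) = f a + g (a + p)}) hc]
    · rw [ind_neg fun h => ha (hiff.1 h).1, ind_neg (A := {x | (x ∈ Ω ∧ x + p ∈ Ω) ∧
        f x + g (x + p) = f a + g (a + p)}) fun h => ha h.1, zero_mul]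
  · intro w _ hw
    unfold co4_I
    rw [ind_neg (A := {x | (x ∈ Ω ∧ x + p ∈ Ω) ∧ f x + g (x + p) = w}) fun h => hw h.2.symm,
      zero_mul]
  · intro h
    exact absurd (Finset.mem_univ _) h

private theorem co4_E_eq (Ω : Set V) (f g f' g' : V → H) :
    co4_E Ω f g f' g' = av fun p => su fun w => av (co4_I Ω f g p w) * av (co4_I Ω f' g' p w) := by
  unfold co4_E d3
  have h1 : ∀ a : V, (av fun b => av fun c =>
      ind {q : V × V × V | (q.1 ∈ Ω ∧ q.2.1 ∈ Ω ∧ q.2.2 ∈ Ω ∧ q.1 + q.2.1 + q.2.2 ∈ Ω) ∧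
      f q.1 + g q.2.1 + f' q.2.2 + g' (q.1 + q.2.1 + q.2.2) = 0} (a, b, c)) =
      av fun p => av fun c => su fun w => co4_I Ω f g p w a * co4_I Ω f' g' p w c := by
    intro a
    rw [← av_shift_left _ a]
    have h2 : ∀ p c : V, ind {q : V × V × V | (q.1 ∈ Ω ∧ q.2.1 ∈ Ω ∧ q.2.2 ∈ Ω ∧
        q.1 + q.2.1 + q.2.2 ∈ Ω) ∧ f q.1 + g q.2.1 + f' q.2.2 + g' (q.1 + q.2.1 + q.2.2) = 0}
        (a, a + p, c) = su fun w => co4_I Ω f g p w a * co4_I Ω f' g' p w c := fun p c =>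
      co4_I_su Ω f g f' g' p a c add_self
    simp only [h2]
  simp only [h1]
  rw [av_comm]
  congr 1
  funext p
  have h3 : ∀ a : V, (av fun c => su fun w => co4_I Ω f g p w a * co4_I Ω f' g' p w c) =
      su fun w => co4_I Ω f g p w a * av (co4_I Ω f' g' p w) := by
    intro a
    rw [co4_av_su]
    simp only [av_mul_left]
  simp only [h3]
  rw [co4_av_su]
  simp only [av_mul_right]

omit [Module (ZMod 2) V] [Module (ZMod 2) H] in
private theorem co4_cs (r r' : V → H → ℝ) :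
    (av fun p => su fun w => r p w * r' p w) ^ 2 ≤
      (av fun p => su fun w => r p w * r p w) * av fun p => su fun w => r' p w * r' p w := by
  have hH : (0 : ℝ) < nc H := nc_pos
  have h1 : ∀ F : V → H → ℝ, (av fun p => su fun w => F p w) =
      nc H * av fun q : V × H => F q.1 q.2 := by
    intro F
    rw [av_prod, ← av_mul_left]
    congr 1
    funext p
    rw [av, mul_div_cancel₀ _ hH.ne']
  rw [h1 fun p w => r p w * r' p w, h1 fun p w => r p w * r p w, h1 fun p w => r' p w * r' p w]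
  have h2 := av_cs (fun q : V × H => r q.1 q.2) (fun q : V × H => r' q.1 q.2)
  have h3 : (fun q : V × H => r q.1 q.2 ^ 2) = fun q : V × H => r q.1 q.2 * r q.1 q.2 := by
    funext q
    ring
  have h4 : (fun q : V × H => r' q.1 q.2 ^ 2) = fun q : V × H => r' q.1 q.2 * r' q.1 q.2 := by
    funext q
    ring
  rw [h3, h4] at h2
  calc _ = nc H ^ 2 * (av fun q : V × H => r q.1 q.2 * r' q.1 q.2) ^ 2 := by ring
    _ ≤ nc H ^ 2 * ((av fun q : V × H => r q.1 q.2 * r q.1 q.2) *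
        av fun q : V × H => r' q.1 q.2 * r' q.1 q.2) :=
      mul_le_mul_of_nonneg_left h2 (by positivity)
    _ = _ := by ring

omit [Module (ZMod 2) V] in
private theorem co4_d3_le_one (P : V → V → V → Prop) : d3 P ≤ 1 :=
  av_le_const fun _ => av_le_const fun _ => av_le_const fun _ => ind_le_one _ _

omit [Module (ZMod 2) V] in
private theorem co4_d3_nonneg (P : V → V → V → Prop) : 0 ≤ d3 P :=
  av_nonneg fun _ => av_nonneg fun _ => av_nonneg fun _ => ind_nonneg _ _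

private theorem co4_E_sq (Ω : Set V) (f g f' g' : V → H) :
    co4_E Ω f g f' g' ^ 2 ≤ co4_E Ω f g f g := by
  have h1 : co4_E Ω f g f' g' ^ 2 ≤ co4_E Ω f g f g * co4_E Ω f' g' f' g' := by
    rw [co4_E_eq Ω f g f' g', co4_E_eq Ω f g f g, co4_E_eq Ω f' g' f' g']
    exact co4_cs (fun p w => av (co4_I Ω f g p w)) fun p w => av (co4_I Ω f' g' p w)
  refine h1.trans ?_
  have h2 : co4_E Ω f' g' f' g' ≤ 1 := co4_d3_le_one _
  have h3 : 0 ≤ co4_E Ω f g f g := co4_d3_nonneg _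
  calc _ ≤ co4_E Ω f g f g * 1 := mul_le_mul_of_nonneg_left h2 h3
    _ = _ := mul_one _

private theorem co4_E_swap (Ω : Set V) (f g : V → H) :
    co4_E Ω f g f g = co4_E Ω f f g g := by
  unfold co4_E
  rw [← d3_acb]
  congr 1
  funext a b c
  have e1 : a + c + b = a + b + c := by abel
  rw [e1]
  apply propext
  have e2 : f a + g c + f b + g (a + b + c) = f a + f b + g c + g (a + b + c) := by abel
  rw [e2]
  tauto

end energy

/-- Energy inequality for four functions.  For `p ∈ V`, `π ∈ H` let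
`r_{ij}(p, π) = E_x 1[x, x+p ∈ Ω, Γ_i(x) + Γ_j(x+p) = π]`, so that `∑_π r ≤ 1`.  The left-hand side
is `E_p ∑_π r_{01} r_{23} ≤ (E_p ∑ r_{01}^2)^{1/2}`.  And `E_p ∑_π r_{01}(p,π)^2 =
E_{x,x',p} 1[…, Γ_0(x) + Γ_0(x') = Γ_1(x+p) + Γ_1(x'+p)] = E_s ∑_π r_{00}(s,π) r_{11}(s,π)
≤ (E_s ∑_π r_{00}(s,π)^2)^{1/2}`. -/
theorem energy_four {V H : Type} [AddCommGroup V] [Module (ZMod 2) V] [Finite V]
    [AddCommGroup H] [Module (ZMod 2) H] [Finite H] (Ω : Set V) (Γ : Fin 4 → V → H) :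
    d3 (fun a b c => (a ∈ Ω ∧ b ∈ Ω ∧ c ∈ Ω ∧ a + b + c ∈ Ω) ∧
      Γ 0 a + Γ 1 b + Γ 2 c + Γ 3 (a + b + c) = 0) ^ 4 ≤
    d3 (fun a b c => (a ∈ Ω ∧ b ∈ Ω ∧ c ∈ Ω ∧ a + b + c ∈ Ω) ∧
      Γ 0 a + Γ 0 b + Γ 0 c + Γ 0 (a + b + c) = 0) := by
  have h1 : co4_E Ω (Γ 0) (Γ 1) (Γ 2) (Γ 3) ^ 2 ≤ co4_E Ω (Γ 0) (Γ 1) (Γ 0) (Γ 1) :=
    co4_E_sq Ω _ _ _ _
  have h2 : co4_E Ω (Γ 0) (Γ 0) (Γ 1) (Γ 1) ^ 2 ≤ co4_E Ω (Γ 0) (Γ 0) (Γ 0) (Γ 0) :=
    co4_E_sq Ω _ _ _ _
  rw [co4_E_swap] at h1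
  have h3 : (co4_E Ω (Γ 0) (Γ 1) (Γ 2) (Γ 3) ^ 2) ^ 2 ≤ co4_E Ω (Γ 0) (Γ 0) (Γ 1) (Γ 1) ^ 2 :=
    pow_le_pow_left₀ (sq_nonneg _) h1 2
  have h4 : co4_E Ω (Γ 0) (Γ 1) (Γ 2) (Γ 3) ^ 4 ≤ co4_E Ω (Γ 0) (Γ 0) (Γ 0) (Γ 0) := by
    calc _ = (co4_E Ω (Γ 0) (Γ 1) (Γ 2) (Γ 3) ^ 2) ^ 2 := by ring
      _ ≤ _ := h3.trans h2
  exact h4

/-- Main result of block CO: combine `popular_label` with `s = t + 5` (so that
`5 · 2^(-s) ≤ 2^(-t) / 2`), `vg_large`, `exists_coeff` and `energy_four` for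
`Γ i w = Ξ w + (C i w) ∘ φ(w)`.  The density is at least `2^(-32 (t+1))`. -/
theorem co_main : ∃ C : ℕ, ∀ (t R : ℕ) (V M L : Type) [AddCommGroup V] [Module (ZMod 2) V]
    [Finite V] [AddCommGroup M] [Module (ZMod 2) M] [Finite M] [AddCommGroup L]
    [Module (ZMod 2) L] [Finite L] (φ : Bil V M) (Ω : Set V) (Ξ : V → V →ₗ[ZMod 2] L),
    HR φ R → pw C (rk M + t) ≤ R →
    (1 / 2 : ℝ) ^ t ≤ d3 (fun a b c => Good φ Ω Ξ a b c) →
    ∃ C₁ : V → M →ₗ[ZMod 2] L, (1 / 2 : ℝ) ^ pw C t ≤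
      d3 (fun a b c => (a ∈ Ω ∧ b ∈ Ω ∧ c ∈ Ω ∧ a + b + c ∈ Ω) ∧
        (Ξ a + (C₁ a).comp (φ a)) + (Ξ b + (C₁ b).comp (φ b)) + (Ξ c + (C₁ c).comp (φ c)) +
          (Ξ (a + b + c) + (C₁ (a + b + c)).comp (φ (a + b + c))) = 0) := by
  obtain ⟨C₀, hC₀⟩ := popular_label
  refine ⟨3 * C₀ + 6, ?_⟩
  intro t R V M L _ _ _ _ _ _ _ _ _ φ Ω Ξ hR hpw hgood
  have hpw' : pw C₀ (rk M + (t + 5)) ≤ R := by
    refine le_trans ?_ hpw
    unfold pw
    have hx : ∀ x : ℕ, 2 ≤ x → x + 5 ≤ x ^ 3 := by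
      intro x h2
      have h3 : 4 ≤ x ^ 2 := by nlinarith
      have h4 : x ^ 3 = x ^ 2 * x := by ring
      have h5 : 4 * x ≤ x ^ 3 := by
        rw [h4]
        exact Nat.mul_le_mul_right x h3
      omega
    have h1 : rk M + (t + 5) + 2 ≤ (rk M + t + 2) ^ 3 := by
      have h2 := hx (rk M + t + 2) (by omega)
      have h3 : rk M + (t + 5) + 2 = rk M + t + 2 + 5 := by ring
      rw [h3]
      exact h2
    calc (rk M + (t + 5) + 2) ^ C₀ ≤ ((rk M + t + 2) ^ 3) ^ C₀ := Nat.pow_le_pow_left h1 _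
      _ = (rk M + t + 2) ^ (3 * C₀) := by rw [← pow_mul]
      _ ≤ (rk M + t + 2) ^ (3 * C₀ + 6) :=
        Nat.pow_le_pow_right (by omega) (by omega)
  obtain ⟨Dl, hDl⟩ := hC₀ (t + 5) R V M L φ Ω Ξ hR hpw'
  have h1 := vg_large φ Ω Ξ Dl _ hDl
  have h2 : (1 / 2 : ℝ) ^ (t + 1) ≤ d3 (fun a b c => VG φ Ω Ξ Dl a b c) := by
    have h3 : (1 / 2 : ℝ) ^ (t + 5) = (1 / 2 : ℝ) ^ t / 32 := by
      rw [pow_add]
      norm_num
      ring
    have h4 : (1 / 2 : ℝ) ^ (t + 1) = (1 / 2 : ℝ) ^ t / 2 := by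
      rw [pow_succ]
      ring
    have h5 : (0 : ℝ) < (1 / 2 : ℝ) ^ t := by positivity
    rw [h3] at h1
    rw [h4]
    linarith
  obtain ⟨C, hC⟩ := exists_coeff φ Ω Ξ Dl
  have h6 : ((1 / 2 : ℝ) ^ (t + 1)) ^ 8 ≤ d3 (fun a b c => VG φ Ω Ξ Dl a b c) ^ 8 :=
    pow_le_pow_left₀ (by positivity) h2 8
  have h7 := energy_four Ω (fun (i : Fin 4) w => Ξ w + (C i w).comp (φ w))
  refine ⟨C 0, ?_⟩
  refine le_trans ?_ h7
  have h8 : d3 (fun a b c => (a ∈ Ω ∧ b ∈ Ω ∧ c ∈ Ω ∧ a + b + c ∈ Ω) ∧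
        Rel φ Ξ a b c ![C 0 a, C 1 b, C 2 c, C 3 (a + b + c)]) ≤
      d3 (fun a b c => (a ∈ Ω ∧ b ∈ Ω ∧ c ∈ Ω ∧ a + b + c ∈ Ω) ∧
        (Ξ a + (C 0 a).comp (φ a)) + (Ξ b + (C 1 b).comp (φ b)) + (Ξ c + (C 2 c).comp (φ c)) +
          (Ξ (a + b + c) + (C 3 (a + b + c)).comp (φ (a + b + c))) = 0) := by
    refine d3_mono fun a b c => ?_
    rintro ⟨h9, h10⟩
    refine ⟨h9, ?_⟩
    have h11 : Ξ a + Ξ b + Ξ c + Ξ (a + b + c) = (C 0 a).comp (φ a) + (C 1 b).comp (φ b) +
        (C 2 c).comp (φ c) + (C 3 (a + b + c)).comp (φ (a + b + c)) := h10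
    calc _ = (Ξ a + Ξ b + Ξ c + Ξ (a + b + c)) + ((C 0 a).comp (φ a) + (C 1 b).comp (φ b) +
        (C 2 c).comp (φ c) + (C 3 (a + b + c)).comp (φ (a + b + c))) := by abel
      _ = 0 := by rw [h11, add_self]
  have h12 : ((1 / 2 : ℝ) ^ (t + 1)) ^ 8 ≤ _ := (h6.trans hC).trans h8
  refine le_trans ?_ (pow_le_pow_left₀ (by positivity) h12 4)
  rw [← pow_mul, ← pow_mul]
  refine pow_le_pow_of_le_one (by norm_num) (by norm_num) ?_
  unfold pw
  have h13 : (t + 2) ^ 6 ≤ (t + 2) ^ (3 * C₀ + 6) := Nat.pow_le_pow_right (by omega) (by omega)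
  refine le_trans ?_ h13
  have h14 : 2 ^ 5 ≤ (t + 2) ^ 5 := Nat.pow_le_pow_left (by omega) 5
  have h15 : (t + 2) ^ 6 = (t + 2) ^ 5 * (t + 2) := by ring
  rw [h15]
  have h16 : 2 ^ 5 * (t + 2) ≤ (t + 2) ^ 5 * (t + 2) := Nat.mul_le_mul_right _ h14
  refine le_trans ?_ h16
  omega

end G2
end
end
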