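import Pool.Agent.Lib.MP_f4f4db_co.G2.DAd
import Pool.Agent.Lib.MP_f4f4db_co.G2.CO4
import Pool.Agent.Lib.MP_f4f4db_co.G2.Akm

section

/-!
# Job DA2a: removing a condition of low rank (DROP)
-/

set_option autoImplicit false

open Module

namespace G2

section
variable {V M L L' W W' : Type} [AddCommGroup V] [Module (ZMod 2) V]
  [AddCommGroup M] [Module (ZMod 2) M] [AddCommGroup L] [Module (ZMod 2) L]
  [AddCommGroup L'] [Module (ZMod 2) L'] [AddCommGroup W] [Module (ZMod 2) W]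
  [AddCommGroup W'] [Module (ZMod 2) W']

theorem restr_res (D : Dat V M L) (i : W →ₗ[ZMod 2] V) (hi : Function.Injective i) (v w₂ : V) :
    D.Restr (D.res i v w₂) i v (v + w₂) :=
  ⟨hi, rfl, fun _ => rfl, fun _ => rfl, rfl, rfl⟩

theorem Dat.Restr.trans {L'' : Type} [AddCommGroup L''] [Module (ZMod 2) L''] {D : Dat V M L}
    {D' : Dat W M L'} {D'' : Dat W' M L''} {i : W →ₗ[ZMod 2] V} {j : W' →ₗ[ZMod 2] W}
    {v₁ v₂ : V} {u₁ u₂ : W} (h : D.Restr D' i v₁ v₂) (h' : D'.Restr D'' j u₁ u₂) :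
    D.Restr D'' (i.comp j) (v₁ + i u₁) (v₂ + i u₂) := by
  obtain ⟨h1, h2, h3, h4, h5, h6⟩ := h
  obtain ⟨k1, k2, k3, k4, k5, k6⟩ := h'
  refine ⟨h1.comp k1, ?_, ?_, ?_, ?_, ?_⟩
  · rw [k2, h2]
    rfl
  · intro y
    rw [k3, h3, map_add, ← add_assoc]
    rfl
  · intro y
    rw [k4, h4, map_add, ← add_assoc]
    rfl
  · rw [k5, h5]
    ext y
    simp only [Set.mem_ofPred_eq, map_add, LinearMap.coe_comp, Function.comp_apply, add_assoc]
  · rw [k6, h6]
    ext y
    simp only [Set.mem_ofPred_eq, map_add, LinearMap.coe_comp, Function.comp_apply, add_assoc]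

/-- if the `b`-component of the condition is a consequence of the `M`-component, and
`(b, p) : L → F_2 × L'` is injective, then the data with `L` replaced by `L'` have the same good
fibres: the fibre of `(D.mapL p).T w` over the image of `t` is the fibre of `D.T w` over `t`. -/
theorem mapL_gd [Finite V] [Finite M] [Finite L] [Finite L'] (D : Dat V M L) (a : Du M) (b : Du L)
    (p : L →ₗ[ZMod 2] L') (hp : ∀ z, b z = 0 → p z = 0 → z = 0)
    (hab : ∀ w y, b (D.Φ w y + D.μ y) = a (D.φ w y + D.δ y)) (θ : ℝ) (w : V) (h : D.Gd θ w) :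
    (D.mapL p).Gd θ w := by
  obtain ⟨t, ⟨y₀, hy₀⟩, ht⟩ := h
  have e1 : ∀ y, D.T w y = (D.φ w y + D.δ y, D.Φ w y + D.μ y) := fun y => rfl
  have e2 : ∀ y, (D.mapL p).T w y = (D.φ w y + D.δ y, p (D.Φ w y) + p (D.μ y)) := fun y => rfl
  have key : ∀ y, (D.mapL p).T w y = (t.1, p t.2) ↔ D.T w y = t := by
    intro y
    rw [e1, e2]
    constructor
    · intro h
      have g1 := congrArg Prod.fst h
      have g2 := congrArg Prod.snd h
      simp only at g1 g2
      have g3 : D.φ w y₀ + D.δ y₀ = t.1 := by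
        rw [← hy₀, e1]
      have g4 : D.Φ w y₀ + D.μ y₀ = t.2 := by
        rw [← hy₀, e1]
      have g5 : b (D.Φ w y + D.μ y) = b t.2 := by
        rw [hab, g1, ← g4, hab, g3]
      have g6 : D.Φ w y + D.μ y - t.2 = 0 := by
        apply hp
        · rw [map_sub, g5, sub_self]
        · rw [map_sub, map_add, g2, sub_self]
      rw [g1, sub_eq_zero.1 g6]
    · intro h
      rw [← map_add, ← h]
  have hset : {y | (D.mapL p).T w y = (t.1, p t.2)} = {y | D.T w y = t} :=
    Set.ext fun y => key y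
  refine ⟨(t.1, p t.2), ⟨y₀, (key y₀).2 hy₀⟩, ?_⟩
  rw [hset]
  exact ht

end

end G2
end

section

/-!
# Job DA1a: restriction of data to an arbitrary subspace (RES)

`D.T w y = (φ(w,y) + δ(y), Φ(w,y) + μ(y))`; `D.Gd θ w`: on some nonempty fibre of `D.T w` the average
of `|M| 1_{F1}(y) 1_{F2}(y+w)` is at least `θ`.
-/

set_option autoImplicit false

open Module

namespace G2

section
variable {V M L W : Type} [AddCommGroup V] [Module (ZMod 2) V] [Finite V]
  [AddCommGroup M] [Module (ZMod 2) M] [Finite M] [AddCommGroup L] [Module (ZMod 2) L] [Finite L]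
  [AddCommGroup W] [Module (ZMod 2) W] [Finite W]

omit [Finite M] [Finite L] [Finite W] [Finite V] in
theorem da1a_T_apply (D : Dat V M L) (w y : V) :
    D.T w y = (D.φ w y + D.δ y, D.Φ w y + D.μ y) := rfl

/-- density of a subspace -/
theorem da1a_dn_sub (S : Submodule (ZMod 2) V) :
    dn (S : Set V) = 2 ^ finrank (ZMod 2) S / 2 ^ rk V := by
  rw [dn_eq_card]
  have h1 := nc_finrank (V := V)
  have h2 := nc_finrank (V := S)
  rw [nc] at h1 h2
  rw [h1]
  have h3 : (Nat.card (S : Set V) : ℝ) = 2 ^ finrank (ZMod 2) S := h2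
  rw [h3]

omit [Module (ZMod 2) V] in
/-- density of a translate -/
theorem da1a_dn_shift {A B : Set V} (a : V) (h : ∀ v, v ∈ A ↔ v + a ∈ B) : dn A = dn B := by
  have h1 : ind A = fun v => ind B (v + a) := by
    funext v
    by_cases hv : v ∈ A
    · rw [ind_pos hv, ind_pos ((h v).1 hv)]
    · rw [ind_neg hv, ind_neg fun h' => hv ((h v).2 h')]
  rw [dn, h1, av_shift, dn]

theorem da1a_av_su {α β : Type} [Finite α] [Finite β] (f : α → β → ℝ) :
    av (fun x => su (fun y => f x y)) = su (fun y => av (fun x => f x y)) := by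
  have := Fintype.ofFinite α
  have := Fintype.ofFinite β
  simp only [av_eq, su_eq]
  rw [Finset.sum_comm, Finset.sum_div]

omit [Finite V] [Finite W] in
/-- dimension of a preimage -/
theorem da1a_comap [FiniteDimensional (ZMod 2) V] [FiniteDimensional (ZMod 2) W]
    (g : V →ₗ[ZMod 2] W) (S : Submodule (ZMod 2) W) :
    finrank (ZMod 2) (S.comap g) ≤ finrank (ZMod 2) S + finrank (ZMod 2) (LinearMap.ker g) := by
  have h1 := LinearMap.finrank_range_add_finrank_ker (g.domRestrict (S.comap g))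
  have h2 : finrank (ZMod 2) (LinearMap.range (g.domRestrict (S.comap g))) ≤
      finrank (ZMod 2) S := by
    apply Submodule.finrank_mono
    rintro _ ⟨x, rfl⟩
    exact x.2
  have h3 : finrank (ZMod 2) (LinearMap.ker (g.domRestrict (S.comap g))) ≤
      finrank (ZMod 2) (LinearMap.ker g) := by
    let f : LinearMap.ker (g.domRestrict (S.comap g)) →ₗ[ZMod 2] LinearMap.ker g :=
      LinearMap.codRestrict (LinearMap.ker g)
        ((S.comap g).subtype.comp (LinearMap.ker (g.domRestrict (S.comap g))).subtype)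
        (fun x => x.2)
    refine LinearMap.finrank_le_finrank_of_injective (f := f) ?_
    intro x y hxy
    apply Subtype.ext
    apply Subtype.ext
    exact congrArg (fun z : LinearMap.ker g => (z : V)) hxy
  omega

/-- the linear conditions of the restricted data -/
theorem res_T (D : Dat V M L) (i : W →ₗ[ZMod 2] V) (v w₂ : V) (w' y' : W) :
    (D.res i v w₂).T w' y' = D.T (w₂ + i w') (i y') := by
  simp only [da1a_T_apply, Dat.res, map_add, LinearMap.add_apply, LinearMap.comp_apply,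
    LinearMap.compl₁₂_apply]
  refine Prod.ext ?_ ?_
  · show D.φ (i w') (i y') + (D.φ w₂ (i y') + D.δ (i y')) =
      D.φ w₂ (i y') + D.φ (i w') (i y') + D.δ (i y')
    rw [← add_assoc, add_comm (D.φ (i w') (i y'))]
  · show D.Φ (i w') (i y') + (D.Φ w₂ (i y') + D.μ (i y')) =
      D.Φ w₂ (i y') + D.Φ (i w') (i y') + D.μ (i y')
    rw [← add_assoc, add_comm (D.Φ (i w') (i y'))]

/-- `w` is exceptional if some nonzero `a` makes `a (φ(w,·) + δ)` vanish on the image of `i`: for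
every `a ≠ 0` and every one of the `2^κ` functionals `ξ` vanishing on the image the `w` with
`aφ(w,·) = aδ + ξ` form an empty set or a translate of the kernel of `aφ`. -/
theorem exc_small (D : Dat V M L) {R : ℕ} (hR : HR D.φ R) (i : W →ₗ[ZMod 2] V)
    (hi : Function.Injective i) {κ : ℕ} (hκ : rk V ≤ rk W + κ) :
    dn {w : V | ∃ a : Du M, a ≠ 0 ∧ ∀ y', a (D.φ w (i y') + D.δ (i y')) = 0} ≤
      nc M * 2 ^ κ / 4 ^ R := by
  classical
  have hcst : ∀ a : Du M, a ≠ 0 →
      dn {w : V | ∀ y', a (D.φ w (i y') + D.δ (i y')) = 0} ≤ 2 ^ κ / 4 ^ R := by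
    intro a ha
    -- the homogeneous set
    set g : V →ₗ[ZMod 2] Du V := D.φ.compr₂ a with hg
    have hgx : ∀ x y, g x y = a (D.φ x y) := fun x y => rfl
    set S : Submodule (ZMod 2) (Du V) := LinearMap.ker i.dualMap with hS
    have hmem : ∀ x : V, x ∈ S.comap g ↔ ∀ y', a (D.φ x (i y')) = 0 := by
      intro x
      rw [Submodule.mem_comap, hS, LinearMap.mem_ker]
      constructor
      · intro h y'
        exact LinearMap.congr_fun h y'
      · intro h
        exact LinearMap.ext h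
    have hSdim : finrank (ZMod 2) S ≤ κ := by
      have h1 := LinearMap.finrank_range_add_finrank_ker i.dualMap
      have h2 : LinearMap.range i.dualMap = ⊤ :=
        LinearMap.range_eq_top.2 (LinearMap.dualMap_surjective_iff.2 hi)
      rw [h2, finrank_top, Subspace.dual_finrank_eq, Subspace.dual_finrank_eq] at h1
      have h3 : finrank (ZMod 2) S = finrank (ZMod 2) (LinearMap.ker i.dualMap) := rfl
      have h4 : rk V = finrank (ZMod 2) V := rfl
      have h5 : rk W = finrank (ZMod 2) W := rfl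
      omega
    have hcom := da1a_comap g S
    have hker : (4 : ℝ) ^ R * dn ((LinearMap.ker g : Submodule (ZMod 2) V) : Set V) ≤ 1 := by
      have h1 := hR a ha
      have h2 : {x : V | ∀ y, a (D.φ x y) = 0} =
          ((LinearMap.ker g : Submodule (ZMod 2) V) : Set V) := by
        ext x
        rw [Set.mem_ofPred_eq, SetLike.mem_coe, LinearMap.mem_ker]
        constructor
        · intro h
          exact LinearMap.ext h
        · intro h y
          exact LinearMap.congr_fun h y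
      rwa [h2] at h1
    have hK : dn ((S.comap g : Submodule (ZMod 2) V) : Set V) ≤ 2 ^ κ / 4 ^ R := by
      rw [da1a_dn_sub] at hker ⊢
      have h4 : (0 : ℝ) < 4 ^ R := by positivity
      have h5 : (2 : ℝ) ^ finrank (ZMod 2) (S.comap g) ≤
          2 ^ κ * 2 ^ finrank (ZMod 2) (LinearMap.ker g) := by
        rw [← pow_add]
        exact pow_le_pow_right₀ (by norm_num) (by omega)
      rw [le_div_iff₀ h4]
      calc (2 : ℝ) ^ finrank (ZMod 2) (S.comap g) / 2 ^ rk V * 4 ^ R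
          ≤ (2 ^ κ * 2 ^ finrank (ZMod 2) (LinearMap.ker g)) / 2 ^ rk V * 4 ^ R := by
            refine mul_le_mul_of_nonneg_right ?_ h4.le
            exact div_le_div_of_nonneg_right h5 (by positivity)
        _ = 2 ^ κ * (4 ^ R * (2 ^ finrank (ZMod 2) (LinearMap.ker g) / 2 ^ rk V)) := by ring
        _ ≤ 2 ^ κ * 1 := mul_le_mul_of_nonneg_left hker (by positivity)
        _ = 2 ^ κ := mul_one _
    by_cases hne : ∃ w₀ : V, ∀ y', a (D.φ w₀ (i y') + D.δ (i y')) = 0
    · obtain ⟨w₀, hw₀⟩ := hne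
      rw [da1a_dn_shift (B := ((S.comap g : Submodule (ZMod 2) V) : Set V)) w₀]
      · exact hK
      · intro v
        rw [Set.mem_ofPred_eq, SetLike.mem_coe, hmem]
        refine forall_congr' fun y' => ?_
        have h1 := hw₀ y'
        have h2 : a (D.φ (v + w₀) (i y')) = a (D.φ v (i y') + D.δ (i y')) +
            a (D.φ w₀ (i y') + D.δ (i y')) := by
          rw [← map_add, map_add D.φ, LinearMap.add_apply]
          congr 1
          have h3 := add_self (D.δ (i y'))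
          calc D.φ v (i y') + D.φ w₀ (i y') = D.φ v (i y') + D.φ w₀ (i y') + 0 := by rw [add_zero]
            _ = D.φ v (i y') + D.φ w₀ (i y') + (D.δ (i y') + D.δ (i y')) := by rw [h3]
            _ = _ := by abel
        rw [h2, h1, add_zero]
    · have h1 : {w : V | ∀ y', a (D.φ w (i y') + D.δ (i y')) = 0} = ∅ := by
        ext w
        simp only [Set.mem_ofPred_eq, Set.mem_empty_iff_false, iff_false]
        exact fun h => hne ⟨w, h⟩
      rw [h1]
      have h2 : dn (∅ : Set V) ≤ 2 ^ κ / 4 ^ R := by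
        rw [dn_eq_card]
        simp only [Nat.card_eq_fintype_card, Fintype.card_eq_zero, Nat.cast_zero, zero_div]
        positivity
      exact h2
  -- union bound
  have h1 : dn {w : V | ∃ a : Du M, a ≠ 0 ∧ ∀ y', a (D.φ w (i y') + D.δ (i y')) = 0} ≤
      av fun w => su fun a : Du M =>
        ind {w : V | a ≠ 0 ∧ ∀ y', a (D.φ w (i y') + D.δ (i y')) = 0} w := by
    refine av_le_av fun w => ?_
    by_cases hw : ∃ a : Du M, a ≠ 0 ∧ ∀ y', a (D.φ w (i y') + D.δ (i y')) = 0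
    · rw [ind_pos (A := {w : V | ∃ a : Du M, a ≠ 0 ∧ ∀ y', a (D.φ w (i y') + D.δ (i y')) = 0}) hw]
      obtain ⟨a, ha⟩ := hw
      have h2 := le_su (f := fun a : Du M =>
        ind {w : V | a ≠ 0 ∧ ∀ y', a (D.φ w (i y') + D.δ (i y')) = 0} w)
        (fun a => ind_nonneg _ _) a
      rwa [ind_pos (A := {w : V | a ≠ 0 ∧ ∀ y', a (D.φ w (i y') + D.δ (i y')) = 0}) ha] at h2
    · rw [ind_neg (A := {w : V | ∃ a : Du M, a ≠ 0 ∧ ∀ y', a (D.φ w (i y') + D.δ (i y')) = 0}) hw]
      exact su_nonneg fun a => ind_nonneg _ _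
  rw [da1a_av_su] at h1
  refine h1.trans ?_
  have h2 : (su fun a : Du M => av fun w : V =>
      ind {w : V | a ≠ 0 ∧ ∀ y', a (D.φ w (i y') + D.δ (i y')) = 0} w) ≤
      su fun _ : Du M => (2 : ℝ) ^ κ / 4 ^ R := by
    refine su_le_su fun a => ?_
    by_cases ha : a = 0
    · have h3 : {w : V | a ≠ 0 ∧ ∀ y', a (D.φ w (i y') + D.δ (i y')) = 0} = ∅ := by
        ext w
        simp [ha]
      rw [h3]
      have h4 : (ind (∅ : Set V)) = fun _ => 0 := funext fun x => ind_neg (Set.notMem_empty x)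
      rw [show (fun w : V => ind (∅ : Set V) w) = fun _ => 0 from h4]
      rw [av, su_const, mul_zero, zero_div]
      positivity
    · exact (dn_mono (A := {w : V | a ≠ 0 ∧ ∀ y', a (D.φ w (i y') + D.δ (i y')) = 0})
        (B := {w : V | ∀ y', a (D.φ w (i y') + D.δ (i y')) = 0}) fun w hw => hw.2).trans
        (hcst a ha)
  rw [su_const] at h2
  have h3 : nc (Du M) = nc M := by
    rw [nc_finrank, nc_finrank, Subspace.dual_finrank_eq]
  rw [h3] at h2
  rw [mul_div_assoc]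
  exact h2

/-- For non-exceptional `w` and a nonempty fibre `Y = {y : T_w y = t}` the cosets `v + i W` meeting
`Y` have density at least `1 / |L|`: this set of `v` is a translate of `ker T_w + i W`, whose
annihilator consists of the functionals `(a,b) ∘ T_w` vanishing on `i W`; among these `b = 0` forces
`a = 0`, so there are at most `|L|` of them. -/
theorem cosets_meet (D : Dat V M L) (i : W →ₗ[ZMod 2] V) (w : V)
    (hw : ∀ a : Du M, (∀ y', a (D.φ w (i y') + D.δ (i y')) = 0) → a = 0) (y₀ : V) :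
    1 ≤ nc L * dn {v : V | ∃ y' : W, D.T w (v + i y') = D.T w y₀} := by
  classical
  set N := M × L
  set T : V →ₗ[ZMod 2] M × L := D.T w with hT
  set S : Submodule (ZMod 2) (M × L) := LinearMap.range (T.comp i) with hS
  -- the first component of `T ∘ i` is surjective
  have hsurj : LinearMap.range ((LinearMap.fst (ZMod 2) M L).comp (T.comp i)) = ⊤ := by
    by_contra hne
    obtain ⟨a, ha, hle⟩ := Submodule.exists_le_ker_of_lt_top _ (lt_top_iff_ne_top.2 hne)
    apply ha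
    apply hw a
    intro y'
    have h1 : (LinearMap.fst (ZMod 2) M L).comp (T.comp i) y' ∈
        LinearMap.range ((LinearMap.fst (ZMod 2) M L).comp (T.comp i)) := ⟨y', rfl⟩
    exact LinearMap.mem_ker.1 (hle h1)
  have hSdim : rk M ≤ finrank (ZMod 2) S := by
    have h1 : LinearMap.range ((LinearMap.fst (ZMod 2) M L).comp (T.comp i)) =
        S.map (LinearMap.fst (ZMod 2) M L) := LinearMap.range_comp _ _
    have h2 := Submodule.finrank_map_le (LinearMap.fst (ZMod 2) M L) S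
    rw [← h1, hsurj, finrank_top] at h2
    exact h2
  have hquot : finrank (ZMod 2) (V ⧸ S.comap T) ≤ finrank (ZMod 2) ((M × L) ⧸ S) := by
    refine LinearMap.finrank_le_finrank_of_injective (f := Submodule.mapQ (S.comap T) S T le_rfl) ?_
    rw [← LinearMap.ker_eq_bot, eq_bot_iff]
    intro x hx
    obtain ⟨v, rfl⟩ := Submodule.Quotient.mk_surjective _ x
    rw [LinearMap.mem_ker, Submodule.mapQ_apply, Submodule.Quotient.mk_eq_zero] at hx
    rw [Submodule.mem_bot, Submodule.Quotient.mk_eq_zero]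
    exact hx
  have e1 := Submodule.finrank_quotient_add_finrank (S.comap T)
  have e2 := Submodule.finrank_quotient_add_finrank S
  have e3 : finrank (ZMod 2) (M × L) = rk M + rk L := Module.finrank_prod
  have hdim : rk V ≤ rk L + finrank (ZMod 2) (S.comap T) := by
    have : rk V = finrank (ZMod 2) V := rfl
    omega
  have hset : dn {v : V | ∃ y' : W, T (v + i y') = T y₀} =
      dn ((S.comap T : Submodule (ZMod 2) V) : Set V) := by
    refine da1a_dn_shift y₀ fun v => ?_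
    rw [Set.mem_ofPred_eq, SetLike.mem_coe, Submodule.mem_comap, hS, LinearMap.mem_range]
    refine exists_congr fun y' => ?_
    rw [map_add, map_add, LinearMap.comp_apply]
    constructor
    · intro h
      rw [← h, ← add_assoc, add_self, zero_add]
    · intro h
      rw [h, ← add_assoc, add_self, zero_add]
  rw [hset, da1a_dn_sub, nc_finrank, ← mul_div_assoc, ← pow_add, one_le_div (by positivity)]
  exact pow_le_pow_right₀ (by norm_num) hdim

/-- The average of `|M| 1[q = 0]` over a nonempty fibre of a linear map `S : W → N` is at most `2`, if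
`q` (a quadratic map on `W`) has rank `HR R'` with `R' ≥ rk N + rk M + 1`: restrict `q` to the coset
of `ker S` (`IsQ.pull`, `HR.pull`) and use `av_nu`. -/
theorem fibre_nu_le {N : Type} [AddCommGroup N] [Module (ZMod 2) N] [Finite N] {q : W → M}
    {φ : Bil W M} (hq : IsQ q φ) {R : ℕ} (hR : HR φ R) (S : W →ₗ[ZMod 2] N) (t : N)
    (h : rk N + rk M + 1 ≤ R) :
    (av fun y => ind {y | S y = t} y * nu q y) ≤ 2 * dn {y | S y = t} := by
  classical
  by_cases hne : ∃ y₀ : W, S y₀ = t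
  · obtain ⟨y₀, hy₀⟩ := hne
    set K : Submodule (ZMod 2) W := LinearMap.ker S with hK
    -- the fibre is a coset of the kernel
    have key : ∀ f : W → ℝ, su (fun y => ind {y | S y = t} y * f y) =
        su (fun z : K => f (y₀ + z)) := by
      intro f
      have := Fintype.ofFinite W
      have := Fintype.ofFinite K
      rw [su_eq, su_eq]
      have h1 : ∀ y : W, ind {y | S y = t} y * f y = if S y = t then f y else 0 := by
        intro y
        by_cases hy : S y = t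
        · rw [ind_pos (A := {y | S y = t}) hy, one_mul, if_pos hy]
        · rw [ind_neg (A := {y | S y = t}) hy, zero_mul, if_neg hy]
      simp only [h1]
      rw [← Finset.sum_filter]
      symm
      refine Finset.sum_bij (fun z _ => y₀ + (z : W)) ?_ ?_ ?_ ?_
      · intro z _
        rw [Finset.mem_filter]
        refine ⟨Finset.mem_univ _, ?_⟩
        rw [map_add, hy₀, LinearMap.mem_ker.1 z.2, add_zero]
      · intro z _ z' _ h
        exact Subtype.ext (add_left_cancel h)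
      · intro y hy
        rw [Finset.mem_filter] at hy
        refine ⟨⟨y₀ + y, ?_⟩, Finset.mem_univ _, ?_⟩
        · rw [hK, LinearMap.mem_ker, map_add, hy₀, hy.2, add_self]
        · show y₀ + (y₀ + y) = y
          rw [← add_assoc, add_self, zero_add]
      · intro z _
        rfl
    have hdn : dn {y | S y = t} = nc K / nc W := by
      have h1 := key (fun _ => 1)
      simp only [mul_one] at h1
      rw [su_const, mul_one] at h1
      rw [dn, av]
      rw [show (su fun y => ind {y | S y = t} y) = su (ind {y | S y = t}) from rfl] at h1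
      rw [h1]
    have hrk : rk W ≤ rk K + rk N := by
      have h1 := LinearMap.finrank_range_add_finrank_ker S
      have h2 := Submodule.finrank_le (LinearMap.range S)
      have h3 : rk W = finrank (ZMod 2) W := rfl
      have h4 : rk K = finrank (ZMod 2) (LinearMap.ker S) := rfl
      have h5 : rk N = finrank (ZMod 2) N := rfl
      omega
    have hHR := hR.pull K.subtype K.injective_subtype hrk (by omega)
    have hQ := hq.pull K.subtype y₀
    have hav := av_nu hQ hHR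
    have her : er M 1 (R - rk N) ≤ 1 := by
      rw [er, pow_one, nc_finrank, ← pow_succ', div_le_one (by positivity)]
      refine pow_le_pow_right₀ (by norm_num) ?_
      have h5 : rk M = finrank (ZMod 2) M := rfl
      omega
    have hle : av (nu fun y : K => q (y₀ + K.subtype y)) ≤ 2 := by
      have := (abs_le.1 (hav.trans her)).2
      linarith
    have hposK : 0 < nc K := nc_pos
    have hposW : 0 < nc W := by
      have : Nonempty W := ⟨y₀⟩
      exact nc_pos
    have hmain : (av fun y => ind {y | S y = t} y * nu q y) =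
        dn {y | S y = t} * av (nu fun y : K => q (y₀ + K.subtype y)) := by
      have h1 : (fun z : K => nu q (y₀ + (z : W))) = nu fun y : K => q (y₀ + K.subtype y) := by
        funext z
        unfold nu
        congr 1
      rw [hdn, av, key (nu q), h1, av]
      field_simp
    rw [hmain, mul_comm]
    exact mul_le_mul_of_nonneg_right hle (dn_nonneg _)
  · have h1 : ∀ y : W, ind {y | S y = t} y * nu q y = 0 * nu q y := by
      intro y
      rw [ind_neg (A := {y | S y = t}) fun h => hne ⟨y, h⟩]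
    simp only [h1]
    rw [av_mul_left, zero_mul]
    exact mul_nonneg (by norm_num) (dn_nonneg _)

end

end G2
end

section

/-!
# Job DA1b: restriction of data (RES)
-/

set_option autoImplicit false

open Module

namespace G2

section
variable {V M L W : Type} [AddCommGroup V] [Module (ZMod 2) V] [Finite V]
  [AddCommGroup M] [Module (ZMod 2) M] [Finite M] [AddCommGroup L] [Module (ZMod 2) L] [Finite L]
  [AddCommGroup W] [Module (ZMod 2) W] [Finite W]

/-- the restricted condition, in terms of `v` and `w` -/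
def da1b_Q (D : Dat V M L) (i : W →ₗ[ZMod 2] V) (θ' : ℝ) (v w : V) : Prop :=
  ∃ s : M × L, (∃ y' : W, D.T w (v + i y') = s) ∧
    θ' * dn {y' : W | D.T w (v + i y') = s} ≤
      av fun y' : W => ind {y' : W | D.T w (v + i y') = s} y' *
        (nc M * (ind D.F1 (v + i y') * ind D.F2 (v + i y' + w)))

omit [Finite V] [Finite M] [Finite L] in
theorem da1b_Q_res (D : Dat V M L) (i : W →ₗ[ZMod 2] V) (θ' : ℝ) (v w₂ : V) (w' : W)
    [Finite V] [Finite M] [Finite L]
    (h : da1b_Q D i θ' v (w₂ + i w')) : (D.res i v w₂).Gd θ' w' := by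
  obtain ⟨s, ⟨y₀, hy₀⟩, hs⟩ := h
  have key : ∀ y' : W, ((D.res i v w₂).T w' y' = s + D.T (w₂ + i w') v) ↔
      D.T (w₂ + i w') (v + i y') = s := by
    intro y'
    rw [res_T, map_add]
    constructor
    · intro h1
      rw [h1, add_comm s, ← add_assoc, add_self, zero_add]
    · intro h1
      rw [← h1, add_comm (D.T (w₂ + i w') v), add_assoc, add_self, add_zero]
  have hset : {y' : W | (D.res i v w₂).T w' y' = s + D.T (w₂ + i w') v} =
      {y' : W | D.T (w₂ + i w') (v + i y') = s} := Set.ext fun y' => key y'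
  refine ⟨s + D.T (w₂ + i w') v, ⟨y₀, (key y₀).2 hy₀⟩, ?_⟩
  rw [hset]
  refine hs.trans (le_of_eq ?_)
  congr 1
  funext y'
  congr 3
  · have e : v + i y' + (w₂ + i w') = v + w₂ + i (y' + w') := by
      rw [map_add]; abel
    rw [e]
    rfl

/-- a non-exceptional `w` with `D.Gd θ w` -/
theorem da1b_one (D : Dat V M L) (i : W →ₗ[ZMod 2] V) (θ θ' : ℝ) (w : V) (hG : D.Gd θ w)
    (hne : ∀ a : Du M, (∀ y', a (D.φ w (i y') + D.δ (i y')) = 0) → a = 0) {R' : ℕ}
    (hR : HR (pull D.φ i) R') (hR' : rk M + rk L + rk M + 1 ≤ R') (hθ' : 0 ≤ θ') (hθ : θ' ≤ θ) :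
    θ - θ' ≤ 2 * nc L * dn {v | da1b_Q D i θ' v w} := by
  obtain ⟨s, ⟨y₀, hy₀⟩, hs⟩ := hG
  set S : W →ₗ[ZMod 2] (M × L) := (D.T w).comp i with hS
  set P : Set V := {v | ∃ y' : W, D.T w (v + i y') = s} with hP
  set c : ℝ := dn (LinearMap.ker S : Set W) with hc
  have hc0 : 0 < c := dn_pos ⟨0, (LinearMap.ker S).zero_mem⟩
  set g : V → ℝ := fun y => ind {y | D.T w y = s} y * (nc M * (ind D.F1 y * ind D.F2 (y + w)))
    with hg
  have hfib : ∀ v, {y' : W | D.T w (v + i y') = s} = {y' : W | S y' = s + D.T w v} := by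
    intro v
    ext y'
    simp only [Set.mem_ofPred_eq, map_add, hS, LinearMap.comp_apply]
    constructor
    · intro h1
      rw [← h1, add_comm (D.T w v), add_assoc, add_self, add_zero]
    · intro h1
      rw [h1, add_comm s, ← add_assoc, add_self, zero_add]
  have hb : ∀ v, dn {y' : W | D.T w (v + i y') = s} = c * ind P v := by
    intro v
    by_cases hv : v ∈ P
    · obtain ⟨y₁, hy₁⟩ := hv
      have h1 : S y₁ = s + D.T w v := by
        have : y₁ ∈ {y' : W | D.T w (v + i y') = s} := hy₁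
        rw [hfib] at this
        exact this
      rw [ind_pos (A := P) ⟨y₁, hy₁⟩, mul_one, hfib, ← h1, dn_fibre_ker]
    · rw [ind_neg hv, mul_zero]
      have h1 : {y' : W | D.T w (v + i y') = s} = ∅ := by
        rw [Set.eq_empty_iff_forall_notMem]
        intro y' hy'
        exact hv ⟨y', hy'⟩
      have h3 : ind (∅ : Set W) = fun _ => 0 := funext fun x => ind_neg (Set.notMem_empty x)
      rw [h1, dn, h3, av_const]
  have ha : ∀ v, (av fun y' : W => g (v + i y')) ≤ 2 * (c * ind P v) := by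
    intro v
    rw [← hb v, hfib v]
    refine le_trans ?_ (fibre_nu_le (D.isQ1.pull i v) hR S (s + D.T w v) ?_)
    · refine av_le_av fun y' => ?_
      simp only [hg]
      have e1 : ind {y | D.T w y = s} (v + i y') = ind {y | S y = s + D.T w v} y' := by
        have h2 : (v + i y' ∈ {y | D.T w y = s}) ↔ (y' ∈ {y | S y = s + D.T w v}) := by
          rw [← hfib v]; rfl
        by_cases h3 : y' ∈ {y | S y = s + D.T w v}
        · rw [ind_pos h3, ind_pos (h2.2 h3)]
        · rw [ind_neg h3, ind_neg fun h4 => h3 (h2.1 h4)]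
      rw [e1]
      refine mul_le_mul_of_nonneg_left ?_ (ind_nonneg _ _)
      unfold nu
      refine mul_le_mul_of_nonneg_left ?_ (nc_nonneg M)
      by_cases h4 : v + i y' ∈ D.F1
      · rw [ind_pos h4, one_mul,
          ind_pos (A := {y | D.q1 (v + i y) = 0}) (x := y') (D.sub1 _ h4)]
        exact ind_le_one _ _
      · rw [ind_neg h4, zero_mul]
        exact ind_nonneg _ _
    · have : rk (M × L) = rk M + rk L := Module.finrank_prod
      rw [this]
      exact hR'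
  have hmain : ∀ v, (av fun y' : W => g (v + i y')) ≤
      θ' * c * ind P v + 2 * c * ind {v | da1b_Q D i θ' v w} v := by
    intro v
    by_cases hv : v ∈ P
    · by_cases h1 : θ' * dn {y' : W | D.T w (v + i y') = s} ≤ av fun y' : W => g (v + i y')
      · have hQ : v ∈ {v | da1b_Q D i θ' v w} := ⟨s, hv, h1⟩
        rw [ind_pos hQ, ind_pos hv]
        have h2 := ha v
        rw [ind_pos hv] at h2
        have h3 : 0 ≤ θ' * c := mul_nonneg hθ' hc0.le
        linarith
      · have h2 := (not_le.1 h1).le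
        rw [hb v] at h2
        have h3 : 0 ≤ 2 * c * ind {v | da1b_Q D i θ' v w} v :=
          mul_nonneg (by linarith) (ind_nonneg _ _)
        rw [ind_pos hv] at h2 ⊢
        linarith
    · have h2 := ha v
      rw [ind_neg hv] at h2 ⊢
      have h3 : 0 ≤ 2 * c * ind {v | da1b_Q D i θ' v w} v :=
        mul_nonneg (by linarith) (ind_nonneg _ _)
      linarith
  have h1 := av_le_av hmain
  rw [av_cosets_map i g, av_add, av_mul_left, av_mul_left] at h1
  have h2 : dn {y | D.T w y = s} = c * dn P := by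
    rw [dn, ← av_cosets_map i (ind {y | D.T w y = s}), dn, ← av_mul_left]
    congr 1
    funext v
    rw [← hb v, dn]
    rfl
  rw [h2] at hs
  have h3 : θ * (c * dn P) ≤ θ' * c * dn P + 2 * c * dn {v | da1b_Q D i θ' v w} :=
    hs.trans h1
  have h4 : (θ - θ') * dn P ≤ 2 * dn {v | da1b_Q D i θ' v w} := by
    have h5 : c * ((θ - θ') * dn P) ≤ c * (2 * dn {v | da1b_Q D i θ' v w}) := by nlinarith
    exact le_of_mul_le_mul_left h5 hc0
  have h5 : 1 ≤ nc L * dn P := by
    have h6 := cosets_meet D i w hne y₀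
    rw [hy₀] at h6
    exact h6
  have h6 : 0 ≤ nc L := nc_nonneg L
  have h7 : 0 ≤ θ - θ' := by linarith
  calc θ - θ' = (θ - θ') * 1 := (mul_one _).symm
    _ ≤ (θ - θ') * (nc L * dn P) := mul_le_mul_of_nonneg_left h5 h7
    _ = nc L * ((θ - θ') * dn P) := by ring
    _ ≤ nc L * (2 * dn {v | da1b_Q D i θ' v w}) := mul_le_mul_of_nonneg_left h4 h6
    _ = 2 * nc L * dn {v | da1b_Q D i θ' v w} := by ring

end

/-- (RES).  Take a non-exceptional `w` with `D.Gd θ w`, fibre `Y = {T_w = t_w}`.  The nonempty sets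
`{y' : v + i y' ∈ Y}` are fibres of `T_w ∘ i` (`res_T`) and have the same density `c`; let `A_v` be the
average of `|M| 1_{F1}(v + i y') 1_{F2}(v + i y' + w)` over it; `0 ≤ A_v ≤ 2` by `fibre_nu_le`, and the
mean of `A_v` over the `v` with nonempty intersection is at least `θ`.  So a proportion at least
`(θ - θ')/2` of these `v`, hence a proportion `≥ (θ - θ') / (2 |L|)` of all `v` (`cosets_meet`) has
`A_v ≥ θ'`.  Average over all `w` (the exceptional ones have density `≤ 2^(-t)/2 ≤ dn (Gd) / 2`) and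
choose `v`; then choose the coset `w₂ + i W` by `av_cosets_map`.  For `w = w₂ + i w'` the statement
`A_v ≥ θ'` is `(D.res i v w₂).Gd θ' w'`. -/
theorem dat_res : ∃ C : ℕ, ∀ (t κ R : ℕ) (V M L W : Type) [AddCommGroup V] [Module (ZMod 2) V]
    [Finite V] [AddCommGroup M] [Module (ZMod 2) M] [Finite M] [AddCommGroup L]
    [Module (ZMod 2) L] [Finite L] [AddCommGroup W] [Module (ZMod 2) W] [Finite W]
    (D : Dat V M L) (i : W →ₗ[ZMod 2] V) (θ θ' : ℝ), Function.Injective i → rk V ≤ rk W + κ →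
    HR D.φ R → pw C (rk M + t + κ) ≤ R → rk L ≤ t → 0 ≤ θ' → (1 / 2 : ℝ) ^ t ≤ θ - θ' →
    (1 / 2 : ℝ) ^ t ≤ dn {w | D.Gd θ w} →
    ∃ v w₂ : V, dn {w | D.Gd θ w} * (θ - θ') / (4 * nc L) ≤ dn {w' | (D.res i v w₂).Gd θ' w'} := by
  refine ⟨2, ?_⟩
  intro t κ R V M L W _ _ _ _ _ _ _ _ _ _ _ _ D i θ θ' hi hκ hR hpw hL hθ' hθ hG
  have hR1 : 2 * rk M + t + κ + 1 ≤ R := by
    refine le_trans ?_ hpw
    unfold pw
    nlinarith [Nat.zero_le (rk M + t + κ)]
  have hθ2 : 0 ≤ θ - θ' := le_trans (by positivity) hθ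
  set G : Set V := {w | D.Gd θ w} with hGdef
  set E : Set V := {w : V | ∃ a : Du M, a ≠ 0 ∧ ∀ y', a (D.φ w (i y') + D.δ (i y')) = 0} with hE
  have hncL : 0 < nc L := nc_pos
  -- the exceptional set is small
  have hE1 : dn E ≤ dn G / 2 := by
    refine le_trans (exc_small D hR i hi hκ) (le_trans ?_ (div_le_div_of_nonneg_right hG (by norm_num)))
    rw [nc_finrank, div_le_div_iff₀ (by positivity) (by norm_num), one_div, inv_pow,
      inv_mul_eq_div, le_div_iff₀ (by positivity)]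
    have e4 : (4 : ℝ) ^ R = 2 ^ (2 * R) := by rw [pow_mul]; norm_num
    rw [e4]
    calc (2 : ℝ) ^ finrank (ZMod 2) M * 2 ^ κ * 2 * 2 ^ t = 2 ^ (rk M + κ + 1 + t) := by
          rw [pow_add, pow_add, pow_add, pow_one]
      _ ≤ 2 ^ (2 * R) := pow_le_pow_right₀ (by norm_num) (by omega)
  -- the good ones outside the exceptional set
  have hone : ∀ w, (θ - θ') * (ind G w - ind E w) ≤
      2 * nc L * av fun v => ind {v | da1b_Q D i θ' v w} v := by
    intro w
    have hnn : 0 ≤ 2 * nc L * av fun v => ind {v | da1b_Q D i θ' v w} v :=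
      mul_nonneg (by linarith) (av_nonneg fun v => ind_nonneg _ _)
    by_cases hwE : w ∈ E
    · rw [ind_pos hwE]
      have h1 : (θ - θ') * (ind G w - 1) ≤ 0 :=
        mul_nonpos_of_nonneg_of_nonpos hθ2 (by linarith [ind_le_one G w])
      linarith
    · rw [ind_neg hwE, sub_zero]
      by_cases hwG : w ∈ G
      · rw [ind_pos hwG, mul_one]
        refine da1b_one D i θ θ' w hwG ?_ (R' := R - κ) (hR.pull i hi hκ (by omega)) (by omega) hθ'
          (by linarith)
        intro a ha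
        by_contra h
        exact hwE ⟨a, h, ha⟩
      · rw [ind_neg hwG, mul_zero]
        exact hnn
  have h1 := av_le_av hone
  rw [av_mul_left, av_mul_left, av_sub, av_comm] at h1
  have h2 : (θ - θ') * (dn G / 2) ≤
      2 * nc L * av fun v => av fun w => ind {v | da1b_Q D i θ' v w} v := by
    refine le_trans (mul_le_mul_of_nonneg_left ?_ hθ2) h1
    show dn G / 2 ≤ dn G - dn E
    linarith
  obtain ⟨v, hv⟩ := exists_ge_av fun v => av fun w => ind {v | da1b_Q D i θ' v w} v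
  rw [← av_cosets_map i fun w => ind {v | da1b_Q D i θ' v w} v] at hv
  obtain ⟨w₂, hw₂⟩ := exists_ge_av fun w₂ => av fun w' : W =>
    ind {v | da1b_Q D i θ' v (w₂ + i w')} v
  refine ⟨v, w₂, ?_⟩
  have h3 : (av fun w' : W => ind {v | da1b_Q D i θ' v (w₂ + i w')} v) ≤
      dn {w' | (D.res i v w₂).Gd θ' w'} := by
    refine av_le_av fun w' => ?_
    by_cases h : da1b_Q D i θ' v (w₂ + i w')
    · rw [ind_pos (A := {v | da1b_Q D i θ' v (w₂ + i w')}) h,
        ind_pos (A := {w' | (D.res i v w₂).Gd θ' w'}) (da1b_Q_res D i θ' v w₂ w' h)]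
    · rw [ind_neg (A := {v | da1b_Q D i θ' v (w₂ + i w')}) h]
      exact ind_nonneg _ _
  have h4 : (av fun v => av fun w => ind {v | da1b_Q D i θ' v w} v) ≤
      dn {w' | (D.res i v w₂).Gd θ' w'} := (hv.trans hw₂).trans h3
  rw [div_le_iff₀ (by positivity)]
  have h5 : 2 * nc L * (av fun v => av fun w => ind {v | da1b_Q D i θ' v w} v) ≤
      2 * nc L * dn {w' | (D.res i v w₂).Gd θ' w'} := mul_le_mul_of_nonneg_left h4 (by positivity)
  nlinarith

end G2
end

section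

/-!
# Job DA2b: removing a condition of low rank (DROP)
-/

set_option autoImplicit false

open Module

namespace G2

theorem da2b_ind {α β : Type} {A : Set α} {B : Set β} {x : α} {y : β} (h : x ∈ A ↔ y ∈ B) :
    ind A x = ind B y := by
  by_cases hx : x ∈ A
  · rw [ind_pos hx, ind_pos (h.1 hx)]
  · rw [ind_neg hx, ind_neg fun hy => hx (h.2 hy)]

section
variable {V M L W : Type} [AddCommGroup V] [Module (ZMod 2) V] [Finite V]
  [AddCommGroup M] [Module (ZMod 2) M] [Finite M] [AddCommGroup L] [Module (ZMod 2) L] [Finite L]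
  [AddCommGroup W] [Module (ZMod 2) W] [Finite W]

/-- transport along a linear isomorphism keeps the good elements -/
theorem da2b_equiv_gd (D : Dat V M L) (e : W ≃ₗ[ZMod 2] V) (θ : ℝ) (w' : W)
    (h : D.Gd θ (e w')) : (D.res (e : W →ₗ[ZMod 2] V) 0 0).Gd θ w' := by
  obtain ⟨t, ⟨y, hy⟩, ht⟩ := h
  have hT : ∀ y', (D.res (e : W →ₗ[ZMod 2] V) 0 0).T w' y' = D.T (e w') (e y') := by
    intro y'
    rw [res_T]
    simp
  refine ⟨t, ⟨e.symm y, ?_⟩, ?_⟩
  · rw [hT, e.apply_symm_apply, hy]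
  · have e1 : dn {y' | (D.res (e : W →ₗ[ZMod 2] V) 0 0).T w' y' = t} =
        dn {y | D.T (e w') y = t} := by
      unfold dn
      rw [← av_equiv e.toEquiv (ind {y | D.T (e w') y = t})]
      congr 1
      funext y'
      refine da2b_ind ?_
      show _ = t ↔ _ = t
      rw [hT]
      rfl
    have e2 : (av fun y' => ind {y' | (D.res (e : W →ₗ[ZMod 2] V) 0 0).T w' y' = t} y' *
        (nc M * (ind (D.res (e : W →ₗ[ZMod 2] V) 0 0).F1 y' *
          ind (D.res (e : W →ₗ[ZMod 2] V) 0 0).F2 (y' + w')))) =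
        av fun y => ind {y | D.T (e w') y = t} y *
          (nc M * (ind D.F1 y * ind D.F2 (y + e w'))) := by
      rw [← av_equiv e.toEquiv (fun y => ind {y | D.T (e w') y = t} y *
          (nc M * (ind D.F1 y * ind D.F2 (y + e w'))))]
      congr 1
      funext y'
      congr 1
      · refine da2b_ind ?_
        show _ = t ↔ _ = t
        rw [hT]
        rfl
      · congr 1
        congr 1
        · refine da2b_ind ?_
          show (0 : V) + e y' ∈ D.F1 ↔ e y' ∈ D.F1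
          rw [zero_add]
        · refine da2b_ind ?_
          show (0 : V) + 0 + e (y' + w') ∈ D.F2 ↔ e y' + e w' ∈ D.F2
          rw [zero_add, zero_add, map_add]
    rw [e1, e2]
    exact ht

theorem da2b_dn_equiv (D : Dat V M L) (e : W ≃ₗ[ZMod 2] V) (θ : ℝ) :
    dn {w | D.Gd θ w} ≤ dn {w' | (D.res (e : W →ₗ[ZMod 2] V) 0 0).Gd θ w'} := by
  unfold dn
  rw [← av_equiv e.toEquiv (ind {w | D.Gd θ w})]
  refine av_le_av fun w' => ?_
  by_cases h : e w' ∈ {w | D.Gd θ w}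
  · have h2 : w' ∈ {w' | (D.res (e : W →ₗ[ZMod 2] V) 0 0).Gd θ w'} := da2b_equiv_gd D e θ w' h
    rw [ind_pos h2]
    exact ind_le_one _ _
  · have h2 : ind {w | D.Gd θ w} (e.toEquiv w') = 0 := ind_neg h
    rw [h2]
    exact ind_nonneg _ _

end

section
variable {L : Type} [AddCommGroup L] [Module (ZMod 2) L] [Finite L]

/-- a complement of the kernel of a nonzero functional, in coordinates -/
theorem da2b_proj (b : Du L) (hb : b ≠ 0) :
    ∃ (m : ℕ) (p : L →ₗ[ZMod 2] (Fin m → ZMod 2)), m + 1 = rk L ∧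
      ∀ z, b z = 0 → p z = 0 → z = 0 := by
  have hfin : Module.Finite (ZMod 2) L := Module.Finite.of_finite
  obtain ⟨π, hπ⟩ := LinearMap.exists_leftInverse_of_injective (LinearMap.ker b).subtype
    (Submodule.ker_subtype _)
  refine ⟨rk (LinearMap.ker b),
    (Module.finBasis (ZMod 2) (LinearMap.ker b)).equivFun.toLinearMap.comp π, ?_, ?_⟩
  · exact Module.Dual.finrank_ker_add_one_of_ne_zero hb
  · intro z hz hpz
    have h1 : π z = 0 := by
      have h2 : (Module.finBasis (ZMod 2) (LinearMap.ker b)).equivFun (π z) = 0 := hpz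
      exact (LinearEquiv.map_eq_zero_iff _).1 h2
    have h3 : π ((LinearMap.ker b).subtype ⟨z, hz⟩) = ⟨z, hz⟩ := by
      have := LinearMap.congr_fun hπ ⟨z, hz⟩
      simpa using this
    have h4 : π z = ⟨z, hz⟩ := h3
    rw [h1] at h4
    exact (congrArg Subtype.val h4).symm

end

section
variable {V : Type} [AddCommGroup V] [Module (ZMod 2) V] [Finite V]

theorem da2b_codim (ξ : Du V) : rk V ≤ rk (LinearMap.ker ξ) + 1 := by
  have hfin : Module.Finite (ZMod 2) V := Module.Finite.of_finite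
  have h1 := LinearMap.finrank_range_add_finrank_ker ξ
  have h2 : finrank (ZMod 2) (LinearMap.range ξ) ≤ 1 := by
    have := Submodule.finrank_le (LinearMap.range ξ)
    simpa using this
  unfold rk
  omega

theorem da2b_codim_of_dn (K : Submodule (ZMod 2) V) (ρ : ℕ)
    (h : 1 < (4 : ℝ) ^ ρ * dn (K : Set V)) : rk V ≤ rk K + 2 * ρ := by
  have h1 := dn_submodule K
  have h2 : (0 : ℝ) < dn (K : Set V) := dn_pos ⟨0, K.zero_mem⟩
  by_contra hlt
  push Not at hlt
  have h3 : 2 * ρ ≤ rk V - rk K := by omega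
  have h4 : (4 : ℝ) ^ ρ ≤ 2 ^ (rk V - rk K) := by
    calc (4 : ℝ) ^ ρ = 2 ^ (2 * ρ) := by rw [pow_mul]; norm_num
      _ ≤ 2 ^ (rk V - rk K) := pow_le_pow_right₀ (by norm_num) h3
  have h5 : (4 : ℝ) ^ ρ * dn (K : Set V) ≤ 2 ^ (rk V - rk K) * dn (K : Set V) :=
    mul_le_mul_of_nonneg_right h4 h2.le
  linarith

end

theorem da2b_pw (C r t ρ R : ℕ) (h : pw (3 * C + 3) (r + t + ρ) ≤ R) :
    pw C (r + (t + 1) + 2 * ρ) ≤ R ∧ pw C (r + (3 * t + 3) + 1) ≤ R - 2 * ρ ∧ 2 * ρ ≤ R := by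
  set s := r + t + ρ with hs
  have h1 : pw C (r + (t + 1) + 2 * ρ) ≤ pw C (3 * s + 4) := pw_mono C (by omega)
  have h2 : pw C (r + (3 * t + 3) + 1) ≤ pw C (3 * s + 4) := pw_mono C (by omega)
  have h3 : pw C (3 * s + 4) ≤ pw (3 * C) s := by
    unfold pw
    rw [pow_mul]
    refine Nat.pow_le_pow_left ?_ C
    nlinarith [Nat.zero_le s, Nat.zero_le (s ^ 2), Nat.zero_le (s ^ 3)]
  have h4 : 2 * ρ ≤ pw 2 s := by
    unfold pw
    nlinarith [Nat.zero_le s]
  have h5 := pw_add (3 * C) 2 s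
  have h6 : 3 * C + 2 + 1 = 3 * C + 3 := by ring
  rw [h6] at h5
  have h7 := one_le_pw (3 * C) s
  refine ⟨by omega, by omega, by omega⟩

section
variable {V M L : Type} [AddCommGroup V] [Module (ZMod 2) V] [Finite V]
  [AddCommGroup M] [Module (ZMod 2) M] [Finite M] [AddCommGroup L] [Module (ZMod 2) L] [Finite L]

/-- last step: removal of the implied condition, and coordinates -/
theorem da2b_last (D : Dat V M L) (a : Du M) (b : Du L) (hb : b ≠ 0) (θ : ℝ)
    (hΦ : ∀ x, D.Φ x x = 0)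
    (hab : ∀ w y : V, b (D.Φ w y + D.μ y) = a (D.φ w y + D.δ y)) :
    ∃ (n m : ℕ) (i : (Fin n → ZMod 2) →ₗ[ZMod 2] V)
      (D' : Dat (Fin n → ZMod 2) M (Fin m → ZMod 2)) (v₁ v₂ : V), m + 1 = rk L ∧ rk V = n ∧
        D.Restr D' i v₁ v₂ ∧ (∀ x, D'.Φ x x = 0) ∧
        dn {w | D.Gd θ w} ≤ dn {w' | D'.Gd θ w'} := by
  obtain ⟨m, p, hm, hp⟩ := da2b_proj b hb
  have hfin : Module.Finite (ZMod 2) V := Module.Finite.of_finite
  have h3 : dn {w | D.Gd θ w} ≤ dn {w | (D.mapL p).Gd θ w} :=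
    dn_mono fun w hw => mapL_gd D a b p hp hab θ w hw
  let e : (Fin (rk V) → ZMod 2) ≃ₗ[ZMod 2] V := (Module.finBasis (ZMod 2) V).equivFun.symm
  have h4 := da2b_dn_equiv (D.mapL p) e θ
  have r3 : (D.mapL p).Restr ((D.mapL p).res e.toLinearMap 0 0) e.toLinearMap 0 (0 + 0) :=
    restr_res (D.mapL p) e.toLinearMap e.injective 0 0
  refine ⟨rk V, m, e.toLinearMap, (D.mapL p).res e.toLinearMap 0 0, 0, 0 + 0, hm,
    rfl, r3, ?_, h3.trans h4⟩
  intro x
  show p (D.Φ (e x) (e x)) = 0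
  rw [hΦ, map_zero]

/-- the data restricted to a subspace where `aφ + bΦ = 0` and then to the kernel of `ξ` -/
theorem da2b_second (D₁ : Dat V M L) (a : Du M) (b : Du L)
    (hK₁ : ∀ w y : V, a (D₁.φ w y) + b (D₁.Φ w y) = 0) (v' w₂' : V) :
    ∀ w y : LinearMap.ker (a.comp D₁.δ + b.comp D₁.μ),
      b ((D₁.res (LinearMap.ker (a.comp D₁.δ + b.comp D₁.μ)).subtype v' w₂').Φ w y +
        (D₁.res (LinearMap.ker (a.comp D₁.δ + b.comp D₁.μ)).subtype v' w₂').μ y) =
      a ((D₁.res (LinearMap.ker (a.comp D₁.δ + b.comp D₁.μ)).subtype v' w₂').φ w y +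
        (D₁.res (LinearMap.ker (a.comp D₁.δ + b.comp D₁.μ)).subtype v' w₂').δ y) := by
  intro w y
  refine (eq_of_add_eq_zero ?_).symm
  have e1 : (D₁.res (LinearMap.ker (a.comp D₁.δ + b.comp D₁.μ)).subtype v' w₂').Φ w y +
      (D₁.res (LinearMap.ker (a.comp D₁.δ + b.comp D₁.μ)).subtype v' w₂').μ y =
      D₁.Φ (w.1 + w₂') y.1 + D₁.μ y.1 := by
    have e1' : D₁.Φ w.1 y.1 + (D₁.Φ w₂' y.1 + D₁.μ y.1) = D₁.Φ (w.1 + w₂') y.1 + D₁.μ y.1 := by
      rw [map_add, LinearMap.add_apply, add_assoc]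
    exact e1'
  have e2 : (D₁.res (LinearMap.ker (a.comp D₁.δ + b.comp D₁.μ)).subtype v' w₂').φ w y +
      (D₁.res (LinearMap.ker (a.comp D₁.δ + b.comp D₁.μ)).subtype v' w₂').δ y =
      D₁.φ (w.1 + w₂') y.1 + D₁.δ y.1 := by
    have e2' : D₁.φ w.1 y.1 + (D₁.φ w₂' y.1 + D₁.δ y.1) = D₁.φ (w.1 + w₂') y.1 + D₁.δ y.1 := by
      rw [map_add, LinearMap.add_apply, add_assoc]
    exact e2'
  have e3 : a (D₁.δ y.1) + b (D₁.μ y.1) = 0 := y.2
  have e4 := hK₁ (w.1 + w₂') y.1
  rw [e1, e2, map_add a, map_add b, add_add_add_comm, e3, e4, add_zero]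

/-- the functional and its kernel -/
theorem da2b_ker (D : Dat V M L) (ρ R : ℕ) (hR : HR D.φ R) (hρR : ρ ≤ R)
    (hnot : ¬ HR (cmb D.φ D.Φ) ρ) :
    ∃ (a : Du M) (b : Du L) (K : Submodule (ZMod 2) V), b ≠ 0 ∧
      (∀ w y : K, a (D.φ w y) + b (D.Φ w y) = 0) ∧ rk V ≤ rk K + 2 * ρ := by
  unfold HR at hnot
  push Not at hnot
  obtain ⟨c, hc0, hcK⟩ := hnot
  have hcab : ∀ (x : M) (y : L), c (x, y) = (c.comp (LinearMap.inl (ZMod 2) M L)) x +
      (c.comp (LinearMap.inr (ZMod 2) M L)) y := by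
    intro x y
    have e : ((x, y) : M × L) = (x, 0) + (0, y) := by simp
    rw [e, map_add]
    rfl
  generalize c.comp (LinearMap.inl (ZMod 2) M L) = a at hcab
  generalize c.comp (LinearMap.inr (ZMod 2) M L) = b at hcab
  have hKmem : ∀ x, x ∈ LinearMap.ker ((cmb D.φ D.Φ).compr₂ c) ↔
      ∀ y, a (D.φ x y) + b (D.Φ x y) = 0 := by
    intro x
    rw [LinearMap.mem_ker, LinearMap.ext_iff]
    refine forall_congr' fun y => ?_
    rw [← hcab]
    rfl
  have hKset : (LinearMap.ker ((cmb D.φ D.Φ).compr₂ c) : Set V) =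
      {x : V | ∀ y, c (cmb D.φ D.Φ x y) = 0} := by
    ext x
    rw [SetLike.mem_coe, hKmem]
    refine forall_congr' fun y => ?_
    rw [← hcab]
    rfl
  generalize LinearMap.ker ((cmb D.φ D.Φ).compr₂ c) = K at hKmem hKset
  have hKdn : 1 < (4 : ℝ) ^ ρ * dn (K : Set V) := by
    rw [hKset]
    exact hcK
  refine ⟨a, b, K, ?_, fun w y => (hKmem w.1).1 w.2 y.1, da2b_codim_of_dn K ρ hKdn⟩
  intro hb0
  have ha0 : a ≠ 0 := by
    intro ha0
    refine hc0 (LinearMap.ext fun z => ?_)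
    obtain ⟨x, y⟩ := z
    rw [hcab, ha0, hb0]
    simp
  have h1 := hR a ha0
  have h2 : {x : V | ∀ y, a (D.φ x y) = 0} = (K : Set V) := by
    ext x
    rw [SetLike.mem_coe, hKmem]
    refine forall_congr' fun y => ?_
    rw [hb0]
    simp
  rw [h2] at h1
  have h3 : (4 : ℝ) ^ ρ ≤ 4 ^ R := pow_le_pow_right₀ (by norm_num) hρR
  have h4 := mul_le_mul_of_nonneg_right h3 (dn_nonneg (K : Set V))
  linarith

end

/-- the numerical part -/
theorem da2b_num1 {d d₁ θ θ' n : ℝ} (t : ℕ) (hn : 0 < n) (hn' : n ≤ 2 ^ t)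
    (hd : (1 / 2 : ℝ) ^ t ≤ d) (hθ : (1 / 2 : ℝ) ^ t ≤ θ - θ')
    (h : d * (θ - (θ + θ') / 2) / (4 * n) ≤ d₁) : (1 / 2 : ℝ) ^ (3 * t + 3) ≤ d₁ := by
  have hpos : (0 : ℝ) < (1 / 2) ^ t := by positivity
  refine le_trans ?_ h
  have e1 : d * (θ - (θ + θ') / 2) / (4 * n) = d * (θ - θ') / (8 * n) := by
    field_simp
    ring
  rw [e1]
  have e2 : (1 / 2 : ℝ) ^ (3 * t + 3) = (1 / 2) ^ t * (1 / 2) ^ t / (8 * 2 ^ t) := by
    have e3 : (1 / 2 : ℝ) ^ (3 * t + 3) = (1 / 2) ^ t * (1 / 2) ^ t * ((1 / 2) ^ t * (1 / 8)) := by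
      ring
    rw [e3]
    have e4 : (1 / 2 : ℝ) ^ t = 1 / 2 ^ t := by rw [one_div, one_div, inv_pow]
    rw [e4]
    field_simp
  rw [e2]
  have hd0 : 0 ≤ d := hpos.le.trans hd
  refine div_le_div₀ (mul_nonneg hd0 (by linarith)) ?_ (by positivity) (by linarith)
  exact mul_le_mul hd hθ hpos.le hd0

theorem da2b_num2 {d d₁ d₂ θ θ' n : ℝ} (hn : 0 < n) (hθ : θ' ≤ θ)
    (h1 : d * (θ - (θ + θ') / 2) / (4 * n) ≤ d₁)
    (h2 : d₁ * ((θ + θ') / 2 - θ') / (4 * n) ≤ d₂) : d * ((θ - θ') / (8 * n)) ^ 2 ≤ d₂ := by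
  refine le_trans ?_ h2
  have e1 : d * ((θ - θ') / (8 * n)) ^ 2 =
      (d * (θ - (θ + θ') / 2) / (4 * n)) * ((θ + θ') / 2 - θ') / (4 * n) := by
    field_simp
    ring
  rw [e1]
  refine div_le_div_of_nonneg_right ?_ (by positivity)
  exact mul_le_mul_of_nonneg_right h1 (by linarith)

/-- One drop.  `¬ HR (cmb φ Φ) ρ` gives `(a, b) ≠ 0` such that `K = {x : aφ(x,·) + bΦ(x,·) = 0}` has
density `> 4^(-ρ)`, i.e. codimension `< 2ρ`; `b ≠ 0` because `HR φ ρ`.  First `dat_res` for the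
inclusion of `K` (`θ → (θ+θ')/2`); for the new data the functional
`ξ(y) = a(φ(w,y) + δ(y)) + b(Φ(w,y) + μ(y)) = a δ(y) + b μ(y)` does not depend on `w`.  Then
`dat_res` for the inclusion of `ker ξ` (`(θ+θ')/2 → θ'`); for these data `aφ + bΦ = 0` and
`aδ + bμ = 0` (the base point `w₂` lies in `K`), so `mapL_gd` applies with `p : L → F_2^m`,
`m + 1 = rk L`, such that `(b, p)` is bijective.  Identify `ker ξ` with `F_2^n`.
The density of the good set is multiplied by at least `((θ-θ') / (8 |L|))^2`. -/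
theorem dat_drop : ∃ C : ℕ, ∀ (t ρ R : ℕ) (V M L : Type) [AddCommGroup V] [Module (ZMod 2) V]
    [Finite V] [AddCommGroup M] [Module (ZMod 2) M] [Finite M] [AddCommGroup L]
    [Module (ZMod 2) L] [Finite L] (D : Dat V M L) (θ θ' : ℝ),
    HR D.φ R → pw C (rk M + t + ρ) ≤ R → rk L ≤ t → (∀ x, D.Φ x x = 0) → 0 ≤ θ' →
    (1 / 2 : ℝ) ^ t ≤ θ - θ' → (1 / 2 : ℝ) ^ t ≤ dn {w | D.Gd θ w} →
    ¬ HR (cmb D.φ D.Φ) ρ →
    ∃ (n m : ℕ) (i : (Fin n → ZMod 2) →ₗ[ZMod 2] V) (D' : Dat (Fin n → ZMod 2) M (Fin m → ZMod 2))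
      (v₁ v₂ : V), m + 1 = rk L ∧ rk V ≤ n + (2 * ρ + 1) ∧ D.Restr D' i v₁ v₂ ∧
        (∀ x, D'.Φ x x = 0) ∧
        dn {w | D.Gd θ w} * ((θ - θ') / (8 * nc L)) ^ 2 ≤ dn {w' | D'.Gd θ' w'} := by
  obtain ⟨C, hC⟩ := dat_res
  refine ⟨3 * C + 3, ?_⟩
  intro t ρ R V M L _ _ _ _ _ _ _ _ _ D θ θ' hR hpw hL hΦ hθ' hθ hdn hnot
  obtain ⟨hp1, hp2, hp3⟩ := da2b_pw C (rk M) t ρ R hpw
  have hpos : (0 : ℝ) < (1 / 2) ^ t := by positivity
  have hps : (1 / 2 : ℝ) ^ (t + 1) = (1 / 2) ^ t / 2 := by rw [pow_succ]; ring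
  have hps3 : (1 / 2 : ℝ) ^ (3 * t + 3) ≤ (1 / 2) ^ (t + 1) :=
    pow_le_pow_of_le_one (by norm_num) (by norm_num) (by omega)
  obtain ⟨a, b, K, hb0, hK, hKrk⟩ := da2b_ker D ρ R hR (by omega) hnot
  -- first restriction
  obtain ⟨v, w₂, h1⟩ := hC (t + 1) (2 * ρ) R V M L K D K.subtype θ ((θ + θ') / 2)
    (Submodule.subtype_injective K) hKrk hR hp1 (by omega) (by linarith)
    (by linarith) (by linarith)
  have hR₁ : HR (D.res K.subtype v w₂).φ (R - 2 * ρ) :=
    hR.pull K.subtype (Submodule.subtype_injective K) hKrk hp3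
  have hK₁ : ∀ w y : K, a ((D.res K.subtype v w₂).φ w y) + b ((D.res K.subtype v w₂).Φ w y) = 0 :=
    hK
  have hΦ₁ : ∀ x : K, (D.res K.subtype v w₂).Φ x x = 0 := fun x => hΦ x.1
  have r1 : D.Restr (D.res K.subtype v w₂) K.subtype v (v + w₂) :=
    restr_res D K.subtype (Submodule.subtype_injective K) v w₂
  generalize D.res K.subtype v w₂ = D₁ at h1 hR₁ hK₁ hΦ₁ r1
  have hnL : (0 : ℝ) < nc L := nc_pos
  have hnL' : nc L ≤ 2 ^ t := by
    rw [nc_finrank]
    exact pow_le_pow_right₀ (by norm_num) hL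
  have hd1 := da2b_num1 t hnL hnL' hdn hθ h1
  -- second restriction
  have hab := da2b_second D₁ a b hK₁
  have hcod := da2b_codim (a.comp D₁.δ + b.comp D₁.μ)
  generalize LinearMap.ker (a.comp D₁.δ + b.comp D₁.μ) = W at hab hcod
  obtain ⟨v', w₂', h2⟩ := hC (3 * t + 3) 1 (R - 2 * ρ) K M L W D₁ W.subtype ((θ + θ') / 2) θ'
    (Submodule.subtype_injective _) hcod hR₁ hp2 (by omega) hθ' (by linarith) hd1
  have hab2 := hab v' w₂'
  have hΦ₂ : ∀ x : W, (D₁.res W.subtype v' w₂').Φ x x = 0 := fun x => hΦ₁ x.1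
  have r2 : D₁.Restr (D₁.res W.subtype v' w₂') W.subtype v' (v' + w₂') :=
    restr_res D₁ W.subtype (Submodule.subtype_injective _) v' w₂'
  generalize D₁.res W.subtype v' w₂' = D₂ at h2 hab2 hΦ₂ r2
  obtain ⟨n, m, i, D', v₁, v₂, hm, hn, r3, hΦ₃, h3⟩ := da2b_last D₂ a b hb0 θ' hΦ₂ hab2
  refine ⟨n, m, _, D', _, _, hm, ?_, (r1.trans r2).trans r3, hΦ₃, ?_⟩
  · omega
  · exact (da2b_num2 hnL (by linarith) h1 h2).trans h3

end G2
end

section

/-!
# Job DA3: regularisation of the data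
-/

set_option autoImplicit false

open Module

namespace G2

section
variable {V M L L' W : Type} [AddCommGroup V] [Module (ZMod 2) V] [Finite V]
  [AddCommGroup M] [Module (ZMod 2) M] [Finite M] [AddCommGroup L] [Module (ZMod 2) L] [Finite L]
  [AddCommGroup L'] [Module (ZMod 2) L'] [Finite L']
  [AddCommGroup W] [Module (ZMod 2) W] [Finite W]

theorem da3_ind {α β : Type} {A : Set α} {B : Set β} {x : α} {y : β} (h : x ∈ A ↔ y ∈ B) :
    ind A x = ind B y := by
  by_cases hx : x ∈ A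
  · rw [ind_pos hx, ind_pos (h.1 hx)]
  · rw [ind_neg hx, ind_neg fun hy => hx (h.2 hy)]

theorem da3_dn_equiv (e : W ≃ V) (A : Set V) : dn {w | e w ∈ A} = dn A := by
  unfold dn
  rw [← av_equiv e (ind A)]
  rfl

/-- transport along a linear isomorphism -/
theorem da3_equiv_gd (D : Dat V M L) (e : W ≃ₗ[ZMod 2] V) (θ : ℝ) (w' : W) :
    (D.res e.toLinearMap 0 0).Gd θ w' ↔ D.Gd θ (e w') := by
  have hT : ∀ y', (D.res e.toLinearMap 0 0).T w' y' = D.T (e w') (e y') := by
    intro y'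
    rw [res_T]
    simp
  have e1 : ∀ t, dn {y' | (D.res e.toLinearMap 0 0).T w' y' = t} =
      dn {y | D.T (e w') y = t} := by
    intro t
    rw [← da3_dn_equiv e.toEquiv {y | D.T (e w') y = t}]
    unfold dn
    congr 1
    funext y'
    refine da3_ind ?_
    show _ = t ↔ _ = t
    rw [hT]
    rfl
  have e2 : ∀ t, (av fun y' => ind {y' | (D.res e.toLinearMap 0 0).T w' y' = t} y' *
      (nc M * (ind (D.res e.toLinearMap 0 0).F1 y' *
        ind (D.res e.toLinearMap 0 0).F2 (y' + w')))) =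
      av fun y => ind {y | D.T (e w') y = t} y *
        (nc M * (ind D.F1 y * ind D.F2 (y + e w'))) := by
    intro t
    rw [← av_equiv e.toEquiv (fun y => ind {y | D.T (e w') y = t} y *
        (nc M * (ind D.F1 y * ind D.F2 (y + e w'))))]
    congr 1
    funext y'
    congr 1
    · refine da3_ind ?_
      show _ = t ↔ _ = t
      rw [hT]
      rfl
    · congr 1
      congr 1
      · refine da3_ind ?_
        show (0 : V) + e y' ∈ D.F1 ↔ e y' ∈ D.F1
        rw [zero_add]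
      · refine da3_ind ?_
        show (0 : V) + 0 + e (y' + w') ∈ D.F2 ↔ e y' + e w' ∈ D.F2
        rw [zero_add, zero_add, map_add]
  constructor
  · rintro ⟨t, ⟨y, hy⟩, ht⟩
    rw [e1, e2] at ht
    rw [hT] at hy
    exact ⟨t, ⟨e y, hy⟩, ht⟩
  · rintro ⟨t, ⟨y, hy⟩, ht⟩
    rw [← e1, ← e2] at ht
    refine ⟨t, ⟨e.symm y, ?_⟩, ht⟩
    rw [hT, e.apply_symm_apply, hy]

theorem da3_mapL_gd (D : Dat V M L) (f : L ≃ₗ[ZMod 2] L') (θ : ℝ) (w : V) :
    (D.mapL f.toLinearMap).Gd θ w ↔ D.Gd θ w := by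
  have hT : ∀ y, (D.mapL f.toLinearMap).T w y = ((D.T w y).1, f (D.T w y).2) := by
    intro y
    have : (D.mapL f.toLinearMap).T w y = (D.φ w y + D.δ y, f (D.Φ w y) + f (D.μ y)) := rfl
    rw [this, ← map_add]
    rfl
  have hT2 : ∀ (t : M × L) (y : V), (D.mapL f.toLinearMap).T w y = (t.1, f t.2) ↔
      D.T w y = t := by
    intro t y
    rw [hT, Prod.ext_iff, Prod.ext_iff]
    simp only [EmbeddingLike.apply_eq_iff_eq]
  have hset : ∀ t : M × L, {y | (D.mapL f.toLinearMap).T w y = (t.1, f t.2)} =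
      {y | D.T w y = t} := by
    intro t
    ext y
    exact hT2 t y
  constructor
  · rintro ⟨t', ⟨y, hy⟩, ht⟩
    rw [hT] at hy
    subst hy
    rw [hset (D.T w y)] at ht
    exact ⟨D.T w y, ⟨y, rfl⟩, ht⟩
  · rintro ⟨t, ⟨y, hy⟩, ht⟩
    rw [← hset t] at ht
    exact ⟨(t.1, f t.2), ⟨y, (hT2 t y).2 hy⟩, ht⟩

theorem da3_gd_mono (D : Dat V M L) {θ θ' : ℝ} (h : θ' ≤ θ) :
    dn {w | D.Gd θ w} ≤ dn {w | D.Gd θ' w} := by
  refine dn_mono ?_
  rintro w ⟨t, hy, ht⟩
  exact ⟨t, hy, (mul_le_mul_of_nonneg_right h (dn_nonneg _)).trans ht⟩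

/-- transport of the rank condition -/
theorem da3_hr (φ : Bil V M) (Φ : Bil V L) (e : W ≃ₗ[ZMod 2] V) (f : L ≃ₗ[ZMod 2] L') (ρ : ℕ)
    (h : HR (cmb φ Φ) ρ) :
    HR (cmb (pull φ e.toLinearMap) (pull (Φ.compr₂ f.toLinearMap) e.toLinearMap)) ρ := by
  intro c hc
  have hc' : c.comp (LinearMap.prodMap (LinearMap.id : M →ₗ[ZMod 2] M) f.toLinearMap) ≠ 0 := by
    intro h0
    refine hc (LinearMap.ext fun z => ?_)
    obtain ⟨x, y⟩ := z
    have h1 := LinearMap.congr_fun h0 (x, f.symm y)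
    simpa using h1
  refine le_trans (le_of_eq ?_) (h _ hc')
  congr 1
  rw [← da3_dn_equiv e.toEquiv]
  unfold dn
  congr 1
  funext x
  refine da3_ind ?_
  show (∀ y, c (φ (e x) (e y), f (Φ (e x) (e y))) = 0) ↔ ∀ y, c (φ (e x) y, f (Φ (e x) y)) = 0
  constructor
  · intro h1 y
    have := h1 (e.symm y)
    rwa [e.apply_symm_apply] at this
  · intro h1 y
    exact h1 (e y)

end

/-- the data restricted to coordinates (no drop): replace `V` by `F_2^n` and `L` by `F_2^m` via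
linear isomorphisms -/
theorem dat_coord {V M L : Type} [AddCommGroup V] [Module (ZMod 2) V]
    [Finite V] [AddCommGroup M] [Module (ZMod 2) M] [Finite M] [AddCommGroup L]
    [Module (ZMod 2) L] [Finite L] (D : Dat V M L) (θ : ℝ) (ρ : ℕ) (hΦ : ∀ x, D.Φ x x = 0)
    (hρ : HR (cmb D.φ D.Φ) ρ) :
    ∃ (i : (Fin (rk V) → ZMod 2) →ₗ[ZMod 2] V)
      (D' : Dat (Fin (rk V) → ZMod 2) M (Fin (rk L) → ZMod 2)),
      D.Restr D' i 0 0 ∧ (∀ x, D'.Φ x x = 0) ∧ HR (cmb D'.φ D'.Φ) ρ ∧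
        dn {w' | D'.Gd θ w'} = dn {w | D.Gd θ w} := by
  have hfin : Module.Finite (ZMod 2) V := Module.Finite.of_finite
  have hfin' : Module.Finite (ZMod 2) L := Module.Finite.of_finite
  let e : (Fin (rk V) → ZMod 2) ≃ₗ[ZMod 2] V := (Module.finBasis (ZMod 2) V).equivFun.symm
  let f : L ≃ₗ[ZMod 2] (Fin (rk L) → ZMod 2) := (Module.finBasis (ZMod 2) L).equivFun
  have r : (D.mapL f.toLinearMap).Restr ((D.mapL f.toLinearMap).res e.toLinearMap 0 0)
      e.toLinearMap 0 (0 + 0) :=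
    restr_res (D.mapL f.toLinearMap) e.toLinearMap e.injective 0 0
  rw [add_zero] at r
  refine ⟨e.toLinearMap, (D.mapL f.toLinearMap).res e.toLinearMap 0 0, r, ?_, ?_, ?_⟩
  · intro x
    show f (D.Φ (e x) (e x)) = 0
    rw [hΦ, map_zero]
  · exact da3_hr D.φ D.Φ e f ρ hρ
  · have h1 : {w' | ((D.mapL f.toLinearMap).res e.toLinearMap 0 0).Gd θ w'} =
        {w' | e.toEquiv w' ∈ {w | D.Gd θ w}} := by
      ext w'
      show ((D.mapL f.toLinearMap).res e.toLinearMap 0 0).Gd θ w' ↔ D.Gd θ (e w')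
      rw [da3_equiv_gd, da3_mapL_gd]
    rw [h1]
    exact da3_dn_equiv e.toEquiv {w | D.Gd θ w}

theorem da3_pw (C r t ρ : ℕ) :
    pw C (r + (t + t * (6 * t + 6)) + ρ) + t * (2 * ρ + 1) ≤ pw (4 * C + 4) (r + t + ρ) ∧
      t * (2 * ρ + 1) ≤ pw (4 * C + 4) (t + ρ) ∧ t + t * (6 * t + 6) ≤ pw (4 * C + 4) t := by
  have key1 : ∀ s : ℕ, s + s * (6 * s + 6) + 2 ≤ (s + 2) ^ 4 := by
    intro s
    nlinarith [Nat.zero_le s, Nat.zero_le (s ^ 2), Nat.zero_le (s ^ 3), Nat.zero_le (s ^ 4)]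
  have key2 : ∀ s u : ℕ, s * (2 * u + 1) ≤ pw 3 (s + u) := by
    intro s u
    unfold pw
    nlinarith [Nat.zero_le s, Nat.zero_le u, Nat.zero_le (s * u), Nat.zero_le (s ^ 2),
      Nat.zero_le (u ^ 2), Nat.zero_le (s ^ 3), Nat.zero_le (u ^ 3), Nat.zero_le (s ^ 2 * u),
      Nat.zero_le (s * u ^ 2)]
  refine ⟨?_, ?_, ?_⟩
  · have h1 : pw C (r + (t + t * (6 * t + 6)) + ρ) ≤ pw (4 * C) (r + t + ρ) := by
      have h2 : r + (t + t * (6 * t + 6)) + ρ + 2 ≤ (r + t + ρ + 2) ^ 4 := by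
        refine le_trans ?_ (key1 (r + t + ρ))
        have h3 : t * (6 * t + 6) ≤ (r + t + ρ) * (6 * (r + t + ρ) + 6) :=
          Nat.mul_le_mul (by omega) (by omega)
        omega
      unfold pw
      rw [pow_mul]
      exact Nat.pow_le_pow_left h2 C
    have h4 : t * (2 * ρ + 1) ≤ pw 3 (r + t + ρ) :=
      (key2 t ρ).trans (pw_mono 3 (by omega))
    have h5 := pw_add (4 * C) 3 (r + t + ρ)
    have h6 : 4 * C + 3 + 1 = 4 * C + 4 := by ring
    rw [h6] at h5
    omega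
  · exact (key2 t ρ).trans (pw_mono_left (by omega) _)
  · refine le_trans ?_ (pw_mono_left (show 4 ≤ 4 * C + 4 by omega) t)
    have := key1 t
    unfold pw
    omega

theorem da3_num (t : ℕ) {a : ℕ} {d n ε d' : ℝ} (hn : 0 < n) (hn' : n ≤ 2 ^ t)
    (hε : ε = (1 / 2 : ℝ) ^ (2 * t)) (hd : (1 / 2 : ℝ) ^ a ≤ d)
    (h : d * (ε / (8 * n)) ^ 2 ≤ d') : (1 / 2 : ℝ) ^ (a + (6 * t + 6)) ≤ d' := by
  refine le_trans ?_ h
  have e1 : (1 / 2 : ℝ) ^ (a + (6 * t + 6)) = (1 / 2) ^ a * ((1 / 2) ^ (3 * t + 3)) ^ 2 := by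
    rw [pow_add, ← pow_mul]
    congr 2
    ring
  have e2 : (1 / 2 : ℝ) ^ (3 * t + 3) ≤ ε / (8 * n) := by
    have e3 : (1 / 2 : ℝ) ^ (3 * t + 3) = (1 / 2) ^ (2 * t) / (8 * 2 ^ t) := by
      have e4 : (1 / 2 : ℝ) ^ (3 * t + 3) = (1 / 2) ^ (2 * t) * ((1 / 2) ^ t * (1 / 8)) := by ring
      have e5 : (1 / 2 : ℝ) ^ t = 1 / 2 ^ t := by rw [one_div, one_div, inv_pow]
      rw [e4, e5]
      field_simp
    rw [e3, hε]
    exact div_le_div_of_nonneg_left (by positivity) (by positivity) (by linarith)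
  rw [e1]
  refine mul_le_mul hd (pow_le_pow_left₀ (by positivity) e2 2) (by positivity) ?_
  exact le_trans (by positivity) hd

/-- the induction -/
theorem da3_ind_step (C₀ : ℕ)
    (hC : ∀ (t ρ R : ℕ) (V M L : Type) [AddCommGroup V] [Module (ZMod 2) V]
    [Finite V] [AddCommGroup M] [Module (ZMod 2) M] [Finite M] [AddCommGroup L]
    [Module (ZMod 2) L] [Finite L] (D : Dat V M L) (θ θ' : ℝ),
    HR D.φ R → pw C₀ (rk M + t + ρ) ≤ R → rk L ≤ t → (∀ x, D.Φ x x = 0) → 0 ≤ θ' →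
    (1 / 2 : ℝ) ^ t ≤ θ - θ' → (1 / 2 : ℝ) ^ t ≤ dn {w | D.Gd θ w} →
    ¬ HR (cmb D.φ D.Φ) ρ →
    ∃ (n m : ℕ) (i : (Fin n → ZMod 2) →ₗ[ZMod 2] V) (D' : Dat (Fin n → ZMod 2) M (Fin m → ZMod 2))
      (v₁ v₂ : V), m + 1 = rk L ∧ rk V ≤ n + (2 * ρ + 1) ∧ D.Restr D' i v₁ v₂ ∧
        (∀ x, D'.Φ x x = 0) ∧
        dn {w | D.Gd θ w} * ((θ - θ') / (8 * nc L)) ^ 2 ≤ dn {w' | D'.Gd θ' w'})
    (t ρ t₁ : ℕ) (M : Type) [AddCommGroup M] [Module (ZMod 2) M] [Finite M] (ε θ' : ℝ)
    (hε : ε = (1 / 2 : ℝ) ^ (2 * t)) (hθ' : 0 ≤ θ') (ht₁ : 2 * t ≤ t₁) (ht₁' : t ≤ t₁) (s : ℕ) :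
    ∀ (R a : ℕ) (V L : Type) [AddCommGroup V] [Module (ZMod 2) V]
    [Finite V] [AddCommGroup L] [Module (ZMod 2) L] [Finite L] (D : Dat V M L) (θ : ℝ),
    s ≤ t → HR D.φ R → pw C₀ (rk M + t₁ + ρ) + s * (2 * ρ + 1) ≤ R → rk L ≤ s →
    (∀ x, D.Φ x x = 0) → θ' + (s + 1) * ε ≤ θ → (1 / 2 : ℝ) ^ a ≤ dn {w | D.Gd θ w} →
    a + s * (6 * t + 6) ≤ t₁ →
    ∃ (n m : ℕ) (i : (Fin n → ZMod 2) →ₗ[ZMod 2] V) (D' : Dat (Fin n → ZMod 2) M (Fin m → ZMod 2))
      (v₁ v₂ : V), m ≤ s ∧ rk V ≤ n + s * (2 * ρ + 1) ∧ D.Restr D' i v₁ v₂ ∧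
        (∀ x, D'.Φ x x = 0) ∧ HR (cmb D'.φ D'.Φ) ρ ∧
        (1 / 2 : ℝ) ^ (a + s * (6 * t + 6)) ≤ dn {w' | D'.Gd θ' w'} := by
  have hε0 : 0 < ε := by rw [hε]; positivity
  have hhalf : ∀ {x y : ℕ}, x ≤ y → (1 / 2 : ℝ) ^ y ≤ (1 / 2) ^ x := fun h =>
    pow_le_pow_of_le_one (by norm_num) (by norm_num) h
  induction s with
  | zero =>
    intro R a V L _ _ _ _ _ _ D θ hst hR hP hL hΦ hθ hd ha
    have hθθ' : θ' ≤ θ := by
      push_cast at hθ
      linarith
    by_cases hρ : HR (cmb D.φ D.Φ) ρ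
    · obtain ⟨i, D', r, h1, h2, h3⟩ := dat_coord D θ ρ hΦ hρ
      refine ⟨rk V, rk L, i, D', 0, 0, hL, by omega, r, h1, h2, ?_⟩
      refine (hhalf (by omega)).trans (hd.trans ?_)
      rw [← h3]
      exact da3_gd_mono D' hθθ'
    · obtain ⟨n₁, m₁, -, -, -, -, hm₁, -⟩ := hC t₁ ρ R V M L D θ (θ - ε) hR (by omega) (by omega)
        hΦ (by push_cast at hθ; linarith)
        (by
          have := hhalf ht₁
          rw [← hε] at this
          linarith) ((hhalf (by omega)).trans hd) hρ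
      omega
  | succ s ih =>
    intro R a V L _ _ _ _ _ _ D θ hst hR hP hL hΦ hθ hd ha
    have hsε : 0 ≤ (s : ℝ) * ε := by positivity
    have hθθ' : θ' ≤ θ := by
      push_cast at hθ
      linarith
    have hexp : (s + 1) * (2 * ρ + 1) = s * (2 * ρ + 1) + (2 * ρ + 1) := by ring
    have hexp2 : (s + 1) * (6 * t + 6) = s * (6 * t + 6) + (6 * t + 6) := by ring
    by_cases hρ : HR (cmb D.φ D.Φ) ρ
    · obtain ⟨i, D', r, h1, h2, h3⟩ := dat_coord D θ ρ hΦ hρ
      refine ⟨rk V, rk L, i, D', 0, 0, hL, by omega, r, h1, h2, ?_⟩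
      refine (hhalf (by omega)).trans (hd.trans ?_)
      rw [← h3]
      exact da3_gd_mono D' hθθ'
    · obtain ⟨n₁, m₁, i₁, D₁, u₁, u₂, hm₁, hn₁, r₁, hΦ₁, hd₁⟩ :=
        hC t₁ ρ R V M L D θ (θ - ε) hR (by omega) (by omega) hΦ
        (by push_cast at hθ; linarith)
        (by
          have := hhalf ht₁
          rw [← hε] at this
          linarith) ((hhalf (by omega)).trans hd) hρ
      have hn₁' : rk V ≤ rk (Fin n₁ → ZMod 2) + (2 * ρ + 1) := by
        simpa [rk] using hn₁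
      have hR₁ : HR D₁.φ (R - (2 * ρ + 1)) := by
        rw [r₁.2.1]
        exact hR.pull i₁ r₁.1 hn₁' (by omega)
      have hm₁' : rk (Fin m₁ → ZMod 2) ≤ s := by
        have : rk (Fin m₁ → ZMod 2) = m₁ := by simp [rk]
        omega
      have hnL : (0 : ℝ) < nc L := nc_pos
      have hnL' : nc L ≤ 2 ^ t := by
        rw [nc_finrank]
        exact pow_le_pow_right₀ (by norm_num) (show rk L ≤ t by omega)
      have hd₂ : (1 / 2 : ℝ) ^ (a + (6 * t + 6)) ≤ dn {w | D₁.Gd (θ - ε) w} := by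
        rw [sub_sub_cancel] at hd₁
        exact da3_num t hnL hnL' hε hd hd₁
      obtain ⟨n, m, i, D', v₁, v₂, hm, hn, r, hΦ', hHR, hdn⟩ := ih (R - (2 * ρ + 1))
        (a + (6 * t + 6)) (Fin n₁ → ZMod 2) (Fin m₁ → ZMod 2) D₁ (θ - ε) (by omega) hR₁
        (by omega) hm₁' hΦ₁ (by push_cast at hθ; linarith) hd₂ (by omega)
      refine ⟨n, m, _, D', _, _, by omega, ?_, r₁.trans r, hΦ', hHR, ?_⟩
      · have : rk (Fin n₁ → ZMod 2) = n₁ := by simp [rk]
        omega
      · have e : a + (s + 1) * (6 * t + 6) = a + (6 * t + 6) + s * (6 * t + 6) := by ring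
        rw [e]
        exact hdn

/-- Induction on `rk L`, with the value of `θ` decreasing from `θ` to `θ'` in `t` equal steps (each of
size `≥ 2^(-2t)`); each drop costs codimension `2ρ + 1` and a factor
`(2^(-2t) / (8 · 2^t))^2` of the density.  When no drop is possible use `dat_coord`.  If `L = 0` the
form `cmb φ Φ` has the same rank as `φ`. -/
theorem dat_reg : ∃ C : ℕ, ∀ (t ρ R : ℕ) (V M L : Type) [AddCommGroup V] [Module (ZMod 2) V]
    [Finite V] [AddCommGroup M] [Module (ZMod 2) M] [Finite M] [AddCommGroup L]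
    [Module (ZMod 2) L] [Finite L] (D : Dat V M L) (θ θ' : ℝ),
    HR D.φ R → pw C (rk M + t + ρ) ≤ R → rk L ≤ t → (∀ x, D.Φ x x = 0) → 0 ≤ θ' →
    (1 / 2 : ℝ) ^ t ≤ θ - θ' → (1 / 2 : ℝ) ^ t ≤ dn {w | D.Gd θ w} →
    ∃ (n m : ℕ) (i : (Fin n → ZMod 2) →ₗ[ZMod 2] V) (D' : Dat (Fin n → ZMod 2) M (Fin m → ZMod 2))
      (v₁ v₂ : V), m ≤ t ∧ rk V ≤ n + pw C (t + ρ) ∧ D.Restr D' i v₁ v₂ ∧
        (∀ x, D'.Φ x x = 0) ∧ HR (cmb D'.φ D'.Φ) ρ ∧
        (1 / 2 : ℝ) ^ pw C t ≤ dn {w' | D'.Gd θ' w'} := by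
  obtain ⟨C₀, hC⟩ := dat_drop
  refine ⟨4 * C₀ + 4, ?_⟩
  intro t ρ R V M L _ _ _ _ _ _ _ _ _ D θ θ' hR hpw hL hΦ hθ' hθ hdn
  obtain ⟨hp1, hp2, hp3⟩ := da3_pw C₀ (rk M) t ρ
  have hε : ((t : ℝ) + 1) * (1 / 2 : ℝ) ^ (2 * t) ≤ (1 / 2) ^ t := by
    have h1 : (t : ℝ) + 1 ≤ 2 ^ t := by
      have h2 : t + 1 ≤ 2 ^ t := Nat.lt_two_pow_self
      exact_mod_cast h2
    have h3 : (1 / 2 : ℝ) ^ (2 * t) = (1 / 2) ^ t * (1 / 2) ^ t := by rw [two_mul, pow_add]
    have h4 : (2 : ℝ) ^ t * (1 / 2) ^ t = 1 := by rw [← mul_pow]; norm_num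
    calc ((t : ℝ) + 1) * (1 / 2 : ℝ) ^ (2 * t) ≤ 2 ^ t * (1 / 2 : ℝ) ^ (2 * t) :=
          mul_le_mul_of_nonneg_right h1 (by positivity)
      _ = (2 ^ t * (1 / 2) ^ t) * (1 / 2) ^ t := by rw [h3]; ring
      _ = (1 / 2) ^ t := by rw [h4, one_mul]
  obtain ⟨n, m, i, D', v₁, v₂, hm, hn, r, hΦ', hHR, hd⟩ := da3_ind_step C₀ hC t ρ
    (t + t * (6 * t + 6)) M ((1 / 2 : ℝ) ^ (2 * t)) θ' rfl hθ' (by nlinarith) (by omega) t
    R t V L D θ le_rfl hR (hp1.trans hpw) hL hΦ (by linarith) hdn le_rfl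
  refine ⟨n, m, i, D', v₁, v₂, hm, by omega, r, hΦ', hHR, le_trans ?_ hd⟩
  exact pow_le_pow_of_le_one (by norm_num) (by norm_num) hp3

end G2
end
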