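import Pool.Agent.Lib.MP_f4f4db_co.G2.QD1

/-!
# Definitions for block DA (restriction of data)
-/

set_option autoImplicit false

open Module

namespace G2

noncomputable section

variable {V M L L' W : Type} [AddCommGroup V] [Module (ZMod 2) V] [AddCommGroup M]
  [Module (ZMod 2) M] [AddCommGroup L] [Module (ZMod 2) L] [AddCommGroup L'] [Module (ZMod 2) L']
  [AddCommGroup W] [Module (ZMod 2) W]

/-- restriction of the data: `y = v + i y'`, `w = w₂ + i w'` -/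
def Dat.res (D : Dat V M L) (i : W →ₗ[ZMod 2] V) (v w₂ : V) : Dat W M L where
  φ := pull D.φ i
  Φ := pull D.Φ i
  q1 := fun y => D.q1 (v + i y)
  q2 := fun y => D.q2 (v + w₂ + i y)
  δ := (D.φ w₂ + D.δ).comp i
  μ := (D.Φ w₂ + D.μ).comp i
  F1 := {y | v + i y ∈ D.F1}
  F2 := {y | v + w₂ + i y ∈ D.F2}
  isQ1 := D.isQ1.pull i v
  isQ2 := D.isQ2.pull i (v + w₂)
  hδ := by
    intro y
    have h1 := D.isQ2 (v + w₂) (i y)
    have h2 := D.isQ1 v (i y)
    have h3 := D.hδ (i y)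
    simp only [map_zero, add_zero, map_add, LinearMap.add_apply, LinearMap.coe_comp,
      Function.comp_apply] at h1 h2 h3 ⊢
    rw [h1, h2]
    have e1 : D.q2 (v + w₂) + D.q2 (i y) + D.q2 0 + (D.φ v (i y) + D.φ w₂ (i y)) +
        D.q2 (v + w₂) = (D.q2 (i y) + D.q2 0) + (D.φ v (i y) + D.φ w₂ (i y)) +
          (D.q2 (v + w₂) + D.q2 (v + w₂)) := by abel
    have e2 : D.q1 v + D.q1 (i y) + D.q1 0 + D.φ v (i y) + D.q1 v +
        (D.φ w₂ (i y) + D.δ (i y)) = (D.q1 (i y) + D.q1 0 + D.δ (i y)) +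
          (D.φ v (i y) + D.φ w₂ (i y)) + (D.q1 v + D.q1 v) := by abel
    rw [e1, e2, h3, add_self, add_self]
  sub1 := fun y hy => D.sub1 _ hy
  sub2 := fun y hy => D.sub2 _ hy

/-- change of the target of the new conditions -/
def Dat.mapL (D : Dat V M L) (p : L →ₗ[ZMod 2] L') : Dat V M L' where
  φ := D.φ
  Φ := D.Φ.compr₂ p
  q1 := D.q1
  q2 := D.q2
  δ := D.δ
  μ := p.comp D.μ
  F1 := D.F1
  F2 := D.F2
  isQ1 := D.isQ1
  isQ2 := D.isQ2
  hδ := D.hδ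
  sub1 := D.sub1
  sub2 := D.sub2

/-- `D'` is a restriction of `D` along `i` with base points `v₁` and `v₂` (as far as
`φ, q1, q2, F1, F2` are concerned) -/
def Dat.Restr (D : Dat V M L) (D' : Dat W M L') (i : W →ₗ[ZMod 2] V) (v₁ v₂ : V) : Prop :=
  Function.Injective i ∧ D'.φ = pull D.φ i ∧ (∀ y, D'.q1 y = D.q1 (v₁ + i y)) ∧
    (∀ y, D'.q2 y = D.q2 (v₂ + i y)) ∧ D'.F1 = {y | v₁ + i y ∈ D.F1} ∧
    D'.F2 = {y | v₂ + i y ∈ D.F2}

end

end G2
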