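import Pool.Agent.Lib.MP_f4f4db_co.G2.QD1
import Pool.Agent.Lib.MP_f4f4db_co.G2.Akm

section

/-!
# Job IC1a: the increment conclusion from general spaces
-/

set_option autoImplicit false

open Module

namespace G2

/-- choose linear isomorphisms `X ≃ F_2^n`, `N ≃ F_2^r` -/
theorem ic_of {V X N : Type} [AddCommGroup V] [Module (ZMod 2) V] [Finite V] [AddCommGroup X]
    [Module (ZMod 2) X] [Finite X] [AddCommGroup N] [Module (ZMod 2) N] [Finite N] (F : Set V)
    (θ : ℝ) (i : X →ₗ[ZMod 2] V) (hi : Function.Injective i) (b : V) {q : X → N} {φ : Bil X N}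
    (hq : IsQ q φ) (h0 : ∃ x, q x = 0)
    (hθ : θ * nc {x // q x = 0} ≤ nc {x // b + i x ∈ F ∧ q x = 0}) :
    IC F θ (rk X) (rk N) := by
  obtain ⟨e⟩ : Nonempty ((Fin (rk X) → ZMod 2) ≃ₗ[ZMod 2] X) :=
    ⟨(Module.finBasis (ZMod 2) X).equivFun.symm⟩
  obtain ⟨e'⟩ : Nonempty (N ≃ₗ[ZMod 2] (Fin (rk N) → ZMod 2)) :=
    ⟨(Module.finBasis (ZMod 2) N).equivFun⟩
  have hz : ∀ n : N, e' n = 0 ↔ n = 0 := fun n => e'.map_eq_zero_iff
  refine ⟨i.comp e.toLinearMap, b, fun x => e' (q (e x)),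
    (G2.pull φ e.toLinearMap).compr₂ e'.toLinearMap, ?_, ?_, ?_, ?_⟩
  · rw [LinearMap.coe_comp]
    exact hi.comp e.injective
  · intro x y
    have h1 := hq (e x) (e y)
    have h2 : ((G2.pull φ e.toLinearMap).compr₂ e'.toLinearMap) x y = e' (φ (e x) (e y)) := by
      simp [G2.pull, LinearMap.compl₁₂_apply]
    show e' (q (e (x + y))) = e' (q (e x)) + e' (q (e y)) + e' (q (e 0)) + _
    rw [h2, map_add e x y, h1, map_zero e]
    simp only [map_add]
  · obtain ⟨x, hx⟩ := h0
    refine ⟨e.symm x, ?_⟩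
    show e' (q (e (e.symm x))) = 0
    rw [e.apply_symm_apply, hx, map_zero]
  · have h1 : nc {x // e' (q (e x)) = 0} = nc {x // q x = 0} := by
      unfold nc
      congr 1
      exact Nat.card_congr (e.toEquiv.subtypeEquiv fun x => hz _)
    have h2 : nc {x // b + (i.comp e.toLinearMap) x ∈ F ∧ e' (q (e x)) = 0}
        = nc {x // b + i x ∈ F ∧ q x = 0} := by
      unfold nc
      congr 1
      exact Nat.card_congr (e.toEquiv.subtypeEquiv fun x => and_congr Iff.rfl (hz _))
    show θ * nc {x // e' (q (e x)) = 0} ≤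
      nc {x // b + (i.comp e.toLinearMap) x ∈ F ∧ e' (q (e x)) = 0}
    rw [h1, h2]
    exact hθ

/-- transport of `IC` along a restriction -/
theorem IC.lift {V W : Type} [AddCommGroup V] [Module (ZMod 2) V] [AddCommGroup W]
    [Module (ZMod 2) W] {F : Set V} {θ : ℝ} {n r : ℕ} (i : W →ₗ[ZMod 2] V)
    (hi : Function.Injective i) (v : V) (h : IC {y | v + i y ∈ F} θ n r) : IC F θ n r := by
  obtain ⟨j, b, q, φ, hj, hq, h0, hθ⟩ := h
  refine ⟨i.comp j, v + i b, q, φ, ?_, hq, h0, ?_⟩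
  · rw [LinearMap.coe_comp]
    exact hi.comp hj
  · have h1 : ∀ x, (v + i b + (i.comp j) x ∈ F ∧ q x = 0) ↔
        (b + j x ∈ {y | v + i y ∈ F} ∧ q x = 0) := by
      intro x
      rw [Set.mem_ofPred_eq, map_add, LinearMap.comp_apply, add_assoc]
    have h2 : nc {x // v + i b + (i.comp j) x ∈ F ∧ q x = 0}
        = nc {x // b + j x ∈ {y | v + i y ∈ F} ∧ q x = 0} := by
      unfold nc
      congr 1
      exact Nat.card_congr (Equiv.subtypeEquivRight h1)
    rw [h2]
    exact hθ

theorem IC.mono {V : Type} [AddCommGroup V] [Module (ZMod 2) V] {F : Set V} {θ θ' : ℝ}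
    {n r : ℕ} (h : IC F θ n r) (h' : θ' ≤ θ) : IC F θ' n r := by
  obtain ⟨j, b, q, φ, hj, hq, h0, hθ⟩ := h
  exact ⟨j, b, q, φ, hj, hq, h0,
    le_trans (mul_le_mul_of_nonneg_right h' (nc_nonneg _)) hθ⟩

end G2
end

section

/-!
# Job IC1b: increment conclusion from Conc
-/

set_option autoImplicit false

open Module

namespace G2

theorem ic1b_nc {V : Type} [Finite V] [Nonempty V] (P : V → Prop) :
    nc {x // P x} = nc V * dn {x | P x} := by
  have h : dn {x | P x} = (Nat.card {x // P x} : ℝ) / Nat.card V := dn_eq_card _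
  have h2 : nc V ≠ 0 := nc_pos.ne'
  rw [h]
  change nc {x // P x} = nc V * (nc {x // P x} / nc V)
  rw [mul_div_cancel₀ _ h2]

theorem ic1b_num {t : ℕ} {θ e : ℝ} (hθ : 0 ≤ θ) (he : e ≤ (1 / 2) ^ t) :
    (1 - (1 / 2) ^ t) * θ * (1 + e) ≤ θ := by
  have h0 : (0 : ℝ) ≤ (1 / 2) ^ t := by positivity
  have h1 : ((1 : ℝ) / 2) ^ t ≤ 1 := pow_le_one₀ (by norm_num) (by norm_num)
  have h2 : (1 - (1 / 2 : ℝ) ^ t) * (1 + e) ≤ (1 - (1 / 2 : ℝ) ^ t) * (1 + (1 / 2) ^ t) :=
    mul_le_mul_of_nonneg_left (by linarith) (by linarith)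
  have h3 : (1 - (1 / 2 : ℝ) ^ t) * (1 + (1 / 2) ^ t) ≤ 1 := by nlinarith
  calc (1 - (1 / 2) ^ t) * θ * (1 + e) = ((1 - (1 / 2 : ℝ) ^ t) * (1 + e)) * θ := by ring
    _ ≤ 1 * θ := mul_le_mul_of_nonneg_right (h2.trans h3) hθ
    _ = θ := one_mul θ

theorem ic1b_R {t K R m : ℕ} (h : pw 2 (m + t + K) ≤ R) : (K + 1) * (m + 1) + t ≤ R := by
  unfold pw at h
  nlinarith

/-- From `Conc` for a quadratic map of high rank to `IC` (step (1)): `q'' = (q, l + s)`.
`|{y ∈ F : l y = s}| = |V| E(1_F 1[l = s]) ≥ |V| θ / (|M| 2^d)`, and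
`|{q'' = 0}| = |V| E(1[q=0] 1[l=s]) ≤ |V| (1 + 2^d er) / (|M| 2^d)` by `fibre_nu` with `b = 0`.
So `IC` holds for `θ / (1 + 2^d er)`. -/
theorem ic_of_conc : ∃ C : ℕ, ∀ (t R K h : ℕ) (V M : Type) [AddCommGroup V] [Module (ZMod 2) V]
    [Finite V] [AddCommGroup M] [Module (ZMod 2) M] [Finite M] (q : V → M) (φ : Bil V M)
    (F : Set V) (θ : ℝ), IsQ q φ → HR φ R → pw C (rk M + t + K) ≤ R → (∀ y ∈ F, q y = 0) →
    0 < θ → Conc (wf M F) θ K h →
    ∃ r', r' ≤ rk M + K ∧ IC F ((1 - (1 / 2) ^ t) * θ) (rk V) r' := by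
  refine ⟨2, ?_⟩
  intro t R K h V M _ _ _ _ _ _ q φ F θ hq hR hC hF hθ hconc
  obtain ⟨d, hd, l, s, hl, hav, -⟩ := hconc
  have hMpos : 0 < nc M := nc_pos
  have hVpos : 0 < nc V := nc_pos
  have hq' : IsQ (fun y => (q y, l y + s)) (cmb φ (0 : Bil V (Fin d → ZMod 2))) := by
    have h1 : IsQ (fun y => l y + s) (0 : Bil V (Fin d → ZMod 2)) := by
      have h2 := (isQ_zero (V := V) (0 : Fin d → ZMod 2)).add_lin l s
      simpa only [zero_add] using h2
    exact hq.prod h1
  have hiff : ∀ y : V, (q y, l y + s) = (0 : M × (Fin d → ZMod 2)) ↔ q y = 0 ∧ l y = s := by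
    intro y
    rw [Prod.mk_eq_zero]
    constructor
    · rintro ⟨h1, h2⟩
      exact ⟨h1, eq_of_add_eq_zero h2⟩
    · rintro ⟨h1, h2⟩
      exact ⟨h1, by rw [h2, add_self]⟩
  -- the average over the coset
  have hF1 : av (fun y => wf M F y * ind {y | l y = s} y) =
      nc M * dn {y | y ∈ F ∧ l y = s} := by
    rw [dn, ← av_mul_left]
    congr 1
    funext y
    have h1 := ind_inter F {y | l y = s} y
    have h2 : F ∩ {y | l y = s} = {y | y ∈ F ∧ l y = s} := rfl
    rw [h2] at h1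
    rw [h1, wf, mul_assoc]
  have hN1 : av (fun y => nu q y * ind {y | l y = s} y) =
      nc M * dn {y | q y = 0 ∧ l y = s} := by
    rw [dn, ← av_mul_left]
    congr 1
    funext y
    have h1 := ind_inter {y | q y = 0} {y | l y = s} y
    have h2 : {y | q y = 0} ∩ {y | l y = s} = {y | q y = 0 ∧ l y = s} := rfl
    rw [h2] at h1
    rw [h1, nu, mul_assoc]
  have h2d : nc (Fin d → ZMod 2) = 2 ^ d := by
    rw [nc_finrank, Module.finrank_fin_fun]
  have hfib := fibre_nu hq hR l hl s (0 : Du (Fin d → ZMod 2))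
  simp only [LinearMap.zero_apply, sg_zero, mul_one] at hfib
  rw [hN1, h2d] at hfib
  have hfib2 := (abs_le.1 hfib).2
  rw [hF1] at hav
  -- nonemptiness
  have hpos : 0 < dn {y | y ∈ F ∧ l y = s} := by
    by_contra hneg
    have h1 : dn {y | y ∈ F ∧ l y = s} ≤ 0 := not_lt.1 hneg
    have h2 : (2 : ℝ) ^ d * (nc M * dn {y | y ∈ F ∧ l y = s}) ≤ 0 :=
      mul_nonpos_of_nonneg_of_nonpos (by positivity)
        (mul_nonpos_of_nonneg_of_nonpos hMpos.le h1)
    linarith
  obtain ⟨y0, hy0F, hy0⟩ := nonempty_of_dn_pos hpos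
  have hex : ∃ x, (q x, l x + s) = (0 : M × (Fin d → ZMod 2)) :=
    ⟨y0, (hiff y0).2 ⟨hF y0 hy0F, hy0⟩⟩
  -- error
  have her : 2 ^ d * er M 1 R ≤ (1 / 2 : ℝ) ^ t := by
    refine (two_mul_er d 1 R).trans (er_le ?_)
    have h1 := ic1b_R hC
    have h2 : (d + 1) * (rk M + 1) ≤ (K + 1) * (rk M + 1) :=
      Nat.mul_le_mul_right _ (by omega)
    omega
  refine ⟨rk M + d, by omega, ?_⟩
  have hrk : rk (M × (Fin d → ZMod 2)) = rk M + d := by
    rw [rk, Module.finrank_prod, Module.finrank_fin_fun]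
  rw [← hrk]
  refine ic_of F _ (LinearMap.id : V →ₗ[ZMod 2] V) Function.injective_id 0 hq' hex ?_
  have e1 : nc {x // (q x, l x + s) = (0 : M × (Fin d → ZMod 2))} =
      nc V * dn {y | q y = 0 ∧ l y = s} := by
    rw [ic1b_nc]
    congr 2
    ext y
    exact hiff y
  have e2 : nc {x // (0 : V) + (LinearMap.id : V →ₗ[ZMod 2] V) x ∈ F ∧
      (q x, l x + s) = (0 : M × (Fin d → ZMod 2))} = nc V * dn {y | y ∈ F ∧ l y = s} := by
    rw [ic1b_nc]
    congr 2
    ext y
    constructor
    · rintro ⟨h1, h2⟩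
      rw [zero_add] at h1
      exact ⟨h1, ((hiff y).1 h2).2⟩
    · rintro ⟨h1, h2⟩
      refine ⟨?_, (hiff y).2 ⟨hF y h1, h2⟩⟩
      rw [zero_add]
      exact h1
  rw [e1, e2]
  have hnum := ic1b_num hθ.le her
  have h2dpos : (0 : ℝ) < 2 ^ d := by positivity
  -- multiply by `nc M * 2 ^ d`
  have key : (1 - (1 / 2) ^ t) * θ * (2 ^ d * (nc M * dn {y | q y = 0 ∧ l y = s})) ≤
      2 ^ d * (nc M * dn {y | y ∈ F ∧ l y = s}) := by
    have h1 : ((1 : ℝ) / 2) ^ t ≤ 1 := pow_le_one₀ (by norm_num) (by norm_num)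
    have h3 : 0 ≤ (1 - (1 / 2 : ℝ) ^ t) * θ := mul_nonneg (by linarith) hθ.le
    calc (1 - (1 / 2) ^ t) * θ * (2 ^ d * (nc M * dn {y | q y = 0 ∧ l y = s}))
        ≤ (1 - (1 / 2) ^ t) * θ * (1 + 2 ^ d * er M 1 R) :=
          mul_le_mul_of_nonneg_left (by linarith) h3
      _ ≤ θ := hnum
      _ ≤ _ := hav
  have hc : (0 : ℝ) < 2 ^ d * nc M := by positivity
  have key2 : (2 ^ d * nc M) * ((1 - (1 / 2) ^ t) * θ * dn {y | q y = 0 ∧ l y = s}) ≤
      (2 ^ d * nc M) * dn {y | y ∈ F ∧ l y = s} := by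
    calc _ = (1 - (1 / 2) ^ t) * θ * (2 ^ d * (nc M * dn {y | q y = 0 ∧ l y = s})) := by ring
      _ ≤ _ := key
      _ = _ := by ring
  have key3 := le_of_mul_le_mul_left key2 hc
  calc (1 - (1 / 2) ^ t) * θ * (nc V * dn {y | q y = 0 ∧ l y = s})
      = nc V * ((1 - (1 / 2) ^ t) * θ * dn {y | q y = 0 ∧ l y = s}) := by ring
    _ ≤ _ := mul_le_mul_of_nonneg_left key3 hVpos.le

/-- if the weighted density of `F` is `β`, then `IC` holds with `q'' = q` -/
theorem ic_self : ∃ C : ℕ, ∀ (t R : ℕ) (V M : Type) [AddCommGroup V] [Module (ZMod 2) V]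
    [Finite V] [AddCommGroup M] [Module (ZMod 2) M] [Finite M] (q : V → M) (φ : Bil V M)
    (F : Set V), IsQ q φ → HR φ R → pw C (rk M + t) ≤ R → (∀ y ∈ F, q y = 0) →
    0 < av (wf M F) → IC F ((1 - (1 / 2) ^ t) * av (wf M F)) (rk V) (rk M) := by
  refine ⟨2, ?_⟩
  intro t R V M _ _ _ _ _ _ q φ F hq hR hC hF hpos
  have hMpos : 0 < nc M := nc_pos
  have hVpos : 0 < nc V := nc_pos
  have hF1 : av (wf M F) = nc M * dn F := by
    rw [dn, ← av_mul_left]
    rfl
  have hN1 : av (nu q) = nc M * dn {y | q y = 0} := by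
    rw [dn, ← av_mul_left]
    rfl
  have hnu := (abs_le.1 (av_nu hq hR)).2
  rw [hN1] at hnu
  have her : er M 1 R ≤ (1 / 2 : ℝ) ^ t := by
    refine er_le ?_
    have h1 : pw 2 (rk M + t + 0) ≤ R := hC
    have := ic1b_R h1
    omega
  have hdn : 0 < dn F := by
    by_contra hneg
    rw [hF1] at hpos
    have : nc M * dn F ≤ 0 := mul_nonpos_of_nonneg_of_nonpos hMpos.le (not_lt.1 hneg)
    linarith
  obtain ⟨y0, hy0⟩ := nonempty_of_dn_pos hdn
  refine ic_of F _ (LinearMap.id : V →ₗ[ZMod 2] V) Function.injective_id 0 hq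
    ⟨y0, hF y0 hy0⟩ ?_
  have e2 : nc {x // (0 : V) + (LinearMap.id : V →ₗ[ZMod 2] V) x ∈ F ∧ q x = 0} =
      nc V * dn F := by
    rw [ic1b_nc]
    congr 2
    ext y
    constructor
    · rintro ⟨h1, h2⟩
      rw [zero_add] at h1
      exact h1
    · intro h1
      refine ⟨?_, hF y h1⟩
      rw [zero_add]
      exact h1
  rw [ic1b_nc, e2]
  have hnum := ic1b_num hpos.le her
  have key : (1 - (1 / 2) ^ t) * av (wf M F) * (nc M * dn {y | q y = 0}) ≤ nc M * dn F := by
    have h1 : ((1 : ℝ) / 2) ^ t ≤ 1 := pow_le_one₀ (by norm_num) (by norm_num)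
    have h3 : 0 ≤ (1 - (1 / 2 : ℝ) ^ t) * av (wf M F) := mul_nonneg (by linarith) hpos.le
    calc (1 - (1 / 2) ^ t) * av (wf M F) * (nc M * dn {y | q y = 0})
        ≤ (1 - (1 / 2) ^ t) * av (wf M F) * (1 + er M 1 R) :=
          mul_le_mul_of_nonneg_left (by linarith) h3
      _ ≤ av (wf M F) := hnum
      _ = _ := hF1
  have key2 : nc M * ((1 - (1 / 2) ^ t) * av (wf M F) * dn {y | q y = 0}) ≤ nc M * dn F := by
    calc _ = (1 - (1 / 2) ^ t) * av (wf M F) * (nc M * dn {y | q y = 0}) := by ring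
      _ ≤ _ := key
  have key3 := le_of_mul_le_mul_left key2 hMpos
  calc (1 - (1 / 2) ^ t) * av (wf M F) * (nc V * dn {y | q y = 0})
      = nc V * ((1 - (1 / 2) ^ t) * av (wf M F) * dn {y | q y = 0}) := by ring
    _ ≤ _ := mul_le_mul_of_nonneg_left key3 hVpos.le

end G2
end

section

section

/-!
# Job QD3a: generic tuples

(Q4) of paper 501: almost all tuples are generic.
-/

set_option autoImplicit false

open Module

namespace G2

variable {V M L : Type} [AddCommGroup V] [Module (ZMod 2) V] [Finite V]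
  [AddCommGroup M] [Module (ZMod 2) M] [Finite M] [AddCommGroup L] [Module (ZMod 2) L] [Finite L]

omit [Finite M] in
private theorem qd3a_sum_single {l : ℕ} (a : Fin l → Du M) (i : Fin l) (m : M) :
    ∑ j, a j ((Pi.single i m : Fin l → M) j) = a i m := by
  rw [Finset.sum_eq_single i]
  · rw [Pi.single_eq_same]
  · intro j _ hj
    rw [Pi.single_eq_of_ne hj, map_zero]
  · intro h
    exact absurd (Finset.mem_univ i) h

private theorem qd3a_nc_du : nc (Du M) = nc M := by
  rw [nc_finrank, nc_finrank]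
  congr 1
  exact Subspace.dual_finrank_eq

private theorem qd3a_av_sum {α ι : Type} [Finite α] (s : Finset ι) (f : ι → α → ℝ) :
    av (fun x => ∑ a ∈ s, f a x) = ∑ a ∈ s, av (f a) := by
  have := Fintype.ofFinite α
  simp only [av_eq]
  rw [Finset.sum_comm, Finset.sum_div]

/-- dual description: the tuple is generic iff the functionals `φ(u_i, ·)` satisfy no relation -/
theorem gen_iff {l : ℕ} (φ : Bil V M) (u : Fin l → V) :
    Gen φ u ↔ ∀ a : Fin l → Du M, (∀ y, ∑ i, a i (φ (u i) y) = 0) → a = 0 := by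
  constructor
  · intro hG a ha
    funext i
    refine LinearMap.ext fun m => ?_
    obtain ⟨y, hy⟩ := hG (Pi.single i m)
    have h1 := ha y
    have h2 : ∀ j, φ (u j) y = (Pi.single i m : Fin l → M) j := fun j => congrFun hy j
    simp only [h2] at h1
    rw [qd3a_sum_single] at h1
    rw [h1]
    rfl
  · intro h
    let T : V →ₗ[ZMod 2] (Fin l → M) := LinearMap.pi fun i => φ (u i)
    have hT : ∀ y, T y = fun i => φ (u i) y := fun y => rfl
    by_contra hG
    have hne : LinearMap.range T ≠ ⊤ := by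
      intro htop
      apply hG
      intro z
      have hz : z ∈ LinearMap.range T := by
        rw [htop]
        exact Submodule.mem_top
      obtain ⟨y, hy⟩ := hz
      exact ⟨y, hy⟩
    obtain ⟨ψ, hψ0, hψ⟩ := Submodule.exists_le_ker_of_lt_top _ (lt_top_iff_ne_top.2 hne)
    apply hψ0
    have key : ∀ z : Fin l → M, ψ z = ∑ i, (ψ.comp (LinearMap.single (ZMod 2) (fun _ => M) i)) (z i) := by
      intro z
      simp only [LinearMap.comp_apply, LinearMap.single_apply]
      rw [← map_sum]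
      congr 1
      exact (Finset.univ_sum_single z).symm
    have h1 := h (fun i => ψ.comp (LinearMap.single (ZMod 2) (fun _ => M) i)) (fun y => by
      have h2 : ψ (T y) = 0 := by
        have : T y ∈ LinearMap.ker ψ := hψ (LinearMap.mem_range_self T y)
        exact this
      rw [key, hT] at h2
      exact h2)
    refine LinearMap.ext fun z => ?_
    rw [key]
    refine (Finset.sum_eq_zero fun i _ => ?_).trans rfl
    have h3 := congrFun h1 i
    rw [h3]
    rfl

/-- If the tuple is not generic there is `a ≠ 0` in `(M*)^l` with `∑ a_i φ(u_i, ·) = 0`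
(`gen_iff`).  For a fixed `a`, with `a_k ≠ 0`, and fixed `u_i`, `i ≠ k`, the possible `u_k` form
an empty set or a translate of the kernel of `a_k φ`, so the density of such `u` is at most
`4 ^ (-R)`. -/
theorem dn_not_gen (φ : Bil V M) {R : ℕ} (hR : HR φ R) (l : ℕ) :
    dn {u : Fin l → V | ¬ Gen φ u} ≤ nc M ^ l / 4 ^ R := by
  classical
  have := Fintype.ofFinite (Du M)
  let S : (Fin l → Du M) → Set (Fin l → V) := fun a => {u | ∀ y, ∑ i, a i (φ (u i) y) = 0}
  have hSmem : ∀ a u, u ∈ S a ↔ ∀ y, ∑ i, a i (φ (u i) y) = 0 := fun a u => Iff.rfl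
  have hone : ∀ a : Fin l → Du M, a ≠ 0 → dn (S a) ≤ 1 / 4 ^ R := by
    intro a ha
    obtain ⟨k, hk⟩ : ∃ k, a k ≠ 0 := by
      by_contra hcon
      push Not at hcon
      exact ha (funext hcon)
    set K : Set V := {x : V | ∀ y, a k (φ x y) = 0} with hK
    have hKmem : ∀ x, x ∈ K ↔ ∀ y, a k (φ x y) = 0 := fun x => Iff.rfl
    have hKd : dn K ≤ 1 / 4 ^ R := by
      rw [le_div_iff₀ (by positivity), mul_comm]
      exact hR (a k) hk
    refine le_trans ?_ hKd
    have e1 : dn (S a) = av fun x : V => av fun u : Fin l → V => ind (S a) (u + Pi.single k x) := by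
      have h1 : (fun x : V => av fun u : Fin l → V => ind (S a) (u + Pi.single k x)) =
          fun _ : V => dn (S a) := by
        funext x
        exact av_shift (ind (S a)) (Pi.single k x)
      rw [h1, av_const]
    rw [e1, av_comm]
    refine av_le_const fun u => ?_
    by_cases hex : ∃ x₀ : V, u + Pi.single k x₀ ∈ S a
    · obtain ⟨x₀, hx₀⟩ := hex
      rw [hSmem] at hx₀
      have h2 : (fun x : V => ind (S a) (u + Pi.single k x)) = fun x => ind K (x + x₀) := by
        funext x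
        have h3 : u + Pi.single k x ∈ S a ↔ x + x₀ ∈ K := by
          rw [hSmem, hKmem]
          refine forall_congr' fun y => ?_
          have h4 : ∑ i, a i (φ ((u + Pi.single k x : Fin l → V) i) y) =
              ∑ i, a i (φ ((u + Pi.single k x₀ : Fin l → V) i) y) + a k (φ (x + x₀) y) := by
            have h5 : ∀ z : V, ∑ i, a i (φ ((u + Pi.single k z : Fin l → V) i) y) =
                ∑ i, a i (φ (u i) y) + a k (φ z y) := by
              intro z
              simp only [Pi.add_apply, map_add, LinearMap.add_apply]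
              rw [Finset.sum_add_distrib]
              congr 1
              rw [Finset.sum_eq_single k]
              · rw [Pi.single_eq_same]
              · intro j _ hj
                rw [Pi.single_eq_of_ne hj, map_zero, LinearMap.zero_apply, map_zero]
              · intro h
                exact absurd (Finset.mem_univ k) h
            rw [h5 x, h5 x₀, add_assoc]
            congr 1
            rw [map_add, LinearMap.add_apply, map_add, add_comm (a k (φ x y)), ← add_assoc,
              add_self, zero_add]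
          rw [h4, hx₀ y, zero_add]
        by_cases h6 : u + Pi.single k x ∈ S a
        · rw [ind_pos h6, ind_pos (h3.1 h6)]
        · rw [ind_neg h6, ind_neg fun h => h6 (h3.2 h)]
      rw [h2, av_shift (ind K) x₀]
      rfl
    · push Not at hex
      have h2 : (fun x : V => ind (S a) (u + Pi.single k x)) = fun _ => 0 := by
        funext x
        exact ind_neg (hex x)
      rw [h2, av_const]
      exact dn_nonneg K
  have hle : ∀ u : Fin l → V, ind {u : Fin l → V | ¬ Gen φ u} u ≤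
      ∑ a ∈ Finset.univ.filter (fun a : Fin l → Du M => a ≠ 0), ind (S a) u := by
    intro u
    by_cases hu : Gen φ u
    · rw [ind_neg (A := {u : Fin l → V | ¬ Gen φ u}) (fun h => h hu)]
      exact Finset.sum_nonneg fun a _ => ind_nonneg _ _
    · rw [ind_pos (A := {u : Fin l → V | ¬ Gen φ u}) hu]
      rw [gen_iff] at hu
      push Not at hu
      obtain ⟨a, ha1, ha2⟩ := hu
      have h1 : ind (S a) u = 1 := ind_pos ha1
      rw [← h1]
      exact Finset.single_le_sum (f := fun a => ind (S a) u) (fun a _ => ind_nonneg _ _)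
        (Finset.mem_filter.2 ⟨Finset.mem_univ a, ha2⟩)
  have h1 : dn {u : Fin l → V | ¬ Gen φ u} ≤
      ∑ a ∈ Finset.univ.filter (fun a : Fin l → Du M => a ≠ 0), dn (S a) := by
    unfold dn
    rw [← qd3a_av_sum]
    exact av_le_av hle
  refine h1.trans ?_
  have h2 : ∑ a ∈ Finset.univ.filter (fun a : Fin l → Du M => a ≠ 0), dn (S a) ≤
      ∑ _a ∈ Finset.univ.filter (fun a : Fin l → Du M => a ≠ 0), (1 / 4 ^ R : ℝ) :=
    Finset.sum_le_sum fun a ha => hone a (Finset.mem_filter.1 ha).2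
  refine h2.trans ?_
  rw [Finset.sum_const, nsmul_eq_mul]
  have h3 : ((Finset.univ.filter (fun a : Fin l → Du M => a ≠ 0)).card : ℝ) ≤ nc M ^ l := by
    have h4 : (Finset.univ.filter (fun a : Fin l → Du M => a ≠ 0)).card ≤
        Fintype.card (Fin l → Du M) := Finset.card_le_univ _
    have h5 : (Fintype.card (Fin l → Du M) : ℝ) = nc M ^ l := by
      rw [Fintype.card_fun, Fintype.card_fin, Nat.cast_pow, ← nc_eq, qd3a_nc_du]
    rw [← h5]
    exact_mod_cast h4
  calc _ ≤ nc M ^ l * (1 / 4 ^ R : ℝ) := mul_le_mul_of_nonneg_right h3 (by positivity)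
    _ = nc M ^ l / 4 ^ R := by ring

/-- versions with iterated averages -/
theorem av_not_gen_one (φ : Bil V M) {R : ℕ} (hR : HR φ R) :
    (av fun x : V => ind {x | ¬ Gen φ ![x]} x) ≤ nc M / 4 ^ R := by
  have h := dn_not_gen φ hR 1
  rw [pow_one] at h
  refine le_trans (le_of_eq ?_) h
  let e : V ≃ (Fin 1 → V) :=
    { toFun := fun x => ![x]
      invFun := fun u => u 0
      left_inv := fun x => rfl
      right_inv := fun u => by
        funext i
        fin_cases i
        rfl }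
  rw [dn, ← av_equiv e]
  rfl

theorem av_not_gen_two (φ : Bil V M) {R : ℕ} (hR : HR φ R) :
    (av fun x : V => av fun y : V => ind {p : V × V | ¬ Gen φ ![p.1, p.2]} (x, y)) ≤
      nc M ^ 2 / 4 ^ R := by
  refine le_trans (le_of_eq ?_) (dn_not_gen φ hR 2)
  let e : V × V ≃ (Fin 2 → V) :=
    { toFun := fun p => ![p.1, p.2]
      invFun := fun u => (u 0, u 1)
      left_inv := fun p => rfl
      right_inv := fun u => by
        funext i
        fin_cases i <;> rfl }
  rw [dn, ← av_equiv e, av_prod]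
  rfl

theorem av_not_gen_three (φ : Bil V M) {R : ℕ} (hR : HR φ R) :
    (av fun x : V => av fun y : V => av fun z : V =>
      ind {p : V × V × V | ¬ Gen φ ![p.1, p.2.1, p.2.2]} (x, y, z)) ≤ nc M ^ 3 / 4 ^ R := by
  refine le_trans (le_of_eq ?_) (dn_not_gen φ hR 3)
  let e : V × V × V ≃ (Fin 3 → V) :=
    { toFun := fun p => ![p.1, p.2.1, p.2.2]
      invFun := fun u => (u 0, u 1, u 2)
      left_inv := fun p => rfl
      right_inv := fun u => by
        funext i
        fin_cases i <;> rfl }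
  rw [dn, ← av_equiv e, av_prod]
  have h1 : ∀ x : V, (av fun y : V × V => ind {u : Fin 3 → V | ¬ Gen φ u} (e (x, y))) =
      av fun y : V => av fun z : V => ind {u : Fin 3 → V | ¬ Gen φ u} (e (x, y, z)) := fun x =>
    av_prod _
  simp only [h1]
  rfl

end G2
end

section

/-!
# Job QD3b: generic tuples: algebra
-/

set_option autoImplicit false

open Module

namespace G2

variable {V M L : Type} [AddCommGroup V] [Module (ZMod 2) V] [Finite V]
  [AddCommGroup M] [Module (ZMod 2) M] [Finite M] [AddCommGroup L] [Module (ZMod 2) L] [Finite L]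

omit [Finite V] [Finite M] in
private theorem qd3b_iff (φ : Bil V M) (a b c : V) : Gen φ ![a, b, c] ↔
    ∀ p q r : M, ∃ y, φ a y = p ∧ φ b y = q ∧ φ c y = r := by
  constructor
  · intro h p q r
    obtain ⟨y, hy⟩ := h ![p, q, r]
    exact ⟨y, congrFun hy 0, congrFun hy 1, congrFun hy 2⟩
  · intro h t
    obtain ⟨y, h0, h1, h2⟩ := h (t 0) (t 1) (t 2)
    refine ⟨y, ?_⟩
    funext i
    fin_cases i
    · exact h0
    · exact h1
    · exact h2

omit [Finite V] [Finite M] in
private theorem qd3b_add (φ : Bil V M) (a b y : V) : φ (a + b) y = φ a y + φ b y := by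
  rw [map_add, LinearMap.add_apply]

/-- invertible linear changes of the tuple: if every `u i` is a linear combination of the `v j` and
`v` is generic with the coefficient matrix surjective... we only need the following cases. -/
theorem gen_add_iff (φ : Bil V M) (a b c : V) : Gen φ ![a, b, c] ↔ Gen φ ![a, a + b, c] := by
  rw [qd3b_iff, qd3b_iff]
  constructor
  · intro h p q r
    obtain ⟨y, h0, h1, h2⟩ := h p (q + p) r
    refine ⟨y, h0, ?_, h2⟩
    rw [qd3b_add, h0, h1, add_comm q p, ← add_assoc, add_self, zero_add]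
  · intro h p q r
    obtain ⟨y, h0, h1, h2⟩ := h p (p + q) r
    refine ⟨y, h0, ?_, h2⟩
    rw [qd3b_add, h0] at h1
    exact add_left_cancel h1

theorem gen_swap01 (φ : Bil V M) (a b c : V) : Gen φ ![a, b, c] ↔ Gen φ ![b, a, c] := by
  rw [qd3b_iff, qd3b_iff]
  constructor
  · intro h p q r
    obtain ⟨y, h0, h1, h2⟩ := h q p r
    exact ⟨y, h1, h0, h2⟩
  · intro h p q r
    obtain ⟨y, h0, h1, h2⟩ := h q p r
    exact ⟨y, h1, h0, h2⟩

theorem gen_swap12 (φ : Bil V M) (a b c : V) : Gen φ ![a, b, c] ↔ Gen φ ![a, c, b] := by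
  rw [qd3b_iff, qd3b_iff]
  constructor
  · intro h p q r
    obtain ⟨y, h0, h1, h2⟩ := h p r q
    exact ⟨y, h0, h2, h1⟩
  · intro h p q r
    obtain ⟨y, h0, h1, h2⟩ := h p r q
    exact ⟨y, h0, h2, h1⟩

/-- replacing the third vector by the sum of all three -/
theorem gen_sum (φ : Bil V M) (a b c : V) : Gen φ ![a, b, c] ↔ Gen φ ![a, b, a + b + c] := by
  rw [qd3b_iff, qd3b_iff]
  constructor
  · intro h p q r
    obtain ⟨y, h0, h1, h2⟩ := h p q (r + (p + q))
    refine ⟨y, h0, h1, ?_⟩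
    rw [qd3b_add, qd3b_add, h0, h1, h2, add_comm r, ← add_assoc, add_self, zero_add]
  · intro h p q r
    obtain ⟨y, h0, h1, h2⟩ := h p q (p + q + r)
    refine ⟨y, h0, h1, ?_⟩
    rw [qd3b_add, qd3b_add, h0, h1] at h2
    exact add_left_cancel h2

/-- subtuples of generic tuples are generic -/
theorem gen_sub {l k : ℕ} (φ : Bil V M) (u : Fin l → V) (f : Fin k → Fin l)
    (hf : Function.Injective f) (h : Gen φ u) : Gen φ (fun i => u (f i)) := by
  intro t
  obtain ⟨t', ht'⟩ := hf.surjective_comp_right t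
  obtain ⟨y, hy⟩ := h t'
  refine ⟨y, ?_⟩
  rw [← ht']
  funext i
  exact congrFun hy (f i)

/-- for a generic `u` the map `(φ(u_i,·))_i` as a linear map, and its surjectivity -/
def gmap {l : ℕ} (φ : Bil V M) (u : Fin l → V) : V →ₗ[ZMod 2] (Fin l → M) :=
  LinearMap.pi fun i => φ (u i)

theorem gmap_surj {l : ℕ} {φ : Bil V M} {u : Fin l → V} (h : Gen φ u) :
    Function.Surjective (gmap φ u) := h

/-- uniqueness of the coefficients in a relation: `∑ B_i φ(u_i, ·) = 0` with `B_i : M → L` linear -/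
theorem gen_unique {l : ℕ} {φ : Bil V M} {u : Fin l → V} (h : Gen φ u)
    (B : Fin l → M →ₗ[ZMod 2] L) (hB : ∀ y, ∑ i, B i (φ (u i) y) = 0) : ∀ i, B i = 0 := by
  classical
  intro i
  ext m
  obtain ⟨y, hy⟩ := h (Pi.single i m)
  have h1 := hB y
  have h2 : ∀ k, φ (u k) y = (Pi.single i m : Fin l → M) k := fun k => congrFun hy k
  simp only [h2] at h1
  rw [Finset.sum_eq_single i, Pi.single_eq_same] at h1
  · exact h1
  · intro k _ hk
    rw [Pi.single_eq_of_ne hk, map_zero]
  · intro hi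
    exact absurd (Finset.mem_univ i) hi

/-- a functional into `Fin d → F_2` all of whose components are combinations of the `φ(u_i, ·)` is
of the form `∑ B_i ∘ φ(u_i)` -/
theorem gen_exists {l d : ℕ} {φ : Bil V M} {u : Fin l → V}
    (σ : V →ₗ[ZMod 2] (Fin d → ZMod 2))
    (hσ : ∀ j, ∃ b : Du (Fin l → M), ∀ y, σ y j = b (gmap φ u y)) :
    ∃ B : Fin l → M →ₗ[ZMod 2] (Fin d → ZMod 2), ∀ y, σ y = ∑ i, B i (φ (u i) y) := by
  classical
  choose b hb using hσ
  refine ⟨fun i => LinearMap.pi fun j => (b j).comp (LinearMap.single (ZMod 2) (fun _ => M) i),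
    fun y => ?_⟩
  funext j
  rw [hb, Finset.sum_apply]
  simp only [LinearMap.pi_apply, LinearMap.comp_apply, LinearMap.coe_single]
  rw [← map_sum]
  congr 1
  funext i
  rw [Finset.sum_apply, Finset.sum_eq_single i, Pi.single_eq_same]
  · rfl
  · intro k _ hk
    rw [Pi.single_eq_of_ne (Ne.symm hk)]
  · intro hi
    exact absurd (Finset.mem_univ i) hi

end G2
end
end
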