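import Pool.Agent.Lib.MP_f4f4db_co.G2.Basic
import Pool.Agent.Lib.MP_f4f4db_co.G2.QD1
import Pool.Agent.Lib.MP_f4f4db_co.G2.CO4
import Pool.Agent.Lib.MP_f4f4db_co.G2.Akm
import Pool.Agent.Lib.MP_f4f4db_co.G2.QD3b
import Pool.Agent.Lib.MP_f4f4db_co.G2.DAd

section

section

/-!
# Job BA0: the lift to `X × L` (base case, first half)
-/

set_option autoImplicit false

open Module

namespace G2

theorem ba0_pow {V : Type} [Finite V] (f : V → ℝ) (N : ℕ) :
    (av f) ^ N = av fun s : Fin N → V => ∏ i, f (s i) := by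
  classical
  have := Fintype.ofFinite V
  rw [av_eq, av_eq, div_pow, Fintype.sum_pow, Fintype.card_fun, Fintype.card_fin]
  push_cast
  rfl

/-- `A_f(s) = E_x ∏ f(s_i + x)` -/
noncomputable def ba0A {V : Type} [AddCommGroup V] [Finite V] (f : V → ℝ) (N : ℕ)
    (s : Fin N → V) : ℝ := av fun x => ∏ i, f (s i + x)

theorem ba0A_shift {V : Type} [AddCommGroup V] [Finite V] (f : V → ℝ) (N : ℕ)
    (s : Fin N → V) (z : V) : ba0A f N (s + fun _ => z) = ba0A f N s := by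
  unfold ba0A
  rw [← av_shift_left (fun x => ∏ i, f (s i + x)) z]
  simp only [Pi.add_apply, add_assoc]

theorem ba0_moment {V : Type} [AddCommGroup V] [Finite V] (f g : V → ℝ) (N : ℕ) :
    (av fun x => cor f g x ^ N) = av fun s : Fin N → V => ba0A f N s * ba0A g N s := by
  have h1 : (av fun x => cor f g x ^ N) =
      av fun s : Fin N → V => (∏ i, f (s i)) * ba0A g N s := by
    have h2 : ∀ x, cor f g x ^ N = av fun s : Fin N → V => (∏ i, f (s i)) * ∏ i, g (s i + x) := by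
      intro x
      unfold cor
      rw [ba0_pow]
      simp only [Finset.prod_mul_distrib]
    simp only [h2]
    rw [av_comm]
    simp only [av_mul_left]
    rfl
  have h3 : ∀ z : V, (av fun s : Fin N → V => (∏ i, f (s i)) * ba0A g N s) =
      av fun s : Fin N → V => (∏ i, f (s i + z)) * ba0A g N s := by
    intro z
    rw [← av_shift (fun s : Fin N → V => (∏ i, f (s i)) * ba0A g N s) (fun _ => z)]
    simp only [ba0A_shift, Pi.add_apply]
  rw [h1]
  have h4 : (av fun s : Fin N → V => (∏ i, f (s i)) * ba0A g N s) =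
      av fun _ : V => (av fun s : Fin N → V => (∏ i, f (s i)) * ba0A g N s) := by
    rw [av_const]
  rw [h4]
  have h5 : (fun _ : V => (av fun s : Fin N → V => (∏ i, f (s i)) * ba0A g N s)) =
      fun z : V => av fun s : Fin N → V => (∏ i, f (s i + z)) * ba0A g N s := by
    funext z
    exact h3 z
  rw [h5, av_comm]
  simp only [av_mul_right]
  rfl

/-- moments: `E (f ∘ g)^N = E_{s ∈ V^N} A_f(s) A_g(s)` with `A_f(s) = E_x ∏ f(s_i + x)`, so by
Cauchy-Schwarz `(E (f ∘ g)^N)^2 ≤ E (f ∘ f)^N · E (g ∘ g)^N` -/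
theorem moment_cs {V : Type} [AddCommGroup V] [Module (ZMod 2) V] [Finite V] (f g : V → ℝ)
    (N : ℕ) :
    (av fun x => cor f g x ^ N) ^ 2 ≤ (av fun x => cor f f x ^ N) * av fun x => cor g g x ^ N := by
  rw [ba0_moment, ba0_moment, ba0_moment]
  have h := av_cs (fun s : Fin N → V => ba0A f N s) (fun s : Fin N → V => ba0A g N s)
  simp only [sq] at h ⊢
  exact h

end G2
end

section

/-!
# Job SY1a: the symmetry argument
-/

set_option autoImplicit false

open Module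

namespace G2

variable {V : Type} [AddCommGroup V] [Module (ZMod 2) V] [Finite V]

omit [Module (ZMod 2) V] in
theorem sy1a_sq (F : V → ℝ) : (av F) ^ 2 = av fun y => av fun u => F y * F (y + u) := by
  have h : ∀ y, (av fun u => F y * F (y + u)) = F y * av F := fun y => by
    rw [av_mul_left, av_shift_left F y]
  simp only [h]
  rw [av_mul_right, sq]

theorem sy1a_step1 (f : V → ℝ) (Φ : Bil V (ZMod 2)) (c : Du V) (w : V) :
    (av fun y => f y * f (y + w) * sg (Φ w y + c y)) ^ 2 =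
      av fun y => av fun u => f y * f (y + w) * (f (y + u) * f (y + u + w)) * sg (Φ w u + c u) := by
  rw [sy1a_sq]
  congr 1
  funext y
  congr 1
  funext u
  have h : sg (Φ w y + c y) * sg (Φ w (y + u) + c (y + u)) = sg (Φ w u + c u) := by
    rw [← sg_add, map_add, map_add]
    congr 1
    have : Φ w y + c y + (Φ w y + Φ w u + (c y + c u)) =
        (Φ w y + Φ w y) + (c y + c y) + (Φ w u + c u) := by ring
    rw [this, add_self, add_self, zero_add, zero_add]
  rw [← h]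
  ring

/-- the function `g_v` -/
noncomputable def sy1a_g (f : V → ℝ) (Φ : Bil V (ZMod 2)) (c : Du V) (v y : V) : ℝ :=
  f y * f (y + v) * sg (Φ y y + Φ y v + c y)

omit [Finite V] in
theorem sy1a_abs_g (f ν : V → ℝ) (hf0 : ∀ y, 0 ≤ f y) (hf1 : ∀ y, f y ≤ ν y)
    (Φ : Bil V (ZMod 2)) (c : Du V) (v y : V) : |sy1a_g f Φ c v y| ≤ ν y * ν (y + v) := by
  rw [sy1a_g, abs_mul, abs_sg, mul_one, abs_of_nonneg (mul_nonneg (hf0 _) (hf0 _))]
  exact mul_le_mul (hf1 _) (hf1 _) (hf0 _) ((hf0 _).trans (hf1 _))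

theorem sy1a_step2 (f : V → ℝ) (Φ : Bil V (ZMod 2)) (c : Du V) :
    (av fun w => (av fun y => f y * f (y + w) * sg (Φ w y + c y)) ^ 2) =
      av fun v => av fun y => sg (c v) * sy1a_g f Φ c v y *
        av fun z => sy1a_g f Φ c v z * sg (Φ y z + Φ z y) := by
  simp only [sy1a_step1]
  rw [av_comm]
  have h1 : ∀ y : V, (av fun w => av fun u =>
      f y * f (y + w) * (f (y + u) * f (y + u + w)) * sg (Φ w u + c u)) =
      av fun z => av fun v => sg (c v) * sy1a_g f Φ c v y * (sy1a_g f Φ c v z * sg (Φ y z + Φ z y)) := by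
    intro y
    rw [← av_shift_left (fun w => av fun u =>
      f y * f (y + w) * (f (y + u) * f (y + u + w)) * sg (Φ w u + c u)) y]
    congr 1
    funext z
    rw [← av_shift_left (fun u =>
      f y * f (y + (y + z)) * (f (y + u) * f (y + u + (y + z))) * sg (Φ (y + z) u + c u)) (y + z)]
    congr 1
    funext v
    have e1 : y + (y + z) = z := by rw [← add_assoc, add_self, zero_add]
    have e2 : y + (y + z + v) = z + v := by
      rw [← add_assoc, e1]
    have e3 : z + v + (y + z) = y + v := by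
      have : z + v + (y + z) = (z + z) + (y + v) := by abel
      rw [this, add_self, zero_add]
    rw [e1, e2, e3]
    have e4 : sg (Φ (y + z) (y + z + v) + c (y + z + v)) =
        sg (c v) * sg (Φ y y + Φ y v + c y) * (sg (Φ z z + Φ z v + c z) * sg (Φ y z + Φ z y)) := by
      rw [← sg_add, ← sg_add, ← sg_add]
      congr 1
      simp only [map_add, LinearMap.add_apply]
      ring
    rw [e4, sy1a_g, sy1a_g]
    ring
  simp only [h1]
  have h2 : ∀ y : V, (av fun z => av fun v =>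
      sg (c v) * sy1a_g f Φ c v y * (sy1a_g f Φ c v z * sg (Φ y z + Φ z y))) =
      av fun v => sg (c v) * sy1a_g f Φ c v y *
        av fun z => sy1a_g f Φ c v z * sg (Φ y z + Φ z y) := by
    intro y
    rw [av_comm]
    simp only [av_mul_left]
  simp only [h2]
  rw [av_comm]

theorem sy1a_step4 (f ν : V → ℝ) (hf0 : ∀ y, 0 ≤ f y) (hf1 : ∀ y, f y ≤ ν y)
    (Φ : Bil V (ZMod 2)) (c : Du V) (v : V) :
    (av fun y => ν y * ν (y + v) *
      (av fun z => sy1a_g f Φ c v z * sg (Φ y z + Φ z y)) ^ 2) ≤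
      av fun h => PK ν v h * |av fun y => ν y * ν (y + v) * sg (Φ h y + Φ y h)| := by
  have hν : ∀ y, 0 ≤ ν y := fun y => (hf0 y).trans (hf1 y)
  have h1 : ∀ y : V, (av fun z => sy1a_g f Φ c v z * sg (Φ y z + Φ z y)) ^ 2 =
      av fun h => sg (Φ h y + Φ y h) * av fun z => sy1a_g f Φ c v z * sy1a_g f Φ c v (z + h) := by
    intro y
    rw [sy1a_sq, av_comm]
    congr 1
    funext h
    rw [← av_mul_left]
    congr 1
    funext z
    have e : sg (Φ y z + Φ z y) * sg (Φ y (z + h) + Φ (z + h) y) = sg (Φ h y + Φ y h) := by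
      rw [← sg_add]
      congr 1
      simp only [map_add, LinearMap.add_apply]
      have : Φ y z + Φ z y + (Φ y z + Φ y h + (Φ z y + Φ h y)) =
        (Φ y z + Φ y z) + (Φ z y + Φ z y) + (Φ h y + Φ y h) := by ring
      rw [this, add_self, add_self, zero_add, zero_add]
    rw [← e]
    ring
  simp only [h1]
  have h2' : ∀ a : V → ℝ, (av fun y => ν y * ν (y + v) * av fun h => sg (Φ h y + Φ y h) * a h) =
      av fun h => a h * av fun y => ν y * ν (y + v) * sg (Φ h y + Φ y h) := by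
    intro a
    have h3 : ∀ y : V, (ν y * ν (y + v) * av fun h => sg (Φ h y + Φ y h) * a h) =
        av fun h => ν y * ν (y + v) * (sg (Φ h y + Φ y h) * a h) :=
      fun y => (av_mul_left _ _).symm
    simp only [h3]
    rw [av_comm]
    congr 1
    funext h
    rw [← av_mul_left]
    congr 1
    funext y
    ring
  rw [h2' fun h => av fun z => sy1a_g f Φ c v z * sy1a_g f Φ c v (z + h)]
  refine av_le_av fun h => ?_
  refine (le_abs_self _).trans ?_
  rw [abs_mul]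
  refine mul_le_mul_of_nonneg_right ?_ (abs_nonneg _)
  refine (abs_av_le _).trans (av_le_av fun z => ?_)
  rw [abs_mul]
  have e : z + h + v = z + v + h := by abel
  have := mul_le_mul (sy1a_abs_g f ν hf0 hf1 Φ c v z) (sy1a_abs_g f ν hf0 hf1 Φ c v (z + h))
    (abs_nonneg _) (mul_nonneg (hν _) (hν _))
  rw [e] at this
  exact this

/-- Let `X = E_w (E_y f(y) f(y+w) sg(Φ(w,y) + c(y)))^2`.  Expanding the square (second variable
`y + u`) `X = E_{y,w,u} f(y) f(y+w) f(y+u) f(y+w+u) sg(Φ(w,u) + c(u))`.  Substitute `y = y₁`,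
`w = y₁ + y₂`, `u = y₁ + y₂ + v`; then the four points are `y₁, y₂, y₂ + v, y₁ + v` and
`Φ(w,u) = Φ(y₁,y₁) + Φ(y₂,y₂) + Φ(y₁,v) + Φ(y₂,v) + Ψ(y₁,y₂)`, `Ψ(x,y) = Φ(x,y) + Φ(y,x)`, so
`X = E_v sg(c v) E_{y₁,y₂} g_v(y₁) g_v(y₂) sg Ψ(y₁,y₂)` with
`g_v(y) = f(y) f(y+v) sg(Φ(y,y) + Φ(y,v) + c(y))`, `|g_v(y)| ≤ ν(y) ν(y+v)`.  Cauchy-Schwarz in
`(v, y₁)` with the weight `ν(y₁) ν(y₁+v)`:
`X^2 ≤ E_v cor ν ν v · E_{v,y₁} ν(y₁) ν(y₁+v) (E_{y₂} g_v(y₂) sg Ψ(y₁,y₂))^2`, and expanding the last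
square (second variable `y₂ + h`) it is at most
`E_{v,h} PK ν v h · |E_y ν(y) ν(y+v) sg Ψ(h,y)|`. -/
theorem sy_cs (f ν : V → ℝ) (hf0 : ∀ y, 0 ≤ f y) (hf1 : ∀ y, f y ≤ ν y) (Φ : Bil V (ZMod 2))
    (c : Du V) :
    (av fun w => (av fun y => f y * f (y + w) * sg (Φ w y + c y)) ^ 2) ^ 2 ≤
      (av fun v => cor ν ν v) * av fun v => av fun h =>
        PK ν v h * |av fun y => ν y * ν (y + v) * sg (Φ h y + Φ y h)| := by
  have hν : ∀ y, 0 ≤ ν y := fun y => (hf0 y).trans (hf1 y)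
  rw [sy1a_step2]
  set A : V → V → ℝ := fun v y => av fun z => sy1a_g f Φ c v z * sg (Φ y z + Φ z y) with hA
  have h1 : |av fun v => av fun y => sg (c v) * sy1a_g f Φ c v y * A v y| ≤
      av fun p : V × V => ν p.2 * ν (p.2 + p.1) * |A p.1 p.2| := by
    rw [av_prod]
    refine (abs_av_le _).trans (av_le_av fun v => (abs_av_le _).trans (av_le_av fun y => ?_))
    rw [abs_mul, abs_mul, abs_sg, one_mul]
    exact mul_le_mul_of_nonneg_right (sy1a_abs_g f ν hf0 hf1 Φ c v y) (abs_nonneg _)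
  have h2 := av_cs_weight (fun p : V × V => ν p.2 * ν (p.2 + p.1)) (fun p => |A p.1 p.2|)
    (fun p => mul_nonneg (hν _) (hν _))
  have h3 : (av fun v => av fun y => sg (c v) * sy1a_g f Φ c v y * A v y) ^ 2 ≤
      (av fun p : V × V => ν p.2 * ν (p.2 + p.1) * |A p.1 p.2|) ^ 2 := by
    rw [← sq_abs]
    exact pow_le_pow_left₀ (abs_nonneg _) h1 2
  refine h3.trans (h2.trans ?_)
  have h4 : (av fun p : V × V => ν p.2 * ν (p.2 + p.1)) = av fun v => cor ν ν v := by
    rw [av_prod]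
    rfl
  rw [h4]
  refine mul_le_mul_of_nonneg_left ?_ (av_nonneg fun v => av_nonneg fun y =>
    mul_nonneg (hν _) (hν _))
  rw [av_prod]
  refine av_le_av fun v => ?_
  simp only [sq_abs]
  exact sy1a_step4 f ν hf0 hf1 Φ c v

end G2
end

section

/-!
# Job SY1b: symmetry: upper bound and main result
-/

set_option autoImplicit false

open Module

namespace G2

variable {V : Type} [AddCommGroup V] [Module (ZMod 2) V] [Finite V]

omit [AddCommGroup V] [Module (ZMod 2) V] in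
private theorem sy1b_av_su {β : Type} [Finite β] (f : V → β → ℝ) :
    (av fun x => su fun y => f x y) = su fun y => av fun x => f x y := by
  have := Fintype.ofFinite V
  have := Fintype.ofFinite β
  simp only [av_eq, su_eq]
  rw [Finset.sum_comm, Finset.sum_div]

private theorem sy1b_small {M : Type} [AddCommGroup M] [Module (ZMod 2) M] [Finite M] (k R : ℕ) :
    nc M ^ k / 4 ^ R ≤ er M k R := by
  unfold er
  have h0 := nc_nonneg M
  refine div_le_div₀ (by positivity) ?_ (by positivity) ?_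
  · exact pow_le_pow_left₀ h0 (by linarith) k
  · exact pow_le_pow_left₀ (by norm_num) (by norm_num) R

/-- Upper bound for the last average for `ν = nu q`.  For generic `(v, h)` and `v` generic:
`PK ν v h = |M| 1[φ(v,h) = 0] + O(er)` (`PK_nu`), the inner average is at most `1 + er` always
(`shift_le`) and at most `er` if `Ψ(h,·)` is not of the form `a ∘ φ(v)` (`shift_small`).
If `Ψ(h,·) ≠ 0` the `v` with `Ψ(h,·) = a ∘ φ(v)` for some `a ≠ 0` have density at most
`|M| 4^(-R)`, for `a = 0` there are none.  If `Ψ(h,·) = 0` and `h` is generic the average over `v` of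
`|M| 1[φ(v,h) = 0]` is `1`. -/
theorem sy_upper : ∃ C : ℕ, ∀ (s R : ℕ) (V M : Type) [AddCommGroup V] [Module (ZMod 2) V]
    [Finite V] [AddCommGroup M] [Module (ZMod 2) M] [Finite M] (q : V → M) (φ : Bil V M)
    (Φ : Bil V (ZMod 2)), IsQ q φ → HR φ R → pw C (rk M + s) ≤ R →
    (av fun v => av fun h =>
        PK (nu q) v h * |av fun y => nu q y * nu q (y + v) * sg (Φ h y + Φ y h)|) ≤
      4 * dn {h : V | ∀ y, Φ h y + Φ y h = 0} + (1 / 2) ^ s := by
  refine ⟨5, fun s R V M _ _ _ _ _ _ q φ Φ hq hR hC => ?_⟩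
  have hm1 : 1 ≤ nc M := one_le_nc
  have hm0 : 0 ≤ nc M := nc_nonneg M
  have hCR : 11 * (rk M + 1) + s ≤ R := by
    refine le_trans ?_ hC
    unfold pw
    have h2 : 2 ^ 4 ≤ (rk M + s + 2) ^ 4 := Nat.pow_le_pow_left (by omega) 4
    have h3 : (rk M + s + 2) ^ 5 = (rk M + s + 2) ^ 4 * (rk M + s + 2) := pow_succ _ 4
    rw [h3]
    have h4 := Nat.mul_le_mul_right (rk M + s + 2) h2
    omega
  have hs11 : er M 11 R ≤ (1 / 2 : ℝ) ^ s := er_le hCR
  have he2 : er M 2 R ≤ 1 := by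
    have h : er M 2 R ≤ (1 / 2 : ℝ) ^ 0 := er_le (by omega)
    rwa [pow_zero] at h
  have hE0 : 0 ≤ er M 8 R := er_nonneg 8 R
  have hE1 : er M 1 R ≤ er M 8 R := er_mono (by norm_num) R
  have hE4 : er M 4 R ≤ er M 8 R := er_mono (by norm_num) R
  have hE6 : er M 6 R ≤ er M 8 R := er_mono (by norm_num) R
  have hE8 : 2 ^ 3 * er M 8 R ≤ er M 11 R := two_mul_er 3 8 R
  have he40 : 0 ≤ er M 4 R := er_nonneg 4 R
  have he60 : 0 ≤ er M 6 R := er_nonneg 6 R
  set Z : Set V := {h : V | ∀ y, Φ h y + Φ y h = 0} with hZ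
  set NG : Set (V × V) := {p | ¬ Gen φ ![p.1, p.2]} with hNG
  set BD : Set (V × V) := {p | ∃ a : Du M, a ≠ 0 ∧ ∀ y, Φ p.2 y + Φ y p.2 = a (φ p.1 y)} with hBD
  have hPnn : ∀ v h, 0 ≤ PK (nu q) v h := PK_nu_nonneg q
  have hPle : ∀ v h, PK (nu q) v h ≤ nc M ^ 4 := PK_nu_le q
  have hIle : ∀ v h, |av fun y => nu q y * nu q (y + v) * sg (Φ h y + Φ y h)| ≤ nc M ^ 2 := by
    intro v h
    refine (abs_av_le _).trans (av_le_const fun y => ?_)
    rw [abs_mul, abs_sg, mul_one, abs_mul, abs_of_nonneg (nu_nonneg q y),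
      abs_of_nonneg (nu_nonneg q (y + v)), sq]
    exact mul_le_mul (nu_le q y) (nu_le q (y + v)) (nu_nonneg q _) hm0
  have hpt : ∀ v h, PK (nu q) v h * |av fun y => nu q y * nu q (y + v) * sg (Φ h y + Φ y h)| ≤
      nc M ^ 6 * ind NG (v, h) + nc M ^ 6 * ind BD (v, h) +
        (2 * (nc M * ind {x | φ x h = 0} v * (1 * ind Z h)) + (er M 6 R + 2 * er M 4 R)) := by
    intro v h
    have hI := hIle v h
    have hI0 : 0 ≤ |av fun y => nu q y * nu q (y + v) * sg (Φ h y + Φ y h)| := abs_nonneg _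
    have hP := hPle v h
    have hP0 := hPnn v h
    have t1 : 0 ≤ nc M ^ 6 * ind NG (v, h) := mul_nonneg (by positivity) (ind_nonneg _ _)
    have t2 : 0 ≤ nc M ^ 6 * ind BD (v, h) := mul_nonneg (by positivity) (ind_nonneg _ _)
    have t3 : 0 ≤ 2 * (nc M * ind {x | φ x h = 0} v * (1 * ind Z h)) := by
      have h1 := ind_nonneg {x | φ x h = 0} v
      have h2 := ind_nonneg Z h
      positivity
    have h6 : PK (nu q) v h * |av fun y => nu q y * nu q (y + v) * sg (Φ h y + Φ y h)| ≤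
        nc M ^ 6 := by
      calc _ ≤ nc M ^ 4 * nc M ^ 2 := mul_le_mul hP hI hI0 (by positivity)
        _ = nc M ^ 6 := by rw [← pow_add]
    by_cases hg : Gen φ ![v, h]
    · have hg1 : Gen φ ![v] := by
        have h1 := gen_sub φ ![v, h] (fun _ : Fin 1 => (0 : Fin 2))
          (fun i j _ => Subsingleton.elim i j) hg
        have e : (fun i : Fin 1 => ![v, h] ((fun _ : Fin 1 => (0 : Fin 2)) i)) = ![v] := by
          funext i
          rw [Subsingleton.elim i 0]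
          rfl
        rw [← e]
        exact h1
      have hprod : ∀ y, (∏ i : Fin 1, nu q (y + ![v] i)) = nu q (y + v) := by
        intro y
        rw [Fin.prod_univ_one]
        rfl
      set σ : Du V := Φ h + Φ.flip h with hσ
      have hσy : ∀ y, σ y = Φ h y + Φ y h := fun y => rfl
      by_cases hz : h ∈ Z
      · have h1 := shift_le hq hR hg1 σ
        simp only [hprod, hσy] at h1
        have h2 := (abs_sub_le_iff.1 (PK_nu hq hR hg)).1
        rw [ind_pos hz]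
        have h3 : |av fun y => nu q y * nu q (y + v) * sg (Φ h y + Φ y h)| ≤ 2 := by
          have : er M (1 + 1) R = er M 2 R := rfl
          rw [this] at h1
          linarith
        have h4 : PK (nu q) v h ≤ nc M * ind {x | φ x h = 0} v + er M 4 R := by linarith
        have h5 : 0 ≤ nc M * ind {x | φ x h = 0} v + er M 4 R := hP0.trans h4
        have h7 := mul_le_mul h4 h3 hI0 h5
        linarith
      · by_cases hb : (v, h) ∈ BD
        · rw [ind_pos hb]
          linarith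
        · have h1 : ∀ b : Du (Fin 1 → M), σ ≠ b.comp (gmap φ ![v]) := by
            intro b hbσ
            have h2 : ∀ y, Φ h y + Φ y h =
                (b.comp (LinearMap.pi fun _ : Fin 1 => (LinearMap.id : M →ₗ[ZMod 2] M))) (φ v y) := by
              intro y
              rw [← hσy, hbσ]
              simp only [LinearMap.comp_apply]
              congr 1
              funext i
              rw [Subsingleton.elim i 0]
              rfl
            by_cases ha : b.comp (LinearMap.pi fun _ : Fin 1 => (LinearMap.id : M →ₗ[ZMod 2] M)) = 0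
            · apply hz
              intro y
              rw [h2 y, ha, LinearMap.zero_apply]
            · exact hb ⟨_, ha, h2⟩
          have h2 := shift_small hq hR ![v] σ h1
          simp only [hprod, hσy] at h2
          have h3 : PK (nu q) v h * |av fun y => nu q y * nu q (y + v) * sg (Φ h y + Φ y h)| ≤
              nc M ^ 4 * er M 2 R := mul_le_mul hP h2 hI0 (by positivity)
          have h4 : nc M ^ 4 * er M 2 R ≤ er M 6 R := nc_mul_er 4 2 R
          linarith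
    · rw [ind_pos (A := NG) hg]
      linarith
  have a1 : (av fun v : V => av fun h : V => ind NG (v, h)) ≤ nc M ^ 2 / 4 ^ R :=
    av_not_gen_two φ hR
  have a2 : (av fun v : V => av fun h : V => ind BD (v, h)) ≤ nc M / 4 ^ R := by
    rw [av_comm]
    refine av_le_const fun h => ?_
    have h1 : ∀ v : V, ind BD (v, h) ≤ su fun a : Du M =>
        ind {a : Du M | a ≠ 0} a * ind {v | ∀ y, Φ h y + Φ y h = a (φ v y)} v := by
      intro v
      by_cases hb : (v, h) ∈ BD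
      · rw [ind_pos hb]
        obtain ⟨a, ha, hay⟩ := hb
        refine le_trans ?_ (le_su (fun a => mul_nonneg (ind_nonneg _ _) (ind_nonneg _ _)) a)
        rw [ind_pos (A := {a : Du M | a ≠ 0}) ha,
          ind_pos (A := {v | ∀ y, Φ h y + Φ y h = a (φ v y)}) hay, one_mul]
      · rw [ind_neg hb]
        exact su_nonneg fun a => mul_nonneg (ind_nonneg _ _) (ind_nonneg _ _)
    refine (av_le_av h1).trans ?_
    rw [sy1b_av_su]
    have h2 : ∀ a : Du M, (av fun v : V => ind {a : Du M | a ≠ 0} a *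
        ind {v | ∀ y, Φ h y + Φ y h = a (φ v y)} v) ≤ 1 / 4 ^ R := by
      intro a
      by_cases ha : a = 0
      · have e : (fun v : V => ind {a : Du M | a ≠ 0} a *
            ind {v | ∀ y, Φ h y + Φ y h = a (φ v y)} v) = fun _ => 0 := by
          funext v
          rw [ind_neg (A := {a : Du M | a ≠ 0}) (fun h => h ha), zero_mul]
        rw [e, av_const]
        positivity
      · rw [av_mul_left, ind_pos (A := {a : Du M | a ≠ 0}) ha, one_mul]
        have hker : dn {v : V | ∀ y, a (φ v y) = 0} ≤ 1 / 4 ^ R := by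
          rw [le_div_iff₀ (by positivity), mul_comm]
          exact hR a ha
        by_cases hne : ∃ v0 : V, ∀ y, Φ h y + Φ y h = a (φ v0 y)
        · obtain ⟨v0, hv0⟩ := hne
          refine le_trans ?_ hker
          rw [dn, ← av_shift (ind {v : V | ∀ y, a (φ v y) = 0}) v0]
          refine av_le_av fun v => ?_
          by_cases hv : ∀ y, Φ h y + Φ y h = a (φ v y)
          · have h3 : v + v0 ∈ {v : V | ∀ y, a (φ v y) = 0} := by
              intro y
              rw [map_add, LinearMap.add_apply, map_add, ← hv y, ← hv0 y]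
              exact add_self _
            rw [ind_pos (A := {v | ∀ y, Φ h y + Φ y h = a (φ v y)}) hv, ind_pos h3]
          · rw [ind_neg (A := {v | ∀ y, Φ h y + Φ y h = a (φ v y)}) hv]
            exact ind_nonneg _ _
        · have e : (fun v : V => ind {v | ∀ y, Φ h y + Φ y h = a (φ v y)} v) = fun _ => 0 := by
            funext v
            exact ind_neg fun hv => hne ⟨v, hv⟩
          have e2 : av (ind {v : V | ∀ y, Φ h y + Φ y h = a (φ v y)}) = 0 := by
            have := congrArg av e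
            rw [av_const] at this
            exact this
          rw [e2]
          positivity
    refine (su_le_su h2).trans ?_
    rw [su_const, nc_Du]
    exact le_of_eq (by ring)
  have a3 : (av fun v : V => av fun h : V => nc M * ind {x | φ x h = 0} v * (1 * ind Z h)) ≤
      dn Z + er M 1 R := by
    have h1 := iso_uniform (φ := φ) hq.symm hR (fun _ => 1) (ind Z) (fun _ => by simp)
      (fun h => by rw [abs_of_nonneg (ind_nonneg _ _)]; exact ind_le_one _ _)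
    have h2 := (abs_sub_le_iff.1 h1).1
    rw [av_const, one_mul] at h2
    unfold dn
    linarith
  have a4 : (av fun v : V => av fun h : V =>
      PK (nu q) v h * |av fun y => nu q y * nu q (y + v) * sg (Φ h y + Φ y h)|) ≤
      nc M ^ 6 * (av fun v : V => av fun h : V => ind NG (v, h)) +
        nc M ^ 6 * (av fun v : V => av fun h : V => ind BD (v, h)) +
        (2 * (av fun v : V => av fun h : V => nc M * ind {x | φ x h = 0} v * (1 * ind Z h)) +
          (er M 6 R + 2 * er M 4 R)) := by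
    refine (av_le_av fun v => av_le_av fun h => hpt v h).trans (le_of_eq ?_)
    simp only [av_add, av_mul_left, av_const]
  have b1 : nc M ^ 6 * (nc M ^ 2 / 4 ^ R) ≤ er M 8 R := by
    rw [← mul_div_assoc, ← pow_add]
    exact sy1b_small 8 R
  have b2 : nc M ^ 6 * (nc M / 4 ^ R) ≤ er M 8 R := by
    refine le_trans ?_ b1
    refine mul_le_mul_of_nonneg_left ?_ (by positivity)
    refine div_le_div_of_nonneg_right ?_ (by positivity)
    nlinarith
  have c1 : nc M ^ 6 * (av fun v : V => av fun h : V => ind NG (v, h)) ≤ er M 8 R :=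
    (mul_le_mul_of_nonneg_left a1 (by positivity)).trans b1
  have c2 : nc M ^ 6 * (av fun v : V => av fun h : V => ind BD (v, h)) ≤ er M 8 R :=
    (mul_le_mul_of_nonneg_left a2 (by positivity)).trans b2
  have hdn : 0 ≤ dn Z := dn_nonneg Z
  linarith

/-- Main result of block SY -/
theorem sy_main : ∃ C : ℕ, ∀ (t R : ℕ) (V M : Type) [AddCommGroup V] [Module (ZMod 2) V]
    [Finite V] [AddCommGroup M] [Module (ZMod 2) M] [Finite M] (q : V → M) (φ : Bil V M)
    (F : Set V) (Φ : Bil V (ZMod 2)) (c : Du V), IsQ q φ → HR φ R → pw C (rk M + t) ≤ R →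
    (∀ y ∈ F, q y = 0) →
    (1 / 2 : ℝ) ^ t ≤
      (av fun w => (av fun y => wf M F y * wf M F (y + w) * sg (Φ w y + c y)) ^ 2) →
    (1 / 2 : ℝ) ^ pw C t ≤ dn {h : V | ∀ y, Φ h y + Φ y h = 0} := by
  obtain ⟨C0, hup⟩ := sy_upper
  refine ⟨3 * C0 + 3, fun t R V M _ _ _ _ _ _ q φ F Φ c hq hR hC hF hX => ?_⟩
  have hx2 : 2 ≤ rk M + t + 2 := by omega
  have hC3 : pw (3 * C0 + 3) (rk M + t) = ((rk M + t + 2) ^ 3) ^ C0 * (rk M + t + 2) ^ 3 := by
    unfold pw
    rw [pow_add, pow_mul]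
  have hcube : 4 * (rk M + t + 2) ≤ (rk M + t + 2) ^ 3 := by
    have h2 : 2 ^ 2 ≤ (rk M + t + 2) ^ 2 := Nat.pow_le_pow_left hx2 2
    have h3 : (rk M + t + 2) ^ 3 = (rk M + t + 2) ^ 2 * (rk M + t + 2) := pow_succ _ 2
    rw [h3]
    exact Nat.mul_le_mul_right _ h2
  have hC1 : pw C0 (rk M + (2 * t + 3)) ≤ R := by
    refine le_trans ?_ hC
    rw [hC3]
    unfold pw
    calc (rk M + (2 * t + 3) + 2) ^ C0 ≤ ((rk M + t + 2) ^ 3) ^ C0 :=
          Nat.pow_le_pow_left (by omega) C0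
      _ = ((rk M + t + 2) ^ 3) ^ C0 * 1 := (mul_one _).symm
      _ ≤ _ := Nat.mul_le_mul_left _ (by omega)
  have hC2 : 1 * (rk M + 1) + 0 ≤ R := by
    refine le_trans ?_ hC
    rw [hC3]
    calc 1 * (rk M + 1) + 0 ≤ 1 * (rk M + t + 2) ^ 3 := by omega
      _ ≤ _ := Nat.mul_le_mul_right _ (Nat.one_le_pow _ _ (by positivity))
  have he1 : er M 1 R ≤ 1 := by
    have h : er M 1 R ≤ (1 / 2 : ℝ) ^ 0 := er_le hC2
    rwa [pow_zero] at h
  have h1 := sy_cs (wf M F) (nu q) (fun y => mul_nonneg (nc_nonneg M) (ind_nonneg _ _))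
    (fun y => by
      unfold wf nu
      exact mul_le_mul_of_nonneg_left (ind_mono (fun y hy => hF y hy) y) (nc_nonneg M)) Φ c
  have h2 := hup (2 * t + 3) R V M q φ Φ hq hR hC1
  have h3 : (av fun v => cor (nu q) (nu q) v) ≤ 4 := by
    have e : (av fun v => cor (nu q) (nu q) v) = av (nu q) * av (nu q) := av_cor (nu q) (nu q)
    rw [e]
    have h4 := (abs_sub_le_iff.1 (av_nu hq hR)).1
    have h5 : 0 ≤ av (nu q) := av_nonneg fun y => nu_nonneg q y
    nlinarith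
  have h30 : 0 ≤ (av fun v => cor (nu q) (nu q) v) := av_nonneg fun v => cor_nu_nonneg q v
  set ζ := dn {h : V | ∀ y, Φ h y + Φ y h = 0} with hζ
  have hζ0 : 0 ≤ ζ := dn_nonneg _
  have h4 : ((1 / 2 : ℝ) ^ t) ^ 2 ≤ 4 * (4 * ζ + (1 / 2) ^ (2 * t + 3)) := by
    have h5 : ((1 / 2 : ℝ) ^ t) ^ 2 ≤
        (av fun w => (av fun y => wf M F y * wf M F (y + w) * sg (Φ w y + c y)) ^ 2) ^ 2 :=
      pow_le_pow_left₀ (by positivity) hX 2
    refine h5.trans (h1.trans ?_)
    exact (mul_le_mul_of_nonneg_left h2 h30).trans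
      (mul_le_mul_of_nonneg_right h3 (by positivity))
  have h5 : (1 / 2 : ℝ) ^ (2 * t + 5) ≤ ζ := by
    have e1 : ((1 / 2 : ℝ) ^ t) ^ 2 = (1 / 2) ^ (2 * t) := by
      rw [← pow_mul, mul_comm]
    have e2 : (1 / 2 : ℝ) ^ (2 * t + 3) = (1 / 2) ^ (2 * t) * (1 / 8) := by
      rw [pow_add]
      norm_num
    have e3 : (1 / 2 : ℝ) ^ (2 * t + 5) = (1 / 2) ^ (2 * t) * (1 / 32) := by
      rw [pow_add]
      norm_num
    rw [e1, e2] at h4
    rw [e3]
    linarith
  refine le_trans (pow_le_pow_of_le_one (by norm_num) (by norm_num) ?_) h5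
  unfold pw
  have h6 : 2 ^ 2 ≤ (t + 2) ^ 2 := Nat.pow_le_pow_left (by omega) 2
  have h7 : (t + 2) ^ (3 * C0 + 3) = (t + 2) ^ (3 * C0) * ((t + 2) ^ 2 * (t + 2)) := by
    rw [pow_add, pow_succ (t + 2) 2]
  rw [h7]
  calc 2 * t + 5 ≤ 1 * (2 ^ 2 * (t + 2)) := by omega
    _ ≤ (t + 2) ^ (3 * C0) * ((t + 2) ^ 2 * (t + 2)) :=
      Nat.mul_le_mul (Nat.one_le_pow _ _ (by omega)) (Nat.mul_le_mul_right _ h6)

end G2
end

section

/-!
# Job ST4a: the stage theorem
-/

set_option autoImplicit false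

open Module

namespace G2

section st4a

variable {V : Type} [AddCommGroup V] [Module (ZMod 2) V] [Finite V]

/-- a subspace of density at least `2 ^ (-B)` has codimension at most `B` -/
theorem st4a_codim (W : Submodule (ZMod 2) V) (A : Set V) (hA : A = (W : Set V)) (B : ℕ)
    (h : (1 / 2 : ℝ) ^ B ≤ dn A) : rk V ≤ rk W + B := by
  subst hA
  rw [dn_eq_card] at h
  have h1 : (Nat.card V : ℝ) = 2 ^ rk V := by
    have := nc_finrank (V := V)
    simpa [nc] using this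
  have h2 : (Nat.card (W : Set V) : ℝ) = 2 ^ rk W := by
    have := nc_finrank (V := W)
    simpa [nc] using this
  rw [h1, h2] at h
  have h3 : (0 : ℝ) < 2 ^ rk V := by positivity
  have h4 : (0 : ℝ) < 2 ^ B := by positivity
  rw [one_div, inv_pow, le_div_iff₀ h3, inv_mul_le_iff₀ h4] at h
  have h5 : (2 : ℝ) ^ rk V ≤ 2 ^ (B + rk W) := by rw [pow_add]; exact h
  have h6 : rk V ≤ B + rk W := (pow_le_pow_iff_right₀ (by norm_num : (1 : ℝ) < 2)).1 h5
  omega

/-- codimension of a finite intersection -/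
theorem st4a_inf {ι : Type} [DecidableEq ι] (W : ι → Submodule (ZMod 2) V) (B : ℕ)
    (h : ∀ j, rk V ≤ rk (W j) + B) (s : Finset ι) : rk V ≤ rk (s.inf W : Submodule (ZMod 2) V) + s.card * B := by
  induction s using Finset.induction_on with
  | empty =>
    rw [Finset.inf_empty, Finset.card_empty, zero_mul, add_zero]
    exact le_of_eq (finrank_top (ZMod 2) V).symm
  | insert a s ha ih =>
    rw [Finset.inf_insert, Finset.card_insert_of_notMem ha]
    have h1 := Submodule.finrank_sup_add_finrank_inf_eq (W a) (s.inf W)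
    have h2 : finrank (ZMod 2) ↥(W a ⊔ s.inf W) ≤ finrank (ZMod 2) V := Submodule.finrank_le _
    have h3 := h a
    have h4 : (s.card + 1) * B = s.card * B + B := by ring
    simp only [rk] at *
    omega

end st4a

/-- Step (6): the subspace on which `Φ` is symmetric has codimension at most `∑_j` of the
codimensions given by `sy_main`; then `exists_alternating` on it. -/
theorem exists_alt : ∃ C : ℕ, ∀ (t d R : ℕ) (V M : Type) [AddCommGroup V] [Module (ZMod 2) V]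
    [Finite V] [AddCommGroup M] [Module (ZMod 2) M] [Finite M] (q : V → M) (φ : Bil V M)
    (F : Set V) (Φ : Bil V (Fin d → ZMod 2)) (c : V →ₗ[ZMod 2] (Fin d → ZMod 2)), IsQ q φ →
    HR φ R → pw C (rk M + t) ≤ R → d ≤ t → (∀ y ∈ F, q y = 0) →
    (∀ j, (1 / 2 : ℝ) ^ t ≤
        av fun w => (av fun y => wf M F y * wf M F (y + w) * sg (Φ w y j + c y j)) ^ 2) →
    ∃ W : Submodule (ZMod 2) V, rk V ≤ rk W + pw C t ∧ ∀ x ∈ W, Φ x x = 0 := by
  obtain ⟨C0, hC0⟩ := sy_main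
  refine ⟨C0 + 2, ?_⟩
  intro t d R V M _ _ _ _ _ _ q φ F Φ c hq hHR hR hd hF hj
  classical
  have hR0 : pw C0 (rk M + t) ≤ R := le_trans (pw_mono_left (by omega) _) hR
  -- the subspaces
  let S : Fin d → Bil V (ZMod 2) := fun j =>
    Φ.compr₂ (LinearMap.proj j) + (Φ.compr₂ (LinearMap.proj j)).flip
  have hS : ∀ j h y, S j h y = Φ h y j + Φ y h j := fun j h y => by
    simp [S]
  let W : Fin d → Submodule (ZMod 2) V := fun j => LinearMap.ker (S j)
  have hW : ∀ j, rk V ≤ rk (W j) + pw C0 t := by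
    intro j
    have h1 := hC0 t R V M q φ F (Φ.compr₂ (LinearMap.proj j)) ((LinearMap.proj j).comp c) hq hHR
      hR0 hF (by simpa using hj j)
    refine st4a_codim (W j) _ ?_ _ h1
    ext h
    simp only [Set.mem_ofPred_eq, SetLike.mem_coe, W, LinearMap.mem_ker]
    constructor
    · intro hh
      ext y
      rw [hS]
      simpa using hh y
    · intro hh y
      have := congrArg (fun f => f y) hh
      simp only [hS, LinearMap.zero_apply] at this
      simpa using this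
  have hinf := st4a_inf W (pw C0 t) hW Finset.univ
  set U : Submodule (ZMod 2) V := Finset.univ.inf W with hU
  have hUsym : ∀ x ∈ U, ∀ y, Φ x y = Φ y x := by
    intro x hx y
    have hx' : ∀ j, x ∈ W j := by
      intro j
      have : U ≤ W j := Finset.inf_le (Finset.mem_univ j)
      exact this hx
    funext j
    have h1 : S j x = 0 := LinearMap.mem_ker.1 (hx' j)
    have h2 : S j x y = 0 := by rw [h1]; rfl
    rw [hS] at h2
    exact eq_of_add_eq_zero (V := ZMod 2) h2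
  obtain ⟨Z, hZ1, hZ2⟩ := exists_alternating (Φ.compl₁₂ U.subtype U.subtype)
    (fun x y => by
      simp only [LinearMap.compl₁₂_apply, Submodule.subtype_apply]
      exact hUsym x x.2 y)
  refine ⟨Z.map U.subtype, ?_, ?_⟩
  · have h1 : rk (Z.map U.subtype : Submodule (ZMod 2) V) = rk Z :=
      LinearEquiv.finrank_eq (Submodule.equivMapOfInjective U.subtype U.injective_subtype Z).symm
    have h2 : rk (Fin d → ZMod 2) = d := by simp [rk]
    rw [Finset.card_univ, Fintype.card_fin] at hinf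
    rw [h2] at hZ1
    have h3 : d * pw C0 t + d ≤ pw (C0 + 2) t := by
      have h4 : 1 ≤ pw C0 t := one_le_pw C0 t
      have h5 : pw (C0 + 2) t = pw C0 t * (t + 2) ^ 2 := by simp [pw, pow_add]
      rw [h5]
      nlinarith [Nat.mul_le_mul_right (pw C0 t) hd]
    rw [h1]
    omega
  · rintro x ⟨z, hz, rfl⟩
    simpa using hZ2 z hz

end G2
end

section

/-!
# Job BA1: the lift to V x L
-/

set_option autoImplicit false

open Module

namespace G2

section
variable {V M L : Type} [AddCommGroup V] [Module (ZMod 2) V] [Finite V]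
  [AddCommGroup M] [Module (ZMod 2) M] [Finite M] [AddCommGroup L] [Module (ZMod 2) L] [Finite L]

/-- the lifted quadratic maps `V × L → M × L`; `Ψ` is a quadratic map with polar form `Φ` -/
def lq1 (D : Dat V M L) (Ψ : V → L) (z : V × L) : M × L := (D.q1 z.1, Ψ z.1 + D.μ z.1 + z.2)
def lq2 (D : Dat V M L) (Ψ : V → L) (z : V × L) : M × L := (D.q2 z.1, Ψ z.1 + z.2)

/-- the lifted sets -/
def lF1 (D : Dat V M L) (Ψ : V → L) : Set (V × L) := {z | z.1 ∈ D.F1 ∧ lq1 D Ψ z = 0}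
def lF2 (D : Dat V M L) (Ψ : V → L) : Set (V × L) := {z | z.1 ∈ D.F2 ∧ lq2 D Ψ z = 0}

omit [Module (ZMod 2) M] [Module (ZMod 2) L] [AddCommGroup M] [AddCommGroup L] in
private theorem ba1_nc_prod [Finite M] [Finite L] : nc (M × L) = nc M * nc L := by
  unfold nc
  rw [Nat.card_prod]
  push_cast
  ring

private theorem ba1_av_single {L : Type} [Finite L] [Nonempty L] (c : L) :
    av (fun s : L => ind {s | s = c} s) = 1 / nc L := by
  have h := dn_eq_card {s : L | s = c}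
  rw [dn] at h
  rw [h]
  have h1 : Nat.card {s : L | s = c} = 1 := by
    rw [Nat.card_eq_one_iff_unique]
    exact ⟨⟨fun a b => Subtype.ext (a.2.trans b.2.symm)⟩, ⟨⟨c, rfl⟩⟩⟩
  rw [h1]
  unfold nc
  norm_num

private theorem ba1_dn_fst {V L : Type} [Finite V] [Finite L] [Nonempty L] (A : Set V) :
    dn {z : V × L | z.1 ∈ A} = dn A := by
  rw [dn, dn, av_prod]
  have e : ∀ x : V, av (fun y : L => ind {z : V × L | z.1 ∈ A} (x, y)) = ind A x := by
    intro x
    have e1 : (fun y : L => ind {z : V × L | z.1 ∈ A} (x, y)) = fun _ => ind A x := by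
      funext y
      by_cases hx : x ∈ A
      · rw [ind_pos hx, ind_pos (A := {z : V × L | z.1 ∈ A}) hx]
      · rw [ind_neg hx, ind_neg (A := {z : V × L | z.1 ∈ A}) hx]
    rw [e1, av_const]
  exact congrArg av (funext e)

theorem isQ_lq1 (D : Dat V M L) {Ψ : V → L} (hΨ : IsQ Ψ D.Φ) :
    IsQ (lq1 D Ψ) (pull (cmb D.φ D.Φ) (LinearMap.fst (ZMod 2) V L)) := by
  intro z z'
  have h1 := D.isQ1 z.1 z'.1
  have h2 := hΨ z.1 z'.1
  refine Prod.ext ?_ ?_
  · simp only [lq1, cmb, Prod.fst_add, LinearMap.compl₁₂_apply, LinearMap.mk₂_apply,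
      LinearMap.fst_apply, Prod.fst_zero]
    exact h1
  · simp only [lq1, cmb, Prod.fst_add, Prod.snd_add, LinearMap.compl₁₂_apply, LinearMap.mk₂_apply,
      LinearMap.fst_apply, Prod.fst_zero, Prod.snd_zero, map_add, map_zero, add_zero]
    rw [h2]
    abel

theorem isQ_lq2 (D : Dat V M L) {Ψ : V → L} (hΨ : IsQ Ψ D.Φ) :
    IsQ (lq2 D Ψ) (pull (cmb D.φ D.Φ) (LinearMap.fst (ZMod 2) V L)) := by
  intro z z'
  have h1 := D.isQ2 z.1 z'.1
  have h2 := hΨ z.1 z'.1
  refine Prod.ext ?_ ?_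
  · simp only [lq2, cmb, Prod.fst_add, LinearMap.compl₁₂_apply, LinearMap.mk₂_apply,
      LinearMap.fst_apply, Prod.fst_zero]
    exact h1
  · simp only [lq2, cmb, Prod.fst_add, Prod.snd_add, LinearMap.compl₁₂_apply, LinearMap.mk₂_apply,
      LinearMap.fst_apply, Prod.fst_zero, Prod.snd_zero, add_zero]
    rw [h2]
    abel

/-- the kernels are `K × L` -/
theorem hr_lift {φ : Bil V M} {Φ : Bil V L} {R : ℕ} (h : HR (cmb φ Φ) R) :
    HR (pull (cmb φ Φ) (LinearMap.fst (ZMod 2) V L)) R := by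
  intro a ha
  have h1 := h a ha
  have e : {x : V × L | ∀ y : V × L, a (pull (cmb φ Φ) (LinearMap.fst (ZMod 2) V L) x y) = 0} =
      {z : V × L | z.1 ∈ {x : V | ∀ y, a (cmb φ Φ x y) = 0}} := by
    ext z
    simp only [Set.mem_setOf_eq, LinearMap.compl₁₂_apply, LinearMap.fst_apply]
    constructor
    · intro h y
      exact h (y, 0)
    · intro h y
      exact h y.1
  rw [e, ba1_dn_fst]
  exact h1

/-- `s` is determined by `y` -/
theorem av_lF1 (D : Dat V M L) (Ψ : V → L) : av (wf (M × L) (lF1 D Ψ)) = av (wf M D.F1) := by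
  unfold wf
  rw [av_prod]
  have e : ∀ y : V, av (fun s : L => nc (M × L) * ind (lF1 D Ψ) (y, s)) = nc M * ind D.F1 y := by
    intro y
    rw [av_mul_left]
    by_cases hy : y ∈ D.F1
    · have e1 : (fun s : L => ind (lF1 D Ψ) (y, s)) = fun s => ind {s | s = Ψ y + D.μ y} s := by
        funext s
        by_cases hs : s = Ψ y + D.μ y
        · rw [ind_pos (A := {s | s = Ψ y + D.μ y}) hs, ind_pos]
          refine ⟨hy, ?_⟩
          refine Prod.ext (D.sub1 y hy) ?_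
          change Ψ y + D.μ y + s = 0
          rw [hs]
          exact add_self _
        · rw [ind_neg (A := {s | s = Ψ y + D.μ y}) hs, ind_neg]
          rintro ⟨_, h2⟩
          apply hs
          have h3 : Ψ y + D.μ y + s = 0 := congrArg Prod.snd h2
          exact (eq_of_add_eq_zero h3).symm
      rw [e1, ba1_av_single, ind_pos hy, mul_one, ba1_nc_prod]
      field_simp [(nc_pos (α := L)).ne']
    · have e1 : (fun s : L => ind (lF1 D Ψ) (y, s)) = fun _ => 0 := by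
        funext s
        exact ind_neg fun h => hy h.1
      rw [e1, av_const, ind_neg hy, mul_zero, mul_zero]
  exact congrArg av (funext e)

theorem av_lF2 (D : Dat V M L) (Ψ : V → L) : av (wf (M × L) (lF2 D Ψ)) = av (wf M D.F2) := by
  unfold wf
  rw [av_prod]
  have e : ∀ y : V, av (fun s : L => nc (M × L) * ind (lF2 D Ψ) (y, s)) = nc M * ind D.F2 y := by
    intro y
    rw [av_mul_left]
    by_cases hy : y ∈ D.F2
    · have e1 : (fun s : L => ind (lF2 D Ψ) (y, s)) = fun s => ind {s | s = Ψ y} s := by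
        funext s
        by_cases hs : s = Ψ y
        · rw [ind_pos (A := {s | s = Ψ y}) hs, ind_pos]
          refine ⟨hy, ?_⟩
          refine Prod.ext (D.sub2 y hy) ?_
          change Ψ y + s = 0
          rw [hs]
          exact add_self _
        · rw [ind_neg (A := {s | s = Ψ y}) hs, ind_neg]
          rintro ⟨_, h2⟩
          apply hs
          have h3 : Ψ y + s = 0 := congrArg Prod.snd h2
          exact (eq_of_add_eq_zero h3).symm
      rw [e1, ba1_av_single, ind_pos hy, mul_one, ba1_nc_prod]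
      field_simp [(nc_pos (α := L)).ne']
    · have e1 : (fun s : L => ind (lF2 D Ψ) (y, s)) = fun _ => 0 := by
        funext s
        exact ind_neg fun h => hy h.1
      rw [e1, av_const, ind_neg hy, mul_zero, mul_zero]
  exact congrArg av (funext e)

/-- Key computation.  `(f̃₁ ∘ f̃₂)(w, s) = |M|² |L| E_y 1_{F1}(y) 1_{F2}(y+w) 1[Φ(w,y) + μ(y) =
s + Ψ(w) + Ψ(0)]`.  If `D.Gd θ w` with fibre `{T_w = (t_M, t_L)}` and `s = t_L + Ψ(w) + Ψ(0)`, this is
at least `|M|² |L| E_y 1_{F1}(y) 1_{F2}(y+w) 1[T_w y = t] ≥ |M| |L| θ dn {T_w = t} ≥ θ`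
(`le_dn_fibre`). -/
theorem cor_lift (D : Dat V M L) {Ψ : V → L} (hΨ : IsQ Ψ D.Φ) {θ : ℝ} (hθ : 0 ≤ θ) {w : V}
    (hw : D.Gd θ w) :
    ∃ s : L, θ ≤ cor (wf (M × L) (lF1 D Ψ)) (wf (M × L) (lF2 D Ψ)) (w, s) := by
  obtain ⟨t, ⟨y₀, hy₀⟩, ht⟩ := hw
  refine ⟨t.2 + Ψ w + Ψ 0, ?_⟩
  set s := t.2 + Ψ w + Ψ 0 with hs
  have hM := nc_pos (α := M)
  have hL := nc_pos (α := L)
  have key : ∀ y : V, nc (M × L) * (ind {y | D.T w y = t} y * (nc M * (ind D.F1 y * ind D.F2 (y + w)))) ≤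
      av fun u : L => wf (M × L) (lF1 D Ψ) (y, u) * wf (M × L) (lF2 D Ψ) ((y, u) + (w, s)) := by
    intro y
    have hnn : ∀ u : L, 0 ≤ wf (M × L) (lF1 D Ψ) (y, u) * wf (M × L) (lF2 D Ψ) ((y, u) + (w, s)) := by
      intro u
      unfold wf
      have h1 := ind_nonneg (lF1 D Ψ) (y, u)
      have h2 := ind_nonneg (lF2 D Ψ) ((y, u) + (w, s))
      have h3 := nc_nonneg (M × L)
      positivity
    by_cases h1 : y ∈ D.F1 ∧ y + w ∈ D.F2 ∧ D.T w y = t
    · obtain ⟨ha, hb, hc⟩ := h1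
      rw [ind_pos (A := {y | D.T w y = t}) hc, ind_pos ha, ind_pos hb, mul_one, one_mul, mul_one]
      have h2 := le_su hnn (Ψ y + D.μ y)
      have hx1 : (y, Ψ y + D.μ y) ∈ lF1 D Ψ := by
        refine ⟨ha, Prod.ext (D.sub1 y ha) ?_⟩
        exact add_self _
      have hx2 : (y, Ψ y + D.μ y) + (w, s) ∈ lF2 D Ψ := by
        refine ⟨hb, Prod.ext (D.sub2 _ hb) ?_⟩
        change Ψ (y + w) + (Ψ y + D.μ y + s) = 0
        have h3 : D.Φ w y + D.μ y = t.2 := congrArg Prod.snd hc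
        rw [hΨ y w, hs, ← h3, hΨ.symm w y]
        have h4 : Ψ y + Ψ w + Ψ 0 + D.Φ y w + (Ψ y + D.μ y + (D.Φ y w + D.μ y + Ψ w + Ψ 0)) =
            (Ψ y + Ψ y) + (Ψ w + Ψ w) + (Ψ 0 + Ψ 0) + (D.Φ y w + D.Φ y w) + (D.μ y + D.μ y) := by
          abel
        rw [h4]
        simp only [add_self, add_zero]
      unfold wf at h2 ⊢
      rw [ind_pos hx1, ind_pos hx2] at h2
      rw [av, le_div_iff₀ hL]
      refine le_trans (le_of_eq ?_) h2
      rw [ba1_nc_prod]
      ring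
    · have h2 : ind {y | D.T w y = t} y * (nc M * (ind D.F1 y * ind D.F2 (y + w))) = 0 := by
        by_cases hc : D.T w y = t
        · by_cases ha : y ∈ D.F1
          · by_cases hb : y + w ∈ D.F2
            · exact absurd ⟨ha, hb, hc⟩ h1
            · rw [ind_neg hb]; ring
          · rw [ind_neg ha]; ring
        · rw [ind_neg (A := {y | D.T w y = t}) hc]; ring
      rw [h2, mul_zero]
      exact av_nonneg hnn
  have h5 : nc (M × L) * (av fun y => ind {y | D.T w y = t} y *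
      (nc M * (ind D.F1 y * ind D.F2 (y + w)))) ≤
      cor (wf (M × L) (lF1 D Ψ)) (wf (M × L) (lF2 D Ψ)) (w, s) := by
    unfold cor
    rw [av_prod, ← av_mul_left]
    exact av_le_av key
  have h6 : 1 ≤ nc (M × L) * dn {y | D.T w y = t} := by
    have := le_dn_fibre (D.T w) y₀
    rw [hy₀] at this
    exact this
  have h7 : nc (M × L) * (θ * dn {y | D.T w y = t}) ≤ nc (M × L) *
      (av fun y => ind {y | D.T w y = t} y * (nc M * (ind D.F1 y * ind D.F2 (y + w)))) :=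
    mul_le_mul_of_nonneg_left ht (nc_nonneg _)
  calc θ = θ * 1 := (mul_one θ).symm
    _ ≤ θ * (nc (M × L) * dn {y | D.T w y = t}) := mul_le_mul_of_nonneg_left h6 hθ
    _ = nc (M × L) * (θ * dn {y | D.T w y = t}) := by ring
    _ ≤ _ := h7.trans h5

/-- the set of `(w, s)` with large correlation has density at least `dn {Gd} / |L|` -/
theorem dn_lift (D : Dat V M L) {Ψ : V → L} (hΨ : IsQ Ψ D.Φ) {θ : ℝ} (hθ : 0 ≤ θ) :
    dn {w | D.Gd θ w} ≤ nc L *
      dn {z : V × L | θ ≤ cor (wf (M × L) (lF1 D Ψ)) (wf (M × L) (lF2 D Ψ)) z} := by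
  have hL := nc_pos (α := L)
  rw [dn, dn, av_prod, ← av_mul_left]
  refine av_le_av fun w => ?_
  by_cases hw : D.Gd θ w
  · obtain ⟨s, hs⟩ := cor_lift D hΨ hθ hw
    rw [ind_pos (A := {w | D.Gd θ w}) hw, av, mul_div_cancel₀ _ hL.ne']
    have h1 := le_su (fun u : L => ind_nonneg
      {z : V × L | θ ≤ cor (wf (M × L) (lF1 D Ψ)) (wf (M × L) (lF2 D Ψ)) z} (w, u)) s
    rw [ind_pos (A := {z : V × L | θ ≤ cor (wf (M × L) (lF1 D Ψ)) (wf (M × L) (lF2 D Ψ)) z}) hs] at h1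
    exact h1
  · rw [ind_neg (A := {w | D.Gd θ w}) hw]
    exact mul_nonneg hL.le (av_nonneg fun u => ind_nonneg _ _)

end

end G2
end

section

/-!
# Job BA2b: from the lift back to the space
-/

set_option autoImplicit false

open Module

namespace G2

theorem ba2b_av_single {L : Type} [Finite L] [Nonempty L] (c : L) :
    nc L * av (fun s : L => ind {s | s = c} s) = 1 := by
  have h := dn_eq_card {s : L | s = c}
  rw [dn] at h
  rw [h]
  have h1 : Nat.card {s : L | s = c} = 1 := by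
    rw [Nat.card_eq_one_iff_unique]
    exact ⟨⟨fun a b => Subtype.ext (a.2.trans b.2.symm)⟩, ⟨⟨c, rfl⟩⟩⟩
  rw [h1]
  have h2 := (nc_pos (α := L)).ne'
  unfold nc at h2 ⊢
  field_simp
  norm_num

/-- the average over a graph -/
theorem ba2b_graph {V L : Type} [Finite V] [Finite L] [Nonempty L] (P : V → L) (A : Set (V × L))
    (B : Set V) (h : ∀ z : V × L, z ∈ A ↔ z.1 ∈ B ∧ z.2 = P z.1) :
    nc L * av (ind A) = dn B := by
  rw [av_prod, ← av_mul_left, dn]
  congr 1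
  funext y
  by_cases hy : y ∈ B
  · rw [ind_pos hy]
    have e : (fun s : L => ind A (y, s)) = fun s => ind {s | s = P y} s := by
      funext s
      by_cases hs : s = P y
      · rw [ind_pos (A := {s | s = P y}) hs, ind_pos ((h (y, s)).2 ⟨hy, hs⟩)]
      · rw [ind_neg (A := {s | s = P y}) hs, ind_neg fun h' => hs ((h (y, s)).1 h').2]
    rw [e]
    exact ba2b_av_single _
  · rw [ind_neg hy]
    have e : (fun s : L => ind A (y, s)) = fun _ => 0 := by
      funext s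
      exact ind_neg fun h' => hy ((h (y, s)).1 h').1
    rw [e, av_const, mul_zero]

theorem ba2b_card {V : Type} [Finite V] [Nonempty V] (P : V → Prop) :
    nc {x // P x} = nc V * dn {x | P x} := by
  rw [dn_eq_card]
  have h := (nc_pos (α := V)).ne'
  unfold nc at h ⊢
  field_simp
  rfl

theorem ba2b_nc_prod {M L : Type} [Finite M] [Finite L] : nc (M × L) = nc M * nc L := by
  unfold nc
  rw [Nat.card_prod]
  push_cast
  ring

theorem ba2b_gen (t R K h : ℕ) (V M L : Type) [AddCommGroup V]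
    [Module (ZMod 2) V] [Finite V] [AddCommGroup M] [Module (ZMod 2) M] [Finite M]
    [AddCommGroup L] [Module (ZMod 2) L] [Finite L] (φ : Bil V M) (Φ : Bil V L) (q : V → M)
    (P : V → L) (F : Set V) (θ : ℝ) (hq : IsQ q φ) (hP : IsQ P Φ) (hR : HR (cmb φ Φ) R)
    (hC : pw 3 (rk M + rk L + t + K) ≤ R) (hF : ∀ y ∈ F, q y = 0) (hθ : 0 < θ)
    (Q : V × L → M × L) (hQ : ∀ z, Q z = (q z.1, P z.1 + z.2))
    (hQ' : IsQ Q (pull (cmb φ Φ) (LinearMap.fst (ZMod 2) V L))) (E : Set (V × L))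
    (hE : ∀ z, z ∈ E ↔ z.1 ∈ F ∧ Q z = 0) (hc : Conc (wf (M × L) E) θ K h) :
    ∃ r', r' ≤ rk M + K ∧ IC F ((1 - (1 / 2) ^ t) * θ) (rk V) r' := by
  obtain ⟨d, hd, l, s', hl, h1, -⟩ := hc
  have hL := nc_pos (α := L)
  have hM := nc_pos (α := M)
  have hV := nc_pos (α := V)
  have h2d : (0 : ℝ) < 2 ^ d := by positivity
  -- the new quadratic map
  have hq2 := (hP.comp (l.comp (LinearMap.inr (ZMod 2) V L))).add_lin
    (l.comp (LinearMap.inl (ZMod 2) V L)) s'
  have hq3 := hq.prod hq2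
  set q' : V → M × (Fin d → ZMod 2) := fun y => (q y, (l.comp (LinearMap.inr (ZMod 2) V L)) (P y) +
    ((l.comp (LinearMap.inl (ZMod 2) V L)) y + s')) with hq'
  have hzero : ∀ y, q' y = 0 ↔ q y = 0 ∧ l (y, P y) = s' := by
    intro y
    have e : (l.comp (LinearMap.inr (ZMod 2) V L)) (P y) +
        ((l.comp (LinearMap.inl (ZMod 2) V L)) y + s') = l (y, P y) + s' := by
      rw [LinearMap.comp_apply, LinearMap.comp_apply, ← add_assoc, ← map_add]
      simp
    rw [hq']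
    simp only
    rw [e, Prod.mk_eq_zero]
    constructor
    · rintro ⟨ha, hb⟩
      exact ⟨ha, eq_of_add_eq_zero hb⟩
    · rintro ⟨ha, hb⟩
      exact ⟨ha, by rw [hb]; exact add_self _⟩
  have hQz : ∀ z : V × L, Q z = 0 ↔ q z.1 = 0 ∧ z.2 = P z.1 := by
    intro z
    rw [hQ z, Prod.mk_eq_zero]
    constructor
    · rintro ⟨ha, hb⟩
      exact ⟨ha, (eq_of_add_eq_zero hb).symm⟩
    · rintro ⟨ha, hb⟩
      exact ⟨ha, by rw [hb]; exact add_self _⟩
  -- the lower bound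
  have e1 : av (fun z => wf (M × L) E z * ind {z | l z = s'} z) =
      nc M * dn {y | y ∈ F ∧ q' y = 0} := by
    have e2 : (fun z => wf (M × L) E z * ind {z | l z = s'} z) =
        fun z => nc (M × L) * ind (E ∩ {z | l z = s'}) z := by
      funext z
      rw [wf, ind_inter]
      ring
    rw [e2, av_mul_left, ba2b_nc_prod, mul_assoc]
    congr 1
    refine ba2b_graph P _ _ ?_
    intro z
    constructor
    · rintro ⟨ha, hb⟩
      obtain ⟨hc, hd⟩ := (hE z).1 ha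
      obtain ⟨he, hf⟩ := (hQz z).1 hd
      refine ⟨⟨hc, (hzero _).2 ⟨he, ?_⟩⟩, hf⟩
      rw [← hf]
      exact hb
    · rintro ⟨⟨hc, hd⟩, hf⟩
      obtain ⟨he, hg⟩ := (hzero _).1 hd
      refine ⟨(hE z).2 ⟨hc, (hQz z).2 ⟨he, hf⟩⟩, ?_⟩
      rw [← hf] at hg
      exact hg
  have e3 : av (fun z => nu Q z * ind {z | l z = s'} z * sg ((0 : Du (Fin d → ZMod 2)) (l z))) =
      nc M * dn {y | q' y = 0} := by
    have e2 : (fun z => nu Q z * ind {z | l z = s'} z * sg ((0 : Du (Fin d → ZMod 2)) (l z))) =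
        fun z => nc (M × L) * ind ({z | Q z = 0} ∩ {z | l z = s'}) z := by
      funext z
      rw [nu, ind_inter, LinearMap.zero_apply, sg_zero]
      ring
    rw [e2, av_mul_left, ba2b_nc_prod, mul_assoc]
    congr 1
    refine ba2b_graph P _ _ ?_
    intro z
    constructor
    · rintro ⟨ha, hb⟩
      obtain ⟨he, hf⟩ := (hQz z).1 ha
      refine ⟨(hzero _).2 ⟨he, ?_⟩, hf⟩
      rw [← hf]
      exact hb
    · rintro ⟨hd, hf⟩
      obtain ⟨he, hg⟩ := (hzero _).1 hd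
      refine ⟨(hQz z).2 ⟨he, hf⟩, ?_⟩
      rw [← hf] at hg
      exact hg
  have h3 := fibre_nu hQ' (hr_lift hR) l hl s' 0
  rw [e3, LinearMap.zero_apply, sg_zero] at h3
  have h4 : nc (Fin d → ZMod 2) = 2 ^ d := by
    rw [nc_finrank, Module.finrank_fin_fun]
  rw [h4] at h3
  rw [e1] at h1
  -- the error
  have h5 : 2 ^ d * er (M × L) 1 R ≤ (1 / 2 : ℝ) ^ t := by
    refine (two_mul_er d 1 R).trans (er_le ?_)
    refine le_trans ?_ hC
    have h6 : rk (M × L) = rk M + rk L := Module.finrank_prod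
    rw [h6]
    unfold pw
    set T := rk M + rk L + t + K with hT
    have h7 : d ≤ T := by omega
    have h8 : rk M + rk L ≤ T := by omega
    have h9 : t ≤ T := by omega
    calc (d + 1) * (rk M + rk L + 1) + t ≤ (T + 1) * (T + 1) + T := by
          refine Nat.add_le_add (Nat.mul_le_mul (by omega) (by omega)) h9
      _ ≤ (T + 2) ^ 3 := by nlinarith [Nat.zero_le T, Nat.zero_le (T ^ 2), Nat.zero_le (T ^ 3)]
  have h6 := (abs_le.1 h3).2
  -- assembly
  refine ⟨rk M + d, by omega, ?_⟩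
  have h7 : rk M + d = rk (M × (Fin d → ZMod 2)) := by
    rw [show rk (M × (Fin d → ZMod 2)) = rk M + rk (Fin d → ZMod 2) from Module.finrank_prod]
    rw [show rk (Fin d → ZMod 2) = d from Module.finrank_fin_fun _]
  rw [h7]
  refine ic_of F _ (LinearMap.id : V →ₗ[ZMod 2] V) (fun a b h => h) 0 hq3 ?_ ?_
  · -- a zero
    have h8 : 0 < dn {y | y ∈ F ∧ q' y = 0} := by
      by_contra hneg
      have h9 : dn {y | y ∈ F ∧ q' y = 0} = 0 := le_antisymm (not_lt.1 hneg) (dn_nonneg _)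
      rw [h9] at h1
      linarith
    obtain ⟨y, hy⟩ := nonempty_of_dn_pos h8
    exact ⟨y, hy.2⟩
  · have e4 : nc {x // (0 : V) + (LinearMap.id : V →ₗ[ZMod 2] V) x ∈ F ∧ q' x = 0} =
        nc V * dn {y | y ∈ F ∧ q' y = 0} := by
      rw [ba2b_card]
      congr 2
      ext y
      simp
    rw [e4, ba2b_card]
    set a := dn {y | q' y = 0}
    set b := dn {y | y ∈ F ∧ q' y = 0}
    set ε : ℝ := (1 / 2) ^ t with hε
    have hε0 : 0 ≤ ε := by positivity
    have hε1 : ε ≤ 1 := pow_le_one₀ (by norm_num) (by norm_num)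
    have ha0 : 0 ≤ a := dn_nonneg _
    have h10 : 2 ^ d * (nc M * a) ≤ 1 + ε := by linarith
    have h11 : (1 - ε) * θ * (2 ^ d * (nc M * a)) ≤ 2 ^ d * (nc M * b) := by
      calc (1 - ε) * θ * (2 ^ d * (nc M * a)) ≤ (1 - ε) * θ * (1 + ε) :=
            mul_le_mul_of_nonneg_left h10 (mul_nonneg (by linarith) hθ.le)
        _ = θ - θ * ε ^ 2 := by ring
        _ ≤ θ := by nlinarith [mul_nonneg hθ.le (sq_nonneg ε)]
        _ ≤ _ := h1
    have h12 : (2 ^ d * nc M) * ((1 - ε) * θ * a) ≤ (2 ^ d * nc M) * b := by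
      calc (2 ^ d * nc M) * ((1 - ε) * θ * a) = (1 - ε) * θ * (2 ^ d * (nc M * a)) := by ring
        _ ≤ 2 ^ d * (nc M * b) := h11
        _ = _ := by ring
    have h13 := le_of_mul_le_mul_left h12 (by positivity)
    calc (1 - ε) * θ * (nc V * a) = nc V * ((1 - ε) * θ * a) := by ring
      _ ≤ nc V * b := mul_le_mul_of_nonneg_left h13 hV.le

/-- From `Conc` for one of the lifted sets to `IC`.  `Conc` gives `l : V × L → F_2^d` surjective and
`s'` with `2^d E f̃(y,s) 1[l(y,s) = s'] ≥ θ`, `f̃ = |M||L| 1_{F̃}`.  On `F̃₁`, `s = Ψ(y) + μ(y)`; so with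
`q''(y) = (q₁ y, l(y, Ψ(y) + μ(y)) + s')` (a quadratic map into `M × F_2^d`)
`|{y ∈ F₁ : q'' y = 0}| = |V × L| E(1_{F̃₁} 1[l = s']) ≥ |V| θ / (2^d |M|)`, and
`|{q'' = 0}| = |V × L| E(1[q̃₁ = 0] 1[l = s']) ≤ |V| (1 + 2^d er) / (2^d |M|)` (`fibre_nu`). -/
theorem ic_of_lift1 : ∃ C : ℕ, ∀ (t R K h : ℕ) (V M L : Type) [AddCommGroup V]
    [Module (ZMod 2) V] [Finite V] [AddCommGroup M] [Module (ZMod 2) M] [Finite M]
    [AddCommGroup L] [Module (ZMod 2) L] [Finite L] (D : Dat V M L) (Ψ : V → L) (θ : ℝ),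
    IsQ Ψ D.Φ → HR (cmb D.φ D.Φ) R → pw C (rk M + rk L + t + K) ≤ R → 0 < θ →
    Conc (wf (M × L) (lF1 D Ψ)) θ K h →
    ∃ r', r' ≤ rk M + K ∧ IC D.F1 ((1 - (1 / 2) ^ t) * θ) (rk V) r' := by
  refine ⟨3, ?_⟩
  intro t R K h V M L _ _ _ _ _ _ _ _ _ D Ψ θ hΨ hR hC hθ hc
  refine ba2b_gen t R K h V M L D.φ D.Φ D.q1 (fun y => Ψ y + (D.μ y + 0)) D.F1 θ D.isQ1
    (hΨ.add_lin D.μ 0) hR hC D.sub1 hθ (lq1 D Ψ) ?_ (isQ_lq1 D hΨ) (lF1 D Ψ) ?_ hc
  · intro z
    simp only [lq1, add_zero]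
  · intro z
    exact Iff.rfl

theorem ic_of_lift2 : ∃ C : ℕ, ∀ (t R K h : ℕ) (V M L : Type) [AddCommGroup V]
    [Module (ZMod 2) V] [Finite V] [AddCommGroup M] [Module (ZMod 2) M] [Finite M]
    [AddCommGroup L] [Module (ZMod 2) L] [Finite L] (D : Dat V M L) (Ψ : V → L) (θ : ℝ),
    IsQ Ψ D.Φ → HR (cmb D.φ D.Φ) R → pw C (rk M + rk L + t + K) ≤ R → 0 < θ →
    Conc (wf (M × L) (lF2 D Ψ)) θ K h →
    ∃ r', r' ≤ rk M + K ∧ IC D.F2 ((1 - (1 / 2) ^ t) * θ) (rk V) r' := by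
  refine ⟨3, ?_⟩
  intro t R K h V M L _ _ _ _ _ _ _ _ _ D Ψ θ hΨ hR hC hθ hc
  refine ba2b_gen t R K h V M L D.φ D.Φ D.q2 Ψ D.F2 θ D.isQ2
    hΨ hR hC D.sub2 hθ (lq2 D Ψ) ?_ (isQ_lq2 D hΨ) (lF2 D Ψ) ?_ hc
  · intro z
    rfl
  · intro z
    exact Iff.rfl

end G2
end
end

section

section

/-!
# Job GC1: the double Cauchy-Schwarz inequality for `d` functions on the diagonal
-/

set_option autoImplicit false

open Module

namespace G2

variable {V : Type} [AddCommGroup V] [Module (ZMod 2) V] [Finite V]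

/-- averages of products over `V^d` (`Finset.prod_univ_sum`) -/
theorem av_pi {d : ℕ} (g : Fin d → V → ℝ) :
    (av fun y : Fin d → V => ∏ j, g j (y j)) = ∏ j, av (g j) := by
  classical
  have := Fintype.ofFinite V
  simp only [av_eq]
  rw [Finset.prod_div_distrib, Finset.prod_univ_sum, Fintype.piFinset_univ]
  simp

/-- correlation of `f` with the phase of the `j`-th component at the shift `w` -/
noncomputable def aj (f : V → ℝ) {d : ℕ} (Ξ : V → V →ₗ[ZMod 2] (Fin d → ZMod 2)) (w : V)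
    (j : Fin d) : ℝ := av fun y => f y * f (y + w) * sg (Ξ w y j)

/-- the inner averages after the two applications of Cauchy-Schwarz -/
noncomputable def Mj (ν : V → ℝ) {d : ℕ} (Ξ : V → V →ₗ[ZMod 2] (Fin d → ZMod 2)) (h w w' : V)
    (j : Fin d) : ℝ :=
  av fun z => ν z * ν (z + h) * (ν (z + w) * ν (z + w')) *
    sg ((Ξ w + Ξ (w + h) + Ξ w' + Ξ (w' + h)) z j)

/-- First Cauchy-Schwarz step.  `E_w b(w) ∏_j aj w j = E_{y ∈ V^d} ∏ f(y_j) · H(y)` with
`H(y) = E_w b(w) ∏_j f(y_j+w) sg(Ξ_w(y_j)_j)` (`av_pi`); the weight `∏ f(y_j) ≤ ∏ ν(y_j)` has total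
mass at most `(E ν)^d`. -/
theorem gc_cs_one (f ν b : V → ℝ) (hf0 : ∀ y, 0 ≤ f y) (hf1 : ∀ y, f y ≤ ν y) {d : ℕ}
    (Ξ : V → V →ₗ[ZMod 2] (Fin d → ZMod 2)) :
    (av fun w => b w * ∏ j, aj f Ξ w j) ^ 2 ≤ av ν ^ d *
      av fun y : Fin d → V => (∏ j, ν (y j)) *
        (av fun w => b w * ∏ j, f (y j + w) * sg (Ξ w (y j) j)) ^ 2 := by
  have e1 : (av fun w => b w * ∏ j, aj f Ξ w j) =
      av fun y : Fin d → V => (∏ j, f (y j)) *
        (av fun w => b w * ∏ j, f (y j + w) * sg (Ξ w (y j) j)) := by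
    have h1 : ∀ w, b w * ∏ j, aj f Ξ w j = av fun y : Fin d → V =>
        (∏ j, f (y j)) * (b w * ∏ j, f (y j + w) * sg (Ξ w (y j) j)) := by
      intro w
      unfold aj
      rw [← av_pi (fun j y => f y * f (y + w) * sg (Ξ w y j)), ← av_mul_left]
      congr 1
      funext y
      rw [mul_left_comm, ← Finset.prod_mul_distrib]
      simp only [mul_assoc]
    simp only [h1]
    rw [av_comm]
    congr 1
    funext y
    rw [av_mul_left]
  have hw : ∀ y : Fin d → V, 0 ≤ ∏ j, f (y j) := fun y => Finset.prod_nonneg fun j _ => hf0 _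
  have hle : ∀ y : Fin d → V, ∏ j, f (y j) ≤ ∏ j, ν (y j) := fun y =>
    Finset.prod_le_prod (fun j _ => hf0 _) fun j _ => hf1 _
  rw [e1]
  refine (av_cs_weight _ _ hw).trans ?_
  have h2 : (av fun y : Fin d → V => ∏ j, f (y j)) ≤ av ν ^ d := by
    refine (av_le_av hle).trans (le_of_eq ?_)
    rw [av_pi (fun _ => ν), Finset.prod_const, Finset.card_univ, Fintype.card_fin]
  refine mul_le_mul h2 ?_ ?_ ?_
  · exact av_le_av fun y => mul_le_mul_of_nonneg_right (hle y) (sq_nonneg _)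
  · exact av_nonneg fun y => mul_nonneg (hw y) (sq_nonneg _)
  · exact pow_nonneg (av_nonneg fun y => (hf0 y).trans (hf1 y)) _

/-- Expansion: in the second factor write the square as a double average over `w` and `w + h`, and
substitute `y_j = z_j + w`. -/
theorem gc_expand (f ν b : V → ℝ) {d : ℕ} (Ξ : V → V →ₗ[ZMod 2] (Fin d → ZMod 2)) :
    (av fun y : Fin d → V => (∏ j, ν (y j)) *
        (av fun w => b w * ∏ j, f (y j + w) * sg (Ξ w (y j) j)) ^ 2) =
      av fun h => av fun z : Fin d → V => (∏ j, f (z j) * f (z j + h)) *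
        av fun w => b w * b (w + h) * ∏ j, ν (z j + w) * sg ((Ξ w + Ξ (w + h)) (z j + w) j) := by
  have h1 : ∀ y : Fin d → V, (∏ j, ν (y j)) *
        (av fun w => b w * ∏ j, f (y j + w) * sg (Ξ w (y j) j)) ^ 2 =
      av fun h => av fun w => (∏ j, ν (y j)) * ((b w * ∏ j, f (y j + w) * sg (Ξ w (y j) j)) *
        (b (w + h) * ∏ j, f (y j + (w + h)) * sg (Ξ (w + h) (y j) j))) := by
    intro y
    rw [sq, av_mul_av, ← av_mul_left]
    refine Eq.trans ?_ (av_comm (fun w h => (∏ j, ν (y j)) *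
      ((b w * ∏ j, f (y j + w) * sg (Ξ w (y j) j)) *
        (b (w + h) * ∏ j, f (y j + (w + h)) * sg (Ξ (w + h) (y j) j)))))
    congr 1
    funext w
    rw [← av_mul_left]
    rw [← av_shift_left _ w]
  simp only [h1]
  rw [av_comm]
  congr 1
  funext h
  rw [av_comm]
  simp only [← av_mul_left]
  rw [av_comm (fun (z : Fin d → V) w => _)]
  congr 1
  funext w
  rw [← av_shift _ (fun _ : Fin d => w)]
  congr 1
  funext z
  simp only [Pi.add_apply]
  have e1 : ∀ j, z j + w + w = z j := fun j => add_add_cancel _ _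
  have e2 : ∀ j, z j + w + (w + h) = z j + h := fun j => by
    rw [← add_assoc, add_add_cancel]
  simp only [e1, e2, LinearMap.add_apply, Pi.add_apply, sg_add, Finset.prod_mul_distrib]
  ring

/-- Second Cauchy-Schwarz step, in the variables `(h, z)` with weight
`∏ f(z_j) f(z_j+h) ≤ ∏ ν(z_j) ν(z_j+h)`, whose total mass is at most `E_h (cor ν ν h)^d`; then the
square is a double average over `w, w'`, the average over `z` factorises (`av_pi`), and the phase
`(Ξ_w + Ξ_{w+h})(z+w) + (Ξ_{w'} + Ξ_{w'+h})(z+w')` differs from that of `Mj` by a constant. -/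
theorem gc_cs_two (f ν b : V → ℝ) (hf0 : ∀ y, 0 ≤ f y) (hf1 : ∀ y, f y ≤ ν y) {d : ℕ}
    (Ξ : V → V →ₗ[ZMod 2] (Fin d → ZMod 2)) :
    (av fun h => av fun z : Fin d → V => (∏ j, f (z j) * f (z j + h)) *
        av fun w => b w * b (w + h) * ∏ j, ν (z j + w) * sg ((Ξ w + Ξ (w + h)) (z j + w) j)) ^ 2 ≤
      (av fun h => cor ν ν h ^ d) *
        av fun h => av fun w => av fun w' =>
          |b w * b (w + h) * (b w' * b (w' + h))| * ∏ j, |Mj ν Ξ h w w' j| := by
  have hν0 : ∀ y, 0 ≤ ν y := fun y => (hf0 y).trans (hf1 y)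
  have hw : ∀ p : V × (Fin d → V), 0 ≤ ∏ j, f (p.2 j) * f (p.2 j + p.1) := fun p =>
    Finset.prod_nonneg fun j _ => mul_nonneg (hf0 _) (hf0 _)
  have hle : ∀ p : V × (Fin d → V), ∏ j, f (p.2 j) * f (p.2 j + p.1) ≤
      ∏ j, ν (p.2 j) * ν (p.2 j + p.1) := fun p =>
    Finset.prod_le_prod (fun j _ => mul_nonneg (hf0 _) (hf0 _)) fun j _ =>
      mul_le_mul (hf1 _) (hf1 _) (hf0 _) (hν0 _)
  rw [← av_prod (fun p : V × (Fin d → V) => (∏ j, f (p.2 j) * f (p.2 j + p.1)) *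
        av fun w => b w * b (w + p.1) *
          ∏ j, ν (p.2 j + w) * sg ((Ξ w + Ξ (w + p.1)) (p.2 j + w) j))]
  refine (av_cs_weight _ _ hw).trans ?_
  have h2 : (av fun p : V × (Fin d → V) => ∏ j, f (p.2 j) * f (p.2 j + p.1)) ≤
      av fun h => cor ν ν h ^ d := by
    refine (av_le_av hle).trans (le_of_eq ?_)
    rw [av_prod]
    congr 1
    funext h
    rw [av_pi (fun _ y => ν y * ν (y + h)), Finset.prod_const, Finset.card_univ, Fintype.card_fin]
    rfl
  refine mul_le_mul h2 ?_ (av_nonneg fun p => mul_nonneg (hw p) (sq_nonneg _))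
    (av_nonneg fun h => pow_nonneg (av_nonneg fun y => mul_nonneg (hν0 _) (hν0 _)) _)
  refine (av_le_av fun p => mul_le_mul_of_nonneg_right (hle p) (sq_nonneg _)).trans ?_
  rw [av_prod]
  refine av_le_av fun h => ?_
  have h3 : ∀ z : Fin d → V, (∏ j, ν (z j) * ν (z j + h)) *
      (av fun w => b w * b (w + h) *
        ∏ j, ν (z j + w) * sg ((Ξ w + Ξ (w + h)) (z j + w) j)) ^ 2 =
      av fun w => av fun w' => (b w * b (w + h) * (b w' * b (w' + h))) *
        ∏ j, (ν (z j) * ν (z j + h) * (ν (z j + w) * ν (z j + w')) *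
          (sg ((Ξ w + Ξ (w + h)) (z j + w) j) * sg ((Ξ w' + Ξ (w' + h)) (z j + w') j))) := by
    intro z
    rw [sq, av_mul_av, ← av_mul_left]
    congr 1
    funext w
    rw [← av_mul_left]
    congr 1
    funext w'
    simp only [Finset.prod_mul_distrib]
    ring
  simp only [h3]
  rw [av_comm]
  refine av_le_av fun w => ?_
  rw [av_comm]
  refine av_le_av fun w' => ?_
  rw [av_mul_left, av_pi (fun j z => ν z * ν (z + h) * (ν (z + w) * ν (z + w')) *
          (sg ((Ξ w + Ξ (w + h)) (z + w) j) * sg ((Ξ w' + Ξ (w' + h)) (z + w') j)))]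
  refine (le_abs_self _).trans ?_
  rw [abs_mul, Finset.abs_prod]
  refine le_of_eq ?_
  congr 1
  refine Finset.prod_congr rfl fun j _ => ?_
  have h4 : ∀ z, ν z * ν (z + h) * (ν (z + w) * ν (z + w')) *
          (sg ((Ξ w + Ξ (w + h)) (z + w) j) * sg ((Ξ w' + Ξ (w' + h)) (z + w') j)) =
      ν z * ν (z + h) * (ν (z + w) * ν (z + w')) *
        sg ((Ξ w + Ξ (w + h) + Ξ w' + Ξ (w' + h)) z j) *
        (sg ((Ξ w + Ξ (w + h)) w j) * sg ((Ξ w' + Ξ (w' + h)) w' j)) := by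
    intro z
    simp only [map_add, LinearMap.add_apply, Pi.add_apply, sg_add]
    ring
  simp only [h4]
  rw [av_mul_right, abs_mul, abs_mul, abs_sg, abs_sg, mul_one, mul_one]
  rfl

/-- the inequality used in `GC2` -/
theorem gc_cs (f ν b : V → ℝ) (hf0 : ∀ y, 0 ≤ f y) (hf1 : ∀ y, f y ≤ ν y) {d : ℕ}
    (Ξ : V → V →ₗ[ZMod 2] (Fin d → ZMod 2)) :
    (av fun w => b w * ∏ j, aj f Ξ w j) ^ 4 ≤ av ν ^ (2 * d) * (av fun h => cor ν ν h ^ d) *
        av fun h => av fun w => av fun w' =>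
          |b w * b (w + h) * (b w' * b (w' + h))| * ∏ j, |Mj ν Ξ h w w' j| := by
  have h1 := gc_cs_one f ν b hf0 hf1 Ξ
  rw [gc_expand] at h1
  have h2 := gc_cs_two f ν b hf0 hf1 Ξ
  calc (av fun w => b w * ∏ j, aj f Ξ w j) ^ 4
      = ((av fun w => b w * ∏ j, aj f Ξ w j) ^ 2) ^ 2 := by rw [← pow_mul]
    _ ≤ _ := pow_le_pow_left₀ (sq_nonneg _) h1 2
    _ = av ν ^ (2 * d) * _ := by rw [mul_pow, ← pow_mul, mul_comm d 2]
    _ ≤ av ν ^ (2 * d) * _ := mul_le_mul_of_nonneg_left h2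
        (pow_nonneg (av_nonneg fun y => (hf0 y).trans (hf1 y)) _)
    _ = _ := by rw [mul_assoc]

end G2
end

section

/-!
# Job GC2a: many good quadruples
-/

set_option autoImplicit false

open Module

namespace G2

variable {V M : Type} [AddCommGroup V] [Module (ZMod 2) V] [Finite V]
  [AddCommGroup M] [Module (ZMod 2) M] [Finite M]

/-- If `(h, w, w')` is generic and all components of `σ = Ξ_w + Ξ_{w+h} + Ξ_{w'} + Ξ_{w'+h}` are
combinations of `φ(h), φ(w), φ(w')`, then `(w, w+h, w')` is good: `gen_exists` gives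
`σ = B_0 φ(h) + B_1 φ(w) + B_2 φ(w')`, and `φ(h) = φ(w) + φ(w+h)`, so
`A = ![B_0 + B_1, B_0, B_2, 0]` is a relation; `Gen φ ![w, w+h, w']` follows from
`Gen φ ![h, w, w']`. -/
theorem good_of_comb (φ : Bil V M) (Ω : Set V) {d : ℕ} (Ξ : V → V →ₗ[ZMod 2] (Fin d → ZMod 2))
    (h w w' : V) (hg : Gen φ ![h, w, w']) (h1 : w ∈ Ω) (h2 : w + h ∈ Ω) (h3 : w' ∈ Ω)
    (h4 : w' + h ∈ Ω)
    (hσ : ∀ j, ∃ b : Du (Fin 3 → M), ∀ y, (Ξ w + Ξ (w + h) + Ξ w' + Ξ (w' + h)) y j =
      b (gmap φ ![h, w, w'] y)) : Good φ Ω Ξ w (w + h) w' := by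
  have e4 : w + (w + h) + w' = w' + h := by
    rw [← add_assoc, add_self, zero_add, add_comm]
  refine ⟨h1, h2, h3, ?_, ?_, ?_⟩
  · rw [e4]
    exact h4
  · rw [← gen_add_iff, gen_swap01]
    exact hg
  · obtain ⟨B, hB⟩ := gen_exists (φ := φ) (u := ![h, w, w'])
      (Ξ w + Ξ (w + h) + Ξ w' + Ξ (w' + h)) hσ
    refine ⟨![B 0 + B 1, B 0, B 2, 0], ?_⟩
    unfold Rel
    rw [e4]
    refine LinearMap.ext fun y => ?_
    rw [hB y, Fin.sum_univ_three]
    have e0 : (![B 0 + B 1, B 0, B 2, (0 : M →ₗ[ZMod 2] (Fin d → ZMod 2))] : Fin 4 → _) 0 =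
      B 0 + B 1 := rfl
    have e1 : (![B 0 + B 1, B 0, B 2, (0 : M →ₗ[ZMod 2] (Fin d → ZMod 2))] : Fin 4 → _) 1 =
      B 0 := rfl
    have e2 : (![B 0 + B 1, B 0, B 2, (0 : M →ₗ[ZMod 2] (Fin d → ZMod 2))] : Fin 4 → _) 2 =
      B 2 := rfl
    have e3 : (![B 0 + B 1, B 0, B 2, (0 : M →ₗ[ZMod 2] (Fin d → ZMod 2))] : Fin 4 → _) 3 =
      0 := rfl
    have f0 : (![h, w, w'] : Fin 3 → V) 0 = h := rfl
    have f1 : (![h, w, w'] : Fin 3 → V) 1 = w := rfl
    have f2 : (![h, w, w'] : Fin 3 → V) 2 = w' := rfl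
    rw [e0, e1, e2, e3, f0, f1, f2]
    simp only [LinearMap.add_apply, LinearMap.comp_apply, LinearMap.zero_apply, map_add, add_zero]
    have k1 : B 0 (φ w y) + B 0 (φ w y) = 0 := add_self _
    calc B 0 (φ h y) + B 1 (φ w y) + B 2 (φ w' y)
        = (B 0 (φ w y) + B 0 (φ w y)) + (B 0 (φ h y) + B 1 (φ w y) + B 2 (φ w' y)) := by
          rw [k1, zero_add]
      _ = _ := by abel

/-- `|aj| ≤ cor ν ν w ≤ 2` for generic `w` -/
theorem abs_aj_le {q : V → M} {φ : Bil V M} (hq : IsQ q φ) {R : ℕ} (hR : HR φ R)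
    (hM : 2 * (rk M + 1) ≤ R) (f : V → ℝ) (hf0 : ∀ y, 0 ≤ f y) (hf1 : ∀ y, f y ≤ nu q y) {d : ℕ}
    (Ξ : V → V →ₗ[ZMod 2] (Fin d → ZMod 2)) (w : V) (hw : Gen φ ![w]) (j : Fin d) :
    |aj f Ξ w j| ≤ 2 := by
  have h1 : |aj f Ξ w j| ≤ cor (nu q) (nu q) w := by
    unfold aj cor
    refine (abs_av_le _).trans (av_le_av fun y => ?_)
    rw [abs_mul, abs_sg, mul_one, abs_of_nonneg (mul_nonneg (hf0 _) (hf0 _))]
    exact mul_le_mul (hf1 _) (hf1 _) (hf0 _) ((hf0 _).trans (hf1 _))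
  have h2 := cor_nu hq hR hw
  have h3 : er M 2 R ≤ (1 / 2 : ℝ) ^ 0 := er_le (by omega)
  rw [pow_zero] at h3
  have h4 := abs_le.1 (h2.trans h3)
  linarith [h4.2]

private theorem gc2a_pow {ε : ℝ} (hε : 0 ≤ ε) (d : ℕ) (h : 2 * (d : ℝ) * ε ≤ 1) :
    (1 + ε) ^ d ≤ 1 + 2 * d * ε := by
  induction d with
  | zero => simp
  | succ d ih =>
    have h0 : (0 : ℝ) ≤ d := Nat.cast_nonneg d
    push_cast at h ⊢
    have h1 : 2 * (d : ℝ) * ε ≤ 1 := by nlinarith
    have h2 := ih h1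
    rw [pow_succ]
    have h3 : (1 + ε) ^ d * (1 + ε) ≤ (1 + 2 * d * ε) * (1 + ε) :=
      mul_le_mul_of_nonneg_right h2 (by linarith)
    refine h3.trans ?_
    nlinarith [mul_le_mul_of_nonneg_right h1 hε]

private theorem gc2a_pow' {ε : ℝ} (hε : 0 ≤ ε) (d : ℕ) (h : ε ≤ (1 / 2 : ℝ) ^ (d + 2)) :
    (1 + ε) ^ d ≤ 3 / 2 := by
  have h1 : (d : ℝ) * (1 / 2 : ℝ) ^ d ≤ 1 := by
    have h2 : (d : ℝ) ≤ 2 ^ d := by exact_mod_cast (Nat.lt_two_pow_self (n := d)).le
    have h3 : (2 : ℝ) ^ d * (1 / 2 : ℝ) ^ d = 1 := by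
      rw [← mul_pow]
      norm_num
    calc (d : ℝ) * (1 / 2 : ℝ) ^ d ≤ 2 ^ d * (1 / 2 : ℝ) ^ d :=
          mul_le_mul_of_nonneg_right h2 (by positivity)
      _ = 1 := h3
  have h0 : (0 : ℝ) ≤ d := Nat.cast_nonneg d
  have h4 : 2 * (d : ℝ) * ε ≤ 1 / 2 := by
    calc 2 * (d : ℝ) * ε ≤ 2 * (d : ℝ) * (1 / 2 : ℝ) ^ (d + 2) :=
          mul_le_mul_of_nonneg_left h (by linarith)
      _ = (d : ℝ) * (1 / 2 : ℝ) ^ d * (1 / 2) := by ring
      _ ≤ 1 / 2 := by linarith
  have h5 := gc2a_pow hε d (by linarith)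
  linarith

/-- the average of `(cor ν ν h)^d` is at most `2` -/
theorem av_cor_pow : ∃ C : ℕ, ∀ (t d R : ℕ) (V M : Type) [AddCommGroup V] [Module (ZMod 2) V]
    [Finite V] [AddCommGroup M] [Module (ZMod 2) M] [Finite M] (q : V → M) (φ : Bil V M),
    IsQ q φ → HR φ R → pw C (rk M + t) ≤ R → d ≤ t →
    (av fun h => cor (nu q) (nu q) h ^ d) ≤ 2 ∧ av (nu q) ^ (2 * d) ≤ 2 := by
  refine ⟨3, fun t d R V M => ?_⟩
  intro _ _ _ _ _ _ q φ hq hR hp hd
  have hR3 : (rk M + t + 2) ^ 3 ≤ R := hp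
  have g1 : 2 * (rk M + 1) + (d + 2) ≤ R := by
    refine le_trans ?_ hR3
    nlinarith [Nat.zero_le (rk M), Nat.zero_le t, Nat.zero_le ((rk M + t) ^ 3),
      Nat.zero_le ((rk M + t) ^ 2)]
  have g2 : 1 * (rk M + 1) + (2 * d + 2) ≤ R := by
    refine le_trans ?_ hR3
    nlinarith [Nat.zero_le (rk M), Nat.zero_le t, Nat.zero_le ((rk M + t) ^ 3),
      Nat.zero_le ((rk M + t) ^ 2)]
  have g3 : rk M * (2 * d + 1) + 1 ≤ R := by
    refine le_trans ?_ hR3
    have k1 : rk M * (2 * d + 1) ≤ (rk M + t) * (2 * (rk M + t) + 1) :=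
      Nat.mul_le_mul (by omega) (by omega)
    nlinarith [Nat.zero_le (rk M), Nat.zero_le t, Nat.zero_le ((rk M + t) ^ 3),
      Nat.zero_le ((rk M + t) ^ 2)]
  have hM1 : (1 : ℝ) ≤ nc M := one_le_nc
  constructor
  · have e1 : er M 2 R ≤ (1 / 2 : ℝ) ^ (d + 2) := er_le g1
    have e0 : (0 : ℝ) ≤ er M 2 R := er_nonneg 2 R
    have hle : ∀ h : V, cor (nu q) (nu q) h ^ d ≤
        3 / 2 + (nc M ^ 2) ^ d * ind {x | ¬ Gen φ ![x]} h := by
      intro h
      by_cases hh : Gen φ ![h]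
      · have h2 := (abs_le.1 (cor_nu hq hR hh)).2
        have h3 : cor (nu q) (nu q) h ≤ 1 + er M 2 R := by linarith
        have h4 : cor (nu q) (nu q) h ^ d ≤ (1 + er M 2 R) ^ d :=
          pow_le_pow_left₀ (cor_nu_nonneg q h) h3 d
        have h5 := gc2a_pow' e0 d e1
        have h6 : 0 ≤ (nc M ^ 2) ^ d * ind {x | ¬ Gen φ ![x]} h :=
          mul_nonneg (by positivity) (ind_nonneg _ _)
        linarith
      · rw [ind_pos (A := {x | ¬ Gen φ ![x]}) hh, mul_one]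
        have h4 : cor (nu q) (nu q) h ^ d ≤ (nc M ^ 2) ^ d :=
          pow_le_pow_left₀ (cor_nu_nonneg q h) (cor_nu_le q h) d
        linarith
    refine (av_le_av hle).trans ?_
    rw [av_add, av_const, av_mul_left]
    have h7 := av_not_gen_one φ hR
    have h8 : (nc M ^ 2) ^ d * (av fun x : V => ind {x | ¬ Gen φ ![x]} x) ≤ 1 / 2 := by
      calc (nc M ^ 2) ^ d * (av fun x : V => ind {x | ¬ Gen φ ![x]} x)
          ≤ (nc M ^ 2) ^ d * (nc M / 4 ^ R) := mul_le_mul_of_nonneg_left h7 (by positivity)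
        _ = nc M ^ (2 * d + 1) / 4 ^ R := by rw [← pow_mul, pow_succ, mul_div_assoc]
        _ = 2 ^ (rk M * (2 * d + 1)) / 4 ^ R := by rw [nc_finrank, ← pow_mul]
        _ ≤ 1 / 2 := by
          rw [div_le_div_iff₀ (by positivity) (by positivity), ← pow_succ, one_mul]
          calc (2 : ℝ) ^ (rk M * (2 * d + 1) + 1) ≤ 2 ^ R :=
                pow_le_pow_right₀ (by norm_num) g3
            _ ≤ 4 ^ R := pow_le_pow_left₀ (by norm_num) (by norm_num) R
    linarith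
  · have e1 : er M 1 R ≤ (1 / 2 : ℝ) ^ (2 * d + 2) := er_le g2
    have e0 : (0 : ℝ) ≤ er M 1 R := er_nonneg 1 R
    have h2 := (abs_le.1 (av_nu hq hR)).2
    have h3 : av (nu q) ≤ 1 + er M 1 R := by linarith
    have h4 : av (nu q) ^ (2 * d) ≤ (1 + er M 1 R) ^ (2 * d) :=
      pow_le_pow_left₀ (av_nonneg fun y => nu_nonneg q y) h3 _
    have h5 := gc2a_pow' e0 (2 * d) e1
    linarith

end G2
end

section

/-!
# Job GC2b: many good quadruples
-/

set_option autoImplicit false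

open Module

namespace G2

variable {V M : Type} [AddCommGroup V] [Module (ZMod 2) V] [Finite V]
  [AddCommGroup M] [Module (ZMod 2) M] [Finite M]

/-- trivial bound for the product of four values of `ν` -/
theorem gc2b_four_le (q : V → M) (a b c e : V) :
    nu q a * nu q b * (nu q c * nu q e) ≤ nc M ^ 4 := by
  have h1 : nu q a * nu q b ≤ nc M * nc M :=
    mul_le_mul (nu_le q a) (nu_le q b) (nu_nonneg q b) (nc_nonneg M)
  have h2 : nu q c * nu q e ≤ nc M * nc M :=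
    mul_le_mul (nu_le q c) (nu_le q e) (nu_nonneg q e) (nc_nonneg M)
  calc nu q a * nu q b * (nu q c * nu q e) ≤ (nc M * nc M) * (nc M * nc M) :=
        mul_le_mul h1 h2 (mul_nonneg (nu_nonneg q _) (nu_nonneg q _))
          (mul_nonneg (nc_nonneg M) (nc_nonneg M))
    _ = nc M ^ 4 := by ring

/-- trivial bound for `Mj` -/
theorem gc2b_Mj_le (q : V → M) {d : ℕ} (Ξ : V → V →ₗ[ZMod 2] (Fin d → ZMod 2)) (h w w' : V)
    (j : Fin d) : |Mj (nu q) Ξ h w w' j| ≤ nc M ^ 4 := by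
  unfold Mj
  refine (abs_av_le _).trans (av_le_const fun z => ?_)
  rw [abs_mul, abs_sg, mul_one, abs_of_nonneg (mul_nonneg (mul_nonneg (nu_nonneg q _)
    (nu_nonneg q _)) (mul_nonneg (nu_nonneg q _) (nu_nonneg q _)))]
  exact gc2b_four_le q _ _ _ _

omit [Module (ZMod 2) M] [Finite M] in
/-- `Mj` in the form of `shift_le` and `shift_small` -/
theorem gc2b_Mj_eq (q : V → M) {d : ℕ} (Ξ : V → V →ₗ[ZMod 2] (Fin d → ZMod 2)) (h w w' : V)
    (j : Fin d) : Mj (nu q) Ξ h w w' j =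
      av fun y => nu q y * (∏ i, nu q (y + (![h, w, w'] : Fin 3 → V) i)) *
        sg (((LinearMap.proj j).comp (Ξ w + Ξ (w + h) + Ξ w' + Ξ (w' + h)) : Du V) y) := by
  unfold Mj
  congr 1
  funext z
  rw [Fin.prod_univ_three]
  have f0 : (![h, w, w'] : Fin 3 → V) 0 = h := rfl
  have f1 : (![h, w, w'] : Fin 3 → V) 1 = w := rfl
  have f2 : (![h, w, w'] : Fin 3 → V) 2 = w' := rfl
  rw [f0, f1, f2]
  have e : ((LinearMap.proj j).comp (Ξ w + Ξ (w + h) + Ξ w' + Ξ (w' + h)) : Du V) z =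
    (Ξ w + Ξ (w + h) + Ξ w' + Ξ (w' + h)) z j := rfl
  rw [e]
  ring

/-- `|b| ≤ 2^d` on `Ω` -/
theorem gc2b_b_le {q : V → M} {φ : Bil V M} (hq : IsQ q φ) {R : ℕ} (hR : HR φ R)
    (hM : 2 * (rk M + 1) ≤ R) (f : V → ℝ) (hf0 : ∀ y, 0 ≤ f y) (hf1 : ∀ y, f y ≤ nu q y) {d : ℕ}
    (Ξ : V → V →ₗ[ZMod 2] (Fin d → ZMod 2)) (Ω : Set V) (hΩ : ∀ w ∈ Ω, Gen φ ![w]) (w : V) :
    |ind Ω w * ∏ j, aj f Ξ w j| ≤ 2 ^ d * ind Ω w := by
  by_cases hw : w ∈ Ω
  · rw [ind_pos hw, one_mul, mul_one, Finset.abs_prod]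
    calc ∏ j, |aj f Ξ w j| ≤ ∏ _j : Fin d, (2 : ℝ) :=
          Finset.prod_le_prod (fun j _ => abs_nonneg _) fun j _ =>
            abs_aj_le hq hR hM f hf0 hf1 Ξ w (hΩ w hw) j
      _ = 2 ^ d := by rw [Finset.prod_const, Finset.card_univ, Fintype.card_fin]
  · rw [ind_neg hw, zero_mul, abs_zero, mul_zero]

/-- the product of the four factors `b` -/
theorem gc2b_bb_le {q : V → M} {φ : Bil V M} (hq : IsQ q φ) {R : ℕ} (hR : HR φ R)
    (hM : 2 * (rk M + 1) ≤ R) (f : V → ℝ) (hf0 : ∀ y, 0 ≤ f y) (hf1 : ∀ y, f y ≤ nu q y) {d : ℕ}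
    (Ξ : V → V →ₗ[ZMod 2] (Fin d → ZMod 2)) (Ω : Set V) (hΩ : ∀ w ∈ Ω, Gen φ ![w])
    (h w w' : V) :
    |(ind Ω w * ∏ j, aj f Ξ w j) * (ind Ω (w + h) * ∏ j, aj f Ξ (w + h) j) *
        ((ind Ω w' * ∏ j, aj f Ξ w' j) * (ind Ω (w' + h) * ∏ j, aj f Ξ (w' + h) j))| ≤
      16 ^ d * (ind Ω w * ind Ω (w + h) * (ind Ω w' * ind Ω (w' + h))) := by
  have hb := gc2b_b_le hq hR hM f hf0 hf1 Ξ Ω hΩ
  rw [abs_mul _ ((ind Ω w' * ∏ j, aj f Ξ w' j) * (ind Ω (w' + h) * ∏ j, aj f Ξ (w' + h) j)),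
    abs_mul (ind Ω w * ∏ j, aj f Ξ w j), abs_mul (ind Ω w' * ∏ j, aj f Ξ w' j)]
  have h2 : ∀ a, 0 ≤ (2 : ℝ) ^ d * ind Ω a := fun a => mul_nonneg (by positivity) (ind_nonneg _ _)
  calc _ ≤ (2 ^ d * ind Ω w) * (2 ^ d * ind Ω (w + h)) *
        ((2 ^ d * ind Ω w') * (2 ^ d * ind Ω (w' + h))) := by
        refine mul_le_mul ?_ ?_ (by positivity) (mul_nonneg (h2 _) (h2 _))
        · exact mul_le_mul (hb _) (hb _) (abs_nonneg _) (h2 _)
        · exact mul_le_mul (hb _) (hb _) (abs_nonneg _) (h2 _)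
    _ = (2 * 2 * (2 * 2)) ^ d * (ind Ω w * ind Ω (w + h) * (ind Ω w' * ind Ω (w' + h))) := by
        rw [mul_pow, mul_pow]
        ring
    _ = _ := by norm_num

/-- pointwise bound -/
theorem gc2b_point {q : V → M} {φ : Bil V M} (hq : IsQ q φ) {R : ℕ} (hR : HR φ R)
    (hM : 4 * (rk M + 1) ≤ R) (f : V → ℝ) (hf0 : ∀ y, 0 ≤ f y) (hf1 : ∀ y, f y ≤ nu q y) {d : ℕ}
    (Ξ : V → V →ₗ[ZMod 2] (Fin d → ZMod 2)) (Ω : Set V) (hΩ : ∀ w ∈ Ω, Gen φ ![w])
    (h w w' : V) :
    |(ind Ω w * ∏ j, aj f Ξ w j) * (ind Ω (w + h) * ∏ j, aj f Ξ (w + h) j) *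
        ((ind Ω w' * ∏ j, aj f Ξ w' j) * (ind Ω (w' + h) * ∏ j, aj f Ξ (w' + h) j))| *
        ∏ j, |Mj (nu q) Ξ h w w' j| ≤
      32 ^ d * ind {p : V × V × V | Good φ Ω Ξ p.1 p.2.1 p.2.2} (w, w + h, w') +
        32 ^ d * er M 4 R +
        16 ^ d * (nc M ^ 4) ^ d * ind {p : V × V × V | ¬ Gen φ ![p.1, p.2.1, p.2.2]} (h, w, w') := by
  have hbb := gc2b_bb_le hq hR (by omega) f hf0 hf1 Ξ Ω hΩ h w w'
  set B := |(ind Ω w * ∏ j, aj f Ξ w j) * (ind Ω (w + h) * ∏ j, aj f Ξ (w + h) j) *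
        ((ind Ω w' * ∏ j, aj f Ξ w' j) * (ind Ω (w' + h) * ∏ j, aj f Ξ (w' + h) j))| with hB
  have hB0 : 0 ≤ B := abs_nonneg _
  have e0 : (0 : ℝ) ≤ er M 4 R := er_nonneg 4 R
  have e1 : er M 4 R ≤ 1 := by
    have := er_le (M := M) (s := 4) (R := R) (D := 0) (by omega)
    rwa [pow_zero] at this
  have t1 : 0 ≤ (32 : ℝ) ^ d *
      ind {p : V × V × V | Good φ Ω Ξ p.1 p.2.1 p.2.2} (w, w + h, w') :=
    mul_nonneg (by positivity) (ind_nonneg _ _)
  have t2 : 0 ≤ (32 : ℝ) ^ d * er M 4 R := mul_nonneg (by positivity) e0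
  have t3 : 0 ≤ 16 ^ d * (nc M ^ 4) ^ d *
      ind {p : V × V × V | ¬ Gen φ ![p.1, p.2.1, p.2.2]} (h, w, w') :=
    mul_nonneg (mul_nonneg (by positivity) (pow_nonneg (pow_nonneg (nc_nonneg M) _) _))
      (ind_nonneg _ _)
  have i16 : ind Ω w * ind Ω (w + h) * (ind Ω w' * ind Ω (w' + h)) ≤ 1 := by
    have a1 : ind Ω w * ind Ω (w + h) ≤ 1 :=
      mul_le_one₀ (ind_le_one _ _) (ind_nonneg _ _) (ind_le_one _ _)
    have a2 : ind Ω w' * ind Ω (w' + h) ≤ 1 :=
      mul_le_one₀ (ind_le_one _ _) (ind_nonneg _ _) (ind_le_one _ _)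
    exact mul_le_one₀ a1 (mul_nonneg (ind_nonneg _ _) (ind_nonneg _ _)) a2
  have hB16 : B ≤ 16 ^ d := by
    refine hbb.trans ?_
    calc (16 : ℝ) ^ d * (ind Ω w * ind Ω (w + h) * (ind Ω w' * ind Ω (w' + h))) ≤ 16 ^ d * 1 :=
          mul_le_mul_of_nonneg_left i16 (by positivity)
      _ = 16 ^ d := mul_one _
  have hP0 : 0 ≤ ∏ j, |Mj (nu q) Ξ h w w' j| := Finset.prod_nonneg fun j _ => abs_nonneg _
  by_cases hg : Gen φ ![h, w, w']
  · -- generic triples
    have hMj : ∀ j, |Mj (nu q) Ξ h w w' j| ≤ 2 := by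
      intro j
      rw [gc2b_Mj_eq]
      refine (shift_le hq hR hg _).trans ?_
      show 1 + er M 4 R ≤ 2
      linarith
    have hP : ∏ j, |Mj (nu q) Ξ h w w' j| ≤ 2 ^ d := by
      calc ∏ j, |Mj (nu q) Ξ h w w' j| ≤ ∏ _j : Fin d, (2 : ℝ) :=
            Finset.prod_le_prod (fun j _ => abs_nonneg _) fun j _ => hMj j
        _ = 2 ^ d := by rw [Finset.prod_const, Finset.card_univ, Fintype.card_fin]
    by_cases hΩ4 : w ∈ Ω ∧ w + h ∈ Ω ∧ w' ∈ Ω ∧ w' + h ∈ Ω
    · obtain ⟨h1, h2, h3, h4⟩ := hΩ4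
      by_cases hσ : ∀ j, ∃ b : Du (Fin 3 → M), ∀ y, (Ξ w + Ξ (w + h) + Ξ w' + Ξ (w' + h)) y j =
          b (gmap φ ![h, w, w'] y)
      · have hgood := good_of_comb φ Ω Ξ h w w' hg h1 h2 h3 h4 hσ
        rw [ind_pos (A := {p : V × V × V | Good φ Ω Ξ p.1 p.2.1 p.2.2}) (x := (w, w + h, w'))
          hgood, mul_one]
        have h5 : B * ∏ j, |Mj (nu q) Ξ h w w' j| ≤ 16 ^ d * 2 ^ d :=
          mul_le_mul hB16 hP hP0 (by positivity)
        rw [← mul_pow, show (16 : ℝ) * 2 = 32 by norm_num] at h5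
        linarith
      · push Not at hσ
        obtain ⟨j, hj⟩ := hσ
        have hsmall : |Mj (nu q) Ξ h w w' j| ≤ er M 4 R := by
          rw [gc2b_Mj_eq]
          refine shift_small hq hR _ _ fun b hb => ?_
          obtain ⟨y, hy⟩ := hj b
          exact hy (LinearMap.congr_fun hb y)
        have hP' : ∏ j, |Mj (nu q) Ξ h w w' j| ≤ 2 ^ d * er M 4 R := by
          rw [← Finset.mul_prod_erase Finset.univ _ (Finset.mem_univ j), mul_comm]
          refine mul_le_mul ?_ hsmall (abs_nonneg _) (by positivity)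
          calc ∏ x ∈ Finset.univ.erase j, |Mj (nu q) Ξ h w w' x| ≤
                ∏ _x ∈ Finset.univ.erase j, (2 : ℝ) :=
                Finset.prod_le_prod (fun j _ => abs_nonneg _) fun j _ => hMj j
            _ = 2 ^ (Finset.univ.erase j).card := by rw [Finset.prod_const]
            _ ≤ 2 ^ d := by
              refine pow_le_pow_right₀ (by norm_num) ?_
              refine (Finset.card_le_card (Finset.erase_subset _ _)).trans ?_
              rw [Finset.card_univ, Fintype.card_fin]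
        have h5 : B * ∏ j, |Mj (nu q) Ξ h w w' j| ≤ 16 ^ d * (2 ^ d * er M 4 R) :=
          mul_le_mul hB16 hP' hP0 (by positivity)
        rw [← mul_assoc, ← mul_pow, show (16 : ℝ) * 2 = 32 by norm_num] at h5
        linarith
    · have hz : ind Ω w * ind Ω (w + h) * (ind Ω w' * ind Ω (w' + h)) = 0 := by
        by_cases k1 : w ∈ Ω
        · by_cases k2 : w + h ∈ Ω
          · by_cases k3 : w' ∈ Ω
            · have k4 : w' + h ∉ Ω := fun k4 => hΩ4 ⟨k1, k2, k3, k4⟩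
              rw [ind_neg k4, mul_zero, mul_zero]
            · rw [ind_neg k3, zero_mul, mul_zero]
          · rw [ind_neg k2, mul_zero, zero_mul]
        · rw [ind_neg k1, zero_mul, zero_mul]
      rw [hz, mul_zero] at hbb
      have hB00 : B = 0 := le_antisymm hbb hB0
      rw [hB00, zero_mul]
      linarith
  · rw [ind_pos (A := {p : V × V × V | ¬ Gen φ ![p.1, p.2.1, p.2.2]}) (x := (h, w, w')) hg,
      mul_one] at t3 ⊢
    have hP : ∏ j, |Mj (nu q) Ξ h w w' j| ≤ (nc M ^ 4) ^ d := by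
      calc ∏ j, |Mj (nu q) Ξ h w w' j| ≤ ∏ _j : Fin d, (nc M ^ 4) :=
            Finset.prod_le_prod (fun j _ => abs_nonneg _) fun j _ => gc2b_Mj_le q Ξ h w w' j
        _ = (nc M ^ 4) ^ d := by rw [Finset.prod_const, Finset.card_univ, Fintype.card_fin]
    have h5 : B * ∏ j, |Mj (nu q) Ξ h w w' j| ≤ 16 ^ d * (nc M ^ 4) ^ d :=
      mul_le_mul hB16 hP hP0 (by positivity)
    linarith

omit [Module (ZMod 2) V] in
/-- change of variables in the main term -/
theorem gc2b_d3 (P : V → V → V → Prop) :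
    (av fun h => av fun w => av fun w' =>
      ind {p : V × V × V | P p.1 p.2.1 p.2.2} (w, w + h, w')) = d3 P := by
  unfold d3
  rw [av_comm]
  congr 1
  funext w
  exact av_shift_left (fun b => av fun c => ind {p : V × V × V | P p.1 p.2.1 p.2.2} (w, b, c)) w

/-- The last average in `gc_cs` for `b w = ind Ω w * ∏ aj` (`|b| ≤ 2^d ind Ω`): for generic
`(h,w,w')` each `|Mj| ≤ 2` (`shift_le`), and if the triple is not good one of the `|Mj|` is at most
`er M 4 R` (`shift_small` and `good_of_comb`); the non-generic triples contribute at most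
`16^d |M|^(4d) |M|^3 / 4^R`. -/
theorem gc_upper : ∃ C : ℕ, ∀ (t d s R : ℕ) (V M : Type) [AddCommGroup V] [Module (ZMod 2) V]
    [Finite V] [AddCommGroup M] [Module (ZMod 2) M] [Finite M] (q : V → M) (φ : Bil V M)
    (f : V → ℝ) (Ω : Set V) (Ξ : V → V →ₗ[ZMod 2] (Fin d → ZMod 2)),
    IsQ q φ → HR φ R → pw C (rk M + t + s) ≤ R → d ≤ t → (∀ y, 0 ≤ f y) → (∀ y, f y ≤ nu q y) →
    (∀ w ∈ Ω, Gen φ ![w]) →
    (av fun h => av fun w => av fun w' =>
      |(ind Ω w * ∏ j, aj f Ξ w j) * (ind Ω (w + h) * ∏ j, aj f Ξ (w + h) j) *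
        ((ind Ω w' * ∏ j, aj f Ξ w' j) * (ind Ω (w' + h) * ∏ j, aj f Ξ (w' + h) j))| *
        ∏ j, |Mj (nu q) Ξ h w w' j|) ≤
      32 ^ d * d3 (fun a b c => Good φ Ω Ξ a b c) + (1 / 2) ^ s := by
  refine ⟨4, fun t d s R V M => ?_⟩
  intro _ _ _ _ _ _ q φ f Ω Ξ hq hR hp hd hf0 hf1 hΩ
  have hR4 : (rk M + t + s + 2) ^ 4 ≤ R := hp
  have hx : (rk M + t + s + 2) ^ 4 ≥ 5 * (rk M + t + s) ^ 2 + 10 * (rk M + t + s) + 5 := by
    generalize rk M + t + s = x
    nlinarith [Nat.zero_le (x ^ 4), Nat.zero_le (x ^ 3), Nat.zero_le (x ^ 2), Nat.zero_le x]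
  have g1 : (5 * d + 4) * (rk M + 1) + (s + 1) ≤ R := by
    have k1 : (5 * d + 4) * (rk M + 1) ≤ (5 * (rk M + t + s) + 4) * ((rk M + t + s) + 1) :=
      Nat.mul_le_mul (by omega) (by omega)
    nlinarith [Nat.zero_le (rk M), Nat.zero_le t]
  have g2 : rk M * (4 * d + 3) + 4 * d + (s + 1) ≤ R := by
    have k1 : rk M * (4 * d + 3) ≤ (rk M + t + s) * (4 * (rk M + t + s) + 3) :=
      Nat.mul_le_mul (by omega) (by omega)
    nlinarith [Nat.zero_le (rk M), Nat.zero_le t, Nat.zero_le ((rk M + t + s) ^ 2)]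
  have g3 : 4 * (rk M + 1) ≤ R := by
    refine le_trans ?_ g1
    nlinarith [Nat.zero_le (rk M), Nat.zero_le d, Nat.zero_le (d * rk M)]
  refine (av_le_av fun h => av_le_av fun w => av_le_av fun w' =>
    gc2b_point hq hR g3 f hf0 hf1 Ξ Ω hΩ h w w').trans ?_
  have e : (av fun h : V => av fun w : V => av fun w' : V =>
      32 ^ d * ind {p : V × V × V | Good φ Ω Ξ p.1 p.2.1 p.2.2} (w, w + h, w') +
        32 ^ d * er M 4 R +
        16 ^ d * (nc M ^ 4) ^ d *
          ind {p : V × V × V | ¬ Gen φ ![p.1, p.2.1, p.2.2]} (h, w, w')) =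
      32 ^ d * d3 (fun a b c => Good φ Ω Ξ a b c) + 32 ^ d * er M 4 R +
        16 ^ d * (nc M ^ 4) ^ d * (av fun h : V => av fun w : V => av fun w' : V =>
          ind {p : V × V × V | ¬ Gen φ ![p.1, p.2.1, p.2.2]} (h, w, w')) := by
    simp only [av_add, av_mul_left, av_const]
    rw [gc2b_d3 (fun a b c => Good φ Ω Ξ a b c)]
  rw [e]
  have h1 : (32 : ℝ) ^ d * er M 4 R ≤ (1 / 2) ^ (s + 1) := by
    have h32 : (32 : ℝ) ^ d = 2 ^ (5 * d) := by
      rw [pow_mul]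
      norm_num
    rw [h32]
    refine (two_mul_er (5 * d) 4 R).trans ?_
    exact er_le g1
  have h2 : 16 ^ d * (nc M ^ 4) ^ d * (av fun h : V => av fun w : V => av fun w' : V =>
          ind {p : V × V × V | ¬ Gen φ ![p.1, p.2.1, p.2.2]} (h, w, w')) ≤
      (1 / 2) ^ (s + 1) := by
    have h3 := av_not_gen_three φ hR
    have h0 : (0 : ℝ) ≤ 16 ^ d * (nc M ^ 4) ^ d :=
      mul_nonneg (by positivity) (pow_nonneg (pow_nonneg (nc_nonneg M) _) _)
    refine (mul_le_mul_of_nonneg_left h3 h0).trans ?_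
    have h4 : (16 : ℝ) ^ d * (nc M ^ 4) ^ d * (nc M ^ 3 / 4 ^ R) =
        2 ^ (rk M * (4 * d + 3) + 4 * d) / 4 ^ R := by
      rw [nc_finrank, ← pow_mul, ← pow_mul, ← pow_mul, show (16 : ℝ) = 2 ^ 4 by norm_num,
        ← pow_mul, mul_div_assoc', ← pow_add, ← pow_add]
      congr 2
      ring
    rw [h4, one_div, inv_pow, ← one_div, div_le_div_iff₀ (by positivity) (by positivity), one_mul,
      ← pow_add]
    calc (2 : ℝ) ^ (rk M * (4 * d + 3) + 4 * d + (s + 1)) ≤ 2 ^ R :=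
          pow_le_pow_right₀ (by norm_num) g2
      _ ≤ 4 ^ R := pow_le_pow_left₀ (by norm_num) (by norm_num) R
  have h5 : ((1 : ℝ) / 2) ^ (s + 1) + (1 / 2) ^ (s + 1) = (1 / 2) ^ s := by
    rw [pow_succ]
    ring
  linarith

/-- Main result of block GC.  `E_w ind Ω w ∏ (aj)^2 ≥ 2^(-t) 2^(-2td)`; its fourth power is at most
`4 · (32^d d3(Good) + 2^(-s))` by `gc_cs`, `av_cor_pow`, `gc_upper`; take `s = 4 (t + 2 t^2) + 4`. -/
theorem gc_main : ∃ C : ℕ, ∀ (t d R : ℕ) (V M : Type) [AddCommGroup V] [Module (ZMod 2) V]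
    [Finite V] [AddCommGroup M] [Module (ZMod 2) M] [Finite M] (q : V → M) (φ : Bil V M)
    (F Ω : Set V) (Ξ : V → V →ₗ[ZMod 2] (Fin d → ZMod 2)),
    IsQ q φ → HR φ R → pw C (rk M + t) ≤ R → (∀ y ∈ F, q y = 0) → d ≤ t →
    (1 / 2 : ℝ) ^ t ≤ dn Ω → (∀ w ∈ Ω, Gen φ ![w]) →
    (∀ w ∈ Ω, ∀ j, (1 / 2 : ℝ) ^ t ≤
      |av fun y => wf M F y * wf M F (y + w) * sg (Ξ w y j)|) →
    (1 / 2 : ℝ) ^ pw C t ≤ d3 (fun a b c => Good φ Ω Ξ a b c) := by
  obtain ⟨C0, hC0⟩ := gc_upper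
  obtain ⟨C1, hC1⟩ := av_cor_pow
  refine ⟨C0 * 6 + C1 + 4, fun t d R V M => ?_⟩
  intro _ _ _ _ _ _ q φ F Ω Ξ hq hR hp hF hd hΩ1 hΩ2 hΩ3
  have p1 : pw C1 (rk M + t) ≤ R := (pw_mono_left (by omega) _).trans hp
  have hs : rk M + t + (4 * (t + 2 * t ^ 2) + 4) ≤ pw 4 (rk M + t) := by
    have k1 : t ^ 2 ≤ (rk M + t) ^ 2 := Nat.pow_le_pow_left (by omega) 2
    have k2 : rk M + t + (4 * (t + 2 * t ^ 2) + 4) ≤
        8 * (rk M + t) ^ 2 + 5 * (rk M + t) + 4 := by nlinarith [Nat.zero_le (rk M)]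
    refine k2.trans ?_
    unfold pw
    generalize rk M + t = x
    nlinarith [Nat.zero_le (x ^ 4), Nat.zero_le (x ^ 3), Nat.zero_le (x ^ 2), Nat.zero_le x]
  have p2 : pw C0 (rk M + t + (4 * (t + 2 * t ^ 2) + 4)) ≤ R := by
    refine (pw_mono C0 hs).trans ((pw_comp C0 4 _).trans ?_)
    exact (pw_mono_left (by omega) _).trans hp
  have hf0 : ∀ y, 0 ≤ wf M F y := fun y => mul_nonneg (nc_nonneg M) (ind_nonneg _ _)
  have hf1 : ∀ y, wf M F y ≤ nu q y := fun y =>
    mul_le_mul_of_nonneg_left (ind_mono (fun z hz => hF z hz) y) (nc_nonneg M)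
  have hcs := gc_cs (wf M F) (nu q) (fun w => ind Ω w * ∏ j, aj (wf M F) Ξ w j) hf0 hf1 Ξ
  have hup := hC0 t d (4 * (t + 2 * t ^ 2) + 4) R V M q φ (wf M F) Ω Ξ hq hR p2 hd hf0 hf1 hΩ2
  obtain ⟨hc1, hc2⟩ := hC1 t d R V M q φ hq hR p1 hd
  have hD0 : 0 ≤ d3 (fun a b c => Good φ Ω Ξ a b c) :=
    av_nonneg fun a => av_nonneg fun b => av_nonneg fun c => ind_nonneg _ _
  set D := d3 (fun a b c => Good φ Ω Ξ a b c) with hD
  set U := (av fun h => av fun w => av fun w' =>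
      |(ind Ω w * ∏ j, aj (wf M F) Ξ w j) * (ind Ω (w + h) * ∏ j, aj (wf M F) Ξ (w + h) j) *
        ((ind Ω w' * ∏ j, aj (wf M F) Ξ w' j) *
          (ind Ω (w' + h) * ∏ j, aj (wf M F) Ξ (w' + h) j))| *
        ∏ j, |Mj (nu q) Ξ h w w' j|) with hU
  have hU0 : 0 ≤ U := av_nonneg fun h => av_nonneg fun w => av_nonneg fun w' =>
    mul_nonneg (abs_nonneg _) (Finset.prod_nonneg fun j _ => abs_nonneg _)
  -- lower bound
  have hlow : ((1 : ℝ) / 2) ^ (t + 2 * t ^ 2) ≤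
      av fun w => ind Ω w * (∏ j, aj (wf M F) Ξ w j) * ∏ j, aj (wf M F) Ξ w j := by
    have h1 : ∀ w, ind Ω w * ((1 : ℝ) / 2) ^ (2 * t ^ 2) ≤
        ind Ω w * (∏ j, aj (wf M F) Ξ w j) * ∏ j, aj (wf M F) Ξ w j := by
      intro w
      by_cases hw : w ∈ Ω
      · rw [ind_pos hw, one_mul, one_mul, ← sq, ← sq_abs, Finset.abs_prod, ← Finset.prod_pow]
        have h2 : ∀ j, (((1 : ℝ) / 2) ^ t) ^ 2 ≤ |aj (wf M F) Ξ w j| ^ 2 := fun j =>
          pow_le_pow_left₀ (by positivity) (hΩ3 w hw j) 2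
        calc ((1 : ℝ) / 2) ^ (2 * t ^ 2) ≤ (1 / 2) ^ (t * 2 * d) := by
              refine pow_le_pow_of_le_one (by norm_num) (by norm_num) ?_
              nlinarith [Nat.mul_le_mul_left t hd]
          _ = ∏ _j : Fin d, (((1 : ℝ) / 2) ^ t) ^ 2 := by
              rw [Finset.prod_const, Finset.card_univ, Fintype.card_fin, ← pow_mul, ← pow_mul,
                mul_assoc]
          _ ≤ _ := Finset.prod_le_prod (fun j _ => by positivity) fun j _ => h2 j
      · rw [ind_neg hw, zero_mul, zero_mul, zero_mul]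
    calc ((1 : ℝ) / 2) ^ (t + 2 * t ^ 2) = (1 / 2) ^ t * (1 / 2) ^ (2 * t ^ 2) := by rw [pow_add]
      _ ≤ dn Ω * (1 / 2) ^ (2 * t ^ 2) := mul_le_mul_of_nonneg_right hΩ1 (by positivity)
      _ = av fun w => ind Ω w * ((1 : ℝ) / 2) ^ (2 * t ^ 2) := by rw [av_mul_right]; rfl
      _ ≤ _ := av_le_av h1
  have hlow4 := pow_le_pow_left₀ (by positivity) hlow 4
  rw [← pow_mul] at hlow4
  have hcomb : ((1 : ℝ) / 2) ^ ((t + 2 * t ^ 2) * 4) ≤ 4 * (32 ^ d * D +
      (1 / 2) ^ (4 * (t + 2 * t ^ 2) + 4)) := by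
    refine hlow4.trans (hcs.trans ?_)
    have h1 : av (nu q) ^ (2 * d) * (av fun h => cor (nu q) (nu q) h ^ d) ≤ 2 * 2 :=
      mul_le_mul hc2 hc1 (av_nonneg fun h => pow_nonneg (cor_nu_nonneg q h) _) (by norm_num)
    calc av (nu q) ^ (2 * d) * (av fun h => cor (nu q) (nu q) h ^ d) * U ≤ 2 * 2 * U :=
          mul_le_mul_of_nonneg_right h1 hU0
      _ ≤ 2 * 2 * (32 ^ d * D + (1 / 2) ^ (4 * (t + 2 * t ^ 2) + 4)) :=
          mul_le_mul_of_nonneg_left hup (by norm_num)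
      _ = _ := by norm_num
  have h6 : ((1 : ℝ) / 2) ^ (4 * (t + 2 * t ^ 2) + 4) =
      (1 / 2) ^ ((t + 2 * t ^ 2) * 4) * (1 / 16) := by
    rw [pow_add, mul_comm 4]
    norm_num
  rw [h6] at hcomb
  set E := ((1 : ℝ) / 2) ^ ((t + 2 * t ^ 2) * 4) with hE
  have hE0 : 0 < E := by positivity
  have h7 : E / 8 ≤ 32 ^ d * D := by linarith
  have h8 : (32 : ℝ) ^ d * D ≤ 32 ^ t * D :=
    mul_le_mul_of_nonneg_right (pow_le_pow_right₀ (by norm_num) hd) hD0
  have h9 : E / 8 * (1 / 32) ^ t ≤ D := by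
    have h10 : (32 : ℝ) ^ t * (1 / 32) ^ t = 1 := by
      rw [← mul_pow]
      norm_num
    calc E / 8 * (1 / 32) ^ t ≤ 32 ^ t * D * (1 / 32) ^ t :=
          mul_le_mul_of_nonneg_right (h7.trans h8) (by positivity)
      _ = 32 ^ t * (1 / 32) ^ t * D := by ring
      _ = D := by rw [h10, one_mul]
  refine le_trans ?_ h9
  have h11 : E / 8 * (1 / 32) ^ t = (1 / 2) ^ ((t + 2 * t ^ 2) * 4 + 3 + 5 * t) := by
    rw [pow_add, pow_add, ← hE, pow_mul ((1 : ℝ) / 2) 5 t,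
      show ((1 : ℝ) / 2) ^ 5 = 1 / 32 by norm_num, show ((1 : ℝ) / 2) ^ 3 = 1 / 8 by norm_num]
    ring
  rw [h11]
  refine pow_le_pow_of_le_one (by norm_num) (by norm_num) ?_
  have h12 : (t + 2 * t ^ 2) * 4 + 3 + 5 * t ≤ pw 4 t := by
    unfold pw
    nlinarith [Nat.zero_le (t ^ 4), Nat.zero_le (t ^ 3), Nat.zero_le (t ^ 2), Nat.zero_le t]
  exact h12.trans (pw_mono_left (by omega) t)

end G2
end
end
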