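import Pool.Agent.Lib.MP_f4f4db_co.G2.CO4

section

/-!
# Job SA1: adding one vector to a random affine map

`pt y x α = y + ∑ α_i x_i`, `lc x α = ∑ α_i x_i`; `Wt q D (y, x) = |M|^(1 + D + D(D-1)/2)` if all
points `pt y x α` are in `{q = 0}`, and `0` otherwise.
-/

set_option autoImplicit false

open Module

namespace G2

variable {V M : Type} [AddCommGroup V] [Module (ZMod 2) V] [Finite V]
  [AddCommGroup M] [Module (ZMod 2) M] [Finite M]

theorem pt_eq {D : ℕ} (y : V) (x : Fin D → V) (α : Fin D → ZMod 2) : pt y x α = y + lc x α := rfl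

theorem lc_add {D : ℕ} (x : Fin D → V) (α β : Fin D → ZMod 2) :
    lc x (α + β) = lc x α + lc x β := by
  simp only [lc, Pi.add_apply, add_smul, Finset.sum_add_distrib]

theorem pt_snoc {D : ℕ} (y : V) (x : Fin D → V) (v : V) (α : Fin D → ZMod 2) (a : ZMod 2) :
    pt y (Fin.snoc x v : Fin (D + 1) → V) (Fin.snoc α a : Fin (D + 1) → ZMod 2) =
      pt y x α + a • v := by
  simp only [pt, Fin.sum_univ_castSucc, Fin.snoc_castSucc, Fin.snoc_last, add_assoc]

omit [Finite V] in
theorem sa1_pt_zero {D : ℕ} (y : V) (x : Fin D → V) : pt y x 0 = y := by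
  simp [pt]

omit [Finite V] in
theorem sa1_pt_single {D : ℕ} (y : V) (x : Fin D → V) (i : Fin D) :
    pt y x (Pi.single i 1) = y + x i := by
  simp only [pt, Pi.single_apply, ite_smul, one_smul, zero_smul, Finset.sum_ite_eq',
    Finset.mem_univ, if_true]

omit [Finite V] [Finite M] in
theorem sa1_lc {φ : Bil V M} {D : ℕ} (x : Fin D → V) (v : V) (h : ∀ i, φ (x i) v = 0)
    (α : Fin D → ZMod 2) : φ (lc x α) v = 0 := by
  simp only [lc, map_sum, map_smul, LinearMap.sum_apply, LinearMap.smul_apply, h, smul_zero,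
    Finset.sum_const_zero]

/-- For points of `{q = 0}`: `q (p + v) = q p + q v + q 0 + φ (p, v)`, with `p = y + ∑ α_i x_i`,
so given `q y = 0` and `q p = 0` for all `α` the new points are in `{q = 0}` iff `q (y + v) = 0` and
`φ (x_i, v) = 0` for all `i`. -/
theorem all_snoc {q : V → M} {φ : Bil V M} (hq : IsQ q φ) {D : ℕ} (y : V) (x : Fin D → V) (v : V) :
    (∀ α : Fin (D + 1) → ZMod 2, q (pt y (Fin.snoc x v : Fin (D + 1) → V) α) = 0) ↔
      (∀ α : Fin D → ZMod 2, q (pt y x α) = 0) ∧ q (y + v) = 0 ∧ ∀ i, φ (x i) v = 0 := by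
  constructor
  · intro h
    have h1 : ∀ α : Fin D → ZMod 2, q (pt y x α) = 0 := fun α => by
      have := h (Fin.snoc α 0)
      rwa [pt_snoc, zero_smul, add_zero] at this
    have h2 : ∀ α : Fin D → ZMod 2, q (pt y x α + v) = 0 := fun α => by
      have := h (Fin.snoc α 1)
      rwa [pt_snoc, one_smul] at this
    have h3 : q (y + v) = 0 := by
      have := h2 0
      rwa [sa1_pt_zero] at this
    refine ⟨h1, h3, fun i => ?_⟩
    have h4 := h2 (Pi.single i 1)
    have h5 := h1 (Pi.single i 1)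
    rw [sa1_pt_single] at h4 h5
    have h6 := h1 0
    rw [sa1_pt_zero] at h6
    rw [hq (y + x i) v, h5, zero_add, map_add, LinearMap.add_apply] at h4
    rw [hq y v, h6, zero_add] at h3
    rwa [← add_assoc, h3, zero_add] at h4
  · rintro ⟨h1, h2, h3⟩ α
    have h6 := h1 0
    rw [sa1_pt_zero] at h6
    rw [hq y v, h6, zero_add] at h2
    rw [← Fin.snoc_init_self α, pt_snoc]
    rcases zmod2 (α (Fin.last D)) with h | h
    · rw [h, zero_smul, add_zero]
      exact h1 _
    · rw [h, one_smul, hq _ v, h1, zero_add, pt_eq, map_add, LinearMap.add_apply,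
        sa1_lc x v h3, add_zero, h2]

/-- `1 + (D+1) + (D+1)D/2 = (1 + D + D(D-1)/2) + (D + 1)` -/
theorem Wt_snoc {q : V → M} {φ : Bil V M} (hq : IsQ q φ) {D : ℕ} (y : V) (x : Fin D → V) (v : V) :
    Wt q (D + 1) (y, (Fin.snoc x v : Fin (D + 1) → V)) =
      Wt q D (y, x) * (nc M ^ (D + 1) * ind {v | q (y + v) = 0 ∧ ∀ i, φ (x i) v = 0} v) := by
  have he : 1 + (D + 1) + (D + 1) * (D + 1 - 1) / 2 = (1 + D + D * (D - 1) / 2) + (D + 1) := by
    rw [Nat.triangle_succ]
    ring
  by_cases h1 : ∀ α : Fin D → ZMod 2, q (pt y x α) = 0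
  · by_cases h2 : q (y + v) = 0 ∧ ∀ i, φ (x i) v = 0
    · rw [ind_pos (A := {v | q (y + v) = 0 ∧ ∀ i, φ (x i) v = 0}) h2, Wt, Wt,
        if_pos ((all_snoc hq y x v).2 ⟨h1, h2⟩), if_pos h1, he, pow_add, mul_one]
    · rw [ind_neg (A := {v | q (y + v) = 0 ∧ ∀ i, φ (x i) v = 0}) h2, Wt,
        if_neg fun h => h2 ((all_snoc hq y x v).1 h).2, mul_zero, mul_zero]
  · rw [Wt, Wt, if_neg fun h => h1 ((all_snoc hq y x v).1 h).1, if_neg h1, zero_mul]

omit [Finite V] [Finite M] in
theorem sa1_isQ {q : V → M} {φ : Bil V M} (hq : IsQ q φ) (y : V) :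
    IsQ (fun v => q (y + v)) φ := by
  intro a b
  simp only
  rw [← add_assoc, hq (y + a) b, hq y b, add_zero, map_add, LinearMap.add_apply]
  have h := add_self (q y)
  calc q (y + a) + q b + q 0 + (φ y b + φ a b)
      = q (y + a) + q b + q 0 + (φ y b + φ a b) + (q y + q y) := by rw [h, add_zero]
    _ = q (y + a) + (q y + q b + q 0 + φ y b) + q y + φ a b := by abel

theorem sa1_nc_pi (D : ℕ) :
    nc (Fin D → M) = nc M ^ D := by
  rw [nc, nc, Nat.card_fun, Nat.card_eq_fintype_card (α := Fin D), Fintype.card_fin]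
  push_cast
  rfl

/-- for generic `x` the expected number of continuations is almost `1`; `fibre_nu` for the
translated quadratic map `q (y + ·)`, `T = gmap φ x`, `s = 0`, `b = 0` -/
theorem cont_gen {q : V → M} {φ : Bil V M} (hq : IsQ q φ) {R : ℕ} (hR : HR φ R) {D : ℕ} (y : V)
    {x : Fin D → V} (hx : Gen φ x) :
    |av (fun v => nc M ^ (D + 1) * ind {v | q (y + v) = 0 ∧ ∀ i, φ (x i) v = 0} v) - 1| ≤
      er M (D + 1) R := by
  have h := fibre_nu (sa1_isQ hq y) hR (gmap φ x) (gmap_surj hx) 0 0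
  have e1 : sg ((0 : Du (Fin D → M)) 0) = 1 := by rw [LinearMap.zero_apply, sg_zero]
  rw [e1, sa1_nc_pi, ← av_mul_left] at h
  have e2 : (fun v => nc M ^ D * (nu (fun v => q (y + v)) v * ind {y | gmap φ x y = 0} v *
      sg ((0 : Du (Fin D → M)) (gmap φ x v)))) =
      fun v => nc M ^ (D + 1) * ind {v | q (y + v) = 0 ∧ ∀ i, φ (x i) v = 0} v := by
    funext v
    rw [LinearMap.zero_apply, sg_zero, mul_one, nu]
    have e3 : ind {v | q (y + v) = 0 ∧ ∀ i, φ (x i) v = 0} v =
        ind {v | q (y + v) = 0} v * ind {v | gmap φ x v = 0} v := by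
      rw [← ind_inter]
      congr 1
      ext w
      simp only [Set.mem_ofPred_eq, Set.mem_inter_iff]
      refine and_congr Iff.rfl ⟨fun h => funext fun i => h i, fun h i => congrFun h i⟩
    rw [e3, pow_succ]
    ring
  rw [e2] at h
  refine h.trans ?_
  have := nc_mul_er (M := M) D 1 R
  exact this

theorem cont_le {q : V → M} {φ : Bil V M} {D : ℕ} (y : V) (x : Fin D → V) :
    av (fun v => nc M ^ (D + 1) * ind {v | q (y + v) = 0 ∧ ∀ i, φ (x i) v = 0} v) ≤
      nc M ^ (D + 1) := by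
  refine av_le_const fun v => ?_
  exact mul_le_of_le_one_right (pow_nonneg (nc_nonneg M) _) (ind_le_one _ _)

theorem Wt_nonneg (q : V → M) (D : ℕ) (z : V × (Fin D → V)) : 0 ≤ Wt q D z := by
  unfold Wt
  split_ifs
  · exact pow_nonneg (nc_nonneg M) _
  · exact le_refl 0

theorem Wt_le (q : V → M) (D : ℕ) (z : V × (Fin D → V)) :
    Wt q D z ≤ nc M ^ (1 + D + D * (D - 1) / 2) := by
  unfold Wt
  split_ifs
  · exact le_refl _
  · exact pow_nonneg (nc_nonneg M) _

/-- an average over `V × (Fin (D+1) → V)` as an iterated average -/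
theorem av_snoc {D : ℕ} (H : V → (Fin (D + 1) → V) → ℝ) :
    (av fun z : V × (Fin (D + 1) → V) => H z.1 z.2) =
      av fun z : V × (Fin D → V) => av fun v => H z.1 (Fin.snoc z.2 v : Fin (D + 1) → V) := by
  rw [av_prod, av_prod]
  congr 1
  funext y
  simp only
  have h := av_equiv (Fin.snocEquiv fun _ : Fin (D + 1) => V) (fun w => H y w)
  rw [← h, av_prod, av_comm]
  rfl

end G2
end

section

/-!
# Job SA2: the law of the first three coordinates
-/

set_option autoImplicit false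

open Module

namespace G2

variable {V M : Type} [AddCommGroup V] [Module (ZMod 2) V] [Finite V]
  [AddCommGroup M] [Module (ZMod 2) M] [Finite M]

/-- pointwise bound for the expected number of continuations -/
theorem sa2_pointwise {q : V → M} {φ : Bil V M} (hq : IsQ q φ) {R : ℕ} (hR : HR φ R) {D : ℕ}
    (y : V) (x : Fin D → V) :
    |av (fun v => nc M ^ (D + 1) * ind {v | q (y + v) = 0 ∧ ∀ i, φ (x i) v = 0} v) - 1| ≤
      er M (D + 1) R + nc M ^ (D + 1) * ind {x : Fin D → V | ¬ Gen φ x} x := by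
  have hM : (1 : ℝ) ≤ nc M := one_le_nc
  have hM' : (1 : ℝ) ≤ nc M ^ (D + 1) := one_le_pow₀ hM
  by_cases hx : Gen φ x
  · rw [ind_neg (A := {x : Fin D → V | ¬ Gen φ x}) (fun h => h hx), mul_zero, add_zero]
    exact cont_gen hq hR y hx
  · rw [ind_pos (A := {x : Fin D → V | ¬ Gen φ x}) hx, mul_one]
    have h1 := cont_le (q := q) (φ := φ) y x
    have h2 : 0 ≤ av (fun v => nc M ^ (D + 1) *
        ind {v | q (y + v) = 0 ∧ ∀ i, φ (x i) v = 0} v) :=
      av_nonneg fun v => mul_nonneg (by positivity) (ind_nonneg _ _)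
    have h3 : 0 ≤ er M (D + 1) R := er_nonneg _ _
    rw [abs_le]
    constructor <;> linarith

theorem sa2_er {R : ℕ} (D : ℕ) :
    nc M ^ (1 + D + D * (D - 1) / 2) * (er M (D + 1) R + nc M ^ (D + 1) * (nc M ^ D / 4 ^ R)) ≤
      er M ((D + 3) ^ 2) R := by
  have hM : (1 : ℝ) ≤ nc M := one_le_nc
  set a : ℕ := 1 + D + D * (D - 1) / 2 with ha
  have h1 : nc M ^ a * er M (D + 1) R ≤ er M (a + 2 * D + 1) R :=
    (nc_mul_er a (D + 1) R).trans (er_mono (by omega) R)
  have h2 : nc M ^ a * (nc M ^ (D + 1) * (nc M ^ D / 4 ^ R)) ≤ er M (a + 2 * D + 1) R := by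
    have e : nc M ^ a * (nc M ^ (D + 1) * (nc M ^ D / 4 ^ R)) = nc M ^ (a + 2 * D + 1) / 4 ^ R := by
      rw [show a + 2 * D + 1 = a + ((D + 1) + D) by ring, pow_add, pow_add]
      ring
    rw [e, er]
    refine div_le_div₀ (by positivity) ?_ (by positivity) ?_
    · exact pow_le_pow_left₀ (by linarith) (by linarith) _
    · exact pow_le_pow_left₀ (by norm_num) (by norm_num) _
  have h3 : 2 ^ 1 * er M (a + 2 * D + 1) R ≤ er M (1 + (a + 2 * D + 1)) R := two_mul_er 1 _ R
  have h4 : 1 + (a + 2 * D + 1) ≤ (D + 3) ^ 2 := by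
    have h5 : D * (D - 1) / 2 ≤ D * D := (Nat.div_le_self _ _).trans (Nat.mul_le_mul le_rfl (by omega))
    nlinarith
  have h5 := er_mono (M := M) h4 R
  rw [mul_add]
  linarith

/-- one step: a function of the first `D` vectors has almost the same weighted average for `D` and
for `D + 1`: `Wt_snoc`, `cont_gen` for generic `x` and `cont_le`, `dn_not_gen` for the other `x`;
the difference is at most `B |M|^(1+D+D(D-1)/2) (er M (D+1) R + |M|^(D+1) |M|^D / 4^R)`. -/
theorem es_step {q : V → M} {φ : Bil V M} (hq : IsQ q φ) {R : ℕ} (hR : HR φ R) (D : ℕ)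
    (G : V → (Fin D → V) → ℝ) (B : ℝ) (hG : ∀ y x, |G y x| ≤ B) :
    |ES q (D + 1) (fun y x => G y (fun i => x i.castSucc)) - ES q D G| ≤
      B * er M ((D + 3) ^ 2) R := by
  have hM : (1 : ℝ) ≤ nc M := one_le_nc
  have hB : 0 ≤ B := (abs_nonneg _).trans (hG 0 0)
  have e1 : ES q (D + 1) (fun y x => G y (fun i => x i.castSucc)) =
      av fun z : V × (Fin D → V) => Wt q D z * G z.1 z.2 *
        av (fun v => nc M ^ (D + 1) * ind {v | q (z.1 + v) = 0 ∧ ∀ i, φ (z.2 i) v = 0} v) := by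
    have h1 := av_snoc (V := V) (D := D)
      (fun y x => Wt q (D + 1) (y, x) * G y (fun i => x i.castSucc))
    rw [ES]
    refine h1.trans ?_
    congr 1
    funext z
    rw [← av_mul_left]
    congr 1
    funext v
    rw [Wt_snoc hq]
    simp only [Fin.snoc_castSucc]
    ring
  rw [e1, ES, ← av_sub]
  refine (abs_av_le _).trans ?_
  have h2 : ∀ z : V × (Fin D → V),
      |Wt q D z * G z.1 z.2 *
        av (fun v => nc M ^ (D + 1) * ind {v | q (z.1 + v) = 0 ∧ ∀ i, φ (z.2 i) v = 0} v) -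
        Wt q D z * G z.1 z.2| ≤
      nc M ^ (1 + D + D * (D - 1) / 2) * B * (er M (D + 1) R +
        nc M ^ (D + 1) * ind {x : Fin D → V | ¬ Gen φ x} z.2) := by
    intro z
    rw [show ∀ a b : ℝ, a * b - a = a * (b - 1) from fun a b => by ring, abs_mul, abs_mul,
      abs_of_nonneg (Wt_nonneg q D z)]
    refine mul_le_mul (mul_le_mul (Wt_le q D z) (hG _ _) (abs_nonneg _) (by positivity))
      (sa2_pointwise hq hR z.1 z.2) (abs_nonneg _) (by positivity)
  refine (av_le_av h2).trans ?_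
  rw [av_mul_left, av_add, av_const, av_mul_left]
  have h3 : (av fun z : V × (Fin D → V) => ind {x : Fin D → V | ¬ Gen φ x} z.2) ≤
      nc M ^ D / 4 ^ R := by
    rw [av_prod]
    simp only
    rw [av_const]
    exact dn_not_gen φ hR D
  have h4 : nc M ^ (D + 1) * (av fun z : V × (Fin D → V) => ind {x : Fin D → V | ¬ Gen φ x} z.2) ≤
      nc M ^ (D + 1) * (nc M ^ D / 4 ^ R) := mul_le_mul_of_nonneg_left h3 (by positivity)
  have h5 := sa2_er (M := M) (R := R) D
  calc nc M ^ (1 + D + D * (D - 1) / 2) * B * (er M (D + 1) R + nc M ^ (D + 1) *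
        (av fun z : V × (Fin D → V) => ind {x : Fin D → V | ¬ Gen φ x} z.2))
      ≤ nc M ^ (1 + D + D * (D - 1) / 2) * B * (er M (D + 1) R +
        nc M ^ (D + 1) * (nc M ^ D / 4 ^ R)) := by
        refine mul_le_mul_of_nonneg_left (by linarith) (by positivity)
    _ = B * (nc M ^ (1 + D + D * (D - 1) / 2) * (er M (D + 1) R +
        nc M ^ (D + 1) * (nc M ^ D / 4 ^ R))) := by ring
    _ ≤ B * er M ((D + 3) ^ 2) R := mul_le_mul_of_nonneg_left h5 hB

theorem sa2_wt_two (q : V → M) (y x x' : V) : Wt q 2 (y, ![x, x']) = w2 q y x x' := by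
  classical
  have e : (∀ α : Fin 2 → ZMod 2, q (pt y ![x, x'] α) = 0) ↔
      (q y = 0 ∧ q (y + x) = 0) ∧ (q (y + x') = 0 ∧ q (y + x + x') = 0) := by
    have hp : ∀ a b : ZMod 2, pt y ![x, x'] ![a, b] = y + (a • x + b • x') := by
      intro a b
      simp [pt, Fin.sum_univ_two]
    constructor
    · intro h
      have h00 := h ![0, 0]
      have h10 := h ![1, 0]
      have h01 := h ![0, 1]
      have h11 := h ![1, 1]
      rw [hp] at h00 h10 h01 h11
      simp only [zero_smul, one_smul, add_zero, zero_add] at h00 h10 h01 h11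
      rw [← add_assoc] at h11
      exact ⟨⟨h00, h10⟩, h01, h11⟩
    · rintro ⟨⟨h00, h10⟩, h01, h11⟩ α
      have hα : α = ![α 0, α 1] := by
        funext i
        fin_cases i <;> rfl
      rw [hα, hp]
      rcases zmod2 (α 0) with h0 | h0 <;> rcases zmod2 (α 1) with h1 | h1 <;> rw [h0, h1]
      · simpa using h00
      · simpa using h01
      · simpa using h10
      · simpa [add_assoc] using h11
  have hn : ∀ p : V, nu q p = if q p = 0 then nc M else 0 := by
    intro p
    unfold nu ind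
    by_cases h : q p = 0
    · simp [h]
    · simp [h]
  unfold Wt w2
  rw [hn, hn, hn, hn]
  by_cases h1 : q y = 0
  · by_cases h2 : q (y + x) = 0
    · by_cases h3 : q (y + x') = 0
      · by_cases h4 : q (y + x + x') = 0
        · rw [if_pos (e.2 ⟨⟨h1, h2⟩, h3, h4⟩), if_pos h1, if_pos h2, if_pos h3, if_pos h4]
          norm_num
          ring
        · rw [if_neg (fun h => h4 (e.1 h).2.2), if_neg h4]
          ring
      · rw [if_neg (fun h => h3 (e.1 h).2.1), if_neg h3]
        ring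
    · rw [if_neg (fun h => h2 (e.1 h).1.2), if_neg h2]
      ring
  · rw [if_neg (fun h => h1 (e.1 h).1.1), if_neg h1]
    ring

/-- for `D = 2` the weight is exactly `w2` -/
theorem es_base (q : V → M) (G : V → V → V → ℝ) :
    ES q 2 (fun y x => G y (x 0) (x 1)) =
      av fun y => av fun x => av fun x' => w2 q y x x' * G y x x' := by
  rw [ES, av_prod]
  congr 1
  funext y
  rw [← av_equiv (finTwoArrowEquiv V).symm, av_prod]
  congr 1
  funext x
  congr 1
  funext x'
  rw [← sa2_wt_two]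
  rfl

/-- induction on `k` -/
theorem es_two {q : V → M} {φ : Bil V M} (hq : IsQ q φ) {R : ℕ} (hR : HR φ R) (k : ℕ)
    (G : V → V → V → ℝ) (B : ℝ) (hG : ∀ y x x', |G y x x'| ≤ B) :
    |ES q (k + 2) (fun y x => G y (x 0) (x 1)) -
      av (fun y => av fun x => av fun x' => w2 q y x x' * G y x x')| ≤
      B * er M ((k + 6) ^ 3) R := by
  have hB : 0 ≤ B := (abs_nonneg _).trans (hG 0 0 0)
  induction k with
  | zero =>
    rw [← es_base]
    simp only [zero_add, sub_self, abs_zero]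
    exact mul_nonneg hB (er_nonneg _ _)
  | succ k ih =>
    have h1 := es_step hq hR (k + 2) (fun y x => G y (x 0) (x 1)) B (fun y x => hG _ _ _)
    have h2 : ES q (k + 2 + 1) (fun y x => (fun (y : V) (x : Fin (k + 2) → V) =>
        G y (x 0) (x 1)) y (fun i => x i.castSucc)) =
        ES q (k + 1 + 2) (fun y x => G y (x 0) (x 1)) := rfl
    rw [h2] at h1
    have h3 := abs_sub_le (ES q (k + 1 + 2) (fun y x => G y (x 0) (x 1)))
      (ES q (k + 2) (fun y x => G y (x 0) (x 1)))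
      (av (fun y => av fun x => av fun x' => w2 q y x x' * G y x x'))
    have h4 : er M ((k + 2 + 3) ^ 2) R ≤ er M ((k + 6) ^ 3) R := by
      refine er_mono ?_ R
      calc (k + 2 + 3) ^ 2 ≤ (k + 6) ^ 2 := Nat.pow_le_pow_left (by omega) 2
        _ ≤ (k + 6) ^ 3 := Nat.pow_le_pow_right (by omega) (by norm_num)
    have h5 : 2 ^ 1 * er M ((k + 6) ^ 3) R ≤ er M (1 + (k + 6) ^ 3) R := two_mul_er 1 _ R
    have h6 : er M (1 + (k + 6) ^ 3) R ≤ er M ((k + 1 + 6) ^ 3) R := by
      refine er_mono ?_ R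
      have : k + 1 + 6 = (k + 6) + 1 := by ring
      rw [this]
      nlinarith [Nat.zero_le (k + 6), Nat.zero_le ((k + 6) ^ 2)]
    have h7 : B * er M ((k + 2 + 3) ^ 2) R + B * er M ((k + 6) ^ 3) R ≤
        B * er M ((k + 1 + 6) ^ 3) R := by
      rw [← mul_add]
      exact mul_le_mul_of_nonneg_left (by linarith) hB
    linarith

end G2
end

section

/-!
# Job SA3: change of variables

The weight `Wt` is invariant under the affine group of `F_2^D`.
-/

set_option autoImplicit false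

open Module

namespace G2

variable {V M : Type} [AddCommGroup V] [Module (ZMod 2) V] [Finite V]
  [AddCommGroup M] [Module (ZMod 2) M] [Finite M]

omit [Finite V] in
theorem sa3_lc_eq {D : ℕ} (x : Fin D → V) (α : Fin D → ZMod 2) :
    lc x α = Fintype.linearCombination (ZMod 2) x α := by
  rw [Fintype.linearCombination_apply]
  rfl

omit [Finite V] in
theorem sa3_lc_comp {D : ℕ} (x : Fin D → V)
    (g : (Fin D → ZMod 2) ≃ₗ[ZMod 2] (Fin D → ZMod 2)) (β : Fin D → ZMod 2) :
    lc (fun i => lc x (g (Pi.single i 1))) β = lc x (g β) := by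
  have h : Fintype.linearCombination (ZMod 2) (fun i => lc x (g (Pi.single i 1))) =
      (Fintype.linearCombination (ZMod 2) x).comp g.toLinearMap := by
    apply LinearMap.pi_ext'
    intro i
    ext
    simp [Fintype.linearCombination_apply_single, sa3_lc_eq]
  rw [sa3_lc_eq, h, sa3_lc_eq]
  rfl

omit [Finite V] in
theorem sa3_lc_single {D : ℕ} (x : Fin D → V) (i : Fin D) : lc x (Pi.single i 1) = x i := by
  rw [sa3_lc_eq, Fintype.linearCombination_apply_single, one_smul]

omit [Finite V] in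
theorem sa3_pt_comp {D : ℕ} (y : V) (x : Fin D → V)
    (g : (Fin D → ZMod 2) ≃ₗ[ZMod 2] (Fin D → ZMod 2)) (α β : Fin D → ZMod 2) :
    pt (pt y x α) (fun i => lc x (g (Pi.single i 1))) β = pt y x (α + g β) := by
  have e : ∀ (y : V) (x : Fin D → V) (α : Fin D → ZMod 2), pt y x α = y + lc x α :=
    fun _ _ _ => rfl
  rw [e, e, e, sa3_lc_comp, sa3_lc_eq, sa3_lc_eq, sa3_lc_eq, map_add, add_assoc]

/-- The map `(y, x) ↦ (pt y x α, (lc x (g e_i))_i)` is a bijection of `V × V^D` (its inverse is given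
by `g⁻¹`), the affine map belonging to the image is `β ↦ pt y x (α + g β)`, so the weight is the
same. -/
theorem es_change (q : V → M) (D : ℕ) (g : (Fin D → ZMod 2) ≃ₗ[ZMod 2] (Fin D → ZMod 2))
    (α : Fin D → ZMod 2) (H : V → (Fin D → V) → ℝ) :
    ES q D (fun y x => H (pt y x α) (fun i => lc x (g (Pi.single i 1)))) = ES q D H := by
  have hinj : Function.Injective (fun z : V × (Fin D → V) =>
      ((pt z.1 z.2 α, fun i => lc z.2 (g (Pi.single i 1))) : V × (Fin D → V))) := by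
    rintro ⟨y, x⟩ ⟨y', x'⟩ h
    simp only [Prod.mk.injEq] at h
    obtain ⟨h1, h2⟩ := h
    have h3 : ∀ γ : Fin D → ZMod 2, lc x γ = lc x' γ := by
      intro γ
      have := congrArg (fun v => lc v (g.symm γ)) h2
      simpa only [sa3_lc_comp, LinearEquiv.apply_symm_apply] using this
    have h4 : x = x' := by
      funext i
      have := h3 (Pi.single i 1)
      rwa [sa3_lc_single, sa3_lc_single] at this
    subst h4
    have h5 : y = y' := by
      have : y + lc x α = y' + lc x α := h1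
      exact add_right_cancel this
    rw [h5]
  let e : (V × (Fin D → V)) ≃ (V × (Fin D → V)) :=
    Equiv.ofBijective _ (Finite.injective_iff_bijective.1 hinj)
  have hW : ∀ z : V × (Fin D → V), Wt q D z = Wt q D (e z) := by
    intro z
    have : (∀ β : Fin D → ZMod 2, q (pt z.1 z.2 β) = 0) ↔
        ∀ β : Fin D → ZMod 2, q (pt (e z).1 (e z).2 β) = 0 := by
      have h1 : ∀ β, pt (e z).1 (e z).2 β = pt z.1 z.2 (α + g β) := fun β =>
        sa3_pt_comp z.1 z.2 g α β
      constructor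
      · intro h β
        rw [h1]
        exact h _
      · intro h γ
        have h2 := h (g.symm (γ - α))
        rw [h1, LinearEquiv.apply_symm_apply, add_sub_cancel] at h2
        exact h2
    unfold Wt
    by_cases hz : ∀ β : Fin D → ZMod 2, q (pt z.1 z.2 β) = 0
    · rw [if_pos hz, if_pos (this.1 hz)]
    · rw [if_neg hz, if_neg fun h => hz (this.2 h)]
  unfold ES
  refine Eq.trans ?_ (av_equiv e (fun z => Wt q D z * H z.1 z.2))
  congr 1
  funext z
  rw [hW z]
  rfl

theorem sa3_exists_li (k : ℕ) {n : ℕ} (hn : k + 2 ≤ n) (A B : Fin n → ZMod 2)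
    (h : LinearIndependent (ZMod 2) ![A, B]) :
    ∃ v : Fin (k + 2) → (Fin n → ZMod 2), LinearIndependent (ZMod 2) v ∧ v 0 = A ∧ v 1 = B := by
  induction k with
  | zero => exact ⟨![A, B], h, rfl, rfl⟩
  | succ k ih =>
    obtain ⟨v, hv, h0, h1⟩ := ih (by omega)
    have hlt : k + 2 < finrank (ZMod 2) (Fin n → ZMod 2) := by
      rw [Module.finrank_fin_fun]
      omega
    obtain ⟨w, hw⟩ := exists_linearIndependent_snoc_of_lt_finrank hv hlt
    refine ⟨Fin.snoc v w, hw, ?_, ?_⟩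
    · have : (0 : Fin (k + 1 + 2)) = Fin.castSucc (0 : Fin (k + 2)) := rfl
      rw [this, Fin.snoc_castSucc, h0]
    · have : (1 : Fin (k + 1 + 2)) = Fin.castSucc (1 : Fin (k + 2)) := by
        ext
        simp
      rw [this, Fin.snoc_castSucc, h1]

/-- independent vectors can be extended to a basis -/
theorem exists_equiv (k : ℕ) (A B : Fin (k + 2) → ZMod 2) (hA : A ≠ 0) (hB : B ≠ 0) (hAB : A ≠ B) :
    ∃ g : (Fin (k + 2) → ZMod 2) ≃ₗ[ZMod 2] (Fin (k + 2) → ZMod 2),
      g (Pi.single 0 1) = A ∧ g (Pi.single 1 1) = B := by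
  have hli : LinearIndependent (ZMod 2) ![A, B] := by
    rw [LinearIndependent.pair_iff]
    intro s t hst
    have h01 : ∀ a : ZMod 2, a = 0 ∨ a = 1 := by decide
    have hs : s = 0 ∨ s = 1 := h01 s
    have ht : t = 0 ∨ t = 1 := h01 t
    rcases hs with rfl | rfl <;> rcases ht with rfl | rfl
    · exact ⟨rfl, rfl⟩
    · rw [zero_smul, one_smul, zero_add] at hst
      exact absurd hst hB
    · rw [zero_smul, one_smul, add_zero] at hst
      exact absurd hst hA
    · rw [one_smul, one_smul] at hst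
      exfalso
      apply hAB
      funext i
      have h1 := congrFun hst i
      have key : ∀ a b : ZMod 2, a + b = 0 → a = b := by decide
      exact key _ _ h1
  obtain ⟨v, hv, h0, h1⟩ := sa3_exists_li k le_rfl A B hli
  let b : Basis (Fin (k + 2)) (ZMod 2) (Fin (k + 2) → ZMod 2) :=
    basisOfLinearIndependentOfCardEqFinrank hv (by simp)
  refine ⟨(Pi.basisFun (ZMod 2) (Fin (k + 2))).equiv b (Equiv.refl _), ?_, ?_⟩
  · rw [← Pi.basisFun_apply, Basis.equiv_apply]
    simp [b, h0]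
  · rw [← Pi.basisFun_apply, Basis.equiv_apply]
    simp [b, h1]

/-- so the law of `(τ α, X A, X B)` for independent `A, B` is that of `(y, x_0, x_1)` -/
theorem es_law (q : V → M) (k : ℕ) (α A B : Fin (k + 2) → ZMod 2) (hA : A ≠ 0) (hB : B ≠ 0)
    (hAB : A ≠ B) (G : V → V → V → ℝ) :
    ES q (k + 2) (fun y x => G (pt y x α) (lc x A) (lc x B)) =
      ES q (k + 2) (fun y x => G y (x 0) (x 1)) := by
  obtain ⟨g, h0, h1⟩ := exists_equiv k A B hA hB hAB
  have h := es_change q (k + 2) g α (fun y x => G y (x 0) (x 1))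
  dsimp only at h
  rw [h0, h1] at h
  exact h

end G2
end

section

/-!
# Job SA4: the averaged law of `(τ α, X A, X B)`
-/

set_option autoImplicit false

open Module

namespace G2

theorem sa4_arith (r D : ℕ) : (D + 4) ^ 3 * (r + 1) + (D + 1) ≤ pw 8 (r + D) := by
  unfold pw
  set t := r + D with ht
  have hD : D ≤ t := by omega
  have hr : r ≤ t := by omega
  have h1 : t + 4 ≤ (t + 2) ^ 2 := by nlinarith
  calc (D + 4) ^ 3 * (r + 1) + (D + 1) ≤ (t + 4) ^ 3 * (t + 1) + (t + 1) := by gcongr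
    _ ≤ ((t + 2) ^ 2) ^ 3 * (t + 2) + (t + 2) ^ 7 := by
        refine Nat.add_le_add (Nat.mul_le_mul (Nat.pow_le_pow_left h1 3) (by omega)) ?_
        calc t + 1 ≤ (t + 2) ^ 1 := by rw [pow_one]; omega
          _ ≤ (t + 2) ^ 7 := Nat.pow_le_pow_right (by omega) (by norm_num)
    _ = 2 * (t + 2) ^ 7 := by ring
    _ ≤ (t + 2) * (t + 2) ^ 7 := Nat.mul_le_mul_right _ (by omega)
    _ = (t + 2) ^ 8 := by ring

theorem sa4_er {M : Type} [AddCommGroup M] [Module (ZMod 2) M] [Finite M] {D R : ℕ}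
    (h : pw 8 (rk M + D) ≤ R) : er M ((D + 4) ^ 3) R ≤ (1 / 2 : ℝ) ^ (D + 1) :=
  er_le ((sa4_arith (rk M) D).trans h)

theorem sa4_pw_succ (C t : ℕ) : pw C (t + 1) ≤ pw (2 * C) t := by
  unfold pw
  rw [pow_mul]
  exact Nat.pow_le_pow_left (by nlinarith) C

/-- the total mass of the weight `w2`: `es_two` with `k = 0`... directly: for generic `x` the average
over `x'` of `ν(y+x') ν(y+x+x')` is `cor ν ν x = 1 + O(er)`; so the total mass is
`E_x (cor ν ν x)^2`, up to tiny errors `1`.  Choose `C` so large that all errors are `≤ 2^(-D)`. -/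
theorem w2_mass : ∃ C : ℕ, ∀ (D R : ℕ) (V M : Type) [AddCommGroup V] [Module (ZMod 2) V]
    [Finite V] [AddCommGroup M] [Module (ZMod 2) M] [Finite M] (q : V → M) (φ : Bil V M),
    IsQ q φ → HR φ R → pw C (rk M + D) ≤ R →
    |av (fun y => av fun x => av fun x' => w2 q y x x') - 1| ≤ (1 / 2 : ℝ) ^ D := by
  refine ⟨3, fun D R V M _ _ _ _ _ _ q φ hq hR hC => ?_⟩
  have e1 : av (fun y => av fun x => av fun x' => w2 q y x x') = su fun l => ft (nu q) l ^ 4 := by
    rw [← u2_eq]
    rw [av_comm (fun (y x : V) => av fun x' => w2 q y x x')]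
    congr 1
    funext x
    rw [av_comm (fun (y x' : V) => w2 q y x x')]
    rfl
  rw [e1]
  have hE : er M 1 R ≤ (1 / 2 : ℝ) ^ (D + rk M + 5) := by
    refine er_le (le_trans ?_ hC)
    unfold pw
    nlinarith [Nat.zero_le (rk M), Nat.zero_le D, sq_nonneg (rk M + D)]
  set e := er M 1 R with he
  have he0 : 0 ≤ e := er_nonneg 1 R
  have hNM : nc M = 2 ^ rk M := nc_finrank
  have hNM1 : 1 ≤ nc M := one_le_nc
  have hx : nc M * e ≤ (1 / 2 : ℝ) ^ (D + 5) := by
    calc nc M * e ≤ 2 ^ rk M * (1 / 2 : ℝ) ^ (D + rk M + 5) := by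
          rw [hNM]; exact mul_le_mul_of_nonneg_left hE (by positivity)
      _ = (1 / 2 : ℝ) ^ (D + 5) := by
          rw [show D + rk M + 5 = rk M + (D + 5) by ring, pow_add, ← mul_assoc, ← mul_pow]
          norm_num
  have he1 : e ≤ (1 / 2 : ℝ) ^ (D + 5) := by
    refine le_trans ?_ hx
    nlinarith
  have hp : (1 / 2 : ℝ) ^ (D + 5) = (1 / 2 : ℝ) ^ D / 32 := by
    rw [pow_add]; norm_num; ring
  have hD0 : 0 < (1 / 2 : ℝ) ^ D := by positivity
  have hD1 : (1 / 2 : ℝ) ^ D ≤ 1 := pow_le_one₀ (by norm_num) (by norm_num)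
  have he2 : e ≤ 1 := by rw [hp] at he1; linarith
  -- the zero coefficient
  have h0 : |ft (nu q) 0 - 1| ≤ e := by
    rw [ft_zero]
    exact av_nu hq hR
  have hav : av (nu q) ≤ 2 := by
    have := abs_le.1 (av_nu hq hR)
    linarith [this.2]
  -- Parseval
  have hP : su (fun l => ft (nu q) l * ft (nu q) l) ≤ 2 * nc M := by
    rw [parseval]
    have : (fun y => nu q y * nu q y) = fun y => nc M * nu q y := by
      funext y
      unfold nu
      have := ind_mul_self {y : V | q y = 0} y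
      calc nc M * ind {y | q y = 0} y * (nc M * ind {y | q y = 0} y)
          = nc M * (nc M * (ind {y | q y = 0} y * ind {y | q y = 0} y)) := by ring
        _ = _ := by rw [this]
    rw [this, av_mul_left]
    nlinarith
  -- split
  have hs : ∀ l : Du V, ft (nu q) l ^ 4 ≤ ft (nu q) 0 ^ 4 * ind {(0 : Du V)} l +
      e ^ 2 * (ft (nu q) l * ft (nu q) l) := by
    intro l
    by_cases hl : l = 0
    · subst hl
      rw [ind_pos (Set.mem_singleton _)]
      have : 0 ≤ e ^ 2 * (ft (nu q) 0 * ft (nu q) 0) := mul_nonneg (sq_nonneg _) (mul_self_nonneg _)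
      linarith
    · rw [ind_neg (by simpa using hl), mul_zero, zero_add]
      have h1 := ft_nu hq hR hl
      have h2 : ft (nu q) l ^ 2 ≤ e ^ 2 := sq_le_sq' (by linarith [(abs_le.1 h1).1]) (abs_le.1 h1).2
      calc ft (nu q) l ^ 4 = ft (nu q) l ^ 2 * (ft (nu q) l * ft (nu q) l) := by ring
        _ ≤ _ := mul_le_mul_of_nonneg_right h2 (mul_self_nonneg _)
  have hsing : su (fun l : Du V => ind {(0 : Du V)} l) = 1 := by
    classical
    have := Fintype.ofFinite (Du V)
    rw [su_eq]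
    rw [Finset.sum_eq_single (0 : Du V)]
    · exact ind_pos (Set.mem_singleton _)
    · intro b _ hb
      exact ind_neg (by simpa using hb)
    · intro h; exact absurd (Finset.mem_univ _) h
  have hU : su (fun l => ft (nu q) l ^ 4) ≤ ft (nu q) 0 ^ 4 + e ^ 2 * (2 * nc M) := by
    refine (su_le_su hs).trans ?_
    rw [su_add, su_mul_left, su_mul_left, hsing, mul_one]
    have := mul_le_mul_of_nonneg_left hP (sq_nonneg e)
    linarith
  have hL : ft (nu q) 0 ^ 4 ≤ su (fun l => ft (nu q) l ^ 4) := ft_pow_four_le _ 0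
  have ha := abs_le.1 h0
  set a := ft (nu q) 0 with hadef
  have ha0 : 0 ≤ a := by linarith [ha.1]
  have ha4 : a ^ 4 ≤ 1 + 15 * e := by
    have : a ≤ 1 + e := by linarith [ha.2]
    calc a ^ 4 ≤ (1 + e) ^ 4 := pow_le_pow_left₀ ha0 this 4
      _ ≤ 1 + 15 * e := by
        have g1 : 0 ≤ 1 - e := sub_nonneg.2 he2
        have g2 : 0 ≤ e * e := mul_nonneg he0 he0
        have g3 : 0 ≤ e * (1 - e) := mul_nonneg he0 g1
        have g4 : 0 ≤ e * e * (1 - e) := mul_nonneg g2 g1
        have g5 : 0 ≤ e * e * e * (1 - e) := mul_nonneg (mul_nonneg g2 he0) g1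
        nlinarith
  have ha4' : 1 - 4 * e ≤ a ^ 4 := by
    have h1 : 1 - e ≤ a := by linarith [ha.1]
    have h2 : (1 - e) ^ 4 ≤ a ^ 4 := pow_le_pow_left₀ (by linarith) h1 4
    have h3 : 1 - 4 * e ≤ (1 - e) ^ 4 := by
      nlinarith [mul_nonneg he0 he0, mul_nonneg (mul_nonneg he0 he0) (mul_nonneg he0 he0),
        mul_nonneg (mul_nonneg he0 he0) (sub_nonneg.2 he2)]
    linarith
  have hee : e ^ 2 * (2 * nc M) ≤ 2 * (1 / 2 : ℝ) ^ (D + 5) := by
    calc e ^ 2 * (2 * nc M) = 2 * (e * (nc M * e)) := by ring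
      _ ≤ 2 * (1 * (1 / 2 : ℝ) ^ (D + 5)) := by
          refine mul_le_mul_of_nonneg_left ?_ (by norm_num)
          exact mul_le_mul he2 hx (mul_nonneg (by linarith) he0) (by norm_num)
      _ = _ := by ring
  rw [abs_le]
  rw [hp] at he1 hee
  constructor <;> linarith

/-- total mass of `Wt` (from `es_two` with `G = 1` and `w2_mass`) -/
theorem es_mass : ∃ C : ℕ, ∀ (D R : ℕ) (V M : Type) [AddCommGroup V] [Module (ZMod 2) V]
    [Finite V] [AddCommGroup M] [Module (ZMod 2) M] [Finite M] (q : V → M) (φ : Bil V M),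
    IsQ q φ → HR φ R → 2 ≤ D → pw C (rk M + D) ≤ R →
    |ES q D (fun _ _ => 1) - 1| ≤ (1 / 2 : ℝ) ^ D := by
  obtain ⟨C0, h0⟩ := w2_mass
  refine ⟨2 * C0 + 8, fun D R V M _ _ _ _ _ _ q φ hq hR hD hC => ?_⟩
  obtain ⟨k, rfl⟩ := Nat.exists_eq_add_of_le' hD
  have h1 := es_two hq hR k (fun _ _ _ => 1) 1 (fun _ _ _ => by simp)
  have h2 := h0 (k + 2 + 1) R V M q φ hq hR
    (((sa4_pw_succ C0 _).trans (pw_mono_left (by omega) _)).trans hC)
  have h3 : er M ((k + 6) ^ 3) R ≤ (1 / 2 : ℝ) ^ (k + 2 + 1) :=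
    sa4_er (D := k + 2) ((pw_mono_left (by omega) _).trans hC)
  simp only [mul_one, one_mul] at h1
  have h4 : (1 / 2 : ℝ) ^ (k + 2 + 1) = (1 / 2 : ℝ) ^ (k + 2) / 2 := by
    rw [pow_succ]; ring
  rw [h4] at h2 h3
  rw [abs_le] at h1 h2 ⊢
  constructor <;> linarith [h1.1, h1.2, h2.1, h2.2]

theorem sa4_ES_av {V M : Type} [AddCommGroup V] [Module (ZMod 2) V] [Finite V]
    [AddCommGroup M] [Module (ZMod 2) M] [Finite M] (q : V → M) (D : ℕ) {α : Type} [Finite α]
    (H : α → V → (Fin D → V) → ℝ) :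
    ES q D (fun y x => av fun a => H a y x) = av fun a => ES q D (H a) := by
  unfold ES
  rw [← av_comm]
  congr 1
  funext z
  rw [av_mul_left]

theorem sa4_ES_abs {V M : Type} [AddCommGroup V] [Module (ZMod 2) V] [Finite V]
    [AddCommGroup M] [Module (ZMod 2) M] [Finite M] (q : V → M) (D : ℕ)
    (H : V → (Fin D → V) → ℝ) (B : ℝ) (hH : ∀ y x, |H y x| ≤ B) :
    |ES q D H| ≤ B * ES q D (fun _ _ => 1) := by
  unfold ES
  rw [← av_mul_left]
  refine (abs_av_le _).trans (av_le_av fun z => ?_)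
  rw [abs_mul, abs_of_nonneg (Wt_nonneg q D z), mul_one, mul_comm B]
  exact mul_le_mul_of_nonneg_left (hH _ _) (Wt_nonneg q D z)

theorem sa4_w2_nonneg {V M : Type} [AddCommGroup V] [Module (ZMod 2) V] [Finite V]
    [AddCommGroup M] [Module (ZMod 2) M] [Finite M] (q : V → M) (y x x' : V) :
    0 ≤ w2 q y x x' :=
  mul_nonneg (mul_nonneg (nu_nonneg q _) (nu_nonneg q _))
    (mul_nonneg (nu_nonneg q _) (nu_nonneg q _))

theorem sa4_w2_abs {V M : Type} [AddCommGroup V] [Module (ZMod 2) V] [Finite V]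
    [AddCommGroup M] [Module (ZMod 2) M] [Finite M] (q : V → M)
    (G : V → V → V → ℝ) (B : ℝ) (hG : ∀ y x x', |G y x x'| ≤ B) :
    |av (fun y => av fun x => av fun x' => w2 q y x x' * G y x x')| ≤
      B * av (fun y => av fun x => av fun x' => w2 q y x x') := by
  rw [← av_mul_left]
  refine (abs_av_le _).trans (av_le_av fun y => ?_)
  rw [← av_mul_left]
  refine (abs_av_le _).trans (av_le_av fun x => ?_)
  rw [← av_mul_left]
  refine (abs_av_le _).trans (av_le_av fun x' => ?_)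
  rw [abs_mul, abs_of_nonneg (sa4_w2_nonneg q y x x'), mul_comm B]
  exact mul_le_mul_of_nonneg_left (hG _ _ _) (sa4_w2_nonneg q y x x')

theorem sa4_single (D : ℕ) (a : Fin D → ZMod 2) :
    av (fun A : Fin D → ZMod 2 => ind {A' : Fin D → ZMod 2 | A' = a} A) = (1 / 2 : ℝ) ^ D := by
  have h := dn_eq_card {A' : Fin D → ZMod 2 | A' = a}
  rw [dn] at h
  have h1 : Nat.card {A' : Fin D → ZMod 2 | A' = a} = 1 := by
    have : {A' : Fin D → ZMod 2 | A' = a} = {a} := by
      ext; simp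
    rw [this]
    simp
  rw [h, h1, Nat.card_fun]
  simp

/-- The averaged law.  For independent `A, B` the expectation of `G (τ α, X A, X B)` is the `w2`
average up to `B · er` (`es_law`, `es_two`), and `er ≤ 2^(-D)` for a suitable `C`.  The proportion of
dependent pairs (`A = 0`, `B = 0` or `A = B`) is at most `3 · 2^(-D)`, and for them both terms are at
most `2 B` in absolute value (`es_mass`, `w2_mass`). -/
theorem es_avg : ∃ C : ℕ, ∀ (D R : ℕ) (V M : Type) [AddCommGroup V] [Module (ZMod 2) V]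
    [Finite V] [AddCommGroup M] [Module (ZMod 2) M] [Finite M] (q : V → M) (φ : Bil V M)
    (G : V → V → V → ℝ) (B : ℝ), IsQ q φ → HR φ R → 2 ≤ D → pw C (rk M + D) ≤ R →
    (∀ y x x', |G y x x'| ≤ B) →
    |ES q D (fun y x => av fun α => av fun A' => av fun B' => G (pt y x α) (lc x A') (lc x B')) -
      av (fun y => av fun x => av fun x' => w2 q y x x' * G y x x')| ≤ 16 * B * (1 / 2) ^ D := by
  obtain ⟨C1, h1⟩ := w2_mass
  obtain ⟨C2, h2⟩ := es_mass
  refine ⟨C1 + C2 + 8, fun D R V M _ _ _ _ _ _ q φ G B hq hR hD hC hG => ?_⟩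
  have hw := h1 D R V M q φ hq hR ((pw_mono_left (by omega) _).trans hC)
  have hm := h2 D R V M q φ hq hR hD ((pw_mono_left (by omega) _).trans hC)
  have he : er M ((D + 4) ^ 3) R ≤ (1 / 2 : ℝ) ^ D := by
    refine (sa4_er (D := D) ((pw_mono_left (by omega) _).trans hC)).trans ?_
    exact pow_le_pow_of_le_one (by norm_num) (by norm_num) (by omega)
  obtain ⟨k, rfl⟩ := Nat.exists_eq_add_of_le' hD
  have hB : 0 ≤ B := (abs_nonneg _).trans (hG 0 0 0)
  have hp0 : 0 < (1 / 2 : ℝ) ^ (k + 2) := by positivity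
  have hp1 : (1 / 2 : ℝ) ^ (k + 2) ≤ 1 := pow_le_one₀ (by norm_num) (by norm_num)
  set p := (1 / 2 : ℝ) ^ (k + 2) with hp
  set I := av (fun y => av fun x => av fun x' => w2 q y x x' * G y x x') with hI
  have hI' : |I| ≤ 2 * B := by
    have := sa4_w2_abs q G B hG
    refine this.trans ?_
    have := (abs_le.1 hw).2
    nlinarith
  have hES : ∀ H : V → (Fin (k + 2) → V) → ℝ, (∀ y x, |H y x| ≤ B) → |ES q (k + 2) H| ≤ 2 * B := by
    intro H hH
    refine (sa4_ES_abs q (k + 2) H B hH).trans ?_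
    have := (abs_le.1 hm).2
    nlinarith
  have hone : ∀ α A' B' : Fin (k + 2) → ZMod 2,
      |ES q (k + 2) (fun y x => G (pt y x α) (lc x A') (lc x B')) - I| ≤
        B * p + 4 * B * (ind {A : Fin (k + 2) → ZMod 2 | A = 0} A' +
          ind {A : Fin (k + 2) → ZMod 2 | A = 0} B' +
          ind {A : Fin (k + 2) → ZMod 2 | A = A'} B') := by
    intro α A' B'
    have hn1 := ind_nonneg {A : Fin (k + 2) → ZMod 2 | A = 0} A'
    have hn2 := ind_nonneg {A : Fin (k + 2) → ZMod 2 | A = 0} B'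
    have hn3 := ind_nonneg {A : Fin (k + 2) → ZMod 2 | A = A'} B'
    have hbad : |ES q (k + 2) (fun y x => G (pt y x α) (lc x A') (lc x B')) - I| ≤ 4 * B := by
      refine (abs_sub _ _).trans ?_
      have := hES (fun y x => G (pt y x α) (lc x A') (lc x B')) (fun y x => hG _ _ _)
      linarith
    by_cases hA : A' = 0
    · have : ind {A : Fin (k + 2) → ZMod 2 | A = 0} A' = 1 := ind_pos hA
      rw [this]
      nlinarith [mul_nonneg hB hn2, mul_nonneg hB hn3, mul_nonneg hB hp0.le]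
    by_cases hB' : B' = 0
    · have : ind {A : Fin (k + 2) → ZMod 2 | A = 0} B' = 1 := ind_pos hB'
      rw [this]
      nlinarith [mul_nonneg hB hn1, mul_nonneg hB hn3, mul_nonneg hB hp0.le]
    by_cases hAB : B' = A'
    · have : ind {A : Fin (k + 2) → ZMod 2 | A = A'} B' = 1 := ind_pos hAB
      rw [this]
      nlinarith [mul_nonneg hB hn1, mul_nonneg hB hn2, mul_nonneg hB hp0.le]
    rw [es_law q k α A' B' hA hB' (fun h => hAB h.symm) G]
    have h3 := es_two hq hR k G B hG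
    have h4 : er M ((k + 6) ^ 3) R ≤ p := he
    have h5 := mul_le_mul_of_nonneg_left h4 hB
    nlinarith [mul_nonneg hB hn1, mul_nonneg hB hn2, mul_nonneg hB hn3]
  have e1 : ES q (k + 2) (fun y x => av fun α => av fun A' => av fun B' =>
      G (pt y x α) (lc x A') (lc x B')) = av fun α : Fin (k + 2) → ZMod 2 =>
        av fun A' : Fin (k + 2) → ZMod 2 => av fun B' : Fin (k + 2) → ZMod 2 =>
          ES q (k + 2) (fun y x => G (pt y x α) (lc x A') (lc x B')) := by
    rw [sa4_ES_av q (k + 2) (fun (α : Fin (k + 2) → ZMod 2) y x =>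
      av fun A' : Fin (k + 2) → ZMod 2 => av fun B' : Fin (k + 2) → ZMod 2 =>
        G (pt y x α) (lc x A') (lc x B'))]
    congr 1
    funext α
    rw [sa4_ES_av q (k + 2) (fun (A' : Fin (k + 2) → ZMod 2) y x =>
      av fun B' : Fin (k + 2) → ZMod 2 => G (pt y x α) (lc x A') (lc x B'))]
    congr 1
    funext A'
    rw [sa4_ES_av q (k + 2) (fun (B' : Fin (k + 2) → ZMod 2) y x =>
      G (pt y x α) (lc x A') (lc x B'))]
  have e2 : I = av fun _α : Fin (k + 2) → ZMod 2 => av fun _A' : Fin (k + 2) → ZMod 2 =>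
      av fun _B' : Fin (k + 2) → ZMod 2 => I := by
    rw [av_const, av_const, av_const]
  rw [e1, e2, ← av_sub]
  refine (abs_av_le _).trans (av_le_const fun α => ?_)
  rw [← av_sub]
  have hb : (av fun A' : Fin (k + 2) → ZMod 2 => av fun B' : Fin (k + 2) → ZMod 2 =>
      (B * p + 4 * B * (ind {A : Fin (k + 2) → ZMod 2 | A = 0} A' +
          ind {A : Fin (k + 2) → ZMod 2 | A = 0} B' +
          ind {A : Fin (k + 2) → ZMod 2 | A = A'} B'))) = B * p + 4 * B * (p + p + p) := by
    have : ∀ A' : Fin (k + 2) → ZMod 2, (av fun B' : Fin (k + 2) → ZMod 2 =>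
      (B * p + 4 * B * (ind {A : Fin (k + 2) → ZMod 2 | A = 0} A' +
          ind {A : Fin (k + 2) → ZMod 2 | A = 0} B' +
          ind {A : Fin (k + 2) → ZMod 2 | A = A'} B'))) =
          B * p + 4 * B * (ind {A : Fin (k + 2) → ZMod 2 | A = 0} A' + p + p) := by
      intro A'
      rw [av_add, av_const, av_mul_left, av_add, av_add, av_const, sa4_single, sa4_single]
    simp only [this]
    rw [av_add, av_const, av_mul_left, av_add, av_add, av_const, sa4_single, ← hp]
  refine ((abs_av_le _).trans (av_le_av fun A' => ?_)).trans (hb.le.trans ?_)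
  · rw [← av_sub]
    exact (abs_av_le _).trans (av_le_av fun B' => hone α A' B')
  · nlinarith [mul_nonneg hB hp0.le]

end G2
end

section

/-!
# Job SA5: marginals of the law `w2` and of the sampling
-/

set_option autoImplicit false

open Module

namespace G2

section
variable {V M : Type} [AddCommGroup V] [Module (ZMod 2) V] [Finite V]
  [AddCommGroup M] [Module (ZMod 2) M] [Finite M]

theorem sa5_abs_av_le {α : Type} [Finite α] {f g : α → ℝ} (h : ∀ x, |f x| ≤ g x) :
    |av f| ≤ av g :=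
  (abs_av_le f).trans (av_le_av h)

theorem sa5_nc_div (M : Type) [AddCommGroup M] [Module (ZMod 2) M] [Finite M] (s R : ℕ) :
    nc M ^ s / 4 ^ R ≤ er M s R := by
  have h1 : (1 : ℝ) ≤ nc M := one_le_nc
  have h2 : nc M ^ s ≤ (2 * nc M) ^ s := pow_le_pow_left₀ (by linarith) (by linarith) s
  have h3 : (2 : ℝ) ^ R ≤ 4 ^ R := pow_le_pow_left₀ (by norm_num) (by norm_num) R
  rw [er]
  exact div_le_div₀ (by positivity) h2 (by positivity) h3

theorem sa5_cor {q : V → M} {φ : Bil V M} (hq : IsQ q φ) {R : ℕ} (hR : HR φ R) (x : V) :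
    |cor (nu q) (nu q) x - 1| ≤ er M 2 R + nc M ^ 2 * ind {x | ¬ Gen φ ![x]} x := by
  have h1 : (1 : ℝ) ≤ nc M := one_le_nc
  have h2 : (1 : ℝ) ≤ nc M ^ 2 := one_le_pow₀ h1
  by_cases h : Gen φ ![x]
  · rw [ind_neg (A := {x | ¬ Gen φ ![x]}) (by simpa using h)]
    have := cor_nu hq hR h
    simpa using this
  · rw [ind_pos (A := {x | ¬ Gen φ ![x]}) h]
    have h3 := cor_nu_nonneg q x
    have h4 := cor_nu_le q x
    have h5 := er_nonneg (M := M) 2 R
    rw [abs_le]
    constructor <;> linarith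

theorem sa5_cor_av {q : V → M} {φ : Bil V M} (hq : IsQ q φ) {R : ℕ} (hR : HR φ R) :
    (av fun x => |cor (nu q) (nu q) x - 1|) ≤ er M 4 R := by
  have h1 : (1 : ℝ) ≤ nc M := one_le_nc
  have h2 : (av fun x => |cor (nu q) (nu q) x - 1|) ≤
      av fun x => er M 2 R + nc M ^ 2 * ind {x | ¬ Gen φ ![x]} x := av_le_av fun x => sa5_cor hq hR x
  rw [av_add, av_const, av_mul_left] at h2
  have h3 := av_not_gen_one φ hR
  have h4 : nc M ^ 2 * (av fun x : V => ind {x | ¬ Gen φ ![x]} x) ≤ nc M ^ 2 * (nc M / 4 ^ R) :=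
    mul_le_mul_of_nonneg_left h3 (by positivity)
  have h5 : nc M ^ 2 * (nc M / 4 ^ R) = nc M ^ 3 / 4 ^ R := by ring
  have h6 := sa5_nc_div M 3 R
  have h7 := er_mono (M := M) (show 2 ≤ 3 by norm_num) R
  have h8 := two_mul_er (M := M) 1 3 R
  norm_num at h8
  linarith

theorem sa5_pk {q : V → M} {φ : Bil V M} (hq : IsQ q φ) {R : ℕ} (hR : HR φ R) (x w : V) :
    |PK (nu q) x w - nc M * ind {x | φ x w = 0} x| ≤
      er M 4 R + nc M ^ 4 * ind {p : V × V | ¬ Gen φ ![p.1, p.2]} (x, w) := by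
  have h1 : (1 : ℝ) ≤ nc M := one_le_nc
  have h2 : nc M ≤ nc M ^ 4 := le_self_pow₀ h1 (by norm_num)
  by_cases h : Gen φ ![x, w]
  · rw [ind_neg (A := {p : V × V | ¬ Gen φ ![p.1, p.2]}) (by simpa using h)]
    have := PK_nu hq hR h
    simpa using this
  · rw [ind_pos (A := {p : V × V | ¬ Gen φ ![p.1, p.2]}) h]
    have h3 := PK_nu_nonneg q x w
    have h4 := PK_nu_le q x w
    have h5 := er_nonneg (M := M) 4 R
    have h6 := ind_nonneg {x | φ x w = 0} x
    have h7 := ind_le_one {x | φ x w = 0} x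
    have h8 : nc M * ind {x | φ x w = 0} x ≤ nc M * 1 :=
      mul_le_mul_of_nonneg_left h7 (by linarith)
    have h9 : 0 ≤ nc M * ind {x | φ x w = 0} x := mul_nonneg (by linarith) h6
    rw [abs_le]
    constructor <;> linarith

theorem sa5_pk_av {q : V → M} {φ : Bil V M} (hq : IsQ q φ) {R : ℕ} (hR : HR φ R) :
    (av fun x => av fun w => |PK (nu q) x w - nc M * ind {x | φ x w = 0} x|) ≤ er M 7 R := by
  have h1 : (1 : ℝ) ≤ nc M := one_le_nc
  have h2 : (av fun x => av fun w => |PK (nu q) x w - nc M * ind {x | φ x w = 0} x|) ≤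
      av fun x => av fun w =>
        (er M 4 R + nc M ^ 4 * ind {p : V × V | ¬ Gen φ ![p.1, p.2]} (x, w)) :=
    av_le_av fun x => av_le_av fun w => sa5_pk hq hR x w
  simp only [av_add, av_const, av_mul_left] at h2
  have h3 := av_not_gen_two φ hR
  have h4 : nc M ^ 4 * (av fun x : V => av fun y : V =>
      ind {p : V × V | ¬ Gen φ ![p.1, p.2]} (x, y)) ≤ nc M ^ 4 * (nc M ^ 2 / 4 ^ R) :=
    mul_le_mul_of_nonneg_left h3 (by positivity)
  have h5 : nc M ^ 4 * (nc M ^ 2 / 4 ^ R) = nc M ^ 6 / 4 ^ R := by ring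
  have h6 := sa5_nc_div M 6 R
  have h7 := er_mono (M := M) (show 4 ≤ 6 by norm_num) R
  have h8 := two_mul_er (M := M) 1 6 R
  norm_num at h8
  linarith

theorem sa5_pw {r D R s : ℕ} (h : pw 4 (r + D) ≤ R) (hs : s ≤ 7) : s * (r + 1) + D ≤ R := by
  have h1 : pw 4 (r + D) = (r + D + 2) ^ 3 * (r + D + 2) := by
    rw [pw]
    ring
  have h2 : 2 ^ 3 ≤ (r + D + 2) ^ 3 := Nat.pow_le_pow_left (by omega) 3
  have h3 : 2 ^ 3 * (r + D + 2) ≤ (r + D + 2) ^ 3 * (r + D + 2) := Nat.mul_le_mul_right _ h2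
  have h4 : s * (r + 1) ≤ 7 * (r + 1) := Nat.mul_le_mul_right _ hs
  omega

theorem sa5_B_nonneg {G : V → ℝ} {B : ℝ} (h : ∀ y, |G y| ≤ B) : 0 ≤ B :=
  (abs_nonneg _).trans (h 0)

theorem sa5_cor_shift (q : V → M) (y x : V) :
    (av fun x' => nu q (y + x') * nu q (y + x + x')) = cor (nu q) (nu q) x := by
  rw [cor, ← av_shift_left (fun z => nu q z * nu q (z + x)) y]
  congr 1
  funext x'
  rw [add_right_comm]

end

/-- The marginal of `w2` on `(y, x)` is `ν(y) ν(y+x)` up to tiny errors, because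
`E_{x'} ν(y+x') ν(y+x+x') = cor ν ν x`; `cor_nu` for generic `x`, `cor_nu_le` and
`av_not_gen_one` otherwise. -/
theorem w2_two : ∃ C : ℕ, ∀ (D R : ℕ) (V M : Type) [AddCommGroup V] [Module (ZMod 2) V]
    [Finite V] [AddCommGroup M] [Module (ZMod 2) M] [Finite M] (q : V → M) (φ : Bil V M)
    (G : V → V → ℝ) (B : ℝ), IsQ q φ → HR φ R → pw C (rk M + D) ≤ R → (∀ y x, |G y x| ≤ B) →
    |av (fun y => av fun x => av fun x' => w2 q y x x' * G y x) -
      av (fun y => av fun x => nu q y * nu q (y + x) * G y x)| ≤ B * (1 / 2) ^ D := by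
  refine ⟨4, ?_⟩
  intro D R V M _ _ _ _ _ _ q φ G B hq hR hC hG
  have hB : 0 ≤ B := (abs_nonneg _).trans (hG 0 0)
  have h1 : (1 : ℝ) ≤ nc M := one_le_nc
  have e1 : ∀ y x, (av fun x' => w2 q y x x' * G y x) =
      nu q y * nu q (y + x) * G y x * cor (nu q) (nu q) x := by
    intro y x
    rw [← sa5_cor_shift q y x, ← av_mul_left]
    congr 1
    funext x'
    rw [w2]
    ring
  simp only [e1]
  rw [← av_sub]
  simp only [← av_sub]
  have h2 : |av fun y => av fun x => (nu q y * nu q (y + x) * G y x * cor (nu q) (nu q) x -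
      nu q y * nu q (y + x) * G y x)| ≤
      av fun _ : V => av fun x => (nc M ^ 2 * B) * |cor (nu q) (nu q) x - 1| := by
    refine sa5_abs_av_le fun y => sa5_abs_av_le fun x => ?_
    have h3 : nu q y * nu q (y + x) * G y x * cor (nu q) (nu q) x -
        nu q y * nu q (y + x) * G y x =
        (nu q y * nu q (y + x) * G y x) * (cor (nu q) (nu q) x - 1) := by ring
    rw [h3, abs_mul]
    refine mul_le_mul_of_nonneg_right ?_ (abs_nonneg _)
    rw [abs_mul, abs_mul, abs_of_nonneg (nu_nonneg q y), abs_of_nonneg (nu_nonneg q (y + x))]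
    have h4 : nu q y * nu q (y + x) ≤ nc M ^ 2 := by
      rw [sq]
      exact mul_le_mul (nu_le q y) (nu_le q _) (nu_nonneg q _) (by linarith)
    exact mul_le_mul h4 (hG y x) (abs_nonneg _) (by positivity)
  rw [av_const, av_mul_left] at h2
  have h5 := sa5_cor_av hq hR
  have h6 : nc M ^ 2 * B * (av fun x => |cor (nu q) (nu q) x - 1|) ≤
      nc M ^ 2 * B * er M 4 R := mul_le_mul_of_nonneg_left h5 (by positivity)
  have h7 : nc M ^ 2 * B * er M 4 R = B * (nc M ^ 2 * er M 4 R) := by ring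
  have h8 : nc M ^ 2 * er M 4 R ≤ (1 / 2 : ℝ) ^ D :=
    (nc_mul_er 2 4 R).trans (er_le (sa5_pw hC (by norm_num)))
  have h9 : B * (nc M ^ 2 * er M 4 R) ≤ B * (1 / 2 : ℝ) ^ D := mul_le_mul_of_nonneg_left h8 hB
  linarith

/-- law of `(τ α, X A)` (from `es_avg` and `w2_two`) -/
theorem es_two_avg : ∃ C : ℕ, ∀ (D R : ℕ) (V M : Type) [AddCommGroup V] [Module (ZMod 2) V]
    [Finite V] [AddCommGroup M] [Module (ZMod 2) M] [Finite M] (q : V → M) (φ : Bil V M)
    (G : V → V → ℝ) (B : ℝ), IsQ q φ → HR φ R → 2 ≤ D → pw C (rk M + D) ≤ R →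
    (∀ y x, |G y x| ≤ B) →
    |ES q D (fun y x => av fun α => av fun A' => G (pt y x α) (lc x A')) -
      av (fun y => av fun x => nu q y * nu q (y + x) * G y x)| ≤ 17 * B * (1 / 2) ^ D := by
  obtain ⟨C1, h1⟩ := w2_two
  obtain ⟨C2, h2⟩ := es_avg
  refine ⟨C1 + C2, ?_⟩
  intro D R V M _ _ _ _ _ _ q φ G B hq hR hD hC hG
  have a1 := h1 D R V M q φ G B hq hR ((pw_mono_left (by omega) _).trans hC) hG
  have a2 := h2 D R V M q φ (fun y x _ => G y x) B hq hR hD
    ((pw_mono_left (by omega) _).trans hC) (fun y x _ => hG y x)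
  simp only [av_const] at a2
  rw [abs_le] at *
  constructor
  · linarith [a1.1, a2.1]
  · linarith [a1.2, a2.2]

/-- law of `τ α`: `E_{y,x} ν(y) ν(y+x) G(y) = E ν · E ν G` -/
theorem es_pt_avg : ∃ C : ℕ, ∀ (D R : ℕ) (V M : Type) [AddCommGroup V] [Module (ZMod 2) V]
    [Finite V] [AddCommGroup M] [Module (ZMod 2) M] [Finite M] (q : V → M) (φ : Bil V M)
    (G : V → ℝ) (B : ℝ), IsQ q φ → HR φ R → 2 ≤ D → pw C (rk M + D) ≤ R → (∀ y, |G y| ≤ B) →
    |ES q D (fun y x => av fun α => G (pt y x α)) - av (fun y => nu q y * G y)| ≤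
      18 * B * (1 / 2) ^ D := by
  obtain ⟨C1, h1⟩ := es_two_avg
  refine ⟨C1 + 4, ?_⟩
  intro D R V M _ _ _ _ _ _ q φ G B hq hR hD hC hG
  have hB : 0 ≤ B := (abs_nonneg _).trans (hG 0)
  have hn : (1 : ℝ) ≤ nc M := one_le_nc
  have a1 := h1 D R V M q φ (fun y _ => G y) B hq hR hD
    ((pw_mono_left (by omega) _).trans hC) (fun y _ => hG y)
  have e1 : ∀ y, (av fun x => nu q y * nu q (y + x) * G y) = nu q y * G y * av (nu q) := by
    intro y
    rw [← av_shift_left (nu q) y, ← av_mul_left]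
    congr 1
    funext x
    ring
  simp only [av_const, e1, av_mul_right] at a1
  have a2 := av_nu hq hR
  have a3 : |av fun y => nu q y * G y| ≤ nc M * B := by
    refine (sa5_abs_av_le (g := fun _ => nc M * B) fun y => ?_).trans (by rw [av_const])
    rw [abs_mul, abs_of_nonneg (nu_nonneg q y)]
    exact mul_le_mul (nu_le q y) (hG y) (abs_nonneg _) (by linarith)
  have a4 : |(av fun y => nu q y * G y) * av (nu q) - av fun y => nu q y * G y| ≤
      B * (1 / 2 : ℝ) ^ D := by
    have h3 : (av fun y => nu q y * G y) * av (nu q) - (av fun y => nu q y * G y) =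
        (av fun y => nu q y * G y) * (av (nu q) - 1) := by ring
    rw [h3, abs_mul]
    have h4 : |av fun y => nu q y * G y| * |av (nu q) - 1| ≤ (nc M * B) * er M 1 R :=
      mul_le_mul a3 a2 (abs_nonneg _) (mul_nonneg (by linarith) hB)
    have h5 : (nc M * B) * er M 1 R = B * (nc M ^ 1 * er M 1 R) := by ring
    have h6 : nc M ^ 1 * er M 1 R ≤ (1 / 2 : ℝ) ^ D :=
      (nc_mul_er 1 1 R).trans (er_le (sa5_pw ((pw_mono_left (by omega) _).trans hC) (by norm_num)))
    have h7 : B * (nc M ^ 1 * er M 1 R) ≤ B * (1 / 2 : ℝ) ^ D := mul_le_mul_of_nonneg_left h6 hB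
    linarith
  rw [abs_le] at *
  constructor
  · linarith [a1.1, a4.1]
  · linarith [a1.2, a4.2]

/-- law of `X A`: `E_{y,x} ν(y) ν(y+x) G(x) = E_x (cor ν ν x) G(x)` -/
theorem es_lc_avg : ∃ C : ℕ, ∀ (D R : ℕ) (V M : Type) [AddCommGroup V] [Module (ZMod 2) V]
    [Finite V] [AddCommGroup M] [Module (ZMod 2) M] [Finite M] (q : V → M) (φ : Bil V M)
    (G : V → ℝ) (B : ℝ), IsQ q φ → HR φ R → 2 ≤ D → pw C (rk M + D) ≤ R → (∀ y, |G y| ≤ B) →
    |ES q D (fun _ x => av fun A' => G (lc x A')) - av G| ≤ 18 * B * (1 / 2) ^ D := by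
  obtain ⟨C1, h1⟩ := es_two_avg
  refine ⟨C1 + 4, ?_⟩
  intro D R V M _ _ _ _ _ _ q φ G B hq hR hD hC hG
  have hB : 0 ≤ B := (abs_nonneg _).trans (hG 0)
  have a1 := h1 D R V M q φ (fun _ x => G x) B hq hR hD
    ((pw_mono_left (by omega) _).trans hC) (fun _ x => hG x)
  rw [av_comm] at a1
  have e1 : ∀ x, (av fun y => nu q y * nu q (y + x) * G x) = cor (nu q) (nu q) x * G x := by
    intro x
    rw [av_mul_right, cor]
  simp only [av_const, e1] at a1
  have a4 : |(av fun x => cor (nu q) (nu q) x * G x) - av G| ≤ B * (1 / 2 : ℝ) ^ D := by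
    rw [← av_sub]
    have h3 : |av fun x => (cor (nu q) (nu q) x * G x - G x)| ≤
        av fun x => |cor (nu q) (nu q) x - 1| * B := by
      refine sa5_abs_av_le fun x => ?_
      have h4 : cor (nu q) (nu q) x * G x - G x = (cor (nu q) (nu q) x - 1) * G x := by ring
      rw [h4, abs_mul]
      exact mul_le_mul_of_nonneg_left (hG x) (abs_nonneg _)
    rw [av_mul_right] at h3
    have h5 := sa5_cor_av hq hR
    have h6 : er M 4 R ≤ (1 / 2 : ℝ) ^ D :=
      er_le (sa5_pw ((pw_mono_left (by omega) _).trans hC) (by norm_num))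
    have h7 : (av fun x => |cor (nu q) (nu q) x - 1|) * B ≤ (1 / 2 : ℝ) ^ D * B :=
      mul_le_mul_of_nonneg_right (h5.trans h6) hB
    linarith
  rw [abs_le] at *
  constructor
  · linarith [a1.1, a4.1]
  · linarith [a1.2, a4.2]

/-- law of `(X A, X B)`: `E_y w2 q y x x' = PK ν x x'`, which is `|M| 1[φ(x,x') = 0]` up to tiny
errors for generic pairs (`PK_nu`), the others are handled by `PK_nu_le`, `av_not_gen_two`. -/
theorem es_pair_avg : ∃ C : ℕ, ∀ (D R : ℕ) (V M : Type) [AddCommGroup V] [Module (ZMod 2) V]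
    [Finite V] [AddCommGroup M] [Module (ZMod 2) M] [Finite M] (q : V → M) (φ : Bil V M)
    (G : V → V → ℝ) (B : ℝ), IsQ q φ → HR φ R → 2 ≤ D → pw C (rk M + D) ≤ R →
    (∀ x x', |G x x'| ≤ B) →
    |ES q D (fun _ x => av fun A' => av fun B' => G (lc x A') (lc x B')) -
      av (fun x => av fun x' => nc M * ind {x | φ x x' = 0} x * G x x')| ≤
      18 * B * (1 / 2) ^ D := by
  obtain ⟨C1, h1⟩ := es_avg
  refine ⟨C1 + 4, ?_⟩
  intro D R V M _ _ _ _ _ _ q φ G B hq hR hD hC hG
  have hB : 0 ≤ B := (abs_nonneg _).trans (hG 0 0)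
  have a1 := h1 D R V M q φ (fun _ x x' => G x x') B hq hR hD
    ((pw_mono_left (by omega) _).trans hC) (fun _ x x' => hG x x')
  have e0 : (av fun y => av fun x => av fun x' => w2 q y x x' * G x x') =
      av fun x => av fun x' => PK (nu q) x x' * G x x' := by
    rw [av_comm]
    congr 1
    funext x
    rw [av_comm]
    congr 1
    funext x'
    rw [av_mul_right]
    rfl
  simp only [av_const, e0] at a1
  have a4 : |(av fun x => av fun x' => PK (nu q) x x' * G x x') -
      av fun x => av fun x' => nc M * ind {x | φ x x' = 0} x * G x x'| ≤ B * (1 / 2 : ℝ) ^ D := by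
    rw [← av_sub]
    simp only [← av_sub]
    have h3 : |av fun x => av fun x' => (PK (nu q) x x' * G x x' -
        nc M * ind {x | φ x x' = 0} x * G x x')| ≤
        av fun x => av fun x' => |PK (nu q) x x' - nc M * ind {x | φ x x' = 0} x| * B := by
      refine sa5_abs_av_le fun x => sa5_abs_av_le fun x' => ?_
      have h4 : PK (nu q) x x' * G x x' - nc M * ind {x | φ x x' = 0} x * G x x' =
          (PK (nu q) x x' - nc M * ind {x | φ x x' = 0} x) * G x x' := by ring
      rw [h4, abs_mul]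
      exact mul_le_mul_of_nonneg_left (hG x x') (abs_nonneg _)
    simp only [av_mul_right] at h3
    have h5 := sa5_pk_av hq hR
    have h6 : er M 7 R ≤ (1 / 2 : ℝ) ^ D :=
      er_le (sa5_pw ((pw_mono_left (by omega) _).trans hC) (by norm_num))
    have h7 : (av fun x => av fun x' => |PK (nu q) x x' - nc M * ind {x | φ x x' = 0} x|) * B ≤
        (1 / 2 : ℝ) ^ D * B :=
      mul_le_mul_of_nonneg_right (h5.trans h6) hB
    linarith
  have hBD : 0 ≤ B * (1 / 2 : ℝ) ^ D := by positivity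
  rw [abs_le] at *
  constructor
  · linarith [a1.1, a4.1]
  · linarith [a1.2, a4.2]

end G2
end
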