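import Pool.Agent.Lib.MP_f4f4db_co.G2.RK1
import Pool.Agent.Lib.MP_f4f4db_co.G2.SA5
import Pool.Agent.Lib.MP_f4f4db_co.G2.Akm

section

/-!
# Job RK6: relations between functionals on the sample
-/

set_option autoImplicit false

open Module

namespace G2

/-- the average of the sign of a functional on the sampled space -/
theorem rk6_av {V : Type} [AddCommGroup V] [Module (ZMod 2) V] {D : ℕ} (μ : Du V)
    (x : Fin D → V) :
    (av fun A : Fin D → ZMod 2 => sg (μ (lc x A))) =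
      ind {x : Fin D → V | ∀ A, μ (lc x A) = 0} x := by
  have hlin : ∀ A : Fin D → ZMod 2,
      (μ ∘ₗ Fintype.linearCombination (ZMod 2) x) A = μ (lc x A) := by
    intro A
    rw [LinearMap.comp_apply, Fintype.linearCombination_apply, lc]
  by_cases h : μ ∘ₗ Fintype.linearCombination (ZMod 2) x = 0
  · have h0 : ∀ A, μ (lc x A) = 0 := by
      intro A
      rw [← hlin A, h, LinearMap.zero_apply]
    rw [ind_pos (show x ∈ {x : Fin D → V | ∀ A, μ (lc x A) = 0} from h0)]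
    have : (fun A : Fin D → ZMod 2 => sg (μ (lc x A))) = fun _ => 1 := by
      funext A
      rw [h0 A, sg_zero]
    rw [this, av_const]
  · have h0 : ¬ ∀ A, μ (lc x A) = 0 := by
      intro h'
      apply h
      ext A
      simp only [LinearMap.comp_apply, LinearMap.zero_apply]
      have := hlin (Pi.single A 1)
      simp only [LinearMap.comp_apply] at this
      first
        | simpa [this] using h' (Pi.single A 1)
        | exact (this.trans (h' _))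
    rw [ind_neg (show x ∉ {x : Fin D → V | ∀ A, μ (lc x A) = 0} from h0)]
    have := av_sg_ne h
    rw [← this]
    exact congrArg av (funext fun A => by rw [hlin A])

theorem rk6_Wt_nonneg {V M : Type} [AddCommGroup V] [Module (ZMod 2) V] [AddCommGroup M]
    [Module (ZMod 2) M] [Finite M] (q : V → M) (D : ℕ) (z : V × (Fin D → V)) :
    0 ≤ Wt q D z := by
  unfold Wt
  split_ifs
  · exact pow_nonneg (nc_nonneg M) _
  · exact le_refl _

theorem rk6_ES_mono {V M : Type} [AddCommGroup V] [Module (ZMod 2) V] [Finite V] [AddCommGroup M]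
    [Module (ZMod 2) M] [Finite M] (q : V → M) (D : ℕ) {G G' : V → (Fin D → V) → ℝ}
    (h : ∀ y x, G y x ≤ G' y x) : ES q D G ≤ ES q D G' := by
  unfold ES
  exact av_le_av fun z => mul_le_mul_of_nonneg_left (h _ _) (rk6_Wt_nonneg q D z)

theorem rk6_ES_sum {V M ι : Type} [AddCommGroup V] [Module (ZMod 2) V] [Finite V]
    [AddCommGroup M] [Module (ZMod 2) M] [Finite M] (q : V → M) (D : ℕ) (s : Finset ι)
    (F : ι → V → (Fin D → V) → ℝ) :
    ES q D (fun y x => ∑ g ∈ s, F g y x) = ∑ g ∈ s, ES q D (F g) := by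
  classical
  induction s using Finset.induction_on with
  | empty =>
    simp only [Finset.sum_empty]
    unfold ES
    simp only [mul_zero]
    exact av_const 0
  | insert a s ha ih =>
    rw [Finset.sum_insert ha, ← ih]
    simp only [Finset.sum_insert ha]
    unfold ES
    rw [← av_add]
    congr 1
    funext z
    ring

/-- `av_A sg (μ (lc x A))` is `1` if `μ` vanishes on all `lc x A` and `0` otherwise (`A ↦ μ (lc x A)`
is linear); `es_lc_avg` with `G = sg ∘ μ`, whose average is `0` (`av_sg_ne`). -/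
theorem rk_six : ∃ C : ℕ, ∀ (D R : ℕ) (V M : Type) [AddCommGroup V] [Module (ZMod 2) V]
    [Finite V] [AddCommGroup M] [Module (ZMod 2) M] [Finite M] (q : V → M) (φ : Bil V M)
    (μ : Du V), IsQ q φ → HR φ R → 2 ≤ D → pw C (rk M + D) ≤ R → μ ≠ 0 →
    ES q D (fun _ x => ind {x : Fin D → V | ∀ A, μ (lc x A) = 0} x) ≤ 18 * (1 / 2) ^ D := by
  obtain ⟨C, hC⟩ := es_lc_avg
  refine ⟨C, ?_⟩
  intro D R V M _ _ _ _ _ _ q φ μ hq hR hD hCR hμ
  have key := hC D R V M q φ (fun v => sg (μ v)) 1 hq hR hD hCR (fun y => le_of_eq (abs_sg _))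
  rw [av_sg_ne hμ] at key
  have h2 : (fun (_ : V) (x : Fin D → V) => av fun A' => sg (μ (lc x A'))) =
      fun _ x => ind {x : Fin D → V | ∀ A, μ (lc x A) = 0} x := by
    funext _ x
    exact rk6_av μ x
  have h3 := (abs_le.mp key).2
  rw [h2] at h3
  linarith

/-- union bound over the sets `T` of at most `K` elements of the large spectrum; there are at most
`(#Λ + 1)^K ≤ (8 · 4^h)^K` of them (`spec_card`; `0 ≤ f ≤ ν`). -/
theorem rk_seven : ∃ C : ℕ, ∀ (h K D R : ℕ) (V M : Type) [AddCommGroup V] [Module (ZMod 2) V]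
    [Finite V] [AddCommGroup M] [Module (ZMod 2) M] [Finite M] (q : V → M) (φ : Bil V M)
    (f : V → ℝ), IsQ q φ → HR φ R → 2 ≤ D → pw C (rk M + D + h) ≤ R → (∀ y, 0 ≤ f y) →
    (∀ y, f y ≤ nu q y) →
    ES q D (fun _ x => ind {x : Fin D → V | ¬ RelP f h K x} x) ≤
      18 * (8 * 4 ^ h) ^ K * (1 / 2) ^ D := by
  classical
  obtain ⟨C₀, hC₀⟩ := rk_six
  refine ⟨max C₀ 2, ?_⟩
  intro h K D R V M _ _ _ _ _ _ q φ f hq hR hD hCR hf0 hf1
  have hCR0 : pw C₀ (rk M + D) ≤ R :=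
    ((pw_mono_left (le_max_left C₀ 2) _).trans (pw_mono _ (Nat.le_add_right _ _))).trans hCR
  have hh : rk M + 1 + (2 * h + 3) ≤ R := by
    have h1 : pw 2 (rk M + D + h) ≤ R := (pw_mono_left (le_max_right C₀ 2) _).trans hCR
    have h2 : (rk M + D + h + 2) ^ 2 ≤ R := h1
    nlinarith [Nat.zero_le (rk M), Nat.zero_le h]
  let _ : Fintype {l : Du V // (1 / 2 : ℝ) ^ h ≤ |ft f l|} := Fintype.ofFinite _
  have hcard : (Fintype.card {l : Du V // (1 / 2 : ℝ) ^ h ≤ |ft f l|} : ℝ) ≤ 4 * 4 ^ h := by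
    rw [← nc_eq]
    exact spec_card hq hR f hf0 hf1 h hh
  let _ : Fintype (Du V) := Fintype.ofFinite _
  -- the functionals attached to a function `g : Fin K → Option Λ`
  let Tg : (Fin K → Option {l : Du V // (1 / 2 : ℝ) ^ h ≤ |ft f l|}) → Finset (Du V) := fun g =>
    Finset.univ.filter fun l => ∃ i, ∃ hl : (1 / 2 : ℝ) ^ h ≤ |ft f l|, g i = some ⟨l, hl⟩
  have hexists : ∀ T : Finset (Du V), T.card ≤ K → (∀ l ∈ T, (1 / 2 : ℝ) ^ h ≤ |ft f l|) →
      ∃ g, Tg g = T := by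
    intro T hT hl
    refine ⟨fun i => if hi : (i : ℕ) < T.card then
      some ⟨(T.equivFin.symm ⟨i, hi⟩ : Du V), hl _ (T.equivFin.symm ⟨i, hi⟩).2⟩ else none, ?_⟩
    ext l
    simp only [Tg, Finset.mem_filter, Finset.mem_univ, true_and]
    constructor
    · rintro ⟨i, hl', hi⟩
      by_cases hc : (i : ℕ) < T.card
      · rw [dif_pos hc] at hi
        have := Option.some.inj hi
        have h2 : ((T.equivFin.symm ⟨i, hc⟩ : T) : Du V) = l := congrArg Subtype.val this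
        rw [← h2]
        exact (T.equivFin.symm ⟨i, hc⟩).2
      · rw [dif_neg hc] at hi
        exact absurd hi (by simp)
    · intro hlT
      have hlt : ((T.equivFin ⟨l, hlT⟩ : Fin T.card) : ℕ) < K :=
        lt_of_lt_of_le (T.equivFin ⟨l, hlT⟩).2 hT
      refine ⟨⟨T.equivFin ⟨l, hlT⟩, hlt⟩, hl l hlT, ?_⟩
      have hc : ((T.equivFin ⟨l, hlT⟩ : Fin T.card) : ℕ) < T.card := (T.equivFin ⟨l, hlT⟩).2
      simp only [hc, dif_pos]
      congr 1
      apply Subtype.ext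
      simp
  have hbound : ∀ (y : V) (x : Fin D → V), ind {x : Fin D → V | ¬ RelP f h K x} x ≤
      ∑ g : Fin K → Option {l : Du V // (1 / 2 : ℝ) ^ h ≤ |ft f l|},
        (if (∑ l ∈ Tg g, l) ≠ 0 then
          ind {x : Fin D → V | ∀ A, (∑ l ∈ Tg g, l) (lc x A) = 0} x else 0) := by
    intro y x
    have hnn : ∀ g ∈ (Finset.univ : Finset (Fin K → Option {l : Du V // (1 / 2 : ℝ) ^ h ≤ |ft f l|})),
        0 ≤ (if (∑ l ∈ Tg g, l) ≠ 0 then
          ind {x : Fin D → V | ∀ A, (∑ l ∈ Tg g, l) (lc x A) = 0} x else 0) := by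
      intro g _
      by_cases hg : (∑ l ∈ Tg g, l) ≠ 0
      · rw [if_pos hg]
        exact ind_nonneg _ _
      · rw [if_neg hg]
    by_cases hx : x ∈ {x : Fin D → V | ¬ RelP f h K x}
    · rw [ind_pos hx]
      have hx' : ¬ RelP f h K x := hx
      unfold RelP at hx'
      push Not at hx'
      obtain ⟨T, hT, hl, hne, hA⟩ := hx'
      obtain ⟨g, hg⟩ := hexists T hT hl
      refine le_trans ?_ (Finset.single_le_sum hnn (Finset.mem_univ g))
      rw [hg, if_pos hne, ind_pos (show x ∈ {x : Fin D → V | ∀ A, (∑ l ∈ T, l) (lc x A) = 0} from hA)]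
    · rw [ind_neg hx]
      exact Finset.sum_nonneg hnn
  refine (rk6_ES_mono q D hbound).trans ?_
  rw [rk6_ES_sum q D Finset.univ (fun g _ x => if (∑ l ∈ Tg g, l) ≠ 0 then
          ind {x : Fin D → V | ∀ A, (∑ l ∈ Tg g, l) (lc x A) = 0} x else 0)]
  have hterm : ∀ g ∈ (Finset.univ : Finset (Fin K → Option {l : Du V // (1 / 2 : ℝ) ^ h ≤ |ft f l|})),
      ES q D (fun _ x => if (∑ l ∈ Tg g, l) ≠ 0 then
          ind {x : Fin D → V | ∀ A, (∑ l ∈ Tg g, l) (lc x A) = 0} x else 0) ≤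
        18 * (1 / 2) ^ D := by
    intro g _
    by_cases hg : (∑ l ∈ Tg g, l) ≠ 0
    · simp only [if_pos hg]
      exact hC₀ D R V M q φ _ hq hR hD hCR0 hg
    · simp only [if_neg hg]
      unfold ES
      simp only [mul_zero]
      rw [av_const]
      positivity
  refine (Finset.sum_le_sum hterm).trans ?_
  rw [Finset.sum_const, Finset.card_univ, Fintype.card_fun, Fintype.card_option, Fintype.card_fin,
    nsmul_eq_mul]
  push_cast
  have h4 : (1 : ℝ) ≤ 4 ^ h := one_le_pow₀ (by norm_num)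
  have h5 : ((Fintype.card {l : Du V // (1 / 2 : ℝ) ^ h ≤ |ft f l|} : ℝ) + 1) ^ K ≤
      (8 * 4 ^ h) ^ K := by
    apply pow_le_pow_left₀ (by positivity)
    linarith
  have h6 : (0 : ℝ) ≤ 18 * (1 / 2) ^ D := by positivity
  calc ((Fintype.card {l : Du V // (1 / 2 : ℝ) ^ h ≤ |ft f l|} : ℝ) + 1) ^ K *
        (18 * (1 / 2) ^ D) ≤ (8 * 4 ^ h) ^ K * (18 * (1 / 2) ^ D) :=
        mul_le_mul_of_nonneg_right h5 h6
    _ = 18 * (8 * 4 ^ h) ^ K * (1 / 2) ^ D := by ring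

end G2
end

section

/-!
# Job RK5: the `U^2` norm of the sample of the remainder
-/

set_option autoImplicit false

open Module

namespace G2

section

variable {V M : Type} [AddCommGroup V] [Module (ZMod 2) V] [Finite V]
  [AddCommGroup M] [Module (ZMod 2) M] [Finite M]

/-- the product of the four values of the remainder -/
noncomputable def rk5_G (M : Type) (F : Set V) (h : ℕ) (y x x' : V) : ℝ :=
  gt M F h y * gt M F h (y + x) * (gt M F h (y + x') * gt M F h (y + x + x'))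

theorem rk5_UD (F : Set V) (h : ℕ) {D : ℕ} (y : V) (x : Fin D → V) :
    UD M F h y x =
      av fun α => av fun A' => av fun B' => rk5_G M F h (pt y x α) (lc x A') (lc x B') := by
  rw [UD, ← u2_eq]
  have e : ∀ A' B' : Fin D → ZMod 2, PK (fun α => gt M F h (pt y x α)) A' B' =
      av fun α => rk5_G M F h (pt y x α) (lc x A') (lc x B') := by
    intro A' B'
    rw [PK]
    congr 1
    funext α
    have h1 : ∀ β γ : Fin D → ZMod 2, pt y x (β + γ) = pt y x β + lc x γ := by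
      intro β γ
      rw [pt_eq, pt_eq, lc_add, add_assoc]
    rw [h1, h1, h1, h1, rk5_G]
  simp only [e]
  have e2 : (fun A' : Fin D → ZMod 2 => av fun B' : Fin D → ZMod 2 => av fun α =>
      rk5_G M F h (pt y x α) (lc x A') (lc x B')) =
      fun A' => av fun α => av fun B' => rk5_G M F h (pt y x α) (lc x A') (lc x B') := by
    funext A'
    exact av_comm _
  rw [e2]
  exact av_comm _

theorem rk5_nu_gt {q : V → M} {F : Set V} (hF : ∀ y ∈ F, q y = 0) (h : ℕ) (y : V) :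
    nu q y * gt M F h y = wf M F y - nu q y * tr (wf M F) h y := by
  rw [gt, mul_sub]
  congr 1
  rw [nu, wf]
  by_cases hy : y ∈ F
  · rw [ind_pos hy, ind_pos (show y ∈ {y | q y = 0} from hF y hy)]
    ring
  · rw [ind_neg hy]
    ring

theorem rk5_w2 {q : V → M} {F : Set V} (hF : ∀ y ∈ F, q y = 0) (h : ℕ) :
    (av fun y => av fun x => av fun x' => w2 q y x x' * rk5_G M F h y x x') =
      su fun m => ft (fun y => wf M F y - nu q y * tr (wf M F) h y) m ^ 4 := by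
  rw [← u2_eq]
  have e : ∀ x x' : V, PK (fun y => wf M F y - nu q y * tr (wf M F) h y) x x' =
      av fun y => w2 q y x x' * rk5_G M F h y x x' := by
    intro x x'
    rw [PK]
    congr 1
    funext y
    simp only [← rk5_nu_gt hF h, w2, rk5_G]
    ring
  simp only [e]
  have e2 : (fun x : V => av fun x' : V => av fun y : V => w2 q y x x' * rk5_G M F h y x x') =
      fun x => av fun y => av fun x' => w2 q y x x' * rk5_G M F h y x x' := by
    funext x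
    exact av_comm _
  rw [e2]
  exact av_comm _

end

/-- `UD = av_{A,B,α} g(pt α) g(pt α + lc A) g(pt α + lc B) g(pt α + lc A + lc B)` by `u2_eq`, with
`g = gt M F h`, `|g| ≤ 8 · 4^h + 1` (`abs_tr_le`, with `f = wf M F`, `0 ≤ f ≤ ν` as `F ⊆ {q = 0}`).
`es_avg` for `G y x x' = g(y) g(y+x) g(y+x') g(y+x+x')`; `w2 · G` is the product of the four values
of `ν g = f - ν tr f h`, so its average is `su ft^4 ≤ 40 · 2^(-2h)` by `u2_eq` and `trunc_u2`. -/
theorem rk_five : ∃ C : ℕ, ∀ (h D R : ℕ) (V M : Type) [AddCommGroup V] [Module (ZMod 2) V]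
    [Finite V] [AddCommGroup M] [Module (ZMod 2) M] [Finite M] (q : V → M) (φ : Bil V M)
    (F : Set V), IsQ q φ → HR φ R → 2 ≤ D → pw C (rk M + D + h) ≤ R → (∀ y ∈ F, q y = 0) →
    ES q D (fun y x => UD M F h y x) ≤
      40 * (1 / 2) ^ (2 * h) + 16 * (8 * 4 ^ h + 1) ^ 4 * (1 / 2) ^ D := by
  obtain ⟨C1, h1⟩ := es_avg
  obtain ⟨C2, h2⟩ := trunc_u2
  refine ⟨C1 + C2 + 2, ?_⟩
  intro h D R V M _ _ _ _ _ _ q φ F hq hR hD hC hF
  have hC1 : pw C1 (rk M + D) ≤ R :=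
    ((pw_mono_left (by omega) _).trans (pw_mono (C1 + C2 + 2) (by omega))).trans hC
  have hC2 : pw C2 (rk M + h) ≤ R :=
    ((pw_mono_left (by omega) _).trans (pw_mono (C1 + C2 + 2) (by omega))).trans hC
  have hh : rk M + 1 + (2 * h + 3) ≤ R := by
    have h3 : pw 2 (rk M + D + h) ≤ R := (pw_mono_left (by omega) _).trans hC
    have h4 : 2 * (rk M + D + h + 2) ≤ pw 2 (rk M + D + h) := by
      rw [pw, sq]
      exact Nat.mul_le_mul_right _ (by omega)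
    omega
  have hf0 : ∀ y, 0 ≤ wf M F y := fun y => mul_nonneg (nc_nonneg M) (ind_nonneg F y)
  have hf1 : ∀ y, wf M F y ≤ nu q y := fun y =>
    mul_le_mul_of_nonneg_left (ind_mono (fun y hy => hF y hy) y) (nc_nonneg M)
  have hg : ∀ y, |gt M F h y| ≤ 8 * 4 ^ h + 1 := by
    intro y
    have h3 := abs_tr_le hq hR (wf M F) hf0 hf1 h hh y
    have h4 := ind_nonneg F y
    have h5 := ind_le_one F y
    rw [gt]
    rw [abs_le] at h3 ⊢
    constructor <;> linarith [h3.1, h3.2]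
  have hB : (0 : ℝ) ≤ 8 * 4 ^ h + 1 := by positivity
  have hG : ∀ y x x', |rk5_G M F h y x x'| ≤ (8 * 4 ^ h + 1) ^ 4 := by
    intro y x x'
    rw [rk5_G, abs_mul, abs_mul, abs_mul]
    calc |gt M F h y| * |gt M F h (y + x)| * (|gt M F h (y + x')| * |gt M F h (y + x + x')|)
        ≤ (8 * 4 ^ h + 1) * (8 * 4 ^ h + 1) * ((8 * 4 ^ h + 1) * (8 * 4 ^ h + 1)) :=
          mul_le_mul (mul_le_mul (hg _) (hg _) (abs_nonneg _) hB)
            (mul_le_mul (hg _) (hg _) (abs_nonneg _) hB) (by positivity) (by positivity)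
      _ = (8 * 4 ^ h + 1) ^ 4 := by ring
  have a1 := h1 D R V M q φ (rk5_G M F h) _ hq hR hD hC1 hG
  have a2 := h2 h R V M q φ (wf M F) hq hR hC2 hf0 hf1
  rw [← rk5_w2 hF h] at a2
  have e : (fun (y : V) (x : Fin D → V) => UD M F h y x) =
      fun y x => av fun α => av fun A' => av fun B' =>
        rk5_G M F h (pt y x α) (lc x A') (lc x B') := by
    funext y x
    exact rk5_UD F h y x
  rw [e]
  have a3 := (abs_le.1 a1).2
  linarith

end G2
end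

section

/-!
# Job RK2: a good sample exists (for (RKM-))

`h = pw C₁ (t + K)`, `D = pw C₂ (t + K)`.
-/

set_option autoImplicit false

open Module

namespace G2

theorem rk2_es_add {V M : Type} [AddCommGroup V] [Module (ZMod 2) V] [Finite V] [AddCommGroup M]
    [Module (ZMod 2) M] [Finite M] (q : V → M) (D : ℕ) (G H : V → (Fin D → V) → ℝ) :
    ES q D (fun y x => G y x + H y x) = ES q D G + ES q D H := by
  unfold ES
  rw [← av_add]
  congr 1
  funext z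
  ring

theorem rk2_es_mul {V M : Type} [AddCommGroup V] [Module (ZMod 2) V] [Finite V] [AddCommGroup M]
    [Module (ZMod 2) M] [Finite M] (q : V → M) (D : ℕ) (c : ℝ) (G : V → (Fin D → V) → ℝ) :
    ES q D (fun y x => c * G y x) = c * ES q D G := by
  unfold ES
  rw [← av_mul_left]
  congr 1
  funext z
  ring

/-- a point of positive weight where `G < 1` -/
theorem rk2_key {V M : Type} [AddCommGroup V] [Module (ZMod 2) V] [Finite V] [AddCommGroup M]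
    [Module (ZMod 2) M] [Finite M] (q : V → M) (D : ℕ) (G : V → (Fin D → V) → ℝ)
    (h : ES q D G < ES q D (fun _ _ => 1)) :
    ∃ (y : V) (x : Fin D → V), (∀ α, q (pt y x α) = 0) ∧ G y x < 1 := by
  by_contra hc
  push Not at hc
  refine absurd h (not_lt.2 ?_)
  unfold ES
  refine av_le_av fun z => ?_
  by_cases hz : ∀ α : Fin D → ZMod 2, q (pt z.1 z.2 α) = 0
  · exact mul_le_mul_of_nonneg_left (hc z.1 z.2 hz) (Wt_nonneg q D z)
  · have h0 : Wt q D z = 0 := by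
      unfold Wt
      exact if_neg hz
    rw [h0, zero_mul, zero_mul]

theorem rk2_pow {a : ℝ} {m n D : ℕ} (ha : a ≤ 2 ^ m) (hD : m + n ≤ D) :
    a * (1 / 2 : ℝ) ^ D ≤ (1 / 2) ^ n := by
  have h1 : (1 / 2 : ℝ) ^ D ≤ (1 / 2) ^ (m + n) :=
    pow_le_pow_of_le_one (by norm_num) (by norm_num) hD
  have h2 : (2 : ℝ) ^ m * (1 / 2) ^ (m + n) = (1 / 2) ^ n := by
    rw [pow_add, ← mul_assoc, ← mul_pow]
    norm_num
  calc a * (1 / 2 : ℝ) ^ D ≤ 2 ^ m * (1 / 2) ^ D := mul_le_mul_of_nonneg_right ha (by positivity)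
    _ ≤ 2 ^ m * (1 / 2) ^ (m + n) := mul_le_mul_of_nonneg_left h1 (by positivity)
    _ = _ := h2

/-- the numerical estimates -/
theorem rk2_num (e t K h D : ℕ) (he : 1 ≤ e) (hh : 3 * (K + t + 12 + e) ≤ h)
    (hD : 20 * (h * (K + t + 12 + e)) ≤ D) :
    2 ≤ D ∧ (1 / 2 : ℝ) ^ D < 1 / (4 * e) ∧
    34 * (2 : ℝ) ^ (3 * t) * (1 / 2) ^ D ≤ 1 / (8 * e) ∧
    (1024 * e * 2 ^ t : ℝ) ^ 2 * (200 * (1 / 2) ^ D) ≤ 1 / (32 * e) ∧
    (2 : ℝ) ^ (4 * (K + t + 12 + e)) *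
      (40 * (1 / 2) ^ (2 * h) + 16 * (8 * 4 ^ h + 1) ^ 4 * (1 / 2) ^ D) ≤ 1 / (32 * e) ∧
    18 * (8 * 4 ^ h : ℝ) ^ (K + 2) * (1 / 2) ^ D ≤ 1 / (32 * e) := by
  have he0 : (0 : ℝ) < e := by exact_mod_cast he
  have he2 : (e : ℝ) ≤ 2 ^ e := by exact_mod_cast Nat.lt_two_pow_self.le
  have hs1 : 13 * h ≤ h * (K + t + 12 + e) := by
    rw [mul_comm h]
    exact Nat.mul_le_mul_right _ (by omega)
  have hs2 : 39 * (K + t + 12 + e) ≤ h * (K + t + 12 + e) := Nat.mul_le_mul_right _ (by omega)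
  have hs3 : (3 + 2 * h) * (K + 2) ≤ 3 * (h * (K + t + 12 + e)) := by
    rw [← mul_assoc]
    exact Nat.mul_le_mul (by omega) (by omega)
  have hinv : ∀ n : ℕ, (1 / 2 : ℝ) ^ (n + e) ≤ 1 / (2 ^ n * e) := by
    intro n
    rw [one_div_pow]
    refine one_div_le_one_div_of_le (by positivity) ?_
    rw [pow_add]
    exact mul_le_mul_of_nonneg_left he2 (by positivity)
  have h5 : (1 / 2 : ℝ) ^ (5 + e) ≤ 1 / (32 * e) := by
    have := hinv 5
    norm_num at this ⊢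
    exact this
  have h6 : (1 / 2 : ℝ) ^ (6 + e) ≤ 1 / (64 * e) := by
    have := hinv 6
    norm_num at this ⊢
    exact this
  refine ⟨by omega, ?_, ?_, ?_, ?_, ?_⟩
  · have h3 : (1 / 2 : ℝ) ^ D ≤ (1 / 2) ^ (3 + e) :=
      pow_le_pow_of_le_one (by norm_num) (by norm_num) (by omega)
    have h4 := hinv 3
    have h7 : (1 : ℝ) / (2 ^ 3 * e) < 1 / (4 * e) := by
      refine one_div_lt_one_div_of_lt (by positivity) ?_
      nlinarith
    linarith
  · have h3 : 34 * (2 : ℝ) ^ (3 * t) * (1 / 2) ^ D ≤ (1 / 2) ^ (3 + e) := by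
      refine rk2_pow (m := 6 + 3 * t) ?_ (by omega)
      rw [pow_add]
      exact mul_le_mul_of_nonneg_right (by norm_num) (by positivity)
    have h4 := hinv 3
    norm_num at h4 ⊢
    norm_num at h3
    linarith
  · have h3 : (1024 * e * 2 ^ t : ℝ) ^ 2 * 200 * (1 / 2) ^ D ≤ (1 / 2) ^ (5 + e) := by
      refine rk2_pow (m := 2 * (10 + e + t) + 8) ?_ (by omega)
      rw [pow_add, pow_mul']
      refine mul_le_mul ?_ (by norm_num) (by norm_num) (by positivity)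
      refine pow_le_pow_left₀ (by positivity) ?_ 2
      rw [pow_add, pow_add]
      refine mul_le_mul_of_nonneg_right ?_ (by positivity)
      refine mul_le_mul (by norm_num) he2 he0.le (by positivity)
    calc _ = (1024 * e * 2 ^ t : ℝ) ^ 2 * 200 * (1 / 2) ^ D := by ring
      _ ≤ _ := h3
      _ ≤ _ := h5
  · have h3 : (2 : ℝ) ^ (4 * (K + t + 12 + e)) * 40 * (1 / 2) ^ (2 * h) ≤ (1 / 2) ^ (6 + e) := by
      refine rk2_pow (m := 4 * (K + t + 12 + e) + 6) ?_ (by omega)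
      rw [pow_add]
      exact mul_le_mul_of_nonneg_left (by norm_num) (by positivity)
    have h8 : (8 * 4 ^ h + 1 : ℝ) ^ 4 ≤ 2 ^ (4 * (2 * h + 4)) := by
      rw [pow_mul' (2 : ℝ) 4 (2 * h + 4)]
      refine pow_le_pow_left₀ (by positivity) ?_ 4
      have h9 : (2 : ℝ) ^ (2 * h + 4) = 16 * 4 ^ h := by
        rw [pow_add, pow_mul]
        norm_num
        ring
      have h10 : (1 : ℝ) ≤ 4 ^ h := one_le_pow₀ (by norm_num)
      rw [h9]
      linarith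
    have h11 : (2 : ℝ) ^ (4 * (K + t + 12 + e)) * (16 * (8 * 4 ^ h + 1) ^ 4) * (1 / 2) ^ D ≤
        (1 / 2) ^ (6 + e) := by
      refine rk2_pow (m := 4 * (K + t + 12 + e) + (4 + 4 * (2 * h + 4))) ?_ (by omega)
      rw [pow_add, pow_add 2 4]
      refine mul_le_mul_of_nonneg_left ?_ (by positivity)
      refine mul_le_mul (by norm_num) h8 (by positivity) (by norm_num)
    calc _ = (2 : ℝ) ^ (4 * (K + t + 12 + e)) * 40 * (1 / 2) ^ (2 * h) +
          (2 : ℝ) ^ (4 * (K + t + 12 + e)) * (16 * (8 * 4 ^ h + 1) ^ 4) * (1 / 2) ^ D := by ring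
      _ ≤ 1 / (64 * e) + 1 / (64 * e) := by linarith
      _ = 1 / (32 * e) := by
        field_simp
        norm_num
  · refine le_trans ?_ h5
    refine rk2_pow (m := 5 + (3 + 2 * h) * (K + 2)) ?_ (by omega)
    have h9 : (2 : ℝ) ^ (3 + 2 * h) = 8 * 4 ^ h := by
      rw [pow_add, pow_mul]
      norm_num
    rw [pow_add (2 : ℝ) 5, pow_mul, h9]
    exact mul_le_mul_of_nonneg_right (by norm_num) (by positivity)


theorem rk2_s (e u : ℕ) : u + 12 + e ≤ pw (12 + e) u := by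
  unfold pw
  have h1 : 12 + e ≤ 2 ^ (11 + e) := by
    have := Nat.lt_two_pow_self (n := 11 + e)
    omega
  have h2 : 2 ^ (11 + e) ≤ (u + 2) ^ (11 + e) := Nat.pow_le_pow_left (by omega) _
  have h3 : (u + 2) ^ (12 + e) = (u + 2) ^ (11 + e) * (u + 2) := by
    rw [show 12 + e = (11 + e) + 1 by omega, pow_succ]
  rw [h3]
  calc u + 12 + e ≤ (12 + e) * (u + 2) := by nlinarith
    _ ≤ _ := Nat.mul_le_mul_right _ (h1.trans h2)

theorem rk2_h (e u : ℕ) : 3 * (u + 12 + e) ≤ pw (14 + e) u := by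
  have h1 : pw (12 + e) u * pw 2 u = pw (14 + e) u := by
    rw [pw_mul]
    congr 1
    omega
  have h2 : 4 ≤ pw 2 u := Nat.pow_le_pow_left (show 2 ≤ u + 2 by omega) 2
  rw [← h1]
  have h3 := rk2_s e u
  calc 3 * (u + 12 + e) ≤ pw (12 + e) u * 4 := by omega
    _ ≤ _ := Nat.mul_le_mul_left _ h2

theorem rk2_D (e u : ℕ) : 20 * (pw (14 + e) u * (u + 12 + e)) ≤ pw (14 + e + (12 + e) + 5) u := by
  have h1 : pw (14 + e) u * pw (12 + e) u * pw 5 u = pw (14 + e + (12 + e) + 5) u := by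
    rw [pw_mul, pw_mul]
  have h2 : 20 ≤ pw 5 u := by
    unfold pw
    have := Nat.pow_le_pow_left (show 2 ≤ u + 2 by omega) 5
    omega
  rw [← h1]
  have h3 := rk2_s e u
  calc 20 * (pw (14 + e) u * (u + 12 + e)) = pw (14 + e) u * (u + 12 + e) * 20 := by ring
    _ ≤ pw (14 + e) u * pw (12 + e) u * 20 :=
        Nat.mul_le_mul_right _ (Nat.mul_le_mul_left _ h3)
    _ ≤ _ := Nat.mul_le_mul_left _ h2

theorem rk2_dom (C₁ C₂ r u : ℕ) : r + pw C₂ u + pw C₁ u ≤ pw (1 + C₂ + 1 + C₁ + 1) (r + u) := by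
  have h1 : r ≤ pw 1 (r + u) := by
    unfold pw
    rw [pow_one]
    omega
  have h2 : pw C₂ u ≤ pw C₂ (r + u) := pw_mono C₂ (by omega)
  have h3 : pw C₁ u ≤ pw C₁ (r + u) := pw_mono C₁ (by omega)
  have h4 := pw_add 1 C₂ (r + u)
  have h5 := pw_add (1 + C₂ + 1) C₁ (r + u)
  omega

theorem rk2_XD_nonneg {V : Type} [AddCommGroup V] [Module (ZMod 2) V] (F S : Set V) {D : ℕ} (y : V)
    (x : Fin D → V) : 0 ≤ XD F S y x :=
  av_nonneg fun _ => mul_nonneg (ind_nonneg _ _)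
    (av_nonneg fun _ => mul_nonneg (ind_nonneg _ _) (ind_nonneg _ _))

theorem rk2_UD_nonneg (M : Type) {V : Type} [AddCommGroup V] [Module (ZMod 2) V] [Finite V]
    (F : Set V) (h : ℕ) {D : ℕ} (y : V) (x : Fin D → V) : 0 ≤ UD M F h y x :=
  su_nonneg fun _ => by positivity

theorem rk2_sq {b a e : ℝ} (hb : 0 < b) (he : 0 < e) (h : (1024 * e / b) ^ 2 * (a - b) ^ 2 < 1) :
    |a - b| ≤ b / (1024 * e) := by
  have h1 : |1024 * e / b * (a - b)| < 1 := by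
    rw [← mul_pow] at h
    exact (sq_lt_one_iff_abs_lt_one _).1 h
  rw [abs_mul, abs_of_pos (by positivity)] at h1
  rw [le_div_iff₀ (by positivity)]
  have h2 : 1024 * e / b * |a - b| = (|a - b| * (1024 * e)) / b := by ring
  rw [h2, div_lt_one hb] at h1
  exact h1.le

/-- Write `P(E)` for `ES q D (ind of the event E)`.  The total mass is at least `1 - 2^(-D)`
(`es_mass`).  `β ≤ 2`.

* `E XD ≤ (1-1/e) β² γ + 17 · 2^(-D)` (`rk_four`), so by Markov's inequality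
  `P(XD > (1-1/(2e)) β² γ) ≤ ((1-1/e) β² γ + 17 · 2^(-D)) / ((1-1/(2e)) β² γ) ≤ 1 - 3/(8e)` if
  `17 · 2^(-D) ≤ 2^(-3t) / (8e)`; so `P(XD ≤ (1-1/(2e)) β² γ) ≥ 3/(8e) - 2^(-D) ≥ 1/(4e)`.
* `P(|dn FD - β| > β/(1024e)) ≤ (1024 e)² 4^t · 200 · 2^(-D)`, the same for `SD` (Chebyshev,
  `rk_second`, `rk_third`).
* `P(UD > 2^(-4s)) ≤ 2^(4s) (40 · 2^(-2h) + 16 (8·4^h+1)^4 2^(-D))` (`rk_five`), `s = K+t+12+e`.
* `P(¬ RelP) ≤ 18 (8·4^h)^(K+2) 2^(-D)` (`rk_seven`).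

With `h ≥ s`, `h` and then `D` large enough (polynomial in `t + K`, `e` is fixed) the last four
probabilities sum to less than `1/(4e)`, so there is `(y, x)` of positive weight (i.e. with all
points in `{q = 0}`) outside all of them. -/
theorem rk_sample_neg (e : ℕ) (he : 1 ≤ e) : ∃ C₁ C₂ C₃ : ℕ, ∀ (t K R : ℕ) (V M : Type)
    [AddCommGroup V] [Module (ZMod 2) V] [Finite V] [AddCommGroup M] [Module (ZMod 2) M]
    [Finite M] (q : V → M) (φ : Bil V M) (F S : Set V), IsQ q φ → HR φ R →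
    pw C₃ (rk M + t + K) ≤ R → (∀ y ∈ F, q y = 0) → (1 / 2 : ℝ) ^ t ≤ av (wf M F) →
    (1 / 2 : ℝ) ^ t ≤ dn S →
    av (fun x => ind S x * cor (wf M F) (wf M F) x) ≤
      (1 - 1 / (e : ℝ)) * av (wf M F) ^ 2 * dn S →
    K + t + 12 + e ≤ pw C₁ (t + K) ∧
    ∃ (y : V) (x : Fin (pw C₂ (t + K)) → V), (∀ α, q (pt y x α) = 0) ∧
      |dn (FD F y x) - av (wf M F)| ≤ av (wf M F) / (1024 * e) ∧
      |dn (SD S x) - dn S| ≤ dn S / (1024 * e) ∧
      XD F S y x ≤ (1 - 1 / (2 * (e : ℝ))) * av (wf M F) ^ 2 * dn S ∧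
      UD M F (pw C₁ (t + K)) y x ≤ (1 / 2) ^ (4 * (K + t + 12 + e)) ∧
      RelP (wf M F) (pw C₁ (t + K)) (K + 2) x := by
  obtain ⟨Cm, hm⟩ := es_mass
  obtain ⟨Ca, hka⟩ := rk_second
  obtain ⟨Cb, hkb⟩ := rk_third
  obtain ⟨Cc, hkc⟩ := rk_four
  obtain ⟨Cd, hkd⟩ := rk_five
  obtain ⟨Ce, hke⟩ := rk_seven
  set C₁ : ℕ := 14 + e with hC₁
  set C₂ : ℕ := 14 + e + (12 + e) + 5 with hC₂
  refine ⟨C₁, C₂, (Cm + Ca + Cb + Cc + Cd + Ce) * ((1 + C₂ + 1 + C₁ + 1) + 2), ?_⟩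
  intro t K R V M _ _ _ _ _ _ q φ F S hq hR hCR hF hβ hγ hX
  have he0 : (1 : ℝ) ≤ e := by exact_mod_cast he
  have hst : K + t + 12 + e = t + K + 12 + e := by omega
  set h : ℕ := pw C₁ (t + K) with hh
  set D : ℕ := pw C₂ (t + K) with hD
  have h3s : 3 * (K + t + 12 + e) ≤ h := by
    rw [hst]
    exact rk2_h e (t + K)
  have h20 : 20 * (h * (K + t + 12 + e)) ≤ D := by
    rw [hst]
    exact rk2_D e (t + K)
  obtain ⟨n1, n2, n3, n4, n5, n6⟩ := rk2_num e t K h D he h3s h20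
  have hRR : pw (Cm + Ca + Cb + Cc + Cd + Ce) (rk M + D + h) ≤ R := by
    refine le_trans (pw_mono _ (rk2_dom C₁ C₂ (rk M) (t + K))) ?_
    refine le_trans (pw_comp _ _ _) ?_
    rw [show rk M + (t + K) = rk M + t + K by omega]
    exact hCR
  have hRD : ∀ C, C ≤ Cm + Ca + Cb + Cc + Cd + Ce → pw C (rk M + D) ≤ R := fun C hC =>
    le_trans (pw_mono C (Nat.le_add_right _ _)) ((pw_mono_left hC _).trans hRR)
  have hRh : ∀ C, C ≤ Cm + Ca + Cb + Cc + Cd + Ce → pw C (rk M + D + h) ≤ R := fun C hC =>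
    (pw_mono_left hC _).trans hRR
  have m0 := hm D R V M q φ hq hR n1 (hRD Cm (by omega))
  have m1 := hka D R V M q φ F hq hR n1 (hRD Ca (by omega)) hF
  have m2 := hkb D R V M q φ S hq hR n1 (hRD Cb (by omega))
  have m3 := hkc D R V M q φ F S hq hR n1 (hRD Cc (by omega)) hF
  have m4 := hkd h D R V M q φ F hq hR n1 (hRh Cd (by omega)) hF
  have hwf0 : ∀ y, 0 ≤ wf M F y := fun y => mul_nonneg (nc_nonneg M) (ind_nonneg _ _)
  have hwf1 : ∀ y, wf M F y ≤ nu q y := fun y =>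
    mul_le_mul_of_nonneg_left (ind_mono (fun z hz => hF z hz) y) (nc_nonneg M)
  have m5 := hke h (K + 2) D R V M q φ (wf M F) hq hR n1 (hRh Ce (by omega)) hwf0 hwf1
  set β : ℝ := av (wf M F) with hβd
  set γ : ℝ := dn S with hγd
  have hβ0 : 0 < β := lt_of_lt_of_le (by positivity) hβ
  have hγ0 : 0 < γ := lt_of_lt_of_le (by positivity) hγ
  have hbg : (1 / 2 : ℝ) ^ (3 * t) ≤ β ^ 2 * γ := by
    have e1 : (1 / 2 : ℝ) ^ (3 * t) = ((1 / 2) ^ t) ^ 2 * (1 / 2) ^ t := by ring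
    rw [e1]
    exact mul_le_mul (pow_le_pow_left₀ (by positivity) hβ 2) hγ (by positivity) (by positivity)
  have hc12 : (1 / 2 : ℝ) ≤ 1 - 1 / (2 * e) := by
    have : (1 : ℝ) / (2 * e) ≤ 1 / 2 := one_div_le_one_div_of_le (by norm_num) (by linarith)
    linarith
  set c : ℝ := (1 - 1 / (2 * (e : ℝ))) * β ^ 2 * γ with hc
  have hc0 : (1 / 2) * (1 / 2 : ℝ) ^ (3 * t) ≤ c := by
    rw [hc, mul_assoc]
    exact mul_le_mul hc12 hbg (by positivity) (by linarith)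
  have hcpos : 0 < c := lt_of_lt_of_le (by positivity) hc0
  -- the first term
  have t1 : (1 / c) * ES q D (fun y x => XD F S y x) ≤ 1 - 1 / (2 * e) + 1 / (8 * e) := by
    have a1 : ES q D (fun y x => XD F S y x) ≤
        (1 - 1 / (e : ℝ)) * β ^ 2 * γ + 17 * (1 / 2) ^ D := by
      have := (abs_le.1 m3).2
      linarith
    have a2 : (1 - 1 / (e : ℝ)) * β ^ 2 * γ ≤ (1 - 1 / (2 * e)) * c := by
      have a3 : 1 - 1 / (e : ℝ) ≤ (1 - 1 / (2 * e)) * (1 - 1 / (2 * e)) := by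
        have a4 : 1 / (e : ℝ) = 2 * (1 / (2 * e)) := by
          field_simp
        rw [a4]
        nlinarith [sq_nonneg (1 / (2 * (e : ℝ)))]
      rw [hc]
      calc (1 - 1 / (e : ℝ)) * β ^ 2 * γ = (1 - 1 / (e : ℝ)) * (β ^ 2 * γ) := by ring
        _ ≤ (1 - 1 / (2 * e)) * (1 - 1 / (2 * e)) * (β ^ 2 * γ) :=
            mul_le_mul_of_nonneg_right a3 (by positivity)
        _ = _ := by ring
    have a5 : 17 * (1 / 2 : ℝ) ^ D ≤ 1 / (8 * e) * c := by
      have a6 : (2 : ℝ) ^ (3 * t) * (1 / 2) ^ (3 * t) = 1 := by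
        rw [← mul_pow]
        norm_num
      calc 17 * (1 / 2 : ℝ) ^ D
          = (34 * (2 : ℝ) ^ (3 * t) * (1 / 2) ^ D) * (1 / 2 * (1 / 2) ^ (3 * t)) := by
            calc 17 * (1 / 2 : ℝ) ^ D
                = 17 * (1 / 2 : ℝ) ^ D * ((2 : ℝ) ^ (3 * t) * (1 / 2) ^ (3 * t)) := by
                  rw [a6, mul_one]
              _ = _ := by ring
        _ ≤ 1 / (8 * e) * (1 / 2 * (1 / 2) ^ (3 * t)) :=
            mul_le_mul_of_nonneg_right n3 (by positivity)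
        _ ≤ _ := mul_le_mul_of_nonneg_left hc0 (by positivity)
    rw [one_div, inv_mul_le_iff₀ hcpos]
    calc _ ≤ (1 - 1 / (e : ℝ)) * β ^ 2 * γ + 17 * (1 / 2) ^ D := a1
      _ ≤ (1 - 1 / (2 * e)) * c + 1 / (8 * e) * c := add_le_add a2 a5
      _ = _ := by ring
  have hcheb : ∀ b : ℝ, (1 / 2 : ℝ) ^ t ≤ b → 0 < b → ∀ X : ℝ, X ≤ 200 * (1 / 2) ^ D →
      (1024 * (e : ℝ) / b) ^ 2 * X ≤ 1 / (32 * e) := by
    intro b hb hb0 X hX1
    have b1 : 1024 * (e : ℝ) / b ≤ 1024 * e * 2 ^ t := by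
      rw [div_le_iff₀ hb0]
      have b2 : (2 : ℝ) ^ t * (1 / 2) ^ t = 1 := by
        rw [← mul_pow]
        norm_num
      have b3 : 1 ≤ (2 : ℝ) ^ t * b := by
        rw [← b2]
        exact mul_le_mul_of_nonneg_left hb (by positivity)
      nlinarith
    calc (1024 * (e : ℝ) / b) ^ 2 * X ≤ (1024 * (e : ℝ) / b) ^ 2 * (200 * (1 / 2) ^ D) :=
          mul_le_mul_of_nonneg_left hX1 (by positivity)
      _ ≤ (1024 * e * 2 ^ t : ℝ) ^ 2 * (200 * (1 / 2) ^ D) :=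
          mul_le_mul_of_nonneg_right (pow_le_pow_left₀ (by positivity) b1 2) (by positivity)
      _ ≤ _ := n4
  have t2 := hcheb β hβ hβ0 _ m1
  have t3 := hcheb γ hγ hγ0 _ m2
  have t4 : (2 : ℝ) ^ (4 * (K + t + 12 + e)) * ES q D (fun y x => UD M F h y x) ≤ 1 / (32 * e) :=
    le_trans (mul_le_mul_of_nonneg_left m4 (by positivity)) n5
  have t5 := le_trans m5 n6
  have hsum : 1 - 1 / (2 * (e : ℝ)) + 1 / (8 * e) + 1 / (32 * e) + 1 / (32 * e) + 1 / (32 * e) +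
      1 / (32 * e) = 1 - 1 / (4 * e) := by
    field_simp
    ring
  have hlt : ES q D (fun y x => (1 / c) * XD F S y x +
      ((1024 * (e : ℝ) / β) ^ 2 * (dn (FD F y x) - β) ^ 2 +
      ((1024 * (e : ℝ) / γ) ^ 2 * (dn (SD S x) - γ) ^ 2 +
      ((2 : ℝ) ^ (4 * (K + t + 12 + e)) * UD M F h y x +
      ind {x : Fin D → V | ¬ RelP (wf M F) h (K + 2) x} x)))) < ES q D (fun _ _ => 1) := by
    rw [rk2_es_add, rk2_es_add, rk2_es_add, rk2_es_add, rk2_es_mul, rk2_es_mul, rk2_es_mul,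
      rk2_es_mul]
    have := (abs_le.1 m0).1
    linarith
  obtain ⟨y, x, hyx, hG⟩ := rk2_key q D _ hlt
  have p1 : 0 ≤ (1 / c) * XD F S y x := mul_nonneg (by positivity) (rk2_XD_nonneg F S y x)
  have p2 : 0 ≤ (1024 * (e : ℝ) / β) ^ 2 * (dn (FD F y x) - β) ^ 2 := by positivity
  have p3 : 0 ≤ (1024 * (e : ℝ) / γ) ^ 2 * (dn (SD S x) - γ) ^ 2 := by positivity
  have p4 : 0 ≤ (2 : ℝ) ^ (4 * (K + t + 12 + e)) * UD M F h y x :=
    mul_nonneg (by positivity) (rk2_UD_nonneg M F h y x)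
  have p5 := ind_nonneg {x : Fin D → V | ¬ RelP (wf M F) h (K + 2) x} x
  refine ⟨by omega, y, x, hyx, rk2_sq hβ0 (by linarith) (by linarith),
    rk2_sq hγ0 (by linarith) (by linarith), ?_, ?_, ?_⟩
  · have r1 : (1 / c) * XD F S y x < 1 := by linarith
    rw [one_div, inv_mul_lt_iff₀ hcpos, mul_one] at r1
    exact r1.le
  · have r1 : (2 : ℝ) ^ (4 * (K + t + 12 + e)) * UD M F h y x < 1 := by linarith
    rw [one_div_pow, le_div_iff₀ (by positivity), mul_comm]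
    exact r1.le
  · by_contra hcon
    have r1 : ind {x : Fin D → V | ¬ RelP (wf M F) h (K + 2) x} x = 1 :=
      ind_pos (A := {x : Fin D → V | ¬ RelP (wf M F) h (K + 2) x}) hcon
    linarith

end G2
end

section

/-!
# Job RK2p: a good sample exists (for (RKM+))
-/

set_option autoImplicit false
set_option linter.unusedSectionVars false

open Module

namespace G2

section rk2p

variable {V M : Type} [AddCommGroup V] [Module (ZMod 2) V] [Finite V]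
  [AddCommGroup M] [Module (ZMod 2) M] [Finite M]

private theorem rk2p_pow_le {a b D : ℕ} (h : a + b ≤ D) :
    (2 : ℝ) ^ a * (1 / 2) ^ D ≤ (1 / 2) ^ b := by
  have h1 : (1 / 2 : ℝ) ^ D ≤ (1 / 2) ^ (a + b) :=
    pow_le_pow_of_le_one (by norm_num) (by norm_num) h
  calc (2 : ℝ) ^ a * (1 / 2) ^ D ≤ 2 ^ a * (1 / 2) ^ (a + b) :=
        mul_le_mul_of_nonneg_left h1 (by positivity)
    _ = (1 / 2) ^ b := by
        rw [pow_add, ← mul_assoc, ← mul_pow]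
        norm_num

private theorem rk2p_es_add (q : V → M) (D : ℕ) (G H : V → (Fin D → V) → ℝ) :
    ES q D (fun y x => G y x + H y x) = ES q D G + ES q D H := by
  unfold ES
  rw [← av_add]
  congr 1
  funext z
  ring

private theorem rk2p_es_mul (q : V → M) (D : ℕ) (c : ℝ) (G : V → (Fin D → V) → ℝ) :
    ES q D (fun y x => c * G y x) = c * ES q D G := by
  unfold ES
  rw [← av_mul_left]
  congr 1
  funext z
  ring

private theorem rk2p_Wt_zero {q : V → M} {D : ℕ} {z : V × (Fin D → V)}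
    (h : ¬ ∀ α : Fin D → ZMod 2, q (pt z.1 z.2 α) = 0) : Wt q D z = 0 := by
  unfold Wt
  rw [if_neg h]

private theorem rk2p_Wt_nonneg (q : V → M) (D : ℕ) (z : V × (Fin D → V)) : 0 ≤ Wt q D z := by
  unfold Wt
  split_ifs
  · exact pow_nonneg (nc_nonneg M) _
  · exact le_refl 0

private theorem rk2p_es_nonneg (q : V → M) (D : ℕ) (G : V → (Fin D → V) → ℝ)
    (h : ∀ y x, 0 ≤ G y x) : 0 ≤ ES q D G := by
  unfold ES
  exact av_nonneg fun z => mul_nonneg (rk2p_Wt_nonneg q D z) (h _ _)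

/-- monotonicity on the support of the weight -/
private theorem rk2p_es_mono (q : V → M) (D : ℕ) (G H : V → (Fin D → V) → ℝ)
    (h : ∀ y x, (∀ α : Fin D → ZMod 2, q (pt y x α) = 0) → G y x ≤ H y x) :
    ES q D G ≤ ES q D H := by
  unfold ES
  refine av_le_av fun z => ?_
  by_cases hz : ∀ α : Fin D → ZMod 2, q (pt z.1 z.2 α) = 0
  · exact mul_le_mul_of_nonneg_left (h z.1 z.2 hz) (rk2p_Wt_nonneg q D z)
  · rw [rk2p_Wt_zero hz, zero_mul, zero_mul]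

omit [Module (ZMod 2) V] [Finite V] [Finite M] [AddCommGroup V] in
private theorem rk2p_wf_le [AddCommGroup V] {q : V → M} {F : Set V} (hF : ∀ y ∈ F, q y = 0)
    (y : V) : wf M F y ≤ nu q y := by
  unfold wf nu
  exact mul_le_mul_of_nonneg_left (ind_mono (fun y hy => hF y hy) y) (nc_nonneg M)

omit [Module (ZMod 2) V] [Finite V] [AddCommGroup V] [Module (ZMod 2) M] [Finite M]
  [AddCommGroup M] in
private theorem rk2p_wf_nonneg (F : Set V) (y : V) : 0 ≤ wf M F y :=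
  mul_nonneg (nc_nonneg M) (ind_nonneg F y)

omit [Finite V] in
private theorem rk2p_XD_le (F S : Set V) {D : ℕ} (y : V) (x : Fin D → V) : XD F S y x ≤ 1 := by
  unfold XD
  refine av_le_const fun A => ?_
  have h1 : cor (ind (FD F y x)) (ind (FD F y x)) A ≤ 1 := by
    unfold cor
    refine av_le_const fun B => ?_
    exact mul_le_one₀ (ind_le_one _ _) (ind_nonneg _ _) (ind_le_one _ _)
  have h0 : 0 ≤ cor (ind (FD F y x)) (ind (FD F y x)) A := by
    unfold cor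
    exact av_nonneg fun B => mul_nonneg (ind_nonneg _ _) (ind_nonneg _ _)
  exact mul_le_one₀ (ind_le_one _ _) h0 h1

private theorem rk2p_UD_nonneg (F : Set V) (h : ℕ) {D : ℕ} (y : V) (x : Fin D → V) :
    0 ≤ UD M F h y x := by
  unfold UD
  exact su_nonneg fun m => by positivity

end rk2p

/-- `(1024 e)² / B² · 200 · 2^(-D)` is small -/
private theorem rk2p_num2 {e t D : ℕ} {B : ℝ} (hB0 : 0 < B) (hB : (1 / 2 : ℝ) ^ t ≤ B)
    (hD : 33 + 3 * e + 5 * t ≤ D) {X : ℝ} (hX : X ≤ 200 * (1 / 2) ^ D) :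
    (1024 * (e : ℝ)) ^ 2 / B ^ 2 * X ≤ (1 / 2) ^ (3 * t + e + 4) := by
  have ht0 : (0 : ℝ) < (1 / 2) ^ t := by positivity
  have t0 : (2 : ℝ) ^ t * (1 / 2) ^ t = 1 := by
    rw [← mul_pow]
    norm_num
  have hBi : 1 / B ^ 2 ≤ 2 ^ (2 * t) := by
    rw [div_le_iff₀ (by positivity)]
    have h1 : (1 / 2 : ℝ) ^ t * (1 / 2) ^ t ≤ B * B := mul_le_mul hB hB ht0.le hB0.le
    have h2 : (2 : ℝ) ^ (2 * t) = 2 ^ t * 2 ^ t := by rw [two_mul, pow_add]
    calc (1 : ℝ) = (2 ^ t * (1 / 2) ^ t) * (2 ^ t * (1 / 2) ^ t) := by rw [t0, one_mul]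
      _ = 2 ^ (2 * t) * ((1 / 2) ^ t * (1 / 2) ^ t) := by
          rw [h2]
          ring
      _ ≤ 2 ^ (2 * t) * (B * B) := mul_le_mul_of_nonneg_left h1 (by positivity)
      _ = 2 ^ (2 * t) * B ^ 2 := by ring
  have hep : (e : ℝ) ≤ 2 ^ e := by exact_mod_cast (Nat.lt_two_pow_self).le
  have he2 : (1024 * (e : ℝ)) ^ 2 ≤ 2 ^ (20 + 2 * e) := by
    have h1 : 1024 * (e : ℝ) ≤ 2 ^ (10 + e) := by
      rw [pow_add]
      calc 1024 * (e : ℝ) ≤ 1024 * 2 ^ e := mul_le_mul_of_nonneg_left hep (by norm_num)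
        _ = 2 ^ 10 * 2 ^ e := by norm_num
    calc (1024 * (e : ℝ)) ^ 2 ≤ (2 ^ (10 + e)) ^ 2 := pow_le_pow_left₀ (by positivity) h1 2
      _ = 2 ^ (20 + 2 * e) := by
          rw [← pow_mul]
          congr 1
          ring
  have hc : (1024 * (e : ℝ)) ^ 2 / B ^ 2 ≤ 2 ^ (20 + 2 * e) * 2 ^ (2 * t) := by
    rw [div_eq_mul_one_div]
    exact mul_le_mul he2 hBi (by positivity) (by positivity)
  have hc0 : 0 ≤ (1024 * (e : ℝ)) ^ 2 / B ^ 2 := by positivity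
  calc (1024 * (e : ℝ)) ^ 2 / B ^ 2 * X
      ≤ (1024 * (e : ℝ)) ^ 2 / B ^ 2 * (2 ^ 8 * (1 / 2) ^ D) := by
        refine mul_le_mul_of_nonneg_left (hX.trans ?_) hc0
        exact mul_le_mul_of_nonneg_right (by norm_num) (by positivity)
    _ ≤ 2 ^ (20 + 2 * e) * 2 ^ (2 * t) * (2 ^ 8 * (1 / 2) ^ D) :=
        mul_le_mul_of_nonneg_right hc (by positivity)
    _ = 2 ^ (20 + 2 * e + 2 * t + 8) * (1 / 2) ^ D := by
        rw [pow_add (2 : ℝ) (20 + 2 * e + 2 * t) 8, pow_add (2 : ℝ) (20 + 2 * e) (2 * t)]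
        ring
    _ ≤ (1 / 2) ^ (3 * t + e + 4) := rk2p_pow_le (by omega)

private theorem rk2p_num4 {e t h s D : ℕ} (h1 : 4 * s + 6 + (3 * t + e + 4) ≤ 2 * h)
    (h2 : 4 * s + 4 + (8 * h + 16) + (3 * t + e + 4) ≤ D) {X : ℝ}
    (hX : X ≤ 40 * (1 / 2) ^ (2 * h) + 16 * (8 * 4 ^ h + 1) ^ 4 * (1 / 2) ^ D) :
    2 ^ (4 * s) * X ≤ 2 * (1 / 2) ^ (3 * t + e + 4) := by
  have heD0 : (0 : ℝ) < (1 / 2) ^ D := by positivity
  have h4h : (4 : ℝ) ^ h = 2 ^ (2 * h) := by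
    rw [pow_mul]
    norm_num
  have h3 : (8 * (4 : ℝ) ^ h + 1) ^ 4 ≤ 2 ^ (8 * h + 16) := by
    have h2 : 8 * (4 : ℝ) ^ h + 1 ≤ 2 ^ (2 * h + 4) := by
      rw [h4h, pow_add]
      have h3 : (1 : ℝ) ≤ 2 ^ (2 * h) := one_le_pow₀ (by norm_num)
      linarith
    calc (8 * (4 : ℝ) ^ h + 1) ^ 4 ≤ (2 ^ (2 * h + 4)) ^ 4 :=
          pow_le_pow_left₀ (by positivity) h2 4
      _ = 2 ^ (8 * h + 16) := by
          rw [← pow_mul]
          congr 1
          ring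
  have h5 : 2 ^ (4 * s) * (40 * (1 / 2 : ℝ) ^ (2 * h)) ≤ (1 / 2) ^ (3 * t + e + 4) := by
    calc 2 ^ (4 * s) * (40 * (1 / 2 : ℝ) ^ (2 * h))
        ≤ 2 ^ (4 * s) * (2 ^ 6 * (1 / 2 : ℝ) ^ (2 * h)) := by
          refine mul_le_mul_of_nonneg_left ?_ (by positivity)
          exact mul_le_mul_of_nonneg_right (by norm_num) (by positivity)
      _ = 2 ^ (4 * s + 6) * (1 / 2) ^ (2 * h) := by
          rw [pow_add (2 : ℝ) (4 * s) 6]
          ring
      _ ≤ (1 / 2) ^ (3 * t + e + 4) := rk2p_pow_le h1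
  have h6 : 2 ^ (4 * s) * (16 * (8 * (4 : ℝ) ^ h + 1) ^ 4 * (1 / 2) ^ D) ≤
      (1 / 2) ^ (3 * t + e + 4) := by
    calc 2 ^ (4 * s) * (16 * (8 * (4 : ℝ) ^ h + 1) ^ 4 * (1 / 2) ^ D)
        ≤ 2 ^ (4 * s) * (16 * 2 ^ (8 * h + 16) * (1 / 2) ^ D) := by
          refine mul_le_mul_of_nonneg_left ?_ (by positivity)
          refine mul_le_mul_of_nonneg_right ?_ heD0.le
          exact mul_le_mul_of_nonneg_left h3 (by norm_num)
      _ = 2 ^ (4 * s + 4 + (8 * h + 16)) * (1 / 2) ^ D := by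
          rw [pow_add (2 : ℝ) (4 * s + 4) (8 * h + 16), pow_add (2 : ℝ) (4 * s) 4]
          ring
      _ ≤ (1 / 2) ^ (3 * t + e + 4) := rk2p_pow_le h2
  have h7 : 2 ^ (4 * s) * X ≤
      2 ^ (4 * s) * (40 * (1 / 2) ^ (2 * h) + 16 * (8 * 4 ^ h + 1) ^ 4 * (1 / 2) ^ D) :=
    mul_le_mul_of_nonneg_left hX (by positivity)
  rw [mul_add] at h7
  linarith

private theorem rk2p_num5 {e t h K D : ℕ}
    (h2 : 5 + (2 * h + 3) * (K + 2) + (3 * t + e + 4) ≤ D) {X : ℝ}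
    (hX : X ≤ 18 * (8 * 4 ^ h) ^ (K + 2) * (1 / 2) ^ D) : X ≤ (1 / 2) ^ (3 * t + e + 4) := by
  have h4h : (4 : ℝ) ^ h = 2 ^ (2 * h) := by
    rw [pow_mul]
    norm_num
  have h1 : (8 * (4 : ℝ) ^ h) ^ (K + 2) = 2 ^ ((2 * h + 3) * (K + 2)) := by
    have h3 : 8 * (4 : ℝ) ^ h = 2 ^ (2 * h + 3) := by
      rw [h4h, pow_add]
      ring
    rw [h3, ← pow_mul]
  calc X ≤ 18 * (8 * 4 ^ h) ^ (K + 2) * (1 / 2) ^ D := hX
    _ ≤ 2 ^ 5 * (8 * (4 : ℝ) ^ h) ^ (K + 2) * (1 / 2) ^ D := by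
        refine mul_le_mul_of_nonneg_right ?_ (by positivity)
        exact mul_le_mul_of_nonneg_right (by norm_num) (by positivity)
    _ = 2 ^ (5 + (2 * h + 3) * (K + 2)) * (1 / 2) ^ D := by
        rw [h1, pow_add (2 : ℝ) 5]
    _ ≤ (1 / 2) ^ (3 * t + e + 4) := rk2p_pow_le h2

private theorem rk2p_num6 {e t : ℕ} (he : 1 ≤ e) {B γ : ℝ} (hB : (1 / 2 : ℝ) ^ t ≤ B)
    (hγ : (1 / 2 : ℝ) ^ t ≤ γ) :
    8 * (1 / 2 : ℝ) ^ (3 * t + e + 4) ≤ 1 / (2 * e) * B ^ 2 * γ := by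
  have ht0 : (0 : ℝ) < (1 / 2) ^ t := by positivity
  have hB0 : 0 < B := ht0.trans_le hB
  have hγ0 : 0 < γ := ht0.trans_le hγ
  have he0 : (0 : ℝ) < e := by exact_mod_cast he
  have hep : (e : ℝ) ≤ 2 ^ e := by exact_mod_cast (Nat.lt_two_pow_self).le
  have h1 : (1 / 2 : ℝ) ^ (3 * t) ≤ B ^ 2 * γ := by
    calc (1 / 2 : ℝ) ^ (3 * t) = ((1 / 2) ^ t) ^ 2 * (1 / 2) ^ t := by
          rw [← pow_mul, ← pow_add]
          congr 1
          ring
      _ ≤ B ^ 2 * γ := mul_le_mul (pow_le_pow_left₀ ht0.le hB 2) hγ ht0.le (by positivity)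
  have h2 : (1 / 2 : ℝ) ^ (e + 1) ≤ 1 / (2 * e) := by
    rw [le_div_iff₀ (by positivity)]
    calc (1 / 2 : ℝ) ^ (e + 1) * (2 * e) ≤ (1 / 2) ^ (e + 1) * (2 * 2 ^ e) := by
          refine mul_le_mul_of_nonneg_left ?_ (by positivity)
          linarith
      _ = ((1 / 2) * 2) ^ (e + 1) := by
          rw [mul_pow]
          ring
      _ = 1 := by norm_num
  have h3 : (1 / 2 : ℝ) ^ (3 * t + e + 4) = (1 / 2) ^ (e + 1) * (1 / 2) ^ (3 * t) * (1 / 8) := by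
    rw [show 3 * t + e + 4 = (e + 1) + 3 * t + 3 by ring, pow_add _ _ 3,
      pow_add (1 / 2 : ℝ) (e + 1) (3 * t)]
    norm_num
  calc 8 * (1 / 2 : ℝ) ^ (3 * t + e + 4) = (1 / 2) ^ (e + 1) * (1 / 2) ^ (3 * t) := by
        rw [h3]
        ring
    _ ≤ 1 / (2 * e) * (B ^ 2 * γ) := mul_le_mul h2 h1 (by positivity) (by positivity)
    _ = 1 / (2 * e) * B ^ 2 * γ := by ring

/-- `4 (K + t + 12 + e) ≤ h`, `h = pw (14 + e) (t + K)` -/
private theorem rk2p_h (e t K : ℕ) : 4 * (K + t + 12 + e) ≤ pw (14 + e) (t + K) := by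
  unfold pw
  obtain ⟨N, hN⟩ : ∃ N, N = t + K + 2 := ⟨_, rfl⟩
  have h2 : 2 ≤ N := by omega
  have h3 : 11 + e ≤ N ^ (11 + e) :=
    (Nat.lt_two_pow_self).le.trans (Nat.pow_le_pow_left h2 _)
  have h4 : 4 ≤ N ^ 2 := by nlinarith
  calc 4 * (K + t + 12 + e) = 4 * (N + (10 + e)) := by omega
    _ ≤ 4 * (N * (11 + e)) := by
        refine Nat.mul_le_mul_left _ ?_
        nlinarith
    _ ≤ N ^ 2 * (N * N ^ (11 + e)) :=
        Nat.mul_le_mul h4 (Nat.mul_le_mul_left _ h3)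
    _ = N ^ (14 + e) := by
        rw [← pow_succ', ← pow_add]
        congr 1
        omega
    _ = (t + K + 2) ^ (14 + e) := by rw [hN]

private theorem rk2p_D (C n : ℕ) : pw (2 * C) n = pw C n * pw C n := by
  unfold pw
  rw [two_mul, pow_add]

private theorem rk2p_R {C C' C₁ t K r : ℕ} (hC : C ≤ C') :
    pw C (r + pw (2 * C₁) (t + K) + pw C₁ (t + K)) ≤ pw (C' * (3 * C₁ + 5)) (r + t + K) := by
  have h1 : pw (2 * C₁) (t + K) ≤ pw (2 * C₁) (r + t + K) := pw_mono _ (by omega)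
  have h2 : pw C₁ (t + K) ≤ pw C₁ (r + t + K) := pw_mono _ (by omega)
  have h3 : r ≤ pw 1 (r + t + K) := by
    unfold pw
    rw [pow_one]
    omega
  have h4 : r + pw (2 * C₁) (t + K) + pw C₁ (t + K) ≤ pw (3 * C₁ + 3) (r + t + K) := by
    have h5 := pw_add 1 (2 * C₁) (r + t + K)
    have h6 := pw_add (1 + 2 * C₁ + 1) C₁ (r + t + K)
    have h7 : 1 + 2 * C₁ + 1 + C₁ + 1 = 3 * C₁ + 3 := by ring
    rw [h7] at h6
    omega
  calc pw C (r + pw (2 * C₁) (t + K) + pw C₁ (t + K))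
      ≤ pw C (pw (3 * C₁ + 3) (r + t + K)) := pw_mono _ h4
    _ ≤ pw (C * (3 * C₁ + 3 + 2)) (r + t + K) := pw_comp _ _ _
    _ ≤ pw (C' * (3 * C₁ + 5)) (r + t + K) :=
        pw_mono_left (Nat.mul_le_mul_right _ hC) _

/-- As `rk_sample_neg`, but now `0 ≤ XD ≤ 1` and
`E XD ≥ (1+1/e) B² γ - 17 · 2^(-D)`, so
`P(XD ≥ (1+1/(2e)) B² γ) ≥ E XD - (1+1/(2e)) B² γ (1 + 2^(-D)) ≥ B² γ / (4e)` (here
`B² γ ≥ 2^(-3t)` and `B ≤ 2`: from `(1+1/e) B² γ ≤ av (ind S * cor f f) ≤ ...`; if you prefer, use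
`B² γ ≤ 2`, which follows from the hypothesis and `rk_four`).
The event `dn FD > av (wf M F) + B/(1024e)` has probability `≤ (1024e)² 4^t 200 · 2^(-D)`
(`rk_second`), `dn SD > (1 + 1/(1024e)) γ` and `dn SD < (1 - 1/(1024e)) γ` similarly
(`rk_third`); the events on `UD` and `RelP` as before. The
sum of these probabilities is less than `2^(-3t)/(4e)` for suitable `h`, `D`. -/
theorem rk_sample_pos (e : ℕ) (he : 1 ≤ e) : ∃ C₁ C₂ C₃ : ℕ, ∀ (t K R : ℕ) (V M : Type)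
    [AddCommGroup V] [Module (ZMod 2) V] [Finite V] [AddCommGroup M] [Module (ZMod 2) M]
    [Finite M] (q : V → M) (φ : Bil V M) (F S : Set V) (B : ℝ), IsQ q φ → HR φ R →
    pw C₃ (rk M + t + K) ≤ R → (∀ y ∈ F, q y = 0) → (1 / 2 : ℝ) ^ t ≤ B → av (wf M F) ≤ B →
    (1 / 2 : ℝ) ^ t ≤ dn S →
    (1 + 1 / (e : ℝ)) * B ^ 2 * dn S ≤ av (fun x => ind S x * cor (wf M F) (wf M F) x) →
    K + t + 12 + e ≤ pw C₁ (t + K) ∧
    ∃ (y : V) (x : Fin (pw C₂ (t + K)) → V), (∀ α, q (pt y x α) = 0) ∧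
      dn (FD F y x) ≤ B + B / (1024 * e) ∧
      |dn (SD S x) - dn S| ≤ dn S / (1024 * e) ∧
      (1 + 1 / (2 * (e : ℝ))) * B ^ 2 * dn S ≤ XD F S y x ∧
      UD M F (pw C₁ (t + K)) y x ≤ (1 / 2) ^ (4 * (K + t + 12 + e)) ∧
      RelP (wf M F) (pw C₁ (t + K)) (K + 2) x := by
  obtain ⟨A1, hA1⟩ := es_mass
  obtain ⟨A2, hA2⟩ := rk_second
  obtain ⟨A3, hA3⟩ := rk_third
  obtain ⟨A4, hA4⟩ := rk_four
  obtain ⟨A5, hA5⟩ := rk_five
  obtain ⟨A7, hA7⟩ := rk_seven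
  refine ⟨14 + e, 2 * (14 + e), (A1 + A2 + A3 + A4 + A5 + A7) * (3 * (14 + e) + 5), ?_⟩
  intro t K R V M _ _ _ _ _ _ q φ F S B hq hR hRR hF hB hβB hγ hmain
  obtain ⟨C', hC'⟩ : ∃ C', C' = A1 + A2 + A3 + A4 + A5 + A7 := ⟨_, rfl⟩
  rw [← hC'] at hRR
  have hhs := rk2p_h e t K
  have hRb : ∀ C, C ≤ C' →
      pw C (rk M + pw (2 * (14 + e)) (t + K) + pw (14 + e) (t + K)) ≤ R :=
    fun C hC => (rk2p_R hC).trans hRR
  have hRa : ∀ C, C ≤ C' → pw C (rk M + pw (2 * (14 + e)) (t + K)) ≤ R :=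
    fun C hC => (pw_mono C (by omega)).trans (hRb C hC)
  have hDh := rk2p_D (14 + e) (t + K)
  obtain ⟨h, hh⟩ : ∃ h, h = pw (14 + e) (t + K) := ⟨_, rfl⟩
  obtain ⟨D, hD⟩ : ∃ D, D = pw (2 * (14 + e)) (t + K) := ⟨_, rfl⟩
  rw [← hD, ← hh] at hDh hRb
  rw [← hD] at hRa
  rw [← hh] at hhs
  rw [← hD, ← hh]
  refine ⟨by omega, ?_⟩
  have hh48 : 48 ≤ h := by omega
  have hDh' : 48 * h ≤ D := by
    rw [hDh]
    exact Nat.mul_le_mul_right _ hh48
  have hD2 : 2 ≤ D := by omega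
  obtain ⟨s, hs⟩ : ∃ s, s = K + t + 12 + e := ⟨_, rfl⟩
  rw [← hs] at hhs
  rw [← hs]
  -- the five moment bounds
  have m1 := hA1 D R V M q φ hq hR hD2 (hRa _ (by omega))
  have m2 := hA2 D R V M q φ F hq hR hD2 (hRa _ (by omega)) hF
  have m3 := hA3 D R V M q φ S hq hR hD2 (hRa _ (by omega))
  have m4 := hA4 D R V M q φ F S hq hR hD2 (hRa _ (by omega)) hF
  have m5 := hA5 h D R V M q φ F hq hR hD2 (hRb _ (by omega)) hF
  have m7 := hA7 h (K + 2) D R V M q φ (wf M F) hq hR hD2 (hRb _ (by omega))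
    (fun y => rk2p_wf_nonneg F y) (fun y => rk2p_wf_le hF y)
  obtain ⟨β, hβ⟩ : ∃ β, β = av (wf M F) := ⟨_, rfl⟩
  obtain ⟨γ, hγ'⟩ : ∃ γ, γ = dn S := ⟨_, rfl⟩
  rw [← hγ'] at hγ hmain m3 ⊢
  rw [← hβ] at hβB m2
  rw [abs_le] at m1 m4
  have ht0 : (0 : ℝ) < (1 / 2) ^ t := by positivity
  have hB0 : 0 < B := ht0.trans_le hB
  have hγ0 : 0 < γ := ht0.trans_le hγ
  have he0 : (0 : ℝ) < e := by exact_mod_cast he
  have he1 : (1 : ℝ) ≤ e := by exact_mod_cast he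
  have heD : (1 / 2 : ℝ) ^ D ≤ 1 / 64 := by
    calc (1 / 2 : ℝ) ^ D ≤ (1 / 2) ^ 6 :=
          pow_le_pow_of_le_one (by norm_num) (by norm_num) (by omega)
      _ = 1 / 64 := by norm_num
  have heD0 : (0 : ℝ) < (1 / 2) ^ D := by positivity
  by_contra hcon
  push Not at hcon
  -- the main comparison
  have hc0 : 0 < B ^ 2 * γ := by positivity
  have hcomp : ES q D (fun y x => XD F S y x) ≤
      (1 + 1 / (2 * (e : ℝ))) * B ^ 2 * γ * ES q D (fun _ _ => 1) +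
      (1024 * e) ^ 2 / B ^ 2 * ES q D (fun y x => (dn (FD F y x) - β) ^ 2) +
      (1024 * e) ^ 2 / γ ^ 2 * ES q D (fun _ x => (dn (SD S x) - γ) ^ 2) +
      2 ^ (4 * s) * ES q D (fun y x => UD M F h y x) +
      ES q D (fun _ x => ind {x : Fin D → V | ¬ RelP (wf M F) h (K + 2) x} x) := by
    rw [← rk2p_es_mul, ← rk2p_es_mul, ← rk2p_es_mul, ← rk2p_es_mul, ← rk2p_es_add,
      ← rk2p_es_add, ← rk2p_es_add, ← rk2p_es_add]
    refine rk2p_es_mono q D _ _ fun y x hz => ?_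
    have n0 : 0 ≤ (1 + 1 / (2 * (e : ℝ))) * B ^ 2 * γ := by positivity
    have n1 : 0 ≤ (1024 * (e : ℝ)) ^ 2 / B ^ 2 * (dn (FD F y x) - β) ^ 2 := by positivity
    have n2 : 0 ≤ (1024 * (e : ℝ)) ^ 2 / γ ^ 2 * (dn (SD S x) - γ) ^ 2 := by positivity
    have n3 : 0 ≤ 2 ^ (4 * s) * UD M F h y x :=
      mul_nonneg (by positivity) (rk2p_UD_nonneg F h y x)
    have n4 := ind_nonneg {x : Fin D → V | ¬ RelP (wf M F) h (K + 2) x} x
    have hX := rk2p_XD_le F S y x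
    by_cases c1 : dn (FD F y x) ≤ B + B / (1024 * e)
    swap
    · rw [not_le] at c1
      have c2 : B / (1024 * e) ≤ dn (FD F y x) - β := by linarith
      have c3 : (B / (1024 * e)) ^ 2 ≤ (dn (FD F y x) - β) ^ 2 :=
        pow_le_pow_left₀ (by positivity) c2 2
      have c4 : 1 ≤ (1024 * (e : ℝ)) ^ 2 / B ^ 2 * (dn (FD F y x) - β) ^ 2 := by
        calc (1 : ℝ) = (1024 * (e : ℝ)) ^ 2 / B ^ 2 * (B / (1024 * e)) ^ 2 := by
              field_simp
          _ ≤ _ := mul_le_mul_of_nonneg_left c3 (by positivity)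
      linarith
    by_cases c5 : |dn (SD S x) - γ| ≤ γ / (1024 * e)
    swap
    · rw [not_le] at c5
      have c3 : (γ / (1024 * e)) ^ 2 ≤ (dn (SD S x) - γ) ^ 2 := by
        rw [← sq_abs (dn (SD S x) - γ)]
        exact pow_le_pow_left₀ (by positivity) c5.le 2
      have c4 : 1 ≤ (1024 * (e : ℝ)) ^ 2 / γ ^ 2 * (dn (SD S x) - γ) ^ 2 := by
        calc (1 : ℝ) = (1024 * (e : ℝ)) ^ 2 / γ ^ 2 * (γ / (1024 * e)) ^ 2 := by
              field_simp
          _ ≤ _ := mul_le_mul_of_nonneg_left c3 (by positivity)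
      linarith
    by_cases c6 : (1 + 1 / (2 * (e : ℝ))) * B ^ 2 * γ ≤ XD F S y x
    swap
    · rw [not_le] at c6
      linarith
    by_cases c7 : UD M F h y x ≤ (1 / 2) ^ (4 * s)
    swap
    · rw [not_le] at c7
      have c4 : 1 ≤ 2 ^ (4 * s) * UD M F h y x := by
        calc (1 : ℝ) = 2 ^ (4 * s) * (1 / 2) ^ (4 * s) := by
              rw [← mul_pow]
              norm_num
          _ ≤ _ := mul_le_mul_of_nonneg_left c7.le (by positivity)
      linarith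
    have c8 := hcon y x hz c1 c5 c6 c7
    have c9 : ind {x : Fin D → V | ¬ RelP (wf M F) h (K + 2) x} x = 1 := ind_pos c8
    linarith
  -- numerical bounds
  have hinv : 0 < 1 / (e : ℝ) := by positivity
  have hhalf : 1 / (2 * (e : ℝ)) = 1 / e / 2 := by field_simp
  have hhh : 48 * h ≤ h * h := Nat.mul_le_mul_right _ hh48
  have T2 := rk2p_num2 (e := e) hB0 hB (by omega) m2
  have T3 := rk2p_num2 (e := e) hγ0 hγ (by omega) m3
  have T4 := rk2p_num4 (e := e) (t := t) (s := s) (by omega) (by omega) m5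
  have T5 := rk2p_num5 (e := e) (t := t) (by
    have h2 : 4 * (K + 2) + 40 ≤ h := by omega
    have h3 : 4 * (3 * t + e + 9) ≤ 3 * h := by omega
    rw [hDh]
    nlinarith) m7
  have htarget := rk2p_num6 he hB hγ
  have T1 : (17 + 3) * (1 / 2 : ℝ) ^ D ≤ (1 / 2) ^ (3 * t + e + 4) := by
    calc (17 + 3) * (1 / 2 : ℝ) ^ D ≤ 2 ^ 5 * (1 / 2) ^ D :=
          mul_le_mul_of_nonneg_right (by norm_num) heD0.le
      _ ≤ (1 / 2) ^ (3 * t + e + 4) := rk2p_pow_le (by omega)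
  have hES1 : ES q D (fun y x => XD F S y x) ≤ ES q D (fun _ _ => 1) :=
    rk2p_es_mono q D _ _ fun y x _ => rk2p_XD_le F S y x
  clear hcon m2 m3 m5 m7 hRa hRb hA1 hA2 hA3 hA4 hA5 hA7
  generalize ES q D (fun y x => XD F S y x) = X0 at *
  generalize ES q D (fun _ _ => (1 : ℝ)) = X1 at *
  generalize av (fun x => ind S x * cor (wf M F) (wf M F) x) = X2 at *
  have hbd : B ^ 2 * γ ≤ 2 := by
    have h1 : 0 ≤ 1 / (e : ℝ) * (B ^ 2 * γ) := by positivity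
    have h2 : (1 + 1 / (e : ℝ)) * B ^ 2 * γ = B ^ 2 * γ + 1 / (e : ℝ) * (B ^ 2 * γ) := by ring
    linarith
  have hθ0 : (0 : ℝ) < (1 / 2) ^ (3 * t + e + 4) := by positivity
  have hinv1 : 1 / (e : ℝ) ≤ 1 := by
    rw [div_le_one he0]
    exact he1
  have g1 : (1 + 1 / (e : ℝ)) * B ^ 2 * γ = B ^ 2 * γ + 2 * (1 / (2 * (e : ℝ)) * B ^ 2 * γ) := by
    rw [hhalf]
    ring
  have g2 : (1 + 1 / (2 * (e : ℝ))) * B ^ 2 * γ * X1 ≤
      B ^ 2 * γ + 1 / (2 * (e : ℝ)) * B ^ 2 * γ + 3 * (1 / 2) ^ D := by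
    have g3 : (1 + 1 / (2 * (e : ℝ))) * B ^ 2 * γ ≤ 3 := by
      rw [hhalf]
      nlinarith
    have g4 : 0 ≤ (1 + 1 / (2 * (e : ℝ))) * B ^ 2 * γ := by positivity
    have g5 : (1 + 1 / (2 * (e : ℝ))) * B ^ 2 * γ * X1 ≤
        (1 + 1 / (2 * (e : ℝ))) * B ^ 2 * γ * (1 + (1 / 2) ^ D) :=
      mul_le_mul_of_nonneg_left (by linarith) g4
    have g6 : (1 + 1 / (2 * (e : ℝ))) * B ^ 2 * γ * (1 / 2) ^ D ≤ 3 * (1 / 2) ^ D :=
      mul_le_mul_of_nonneg_right g3 heD0.le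
    have g7 : (1 + 1 / (2 * (e : ℝ))) * B ^ 2 * γ * (1 + (1 / 2) ^ D) =
        B ^ 2 * γ + 1 / (2 * (e : ℝ)) * B ^ 2 * γ +
          (1 + 1 / (2 * (e : ℝ))) * B ^ 2 * γ * (1 / 2) ^ D := by ring
    linarith
  linarith

end G2
end

section

/-!
# Job RK4: the relative Kelley-Meka increments
-/

set_option autoImplicit false

open Module

namespace G2

theorem Conc.mono {V : Type} [AddCommGroup V] [Module (ZMod 2) V] [Finite V] {f : V → ℝ}
    {θ θ' : ℝ} {K K' h h' : ℕ} (hc : Conc f θ K h) (hθ : θ' ≤ θ) (hK : K ≤ K') (hh : h ≤ h') :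
    Conc f θ' K' h' := by
  obtain ⟨d, hd, l, s, hl, h1, h2⟩ := hc
  refine ⟨d, hd.trans hK, l, s, hl, hθ.trans h1, fun j => le_trans ?_ (h2 j)⟩
  exact pow_le_pow_of_le_one (by norm_num) (by norm_num) hh

/-- polynomial bounds for the parameters -/
private theorem rk4_bounds (A C₁ C₃ : ℕ) : ∃ C : ℕ, (∀ t, pw A (t + 1) ≤ pw C t) ∧
    (∀ t, pw C₁ (t + pw A (t + 1)) ≤ pw C t) ∧ (∀ r t, pw C₃ (r + t + pw A (t + 1)) ≤
      pw C (r + t)) := by
  have h0 : PB (fun t => t + 1) := PB.id.add (PB.const 1)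
  have h1 : PB (fun t => pw A (t + 1)) := PB.comp (PB.pw A) h0
  have h2 : PB (fun t => t + pw A (t + 1)) := PB.id.add h1
  have h3 : PB (fun t => pw C₁ (t + pw A (t + 1))) := PB.comp (PB.pw C₁) h2
  have h4 : PB (fun t => pw C₃ (t + pw A (t + 1))) := PB.comp (PB.pw C₃) h2
  obtain ⟨c1, hc1⟩ := h1
  obtain ⟨c2, hc2⟩ := h3
  obtain ⟨c3, hc3⟩ := h4
  refine ⟨max c1 (max c2 c3), fun t => ?_, fun t => ?_, fun r t => ?_⟩
  · exact (hc1 t).trans (pw_mono_left (le_max_left _ _) t)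
  · exact (hc2 t).trans (pw_mono_left ((le_max_left _ _).trans (le_max_right _ _)) t)
  · refine le_trans ?_ ((hc3 (r + t)).trans
      (pw_mono_left ((le_max_right _ _).trans (le_max_right _ _)) (r + t)))
    apply pw_mono
    have : pw A (t + 1) ≤ pw A (r + t + 1) := pw_mono A (by omega)
    omega

/-- the loss in `rk_conc` -/
private theorem rk4_loss {e K t : ℕ} (he : 1 ≤ e) {B : ℝ} (hB : (1 / 2 : ℝ) ^ t ≤ B) :
    2 * 2 ^ K * (1 / 2 : ℝ) ^ (K + t + 12 + e) ≤ B / (2048 * e) := by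
  have he0 : (0 : ℝ) < e := by exact_mod_cast he
  have hB0 : 0 < B := lt_of_lt_of_le (by positivity) hB
  have h1 : (2 : ℝ) * 2 ^ K * (1 / 2 : ℝ) ^ (K + t + 12 + e) =
      (1 / 2 : ℝ) ^ t * ((1 / 2 : ℝ) ^ 11 * (1 / 2 : ℝ) ^ e) := by
    have e1 : (2 : ℝ) ^ K * (1 / 2 : ℝ) ^ K = 1 := by
      rw [← mul_pow]
      norm_num
    have e2 : (1 / 2 : ℝ) ^ (K + t + 12 + e) =
        (1 / 2 : ℝ) ^ K * ((1 / 2 : ℝ) ^ t * ((1 / 2 : ℝ) ^ 12 * (1 / 2 : ℝ) ^ e)) := by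
      rw [pow_add, pow_add, pow_add]
      ring
    rw [e2]
    calc (2 : ℝ) * 2 ^ K * ((1 / 2 : ℝ) ^ K * ((1 / 2 : ℝ) ^ t * ((1 / 2 : ℝ) ^ 12 *
          (1 / 2 : ℝ) ^ e)))
        = ((2 : ℝ) ^ K * (1 / 2 : ℝ) ^ K) * ((1 / 2 : ℝ) ^ t * ((2 * (1 / 2 : ℝ) ^ 12) *
          (1 / 2 : ℝ) ^ e)) := by ring
      _ = _ := by rw [e1, one_mul]; norm_num
  have h2 : (1 / 2 : ℝ) ^ e ≤ 1 / e := by
    rw [one_div_pow, one_div_le_one_div (by positivity) he0]
    exact_mod_cast (Nat.lt_two_pow_self (n := e)).le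
  rw [h1]
  calc (1 / 2 : ℝ) ^ t * ((1 / 2 : ℝ) ^ 11 * (1 / 2 : ℝ) ^ e)
      ≤ B * ((1 / 2 : ℝ) ^ 11 * (1 / e)) := by
        apply mul_le_mul hB _ (by positivity) hB0.le
        exact mul_le_mul_of_nonneg_left h2 (by positivity)
    _ = B / (2048 * e) := by
        field_simp
        norm_num

/-- (RKM-).  `K = pw C_A (t + 1)` with `C_A` from `akm_neg (4e)`.  Take the sample of
`rk_sample_neg`; `dn FD ≥ β/2 ≥ 2^(-t-1)`, `dn SD ≥ 2^(-t-1)` and
`XD ≤ (1-1/(2e)) β² γ ≤ (1-1/(4e)) (dn FD)² dn SD`.  `akm_neg` gives a coset with density at least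
`(1+1/(64e)) dn FD ≥ (1+1/(64e)) (1-1/(1024e)) β`; conclude with `rk_conc`, `s = K+t+12+e`:
the loss is `2 · 2^K 2^(-s) ≤ 2^(-t) 2^(-11) / e`. -/
theorem rkm_neg (e : ℕ) (he : 1 ≤ e) : ∃ C : ℕ, ∀ (t R : ℕ) (V M : Type)
    [AddCommGroup V] [Module (ZMod 2) V] [Finite V] [AddCommGroup M] [Module (ZMod 2) M]
    [Finite M] (q : V → M) (φ : Bil V M) (F S : Set V), IsQ q φ → HR φ R →
    pw C (rk M + t) ≤ R → (∀ y ∈ F, q y = 0) → (1 / 2 : ℝ) ^ t ≤ av (wf M F) →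
    (1 / 2 : ℝ) ^ t ≤ dn S →
    av (fun x => ind S x * cor (wf M F) (wf M F) x) ≤
      (1 - 1 / (e : ℝ)) * av (wf M F) ^ 2 * dn S →
    Conc (wf M F) ((1 + 1 / (128 * (e : ℝ))) * av (wf M F)) (pw C t) (pw C t) := by
  obtain ⟨A, hA⟩ := akm_neg (4 * e) (by omega)
  obtain ⟨C₁, C₂, C₃, hsam⟩ := rk_sample_neg e he
  obtain ⟨C, hC1, hC2, hC3⟩ := rk4_bounds A C₁ C₃
  refine ⟨C, ?_⟩
  intro t R V M _ _ _ _ _ _ q φ F S hq hR hCR hF hβ hγ hcor
  have he0 : (0 : ℝ) < e := by exact_mod_cast he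
  have he1 : (1 : ℝ) ≤ e := by exact_mod_cast he
  obtain ⟨β, hβdef⟩ : ∃ β : ℝ, β = av (wf M F) := ⟨_, rfl⟩
  obtain ⟨K, hK⟩ : ∃ K : ℕ, K = pw A (t + 1) := ⟨_, rfl⟩
  obtain ⟨hs, y, x, hpt, hFD, hSD, hXD, hUD, hrel⟩ := hsam t K R V M q φ F S hq hR
    (by rw [hK]; exact (hC3 (rk M) t).trans hCR) hF hβ hγ hcor
  rw [← hβdef] at hβ hFD hXD ⊢
  obtain ⟨D, hD⟩ : ∃ D : ℕ, D = pw C₂ (t + K) := ⟨_, rfl⟩
  have hβ0 : 0 < β := lt_of_lt_of_le (by positivity) hβ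
  have hγ0 : 0 < dn S := lt_of_lt_of_le (by positivity) hγ
  obtain ⟨u, hu⟩ : ∃ u : ℝ, u = 1 / (e : ℝ) := ⟨_, rfl⟩
  have hu0 : 0 < u := by rw [hu]; positivity
  have hu1 : u ≤ 1 := by rw [hu, div_le_one he0]; exact he1
  have e1024 : ∀ z : ℝ, z / (1024 * e) = z * (u / 1024) := fun z => by rw [hu]; field_simp
  rw [e1024] at hFD hSD
  have hFD1 := (abs_le.mp hFD).1
  have hSD1 := (abs_le.mp hSD).1
  have hFDl : β * (1 - u / 1024) ≤ dn (FD F y x) := by linarith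
  have hSDl : dn S * (1 - u / 1024) ≤ dn (SD S x) := by linarith
  have hhalf : (1 / 2 : ℝ) ≤ 1 - u / 1024 := by linarith
  have hF2 : (1 / 2 : ℝ) ^ (t + 1) ≤ dn (FD F y x) := by
    rw [pow_succ]
    exact (mul_le_mul hβ hhalf (by norm_num) hβ0.le).trans hFDl
  have hS2 : (1 / 2 : ℝ) ^ (t + 1) ≤ dn (SD S x) := by
    rw [pow_succ]
    exact (mul_le_mul hγ hhalf (by norm_num) hγ0.le).trans hSDl
  have hFD0 : 0 < dn (FD F y x) := lt_of_lt_of_le (by positivity) hF2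
  have hX : av (fun z => ind (SD S x) z * cor (ind (FD F y x)) (ind (FD F y x)) z) ≤
      (1 - 1 / ((4 * e : ℕ) : ℝ)) * dn (FD F y x) ^ 2 * dn (SD S x) := by
    have h1 : av (fun z => ind (SD S x) z * cor (ind (FD F y x)) (ind (FD F y x)) z) =
      XD F S y x := rfl
    rw [h1]
    refine hXD.trans ?_
    have h2 : (1 : ℝ) - 1 / ((4 * e : ℕ) : ℝ) = 1 - u / 4 := by
      rw [hu]
      push_cast
      field_simp
    have h3 : (1 : ℝ) - 1 / (2 * (e : ℝ)) = 1 - u / 2 := by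
      rw [hu]
      field_simp
    rw [h2, h3]
    have h4 : (β * (1 - u / 1024)) ^ 2 ≤ dn (FD F y x) ^ 2 :=
      pow_le_pow_left₀ (by nlinarith) hFDl 2
    have h5 : (β * (1 - u / 1024)) ^ 2 * (dn S * (1 - u / 1024)) ≤
        dn (FD F y x) ^ 2 * dn (SD S x) :=
      mul_le_mul h4 hSDl (by nlinarith) (by positivity)
    have h6 : (1 - u / 2) ≤ (1 - u / 4) * (1 - u / 1024) ^ 3 := by
      have h7 : 1 - 3 * (u / 1024) ≤ (1 - u / 1024) ^ 3 := by
        nlinarith [sq_nonneg (u / 1024), mul_nonneg hu0.le (sq_nonneg u)]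
      have h8 : (1 - u / 4) * (1 - 3 * (u / 1024)) ≤ (1 - u / 4) * (1 - u / 1024) ^ 3 :=
        mul_le_mul_of_nonneg_left h7 (by linarith)
      nlinarith
    have h7 : 0 ≤ β ^ 2 * dn S := by positivity
    calc (1 - u / 2) * β ^ 2 * dn S = (1 - u / 2) * (β ^ 2 * dn S) := by ring
      _ ≤ ((1 - u / 4) * (1 - u / 1024) ^ 3) * (β ^ 2 * dn S) :=
          mul_le_mul_of_nonneg_right h6 h7
      _ = (1 - u / 4) * ((β * (1 - u / 1024)) ^ 2 * (dn S * (1 - u / 1024))) := by ring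
      _ ≤ (1 - u / 4) * (dn (FD F y x) ^ 2 * dn (SD S x)) :=
          mul_le_mul_of_nonneg_left h5 (by linarith)
      _ = _ := by ring
  obtain ⟨W, b, hW, hWd⟩ := hA (t + 1) _ (FD F y x) (SD S x) hF2 hS2 hX
  rw [← hK, Module.finrank_fin_fun] at hW
  have hconc := rk_conc M F _ K _ _ hs y x hUD hrel W b hW _ hWd
  refine Conc.mono hconc ?_ (by rw [hK]; exact hC1 t) (by rw [hK]; exact hC2 t)
  have hloss := rk4_loss (K := K) he hβ
  have h1 : (1 : ℝ) + 1 / (16 * ((4 * e : ℕ) : ℝ)) = 1 + u / 64 := by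
    rw [hu]
    push_cast
    field_simp
    ring
  have h2 : (1 : ℝ) + 1 / (128 * (e : ℝ)) = 1 + u / 128 := by
    rw [hu]
    field_simp
  have h3 : β / (2048 * e) = β * (u / 2048) := by
    rw [hu]
    field_simp
  rw [h3] at hloss
  rw [h1, h2]
  have h4 : (1 + u / 64) * (β * (1 - u / 1024)) ≤ (1 + u / 64) * dn (FD F y x) :=
    mul_le_mul_of_nonneg_left hFDl (by linarith)
  have h5 : (1 + u / 128) + u / 2048 ≤ (1 + u / 64) * (1 - u / 1024) := by nlinarith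
  have h6 : ((1 + u / 128) + u / 2048) * β ≤ (1 + u / 64) * (1 - u / 1024) * β :=
    mul_le_mul_of_nonneg_right h5 hβ0.le
  linarith

/-- (RKM+).  `B' = (1 + 1/(1024e)) B`; `XD ≥ (1+1/(2e)) B² γ ≥ (1+1/(4e)) B'² dn SD`; `akm_pos (4e)`
gives a coset with density at least `(1+1/(64e)) B'`. -/
theorem rkm_pos (e : ℕ) (he : 1 ≤ e) : ∃ C : ℕ, ∀ (t R : ℕ) (V M : Type)
    [AddCommGroup V] [Module (ZMod 2) V] [Finite V] [AddCommGroup M] [Module (ZMod 2) M]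
    [Finite M] (q : V → M) (φ : Bil V M) (F S : Set V) (B : ℝ), IsQ q φ → HR φ R →
    pw C (rk M + t) ≤ R → (∀ y ∈ F, q y = 0) → (1 / 2 : ℝ) ^ t ≤ B → av (wf M F) ≤ B →
    (1 / 2 : ℝ) ^ t ≤ dn S →
    (1 + 1 / (e : ℝ)) * B ^ 2 * dn S ≤ av (fun x => ind S x * cor (wf M F) (wf M F) x) →
    Conc (wf M F) ((1 + 1 / (128 * (e : ℝ))) * B) (pw C t) (pw C t) := by
  obtain ⟨A, hA⟩ := akm_pos (4 * e) (by omega)
  obtain ⟨C₁, C₂, C₃, hsam⟩ := rk_sample_pos e he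
  obtain ⟨C, hC1, hC2, hC3⟩ := rk4_bounds A C₁ C₃
  refine ⟨C, ?_⟩
  intro t R V M _ _ _ _ _ _ q φ F S B hq hR hCR hF hB hβB hγ hcor
  have he0 : (0 : ℝ) < e := by exact_mod_cast he
  have he1 : (1 : ℝ) ≤ e := by exact_mod_cast he
  obtain ⟨K, hK⟩ : ∃ K : ℕ, K = pw A (t + 1) := ⟨_, rfl⟩
  obtain ⟨hs, y, x, hpt, hFD, hSD, hXD, hUD, hrel⟩ := hsam t K R V M q φ F S B hq hR
    (by rw [hK]; exact (hC3 (rk M) t).trans hCR) hF hB hβB hγ hcor
  have hB0 : 0 < B := lt_of_lt_of_le (by positivity) hB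
  have hγ0 : 0 < dn S := lt_of_lt_of_le (by positivity) hγ
  obtain ⟨u, hu⟩ : ∃ u : ℝ, u = 1 / (e : ℝ) := ⟨_, rfl⟩
  have hu0 : 0 < u := by rw [hu]; positivity
  have hu1 : u ≤ 1 := by rw [hu, div_le_one he0]; exact he1
  have e1024 : ∀ z : ℝ, z / (1024 * e) = z * (u / 1024) := fun z => by rw [hu]; field_simp
  rw [e1024] at hFD hSD
  have hSD1 := (abs_le.mp hSD).1
  have hSD2 := (abs_le.mp hSD).2
  have hSDl : dn S * (1 - u / 1024) ≤ dn (SD S x) := by linarith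
  have hSDu : dn (SD S x) ≤ dn S * (1 + u / 1024) := by linarith
  have hhalf : (1 / 2 : ℝ) ≤ 1 - u / 1024 := by linarith
  obtain ⟨B', hB'⟩ : ∃ B' : ℝ, B' = B * (1 + u / 1024) := ⟨_, rfl⟩
  have hBB' : B ≤ B' := by
    rw [hB']
    nlinarith
  have hB2 : (1 / 2 : ℝ) ^ (t + 1) ≤ B' := by
    rw [pow_succ]
    have : (1 / 2 : ℝ) ^ t * (1 / 2) ≤ B * 1 := mul_le_mul hB (by norm_num) (by norm_num) hB0.le
    linarith
  have hFB : dn (FD F y x) ≤ B' := by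
    rw [hB']
    linarith
  have hS2 : (1 / 2 : ℝ) ^ (t + 1) ≤ dn (SD S x) := by
    rw [pow_succ]
    exact (mul_le_mul hγ hhalf (by norm_num) hγ0.le).trans hSDl
  have hX : (1 + 1 / ((4 * e : ℕ) : ℝ)) * B' ^ 2 * dn (SD S x) ≤
      av (fun z => ind (SD S x) z * cor (ind (FD F y x)) (ind (FD F y x)) z) := by
    have h1 : av (fun z => ind (SD S x) z * cor (ind (FD F y x)) (ind (FD F y x)) z) =
      XD F S y x := rfl
    rw [h1]
    refine le_trans ?_ hXD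
    have h2 : (1 : ℝ) + 1 / ((4 * e : ℕ) : ℝ) = 1 + u / 4 := by
      rw [hu]
      push_cast
      field_simp
    have h3 : (1 : ℝ) + 1 / (2 * (e : ℝ)) = 1 + u / 2 := by
      rw [hu]
      field_simp
    rw [h2, h3, hB']
    have h6 : (1 + u / 4) * (1 + u / 1024) ^ 3 ≤ 1 + u / 2 := by
      have h7 : (1 + u / 1024) ^ 3 ≤ 1 + 4 * (u / 1024) := by
        nlinarith [sq_nonneg (u / 1024), mul_nonneg hu0.le (sq_nonneg u),
          mul_nonneg hu0.le (sub_nonneg.mpr hu1)]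
      have h8 : (1 + u / 4) * (1 + u / 1024) ^ 3 ≤ (1 + u / 4) * (1 + 4 * (u / 1024)) :=
        mul_le_mul_of_nonneg_left h7 (by linarith)
      nlinarith
    have h7 : 0 ≤ B ^ 2 * dn S := by positivity
    calc (1 + u / 4) * (B * (1 + u / 1024)) ^ 2 * dn (SD S x)
        ≤ (1 + u / 4) * (B * (1 + u / 1024)) ^ 2 * (dn S * (1 + u / 1024)) :=
          mul_le_mul_of_nonneg_left hSDu (by positivity)
      _ = ((1 + u / 4) * (1 + u / 1024) ^ 3) * (B ^ 2 * dn S) := by ring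
      _ ≤ (1 + u / 2) * (B ^ 2 * dn S) := mul_le_mul_of_nonneg_right h6 h7
      _ = _ := by ring
  obtain ⟨W, b, hW, hWd⟩ := hA (t + 1) _ (FD F y x) (SD S x) B' hB2 hFB hS2 hX
  rw [← hK, Module.finrank_fin_fun] at hW
  have hconc := rk_conc M F _ K _ _ hs y x hUD hrel W b hW _ hWd
  refine Conc.mono hconc ?_ (by rw [hK]; exact hC1 t) (by rw [hK]; exact hC2 t)
  have hloss := rk4_loss (K := K) he hB
  have h1 : (1 : ℝ) + 1 / (16 * ((4 * e : ℕ) : ℝ)) = 1 + u / 64 := by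
    rw [hu]
    push_cast
    field_simp
    ring
  have h2 : (1 : ℝ) + 1 / (128 * (e : ℝ)) = 1 + u / 128 := by
    rw [hu]
    field_simp
  have h3 : B / (2048 * e) = B * (u / 2048) := by
    rw [hu]
    field_simp
  rw [h3] at hloss
  rw [h1, h2]
  have h4 : (1 + u / 64) * B ≤ (1 + u / 64) * B' := mul_le_mul_of_nonneg_left hBB' (by linarith)
  have h5 : (1 + u / 128) + u / 2048 ≤ 1 + u / 64 := by linarith
  have h6 : ((1 + u / 128) + u / 2048) * B ≤ (1 + u / 64) * B :=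
    mul_le_mul_of_nonneg_right h5 hB0.le
  linarith

end G2
end
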