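import Pool.Agent.Lib.MP_f4f4db_co.G2.PF3
import Pool.Agent.Lib.MP_f4f4db_co.G2.Akm
import Pool.Agent.Lib.MP_f4f4db_co.G2.GC2b
import Pool.Agent.Lib.MP_f4f4db_co.G2.RK4
import Pool.Agent.Lib.MP_f4f4db_co.G2.CO4
import Pool.Agent.Lib.MP_f4f4db_co.G2.DAd
import Pool.Agent.Lib.MP_f4f4db_co.G2.DA3
import Pool.Agent.Lib.MP_f4f4db_co.EHcompl

section

/-!
# Job PF4: a function with large additive energy is linear on a large set
-/

set_option autoImplicit false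

open Module

namespace G2

theorem pf4_nc_set {α : Type} [Fintype α] (P : α → Prop) [DecidablePred P] :
    nc {w | P w} = ((Finset.univ.filter P).card : ℝ) := by
  rw [nc, Nat.card_eq_fintype_card, Fintype.card_subtype]
  rfl

theorem pf4_d3 {V : Type} [Finite V] (P : V → V → V → Prop) :
    d3 P = dn {p : V × V × V | P p.1 p.2.1 p.2.2} := by
  rw [d3, dn, av_prod]
  congr 1
  funext a
  rw [av_prod]

open Classical in
/-- `bsg_two` and `pfr_two` combined, for a family of additive quadruples indexed by a finset -/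
theorem pf4_gen : ∃ C : ℕ, ∀ (t : ℕ) (G ι : Type) [AddCommGroup G] [Module (ZMod 2) G] [Finite G]
    (X : Finset G) (T : Finset ι) (f : ι → G × G × G), X.Nonempty → Set.InjOn f T →
    (∀ p ∈ T, (f p).1 ∈ X ∧ (f p).2.1 ∈ X ∧ (f p).2.2 ∈ X ∧ (f p).1 + (f p).2.1 + (f p).2.2 ∈ X) →
    (1 / 2 : ℝ) ^ t * (X.card : ℝ) ^ 3 ≤ (T.card : ℝ) →
    ∃ X' ⊆ X, (1 / 2 : ℝ) ^ t / 8 * X.card ≤ X'.card ∧ X'.Nonempty ∧
      ∃ (W : Submodule (ZMod 2) G) (x : G), nc W ≤ (2 ^ (22 + 10 * t)) ^ C * X'.card ∧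
        (X'.card : ℝ) ≤ (2 ^ (22 + 10 * t)) ^ C * nc {y : G | y ∈ X' ∧ y + x ∈ W} := by
  obtain ⟨C, hC⟩ := pfr_two
  refine ⟨C, ?_⟩
  intro t G ι _ _ _ X T f hXne hinj hmem hT
  let _ : Fintype G := Fintype.ofFinite G
  have hδ0 : (0 : ℝ) < (1 / 2) ^ t := by positivity
  have hδ1 : (1 / 2 : ℝ) ^ t ≤ 1 := pow_le_one₀ (by norm_num) (by norm_num)
  obtain ⟨X', hX'sub, hX'card, hX'ne, hX'dbl⟩ := bsg_two X ((1 / 2) ^ t) hδ0 hδ1 hXne (by
    refine le_trans hT ?_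
    apply (Nat.cast_le (α := ℝ)).mpr
    refine Finset.card_le_card_of_injOn f ?_ hinj
    intro p hp
    obtain ⟨h1, h2, h3, h4⟩ := hmem p (Finset.mem_coe.mp hp)
    apply Finset.mem_coe.mpr
    rw [Finset.mem_filter, Finset.mem_product, Finset.mem_product]
    exact ⟨⟨h1, h2, h3⟩, h4⟩)
  have hK0 : (2 : ℝ) ^ 22 / ((1 / 2) ^ t) ^ 10 = 2 ^ (22 + 10 * t) := by
    rw [one_div, inv_pow, inv_pow, div_inv_eq_mul, ← pow_mul, ← pow_add]
    congr 1
    ring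
  rw [hK0] at hX'dbl
  have hK1 : (1 : ℝ) ≤ 2 ^ (22 + 10 * t) := one_le_pow₀ (by norm_num)
  obtain ⟨W, x, hW, hX'⟩ := hC G X' (2 ^ (22 + 10 * t)) hX'ne hK1 hX'dbl
  refine ⟨X', hX'sub, hX'card, hX'ne, W, x, hW, ?_⟩
  have : nc {y : G | y ∈ X' ∧ y + x ∈ W} = ((X'.filter fun y => y + x ∈ W).card : ℝ) := by
    rw [pf4_nc_set]
    congr 2
    ext y
    simp
  rw [this]
  exact hX'

/-- Apply `bsg_two` and `pfr_two` to the graph `X = {(w, Γ w) : w ∈ Ω}` in `V × H`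
(`|X| = |Ω| ≤ |V|`; the hypothesis says that `X` has at least `2^(-t) |V|^3 ≥ 2^(-t) |X|^3` additive
quadruples, and it implies `|X|^3 ≥ 2^(-t) |V|^3`), then `graph_linear`. -/
theorem pf_main : ∃ C : ℕ, ∀ (t : ℕ) (V H : Type) [AddCommGroup V] [Module (ZMod 2) V] [Finite V]
    [AddCommGroup H] [Module (ZMod 2) H] [Finite H] (Γ : V → H) (Ω : Set V),
    (1 / 2 : ℝ) ^ t ≤ d3 (fun a b c => (a ∈ Ω ∧ b ∈ Ω ∧ c ∈ Ω ∧ a + b + c ∈ Ω) ∧
      Γ a + Γ b + Γ c + Γ (a + b + c) = 0) →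
    ∃ (Λ : V →ₗ[ZMod 2] H) (c : H), (1 / 2 : ℝ) ^ pw C t ≤ dn {w | w ∈ Ω ∧ Γ w = Λ w + c} := by
  classical
  obtain ⟨C, hC⟩ := pf4_gen
  have hPB : PB (fun t => 2 * t + 3 + 3 * C * (22 + 10 * t)) :=
    PB.add (PB.add (PB.mul (PB.const 2) PB.id) (PB.const 3))
      (PB.mul (PB.const (3 * C)) (PB.add (PB.const 22) (PB.mul (PB.const 10) PB.id)))
  obtain ⟨C', hC'⟩ := hPB
  refine ⟨C', ?_⟩
  intro t V H _ _ _ _ _ _ Γ Ω hd
  let _ : Fintype V := Fintype.ofFinite V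
  let _ : Fintype H := Fintype.ofFinite H
  obtain ⟨S, hS⟩ : ∃ S : Finset V, S = Finset.univ.filter (· ∈ Ω) := ⟨_, rfl⟩
  have hSmem : ∀ w, w ∈ S ↔ w ∈ Ω := by intro w; simp [hS]
  obtain ⟨X, hX⟩ : ∃ X : Finset (V × H), X = S.image (fun w => (w, Γ w)) := ⟨_, rfl⟩
  have hXmem : ∀ y : V × H, y ∈ X ↔ y.1 ∈ Ω ∧ y.2 = Γ y.1 := by
    intro y
    rw [hX, Finset.mem_image]
    constructor
    · rintro ⟨w, hw, rfl⟩
      exact ⟨(hSmem w).1 hw, rfl⟩
    · rintro ⟨h1, h2⟩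
      exact ⟨y.1, (hSmem _).2 h1, Prod.ext rfl h2.symm⟩
  have hXcard : X.card = S.card := by
    rw [hX]
    exact Finset.card_image_of_injective _ (fun a b hab => (Prod.ext_iff.mp hab).1)
  obtain ⟨T, hT⟩ : ∃ T : Finset (V × V × V), T = Finset.univ.filter
      (fun p => (p.1 ∈ Ω ∧ p.2.1 ∈ Ω ∧ p.2.2 ∈ Ω ∧ p.1 + p.2.1 + p.2.2 ∈ Ω) ∧
        Γ p.1 + Γ p.2.1 + Γ p.2.2 + Γ (p.1 + p.2.1 + p.2.2) = 0) := ⟨_, rfl⟩
  have hTmem : ∀ p : V × V × V, p ∈ T ↔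
      (p.1 ∈ Ω ∧ p.2.1 ∈ Ω ∧ p.2.2 ∈ Ω ∧ p.1 + p.2.1 + p.2.2 ∈ Ω) ∧
        Γ p.1 + Γ p.2.1 + Γ p.2.2 + Γ (p.1 + p.2.1 + p.2.2) = 0 := by
    intro p
    simp only [hT, Finset.mem_filter, Finset.mem_univ, true_and]
  have hVpos : (0 : ℝ) < Fintype.card V := by exact_mod_cast Fintype.card_pos
  have hTcount : (1 / 2 : ℝ) ^ t * (Fintype.card V : ℝ) ^ 3 ≤ (T.card : ℝ) := by
    have h1 := hd
    rw [pf4_d3, dn_eq_card] at h1
    have h2 : (Nat.card {p : V × V × V | (p.1 ∈ Ω ∧ p.2.1 ∈ Ω ∧ p.2.2 ∈ Ω ∧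
        p.1 + p.2.1 + p.2.2 ∈ Ω) ∧ Γ p.1 + Γ p.2.1 + Γ p.2.2 + Γ (p.1 + p.2.1 + p.2.2) = 0} : ℝ) =
        (T.card : ℝ) := by
      rw [hT]
      exact pf4_nc_set _
    have h3 : (Nat.card (V × V × V) : ℝ) = (Fintype.card V : ℝ) ^ 3 := by
      rw [Nat.card_eq_fintype_card, Fintype.card_prod, Fintype.card_prod]
      push_cast
      ring
    rw [h2, h3, le_div_iff₀ (by positivity)] at h1
    exact h1
  have hTS : T.card ≤ S.card ^ 3 := by
    have : T ⊆ S ×ˢ S ×ˢ S := by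
      intro p hp
      obtain ⟨⟨h1, h2, h3, _⟩, _⟩ := (hTmem p).1 hp
      simp only [Finset.mem_product]
      exact ⟨(hSmem _).2 h1, (hSmem _).2 h2, (hSmem _).2 h3⟩
    refine (Finset.card_le_card this).trans (le_of_eq ?_)
    rw [Finset.card_product, Finset.card_product]
    ring
  have hδ0 : (0 : ℝ) < (1 / 2) ^ t := by positivity
  have hδ1 : (1 / 2 : ℝ) ^ t ≤ 1 := pow_le_one₀ (by norm_num) (by norm_num)
  have hSV : S.card ≤ Fintype.card V := Finset.card_le_univ S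
  have hSge : (1 / 2 : ℝ) ^ t * Fintype.card V ≤ S.card := by
    by_contra hcon
    push Not at hcon
    have h1 : (S.card : ℝ) ^ 3 < ((1 / 2 : ℝ) ^ t * Fintype.card V) ^ 3 :=
      pow_lt_pow_left₀ hcon (Nat.cast_nonneg _) (by norm_num)
    have h2 : (T.card : ℝ) ≤ (S.card : ℝ) ^ 3 := by exact_mod_cast hTS
    have h3 : ((1 / 2 : ℝ) ^ t * Fintype.card V) ^ 3 ≤
        (1 / 2 : ℝ) ^ t * (Fintype.card V : ℝ) ^ 3 := by
      rw [mul_pow]
      apply mul_le_mul_of_nonneg_right _ (by positivity)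
      exact pow_le_of_le_one hδ0.le hδ1 (by norm_num)
    linarith
  have hSpos : 0 < S.card := by
    have : (0 : ℝ) < S.card := lt_of_lt_of_le (mul_pos hδ0 hVpos) hSge
    exact_mod_cast this
  have hXne : X.Nonempty := by
    rw [← Finset.card_pos, hXcard]
    exact hSpos
  have h1V : (1 / 2 : ℝ) ^ t * (X.card : ℝ) ^ 3 ≤ (T.card : ℝ) := by
    have h1 : (X.card : ℝ) ^ 3 ≤ (Fintype.card V : ℝ) ^ 3 := by
      rw [hXcard]
      exact pow_le_pow_left₀ (Nat.cast_nonneg _) (by exact_mod_cast hSV) 3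
    exact le_trans (mul_le_mul_of_nonneg_left h1 hδ0.le) hTcount
  obtain ⟨X', hX'sub, hX'card, hX'ne, W, x, hW, hX'⟩ := hC t (V × H) (V × V × V) X T
    (fun p => ((p.1, Γ p.1), (p.2.1, Γ p.2.1), (p.2.2, Γ p.2.2))) hXne
    (by
      intro p _ p' _ hpp
      simp only [Prod.mk.injEq] at hpp
      obtain ⟨⟨h1, _⟩, ⟨h2, _⟩, ⟨h3, _⟩⟩ := hpp
      exact Prod.ext h1 (Prod.ext h2 h3))
    (by
      intro p hp
      obtain ⟨⟨h1, h2, h3, h4⟩, h5⟩ := (hTmem p).1 hp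
      exact ⟨(hXmem _).2 ⟨h1, rfl⟩, (hXmem _).2 ⟨h2, rfl⟩, (hXmem _).2 ⟨h3, rfl⟩,
        (hXmem _).2 ⟨h4, eq_of_add_eq_zero h5⟩⟩) h1V
  obtain ⟨N, hNdef⟩ : ∃ N : Finset V, N = Finset.univ.filter
    (fun w => w ∈ Ω ∧ (w, Γ w) + x ∈ W) := ⟨_, rfl⟩
  have hNnc : nc {w | w ∈ Ω ∧ (w, Γ w) + x ∈ W} = (N.card : ℝ) := by
    rw [hNdef]
    exact pf4_nc_set _
  have hfilt : nc {y : V × H | y ∈ X' ∧ y + x ∈ W} ≤ (N.card : ℝ) := by
    rw [pf4_nc_set]
    have : (Finset.univ.filter fun y : V × H => y ∈ X' ∧ y + x ∈ W).card ≤ N.card := by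
      refine Finset.card_le_card_of_injOn Prod.fst ?_ ?_
      · intro y hy
        obtain ⟨_, hy1, hy2⟩ := Finset.mem_filter.mp (Finset.mem_coe.mp hy)
        obtain ⟨h1, h2⟩ := (hXmem y).1 (hX'sub hy1)
        apply Finset.mem_coe.mpr
        rw [hNdef, Finset.mem_filter]
        refine ⟨Finset.mem_univ _, h1, ?_⟩
        rw [← h2]
        exact hy2
      · intro y hy y' hy' hyy
        obtain ⟨_, hy1, _⟩ := Finset.mem_filter.mp (Finset.mem_coe.mp hy)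
        obtain ⟨_, hy1', _⟩ := Finset.mem_filter.mp (Finset.mem_coe.mp hy')
        have h2 := ((hXmem y).1 (hX'sub hy1)).2
        have h2' := ((hXmem y').1 (hX'sub hy1')).2
        exact Prod.ext hyy (by rw [h2, h2', hyy])
    exact_mod_cast this
  obtain ⟨B, hB⟩ : ∃ B : ℝ, B = (2 ^ (22 + 10 * t)) ^ C := ⟨_, rfl⟩
  have hBpos : 0 < B := by rw [hB]; positivity
  rw [← hB] at hW hX'
  have hX'N : (X'.card : ℝ) ≤ B * N.card :=
    hX'.trans (mul_le_mul_of_nonneg_left hfilt hBpos.le)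
  have hX'pos : (0 : ℝ) < X'.card := by exact_mod_cast hX'ne.card_pos
  have hNpos : (0 : ℝ) < N.card := by
    by_contra hcon
    have : (N.card : ℝ) ≤ 0 := not_lt.mp hcon
    nlinarith
  have hNne : {w | w ∈ Ω ∧ (w, Γ w) + x ∈ W}.Nonempty := by
    have : 0 < N.card := by exact_mod_cast hNpos
    obtain ⟨w, hw⟩ := Finset.card_pos.mp this
    rw [hNdef, Finset.mem_filter] at hw
    exact ⟨w, hw.2⟩
  have hWN : nc W ≤ (B * B) * nc {w | w ∈ Ω ∧ (w, Γ w) + x ∈ W} := by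
    rw [hNnc]
    calc nc W ≤ B * X'.card := hW
      _ ≤ B * (B * N.card) := mul_le_mul_of_nonneg_left hX'N hBpos.le
      _ = _ := by ring
  obtain ⟨Λ, c, hΛ⟩ := graph_linear Γ Ω W x (B * B) hNne hWN
  refine ⟨Λ, c, ?_⟩
  rw [hNnc] at hΛ
  rw [dn_eq_card]
  have hVcard : (Nat.card V : ℝ) = Fintype.card V := by rw [Nat.card_eq_fintype_card]
  rw [hVcard, le_div_iff₀ hVpos]
  change _ ≤ nc {w | w ∈ Ω ∧ Γ w = Λ w + c}
  -- chain of inequalities
  obtain ⟨R, hR⟩ : ∃ R : ℝ, R = nc {w | w ∈ Ω ∧ Γ w = Λ w + c} := ⟨_, rfl⟩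
  rw [← hR] at hΛ ⊢
  have hchain : (1 / 2 : ℝ) ^ t / 8 * ((1 / 2 : ℝ) ^ t * Fintype.card V) ≤ B * (B * B * R) := by
    calc (1 / 2 : ℝ) ^ t / 8 * ((1 / 2 : ℝ) ^ t * Fintype.card V)
        ≤ (1 / 2 : ℝ) ^ t / 8 * S.card := mul_le_mul_of_nonneg_left hSge (by positivity)
      _ = (1 / 2 : ℝ) ^ t / 8 * X.card := by rw [hXcard]
      _ ≤ X'.card := hX'card
      _ ≤ B * N.card := hX'N
      _ ≤ B * (B * B * R) := mul_le_mul_of_nonneg_left hΛ hBpos.le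
  have hB3 : B * (B * B) = 2 ^ (3 * C * (22 + 10 * t)) := by
    rw [hB, ← pow_mul, ← pow_add, ← pow_add]
    congr 1
    ring
  have hexp := hC' t
  simp only [] at hexp
  have hfin : (1 / 2 : ℝ) ^ pw C' t ≤ (1 / 2) ^ (2 * t + 3 + 3 * C * (22 + 10 * t)) :=
    pow_le_pow_of_le_one (by norm_num) (by norm_num) hexp
  have h8 : (1 / 2 : ℝ) ^ (2 * t + 3 + 3 * C * (22 + 10 * t)) *
      2 ^ (3 * C * (22 + 10 * t)) = (1 / 2) ^ t / 8 * (1 / 2) ^ t := by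
    rw [pow_add (1 / 2 : ℝ) (2 * t + 3), mul_assoc, ← mul_pow]
    norm_num
    rw [pow_add, pow_mul', sq]
    norm_num
    ring
  have hpow : (0 : ℝ) < 2 ^ (3 * C * (22 + 10 * t)) := by positivity
  have h9 : (1 / 2 : ℝ) ^ (2 * t + 3 + 3 * C * (22 + 10 * t)) * Fintype.card V ≤ R := by
    rw [← mul_le_mul_iff_right₀ hpow]
    calc 2 ^ (3 * C * (22 + 10 * t)) *
          ((1 / 2 : ℝ) ^ (2 * t + 3 + 3 * C * (22 + 10 * t)) * Fintype.card V)
        = ((1 / 2 : ℝ) ^ (2 * t + 3 + 3 * C * (22 + 10 * t)) *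
          2 ^ (3 * C * (22 + 10 * t))) * Fintype.card V := by ring
      _ = (1 / 2) ^ t / 8 * ((1 / 2) ^ t * Fintype.card V) := by rw [h8]; ring
      _ ≤ B * (B * B * R) := hchain
      _ = (B * (B * B)) * R := by ring
      _ = 2 ^ (3 * C * (22 + 10 * t)) * R := by rw [hB3]
  exact (mul_le_mul_of_nonneg_right hfin hVpos.le).trans h9

end G2
end

section

/-!
# Job BA3: the base case, assembly
-/

set_option autoImplicit false

open Module

namespace G2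

private theorem ba3_hr_fst {V M L : Type} [AddCommGroup V] [Module (ZMod 2) V] [Finite V]
    [AddCommGroup M] [Module (ZMod 2) M] [AddCommGroup L] [Module (ZMod 2) L] {φ : Bil V M}
    {Φ : Bil V L} {R : ℕ} (h : HR (cmb φ Φ) R) : HR φ R := by
  intro a ha
  have h1 := h (a.comp (LinearMap.fst (ZMod 2) M L)) (by
    intro h0
    apply ha
    ext m
    have := congrArg (fun f : Du (M × L) => f (m, 0)) h0
    simpa using this)
  simpa [cmb] using h1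

private theorem ba3_nc_prod (M L : Type) : nc (M × L) = nc M * nc L := by
  unfold nc
  rw [Nat.card_prod]
  push_cast
  ring

private theorem ba3_rk_prod (M L : Type) [AddCommGroup M] [Module (ZMod 2) M] [Finite M]
    [AddCommGroup L] [Module (ZMod 2) L] [Finite L] : rk (M × L) = rk M + rk L :=
  Module.finrank_prod

private theorem ba3_two_pow (t N a : ℕ) {y : ℝ} (h : 2 ≤ y ^ a) (hN : N = a * (2 * t + 1)) :
    (2 : ℝ) ^ (2 * t) ≤ y ^ N := by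
  rw [hN, pow_mul y a]
  calc (2 : ℝ) ^ (2 * t) ≤ 2 ^ (2 * t + 1) := pow_le_pow_right₀ (by norm_num) (by omega)
    _ ≤ _ := pow_le_pow_left₀ (by norm_num) h _

/-- the numerical comparison of moments -/
private theorem ba3_num (t : ℕ) {β : ℝ} (hβ : 0 ≤ β) :
    (1 + 1 / 2 ^ 12) ^ (2 ^ 13 * (2 * t + 1)) *
        ((1 + 1 / 2 ^ 21) * β) ^ (2 * (2 ^ 13 * (2 * t + 1))) ≤
      ((1 + 1 / 2 ^ 10) * β ^ 2) ^ (2 ^ 13 * (2 * t + 1)) * (1 / 2 : ℝ) ^ (2 * t) := by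
  obtain ⟨N, hN⟩ : ∃ N : ℕ, N = 2 ^ 13 * (2 * t + 1) := ⟨_, rfl⟩
  rw [← hN]
  have h1 : (1 + 1 / 2 ^ 13 : ℝ) ^ N * ((1 + 1 / 2 ^ 12) * ((1 + 1 / 2 ^ 21) * β) ^ 2) ^ N ≤
      ((1 + 1 / 2 ^ 10) * β ^ 2) ^ N := by
    rw [← mul_pow]
    refine pow_le_pow_left₀ (by positivity) ?_ N
    have h2 : (1 + 1 / 2 ^ 13 : ℝ) * ((1 + 1 / 2 ^ 12) * (1 + 1 / 2 ^ 21) ^ 2) ≤ 1 + 1 / 2 ^ 10 := by
      norm_num
    calc (1 + 1 / 2 ^ 13 : ℝ) * ((1 + 1 / 2 ^ 12) * ((1 + 1 / 2 ^ 21) * β) ^ 2)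
        = ((1 + 1 / 2 ^ 13 : ℝ) * ((1 + 1 / 2 ^ 12) * (1 + 1 / 2 ^ 21) ^ 2)) * β ^ 2 := by ring
      _ ≤ (1 + 1 / 2 ^ 10) * β ^ 2 := mul_le_mul_of_nonneg_right h2 (by positivity)
  have h3 : (2 : ℝ) ^ (2 * t) ≤ (1 + 1 / 2 ^ 13) ^ N := by
    have h4 : (2 : ℝ) ≤ (1 + 1 / 2 ^ 13) ^ (2 ^ 13) := by
      have := one_add_mul_le_pow (a := (1 / 2 ^ 13 : ℝ)) (by norm_num) (2 ^ 13)
      refine le_trans ?_ this
      norm_num
    exact ba3_two_pow t N (2 ^ 13) h4 hN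
  have h5 : (0 : ℝ) ≤ ((1 + 1 / 2 ^ 12) * ((1 + 1 / 2 ^ 21) * β) ^ 2) ^ N := by positivity
  have h6 : (1 + 1 / 2 ^ 12 : ℝ) ^ N * ((1 + 1 / 2 ^ 21) * β) ^ (2 * N) =
      ((1 + 1 / 2 ^ 12) * ((1 + 1 / 2 ^ 21) * β) ^ 2) ^ N := by
    rw [mul_pow (1 + 1 / 2 ^ 12 : ℝ), pow_mul ((1 + 1 / 2 ^ 21) * β) 2 N]
  have h7 : (1 / 2 : ℝ) ^ (2 * t) = 1 / 2 ^ (2 * t) := by rw [div_pow, one_pow]
  rw [h6, h7, mul_one_div, le_div_iff₀ (by positivity), mul_comm]
  exact (mul_le_mul_of_nonneg_right h3 h5).trans h1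

/-- the final numerical losses -/
private theorem ba3_fin1 {β a : ℝ} (hβ : 0 ≤ β) (ha : (1 + 1 / 2 ^ 21) * β ≤ a) :
    (1 + 1 / 2 ^ 22) * β ≤ (1 - (1 / 2) ^ 23) * a := by
  have h1 : (1 + 1 / 2 ^ 22 : ℝ) ≤ (1 - (1 / 2) ^ 23) * (1 + 1 / 2 ^ 21) := by norm_num
  calc (1 + 1 / 2 ^ 22) * β ≤ ((1 - (1 / 2) ^ 23) * (1 + 1 / 2 ^ 21)) * β :=
        mul_le_mul_of_nonneg_right h1 hβ
    _ = (1 - (1 / 2) ^ 23) * ((1 + 1 / 2 ^ 21) * β) := by ring
    _ ≤ _ := mul_le_mul_of_nonneg_left ha (by norm_num)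

private theorem ba3_fin2 {β : ℝ} (hβ : 0 ≤ β) :
    (1 + 1 / 2 ^ 22) * β ≤ (1 - (1 / 2) ^ 24) * ((1 + 1 / 2 ^ 20) * ((1 + 1 / 2 ^ 21) * β)) := by
  have h1 : (1 + 1 / 2 ^ 22 : ℝ) ≤ (1 - (1 / 2) ^ 24) * ((1 + 1 / 2 ^ 20) * (1 + 1 / 2 ^ 21)) := by
    norm_num
  calc (1 + 1 / 2 ^ 22) * β ≤ ((1 - (1 / 2) ^ 24) * ((1 + 1 / 2 ^ 20) * (1 + 1 / 2 ^ 21))) * β :=
        mul_le_mul_of_nonneg_right h1 hβ
    _ = _ := by ring

/-- Let `B = (1 + 2^(-21)) β`.  If `av (wf M F1) > B` or `av (wf M F2) > B`: `ic_self`.  Otherwise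
choose `Ψ` by `exists_quadratic`.  `dn_lift` with `θ = (1 + 2^(-10)) β²`:
`cor f̃₁ f̃₂ ≥ (1 + 2^(-10)) β² ≥ (1 + 2^(-11)) B²` on a set of density `γ ≥ 2^(-2t)`; with
`N = 2^13 (2t + 1)`: `E (f̃₁ ∘ f̃₂)^N ≥ γ (1 + 2^(-11))^N B^(2N) ≥ (1 + 2^(-12))^N B^(2N)`
(`(1 + 2^(-11))/(1 + 2^(-12)) ≥ 1 + 2^(-13)`, Bernoulli); `moment_cs` gives the same lower bound for
`f̃₁ ∘ f̃₁` or `f̃₂ ∘ f̃₂`; `popular_of_moment`, then `rkm_pos` with `e = 2^13` (the factor is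
`1 + 2^(-20)`), then `ic_of_lift1` or `ic_of_lift2`.  Finally
`(1 - 2^(-t')) (1 + 2^(-20)) B ≥ (1 + 2^(-22)) β`. (`β ≤ 2`: if `β > 2` then `Gd` is impossible,
because the averages are at most `2` by `fibre_nu_le`; or treat `β > 2` directly.) -/
theorem base_case : ∃ C : ℕ, ∀ (t R : ℕ) (V M L : Type) [AddCommGroup V] [Module (ZMod 2) V]
    [Finite V] [AddCommGroup M] [Module (ZMod 2) M] [Finite M] [AddCommGroup L]
    [Module (ZMod 2) L] [Finite L] (D : Dat V M L) (β : ℝ), HR (cmb D.φ D.Φ) R →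
    pw C (rk M + t) ≤ R → rk L ≤ t → (∀ x, D.Φ x x = 0) → (1 / 2 : ℝ) ^ t ≤ β → β ≤ 2 →
    (1 / 2 : ℝ) ^ t ≤ dn {w | D.Gd ((1 + 1 / 2 ^ 10) * β ^ 2) w} →
    ∃ r', r' ≤ rk M + pw C t ∧
      (IC D.F1 ((1 + 1 / 2 ^ 22) * β) (rk V) r' ∨ IC D.F2 ((1 + 1 / 2 ^ 22) * β) (rk V) r') := by
  obtain ⟨C₁, hself⟩ := ic_self
  obtain ⟨C₂, hpop⟩ := popular_of_moment
  obtain ⟨C₃, hrkm⟩ := rkm_pos (2 ^ 13) (by norm_num)
  obtain ⟨C₄, hl1⟩ := ic_of_lift1
  obtain ⟨C₅, hl2⟩ := ic_of_lift2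
  -- the parameters
  obtain ⟨fN, hfN⟩ : ∃ fN : ℕ → ℕ, ∀ t, fN t = 2 ^ 13 * (2 * t + 1) := ⟨_, fun _ => rfl⟩
  obtain ⟨fT, hfT⟩ : ∃ fT : ℕ → ℕ, ∀ t, fT t = (2 * t + 1) * fN t + 1 := ⟨_, fun _ => rfl⟩
  obtain ⟨fK, hfK⟩ : ∃ fK : ℕ → ℕ, ∀ t, fK t = pw C₃ (fT t) := ⟨_, fun _ => rfl⟩
  have pN : PB fN := PB.mono ((PB.const (2 ^ 13)).mul
    ((PB.mul (PB.const 2) PB.id).add (PB.const 1))) fun t => (hfN t).le
  have pT : PB fT := PB.mono (((((PB.mul (PB.const 2) PB.id).add (PB.const 1)).mul pN)).add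
    (PB.const 1)) fun t => (hfT t).le
  have pK : PB fK := PB.mono (PB.comp (PB.pw C₃) pT) fun t => (hfK t).le
  have p1 : PB fun s => pw C₁ (s + 23) := PB.comp (PB.pw C₁) (PB.id.add (PB.const 23))
  have p2 : PB fun s => pw C₂ (s + s + fN s) :=
    PB.comp (PB.pw C₂) ((PB.id.add PB.id).add pN)
  have p3 : PB fun s => pw C₃ (s + fT s) := PB.comp (PB.pw C₃) (PB.id.add pT)
  have p4 : PB fun s => pw C₄ (s + 24 + fK s) :=
    PB.comp (PB.pw C₄) ((PB.id.add (PB.const 24)).add pK)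
  have p5 : PB fun s => pw C₅ (s + 24 + fK s) :=
    PB.comp (PB.pw C₅) ((PB.id.add (PB.const 24)).add pK)
  obtain ⟨C, hC⟩ : ∃ C : ℕ, ∀ s, pw C₁ (s + 23) + pw C₂ (s + s + fN s) + pw C₃ (s + fT s) +
      pw C₄ (s + 24 + fK s) + pw C₅ (s + 24 + fK s) + fK s ≤ pw C s :=
    ((((p1.add p2).add p3).add p4).add p5).add pK
  refine ⟨C, ?_⟩
  intro t R V M L _ _ _ _ _ _ _ _ _ D β hHR hR hL hΦ hβ hβ2 hGd
  have hβ0 : 0 < β := lt_of_lt_of_le (by positivity) hβ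
  have mN : ∀ {a b : ℕ}, a ≤ b → fN a ≤ fN b := by
    intro a b hab
    rw [hfN, hfN]
    omega
  have mT : ∀ {a b : ℕ}, a ≤ b → fT a ≤ fT b := by
    intro a b hab
    rw [hfT, hfT]
    exact Nat.add_le_add_right (Nat.mul_le_mul (by omega) (mN hab)) 1
  have mK : ∀ {a b : ℕ}, a ≤ b → fK a ≤ fK b := fun hab => by
    rw [hfK, hfK]
    exact pw_mono C₃ (mT hab)
  set s : ℕ := rk M + t with hs
  have hts : t ≤ s := by omega
  have hsum := (hC s).trans hR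
  have hKt : fK t ≤ pw C t := by
    have := hC t
    omega
  have hφ : HR D.φ R := ba3_hr_fst hHR
  have hrkML : rk (M × L) = rk M + rk L := ba3_rk_prod M L
  set B : ℝ := (1 + 1 / 2 ^ 21) * β with hB
  have hβB : β ≤ B := by
    rw [hB]
    have : (0 : ℝ) ≤ 1 / 2 ^ 21 * β := by positivity
    linarith
  have hB0 : 0 < B := lt_of_lt_of_le hβ0 hβB
  have hB4 : B ≤ 4 := by
    rw [hB]
    have h1 : (1 + 1 / 2 ^ 21 : ℝ) * β ≤ (1 + 1 / 2 ^ 21) * 2 :=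
      mul_le_mul_of_nonneg_left hβ2 (by positivity)
    refine h1.trans (by norm_num)
  -- dense sets
  rcases lt_or_ge B (av (wf M D.F1)) with h1 | h1
  · refine ⟨rk M, by omega, Or.inl ?_⟩
    refine (hself 23 R V M D.q1 D.φ D.F1 D.isQ1 hφ ?_ D.sub1 (hB0.trans h1)).mono
      (ba3_fin1 hβ0.le h1.le)
    have := pw_mono C₁ (show rk M + 23 ≤ s + 23 by omega)
    omega
  rcases lt_or_ge B (av (wf M D.F2)) with h2 | h2
  · refine ⟨rk M, by omega, Or.inr ?_⟩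
    refine (hself 23 R V M D.q2 D.φ D.F2 D.isQ2 hφ ?_ D.sub2 (hB0.trans h2)).mono
      (ba3_fin1 hβ0.le h2.le)
    have := pw_mono C₁ (show rk M + 23 ≤ s + 23 by omega)
    omega
  -- the lift
  obtain ⟨Ψ, hΨ⟩ := exists_quadratic D.Φ hΦ
  set f1 : V × L → ℝ := wf (M × L) (lF1 D Ψ) with hf1
  set f2 : V × L → ℝ := wf (M × L) (lF2 D Ψ) with hf2
  have wf0 : ∀ (F : Set (V × L)) (z : V × L), 0 ≤ wf (M × L) F z := fun F z =>
    mul_nonneg (nc_nonneg _) (ind_nonneg _ _)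
  set θ : ℝ := (1 + 1 / 2 ^ 10) * β ^ 2 with hθ
  have hθ0 : 0 ≤ θ := by positivity
  set N : ℕ := fN t with hN
  have hγ : (1 / 2 : ℝ) ^ (2 * t) ≤ dn {z : V × L | θ ≤ cor f1 f2 z} := by
    have h3 := hGd.trans (dn_lift D hΨ hθ0)
    have h4 : nc L ≤ 2 ^ t := by
      rw [nc_finrank]
      exact pow_le_pow_right₀ (by norm_num) hL
    have h5 : nc L * dn {z : V × L | θ ≤ cor f1 f2 z} ≤
        2 ^ t * dn {z : V × L | θ ≤ cor f1 f2 z} :=
      mul_le_mul_of_nonneg_right h4 (dn_nonneg _)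
    have h6 : (1 / 2 : ℝ) ^ t ≤ 2 ^ t * dn {z : V × L | θ ≤ cor f1 f2 z} := h3.trans h5
    have h7 : (1 / 2 : ℝ) ^ (2 * t) = (1 / 2) ^ t * (1 / 2) ^ t := by rw [two_mul, pow_add]
    have h8 : (1 / 2 : ℝ) ^ t * 2 ^ t = 1 := by rw [← mul_pow]; norm_num
    rw [h7]
    calc (1 / 2 : ℝ) ^ t * (1 / 2) ^ t
        ≤ (1 / 2) ^ t * (2 ^ t * dn {z : V × L | θ ≤ cor f1 f2 z}) :=
          mul_le_mul_of_nonneg_left h6 (by positivity)
      _ = ((1 / 2 : ℝ) ^ t * 2 ^ t) * dn {z : V × L | θ ≤ cor f1 f2 z} := by ring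
      _ = dn {z : V × L | θ ≤ cor f1 f2 z} := by rw [h8, one_mul]
  have hcor12 : ∀ z, 0 ≤ cor f1 f2 z := fun z =>
    av_nonneg fun y => mul_nonneg (wf0 _ _) (wf0 _ _)
  set X : ℝ := (1 + 1 / 2 ^ 12) ^ N * B ^ (2 * N) with hX
  have hX0 : 0 ≤ X := by positivity
  have hmom12 : X ≤ av fun z => cor f1 f2 z ^ N := by
    have h3 : θ ^ N * dn {z : V × L | θ ≤ cor f1 f2 z} ≤ av fun z => cor f1 f2 z ^ N := by
      rw [dn, ← av_mul_left]
      refine av_le_av fun z => ?_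
      by_cases hz : z ∈ {z : V × L | θ ≤ cor f1 f2 z}
      · rw [ind_pos hz, mul_one]
        exact pow_le_pow_left₀ hθ0 hz N
      · rw [ind_neg hz, mul_zero]
        exact pow_nonneg (hcor12 z) N
    have h4 : X ≤ θ ^ N * (1 / 2 : ℝ) ^ (2 * t) := by
      rw [hX, hN, hfN t]
      exact ba3_num t hβ0.le
    exact h4.trans ((mul_le_mul_of_nonneg_left hγ (by positivity)).trans h3)
  -- the key step
  have key : ∀ (q : V × L → M × L) (F : Set (V × L)),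
      IsQ q (pull (cmb D.φ D.Φ) (LinearMap.fst (ZMod 2) V L)) → (∀ z ∈ F, q z = 0) →
      av (wf (M × L) F) ≤ B →
      X ≤ (av fun z => cor (wf (M × L) F) (wf (M × L) F) z ^ N) →
      Conc (wf (M × L) F) ((1 + 1 / 2 ^ 20) * B) (fK t) (fK t) := by
    intro q F hq hF hFB hFX
    have hHR' := hr_lift (L := L) hHR
    have hfν : ∀ z, wf (M × L) F z ≤ nu q z := by
      intro z
      unfold wf nu
      exact mul_le_mul_of_nonneg_left (ind_mono (fun z hz => hF z hz) z) (nc_nonneg _)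
    have hpop' := hpop t N R (V × L) (M × L) q _ (wf (M × L) F) B hq hHR' (by
        have := pw_mono C₂ (show rk (M × L) + t + N ≤ s + s + fN s by
          rw [hrkML]
          have := mN hts
          omega)
        omega) (wf0 F) hfν (hβ.trans hβB) hB4 (by
        rw [hN, hfN]
        omega) hFX
    have hTt : (2 * t + 1) * N + 1 = fT t := (hfT t).symm
    rw [hTt] at hpop'
    have htT : t ≤ fT t := by
      have h4 : 1 ≤ fN t := by
        rw [hfN]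
        omega
      rw [hfT]
      nlinarith
    have hrkm' := hrkm (fT t) R (V × L) (M × L) q _ F
      {z | (1 + 1 / 2 ^ 13) * B ^ 2 ≤ cor (wf (M × L) F) (wf (M × L) F) z} B hq hHR' (by
        have := pw_mono C₃ (show rk (M × L) + fT t ≤ s + fT s by
          rw [hrkML]
          have := mT hts
          omega)
        omega) hF (by
        refine le_trans ?_ (hβ.trans hβB)
        exact pow_le_pow_of_le_one (by norm_num) (by norm_num) htT) hFB hpop' (by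
        rw [dn, ← av_mul_left]
        refine av_le_av fun z => ?_
        by_cases hz : z ∈ {z | (1 + 1 / 2 ^ 13) * B ^ 2 ≤
            cor (wf (M × L) F) (wf (M × L) F) z}
        · rw [ind_pos hz, mul_one, one_mul]
          have hz' : (1 + 1 / 2 ^ 13) * B ^ 2 ≤ cor (wf (M × L) F) (wf (M × L) F) z := hz
          have e1 : (1 : ℝ) / ((2 ^ 13 : ℕ) : ℝ) = 1 / 2 ^ 13 := by norm_num
          rw [e1]
          exact hz'
        · rw [ind_neg hz, mul_zero, zero_mul])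
    have e : (1 + 1 / (128 * ((2 ^ 13 : ℕ) : ℝ))) * B = (1 + 1 / 2 ^ 20) * B := by
      norm_num
    rw [e, ← hfK t] at hrkm'
    exact hrkm'
  have hcs := moment_cs f1 f2 N
  have hor : X ≤ (av fun z => cor f1 f1 z ^ N) ∨ X ≤ (av fun z => cor f2 f2 z ^ N) := by
    by_contra hcon
    push Not at hcon
    obtain ⟨ha, hb⟩ := hcon
    have hXX : X ^ 2 ≤ (av fun z => cor f1 f2 z ^ N) ^ 2 := pow_le_pow_left₀ hX0 hmom12 2
    have h3 : 0 ≤ av fun z => cor f1 f1 z ^ N :=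
      av_nonneg fun z => pow_nonneg (av_nonneg fun y => mul_nonneg (wf0 _ _) (wf0 _ _)) N
    have h4 : 0 ≤ av fun z => cor f2 f2 z ^ N :=
      av_nonneg fun z => pow_nonneg (av_nonneg fun y => mul_nonneg (wf0 _ _) (wf0 _ _)) N
    have h5 : (av fun z => cor f1 f1 z ^ N) * (av fun z => cor f2 f2 z ^ N) < X * X :=
      mul_lt_mul'' ha hb h3 h4
    nlinarith
  have hRK : ∀ C' : ℕ, pw C' (rk M + rk L + 24 + fK t) ≤ pw C' (s + 24 + fK s) := fun C' =>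
    pw_mono C' (by
      have := mK hts
      omega)
  have hθ' : 0 < (1 + 1 / 2 ^ 20) * B := by positivity
  rcases hor with h3 | h3
  · have hc := key (lq1 D Ψ) (lF1 D Ψ) (isQ_lq1 D hΨ) (fun z hz => hz.2)
      (by rw [av_lF1]; exact h1) h3
    obtain ⟨r', hr', hic⟩ := hl1 24 R (fK t) (fK t) V M L D Ψ _ hΨ hHR (by
      have := hRK C₄
      omega) hθ' hc
    exact ⟨r', by omega, Or.inl (hic.mono (ba3_fin2 hβ0.le))⟩
  · have hc := key (lq2 D Ψ) (lF2 D Ψ) (isQ_lq2 D hΨ) (fun z hz => hz.2)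
      (by rw [av_lF2]; exact h2) h3
    obtain ⟨r', hr', hic⟩ := hl2 24 R (fK t) (fK t) V M L D Ψ _ hΨ hHR (by
      have := hRK C₅
      omega) hθ' hc
    exact ⟨r', by omega, Or.inr (hic.mono (ba3_fin2 hβ0.le))⟩

end G2
end

section

/-!
# Job ST3: linearisation
-/

set_option autoImplicit false

open Module

namespace G2

/-- the initial data -/
noncomputable def Dat.ini {V M L : Type} [AddCommGroup V] [Module (ZMod 2) V] [AddCommGroup M]
    [Module (ZMod 2) M] [AddCommGroup L] [Module (ZMod 2) L] {q : V → M} {φ : Bil V M}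
    (hq : IsQ q φ) {F : Set V} (hF : ∀ y ∈ F, q y = 0) (Φ : Bil V L) (c : V →ₗ[ZMod 2] L) :
    Dat V M L where
  φ := φ
  Φ := Φ
  q1 := q
  q2 := q
  δ := 0
  μ := c
  F1 := F
  F2 := F
  isQ1 := hq
  isQ2 := hq
  hδ := by intro y; simp
  sub1 := hF
  sub2 := hF

/-- If `Ξ w + C₁ ∘ φ(w) = Φ w + c` the conditions `(φ(w,y), Ξ_w y) = (m, z)` and
`(φ(w,y), Φ(w,y) + c y) = (m, z + C₁ m)` are equivalent. -/
theorem gd_of_fam {V M : Type} [AddCommGroup V] [Module (ZMod 2) V] [Finite V] [AddCommGroup M]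
    [Module (ZMod 2) M] [Finite M] {q : V → M} {φ : Bil V M} (hq : IsQ q φ) {F : Set V}
    (hF : ∀ y ∈ F, q y = 0) {d : ℕ} (Ξw : V →ₗ[ZMod 2] (Fin d → ZMod 2))
    (Cw : M →ₗ[ZMod 2] (Fin d → ZMod 2)) (Φ : Bil V (Fin d → ZMod 2))
    (c : V →ₗ[ZMod 2] (Fin d → ZMod 2)) (w : V) (h : Ξw + Cw.comp (φ w) = Φ w + c) (θ : ℝ)
    (hz : ∃ z : M × (Fin d → ZMod 2), (∃ y, ((φ w).prod Ξw) y = z) ∧
      θ * dn {y | ((φ w).prod Ξw) y = z} ≤
        av fun y => ind {y | ((φ w).prod Ξw) y = z} y * (nc M * (ind F y * ind F (y + w)))) :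
    (Dat.ini hq hF Φ c).Gd θ w := by
  obtain ⟨⟨m, ξ⟩, hy, hle⟩ := hz
  have key : ∀ y, (Dat.ini hq hF Φ c).T w y = (m, ξ + Cw m) ↔ ((φ w).prod Ξw) y = (m, ξ) := by
    intro y
    have h1 : (Φ w + c) y = Ξw y + Cw (φ w y) := by
      rw [← h]
      rfl
    have h2 : (Dat.ini hq hF Φ c).T w y = (φ w y, Ξw y + Cw (φ w y)) := by
      rw [← h1]
      simp only [Dat.T, Dat.ini, LinearMap.prod_apply, add_zero]
      rfl
    rw [h2, show ((φ w).prod Ξw) y = (φ w y, Ξw y) from rfl, Prod.mk_inj, Prod.mk_inj]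
    constructor
    · rintro ⟨h3, h4⟩
      refine ⟨h3, ?_⟩
      rw [h3] at h4
      exact add_right_cancel h4
    · rintro ⟨h3, h4⟩
      refine ⟨h3, ?_⟩
      rw [h3, h4]
  have hset : {y | (Dat.ini hq hF Φ c).T w y = (m, ξ + Cw m)} =
      {y | ((φ w).prod Ξw) y = (m, ξ)} := Set.ext fun y => key y
  refine ⟨(m, ξ + Cw m), ?_, ?_⟩
  · obtain ⟨y, hy⟩ := hy
    exact ⟨y, (key y).2 hy⟩
  · rw [hset]
    exact hle

/-- On the support of `f(y) f(y+w)` we have `φ(w,y) = q w + q 0`, so the phases `Ξ_w` and `Φ(w) + c`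
differ by a constant there. -/
theorem corr_of_fam {V M : Type} [AddCommGroup V] [Module (ZMod 2) V] [Finite V] [AddCommGroup M]
    [Module (ZMod 2) M] [Finite M] {q : V → M} {φ : Bil V M} (hq : IsQ q φ) {F : Set V}
    (hF : ∀ y ∈ F, q y = 0) {d : ℕ} (Ξw : V →ₗ[ZMod 2] (Fin d → ZMod 2))
    (Cw : M →ₗ[ZMod 2] (Fin d → ZMod 2)) (Φ : Bil V (Fin d → ZMod 2))
    (c : V →ₗ[ZMod 2] (Fin d → ZMod 2)) (w : V) (h : Ξw + Cw.comp (φ w) = Φ w + c) (j : Fin d) :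
    |av fun y => wf M F y * wf M F (y + w) * sg (Ξw y j)| =
      |av fun y => wf M F y * wf M F (y + w) * sg (Φ w y j + c y j)| := by
  have key : ∀ y, wf M F y * wf M F (y + w) * sg (Φ w y j + c y j) =
      sg (Cw (q w + q 0) j) * (wf M F y * wf M F (y + w) * sg (Ξw y j)) := by
    intro y
    by_cases h1 : y ∈ F
    · by_cases h2 : y + w ∈ F
      · have h3 := hq w y
        rw [add_comm w y, hF _ h2, hF _ h1, add_zero] at h3
        have h4 : φ w y = q w + q 0 := (eq_of_add_eq_zero h3.symm).symm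
        have h5 : (Φ w + c) y = Ξw y + Cw (φ w y) := by
          rw [← h]
          rfl
        have h6 : Φ w y j + c y j = Ξw y j + Cw (q w + q 0) j := by
          rw [← h4]
          exact congrFun h5 j
        rw [h6, sg_add]
        ring
      · have h3 : wf M F (y + w) = 0 := by
          rw [wf, ind_neg h2, mul_zero]
        rw [h3]
        ring
    · have h3 : wf M F y = 0 := by
        rw [wf, ind_neg h1, mul_zero]
      rw [h3]
      ring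
  simp only [key]
  rw [av_mul_left, abs_mul, abs_sg, one_mul]

/-- Steps (4), (5): `gc_main`, `co_main` and `pf_main` (for `H = V →ₗ L`,
`Γ w = Ξ w + (C₁ w) ∘ φ(w)`), then the two lemmas above. -/
theorem linearise : ∃ C : ℕ, ∀ (t d R : ℕ) (V M : Type) [AddCommGroup V] [Module (ZMod 2) V]
    [Finite V] [AddCommGroup M] [Module (ZMod 2) M] [Finite M] (q : V → M) (φ : Bil V M)
    (F : Set V) (hq : IsQ q φ) (hF : ∀ y ∈ F, q y = 0) (θ : ℝ) (Ω : Set V)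
    (Ξ : V → V →ₗ[ZMod 2] (Fin d → ZMod 2)), HR φ R → pw C (rk M + t) ≤ R → d ≤ t →
    Fam φ F t θ Ω Ξ →
    ∃ (Φ : Bil V (Fin d → ZMod 2)) (c : V →ₗ[ZMod 2] (Fin d → ZMod 2)),
      (1 / 2 : ℝ) ^ pw C t ≤ dn {w | (Dat.ini hq hF Φ c).Gd θ w} ∧
      ∀ j, (1 / 2 : ℝ) ^ pw C t ≤
        av fun w => (av fun y => wf M F y * wf M F (y + w) * sg (Φ w y j + c y j)) ^ 2 := by
  obtain ⟨C1, hC1⟩ := gc_main
  obtain ⟨C2, hC2⟩ := co_main
  obtain ⟨C3, hC3⟩ := pf_main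
  obtain ⟨C4, hC4⟩ : PB (fun t => pw C2 (t + pw C1 t)) :=
    (PB.pw C2).comp (PB.id.add (PB.pw C1))
  obtain ⟨C5, hC5⟩ : PB (fun t => pw C3 (pw C2 (pw C1 t)) + 2 * t) :=
    ((PB.pw C3).comp ((PB.pw C2).comp (PB.pw C1))).add ((PB.const 2).mul PB.id)
  refine ⟨C1 + C4 + C5, ?_⟩
  intro t d R V M _ _ _ _ _ _ q φ F hq hF θ Ω Ξ hHR hR hd hFam
  obtain ⟨hΩ, hw⟩ := hFam
  have hR1 : pw C1 (rk M + t) ≤ R := (pw_mono_left (by omega) _).trans hR
  have hgood := hC1 t d R V M q φ F Ω Ξ hq hHR hR1 hF hd hΩ (fun w hw' => (hw w hw').1)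
    (fun w hw' => (hw w hw').2.1)
  have hR2 : pw C2 (rk M + pw C1 t) ≤ R := by
    refine le_trans ?_ ((pw_mono_left (show C4 ≤ C1 + C4 + C5 by omega) _).trans hR)
    refine le_trans ?_ (hC4 (rk M + t))
    refine pw_mono C2 ?_
    have := pw_mono C1 (Nat.le_add_left t (rk M))
    omega
  obtain ⟨C₁, hC₁⟩ := hC2 (pw C1 t) R V M (Fin d → ZMod 2) φ Ω Ξ hHR hR2 hgood
  obtain ⟨Λ, c, hΛ⟩ := hC3 (pw C2 (pw C1 t)) V (V →ₗ[ZMod 2] (Fin d → ZMod 2))
    (fun a => Ξ a + (C₁ a).comp (φ a)) Ω hC₁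
  have hbig : pw C3 (pw C2 (pw C1 t)) + 2 * t ≤ pw (C1 + C4 + C5) t :=
    (hC5 t).trans (pw_mono_left (by omega) _)
  refine ⟨Λ, c, ?_, ?_⟩
  · refine le_trans (pow_le_pow_of_le_one (by norm_num) (by norm_num)
      (show pw C3 (pw C2 (pw C1 t)) ≤ pw (C1 + C4 + C5) t by omega)) (hΛ.trans ?_)
    refine dn_mono ?_
    rintro w ⟨hwΩ, hwΓ⟩
    exact gd_of_fam hq hF (Ξ w) (C₁ w) Λ c w hwΓ θ (hw w hwΩ).2.2
  · intro j
    have h1 : (1 / 2 : ℝ) ^ (2 * t) * dn {w | w ∈ Ω ∧ Ξ w + (C₁ w).comp (φ w) = Λ w + c} ≤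
        av fun w => (av fun y => wf M F y * wf M F (y + w) * sg (Λ w y j + c y j)) ^ 2 := by
      rw [dn, ← av_mul_left]
      refine av_le_av fun w => ?_
      by_cases h : w ∈ {w | w ∈ Ω ∧ Ξ w + (C₁ w).comp (φ w) = Λ w + c}
      · rw [ind_pos h, mul_one]
        obtain ⟨hwΩ, hwΓ⟩ := h
        have h2 := corr_of_fam hq hF (Ξ w) (C₁ w) Λ c w hwΓ j
        have h3 := (hw w hwΩ).2.1 j
        rw [h2] at h3
        rw [mul_comm 2 t, pow_mul, ← sq_abs (av _)]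
        exact pow_le_pow_left₀ (by positivity) h3 2
      · rw [ind_neg h, mul_zero]
        positivity
    refine le_trans ?_ h1
    calc (1 / 2 : ℝ) ^ pw (C1 + C4 + C5) t ≤ (1 / 2 : ℝ) ^ (pw C3 (pw C2 (pw C1 t)) + 2 * t) :=
          pow_le_pow_of_le_one (by norm_num) (by norm_num) hbig
      _ = (1 / 2 : ℝ) ^ (2 * t) * (1 / 2 : ℝ) ^ pw C3 (pw C2 (pw C1 t)) := by
          rw [pow_add, mul_comm]
      _ ≤ _ := mul_le_mul_of_nonneg_left hΛ (by positivity)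

end G2
end

section

/-!
# Job ST4b: the stage theorem
-/

set_option autoImplicit false

open Module

namespace G2

/-- The stage theorem: `exists_fam`, `linearise`, `exists_alt`, `dat_res` to the subspace `W`
(`θ = (1 + 2^(-9)) β² → (1 + 2^(-10) + 2^(-11)) β²`), `dat_reg` with `ρ` given by `base_case`
(`→ (1 + 2^(-10)) β²`), `base_case`, `IC.lift`.  `β = av (wf M F) ≤ av (nu q) ≤ 2`. -/
theorem stage : ∃ C : ℕ, ∀ (t R : ℕ) (V M : Type) [AddCommGroup V] [Module (ZMod 2) V]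
    [Finite V] [AddCommGroup M] [Module (ZMod 2) M] [Finite M] (q : V → M) (φ : Bil V M)
    (F : Set V), IsQ q φ → HR φ R → pw C (rk M + t) ≤ R → (∀ y ∈ F, q y = 0) →
    (1 / 2 : ℝ) ^ t ≤ av (wf M F) → (1 / 2 : ℝ) ^ t ≤ BM φ F →
    ∃ n' r', rk V ≤ n' + pw C (rk M + t) ∧ r' ≤ rk M + pw C t ∧
      IC F ((1 + 1 / 2 ^ 22) * av (wf M F)) n' r' := by
  obtain ⟨Cf, hCf⟩ := exists_fam
  obtain ⟨Cl, hCl⟩ := linearise
  obtain ⟨Ca, hCa⟩ := exists_alt
  obtain ⟨Cr, hCr⟩ := dat_res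
  obtain ⟨Cg, hCg⟩ := dat_reg
  obtain ⟨Cb, hCb⟩ := base_case
  -- parameters as functions of one variable
  obtain ⟨S1, hS1⟩ : ∃ f : ℕ → ℕ, ∀ u, f u = pw Cf u := ⟨_, fun _ => rfl⟩
  obtain ⟨S2, hS2⟩ : ∃ f : ℕ → ℕ, ∀ u, f u = pw Cl (S1 u) := ⟨_, fun _ => rfl⟩
  obtain ⟨S3, hS3⟩ : ∃ f : ℕ → ℕ, ∀ u, f u = pw Ca (S1 u + S2 u) := ⟨_, fun _ => rfl⟩
  obtain ⟨T1, hT1⟩ : ∃ f : ℕ → ℕ, ∀ u, f u = S1 u + S2 u + 2 * u + 13 := ⟨_, fun _ => rfl⟩
  obtain ⟨T3, hT3⟩ : ∃ f : ℕ → ℕ, ∀ u, f u = pw Cg (T1 u) + T1 u + u := ⟨_, fun _ => rfl⟩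
  obtain ⟨P, hP⟩ : ∃ f : ℕ → ℕ, ∀ u, f u = pw Cb (u + T3 u) := ⟨_, fun _ => rfl⟩
  have pS1 : PB S1 := (PB.pw Cf).mono fun u => (hS1 u).le
  have pS2 : PB S2 := ((PB.pw Cl).comp pS1).mono fun u => (hS2 u).le
  have pS3 : PB S3 := ((PB.pw Ca).comp (pS1.add pS2)).mono fun u => (hS3 u).le
  have pT1 : PB T1 := (((pS1.add pS2).add ((PB.const 2).mul PB.id)).add (PB.const 13)).mono
    fun u => (hT1 u).le
  have pT3 : PB T3 := ((((PB.pw Cg).comp pT1).add pT1).add PB.id).mono fun u => (hT3 u).le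
  have pP : PB P := ((PB.pw Cb).comp (PB.id.add pT3)).mono fun u => (hP u).le
  have pG : PB fun u => pw Cf u + (pw Cl (u + S1 u) + (pw Ca (u + (S1 u + S2 u)) +
      (pw Cr (u + T1 u + S3 u) + (pw Cg (u + T1 u + P u) + (S3 u + (u + 1)))))) := by
    refine (PB.pw Cf).add (((PB.pw Cl).comp (PB.id.add pS1)).add
      (((PB.pw Ca).comp (PB.id.add (pS1.add pS2))).add
      (((PB.pw Cr).comp ((PB.id.add pT1).add pS3)).add
      (((PB.pw Cg).comp ((PB.id.add pT1).add pP)).add (pS3.add (PB.id.add (PB.const 1)))))))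
  have pG2 : PB fun u => pw Cg (T1 u + P u) + S3 u :=
    ((PB.pw Cg).comp (pT1.add pP)).add pS3
  have pG3 : PB fun u => pw Cb (T3 u) := (PB.pw Cb).comp pT3
  obtain ⟨C1, hC1⟩ := pG
  obtain ⟨C2, hC2⟩ := pG2
  obtain ⟨C3, hC3⟩ := pG3
  refine ⟨Cf + C1 + C2 + C3, ?_⟩
  intro t R V M _ _ _ _ _ _ q φ F hq hφ hR hF hβ hBM
  set β : ℝ := av (wf M F) with hβdef
  set r : ℕ := rk M with hr
  obtain ⟨u, hu⟩ : ∃ u, u = r + t := ⟨_, rfl⟩
  have htu : t ≤ u := by omega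
  rw [← hu] at hR ⊢
  -- monotonicity
  have mS1 : S1 t ≤ S1 u := by rw [hS1, hS1]; exact pw_mono _ htu
  have mS2 : S2 t ≤ S2 u := by rw [hS2, hS2]; exact pw_mono _ mS1
  have mS3 : S3 t ≤ S3 u := by rw [hS3, hS3]; exact pw_mono _ (by omega)
  have mT1 : T1 t ≤ T1 u := by rw [hT1, hT1]; omega
  have mT3 : T3 t ≤ T3 u := by
    rw [hT3, hT3]
    have := pw_mono Cg mT1
    omega
  have mP : pw Cb (r + T3 t) ≤ P u := by rw [hP]; exact pw_mono _ (by omega)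
  have hG1 := (hC1 u).trans ((pw_mono_left (by omega : C1 ≤ Cf + C1 + C2 + C3) u).trans hR)
  simp only at hG1
  have c1 : pw Cf (r + t) ≤ R := by rw [← hu]; omega
  have c2 : pw Cl (r + S1 t) ≤ R := (pw_mono Cl (by omega : r + S1 t ≤ u + S1 u)).trans (by omega)
  have c3 : pw Ca (r + (S1 t + S2 t)) ≤ R :=
    (pw_mono Ca (by omega : r + (S1 t + S2 t) ≤ u + (S1 u + S2 u))).trans (by omega)
  have c4 : pw Cr (r + T1 t + S3 t) ≤ R :=
    (pw_mono Cr (by omega : r + T1 t + S3 t ≤ u + T1 u + S3 u)).trans (by omega)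
  have c5 : pw Cg (r + T1 t + pw Cb (r + T3 t)) ≤ R - S3 t := by
    have := pw_mono Cg (by omega : r + T1 t + pw Cb (r + T3 t) ≤ u + T1 u + P u)
    omega
  have c6 : S3 t ≤ R := by omega
  have c7 : r + 1 ≤ R := by omega
  have o1 : pw Cf t ≤ pw (Cf + C1 + C2 + C3) t := pw_mono_left (by omega) t
  have o2 : pw Cg (T1 t + pw Cb (r + T3 t)) + S3 t ≤ pw (Cf + C1 + C2 + C3) u := by
    have h1 := (hC2 u).trans (pw_mono_left (by omega : C2 ≤ Cf + C1 + C2 + C3) u)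
    have h2 := pw_mono Cg (by omega : T1 t + pw Cb (r + T3 t) ≤ T1 u + P u)
    simp only at h1
    omega
  have o3 : pw Cb (T3 t) ≤ pw (Cf + C1 + C2 + C3) t :=
    (hC3 t).trans (pw_mono_left (by omega : C3 ≤ Cf + C1 + C2 + C3) t)
  -- `β ≤ 2`
  have hβ0 : 0 < β := lt_of_lt_of_le (by positivity) hβ
  have hβ2 : β ≤ 2 := by
    have h1 : β ≤ av (nu q) := by
      rw [hβdef]
      refine av_le_av fun y => ?_
      unfold wf nu
      refine mul_le_mul_of_nonneg_left ?_ (nc_nonneg M)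
      by_cases hy : y ∈ F
      · rw [ind_pos hy, ind_pos (A := {y | q y = 0}) (hF y hy)]
      · rw [ind_neg hy]
        exact ind_nonneg _ _
    have h2 := av_nu hq hφ
    have h3 : er M 1 R ≤ (1 / 2 : ℝ) ^ 0 := er_le (by omega)
    rw [pow_zero] at h3
    have h4 := (abs_le.1 h2).2
    linarith
  rcases hCf t R V M q φ F hq hφ c1 hF hβ hBM with ⟨r', hr', hIC⟩ | ⟨d, Ω, Ξ, hd, hFam⟩
  · exact ⟨rk V, r', by omega, by omega, hIC⟩
  rw [← hS1] at hd hFam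
  obtain ⟨Φ, c, hGd, hcor⟩ := hCl (S1 t) d R V M q φ F hq hF _ Ω Ξ hφ c2 hd hFam
  rw [← hS2] at hGd hcor
  obtain ⟨W, hW, hWalt⟩ := hCa (S1 t + S2 t) d R V M q φ F Φ c hq hφ c3 (by omega) hF
    (fun j => le_trans (pow_le_pow_of_le_one (by norm_num) (by norm_num) (by omega)) (hcor j))
  rw [← hS3] at hW
  have hrkL : rk (Fin d → ZMod 2) = d := by simp [rk]
  have hWi : Function.Injective W.subtype := Subtype.val_injective
  have hβt : (1 / 2 : ℝ) ^ (2 * t) ≤ β ^ 2 := by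
    rw [mul_comm, pow_mul]
    exact pow_le_pow_left₀ (by positivity) hβ 2
  -- restriction to `W`
  obtain ⟨v, w₂, hres⟩ := hCr (T1 t) (S3 t) R V M (Fin d → ZMod 2) W (Dat.ini hq hF Φ c) W.subtype
    ((1 + 1 / 2 ^ 9) * β ^ 2) ((1 + 1 / 2 ^ 10 + 1 / 2 ^ 11) * β ^ 2) hWi hW hφ c4
    (by rw [hrkL, hT1]; omega) (by positivity)
    (by
      have e : (1 + 1 / 2 ^ 9) * β ^ 2 - (1 + 1 / 2 ^ 10 + 1 / 2 ^ 11) * β ^ 2 =
          (1 / 2) ^ 11 * β ^ 2 := by ring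
      rw [e]
      refine le_trans ?_ (mul_le_mul_of_nonneg_left hβt (by positivity))
      rw [← pow_add]
      exact pow_le_pow_of_le_one (by norm_num) (by norm_num) (by rw [hT1]; omega))
    (le_trans (pow_le_pow_of_le_one (by norm_num) (by norm_num) (by rw [hT1]; omega)) hGd)
  set D₀ : Dat V M (Fin d → ZMod 2) := Dat.ini hq hF Φ c with hD₀
  set D₁ : Dat W M (Fin d → ZMod 2) := D₀.res W.subtype v w₂ with hD₁
  have hφ1 : HR D₁.φ (R - S3 t) := HR.pull hφ W.subtype hWi hW c6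
  have halt1 : ∀ x, D₁.Φ x x = 0 := fun x => hWalt x x.2
  have hdn1 : (1 / 2 : ℝ) ^ T1 t ≤ dn {w | D₁.Gd ((1 + 1 / 2 ^ 10 + 1 / 2 ^ 11) * β ^ 2) w} := by
    refine le_trans ?_ hres
    have e : (1 + 1 / 2 ^ 9) * β ^ 2 - (1 + 1 / 2 ^ 10 + 1 / 2 ^ 11) * β ^ 2 =
          (1 / 2) ^ 11 * β ^ 2 := by ring
    have hnc : nc (Fin d → ZMod 2) = 2 ^ d := by
      rw [nc_finrank]
      simp
    rw [e, hnc, le_div_iff₀ (by positivity)]
    have h1 : (1 / 2 : ℝ) ^ T1 t * (4 * 2 ^ d) ≤ (1 / 2) ^ (S2 t + (11 + 2 * t)) := by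
      have h2 : (4 : ℝ) * 2 ^ d = 2 ^ (2 + d) := by rw [pow_add]; norm_num
      have h3 : (1 / 2 : ℝ) ^ T1 t ≤ (1 / 2) ^ ((S2 t + (11 + 2 * t)) + (2 + d)) :=
        pow_le_pow_of_le_one (by norm_num) (by norm_num) (by rw [hT1]; omega)
      rw [h2]
      calc (1 / 2 : ℝ) ^ T1 t * 2 ^ (2 + d)
          ≤ (1 / 2) ^ ((S2 t + (11 + 2 * t)) + (2 + d)) * 2 ^ (2 + d) :=
            mul_le_mul_of_nonneg_right h3 (by positivity)
        _ = (1 / 2) ^ (S2 t + (11 + 2 * t)) := by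
            rw [pow_add _ _ (2 + d), mul_assoc, ← mul_pow]
            norm_num
    refine h1.trans ?_
    rw [pow_add, pow_add]
    refine mul_le_mul hGd ?_ (by positivity) (dn_nonneg _)
    exact mul_le_mul_of_nonneg_left hβt (by positivity)
  -- regularisation
  obtain ⟨n, m, i, D', v₁, v₂, hm, hn, hrestr, halt', hρ, hdn'⟩ :=
    hCg (T1 t) (pw Cb (r + T3 t)) (R - S3 t) W M (Fin d → ZMod 2) D₁
      ((1 + 1 / 2 ^ 10 + 1 / 2 ^ 11) * β ^ 2) ((1 + 1 / 2 ^ 10) * β ^ 2) hφ1 c5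
      (by rw [hrkL, hT1]; omega) halt1 (by positivity)
      (by
        have e : (1 + 1 / 2 ^ 10 + 1 / 2 ^ 11) * β ^ 2 - (1 + 1 / 2 ^ 10) * β ^ 2 =
          (1 / 2) ^ 11 * β ^ 2 := by ring
        rw [e]
        refine le_trans ?_ (mul_le_mul_of_nonneg_left hβt (by positivity))
        rw [← pow_add]
        exact pow_le_pow_of_le_one (by norm_num) (by norm_num) (by rw [hT1]; omega))
      hdn1
  -- base case
  have hrkm : rk (Fin m → ZMod 2) = m := by simp [rk]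
  have hrkn : rk (Fin n → ZMod 2) = n := by simp [rk]
  obtain ⟨r', hr', hIC⟩ := hCb (T3 t) (pw Cb (r + T3 t)) (Fin n → ZMod 2) M (Fin m → ZMod 2) D' β
    hρ le_rfl (by rw [hrkm, hT3]; omega) halt'
    (le_trans (pow_le_pow_of_le_one (by norm_num) (by norm_num) (by rw [hT3]; omega)) hβ) hβ2
    (le_trans (pow_le_pow_of_le_one (by norm_num) (by norm_num) (by rw [hT3]; omega)) hdn')
  rw [hrkn] at hIC
  obtain ⟨hi, -, -, -, hF1, hF2⟩ := hrestr
  refine ⟨n, r', ?_, ?_, ?_⟩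
  · have : rk W ≤ n + pw Cg (T1 t + pw Cb (r + T3 t)) := hn
    omega
  · omega
  · rcases hIC with h | h
    · rw [hF1] at h
      have h2 : IC D₁.F1 ((1 + 1 / 2 ^ 22) * β) n r' := IC.lift i hi v₁ h
      exact IC.lift W.subtype hWi v h2
    · rw [hF2] at h
      have h2 : IC D₁.F2 ((1 + 1 / 2 ^ 22) * β) n r' := IC.lift i hi v₂ h
      exact IC.lift W.subtype hWi (v + w₂) h2

end G2
end

section

/-!
# Job IT1: one step of the iteration
-/

set_option autoImplicit false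

open Module

namespace G2

theorem it1_ic_mono_set {V : Type} [AddCommGroup V] [Module (ZMod 2) V] {F F' : Set V} {θ : ℝ}
    {n r : ℕ} (hF : F ⊆ F') (h : IC F θ n r) : IC F' θ n r := by
  obtain ⟨i, b, q, φ, hi, hq, h0, hle⟩ := h
  refine ⟨i, b, q, φ, hi, hq, h0, hle.trans ?_⟩
  unfold nc
  have : Nat.card {x // b + i x ∈ F ∧ q x = 0} ≤ Nat.card {x // b + i x ∈ F' ∧ q x = 0} :=
    Nat.card_le_card_of_injective
      (fun x : {x // b + i x ∈ F ∧ q x = 0} =>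
        (⟨x.1, hF x.2.1, x.2.2⟩ : {x // b + i x ∈ F' ∧ q x = 0}))
      (fun x y hxy => Subtype.ext (by simpa using hxy))
  exact_mod_cast this

theorem it1_gdc_map {V W : Type} [AddCommGroup V] [Module (ZMod 2) V] [AddCommGroup W]
    [Module (ZMod 2) W] {A : Set V} {F : Set W} {t : ℕ} (i : W →ₗ[ZMod 2] V)
    (hi : Function.Injective i) (b : V) (hF : ∀ y ∈ F, b + i y ∈ A) (h : Gdc F t) : Gdc A t := by
  obtain ⟨U, hU, hprop⟩ := h
  refine ⟨U.map i, ?_, ?_⟩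
  · rw [← hU]
    exact (LinearEquiv.finrank_eq (Submodule.equivMapOfInjective i hi U)).symm
  · intro x hx w hw
    obtain ⟨x', hx', rfl⟩ := Submodule.mem_map.1 hx
    obtain ⟨w', hw', rfl⟩ := Submodule.mem_map.1 hw
    obtain ⟨y, h1, h2, h3, h4⟩ := hprop x' hx' w' hw'
    refine ⟨b + i y, hF _ h1, ?_, ?_, ?_⟩
    · have := hF _ h2
      rwa [map_add, ← add_assoc] at this
    · have := hF _ h3
      rwa [map_add, ← add_assoc] at this
    · have := hF _ h4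
      rwa [map_add, map_add, ← add_assoc, ← add_assoc] at this

theorem it1_pw_le (C s : ℕ) (m : ℕ) (h : m + 2 ≤ 2 * (s + 2) + 1) : pw C m ≤ pw (3 * C) s := by
  unfold pw
  rw [pow_mul]
  apply Nat.pow_le_pow_left
  have : 2 * (s + 2) + 1 ≤ (s + 2) ^ 3 := by
    nlinarith [sq_nonneg s, Nat.zero_le s, Nat.zero_le (s * s * s), Nat.zero_le (s * s)]
  omega

/-- Let `F = {x : b + i x ∈ A, q x = 0}` in `F_2^n`, with `q : F_2^n → F_2^r` of rank `HR R`.  Then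
`av (wf M F) = |M| |F| / 2^n ≥ θ |M| |{q=0}| / 2^n = θ · av (nu q) ≥ (1 - er) θ`.
If `BM φ F < 2^(-2t-3)`, `stage_end` gives the subspace (image under `i`); otherwise `stage` with the
parameter `2t + 3` gives `IC F ((1 + 2^(-22)) av (wf M F))`, and `IC.lift` gives `IC A`.
`(1 + 2^(-22)) (1 - er) ≥ 1 + 2^(-23)`. -/
theorem it_step : ∃ C : ℕ, ∀ (t n r R : ℕ) (V : Type) [AddCommGroup V] [Module (ZMod 2) V]
    [Finite V] (A : Set V) (θ : ℝ), St A θ n r R → pw C (r + t) ≤ R → pw C (r + t) ≤ n → 2 ≤ t →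
    (1 / 2 : ℝ) ^ t ≤ θ →
    Gdc A t ∨ ∃ n' r', n ≤ n' + pw C (r + t) ∧ r' ≤ r + pw C t ∧
      IC A ((1 + 1 / 2 ^ 23) * θ) n' r' := by
  obtain ⟨C1, hC1⟩ := stage_end
  obtain ⟨C2, hC2⟩ := stage
  refine ⟨C1 + 3 * C2 + 4, ?_⟩
  intro t n r R V _ _ _ A θ hSt hR hn ht hθ
  obtain ⟨i, b, q, φ, hi, hq, hHR, h0, hle⟩ := hSt
  set F : Set (Fin n → ZMod 2) := {x | b + i x ∈ A ∧ q x = 0} with hF
  have hFq : ∀ y ∈ F, q y = 0 := fun y hy => hy.2
  have hrkM : rk (Fin r → ZMod 2) = r := Module.finrank_fin_fun (ZMod 2)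
  have hrkV : rk (Fin n → ZMod 2) = n := Module.finrank_fin_fun (ZMod 2)
  have hθ0 : 0 < θ := lt_of_lt_of_le (by positivity) hθ
  -- numerical bounds
  have hb1 : pw C1 (r + t) ≤ pw (C1 + 3 * C2 + 4) (r + t) := pw_mono_left (by omega) _
  have hb2 : pw C2 (r + (2 * t + 3)) ≤ pw (C1 + 3 * C2 + 4) (r + t) :=
    (it1_pw_le C2 (r + t) _ (by omega)).trans (pw_mono_left (by omega) _)
  have hb3 : pw C2 (2 * t + 3) ≤ pw (C1 + 3 * C2 + 4) t :=
    (it1_pw_le C2 t _ (by omega)).trans (pw_mono_left (by omega) _)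
  have hb4 : pw 4 (r + t) ≤ pw (C1 + 3 * C2 + 4) (r + t) := pw_mono_left (by omega) _
  have hRr : 1 * (rk (Fin r → ZMod 2) + 1) + 30 ≤ R := by
    rw [hrkM]
    have h1 : r + 31 ≤ pw 4 (r + t) := by
      unfold pw
      have h2 : 4 ^ 3 ≤ (r + t + 2) ^ 3 := Nat.pow_le_pow_left (by omega) 3
      have h3 : (r + t + 2) ^ 4 = (r + t + 2) ^ 3 * (r + t + 2) := pow_succ _ 3
      rw [h3]
      have h4 : 4 ^ 3 * (r + t + 2) ≤ (r + t + 2) ^ 3 * (r + t + 2) := Nat.mul_le_mul_right _ h2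
      omega
    omega
  -- the density of F
  have her : er (Fin r → ZMod 2) 1 R ≤ (1 / 2 : ℝ) ^ 30 := er_le hRr
  have hav : (1 - (1 / 2 : ℝ) ^ 30) * θ ≤ av (wf (Fin r → ZMod 2) F) := by
    have h1 : av (wf (Fin r → ZMod 2) F) = nc (Fin r → ZMod 2) * dn F := by
      unfold wf dn
      rw [av_mul_left]
    have h2 : av (nu q) = nc (Fin r → ZMod 2) * dn {y | q y = 0} := by
      unfold nu dn
      rw [av_mul_left]
    have h3 : θ * dn {y | q y = 0} ≤ dn F := by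
      rw [dn_eq_card, dn_eq_card, ← mul_div_assoc]
      exact div_le_div_of_nonneg_right hle (Nat.cast_nonneg _)
    have h4 := av_nu hq hHR
    have h5 := (abs_le.1 h4).1
    have h6 : 1 - (1 / 2 : ℝ) ^ 30 ≤ av (nu q) := by linarith
    calc (1 - (1 / 2 : ℝ) ^ 30) * θ ≤ av (nu q) * θ := mul_le_mul_of_nonneg_right h6 hθ0.le
      _ = nc (Fin r → ZMod 2) * (θ * dn {y | q y = 0}) := by rw [h2]; ring
      _ ≤ nc (Fin r → ZMod 2) * dn F := mul_le_mul_of_nonneg_left h3 (nc_nonneg _)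
      _ = _ := h1.symm
  rcases lt_or_ge (BM φ F) ((1 / 2 : ℝ) ^ (2 * t + 3)) with hBM | hBM
  · left
    have hG := hC1 t R (Fin n → ZMod 2) (Fin r → ZMod 2) q φ F hq hHR
      (by rw [hrkM]; exact hb1.trans hR) (by rw [hrkM, hrkV]; exact hb1.trans hn) hFq ht hBM
    exact it1_gdc_map i hi b (fun y hy => hy.1) hG
  · right
    have h7 : (1 / 2 : ℝ) ^ (2 * t + 3) ≤ av (wf (Fin r → ZMod 2) F) := by
      refine le_trans ?_ hav
      have h8 : (1 / 2 : ℝ) ^ (2 * t + 3) ≤ (1 / 2 : ℝ) ^ (t + 1) :=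
        pow_le_pow_of_le_one (by norm_num) (by norm_num) (by omega)
      refine h8.trans ?_
      rw [pow_succ]
      nlinarith
    obtain ⟨n', r', hn', hr', hIC⟩ := hC2 (2 * t + 3) R (Fin n → ZMod 2) (Fin r → ZMod 2) q φ F hq
      hHR (by rw [hrkM]; exact hb2.trans hR) hFq h7 hBM
    rw [hrkM, hrkV] at hn'
    rw [hrkM] at hr'
    refine ⟨n', r', hn'.trans (by omega), hr'.trans (by omega), ?_⟩
    have h9 : IC {y | b + i y ∈ A} ((1 + 1 / 2 ^ 22) * av (wf (Fin r → ZMod 2) F)) n' r' :=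
      it1_ic_mono_set (fun y hy => hy.1) hIC
    refine (IC.lift i hi b h9).mono ?_
    nlinarith

end G2
end

section

/-!
# Job IT2: the iteration
-/

set_option autoImplicit false

open Module

namespace G2

/-- `θ ≤ 1` in every state (and in `IC`), because the set on the right is contained in `{q = 0}`,
which is nonempty -/
theorem IC.le_one {V : Type} [AddCommGroup V] [Module (ZMod 2) V] {A : Set V} {θ : ℝ} {n r : ℕ}
    (h : IC A θ n r) : θ ≤ 1 := by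
  obtain ⟨i, b, q, φ, hi, hq, ⟨x0, hx0⟩, hle⟩ := h
  have h1 : nc {x // b + i x ∈ A ∧ q x = 0} ≤ nc {x // q x = 0} := by
    unfold nc
    exact_mod_cast Nat.card_le_card_of_injective
      (fun x : {x // b + i x ∈ A ∧ q x = 0} => (⟨x.1, x.2.2⟩ : {x // q x = 0}))
      (fun x y hxy => Subtype.ext (by simpa using hxy))
  have h2 : 0 < nc {x // q x = 0} := by
    have : Nonempty {x // q x = 0} := ⟨⟨x0, hx0⟩⟩
    exact nc_pos
  by_contra hcon
  push Not at hcon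
  nlinarith

theorem it2_st_ic {V : Type} [AddCommGroup V] [Module (ZMod 2) V] {A : Set V} {θ : ℝ} {n r R : ℕ}
    (h : St A θ n r R) : IC A θ n r := by
  obtain ⟨i, b, q, φ, hi, hq, hHR, h0, hle⟩ := h
  exact ⟨i, b, q, φ, hi, hq, h0, hle⟩

/-- the initial state: `r = 0`, `i` an isomorphism, `b = 0` -/
theorem st_init {V : Type} [AddCommGroup V] [Module (ZMod 2) V] [Finite V] (A : Set V) (R : ℕ) :
    St A (dn A) (rk V) 0 R := by
  have hfin : Module.Finite (ZMod 2) V := Module.Finite.of_finite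
  let e : (Fin (rk V) → ZMod 2) ≃ₗ[ZMod 2] V := (Module.finBasis (ZMod 2) V).equivFun.symm
  refine ⟨e.toLinearMap, 0, fun _ => 0, 0, e.injective, fun x y => Subsingleton.elim _ _,
    fun a ha => absurd (LinearMap.ext fun x => ?_) ha, ⟨0, rfl⟩, ?_⟩
  · rw [Subsingleton.elim x 0, map_zero, map_zero]
  · have h1 : nc {x : Fin (rk V) → ZMod 2 // (fun _ => 0 : (Fin (rk V) → ZMod 2) →
        (Fin 0 → ZMod 2)) x = 0} = nc V := by
      unfold nc
      congr 1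
      refine Nat.card_congr ?_
      exact { toFun := fun x => e x.1
              invFun := fun v => ⟨e.symm v, rfl⟩
              left_inv := fun x => Subtype.ext (e.symm_apply_apply _)
              right_inv := fun v => e.apply_symm_apply _ }
    have h2 : nc {x : Fin (rk V) → ZMod 2 // (0 : V) + e.toLinearMap x ∈ A ∧
        (fun _ => 0 : (Fin (rk V) → ZMod 2) → (Fin 0 → ZMod 2)) x = 0} = nc {x // x ∈ A} := by
      unfold nc
      congr 1
      refine Nat.card_congr ?_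
      exact { toFun := fun x => ⟨e x.1, by simpa using x.2.1⟩
              invFun := fun v => ⟨e.symm v.1, by simp [v.2], rfl⟩
              left_inv := fun x => Subtype.ext (e.symm_apply_apply _)
              right_inv := fun v => Subtype.ext (e.apply_symm_apply _) }
    rw [h1, h2, dn_eq_card]
    have h3 : (0 : ℝ) < nc V := nc_pos
    have h4 : (Nat.card A : ℝ) / Nat.card V * nc V = Nat.card A := div_mul_cancel₀ _ h3.ne'
    exact h4.le

theorem it2_pow (t : ℕ) : (2 : ℝ) ^ (t + 1) ≤ (1 + 1 / 2 ^ 23) ^ (2 ^ 23 * (t + 1)) := by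
  rw [pow_mul]
  refine pow_le_pow_left₀ (by norm_num) ?_ _
  have h := one_add_mul_le_pow (a := (1 / 2 ^ 23 : ℝ)) (by
    have : (0 : ℝ) ≤ 1 / 2 ^ 23 := by positivity
    linarith) (2 ^ 23)
  refine le_trans ?_ h
  have h2 : ((2 ^ 23 : ℕ) : ℝ) * (1 / 2 ^ 23) = 1 := by
    rw [Nat.cast_pow, Nat.cast_ofNat]
    exact mul_one_div_cancel (by positivity)
  rw [h2]
  norm_num

/-- Section 5, for `t ≥ 2`.  Let `C` be from `it_step`, `K₁ = pw C t`, `J = 2^23 (t + 1)`,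
`r_max = J K₁`, `R = pw C (r_max + t)`, `c = pw C (r_max + t) + (2R + 1) (r_max + K₁)`.  If `Gdc A t`
fails, induction on `j ≤ J` gives states `St A ((1 + 2^(-23))^j dn A) n_j r_j R` with `r_j ≤ j K₁` and
`rk V ≤ n_j + j c` (`it_step`, then `reg1`), as `pw C (r_j + t) ≤ n_j` is guaranteed by
`rk V ≥ (J + 1) c`.  For `j = J`: `(1 + 2^(-23))^J ≥ 2^(t+1) > 1 / dn A`, contradicting `θ ≤ 1`.
`(J + 1) c` is polynomially bounded in `t` (`PB.*`). -/
theorem g2_two : ∃ C : ℕ, ∀ (t : ℕ) (V : Type) [AddCommGroup V] [Module (ZMod 2) V]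
    [Finite V] (A : Set V), 2 ≤ t → pw C t ≤ rk V → (1 / 2 : ℝ) ^ t ≤ dn A → Gdc A t := by
  obtain ⟨C, hC⟩ := it_step
  set J : ℕ → ℕ := fun t => 2 ^ 23 * (t + 1) with hJ
  set K₁ : ℕ → ℕ := fun t => pw C t with hK₁
  set rm : ℕ → ℕ := fun t => J t * K₁ t with hrm
  set R : ℕ → ℕ := fun t => pw C (rm t + t) with hR
  set c : ℕ → ℕ := fun t => R t + (2 * R t + 1) * (rm t + K₁ t) with hc
  have hPJ : PB J := PB.mul (PB.const _) (PB.add PB.id (PB.const 1))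
  have hPK : PB K₁ := PB.pw C
  have hPrm : PB rm := PB.mul hPJ hPK
  have hPR : PB R := PB.comp (PB.pw C) (PB.add hPrm PB.id)
  have hPc : PB c := PB.add hPR
    (PB.mul (PB.add (PB.mul (PB.const 2) hPR) (PB.const 1)) (PB.add hPrm hPK))
  obtain ⟨C', hC'⟩ : PB fun t => (J t + 1) * c t := PB.mul (PB.add hPJ (PB.const 1)) hPc
  refine ⟨C', fun t V _ _ _ A ht hrk hdn => ?_⟩
  by_contra hG
  have hbig : (J t + 1) * c t ≤ rk V := (hC' t).trans hrk
  have hx1 : (1 : ℝ) ≤ 1 + 1 / 2 ^ 23 := by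
    have : (0 : ℝ) ≤ 1 / 2 ^ 23 := by positivity
    linarith
  have hRc : R t ≤ c t := Nat.le_add_right _ _
  have key : ∀ j : ℕ, j ≤ J t → ∃ n r : ℕ, St A ((1 + 1 / 2 ^ 23) ^ j * dn A) n r (R t) ∧
      r ≤ j * K₁ t ∧ rk V ≤ n + j * c t := by
    intro j
    induction j with
    | zero =>
      intro _
      refine ⟨rk V, 0, ?_, by omega, by omega⟩
      rw [pow_zero, one_mul]
      exact st_init A (R t)
    | succ j ih =>
      intro hj
      obtain ⟨n, r, hSt, hr, hn⟩ := ih (by omega)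
      have hrmax : r ≤ rm t := hr.trans (Nat.mul_le_mul_right _ (by omega))
      have hpw : pw C (r + t) ≤ R t := pw_mono C (by omega)
      have hcn : c t ≤ n := by
        have h1 : (j + 1) * c t ≤ (J t) * c t := Nat.mul_le_mul_right _ hj
        have h2 : (J t + 1) * c t = J t * c t + c t := Nat.succ_mul _ _
        have h3 : (j + 1) * c t = j * c t + c t := Nat.succ_mul _ _
        omega
      have hθ : (1 / 2 : ℝ) ^ t ≤ (1 + 1 / 2 ^ 23) ^ j * dn A := by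
        have h1 : (1 : ℝ) ≤ (1 + 1 / 2 ^ 23) ^ j := one_le_pow₀ hx1
        have h2 : (0 : ℝ) ≤ dn A := le_trans (by positivity) hdn
        nlinarith
      rcases hC t n r (R t) V A _ hSt hpw (hpw.trans (hRc.trans hcn)) ht hθ with h | h
      · exact absurd h hG
      · obtain ⟨n', r', hn', hr', hIC⟩ := h
        have hpos : 0 < (1 + 1 / 2 ^ 23) * ((1 + 1 / 2 ^ 23) ^ j * dn A) := by
          have h1 : (0 : ℝ) < (1 / 2 : ℝ) ^ t := by positivity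
          have h2 := lt_of_lt_of_le h1 hθ
          have h3 : (0 : ℝ) < 1 + 1 / 2 ^ 23 := by linarith
          exact mul_pos h3 h2
        obtain ⟨n'', r'', hr'', hn'', hSt''⟩ := reg1 A _ hpos n' r' (R t) hIC
        refine ⟨n'', r'', ?_, ?_, ?_⟩
        · rw [pow_succ', mul_assoc]
          exact hSt''
        · refine hr''.trans (hr'.trans ?_)
          rw [Nat.succ_mul]
          exact Nat.add_le_add_right hr _
        · have h1 : (2 * R t + 1) * (r' - r'') ≤ (2 * R t + 1) * (rm t + K₁ t) := by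
            refine Nat.mul_le_mul_left _ ?_
            have : r' ≤ rm t + K₁ t := hr'.trans (Nat.add_le_add_right hrmax _)
            omega
          have h3 : (j + 1) * c t = j * c t + c t := Nat.succ_mul _ _
          have h4 : c t = R t + (2 * R t + 1) * (rm t + K₁ t) := rfl
          omega
  obtain ⟨n, r, hSt, -, -⟩ := key (J t) le_rfl
  have h1 := (it2_st_ic hSt).le_one
  have h2 := it2_pow t
  have h3 : (2 : ℝ) ^ (t + 1) * (1 / 2) ^ t = 2 := by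
    rw [pow_succ, mul_comm ((2 : ℝ) ^ t) 2, mul_assoc, ← mul_pow]
    norm_num
  have h4 : (2 : ℝ) ^ (t + 1) * (1 / 2) ^ t ≤ (1 + 1 / 2 ^ 23) ^ (J t) * dn A := by
    refine mul_le_mul h2 hdn (by positivity) ?_
    exact le_trans (by positivity) h2
  exact absurd ((h3.symm.trans_le h4).trans h1) (by norm_num)

/-- monotonicity in `t`: take a subspace of `U` -/
theorem Gdc.mono {V : Type} [AddCommGroup V] [Module (ZMod 2) V] [Finite V] {A : Set V}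
    {t t' : ℕ} (h : Gdc A t) (ht : t' ≤ t) : Gdc A t' := by
  obtain ⟨U, hU, hprop⟩ := h
  have hfin : Module.Finite (ZMod 2) V := Module.Finite.of_finite
  have hle : t' ≤ finrank (ZMod 2) U := ht.trans hU.ge
  let b := Module.finBasis (ZMod 2) U
  let v : Fin t' → V := fun i => (b (Fin.castLE hle i) : V)
  have hv : LinearIndependent (ZMod 2) v := by
    have h1 : LinearIndependent (ZMod 2) fun i : Fin t' => b (Fin.castLE hle i) :=
      b.linearIndependent.comp _ (Fin.castLE_injective hle)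
    exact h1.map' U.subtype (Submodule.ker_subtype U)
  have hsub : Submodule.span (ZMod 2) (Set.range v) ≤ U := by
    rw [Submodule.span_le]
    rintro _ ⟨i, rfl⟩
    exact (b (Fin.castLE hle i)).2
  refine ⟨Submodule.span (ZMod 2) (Set.range v), ?_, fun x hx w hw => hprop x (hsub hx) w (hsub hw)⟩
  have h2 := finrank_span_eq_card hv
  rw [Fintype.card_fin] at h2
  exact h2

/-- THEOREM G2 (apply `g2_two` with `t + 2`) -/
theorem g2_main : ∃ C : ℕ, ∀ (t : ℕ) (V : Type) [AddCommGroup V] [Module (ZMod 2) V]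
    [Finite V] (A : Set V), pw C t ≤ rk V → (1 / 2 : ℝ) ^ t ≤ dn A → Gdc A t := by
  obtain ⟨C, hC⟩ := g2_two
  refine ⟨2 * C, fun t V _ _ _ A hrk hdn => ?_⟩
  refine (hC (t + 2) V A (by omega) ?_ ?_).mono (Nat.le_add_right t 2)
  · refine le_trans ?_ hrk
    unfold pw
    rw [pow_mul]
    apply Nat.pow_le_pow_left
    nlinarith [Nat.zero_le t]
  · refine le_trans ?_ hdn
    exact pow_le_pow_of_le_one (by norm_num) (by norm_num) (by omega)

end G2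
end

section

/-!
# Final assembly: `R_{F_2}(3, m)` is polynomial, and the Erdős–Hajnal property of the full plane
-/

set_option autoImplicit false

open Module

namespace G2

open EHProj
open scoped LinearAlgebra.Projectivization

section
variable {V : Type} [AddCommGroup V] [Module (ZMod 2) V] [Finite V]

/-- the density of `X` as the relative density in `⊤` -/
theorem rd_top (X : Set V) : rd (p := 2) X ⊤ 0 = dn X := by
  rw [rd, dn_eq_card]
  congr 1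
  · refine congrArg Nat.cast (Nat.card_congr ?_)
    exact
      { toFun := fun h => ⟨(h.1 : V), by have := h.2; rwa [zero_add] at this⟩
        invFun := fun v => ⟨⟨v.1, Submodule.mem_top⟩, by rw [zero_add]; exact v.2⟩
        left_inv := fun h => rfl
        right_inv := fun v => rfl }
  · exact congrArg Nat.cast (Nat.card_congr Submodule.topEquiv.toEquiv)

/-- a full plane from the conclusion of Theorem G2 and the Schur-Ramsey lemma -/
theorem plane_of_gdc (X : Set V) (hX0 : (0 : V) ∉ X) (t : ℕ) (ht : 1 ≤ t)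
    (hw : ¬ HasWhite (p := 2) X ⊤ t) (hG : Gdc X (RR t)) :
    ∃ x y w : V, Ind3 x y w ∧ x ∈ X ∧ y ∈ X ∧ w ∈ X ∧ x + y ∈ X ∧ w + x ∈ X ∧ w + y ∈ X ∧
      w + x + y ∈ X := by
  obtain ⟨U, hU, hUX⟩ := hG
  have hw' : ¬ HasWhite (p := 2) X U t := fun ⟨W, _, hWt, hWX⟩ => hw ⟨W, le_top, hWt, hWX⟩
  obtain ⟨x, hx, y, hy, hxy, hxX, hyX, hxyX⟩ := schur X hX0 t ht U hU.ge hw'
  obtain ⟨z, hz, hzx, hzy, hzxy⟩ := hUX x hx y hy
  refine ⟨x, y, z, ⟨?_, ?_, hxy, ?_, ?_, ?_, ?_⟩, hxX, hyX, hz, hxyX, hzx, hzy, hzxy⟩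
  · exact fun h => hX0 (h ▸ hxX)
  · exact fun h => hX0 (h ▸ hyX)
  · exact fun h => hX0 (h ▸ hz)
  · intro h
    rw [h, add_self] at hzx
    exact hX0 hzx
  · intro h
    rw [h, add_self] at hzy
    exact hX0 hzy
  · intro h
    rw [h, add_assoc, add_self] at hzxy
    exact hX0 hzxy

end

/-- the polynomial -/
theorem exists_poly : ∃ N : ℕ → ℕ, PolyBdd N ∧ ∀ (t : ℕ) (V : Type) [AddCommGroup V]
    [Module (ZMod 2) V] [Finite V] (X : Set V), 1 ≤ t → N t ≤ rk V → (0 : V) ∉ X →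
    ¬ HasWhite (p := 2) X ⊤ t →
    ∃ x y w : V, Ind3 x y w ∧ x ∈ X ∧ y ∈ X ∧ w ∈ X ∧ x + y ∈ X ∧ w + x ∈ X ∧ w + y ∈ X ∧
      w + x + y ∈ X := by
  obtain ⟨C, hC⟩ := g2_main
  have hp : ∀ (f : ℕ → ℕ), PolyBdd f → ∀ n : ℕ, PolyBdd fun t => (f t + 2) ^ n := by
    intro f hf n
    induction n with
    | zero => simpa using polyBdd_const 1
    | succ n ih =>
      have := ih.mul (hf.add (polyBdd_const 2))
      simpa [pow_succ] using this
  refine ⟨fun t => pw C (RR t) + RR t, ?_, ?_⟩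
  · exact (hp _ (poly_RR polyBdd_id) C).add (poly_RR polyBdd_id)
  · intro t V _ _ _ X ht hn hX0 hw
    have hRt : t ≤ RR t := by unfold RR; omega
    have hn' : pw C (RR t) + RR t ≤ rk V := hn
    refine plane_of_gdc X hX0 t ht hw (hC (RR t) V X (by omega) ?_)
    have hXs : ∀ c : ZMod 2, ∀ v, c ≠ 0 → v ∈ X → c • v ∈ X := by
      intro c v hc hv
      have h1 : c = 1 := by
        revert hc; revert c; decide
      rw [h1, one_smul]
      exact hv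
    have h1 := density_black (p := 2) X hXs ⊤ t
      (by rw [finrank_top]; exact hRt.trans ((Nat.le_add_left _ _).trans hn')) hw
    rw [rd_top, Nat.cast_ofNat] at h1
    exact (pow_le_pow_of_le_one (by norm_num) (by norm_num) hRt).trans h1

/-- the linear map with values `x`, `y`, `w` on the standard basis -/
theorem exists_map {V : Type} [AddCommGroup V] [Module (ZMod 2) V] (X : Set V)
    (hX0 : (0 : V) ∉ X) {x y w : V} (hx : x ∈ X) (hy : y ∈ X) (hw : w ∈ X) (hxy : x + y ∈ X)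
    (hwx : w + x ∈ X) (hwy : w + y ∈ X) (hwxy : w + x + y ∈ X) :
    ∃ L : (Fin 3 → ZMod 2) →ₗ[ZMod 2] V, Function.Injective L ∧ ∀ v, v ≠ 0 → L v ∈ X := by
  let L : (Fin 3 → ZMod 2) →ₗ[ZMod 2] V :=
    { toFun := fun v => v 0 • x + v 1 • y + v 2 • w
      map_add' := by
        intro u v
        simp only [Pi.add_apply, add_smul]
        abel
      map_smul' := by
        intro c v
        simp only [Pi.smul_apply, smul_eq_mul, mul_smul, smul_add, RingHom.id_apply] }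
  have hL : ∀ v : Fin 3 → ZMod 2, L v = v 0 • x + v 1 • y + v 2 • w := fun v => rfl
  have key : ∀ v : Fin 3 → ZMod 2, v ≠ 0 → L v ∈ X := by
    intro v hv
    rw [hL]
    have hv3 : ¬ (v 0 = 0 ∧ v 1 = 0 ∧ v 2 = 0) := by
      rintro ⟨a, b, c⟩
      apply hv
      funext i
      fin_cases i
      · exact a
      · exact b
      · exact c
    rcases zmod2 (v 0) with a | a <;> rcases zmod2 (v 1) with b | b <;>
      rcases zmod2 (v 2) with c | c <;> rw [a, b, c] <;>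
      simp only [zero_smul, one_smul, add_zero, zero_add]
    · exact absurd ⟨a, b, c⟩ hv3
    · exact hw
    · exact hy
    · rw [add_comm]; exact hwy
    · exact hx
    · rw [add_comm]; exact hwx
    · exact hxy
    · rw [add_comm (x + y) w, ← add_assoc]; exact hwxy
  refine ⟨L, ?_, key⟩
  rw [← LinearMap.ker_eq_bot, LinearMap.ker_eq_bot']
  intro v hv
  by_contra hv0
  have := key v hv0
  rw [hv] at this
  exact hX0 this

/-- the Erdős–Hajnal property of the full plane -/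
theorem eh_univ : EHProperty (ZMod 2) 3 (Set.univ : Set (ℙ (ZMod 2) (Fin 3 → ZMod 2))) := by
  obtain ⟨N, hN, hmain⟩ := exists_poly
  refine eh_of_poly 2 3 Set.univ N hN ?_
  intro n t ht hn X hX0 _ hno
  right
  by_contra hw
  obtain ⟨x, y, w, -, hx, hy, hw', hxy, hwx, hwy, hwxy⟩ :=
    hmain t (Fin n → ZMod 2) X ht (by simpa using hn) hX0 hw
  obtain ⟨L, hL, hLX⟩ := exists_map X hX0 hx hy hw' hxy hwx hwy hwxy
  exact hno ⟨L, hL, fun v hv => ⟨fun _ => ⟨hv, Set.mem_univ _⟩, fun _ => hLX v hv⟩⟩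

/-- the Erdős–Hajnal property of the empty set in the plane -/
theorem eh_empty : EHProperty (ZMod 2) 3 (∅ : Set (ℙ (ZMod 2) (Fin 3 → ZMod 2))) := by
  apply eh_compl
  rw [Set.compl_empty]
  exact eh_univ

/-- `R_{F_2}(3, m)` is at most `(m + 2) ^ C` -/
theorem ramsey_poly : ∃ C : ℕ, ∀ m n : ℕ, (m + 2) ^ C ≤ n → ∀ X : Set (Fin n → ZMod 2), 0 ∉ X →
    (∀ U : Submodule (ZMod 2) (Fin n → ZMod 2), Module.finrank (ZMod 2) U = m → ∃ v ∈ U, v ∈ X) →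
    ∃ L : (Fin 3 → ZMod 2) →ₗ[ZMod 2] (Fin n → ZMod 2),
      Function.Injective L ∧ ∀ v, v ≠ 0 → L v ∈ X := by
  obtain ⟨N, ⟨C0, d0, hN⟩, hmain⟩ := exists_poly
  refine ⟨C0 + d0, fun m n hn X hX0 hX => ?_⟩
  have hm : 1 ≤ m := by
    by_contra h
    have h0 : m = 0 := by omega
    obtain ⟨v, hv, hvX⟩ := hX ⊥ (by rw [finrank_bot, h0])
    rw [Submodule.mem_bot] at hv
    exact hX0 (hv ▸ hvX)
  have hw : ¬ HasWhite (p := 2) X ⊤ m := by
    rintro ⟨W, -, hWm, hWX⟩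
    obtain ⟨v, hv, hvX⟩ := hX W hWm
    exact hWX v hv (fun h => hX0 (h ▸ hvX)) hvX
  have hNn : N m ≤ n := by
    refine (hN m).trans (le_trans ?_ hn)
    rw [pow_add]
    refine Nat.mul_le_mul ?_ (Nat.pow_le_pow_left (by omega) _)
    calc C0 ≤ 2 ^ C0 := Nat.lt_two_pow_self.le
      _ ≤ (m + 2) ^ C0 := Nat.pow_le_pow_left (by omega) _
  obtain ⟨x, y, w, -, hx, hy, hw', hxy, hwx, hwy, hwxy⟩ :=
    hmain m (Fin n → ZMod 2) X hm (by simpa using hNn) hX0 hw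
  exact exists_map X hX0 hx hy hw' hxy hwx hwy hwxy

/-- the same with subspaces -/
theorem ramsey_poly' : ∃ C : ℕ, ∀ m n : ℕ, (m + 2) ^ C ≤ n → ∀ X : Set (Fin n → ZMod 2),
    (∀ U : Submodule (ZMod 2) (Fin n → ZMod 2), Module.finrank (ZMod 2) U = m →
      ∃ v ∈ U, v ≠ 0 ∧ v ∈ X) →
    ∃ W : Submodule (ZMod 2) (Fin n → ZMod 2), Module.finrank (ZMod 2) W = 3 ∧
      ∀ v ∈ W, v ≠ 0 → v ∈ X := by
  obtain ⟨C, hC⟩ := ramsey_poly
  refine ⟨C, fun m n hn X hX => ?_⟩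
  obtain ⟨L, hL, hLX⟩ := hC m n hn (X \ {0}) (fun h => h.2 rfl) (fun U hU => by
    obtain ⟨v, hv, hv0, hvX⟩ := hX U hU
    exact ⟨v, hv, hvX, hv0⟩)
  refine ⟨LinearMap.range L, ?_, ?_⟩
  · rw [LinearMap.finrank_range_of_inj hL]
    simp
  · rintro v ⟨u, rfl⟩ hv
    exact (hLX u (fun h => hv (by rw [h, map_zero]))).1

/-- Theorem G2 in coordinates -/
theorem density_thm : ∃ C : ℕ, ∀ t n : ℕ, (t + 2) ^ C ≤ n → ∀ A : Set (Fin n → ZMod 2),
    2 ^ n ≤ 2 ^ t * A.ncard →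
    ∃ U : Submodule (ZMod 2) (Fin n → ZMod 2), Module.finrank (ZMod 2) U = t ∧
      ∀ x ∈ U, ∀ w ∈ U, ∃ y, y ∈ A ∧ y + x ∈ A ∧ y + w ∈ A ∧ y + x + w ∈ A := by
  obtain ⟨C, hC⟩ := g2_main
  refine ⟨C, fun t n hn A hA => ?_⟩
  refine hC t (Fin n → ZMod 2) A (by simpa [pw] using hn) ?_
  rw [dn_eq_card, Nat.card_coe_set_eq]
  have h1 : (Nat.card (Fin n → ZMod 2) : ℝ) = 2 ^ n := by
    rw [Nat.card_eq_fintype_card, Fintype.card_fun, ZMod.card, Fintype.card_fin]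
    push_cast
    rfl
  rw [h1, le_div_iff₀ (by positivity), one_div, inv_pow, inv_mul_le_iff₀ (by positivity)]
  exact_mod_cast hA

end G2
end
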