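import Pool.Agent.Lib.MP_f4f4db_co.G2.RK4
import Pool.Agent.Lib.MP_f4f4db_co.G2.QD3b
import Pool.Agent.Lib.MP_f4f4db_co.G2.Akm
import Pool.Agent.Lib.MP_f4f4db_co.G2.Basic
import Pool.Agent.Lib.MP_dd2a7c_co.WaBsg
import Pool.Agent.Lib.MP_f4f4db_co.G2.CO4
import Pool.Agent.Lib.MP_dd2a7c_co.WpPfr
import Pool.Agent.Lib.MP_f4f4db_co.G2.SA5
import Pool.Agent.Lib.MP_f4f4db_co.G2.QD1

section

section

/-!
# Job ST1: the relative increment theorem on the fibres `K_w = ker φ(w,·)`
-/

set_option autoImplicit false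

open Module

namespace G2

/-- Step (3) of the stage theorem.  Let `w` be generic, `f = wf M F`.  Choose `y_w` with
`φ(w, y_w) = q w + q 0` and let `K = ker φ(w,·)` (codimension `rk M`),
`F_w = {x ∈ K : y_w + x ∈ F, y_w + x + w ∈ F}`, `q_w x = q (y_w + x)`, a quadratic map on `K` with
polar form `φ|K` (`IsQ.pull`, `HR.pull`, `k = rk M`).  As `f(y) f(y+w) ≠ 0` implies
`φ(w,y) = q w + q 0`, i.e. `y ∈ y_w + K`, the weighted density of `F_w` in `K` is
`|M| |F_w| / |K| = cor f f w`, and for `x ∈ K`, `f_w = wf M F_w`: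
`(f_w ∘ f_w)(x) = PK f x w / |M|`.  So with `S = {x ∈ K : PK f x w = 0}`, of density
`|M| dn {x : φ(x,w) = 0, PK f x w = 0}` in `K` (`φ` is symmetric), `E 1_S (f_w ∘ f_w) = 0` and
`rkm_neg 2` applies in `K`.  It gives `l : K → F_2^d`; extend it to `Ξ : V → F_2^d`.  Then
`E_y f(y) f(y+w) sg(Ξ(y)_j) = ± E_{x ∈ K} f_w(x) sg(l(x)_j)`, and
`{y : φ(w,y) = q w + q 0, Ξ y = s + Ξ y_w} = y_w + {x ∈ K : l x = s}` has density
`1 / (|M| 2^d)`. -/
theorem fibre_conc : ∃ C : ℕ, ∀ (t R : ℕ) (V M : Type) [AddCommGroup V] [Module (ZMod 2) V]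
    [Finite V] [AddCommGroup M] [Module (ZMod 2) M] [Finite M] (q : V → M) (φ : Bil V M)
    (F : Set V) (w : V), IsQ q φ → HR φ R → pw C (rk M + t) ≤ R → (∀ y ∈ F, q y = 0) →
    Gen φ ![w] → (1 / 2 : ℝ) ^ t ≤ cor (wf M F) (wf M F) w →
    (1 / 2 : ℝ) ^ t ≤ nc M * dn {x | φ x w = 0 ∧ PK (wf M F) x w = 0} →
    ∃ (d : ℕ) (Ξ : V →ₗ[ZMod 2] (Fin d → ZMod 2)), d ≤ pw C t ∧
      (∀ j, (1 / 2 : ℝ) ^ pw C t ≤ |av fun y => wf M F y * wf M F (y + w) * sg (Ξ y j)|) ∧
      ∃ s : M × (Fin d → ZMod 2), (∃ y, ((φ w).prod Ξ) y = s) ∧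
        (1 + 1 / 256) * cor (wf M F) (wf M F) w * dn {y | ((φ w).prod Ξ) y = s} ≤
          av fun y => ind {y | ((φ w).prod Ξ) y = s} y * (nc M * (ind F y * ind F (y + w))) := by
  classical
  obtain ⟨C0, hC0⟩ := rkm_neg 2 (by norm_num)
  refine ⟨C0 + 1, fun t R V M _ _ _ _ _ _ q φ F w hq hR hC hF hw hcor hS => ?_⟩
  have hm := nc_pos (α := M)
  have hV := nc_pos (α := V)
  -- surjectivity of `φ w`
  have hsurj : Function.Surjective (φ w) := by
    intro m
    obtain ⟨y, hy⟩ := hw fun _ => m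
    exact ⟨y, congrFun hy 0⟩
  obtain ⟨yw, hyw⟩ := hsurj (q w + q 0)
  set K : Submodule (ZMod 2) V := LinearMap.ker (φ w) with hK
  have hKm : ∀ x : V, x ∈ K ↔ φ w x = 0 := fun x => LinearMap.mem_ker
  have hrk : rk V = rk K + rk M := by
    have h1 : finrank (ZMod 2) (LinearMap.range (φ w)) + finrank (ZMod 2) K =
        finrank (ZMod 2) V := LinearMap.finrank_range_add_finrank_ker (φ w)
    have h2 : LinearMap.range (φ w) = ⊤ := LinearMap.range_eq_top.2 hsurj
    rw [h2, finrank_top] at h1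
    unfold rk
    omega
  have hncK : nc V = nc K * nc M := by
    rw [nc_finrank (V := V), nc_finrank (V := K), nc_finrank (V := M), ← pow_add]
    congr 1
  have hKpos := nc_pos (α := K)
  -- averages of functions supported on a coset of `K`
  have havg : ∀ (y0 : V) (g : V → ℝ), (∀ y, φ w y ≠ φ w y0 → g y = 0) →
      av g = (av fun x : K => g (y0 + x)) / nc M := by
    intro y0 g hg
    have := Fintype.ofFinite V
    have : Fintype K := Fintype.ofFinite K
    have h1 : ∑ x : K, g (y0 + x) = ∑ y : V, g y := by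
      refine Fintype.sum_of_injective (fun x : K => y0 + (x : V)) ?_ _ _ ?_ (fun _ => rfl)
      · intro x x' h
        exact Subtype.ext (add_left_cancel h)
      · intro y hy
        apply hg
        intro h
        apply hy
        refine ⟨⟨y0 + y, ?_⟩, ?_⟩
        · rw [hKm, map_add, h]
          exact add_self _
        · change y0 + (y0 + y) = y
          rw [← add_assoc, add_self, zero_add]
    rw [av, av, su_eq, su_eq, ← h1, hncK, div_div]
  -- the two memberships force `φ w y = q w + q 0`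
  have hmem : ∀ y, y ∈ F → y + w ∈ F → φ w y = φ w yw := by
    intro y h1 h2
    have h3 := hq y w
    rw [hF _ h1, hF _ h2, hq.symm y w, zero_add] at h3
    rw [hyw]
    exact (eq_of_add_eq_zero h3.symm).symm
  set Fw : Set K := {x | yw + x ∈ F ∧ yw + x + w ∈ F} with hFw
  set qw : K → M := fun x => q (yw + K.subtype x) with hqw
  have hqwQ : IsQ qw (pull φ K.subtype) := hq.pull K.subtype yw
  have hx2 : (rk M + t + 2) ^ C0 + (rk M + t) ≤ R := by
    refine le_trans ?_ hC
    unfold pw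
    rw [pow_succ, Nat.mul_add, Nat.mul_comm]
    have h1 : 1 ≤ (rk M + t + 2) ^ C0 := Nat.one_le_pow _ _ (by omega)
    nlinarith
  have hRK : HR (pull φ K.subtype) (R - rk M) :=
    HR.pull hR K.subtype K.injective_subtype (by rw [hrk]) (by omega)
  have hCK : pw C0 (rk M + t) ≤ R - rk M := by
    unfold pw
    omega
  have hFwq : ∀ x ∈ Fw, qw x = 0 := fun x hx => hF _ hx.1
  -- (b) the density
  have hindFw : ∀ x : K, ind F (yw + x) * ind F (yw + x + w) = ind Fw x := by
    intro x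
    by_cases h1 : yw + (x : V) ∈ F
    · by_cases h2 : yw + (x : V) + w ∈ F
      · rw [ind_pos h1, ind_pos h2, ind_pos (A := Fw) ⟨h1, h2⟩, one_mul]
      · rw [ind_neg h2, ind_neg (A := Fw) fun h => h2 h.2, mul_zero]
    · rw [ind_neg h1, ind_neg (A := Fw) fun h => h1 h.1, zero_mul]
  have hzero : ∀ y, φ w y ≠ φ w yw → ind F y * ind F (y + w) = 0 := by
    intro y hy
    by_cases h1 : y ∈ F
    · by_cases h2 : y + w ∈ F
      · exact absurd (hmem y h1 h2) hy
      · rw [ind_neg h2, mul_zero]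
    · rw [ind_neg h1, zero_mul]
  have hcorb : cor (wf M F) (wf M F) w = av (wf M Fw) := by
    have h1 : cor (wf M F) (wf M F) w =
        av fun y => nc M * (nc M * (ind F y * ind F (y + w))) := by
      unfold cor wf
      refine congrArg av (funext fun y => ?_)
      ring
    rw [h1, havg yw _ (fun y hy => by rw [hzero y hy, mul_zero, mul_zero])]
    have h2 : (av fun x : K => nc M * (nc M * (ind F (yw + x) * ind F (yw + x + w)))) =
        nc M * av (wf M Fw) := by
      rw [av_mul_left]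
      refine congrArg _ (congrArg av (funext fun x => ?_))
      rw [hindFw x]
      rfl
    rw [h2]
    field_simp
  -- (c) the correlations
  have hcorx : ∀ x : K, PK (wf M F) x w = nc M * cor (wf M Fw) (wf M Fw) x := by
    intro x
    unfold PK
    rw [havg yw _ (fun y hy => by
      have h1 : wf M F y * wf M F (y + w) = 0 := by
        unfold wf
        calc nc M * ind F y * (nc M * ind F (y + w)) =
            nc M * nc M * (ind F y * ind F (y + w)) := by ring
          _ = 0 := by rw [hzero y hy, mul_zero]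
      calc wf M F y * wf M F (y + x) * (wf M F (y + w) * wf M F (y + x + w)) =
          (wf M F y * wf M F (y + w)) * (wf M F (y + x) * wf M F (y + x + w)) := by ring
        _ = 0 := by rw [h1, zero_mul])]
    have h2 : (av fun z : K => wf M F (yw + z) * wf M F (yw + z + x) *
        (wf M F (yw + z + w) * wf M F (yw + z + x + w))) =
        av fun z : K => nc M * nc M * (wf M Fw z * wf M Fw (z + x)) := by
      refine congrArg av (funext fun z => ?_)
      have h3 := hindFw z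
      have h4 := hindFw (z + x)
      have e1 : yw + (z : V) + (x : V) = yw + ((z + x : K) : V) := by
        rw [Submodule.coe_add, add_assoc]
      unfold wf
      rw [e1, ← h3, ← h4]
      ring
    rw [h2, av_mul_left]
    unfold cor
    field_simp
  -- (d) the set `S`
  set S : Set K := {x | PK (wf M F) x w = 0} with hSdef
  have hdnS : dn S = nc M * dn {x | φ x w = 0 ∧ PK (wf M F) x w = 0} := by
    have h1 := havg 0 (ind {x | φ x w = 0 ∧ PK (wf M F) x w = 0}) (fun y hy => by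
      apply ind_neg
      rintro ⟨h2, _⟩
      apply hy
      rw [map_zero, hq.symm w y]
      exact h2)
    have h2 : (av fun x : K => ind {x | φ x w = 0 ∧ PK (wf M F) x w = 0} (0 + (x : V))) = dn S := by
      unfold dn
      refine congrArg av (funext fun x => ?_)
      rw [zero_add]
      have hx : φ x w = 0 := by
        rw [hq.symm x w]
        exact (hKm _).1 x.2
      by_cases h3 : PK (wf M F) x w = 0
      · rw [ind_pos (A := {x | φ x w = 0 ∧ PK (wf M F) x w = 0}) ⟨hx, h3⟩,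
          ind_pos (A := S) h3]
      · rw [ind_neg (A := {x | φ x w = 0 ∧ PK (wf M F) x w = 0}) fun h => h3 h.2,
          ind_neg (A := S) h3]
    rw [h2] at h1
    unfold dn at h1 ⊢
    rw [h1]
    field_simp
  have hcor0 : av (fun x => ind S x * cor (wf M Fw) (wf M Fw) x) = 0 := by
    have h1 : (fun x => ind S x * cor (wf M Fw) (wf M Fw) x) = fun _ => (0 : ℝ) := by
      funext x
      by_cases hx : x ∈ S
      · have h2 := hcorx x
        have h3 : PK (wf M F) x w = 0 := hx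
        rw [h3] at h2
        have h4 : cor (wf M Fw) (wf M Fw) x = 0 := by
          rcases mul_eq_zero.1 h2.symm with h5 | h5
          · exact absurd h5 hm.ne'
          · exact h5
        rw [h4, mul_zero]
      · rw [ind_neg hx, zero_mul]
    rw [h1, av_const]
  have hSt : (1 / 2 : ℝ) ^ t ≤ dn S := by
    rw [hdnS]
    exact hS
  have hFt : (1 / 2 : ℝ) ^ t ≤ av (wf M Fw) := by
    rw [← hcorb]
    exact hcor
  have hS0 : 0 ≤ dn S := dn_nonneg S
  obtain ⟨d, hd, l, s, hl, hθ, hj⟩ := hC0 t (R - rk M) K M qw (pull φ K.subtype) Fw S hqwQ hRK hCK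
    hFwq hFt hSt (by
      rw [hcor0]
      have : (0 : ℝ) ≤ 1 - 1 / ((2 : ℕ) : ℝ) := by norm_num
      positivity)
  obtain ⟨Ξ, hΞ⟩ := LinearMap.exists_extend l
  have hΞK : ∀ x : K, Ξ x = l x := fun x => LinearMap.congr_fun hΞ x
  have hpwle : pw C0 t ≤ pw (C0 + 1) t := by
    unfold pw
    exact Nat.pow_le_pow_right (by omega) (by omega)
  refine ⟨d, Ξ, hd.trans hpwle, ?_, ?_⟩
  · intro j
    refine (pow_le_pow_of_le_one (by norm_num) (by norm_num) hpwle).trans ((hj j).trans ?_)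
    have h1 : (av fun y => wf M F y * wf M F (y + w) * sg (Ξ y j)) =
        (av fun y => nc M * (nc M * (ind F y * ind F (y + w)) * sg (Ξ y j))) := by
      unfold wf
      refine congrArg av (funext fun y => ?_)
      ring
    rw [h1, havg yw _ (fun y hy => by rw [hzero y hy]; ring)]
    have h2 : (av fun x : K => nc M * (nc M * (ind F (yw + x) * ind F (yw + x + w)) *
        sg (Ξ (yw + x) j))) = nc M * (sg (Ξ yw j) * av fun x : K => wf M Fw x * sg (l x j)) := by
      rw [av_mul_left, ← av_mul_left (sg (Ξ yw j))]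
      refine congrArg _ (congrArg av (funext fun x => ?_))
      rw [hindFw x, map_add, hΞK x, Pi.add_apply, sg_add]
      unfold wf
      ring
    rw [h2, mul_div_right_comm, div_self hm.ne', one_mul, abs_mul, abs_sg, one_mul]
  · have hTs : Function.Surjective ((φ w).prod Ξ) := by
      rintro ⟨m, s'⟩
      obtain ⟨y, hy⟩ := hsurj m
      obtain ⟨x, hx⟩ := hl (s' + Ξ y)
      refine ⟨y + x, Prod.ext ?_ ?_⟩
      · change φ w (y + x) = m
        rw [map_add, hy, (hKm _).1 x.2, add_zero]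
      · change Ξ (y + x) = s'
        rw [map_add, hΞK x, hx, add_comm s', ← add_assoc, add_self, zero_add]
    refine ⟨(φ w yw, s + Ξ yw), hTs _, ?_⟩
    have hfib := dn_fibre ((φ w).prod Ξ) hTs (φ w yw, s + Ξ yw)
    have hnc2 : nc (M × (Fin d → ZMod 2)) = nc M * 2 ^ d := by
      have h1 : nc (M × (Fin d → ZMod 2)) = nc M * nc (Fin d → ZMod 2) := by
        unfold nc
        rw [Nat.card_prod]
        push_cast
        ring
      rw [h1, nc_finrank (V := Fin d → ZMod 2), Module.finrank_fin_fun]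
    rw [hnc2] at hfib
    set δ := dn {y | ((φ w).prod Ξ) y = (φ w yw, s + Ξ yw)} with hδ
    have h3 : (av fun y => ind {y | ((φ w).prod Ξ) y = (φ w yw, s + Ξ yw)} y *
        (nc M * (ind F y * ind F (y + w)))) =
        (av fun x : K => wf M Fw x * ind {x | l x = s} x) / nc M := by
      rw [havg yw _ (fun y hy => by rw [hzero y hy]; ring)]
      congr 1
      refine congrArg av (funext fun x => ?_)
      rw [hindFw x]
      have h4 : ind {y | ((φ w).prod Ξ) y = (φ w yw, s + Ξ yw)} (yw + (x : V)) =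
          ind {x : K | l x = s} x := by
        by_cases hx : l x = s
        · rw [ind_pos (A := {x : K | l x = s}) hx, ind_pos]
          refine Prod.ext ?_ ?_
          · change φ w (yw + x) = φ w yw
            rw [map_add, (hKm _).1 x.2, add_zero]
          · change Ξ (yw + x) = s + Ξ yw
            rw [map_add, hΞK x, hx, add_comm]
        · rw [ind_neg (A := {x : K | l x = s}) hx, ind_neg]
          intro h5
          apply hx
          have h6 : Ξ (yw + x) = s + Ξ yw := congrArg Prod.snd h5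
          rw [map_add, hΞK x, add_comm] at h6
          exact add_right_cancel h6
      rw [h4]
      unfold wf
      ring
    rw [h3, hcorb, le_div_iff₀ hm]
    have h7 : (1 + 1 / (128 * ((2 : ℕ) : ℝ))) = (1 + 1 / 256 : ℝ) := by norm_num
    rw [h7] at hθ
    have h8 : (1 + 1 / 256) * av (wf M Fw) * δ * nc M =
        ((1 + 1 / 256) * av (wf M Fw)) * (nc M * δ) := by ring
    rw [h8]
    have h2d : (0 : ℝ) < 2 ^ d := by positivity
    have h9 : nc M * δ = 1 / 2 ^ d := by
      rw [eq_div_iff h2d.ne']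
      linarith
    rw [h9, ← div_eq_mul_one_div, div_le_iff₀ h2d]
    linarith

end G2
end

section

/-!
# Job ST2: choice of `Ω`
-/

set_option autoImplicit false

open Module

namespace G2

/-- the weighted measure of the bad pairs -/
noncomputable def BM {V M : Type} [AddCommGroup V] [Module (ZMod 2) V] [Finite V]
    [AddCommGroup M] [Module (ZMod 2) M] (φ : Bil V M) (F : Set V) : ℝ :=
  av fun w => av fun x => nc M * ind {x | φ x w = 0 ∧ PK (wf M F) x w = 0} x

/-- the properties of the family `Ξ_w`, `w ∈ Ω` -/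
def Fam {V M : Type} [AddCommGroup V] [Module (ZMod 2) V] [Finite V] [AddCommGroup M]
    [Module (ZMod 2) M] [Finite M] (φ : Bil V M) (F : Set V) (s : ℕ) (θ : ℝ) {d : ℕ} (Ω : Set V)
    (Ξ : V → V →ₗ[ZMod 2] (Fin d → ZMod 2)) : Prop :=
  (1 / 2 : ℝ) ^ s ≤ dn Ω ∧ ∀ w ∈ Ω, Gen φ ![w] ∧
    (∀ j, (1 / 2 : ℝ) ^ s ≤ |av fun y => wf M F y * wf M F (y + w) * sg (Ξ w y j)|) ∧
    ∃ z : M × (Fin d → ZMod 2), (∃ y, ((φ w).prod (Ξ w)) y = z) ∧
      θ * dn {y | ((φ w).prod (Ξ w)) y = z} ≤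
        av fun y => ind {y | ((φ w).prod (Ξ w)) y = z} y * (nc M * (ind F y * ind F (y + w)))

theorem st2_bounds (C₁ C₂ C₃ : ℕ) : ∃ C : ℕ, ∀ τ : ℕ,
    pw C₂ (τ + 18 + pw C₁ (τ + 3)) ≤ pw C τ ∧ pw C₁ (τ + 3) ≤ pw C τ ∧
    τ + 3 + pw C₃ (2 * τ + 3) ≤ pw C τ := by
  have h3 : PB fun τ => τ + 3 := PB.add PB.id (PB.const 3)
  have h18 : PB fun τ => τ + 18 := PB.add PB.id (PB.const 18)
  have h1 : PB fun τ => pw C₁ (τ + 3) := PB.comp (PB.pw C₁) h3
  have h2 : PB fun τ => pw C₂ (τ + 18 + pw C₁ (τ + 3)) := PB.comp (PB.pw C₂) (PB.add h18 h1)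
  have h4 : PB fun τ => 2 * τ + 3 := PB.add (PB.mul (PB.const 2) PB.id) (PB.const 3)
  have h5 : PB fun τ => pw C₃ (2 * τ + 3) := PB.comp (PB.pw C₃) h4
  obtain ⟨C, hC⟩ := PB.add (PB.add h2 h1) (PB.add h3 h5)
  refine ⟨C, fun τ => ?_⟩
  have h : pw C₂ (τ + 18 + pw C₁ (τ + 3)) + pw C₁ (τ + 3) + (τ + 3 + pw C₃ (2 * τ + 3)) ≤
      pw C τ := hC τ
  refine ⟨?_, ?_, ?_⟩ <;> omega

/-- popular value of a function with values in `Fin n` -/
theorem st2_popular {α : Type} [Finite α] (S : Set α) (n : ℕ) (u : α → ℕ)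
    (hu : ∀ x ∈ S, u x < n) (hS : S.Nonempty) :
    ∃ k : ℕ, dn S ≤ n * dn {x | x ∈ S ∧ u x = k} := by
  classical
  by_contra hcon
  push Not at hcon
  have hn : 0 < n := by
    obtain ⟨x, hx⟩ := hS
    exact lt_of_le_of_lt (Nat.zero_le _) (hu x hx)
  have h1 : dn S = ∑ k ∈ Finset.range n, dn {x | x ∈ S ∧ u x = k} := by
    have := Fintype.ofFinite α
    simp only [dn, av_eq]
    rw [← Finset.sum_div, Finset.sum_comm]
    congr 1
    refine Finset.sum_congr rfl fun x _ => ?_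
    by_cases hx : x ∈ S
    · rw [ind_pos hx, Finset.sum_eq_single (u x)]
      · rw [ind_pos (A := {y | y ∈ S ∧ u y = u x}) ⟨hx, rfl⟩]
      · intro k _ hk
        exact ind_neg (A := {y | y ∈ S ∧ u y = k}) fun h => hk h.2.symm
      · intro h
        exact absurd (Finset.mem_range.2 (hu x hx)) h
    · rw [ind_neg hx]
      refine (Finset.sum_eq_zero fun k _ => ?_).symm
      exact ind_neg (A := {y | y ∈ S ∧ u y = k}) fun h => hx h.1
  have h2 : ∑ k ∈ Finset.range n, (n : ℝ) * dn {x | x ∈ S ∧ u x = k} <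
      ∑ _k ∈ Finset.range n, dn S :=
    Finset.sum_lt_sum_of_nonempty (Finset.nonempty_range_iff.2 hn.ne') fun k _ => hcon k
  rw [← Finset.mul_sum, ← h1, Finset.sum_const, Finset.card_range, nsmul_eq_mul] at h2
  exact lt_irrefl _ h2

/-- Steps (1), (2), (3).  Let `β = av (wf M F)` (`β ≤ 2`), `β_w = cor f f w`.  If the set `S` of `w`
with `β_w < (1 - 1/1024) β²` has density `≥ 2^(-t-3)`: `rkm_neg 1024` and `ic_of_conc` (the factor is
`(1 - 2^(-t')) (1 + 2^(-17)) ≥ 1 + 2^(-22)`).  Otherwise: for generic `w` the average over `x` of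
`|M| 1[φ(x,w)=0] 1[PK=0]` is at most `1`, the non-generic `w` contribute at most `|M|²/4^R`; so the
generic `w` for which this average is `≥ 2^(-t-1)` have density `≥ 2^(-t-2)`, and after removing `S`
and the non-generic ones a set of density `≥ 2^(-t-3)/2` remains.  Apply `fibre_conc` for all these
`w` (with the parameter `2t + 3`) and take the most popular `d` (at most `pw C t + 1` values).
`(1 + 1/256) (1 - 1/1024) ≥ 1 + 1/2^9`. -/
theorem exists_fam : ∃ C : ℕ, ∀ (t R : ℕ) (V M : Type) [AddCommGroup V] [Module (ZMod 2) V]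
    [Finite V] [AddCommGroup M] [Module (ZMod 2) M] [Finite M] (q : V → M) (φ : Bil V M)
    (F : Set V), IsQ q φ → HR φ R → pw C (rk M + t) ≤ R → (∀ y ∈ F, q y = 0) →
    (1 / 2 : ℝ) ^ t ≤ av (wf M F) → (1 / 2 : ℝ) ^ t ≤ BM φ F →
    (∃ r', r' ≤ rk M + pw C t ∧ IC F ((1 + 1 / 2 ^ 22) * av (wf M F)) (rk V) r') ∨
    ∃ (d : ℕ) (Ω : Set V) (Ξ : V → V →ₗ[ZMod 2] (Fin d → ZMod 2)), d ≤ pw C t ∧
      Fam φ F (pw C t) ((1 + 1 / 2 ^ 9) * av (wf M F) ^ 2) Ω Ξ := by
  classical
  obtain ⟨C₁, hC₁⟩ := rkm_neg 1024 (by norm_num)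
  obtain ⟨C₂, hC₂⟩ := ic_of_conc
  obtain ⟨C₃, hC₃⟩ := fibre_conc
  obtain ⟨C, hC⟩ := st2_bounds C₁ C₂ C₃
  refine ⟨C, fun t R V M _ _ _ _ _ _ q φ F hq hR hCR hF hβ hBM => ?_⟩
  have hm := nc_pos (α := M)
  set β : ℝ := av (wf M F) with hβdef
  have hβ0 : 0 < β := lt_of_lt_of_le (by positivity) hβ
  obtain ⟨hτ1, hτ2, hτ3⟩ := hC (rk M + t)
  obtain ⟨ht1, ht2, ht3⟩ := hC t
  have hhalf : (1 / 2 : ℝ) ^ (t + 3) = (1 / 2) ^ t / 8 := by
    rw [pow_add]
    ring
  have hp : (0 : ℝ) < (1 / 2) ^ t := by positivity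
  set S : Set V := {w | cor (wf M F) (wf M F) w < (1 - 1 / 1024) * β ^ 2} with hS
  by_cases hcase : (1 / 2 : ℝ) ^ (t + 3) ≤ dn S
  · -- case A
    left
    have h1 : av (fun x => ind S x * cor (wf M F) (wf M F) x) ≤
        (1 - 1 / ((1024 : ℕ) : ℝ)) * β ^ 2 * dn S := by
      rw [dn, ← av_mul_left]
      refine av_le_av fun w => ?_
      by_cases hw : w ∈ S
      · rw [ind_pos hw, one_mul, mul_one]
        have h2 : cor (wf M F) (wf M F) w < (1 - 1 / 1024) * β ^ 2 := hw
        push_cast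
        exact h2.le
      · rw [ind_neg hw, zero_mul, mul_zero]
    have hconc := hC₁ (t + 3) R V M q φ F S hq hR
      (by
        refine le_trans ?_ (hτ2.trans hCR)
        exact pw_mono C₁ (by omega)) hF
      (by rw [hhalf]; linarith) hcase h1
    obtain ⟨r', hr', hIC⟩ := hC₂ 18 R (pw C₁ (t + 3)) (pw C₁ (t + 3)) V M q φ F
      ((1 + 1 / (128 * ((1024 : ℕ) : ℝ))) * β) hq hR
      (by
        refine le_trans (pw_mono C₂ ?_) (hτ1.trans hCR)
        have h3 : pw C₁ (t + 3) ≤ pw C₁ (rk M + t + 3) := pw_mono C₁ (by omega)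
        omega) hF (by positivity) hconc
    refine ⟨r', by omega, hIC.mono ?_⟩
    have h4 : (1 + 1 / 2 ^ 22 : ℝ) ≤ (1 - (1 / 2) ^ 18) * (1 + 1 / (128 * ((1024 : ℕ) : ℝ))) := by
      norm_num
    calc (1 + 1 / 2 ^ 22) * β ≤
          ((1 - (1 / 2) ^ 18) * (1 + 1 / (128 * ((1024 : ℕ) : ℝ)))) * β :=
          mul_le_mul_of_nonneg_right h4 hβ0.le
      _ = _ := by ring
  · -- case B
    right
    push Not at hcase
    set B : V → ℝ := fun w =>
      av fun x => nc M * ind {x | φ x w = 0 ∧ PK (wf M F) x w = 0} x with hB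
    have hBdn : ∀ w, B w = nc M * dn {x | φ x w = 0 ∧ PK (wf M F) x w = 0} := fun w => by
      rw [hB]
      exact av_mul_left _ _
    have hB0 : ∀ w, 0 ≤ B w := fun w => by
      rw [hBdn]
      exact mul_nonneg hm.le (dn_nonneg _)
    have hBm : ∀ w, B w ≤ nc M := fun w => by
      rw [hBdn]
      have := dn_le_one {x | φ x w = 0 ∧ PK (wf M F) x w = 0}
      nlinarith
    have hBgen : ∀ w, Gen φ ![w] → B w ≤ 1 := fun w hw => by
      have hsurj : Function.Surjective (φ w) := by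
        intro m
        obtain ⟨y, hy⟩ := hw fun _ => m
        exact ⟨y, congrFun hy 0⟩
      rw [hBdn, ← dn_fibre (φ w) hsurj 0]
      refine mul_le_mul_of_nonneg_left (dn_mono fun x hx => ?_) hm.le
      have h1 : φ x w = 0 := hx.1
      rw [hq.symm x w] at h1
      exact h1
    set T : Set V := {w | Gen φ ![w] ∧ (1 / 2 : ℝ) ^ (t + 1) ≤ B w} with hT
    have hpt : ∀ w, B w ≤ ind T w + (1 / 2 : ℝ) ^ (t + 1) +
        nc M * ind {x | ¬ Gen φ ![x]} w := by
      intro w
      by_cases hg : Gen φ ![w]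
      · rw [ind_neg (A := {x | ¬ Gen φ ![x]}) fun h => h hg, mul_zero, add_zero]
        by_cases hb : (1 / 2 : ℝ) ^ (t + 1) ≤ B w
        · rw [ind_pos (A := T) ⟨hg, hb⟩]
          have h1 := hBgen w hg
          have h2 : (0 : ℝ) < (1 / 2) ^ (t + 1) := by positivity
          linarith
        · rw [ind_neg (A := T) fun h => hb h.2]
          push Not at hb
          linarith
      · rw [ind_pos (A := {x | ¬ Gen φ ![x]}) hg, ind_neg (A := T) fun h => hg h.1]
        have h1 := hBm w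
        have h2 : (0 : ℝ) < (1 / 2) ^ (t + 1) := by positivity
        linarith
    have hBMle : (1 / 2 : ℝ) ^ t ≤ dn T + (1 / 2 : ℝ) ^ (t + 1) + nc M * (nc M / 4 ^ R) := by
      have hne : Nonempty V := ⟨0⟩
      refine hBM.trans ?_
      have h1 : BM φ F = av B := rfl
      rw [h1]
      refine (av_le_av hpt).trans ?_
      rw [av_add, av_add, av_const, av_mul_left]
      have h2 := mul_le_mul_of_nonneg_left (av_not_gen_one φ hR) hm.le
      have h3 : av (ind T) = dn T := rfl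
      have h4 : (av fun x => ind T x) = dn T := rfl
      rw [h4]
      linarith
    have hsmall : nc M * (nc M / 4 ^ R) ≤ (1 / 2 : ℝ) ^ (t + 3) := by
      rw [nc_finrank, ← mul_div_assoc, ← pow_add, show (4 : ℝ) = 2 ^ 2 by norm_num, ← pow_mul,
        one_div, inv_pow, ← one_div, div_le_div_iff₀ (by positivity) (by positivity), one_mul,
        ← pow_add]
      refine pow_le_pow_right₀ (by norm_num) ?_
      have h6 : rk M = finrank (ZMod 2) M := rfl
      rw [← h6]
      omega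
    have hdT : 3 * (1 / 2 : ℝ) ^ (t + 3) ≤ dn T := by
      have h1 : (1 / 2 : ℝ) ^ (t + 1) = (1 / 2) ^ t / 2 := by
        rw [pow_add]
        ring
      rw [h1] at hBMle
      rw [hhalf] at hsmall ⊢
      linarith
    set Ω₀ : Set V := {w | w ∈ T ∧ w ∉ S} with hΩ₀
    have hdΩ : 2 * (1 / 2 : ℝ) ^ (t + 3) ≤ dn Ω₀ := by
      have h1 : dn T ≤ dn (Ω₀ ∪ S) := dn_mono fun w hw => by
        by_cases h2 : w ∈ S
        · exact Or.inr h2
        · exact Or.inl ⟨hw, h2⟩
      have h3 := dn_union_le Ω₀ S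
      linarith
    -- the data
    have hdata : ∀ w ∈ Ω₀, ∃ (d : ℕ), d ≤ pw C₃ (2 * t + 3) ∧
        ∃ Ξ : V →ₗ[ZMod 2] (Fin d → ZMod 2),
        (∀ j, (1 / 2 : ℝ) ^ pw C₃ (2 * t + 3) ≤
          |av fun y => wf M F y * wf M F (y + w) * sg (Ξ y j)|) ∧
        ∃ s : M × (Fin d → ZMod 2), (∃ y, ((φ w).prod Ξ) y = s) ∧
          (1 + 1 / 256) * cor (wf M F) (wf M F) w * dn {y | ((φ w).prod Ξ) y = s} ≤
            av fun y => ind {y | ((φ w).prod Ξ) y = s} y *
              (nc M * (ind F y * ind F (y + w))) := by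
      intro w hw
      obtain ⟨⟨hg, hb⟩, hwS⟩ := hw
      have hcor : (1 - 1 / 1024) * β ^ 2 ≤ cor (wf M F) (wf M F) w := not_lt.1 hwS
      have h2t : (1 / 2 : ℝ) ^ (2 * t + 3) = ((1 / 2) ^ t) ^ 2 / 8 := by
        rw [pow_add, pow_mul']
        ring
      have hβ2 : ((1 / 2 : ℝ) ^ t) ^ 2 ≤ β ^ 2 := pow_le_pow_left₀ hp.le hβ 2
      have hp2 : 0 < ((1 / 2 : ℝ) ^ t) ^ 2 := by positivity
      obtain ⟨d, Ξ, hd, hj, hs⟩ := hC₃ (2 * t + 3) R V M q φ F w hq hR
        (by
          refine le_trans (pw_mono C₃ ?_) (le_trans (Nat.le_add_left _ _) (hτ3.trans hCR))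
          omega) hF hg
        (by rw [h2t]; linarith)
        (by
          rw [← hBdn]
          refine le_trans ?_ hb
          exact pow_le_pow_of_le_one (by norm_num) (by norm_num) (by omega))
      exact ⟨d, hd, Ξ, hj, hs⟩
    choose! dd hdd hΞ using hdata
    have hne : Ω₀.Nonempty := nonempty_of_dn_pos (lt_of_lt_of_le (by positivity) hdΩ)
    obtain ⟨d, hd⟩ := st2_popular Ω₀ (pw C₃ (2 * t + 3) + 1) dd
      (fun w hw => Nat.lt_succ_of_le (hdd w hw)) hne
    set Ω : Set V := {w | w ∈ Ω₀ ∧ dd w = d} with hΩ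
    have hΩpos : 0 < dn Ω := by
      by_contra hcon
      push Not at hcon
      have h1 : dn Ω = 0 := le_antisymm hcon (dn_nonneg _)
      rw [h1, mul_zero] at hd
      have h2 : 0 < 2 * (1 / 2 : ℝ) ^ (t + 3) := by positivity
      linarith
    obtain ⟨w₀, hw₀⟩ := nonempty_of_dn_pos hΩpos
    have hdle : d ≤ pw C₃ (2 * t + 3) := by
      rw [← hw₀.2]
      exact hdd w₀ hw₀.1
    have hQ : ∀ w ∈ Ω, ∃ Ξ : V →ₗ[ZMod 2] (Fin d → ZMod 2),
        (∀ j, (1 / 2 : ℝ) ^ pw C₃ (2 * t + 3) ≤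
          |av fun y => wf M F y * wf M F (y + w) * sg (Ξ y j)|) ∧
        ∃ s : M × (Fin d → ZMod 2), (∃ y, ((φ w).prod Ξ) y = s) ∧
          (1 + 1 / 256) * cor (wf M F) (wf M F) w * dn {y | ((φ w).prod Ξ) y = s} ≤
            av fun y => ind {y | ((φ w).prod Ξ) y = s} y *
              (nc M * (ind F y * ind F (y + w))) := by
      rintro w ⟨hw, rfl⟩
      exact hΞ w hw
    choose! Ξ hΞ1 hΞ2 using hQ
    refine ⟨d, Ω, Ξ, by omega, ?_, fun w hw => ⟨hw.1.1.1, fun j => ?_, ?_⟩⟩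
    · -- density
      set D := pw C₃ (2 * t + 3) with hD
      have h1 : ((D : ℝ) + 1) ≤ 2 ^ (D + 1) := by
        have h2 : D + 1 < 2 ^ (D + 1) := Nat.lt_two_pow_self
        exact_mod_cast h2.le
      have h3 : 2 * (1 / 2 : ℝ) ^ (t + 3) ≤ 2 ^ (D + 1) * dn Ω := by
        refine hdΩ.trans (hd.trans ?_)
        push_cast
        exact mul_le_mul_of_nonneg_right h1 hΩpos.le
      have h4 : (1 / 2 : ℝ) ^ (t + 3 + D) ≤ dn Ω := by
        have h5 : (2 : ℝ) ^ (D + 1) * (1 / 2) ^ (D + 1) = 1 := by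
          rw [← mul_pow]
          norm_num
        have h6 : 2 * (1 / 2 : ℝ) ^ (t + 3) * (1 / 2) ^ (D + 1) ≤
            2 ^ (D + 1) * dn Ω * (1 / 2) ^ (D + 1) :=
          mul_le_mul_of_nonneg_right h3 (by positivity)
        have h7 : 2 ^ (D + 1) * dn Ω * (1 / 2) ^ (D + 1) = dn Ω := by
          calc 2 ^ (D + 1) * dn Ω * (1 / 2) ^ (D + 1) =
                ((2 : ℝ) ^ (D + 1) * (1 / 2) ^ (D + 1)) * dn Ω := by ring
            _ = dn Ω := by rw [h5, one_mul]
        rw [h7] at h6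
        refine le_trans (le_of_eq ?_) h6
        rw [pow_add, pow_succ (1 / 2 : ℝ) D]
        ring
      refine le_trans ?_ h4
      exact pow_le_pow_of_le_one (by norm_num) (by norm_num) ht3
    · refine le_trans ?_ (hΞ1 w hw j)
      exact pow_le_pow_of_le_one (by norm_num) (by norm_num) (by omega)
    · obtain ⟨s, hs, hle⟩ := hΞ2 w hw
      refine ⟨s, hs, le_trans ?_ hle⟩
      refine mul_le_mul_of_nonneg_right ?_ (dn_nonneg _)
      have hcor : (1 - 1 / 1024) * β ^ 2 ≤ cor (wf M F) (wf M F) w := not_lt.1 hw.1.2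
      have hβ2 : 0 ≤ β ^ 2 := by positivity
      nlinarith

end G2
end
end

section

section

/-!
# Job PF1: Balog-Szemeredi-Gowers in groups of exponent two
-/

set_option autoImplicit false

open Module

namespace G2

open scoped Pointwise

open Classical in
/-- `X` finite subset of a finite `F_2` space with at least `δ |X|^3` additive quadruples.  Let
`D = {z : r(z) ≥ δ |X| / 2}`, `r(z) = #{(x,y) ∈ X² : x + y = z}`.  Then `|D| ≤ 2 |X| / δ`, and the
number of pairs with `x - y = x + y ∈ D` is at least `(δ/2) |X|^2` (`∑ r(z)^2 ≥ δ |X|^3`, the `z`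
outside of `D` contribute at most `δ |X|^3 / 2`, and `r(z) ≤ |X|`).  Apply
`Pool.Agent.Lib.MP_dd2a7c_co.bsg_diff` with `δ/2`:
`|X'| ≥ (δ/8) |X|` and `|X' - X'| ≤ 1024 (2/δ)^4 (2/δ)^5 |X| ≤ 2^22 δ^(-10) |X'|`. -/
theorem bsg_two {G : Type} [AddCommGroup G] [Module (ZMod 2) G] [Finite G] (X : Finset G) (δ : ℝ)
    (hδ : 0 < δ) (hδ1 : δ ≤ 1) (hX : X.Nonempty)
    (h : δ * (X.card : ℝ) ^ 3 ≤ (((X ×ˢ X ×ˢ X).filter
      (fun p => p.1 + p.2.1 + p.2.2 ∈ X)).card : ℝ)) :
    ∃ X' ⊆ X, δ / 8 * X.card ≤ X'.card ∧ X'.Nonempty ∧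
      ((X' + X').card : ℝ) ≤ 2 ^ 22 / δ ^ 10 * X'.card := by
  classical
  set n : ℝ := (X.card : ℝ) with hn
  have hn0 : 0 < n := by rw [hn]; exact_mod_cast hX.card_pos
  let r : G → ℝ := fun z => ((X.filter fun w => z + w ∈ X).card : ℝ)
  have hr0 : ∀ z, r z ≤ n := fun z => by
    have : (X.filter fun w => z + w ∈ X).card ≤ X.card := Finset.card_filter_le _ _
    change ((X.filter fun w => z + w ∈ X).card : ℝ) ≤ n
    rw [hn]
    exact_mod_cast this
  let D : Finset G := (X + X).filter fun z => δ / 2 * n ≤ r z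
  -- the number of quadruples
  have hcount : (((X ×ˢ X ×ˢ X).filter (fun p => p.1 + p.2.1 + p.2.2 ∈ X)).card : ℝ) =
      ∑ p ∈ X ×ˢ X, r (p.1 + p.2) := by
    rw [Finset.card_filter, Nat.cast_sum, Finset.sum_product, Finset.sum_product]
    refine Finset.sum_congr rfl fun x _ => ?_
    rw [Finset.sum_product]
    refine Finset.sum_congr rfl fun y _ => ?_
    change _ = ((X.filter fun w => x + y + w ∈ X).card : ℝ)
    rw [Finset.card_filter, Nat.cast_sum]
  rw [hcount] at h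
  -- the number of pairs with sum in `D`
  have hP : δ / 2 * n ^ 2 ≤ (((X ×ˢ X).filter (fun q => q.1 - q.2 ∈ D)).card : ℝ) := by
    have h1 : ∑ p ∈ X ×ˢ X, r (p.1 + p.2) ≤
        ∑ p ∈ X ×ˢ X, ((if p.1 - p.2 ∈ D then n else 0) + δ / 2 * n) := by
      refine Finset.sum_le_sum fun p hp => ?_
      rw [Finset.mem_product] at hp
      have e : p.1 - p.2 = p.1 + p.2 := by
        rw [sub_eq_add_neg]
        congr 1
        exact (eq_of_add_eq_zero (by rw [neg_add_cancel] : -p.2 + p.2 = 0))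
      rw [e]
      have hmem : p.1 + p.2 ∈ X + X := Finset.add_mem_add hp.1 hp.2
      by_cases hD : δ / 2 * n ≤ r (p.1 + p.2)
      · rw [if_pos (Finset.mem_filter.2 ⟨hmem, hD⟩)]
        have := hr0 (p.1 + p.2)
        have : 0 ≤ δ / 2 * n := by positivity
        linarith [hr0 (p.1 + p.2)]
      · have hh : ¬ (p.1 + p.2 ∈ D) := fun hh => hD (Finset.mem_filter.1 hh).2
        rw [if_neg hh]
        linarith [not_le.1 hD]
    rw [Finset.sum_add_distrib, ← Finset.sum_filter, Finset.sum_const, Finset.sum_const,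
      nsmul_eq_mul, nsmul_eq_mul, Finset.card_product] at h1
    push_cast at h1
    rw [← hn] at h1
    have h2 : δ / 2 * n ^ 2 * n ≤ (((X ×ˢ X).filter (fun q => q.1 - q.2 ∈ D)).card : ℝ) * n := by
      nlinarith [h, h1]
    exact le_of_mul_le_mul_right h2 hn0
  -- the size of `D`
  have hD : (D.card : ℝ) ≤ 2 * n / δ := by
    have h1 : (D.card : ℝ) * (δ / 2 * n) ≤ ∑ z ∈ D, r z := by
      rw [← nsmul_eq_mul]
      exact Finset.card_nsmul_le_sum _ _ _ fun z hz => (Finset.mem_filter.1 hz).2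
    have h2 : ∑ z ∈ D, r z ≤ n * n := by
      have h3 : ∑ z ∈ D, r z = ∑ w ∈ X, ((D.filter fun z => z + w ∈ X).card : ℝ) := by
        have e1 : ∀ z, r z = ∑ w ∈ X, (if z + w ∈ X then (1 : ℝ) else 0) := fun z => by
          change ((X.filter fun w => z + w ∈ X).card : ℝ) = _
          rw [Finset.card_filter]
          push_cast
          rfl
        have e2 : ∀ w, ((D.filter fun z => z + w ∈ X).card : ℝ) =
            ∑ z ∈ D, (if z + w ∈ X then (1 : ℝ) else 0) := fun w => by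
          rw [Finset.card_filter]
          push_cast
          rfl
        simp only [e1, e2]
        exact Finset.sum_comm
      rw [h3]
      refine (Finset.sum_le_card_nsmul _ _ n fun w _ => ?_).trans (by rw [nsmul_eq_mul])
      have h4 : (D.filter fun z => z + w ∈ X).card ≤ X.card := by
        refine Finset.card_le_card_of_injOn (fun z => z + w) ?_ ?_
        · intro z hz
          exact (Finset.mem_filter.1 (Finset.mem_coe.1 hz)).2
        · intro z _ z' _ hzz
          exact add_right_cancel hzz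
      rw [hn]
      exact_mod_cast h4
    have h5 := h1.trans h2
    rw [le_div_iff₀ hδ]
    have h6 : (D.card : ℝ) * δ * n ≤ 2 * n * n := by linarith
    exact le_of_mul_le_mul_right h6 hn0
  obtain ⟨B, hBX, hB1, hB2⟩ := Pool.Agent.Lib.MP_dd2a7c_co.bsg_diff X D (δ / 2) (by positivity) hX hP
  rw [← hn] at hB1 hB2
  have hB1' : δ / 8 * n ≤ B.card := by linarith
  have hBpos : (0 : ℝ) < B.card := lt_of_lt_of_le (by positivity) hB1'
  refine ⟨B, hBX, hB1', ?_, ?_⟩
  · rw [← Finset.card_pos]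
    exact_mod_cast hBpos
  · have e : B + B = B - B := by
      ext x
      simp only [Finset.mem_add, Finset.mem_sub]
      have e1 : ∀ a b : G, a - b = a + b := fun a b => by
        rw [sub_eq_add_neg]
        congr 1
        exact (eq_of_add_eq_zero (by rw [neg_add_cancel] : -b + b = 0))
      simp only [e1]
    rw [e]
    have hD4 : (D.card : ℝ) ^ 4 ≤ (2 * n / δ) ^ 4 := pow_le_pow_left₀ (Nat.cast_nonneg _) hD 4
    have h1 : ((B - B).card : ℝ) * ((δ / 2) ^ 5 * n ^ 3) ≤ 1024 * (2 * n / δ) ^ 4 :=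
      hB2.trans (by linarith)
    have h2 : ((B - B).card : ℝ) ≤ 2 ^ 19 * n / δ ^ 9 := by
      rw [le_div_iff₀ (by positivity)]
      have h3 : ((B - B).card : ℝ) * δ ^ 9 * (n ^ 3 / 32 / δ ^ 4) =
          ((B - B).card : ℝ) * ((δ / 2) ^ 5 * n ^ 3) := by
        field_simp
        ring
      have h4 : 2 ^ 19 * n * (n ^ 3 / 32 / δ ^ 4) = 1024 * (2 * n / δ) ^ 4 := by
        field_simp
        ring
      have h5 : (0 : ℝ) < n ^ 3 / 32 / δ ^ 4 := by positivity
      refine le_of_mul_le_mul_right ?_ h5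
      rw [h3, h4]
      exact h1
    refine h2.trans ?_
    have h3 : 2 ^ 22 / δ ^ 10 * (δ / 8 * n) ≤ 2 ^ 22 / δ ^ 10 * (B.card : ℝ) :=
      mul_le_mul_of_nonneg_left hB1' (by positivity)
    refine le_trans (le_of_eq ?_) h3
    field_simp
    ring

end G2
end

section

/-!
# Job RG1: regularisation of a quadratic map
-/

set_option autoImplicit false

open Module

namespace G2

/-- state of the iteration: `IC` with a quadratic map of high rank -/
def St {V : Type} [AddCommGroup V] [Module (ZMod 2) V] (A : Set V) (θ : ℝ) (n r R : ℕ) : Prop :=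
  ∃ (i : (Fin n → ZMod 2) →ₗ[ZMod 2] V) (b : V) (q : (Fin n → ZMod 2) → (Fin r → ZMod 2))
    (φ : Bil (Fin n → ZMod 2) (Fin r → ZMod 2)),
    Function.Injective i ∧ IsQ q φ ∧ HR φ R ∧ (∃ x, q x = 0) ∧
      θ * nc {x // q x = 0} ≤ nc {x // b + i x ∈ A ∧ q x = 0}

private theorem rg1_nc_sub {α : Type} [Finite α] (P : α → Prop) :
    nc {x // P x} = su (ind {x | P x}) := by
  classical
  have := Fintype.ofFinite α
  rw [su_eq, nc, Nat.card_eq_fintype_card, Fintype.card_subtype, Finset.card_filter]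
  push_cast
  refine Finset.sum_congr rfl fun x _ => ?_
  by_cases h : P x
  · rw [if_pos h, ind_pos (A := {x | P x}) h]
  · rw [if_neg h, ind_neg (A := {x | P x}) h]

/-- Section 4, one step.  If `¬ HR φ R`, some `a ≠ 0` has a kernel `K` of density `> 4^(-R)`, of
codimension `< 2R`.  `k ↦ a(q k) + a(q 0)` is linear on `K`; let `K'` be its kernel (codimension
`≤ 2R`).  On every coset `x + K'`, `a(q(x + k)) = a(q x) + a(q k) + a(q 0) = a(q x)` is constant.
Averaging over the cosets, some coset `x + K'` satisfies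
`θ |{q = 0} ∩ (x + K')| ≤ |F ∩ (x + K')|` and `{q = 0} ∩ (x + K') ≠ ∅` (`0 < θ`; if all cosets meeting
`{q=0}` failed, summing would contradict the hypothesis; if `F ∩ (x+K') ≠ ∅` then also
`{q=0} ∩ (x + K') ≠ ∅`).  On it `a ∘ q = 0`; identify `ker a` with `F_2^(r-1)` and `K'` with
`F_2^(n')`. -/
theorem reg_step {V : Type} [AddCommGroup V] [Module (ZMod 2) V] [Finite V] (A : Set V) (θ : ℝ)
    (hθ : 0 < θ) (n r R : ℕ) (h : IC A θ n r) :
    St A θ n r R ∨ ∃ n' r', r' + 1 = r ∧ n ≤ n' + (2 * R + 1) ∧ IC A θ n' r' := by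
  classical
  obtain ⟨i, b, q, φ, hi, hq, ⟨x0, hx0⟩, hθ1⟩ := h
  by_cases hR : HR φ R
  · exact Or.inl ⟨i, b, q, φ, hi, hq, hR, ⟨x0, hx0⟩, hθ1⟩
  right
  unfold HR at hR
  push Not at hR
  obtain ⟨a, ha, hlt⟩ := hR
  -- the kernel
  set K : Submodule (ZMod 2) (Fin n → ZMod 2) := LinearMap.ker (φ.compr₂ a) with hK
  have hKm : ∀ x, x ∈ K ↔ ∀ y, a (φ x y) = 0 := by
    intro x
    rw [hK, LinearMap.mem_ker]
    constructor
    · intro h1 y
      have := LinearMap.congr_fun h1 y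
      simpa using this
    · intro h1
      ext y
      simpa using h1 _
  have hrkK : n < rk K + 2 * R := by
    have h1 : dn {x : Fin n → ZMod 2 | ∀ y, a (φ x y) = 0} = 2 ^ rk K / 2 ^ n := by
      rw [dn_eq_card]
      have e1 : {x : Fin n → ZMod 2 | ∀ y, a (φ x y) = 0} = (K : Set (Fin n → ZMod 2)) := by
        ext x
        exact (hKm x).symm
      rw [e1]
      have e2 : ((Nat.card (K : Set (Fin n → ZMod 2)) : ℕ) : ℝ) = 2 ^ rk K := nc_finrank (V := K)
      have e3 : ((Nat.card (Fin n → ZMod 2) : ℕ) : ℝ) = 2 ^ n := by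
        have := nc_finrank (V := Fin n → ZMod 2)
        rw [Module.finrank_fin_fun] at this
        exact this
      rw [e2, e3]
    rw [h1] at hlt
    have h2 : (2 : ℝ) ^ n < 2 ^ (rk K + 2 * R) := by
      have h3 : (4 : ℝ) ^ R = 2 ^ (2 * R) := by
        rw [pow_mul]
        norm_num
      rw [h3, ← mul_div_assoc, lt_div_iff₀ (by positivity), one_mul] at hlt
      rw [pow_add, mul_comm]
      exact hlt
    exact (pow_lt_pow_iff_right₀ (by norm_num : (1 : ℝ) < 2)).1 h2
  -- the linear functional on `K`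
  set g : K →ₗ[ZMod 2] ZMod 2 :=
    { toFun := fun k => a (q k) + a (q 0)
      map_add' := by
        intro k k'
        have h1 := hq (k : Fin n → ZMod 2) k'
        have h2 := (hKm k).1 k.2 k'
        rw [Submodule.coe_add, h1, map_add, map_add, map_add, h2, add_zero]
        have h3 : a (q k) + a (q k') + a (q 0) + a (q 0) =
          a (q k) + a (q 0) + (a (q k') + a (q 0)) := by abel
        exact h3
      map_smul' := by
        intro c k
        rcases zmod2 c with rfl | rfl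
        · rw [zero_smul, Submodule.coe_zero, RingHom.id_apply, zero_smul]
          exact add_self _
        · rw [one_smul, RingHom.id_apply, one_smul] } with hg
  have hgk : ∀ k : K, g k = a (q k) + a (q 0) := fun k => rfl
  set ι : LinearMap.ker g →ₗ[ZMod 2] (Fin n → ZMod 2) := K.subtype.comp (LinearMap.ker g).subtype
    with hι
  have hιinj : Function.Injective ι := by
    rw [hι, LinearMap.coe_comp]
    exact K.injective_subtype.comp (LinearMap.ker g).injective_subtype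
  have hιK : ∀ k : LinearMap.ker g, ∀ y, a (φ (ι k) y) = 0 := fun k => (hKm _).1 k.1.2
  have hιq : ∀ k : LinearMap.ker g, a (q (ι k)) = a (q 0) := by
    intro k
    have h1 : g k.1 = 0 := LinearMap.mem_ker.1 k.2
    rw [hgk] at h1
    exact eq_of_add_eq_zero h1
  have hrkg : rk K ≤ rk (LinearMap.ker g) + 1 := by
    have h1 := LinearMap.finrank_range_add_finrank_ker g
    have h2 : finrank (ZMod 2) (LinearMap.range g) ≤ 1 := by
      have := Submodule.finrank_le (LinearMap.range g)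
      rw [Module.finrank_self] at this
      exact this
    unfold rk
    omega
  -- `a ∘ q` is constant on cosets
  have hconst : ∀ x, ∀ k : LinearMap.ker g, a (q (x + ι k)) = a (q x) := by
    intro x k
    rw [hq x (ι k), map_add, map_add, map_add, hιq k, hq.symm x (ι k), hιK k x, add_zero,
      add_add_cancel]
  -- averaging
  set Nq : (Fin n → ZMod 2) → ℝ := fun x => su fun k : LinearMap.ker g =>
    ind {y | q y = 0} (x + ι k) with hNq
  set NA : (Fin n → ZMod 2) → ℝ := fun x => su fun k : LinearMap.ker g =>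
    ind {y | b + i y ∈ A ∧ q y = 0} (x + ι k) with hNA
  have hswap : ∀ S : Set (Fin n → ZMod 2), su (fun x => su fun k : LinearMap.ker g =>
      ind S (x + ι k)) = nc (LinearMap.ker g) * su (ind S) := by
    intro S
    rw [su_comm]
    have e : ∀ k : LinearMap.ker g, su (fun x => ind S (x + ι k)) = su (ind S) := fun k =>
      su_equiv (Equiv.addRight (ι k)) (ind S)
    simp only [e]
    rw [su_const]
  have hqsu : nc {x // q x = 0} = su (ind {y | q y = 0}) := rg1_nc_sub _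
  have hAsu : nc {x // b + i x ∈ A ∧ q x = 0} = su (ind {y | b + i y ∈ A ∧ q y = 0}) :=
    rg1_nc_sub _
  rw [hqsu, hAsu] at hθ1
  have hKpos := nc_pos (α := LinearMap.ker g)
  have hsum : 0 ≤ su fun x => NA x - θ * Nq x := by
    rw [su_sub, su_mul_left, hNA, hNq, hswap, hswap]
    nlinarith
  have hNAle : ∀ x, NA x ≤ Nq x := by
    intro x
    refine su_le_su fun k => ind_mono ?_ _
    intro y hy
    exact hy.2
  have hex : ∃ x, 0 < Nq x ∧ θ * Nq x ≤ NA x := by
    by_contra hcon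
    push Not at hcon
    have : Fintype (Fin n → ZMod 2) := Fintype.ofFinite _
    rw [su_eq] at hsum
    have hle : ∀ x, NA x - θ * Nq x ≤ 0 := by
      intro x
      rcases lt_or_ge 0 (Nq x) with h1 | h1
      · have := hcon x h1
        linarith
      · have h2 : 0 ≤ NA x := su_nonneg fun k => ind_nonneg _ _
        have h3 := hNAle x
        have h4 : Nq x = 0 := le_antisymm h1 (h2.trans h3)
        rw [h4] at h3
        rw [h4]
        linarith
    have hx0' : 0 < Nq x0 := by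
      have h1 := le_su (fun k : LinearMap.ker g => ind_nonneg {y | q y = 0} (x0 + ι k)) 0
      rw [map_zero, add_zero, ind_pos (A := {y | q y = 0}) hx0] at h1
      exact lt_of_lt_of_le one_pos h1
    have hlt' : ∑ x, (NA x - θ * Nq x) < ∑ _x : Fin n → ZMod 2, (0 : ℝ) :=
      Finset.sum_lt_sum (fun x _ => hle x) ⟨x0, Finset.mem_univ _, by
        have := hcon x0 hx0'
        linarith⟩
    rw [Finset.sum_const_zero] at hlt'
    have e : (∑ x, (NA x - θ * Nq x)) = ∑ x, (NA x - θ * Nq x) := rfl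
    linarith
  obtain ⟨x, hxpos, hxθ⟩ := hex
  -- some point of the coset is a zero of `q`
  obtain ⟨k0, hk0⟩ : ∃ k : LinearMap.ker g, q (x + ι k) = 0 := by
    by_contra hcon
    push Not at hcon
    have e : Nq x = 0 := by
      rw [hNq]
      have e1 : (fun k : LinearMap.ker g => ind {y | q y = 0} (x + ι k)) = fun _ => 0 :=
        funext fun k => ind_neg (hcon k)
      simp only [e1]
      rw [su_const, mul_zero]
    linarith
  have hax : ∀ k : LinearMap.ker g, q (x + ι k) ∈ LinearMap.ker a := by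
    intro k
    rw [LinearMap.mem_ker, hconst x k, ← hconst x k0, hk0, map_zero]
  obtain ⟨p, hp⟩ := LinearMap.exists_leftInverse_of_injective (LinearMap.ker a).subtype
    (by rw [Submodule.ker_subtype])
  have hp' : ∀ z ∈ LinearMap.ker a, p z = 0 → z = 0 := by
    intro z hz h0
    have h1 := LinearMap.congr_fun hp ⟨z, hz⟩
    rw [LinearMap.coe_comp, Function.comp_apply, Submodule.subtype_apply, LinearMap.id_apply] at h1
    rw [h0] at h1
    exact (congrArg Subtype.val h1).symm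
  have hzero : ∀ k : LinearMap.ker g, p (q (x + ι k)) = 0 ↔ q (x + ι k) = 0 := by
    intro k
    constructor
    · exact hp' _ (hax k)
    · intro h1
      rw [h1, map_zero]
  refine ⟨rk (LinearMap.ker g), rk (LinearMap.ker a), ?_, ?_, ?_⟩
  · have h1 := LinearMap.finrank_range_add_finrank_ker a
    rw [Module.finrank_fin_fun] at h1
    have h2 : LinearMap.range a = ⊤ := by
      rw [LinearMap.range_eq_top]
      exact LinearMap.surjective ha
    rw [h2, finrank_top, Module.finrank_self] at h1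
    unfold rk
    omega
  · omega
  · refine ic_of A θ (i.comp ι) (hi.comp hιinj) (b + i x)
      (q := fun k : LinearMap.ker g => p (q (x + ι k))) ((hq.pull ι x).comp p)
      ⟨k0, (hzero k0).2 hk0⟩ ?_
    rw [rg1_nc_sub, rg1_nc_sub]
    have e1 : (su (ind {k : LinearMap.ker g | p (q (x + ι k)) = 0})) = Nq x := by
      rw [hNq]
      refine congrArg su (funext fun k => ?_)
      by_cases h1 : q (x + ι k) = 0
      · rw [ind_pos (A := {y | q y = 0}) h1, ind_pos]
        exact (hzero k).2 h1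
      · rw [ind_neg (A := {y | q y = 0}) h1, ind_neg]
        exact fun h2 => h1 ((hzero k).1 h2)
    have e2 : (su (ind {k : LinearMap.ker g | b + i x + (i.comp ι) k ∈ A ∧
        p (q (x + ι k)) = 0})) = NA x := by
      rw [hNA]
      refine congrArg su (funext fun k => ?_)
      have e3 : b + i x + (i.comp ι) k = b + i (x + ι k) := by
        rw [map_add, add_assoc]
        rfl
      by_cases h1 : b + i (x + ι k) ∈ A ∧ q (x + ι k) = 0
      · rw [ind_pos (A := {y | b + i y ∈ A ∧ q y = 0}) h1, ind_pos]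
        exact ⟨by rw [e3]; exact h1.1, (hzero k).2 h1.2⟩
      · rw [ind_neg (A := {y | b + i y ∈ A ∧ q y = 0}) h1, ind_neg]
        rintro ⟨h2, h3⟩
        rw [e3] at h2
        exact h1 ⟨h2, (hzero k).1 h3⟩
    rw [e1, e2]
    exact hxθ

/-- induction on `r` -/
theorem reg1 {V : Type} [AddCommGroup V] [Module (ZMod 2) V] [Finite V] (A : Set V) (θ : ℝ)
    (hθ : 0 < θ) (n r R : ℕ) (h : IC A θ n r) :
    ∃ n' r', r' ≤ r ∧ n ≤ n' + (2 * R + 1) * (r - r') ∧ St A θ n' r' R := by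
  induction r generalizing n with
  | zero =>
    rcases reg_step A θ hθ n 0 R h with h1 | ⟨n', r', h1, _, _⟩
    · exact ⟨n, 0, le_rfl, Nat.le_add_right _ _, h1⟩
    · omega
  | succ r ih =>
    rcases reg_step A θ hθ n (r + 1) R h with h1 | ⟨n1, r1, h1, h2, h3⟩
    · exact ⟨n, r + 1, le_rfl, Nat.le_add_right _ _, h1⟩
    · have e : r1 = r := by omega
      subst e
      obtain ⟨n', r', h4, h5, h6⟩ := ih n1 h3
      refine ⟨n', r', by omega, ?_, h6⟩
      have e : r1 + 1 - r' = (r1 - r') + 1 := by omega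
      rw [e, Nat.mul_succ]
      omega

end G2
end

section

/-!
# Job BA2a: the base case, second half
-/

set_option autoImplicit false

open Module

namespace G2

theorem ba2a_cor_nonneg {V : Type} [AddCommGroup V] [Finite V] {f : V → ℝ} (hf : ∀ y, 0 ≤ f y)
    (x : V) : 0 ≤ cor f f x :=
  av_nonneg fun y => mul_nonneg (hf y) (hf _)

theorem ba2a_cor_le {V : Type} [AddCommGroup V] [Finite V] {f g : V → ℝ} (hf : ∀ y, 0 ≤ f y)
    (hfg : ∀ y, f y ≤ g y) (x : V) : cor f f x ≤ cor g g x :=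
  av_le_av fun y => mul_le_mul (hfg y) (hfg _) (hf _) ((hf y).trans (hfg y))

theorem ba2a_pow_sub {N : ℕ} (hN : 2 ^ 13 ≤ N) :
    (1 + 1 / 2 ^ 13 : ℝ) ^ N + 1 ≤ (1 + 1 / 2 ^ 12) ^ N := by
  have h0 : (1 : ℝ) ≤ 1 + 1 / 2 ^ 13 := by norm_num
  have h2 : (1 + 1 / 2 ^ 12 : ℝ) = (1 + 1 / 2 ^ 13) * (1 + 1 / (2 ^ 13 + 1)) := by norm_num
  have h3 : (1 : ℝ) + N * (1 / (2 ^ 13 + 1)) ≤ (1 + 1 / (2 ^ 13 + 1)) ^ N :=
    one_add_mul_le_pow (by norm_num) N
  have h1 : (1 : ℝ) + N * (1 / 2 ^ 13) ≤ (1 + 1 / 2 ^ 13) ^ N :=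
    one_add_mul_le_pow (by norm_num) N
  have hN' : (2 : ℝ) ^ 13 ≤ N := by exact_mod_cast hN
  rw [h2, mul_pow]
  have h4 : (2 : ℝ) ≤ (1 + 1 / 2 ^ 13) ^ N := by
    refine le_trans ?_ h1
    have : (1 : ℝ) ≤ N * (1 / 2 ^ 13) := by
      rw [mul_one_div, le_div_iff₀ (by positivity)]
      linarith
    linarith
  have h5 : (1 : ℝ) / 2 ≤ N * (1 / (2 ^ 13 + 1)) := by
    rw [mul_one_div, le_div_iff₀ (by positivity)]
    linarith
  nlinarith

/-- From a large moment to a set of popular differences: `0 ≤ f ≤ ν` on a space `G` with `HR φ R`,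
`E (f ∘ f)^N ≥ (1 + 2^(-12))^N B^(2N)`, `N = 2^13 (n + 1)`-like.  Outside of
`S = {f ∘ f ≥ (1 + 2^(-13)) B²}` the moment is at most `(1 + 2^(-13))^N B^(2N)`, and
`f ∘ f ≤ ν ∘ ν ≤ 2` for generic `x`, `≤ |M|²` otherwise, so
`2^N dn S ≥ ((1 + 2^(-12))^N - (1 + 2^(-13))^N) B^(2N) - |M|^(2N) |M| / 4^R ≥ B^(2N) / 2` if
`N ≥ 2^13`. -/
theorem popular_of_moment : ∃ C : ℕ, ∀ (t N R : ℕ) (V M : Type) [AddCommGroup V]
    [Module (ZMod 2) V] [Finite V] [AddCommGroup M] [Module (ZMod 2) M] [Finite M] (q : V → M)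
    (φ : Bil V M) (f : V → ℝ) (B : ℝ), IsQ q φ → HR φ R → pw C (rk M + t + N) ≤ R →
    (∀ y, 0 ≤ f y) → (∀ y, f y ≤ nu q y) → (1 / 2 : ℝ) ^ t ≤ B → B ≤ 4 → 2 ^ 13 ≤ N →
    (1 + 1 / 2 ^ 12) ^ N * B ^ (2 * N) ≤ (av fun x => cor f f x ^ N) →
    (1 / 2 : ℝ) ^ ((2 * t + 1) * N + 1) ≤ dn {x | (1 + 1 / 2 ^ 13) * B ^ 2 ≤ cor f f x} := by
  refine ⟨2, ?_⟩
  intro t N R V M _ _ _ _ _ _ q φ f B hq hR hRC hf hfν hB hB4 hN hmom
  have hpw : pw 2 (rk M + t + N) = (rk M + t + N + 2) ^ 2 := rfl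
  rw [hpw] at hRC
  have hBpos : 0 < B := lt_of_lt_of_le (by positivity) hB
  have hc0 : ∀ x, 0 ≤ cor f f x := ba2a_cor_nonneg hf
  have hθ0 : (0 : ℝ) ≤ (1 + 1 / 2 ^ 13) * B ^ 2 := by positivity
  -- the error term
  have her : er M 2 R ≤ 1 := by
    have h0 : 2 * (rk M + 1) + 0 ≤ R := by
      refine le_trans ?_ hRC
      rw [sq]
      calc 2 * (rk M + 1) + 0 ≤ (rk M + t + N + 2) * 2 := by omega
        _ ≤ (rk M + t + N + 2) * (rk M + t + N + 2) := Nat.mul_le_mul_left _ (by omega)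
    have h := er_le (M := M) (s := 2) (R := R) (D := 0) h0
    simpa using h
  -- pointwise bound
  have hpt : ∀ x, cor f f x ^ N ≤ ((1 + 1 / 2 ^ 13) * B ^ 2) ^ N +
      2 ^ N * ind {x | (1 + 1 / 2 ^ 13) * B ^ 2 ≤ cor f f x} x +
      nc M ^ (2 * N) * ind {x | ¬ Gen φ ![x]} x := by
    intro x
    have hn1 := ind_nonneg {x | (1 + 1 / 2 ^ 13) * B ^ 2 ≤ cor f f x} x
    have hn2 := ind_nonneg {x | ¬ Gen φ ![x]} x
    have hncp : (0 : ℝ) ≤ nc M ^ (2 * N) := pow_nonneg (nc_nonneg M) _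
    have hθN : (0 : ℝ) ≤ ((1 + 1 / 2 ^ 13) * B ^ 2) ^ N := pow_nonneg hθ0 _
    by_cases hS : (1 + 1 / 2 ^ 13) * B ^ 2 ≤ cor f f x
    · by_cases hg : Gen φ ![x]
      · have h1 : cor f f x ≤ 2 := by
          refine (ba2a_cor_le hf hfν x).trans ?_
          have h2 := cor_nu hq hR hg
          have h3 := (abs_le.1 h2).2
          linarith
        have h2 : cor f f x ^ N ≤ 2 ^ N := pow_le_pow_left₀ (hc0 x) h1 N
        rw [ind_pos (A := {x | (1 + 1 / 2 ^ 13) * B ^ 2 ≤ cor f f x}) hS, mul_one]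
        have h3 := mul_nonneg hncp hn2
        linarith
      · have h1 : cor f f x ≤ nc M ^ 2 := (ba2a_cor_le hf hfν x).trans (cor_nu_le q x)
        have h2 : cor f f x ^ N ≤ nc M ^ (2 * N) := by
          rw [pow_mul]
          exact pow_le_pow_left₀ (hc0 x) h1 N
        rw [ind_pos (A := {x | ¬ Gen φ ![x]}) hg, mul_one]
        have h3 : (0 : ℝ) ≤ 2 ^ N * ind {x | (1 + 1 / 2 ^ 13) * B ^ 2 ≤ cor f f x} x :=
          mul_nonneg (by positivity) hn1
        linarith
    · have h2 : cor f f x ^ N ≤ ((1 + 1 / 2 ^ 13) * B ^ 2) ^ N :=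
        pow_le_pow_left₀ (hc0 x) (not_le.1 hS).le N
      have h3 : (0 : ℝ) ≤ 2 ^ N * ind {x | (1 + 1 / 2 ^ 13) * B ^ 2 ≤ cor f f x} x :=
        mul_nonneg (by positivity) hn1
      have h4 := mul_nonneg hncp hn2
      linarith
  have hav := av_le_av hpt
  rw [av_add, av_add, av_const, av_mul_left, av_mul_left] at hav
  have hgen := av_not_gen_one φ hR
  have hncM : nc M = 2 ^ rk M := nc_finrank
  have hncp : (0 : ℝ) ≤ nc M ^ (2 * N) := pow_nonneg (nc_nonneg M) _
  -- the size of the error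
  have herr : nc M ^ (2 * N) * (av fun x : V => ind {x | ¬ Gen φ ![x]} x) ≤
      (1 / 2 : ℝ) ^ (2 * t * N + 1) := by
    refine (mul_le_mul_of_nonneg_left hgen hncp).trans ?_
    rw [hncM, ← pow_mul, ← mul_div_assoc, ← pow_add, one_div, inv_pow, ← one_div,
      div_le_div_iff₀ (by positivity) (by positivity), one_mul, ← pow_add,
      show (4 : ℝ) ^ R = 2 ^ (2 * R) by rw [pow_mul]; norm_num]
    apply pow_le_pow_right₀ (by norm_num)
    nlinarith [Nat.zero_le (rk M * t), Nat.zero_le (rk M * N), Nat.zero_le (t * N),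
      Nat.zero_le (rk M * rk M), Nat.zero_le (t * t), Nat.zero_le (N * N)]
  have hB2 : (1 / 2 : ℝ) ^ (2 * t * N) ≤ B ^ (2 * N) := by
    have h1 : (1 / 2 : ℝ) ^ (2 * t * N) = ((1 / 2 : ℝ) ^ t) ^ (2 * N) := by
      rw [← pow_mul]
      congr 1
      ring
    rw [h1]
    exact pow_le_pow_left₀ (by positivity) hB _
  have hgap := ba2a_pow_sub hN
  have hBN : (0 : ℝ) ≤ B ^ (2 * N) := by positivity
  have e1 : ((1 + 1 / 2 ^ 13) * B ^ 2) ^ N = (1 + 1 / 2 ^ 13) ^ N * B ^ (2 * N) := by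
    rw [mul_pow, ← pow_mul]
  rw [e1] at hav
  have h6 : ((1 + 1 / 2 ^ 13 : ℝ) ^ N + 1) * B ^ (2 * N) ≤ (1 + 1 / 2 ^ 12) ^ N * B ^ (2 * N) :=
    mul_le_mul_of_nonneg_right hgap hBN
  have h7 : (1 / 2 : ℝ) ^ (2 * t * N + 1) = (1 / 2 : ℝ) ^ (2 * t * N) * (1 / 2) := pow_succ _ _
  have h8 : (1 / 2 : ℝ) ^ (2 * t * N) * (1 / 2) ≤
      2 ^ N * dn {x | (1 + 1 / 2 ^ 13) * B ^ 2 ≤ cor f f x} := by
    have h9 : (dn {x | (1 + 1 / 2 ^ 13) * B ^ 2 ≤ cor f f x}) =
      av (fun x => ind {x | (1 + 1 / 2 ^ 13) * B ^ 2 ≤ cor f f x} x) := rfl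
    rw [h9]
    have h10 := hmom.trans hav
    nlinarith
  have h9 : (1 / 2 : ℝ) ^ ((2 * t + 1) * N + 1) = (1 / 2 : ℝ) ^ (2 * t * N) * (1 / 2) * (1 / 2) ^ N := by
    rw [← pow_succ, ← pow_add]
    congr 1
    ring
  rw [h9]
  have h10 : (0 : ℝ) ≤ (1 / 2) ^ N := by positivity
  have h11 := mul_le_mul_of_nonneg_right h8 h10
  refine h11.trans (le_of_eq ?_)
  rw [mul_comm ((2 : ℝ) ^ N), mul_assoc, ← mul_pow]
  norm_num

end G2
end

section

/-!
# Job PF2: the polynomial Freiman-Ruzsa theorem for sets in `F_2^n`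

From the entropic theorem `Pool.Agent.Lib.MP_dd2a7c_co.pfr_mod` (case `m = 2`).
-/

set_option autoImplicit false

open Module

namespace G2

open scoped Pointwise

open Pool.Agent.Lib.MP_dd2a7c_co Finset in
open Classical in
private lemma pf2_aux {G : Type} [AddCommGroup G] [Module (ZMod 2) G] [Finite G]
    (X : Finset G) (K : ℝ) (hX : X.Nonempty) (hK : 1 ≤ K)
    (hXK : ((X + X).card : ℝ) ≤ K * X.card) :
    ∃ (W : AddSubgroup G) (x : G), Real.log (Nat.card W) ≤ Real.log X.card + cm 2 * Real.log K ∧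
      Real.log X.card ≤ cm 2 * Real.log K +
        Real.log ((X.filter fun y => y + x ∈ W).card : ℝ) ∧
      0 < (X.filter fun y => y + x ∈ W).card := by
  have hXpos : (0 : ℝ) < X.card := Nat.cast_pos.2 hX.card_pos
  have : Nonempty X := hX.to_subtype
  have hlogK : 0 ≤ Real.log K := Real.log_nonneg hK
  set f : X → G := fun ω => (ω : G) with hf
  let u : X → ℝ := fun _ => 1 / (X.card : ℝ)
  have hu : IsProb u := by
    refine ⟨fun _ => by positivity, ?_⟩
    simp only [u, sum_const, nsmul_eq_mul, card_univ, Fintype.card_coe]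
    field_simp
  have hentu : ent u f = Real.log X.card := by
    apply le_antisymm
    · exact ent_le_log_card hu f X fun ω _ => ω.2
    · have h1 : ∀ a, pr u f a ≤ 1 / (X.card : ℝ) := by
        intro a
        unfold pr
        by_cases ha : a ∈ X
        · rw [sum_eq_single (⟨a, ha⟩ : X)]
          · rw [if_pos rfl]
          · intro b _ hb
            rw [if_neg]
            intro h
            exact hb (Subtype.ext h)
          · intro h
            exact absurd (mem_univ _) h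
        · rw [sum_eq_zero]
          · positivity
          · intro b _
            rw [if_neg]
            intro h
            exact ha (h ▸ b.2)
      have := neg_log_le_ent hu f h1
      rwa [one_div, Real.log_inv, neg_neg] at this
  have hdil1 : hdil u f 1 ≤ Real.log K + Real.log X.card := by
    have h1 : hdil u f 1 ≤ Real.log (X + X).card := by
      refine ent_le_log_card (isProb_prod hu hu) _ _ fun ω _ => ?_
      rw [one_smul, ZModModule.sub_eq_add]
      exact add_mem_add ω.1.2 ω.2.2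
    have h2 : Real.log (X + X).card ≤ Real.log (K * X.card) :=
      Real.log_le_log (Nat.cast_pos.2 (hX.add hX).card_pos) hXK
    rw [Real.log_mul (by linarith) hXpos.ne'] at h2
    linarith
  obtain ⟨W, hW⟩ := pfr_mod (F := G) (m := 2) le_rfl
    (fun z => ZModModule.char_nsmul_eq_zero 2 z) hu f
  have hcm : 0 ≤ cm 2 := cm_nonneg 2
  have hc1 : cm 2 * (hdil u f 1 - ent u f) ≤ cm 2 * Real.log K := by
    apply mul_le_mul_of_nonneg_left _ hcm
    linarith
  have hH0 : 0 ≤ entq W u f := ent_nonneg hu _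
  -- probabilities of cosets
  have hpr : ∀ x : G, pr u (fun ω : X => (QuotientAddGroup.mk (f ω) : G ⧸ W))
      (QuotientAddGroup.mk x : G ⧸ W) = ((X.filter fun y => y + x ∈ W).card : ℝ) / X.card := by
    intro x
    unfold pr
    have h1 : ∀ ω : X, ((QuotientAddGroup.mk (f ω) : G ⧸ W) = QuotientAddGroup.mk x) ↔
        f ω + x ∈ W := by
      intro ω
      rw [QuotientAddGroup.eq_iff_sub_mem, ZModModule.sub_eq_add]
    trans (∑ ω : X, if f ω + x ∈ W then 1 / (X.card : ℝ) else 0)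
    · refine sum_congr rfl fun ω _ => ?_
      by_cases hh : f ω + x ∈ W
      · rw [if_pos hh, if_pos ((h1 ω).2 hh)]
      · rw [if_neg hh, if_neg (fun h => hh ((h1 ω).1 h))]
    rw [Finset.sum_coe_sort X (fun y => if y + x ∈ W then 1 / (X.card : ℝ) else 0),
      ← Finset.sum_filter, sum_const, nsmul_eq_mul, mul_one_div]
  have hWpos : 0 < Nat.card W := Nat.card_pos
  have hfle : ∀ x : G, (X.filter fun y => y + x ∈ W).card ≤ Nat.card W := by
    intro x
    have := Fintype.ofFinite W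
    rw [Nat.card_eq_fintype_card, ← Finset.card_univ]
    refine Finset.card_le_card_of_injOn
      (fun y => if h : y + x ∈ W then (⟨y + x, h⟩ : W) else 0) (fun y _ => Finset.mem_univ _) ?_
    intro y hy y' hy' e
    have h1 : y + x ∈ W := (Finset.mem_filter.1 (Finset.mem_coe.1 hy)).2
    have h2 : y' + x ∈ W := (Finset.mem_filter.1 (Finset.mem_coe.1 hy')).2
    simp only [dif_pos h1, dif_pos h2] at e
    exact add_right_cancel (Subtype.ext_iff.1 e)
  -- maximal coset
  obtain ⟨x, hxm⟩ := Finite.exists_max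
    (fun x : G => (X.filter fun y => y + x ∈ W).card)
  have hpos : 0 < (X.filter fun y => y + x ∈ W).card := by
    obtain ⟨y, hy⟩ := hX
    refine lt_of_lt_of_le ?_ (hxm y)
    refine Finset.card_pos.2 ⟨y, Finset.mem_filter.2 ⟨hy, ?_⟩⟩
    rw [ZModModule.add_self]
    exact W.zero_mem
  have hposR : (0 : ℝ) < (X.filter fun y => y + x ∈ W).card := Nat.cast_pos.2 hpos
  have hb1 : Real.log X.card - Real.log ((X.filter fun y => y + x ∈ W).card : ℝ) ≤
      entq W u f := by
    have h := neg_log_le_ent hu (fun ω : X => (QuotientAddGroup.mk (f ω) : G ⧸ W))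
      (c := ((X.filter fun y => y + x ∈ W).card : ℝ) / X.card) (by
        intro a
        obtain ⟨z, rfl⟩ := QuotientAddGroup.mk_surjective a
        rw [hpr z]
        apply div_le_div_of_nonneg_right _ hXpos.le
        exact_mod_cast hxm z)
    rw [Real.log_div hposR.ne' hXpos.ne'] at h
    unfold entq
    linarith
  have hb2 : Real.log ((X.filter fun y => y + x ∈ W).card : ℝ) ≤ Real.log (Nat.card W) :=
    Real.log_le_log hposR (by exact_mod_cast hfle x)
  refine ⟨W, x, by linarith, by linarith, hpos⟩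

open Classical in
/-- Let `p` be the uniform distribution on `X` and `f` the inclusion.  `ent p f = log |X|`,
`hdil p f 1 = H(X - X') ≤ log |X - X| = log |X + X| ≤ log K + log |X|`.  `pfr_mod` with `m = 2` gives
`W` with `log |W| + 2 H(X mod W) ≤ log |X| + c log K`, `c = cm 2`.  As
`log |X| ≤ H(X mod W) + log |W|` and `H(X mod W) ≥ 0` we get
`log |W| ≤ log |X| + c log K`, `log |X| - log |W| ≤ c log K` and `H(X mod W) ≤ c log K`; so some
coset `x + W` contains at least `exp(-H(X mod W)) |X| ≥ K^(-c) |X|` elements of `X`. -/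
theorem pfr_two : ∃ C : ℕ, ∀ (G : Type) [AddCommGroup G] [Module (ZMod 2) G] [Finite G]
    (X : Finset G) (K : ℝ), X.Nonempty → 1 ≤ K → ((X + X).card : ℝ) ≤ K * X.card →
    ∃ (W : Submodule (ZMod 2) G) (x : G), nc W ≤ K ^ C * X.card ∧
      (X.card : ℝ) ≤ K ^ C * ((X.filter fun y => y + x ∈ W).card : ℝ) := by
  refine ⟨⌈Pool.Agent.Lib.MP_dd2a7c_co.cm 2⌉₊, ?_⟩
  intro G _ _ _ X K hX hK hXK
  obtain ⟨W, x, h1, h2, h3⟩ := pf2_aux X K hX hK hXK
  set C : ℕ := ⌈Pool.Agent.Lib.MP_dd2a7c_co.cm 2⌉₊ with hC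
  have hXpos : (0 : ℝ) < X.card := Nat.cast_pos.2 hX.card_pos
  have hlogK : 0 ≤ Real.log K := Real.log_nonneg hK
  have hcC : Pool.Agent.Lib.MP_dd2a7c_co.cm 2 * Real.log K ≤ (C : ℝ) * Real.log K :=
    mul_le_mul_of_nonneg_right (Nat.le_ceil _) hlogK
  have hKC : 0 < K ^ C := by positivity
  have hlogKC : Real.log (K ^ C) = (C : ℝ) * Real.log K := Real.log_pow _ _
  have hWpos : (0 : ℝ) < Nat.card W := Nat.cast_pos.2 Nat.card_pos
  refine ⟨AddSubgroup.toZModSubmodule 2 W, x, ?_, ?_⟩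
  · have h4 : Real.log (Nat.card W) ≤ Real.log (K ^ C * X.card) := by
      rw [Real.log_mul hKC.ne' hXpos.ne', hlogKC]
      linarith
    have h5 := (Real.log_le_log_iff hWpos (by positivity)).1 h4
    exact h5
  · have hpR : (0 : ℝ) < ((X.filter fun y => y + x ∈ W).card : ℝ) := Nat.cast_pos.2 h3
    have h4 : Real.log X.card ≤ Real.log (K ^ C * ((X.filter fun y => y + x ∈ W).card : ℝ)) := by
      rw [Real.log_mul hKC.ne' hpR.ne', hlogKC]
      linarith
    have h5 := (Real.log_le_log_iff hXpos (by positivity)).1 h4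
    exact h5

end G2
end

section

/-!
# Job END1: few bad pairs give the subspace
-/

set_option autoImplicit false

open Module

namespace G2

/-- the conclusion: a `t`-dimensional subspace all of whose planes have a translate in `A` -/
def Gdc {V : Type} [AddCommGroup V] [Module (ZMod 2) V] (A : Set V) (t : ℕ) : Prop :=
  ∃ U : Submodule (ZMod 2) V, rk U = t ∧
    ∀ x ∈ U, ∀ w ∈ U, ∃ y, y ∈ A ∧ y + x ∈ A ∧ y + w ∈ A ∧ y + x + w ∈ A

section
set_option linter.unusedSectionVars false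
variable {V M : Type} [AddCommGroup V] [Module (ZMod 2) V] [Finite V]
  [AddCommGroup M] [Module (ZMod 2) M] [Finite M]

/-- the law of one pair `(X A, X B)` -/
theorem end1_pair {q : V → M} {φ : Bil V M} (hq : IsQ q φ) {R : ℕ} (hR : HR φ R) (k : ℕ)
    (G : V → V → ℝ) (hG : ∀ x x', |G x x'| ≤ 1) (A B : Fin (k + 2) → ZMod 2) (hA : A ≠ 0)
    (hB : B ≠ 0) (hAB : A ≠ B) :
    ES q (k + 2) (fun _ x => G (lc x A) (lc x B)) ≤
      av (fun x => av fun x' => nc M * ind {x | φ x x' = 0} x * G x x') +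
        (er M 7 R + er M ((k + 6) ^ 3) R) := by
  have h1 := es_law q k 0 A B hA hB hAB (fun _ x x' => G x x')
  have h2 := es_two hq hR k (fun _ x x' => G x x') 1 (fun _ x x' => hG x x')
  have e0 : (av fun y => av fun x => av fun x' => w2 q y x x' * G x x') =
      av fun x => av fun x' => PK (nu q) x x' * G x x' := by
    rw [av_comm]
    congr 1
    funext x
    rw [av_comm]
    congr 1
    funext x'
    rw [av_mul_right]
    rfl
  have a4 : |(av fun x => av fun x' => PK (nu q) x x' * G x x') -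
      av fun x => av fun x' => nc M * ind {x | φ x x' = 0} x * G x x'| ≤ er M 7 R := by
    rw [← av_sub]
    simp only [← av_sub]
    have h3 : |av fun x => av fun x' => (PK (nu q) x x' * G x x' -
        nc M * ind {x | φ x x' = 0} x * G x x')| ≤
        av fun x => av fun x' => |PK (nu q) x x' - nc M * ind {x | φ x x' = 0} x| * 1 := by
      refine sa5_abs_av_le fun x => sa5_abs_av_le fun x' => ?_
      have h4 : PK (nu q) x x' * G x x' - nc M * ind {x | φ x x' = 0} x * G x x' =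
          (PK (nu q) x x' - nc M * ind {x | φ x x' = 0} x) * G x x' := by ring
      rw [h4, abs_mul]
      exact mul_le_mul_of_nonneg_left (hG x x') (abs_nonneg _)
    simp only [mul_one] at h3
    exact h3.trans (sa5_pk_av hq hR)
  rw [h1]
  rw [e0, one_mul] at h2
  have h5 := (abs_le.1 h2).2
  have h6 := (abs_le.1 a4).2
  linarith

theorem end1_ES_su {q : V → M} {D : ℕ} {α : Type} [Finite α] (f : α → V → (Fin D → V) → ℝ) :
    ES q D (fun y x => su fun a => f a y x) = su fun a => ES q D (f a) := by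
  unfold ES
  rw [← av_su_comm]
  congr 1
  funext z
  rw [su_mul_left]

theorem end1_ES_mul {q : V → M} {D : ℕ} (c : ℝ) (f : V → (Fin D → V) → ℝ) :
    ES q D (fun y x => c * f y x) = c * ES q D f := by
  unfold ES
  rw [← av_mul_left]
  congr 1
  funext z
  ring

theorem end1_ES_add {q : V → M} {D : ℕ} (f g : V → (Fin D → V) → ℝ) :
    ES q D (fun y x => f y x + g y x) = ES q D f + ES q D g := by
  unfold ES
  rw [← av_add]
  congr 1
  funext z
  ring

/-- the law of the bad pairs -/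
theorem end1_bad {q : V → M} {φ : Bil V M} (F : Set V) (hq : IsQ q φ) {R : ℕ}
    (hR : HR φ R) (k : ℕ) (A B : Fin (k + 2) → ZMod 2) (hA : A ≠ 0) (hB : B ≠ 0) (hAB : A ≠ B) :
    ES q (k + 2) (fun _ x => ind {p : V × V | φ p.1 p.2 = 0 ∧ PK (wf M F) p.1 p.2 = 0}
      (lc x A, lc x B)) ≤ BM φ F + (er M 7 R + er M ((k + 6) ^ 3) R) := by
  have h1 := end1_pair hq hR k
    (fun x x' => ind {p : V × V | φ p.1 p.2 = 0 ∧ PK (wf M F) p.1 p.2 = 0} (x, x'))
    (fun x x' => by
      rw [abs_of_nonneg (ind_nonneg _ _)]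
      exact ind_le_one _ _) A B hA hB hAB
  refine h1.trans (le_of_eq ?_)
  congr 1
  rw [BM, av_comm]
  congr 1
  funext w
  congr 1
  funext x
  rw [mul_assoc]
  congr 1
  by_cases h : φ x w = 0 ∧ PK (wf M F) x w = 0
  · rw [ind_pos (A := {x | φ x w = 0}) h.1,
      ind_pos (A := {p : V × V | φ p.1 p.2 = 0 ∧ PK (wf M F) p.1 p.2 = 0}) h,
      ind_pos (A := {x | φ x w = 0 ∧ PK (wf M F) x w = 0}) h, one_mul]
  · rw [ind_neg (A := {p : V × V | φ p.1 p.2 = 0 ∧ PK (wf M F) p.1 p.2 = 0}) h,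
      ind_neg (A := {x | φ x w = 0 ∧ PK (wf M F) x w = 0}) h, mul_zero]

/-- the law of `X A = 0` -/
theorem end1_zero {q : V → M} {φ : Bil V M} (hq : IsQ q φ) {R : ℕ}
    (hR : HR φ R) (k : ℕ) (A B : Fin (k + 2) → ZMod 2) (hA : A ≠ 0) (hB : B ≠ 0) (hAB : A ≠ B) :
    ES q (k + 2) (fun _ x => ind {v : V | v = 0} (lc x A)) ≤
      nc M / nc V + (er M 7 R + er M ((k + 6) ^ 3) R) := by
  have h1 := end1_pair hq hR k (fun x _ => ind {v : V | v = 0} x)
    (fun x x' => by
      rw [abs_of_nonneg (ind_nonneg _ _)]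
      exact ind_le_one _ _) A B hA hB hAB
  refine h1.trans (add_le_add_left ?_ _)
  have h2 : (av fun x : V => av fun x' : V => nc M * ind {x | φ x x' = 0} x *
      ind {v : V | v = 0} x) ≤ av fun x : V => av fun _ : V => nc M * ind {v : V | v = 0} x := by
    refine av_le_av fun x => av_le_av fun x' => ?_
    refine mul_le_mul_of_nonneg_right ?_ (ind_nonneg _ _)
    exact mul_le_of_le_one_right (nc_nonneg M) (ind_le_one _ _)
  refine h2.trans (le_of_eq ?_)
  have h3 : (fun x : V => av fun _ : V => nc M * ind {v : V | v = 0} x) =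
      fun x => nc M * ind {v : V | v = 0} x := by
    funext x
    rw [av_const]
  rw [h3, av_mul_left]
  have h4 := dn_eq_card {v : V | v = 0}
  rw [dn] at h4
  have h5 : av (fun x : V => ind {v : V | v = 0} x) = 1 / nc V := by
    refine h4.trans ?_
    have h6 : Nat.card {v : V | v = 0} = 1 := by
      rw [Nat.card_eq_one_iff_unique]
      exact ⟨⟨fun a b => Subtype.ext (a.2.trans b.2.symm)⟩, ⟨⟨0, rfl⟩⟩⟩
    rw [h6]
    unfold nc
    norm_num
  rw [h5]
  ring

theorem end1_other (k : ℕ) (A : Fin (k + 2) → ZMod 2) :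
    ∃ B : Fin (k + 2) → ZMod 2, B ≠ 0 ∧ A ≠ B := by
  classical
  by_contra h
  push Not at h
  have h1 := h (Pi.single 0 1) (by
    intro h
    have := congrFun h 0
    simp at this)
  have h2 := h (Pi.single 1 1) (by
    intro h
    have := congrFun h 1
    simp at this)
  have h3 : (Pi.single 0 1 : Fin (k + 2) → ZMod 2) = Pi.single 1 1 := h1.symm.trans h2
  have h4 := congrFun h3 0
  simp at h4

/-- from a good sample to the conclusion -/
theorem end1_out {q : V → M} {φ : Bil V M} (F : Set V) (hq : IsQ q φ) (k : ℕ) (y : V)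
    (x : Fin (k + 2) → V) (h0 : ∀ α : Fin (k + 2) → ZMod 2, q (pt y x α) = 0)
    (h1 : ∀ A : Fin (k + 2) → ZMod 2, A ≠ 0 → lc x A ≠ 0)
    (h2 : ∀ A B : Fin (k + 2) → ZMod 2, A ≠ 0 → B ≠ 0 → A ≠ B →
      ¬ (φ (lc x A) (lc x B) = 0 ∧ PK (wf M F) (lc x A) (lc x B) = 0)) :
    Gdc F (k + 2) := by
  classical
  -- planes
  have h3 : ∀ A B : Fin (k + 2) → ZMod 2, A ≠ 0 → B ≠ 0 → A ≠ B →
      ∃ z, z ∈ F ∧ z + lc x A ∈ F ∧ z + lc x B ∈ F ∧ z + lc x A + lc x B ∈ F := by
    intro A B hA hB hAB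
    have e1 : φ (lc x A) (lc x B) = 0 := by
      have h4 := qd4_four hq y (lc x A) (lc x B)
      have h5 := h0 0
      have h6 := h0 A
      have h7 := h0 B
      have h8 := h0 (A + B)
      rw [sa1_pt_zero] at h5
      rw [pt_eq] at h6 h7 h8
      rw [lc_add, ← add_assoc] at h8
      rw [h5, h6, h7, h8, zero_add, add_zero, zero_add] at h4
      exact h4.symm
    by_contra hno
    push Not at hno
    refine h2 A B hA hB hAB ⟨e1, ?_⟩
    unfold PK
    have e2 : (fun z => wf M F z * wf M F (z + lc x A) *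
        (wf M F (z + lc x B) * wf M F (z + lc x A + lc x B))) = fun _ => 0 := by
      funext z
      unfold wf
      by_cases hz1 : z ∈ F
      · by_cases hz2 : z + lc x A ∈ F
        · by_cases hz3 : z + lc x B ∈ F
          · rw [ind_neg (hno z hz1 hz2 hz3)]
            ring
          · rw [ind_neg hz3]
            ring
        · rw [ind_neg hz2]
          ring
      · rw [ind_neg hz1]
        ring
    rw [e2, av_const]
  -- the linear map
  let T : (Fin (k + 2) → ZMod 2) →ₗ[ZMod 2] V := Fintype.linearCombination (ZMod 2) x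
  have hT : ∀ A, T A = lc x A := fun A => (sa3_lc_eq x A).symm
  have hTi : Function.Injective T := by
    rw [← LinearMap.ker_eq_bot, LinearMap.ker_eq_bot']
    intro A hA
    by_contra h
    exact h1 A h (by rw [← hT]; exact hA)
  refine ⟨LinearMap.range T, ?_, ?_⟩
  · change finrank (ZMod 2) (LinearMap.range T) = k + 2
    rw [LinearMap.finrank_range_of_inj hTi]
    simp
  · rintro _ ⟨A, rfl⟩ _ ⟨B, rfl⟩
    rw [hT, hT]
    have hl0 : lc x (0 : Fin (k + 2) → ZMod 2) = 0 := by simp [lc]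
    by_cases hA : A = 0
    · subst hA
      by_cases hB : B = 0
      · subst hB
        obtain ⟨A', hA', -⟩ := end1_other k 0
        obtain ⟨B', hB', hAB'⟩ := end1_other k A'
        obtain ⟨z, hz, -⟩ := h3 A' B' hA' hB' hAB'
        rw [hl0]
        simp only [add_zero]
        exact ⟨z, hz, hz, hz, hz⟩
      · obtain ⟨B', hB', hAB'⟩ := end1_other k B
        obtain ⟨z, hz, hz1, -⟩ := h3 B B' hB hB' hAB'
        rw [hl0]
        simp only [add_zero]
        exact ⟨z, hz, hz, hz1, hz1⟩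
    · by_cases hB : B = 0
      · subst hB
        obtain ⟨B', hB', hAB'⟩ := end1_other k A
        obtain ⟨z, hz, hz1, -⟩ := h3 A B' hA hB' hAB'
        rw [hl0]
        simp only [add_zero]
        exact ⟨z, hz, hz1, hz, hz1⟩
      · by_cases hAB : A = B
        · subst hAB
          obtain ⟨B', hB', hAB'⟩ := end1_other k A
          obtain ⟨z, hz, hz1, -⟩ := h3 A B' hA hB' hAB'
          refine ⟨z, hz, hz1, hz1, ?_⟩
          rw [add_add_cancel]
          exact hz
        · exact h3 A B hA hB hAB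

end

theorem end1_arith (r t : ℕ) :
    (t + 4) ^ 3 * (r + 1) + (2 * t + 8) ≤ pw 12 (r + t) ∧
    7 * (r + 1) + (2 * t + 8) ≤ pw 12 (r + t) ∧ r + (2 * t + 8) ≤ pw 12 (r + t) := by
  have h0 : (2 : ℕ) ≤ r + t + 2 := by omega
  have h1 : t + 4 ≤ (r + t + 2) ^ 2 := by nlinarith
  have h2 : (t + 4) ^ 3 ≤ (r + t + 2) ^ 6 := by
    calc (t + 4) ^ 3 ≤ ((r + t + 2) ^ 2) ^ 3 := Nat.pow_le_pow_left h1 3
      _ = (r + t + 2) ^ 6 := by rw [← pow_mul]
  have h3 : (t + 4) ^ 3 * (r + 1) ≤ (r + t + 2) ^ 7 := by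
    rw [pow_succ (r + t + 2) 6]
    exact Nat.mul_le_mul h2 (by omega)
  have h4 : 7 * (r + 1) + (2 * t + 8) ≤ (r + t + 2) ^ 4 := by
    have h5 : 2 ^ 3 ≤ (r + t + 2) ^ 3 := Nat.pow_le_pow_left h0 3
    rw [pow_succ]
    have h6 := Nat.mul_le_mul_right (r + t + 2) h5
    omega
  have h5 : (r + t + 2) ^ 4 ≤ (r + t + 2) ^ 7 := Nat.pow_le_pow_right (by omega) (by norm_num)
  have h6 : 2 * (r + t + 2) ^ 7 ≤ (r + t + 2) ^ 8 := by
    rw [pow_succ (r + t + 2) 7, mul_comm]
    exact Nat.mul_le_mul_left _ h0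
  have h7 : (r + t + 2) ^ 8 ≤ pw 12 (r + t) := by
    unfold pw
    exact Nat.pow_le_pow_right (by omega) (by norm_num)
  refine ⟨?_, ?_, ?_⟩ <;> omega

/-- Section 6.  Sample with `D = t = k + 2`.  For independent `A, B ∈ F_2^t` the expected value of
`1[(X A, X B) bad]` is, by `es_law` and `es_two`, up to `er` the `w2` average of `1[(x,x') bad]`, i.e.
`E PK ν x x' 1[bad] ≤ BM + tiny` (`PK_nu`, `PK_nu_le`, `av_not_gen_two`), bad means
`φ(x,x') = 0`, `PK f x x' = 0`; `BM < 2^(-2t-3)`.  For `A ≠ 0` the expected value of `1[X A = 0]` is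
at most `er + |M|^4 / |V|`.  The sum over all pairs and all `A` is less than `1/2`, while the total
mass is at least `3/4` (`es_mass` with more precise error: use `es_two` with `G = 1` and `w2_mass`).
So some `(y, x)` of positive weight has `X` injective and no bad pair `(X A, X B)`, and
`φ(X A, X B) = 0` for all `A, B` because all points are in `{q = 0}`; so
`PK (wf M F) (X A) (X B) ≠ 0` for independent `A, B`, which gives `y`.  For dependent `A, B` use a
third vector (`t ≥ 2`). -/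
theorem stage_end : ∃ C : ℕ, ∀ (t R : ℕ) (V M : Type) [AddCommGroup V] [Module (ZMod 2) V]
    [Finite V] [AddCommGroup M] [Module (ZMod 2) M] [Finite M] (q : V → M) (φ : Bil V M)
    (F : Set V), IsQ q φ → HR φ R → pw C (rk M + t) ≤ R → pw C (rk M + t) ≤ rk V →
    (∀ y ∈ F, q y = 0) → 2 ≤ t → BM φ F < (1 / 2 : ℝ) ^ (2 * t + 3) → Gdc F t := by
  obtain ⟨C1, hC1⟩ := es_mass
  refine ⟨C1 + 12, ?_⟩
  intro t R V M _ _ _ _ _ _ q φ F hq hR hCR hCV _ ht hBM
  classical
  have hmass := hC1 t R V M q φ hq hR ht ((pw_mono_left (by omega) _).trans hCR)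
  have hpw : pw 12 (rk M + t) ≤ R := (pw_mono_left (by omega) _).trans hCR
  have hpw' : pw 12 (rk M + t) ≤ rk V := (pw_mono_left (by omega) _).trans hCV
  obtain ⟨har1, har2, har3⟩ := end1_arith (rk M) t
  obtain ⟨k, rfl⟩ : ∃ k, t = k + 2 := ⟨t - 2, by omega⟩
  set ε : ℝ := (1 / 2 : ℝ) ^ (2 * (k + 2) + 8) with hε
  have hε0 : 0 < ε := by positivity
  have he1 : er M 7 R ≤ ε := er_le (har2.trans hpw)
  have he2 : er M ((k + 6) ^ 3) R ≤ ε := er_le (har1.trans hpw)
  have he3 : nc M / nc V ≤ ε := by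
    rw [nc_finrank, nc_finrank, hε, div_le_iff₀ (by positivity)]
    have h1 : (2 : ℝ) ^ (rk M + (2 * (k + 2) + 8)) ≤ 2 ^ rk V :=
      pow_le_pow_right₀ (by norm_num) (har3.trans hpw')
    rw [pow_add] at h1
    rw [one_div, inv_pow]
    have h2 : (0 : ℝ) < 2 ^ (2 * (k + 2) + 8) := by positivity
    rw [inv_mul_eq_div, le_div_iff₀ h2]
    exact h1
  have he4 : (1 / 2 : ℝ) ^ (2 * (k + 2) + 3) = 32 * ε := by
    rw [hε, show 2 * (k + 2) + 8 = (2 * (k + 2) + 3) + 5 from rfl, pow_add _ (2 * (k + 2) + 3) 5]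
    ring
  rw [he4] at hBM
  -- the test function
  let Bad : Set (V × V) := {p : V × V | φ p.1 p.2 = 0 ∧ PK (wf M F) p.1 p.2 = 0}
  let S : Set ((Fin (k + 2) → ZMod 2) × (Fin (k + 2) → ZMod 2)) :=
    {p | p.1 ≠ 0 ∧ p.2 ≠ 0 ∧ p.1 ≠ p.2}
  let H : V → (Fin (k + 2) → V) → ℝ := fun _ x =>
    su fun p : (Fin (k + 2) → ZMod 2) × (Fin (k + 2) → ZMod 2) =>
      ind S p * (ind Bad (lc x p.1, lc x p.2) + ind {v : V | v = 0} (lc x p.1))
  have hH : ES q (k + 2) H ≤ 1 / 2 := by
    have e1 : ES q (k + 2) H = su fun p : (Fin (k + 2) → ZMod 2) × (Fin (k + 2) → ZMod 2) =>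
        ind S p * (ES q (k + 2) (fun _ x => ind Bad (lc x p.1, lc x p.2)) +
          ES q (k + 2) (fun _ x => ind {v : V | v = 0} (lc x p.1))) := by
      have e2 := end1_ES_su (q := q) (D := k + 2)
        (fun (p : (Fin (k + 2) → ZMod 2) × (Fin (k + 2) → ZMod 2)) (_ : V) x =>
          ind S p * (ind Bad (lc x p.1, lc x p.2) + ind {v : V | v = 0} (lc x p.1)))
      refine e2.trans ?_
      congr 1
      funext p
      rw [← end1_ES_add, ← end1_ES_mul]
    rw [e1]
    have e3 : ∀ p : (Fin (k + 2) → ZMod 2) × (Fin (k + 2) → ZMod 2),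
        ind S p * (ES q (k + 2) (fun _ x => ind Bad (lc x p.1, lc x p.2)) +
          ES q (k + 2) (fun _ x => ind {v : V | v = 0} (lc x p.1))) ≤ 37 * ε := by
      intro p
      by_cases hp : p ∈ S
      · rw [ind_pos hp, one_mul]
        have h1 := end1_bad F hq hR k p.1 p.2 hp.1 hp.2.1 hp.2.2
        have h2 := end1_zero hq hR k p.1 p.2 hp.1 hp.2.1 hp.2.2
        have h3 : ES q (k + 2) (fun _ x => ind Bad (lc x p.1, lc x p.2)) ≤ 34 * ε := by
          refine h1.trans ?_
          linarith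
        have h4 : ES q (k + 2) (fun _ x => ind {v : V | v = 0} (lc x p.1)) ≤ 3 * ε := by
          refine h2.trans ?_
          linarith
        linarith
      · rw [ind_neg hp, zero_mul]
        linarith
    refine (su_le_su e3).trans ?_
    rw [su_const]
    have e4 : nc ((Fin (k + 2) → ZMod 2) × (Fin (k + 2) → ZMod 2)) = 2 ^ (2 * (k + 2)) := by
      rw [nc_finrank, Module.finrank_prod, Module.finrank_fin_fun, ← two_mul]
    rw [e4, hε, pow_add (1 / 2 : ℝ), ← mul_assoc, mul_comm _ (37 : ℝ), mul_assoc (37 : ℝ),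
      ← mul_assoc ((2 : ℝ) ^ _), ← mul_pow]
    norm_num
  -- choose the sample
  have hmass' := (abs_le.1 hmass).1
  have h14 : (1 / 2 : ℝ) ^ (k + 2) ≤ 1 / 4 := by
    calc (1 / 2 : ℝ) ^ (k + 2) ≤ (1 / 2) ^ 2 :=
          pow_le_pow_of_le_one (by norm_num) (by norm_num) (by omega)
      _ = 1 / 4 := by norm_num
  obtain ⟨z, hz⟩ := exists_ge_av fun z : V × (Fin (k + 2) → V) => Wt q (k + 2) z * 1 -
    Wt q (k + 2) z * H z.1 z.2
  rw [av_sub] at hz
  have hz1 : ES q (k + 2) (fun _ _ => 1) - ES q (k + 2) H ≤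
      Wt q (k + 2) z * 1 - Wt q (k + 2) z * H z.1 z.2 := hz
  have hz2 : 0 < Wt q (k + 2) z * (1 - H z.1 z.2) := by
    have h1 : Wt q (k + 2) z * (1 - H z.1 z.2) =
      Wt q (k + 2) z * 1 - Wt q (k + 2) z * H z.1 z.2 := by ring
    rw [h1]
    linarith
  have hW := Wt_nonneg q (k + 2) z
  have hWpos : 0 < Wt q (k + 2) z := by
    rcases hW.eq_or_lt with h | h
    · rw [← h, zero_mul] at hz2
      exact absurd hz2 (lt_irrefl _)
    · exact h
  have hH1 : H z.1 z.2 < 1 := by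
    by_contra h
    push Not at h
    have := mul_nonpos_of_nonneg_of_nonpos hW (sub_nonpos.2 h)
    linarith
  have hnn : ∀ p : (Fin (k + 2) → ZMod 2) × (Fin (k + 2) → ZMod 2),
      0 ≤ ind S p * (ind Bad (lc z.2 p.1, lc z.2 p.2) + ind {v : V | v = 0} (lc z.2 p.1)) :=
    fun p => mul_nonneg (ind_nonneg _ _) (add_nonneg (ind_nonneg _ _) (ind_nonneg _ _))
  have hterm : ∀ p ∈ S, ind Bad (lc z.2 p.1, lc z.2 p.2) + ind {v : V | v = 0} (lc z.2 p.1) < 1 := by
    intro p hp
    have h1 := le_su hnn p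
    rw [ind_pos hp, one_mul] at h1
    exact lt_of_le_of_lt h1 hH1
  refine end1_out F hq k z.1 z.2 ?_ ?_ ?_
  · by_contra h
    have h1 : Wt q (k + 2) z = 0 := if_neg h
    rw [h1] at hWpos
    exact lt_irrefl _ hWpos
  · intro A hA hlc
    obtain ⟨B, hB, hAB⟩ := end1_other k A
    have h1 := hterm (A, B) ⟨hA, hB, hAB⟩
    have h2 : ind {v : V | v = 0} (lc z.2 A) = 1 := ind_pos hlc
    have h3 := ind_nonneg Bad (lc z.2 A, lc z.2 B)
    simp only at h1
    rw [h2] at h1
    linarith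
  · intro A B hA hB hAB hbad
    have h1 := hterm (A, B) ⟨hA, hB, hAB⟩
    have h2 : ind Bad (lc z.2 A, lc z.2 B) = 1 := ind_pos hbad
    have h3 := ind_nonneg {v : V | v = 0} (lc z.2 A)
    simp only at h1
    rw [h2] at h1
    linarith

end G2
end

section

/-!
# Job PF3: graphs of functions and subspaces
-/

set_option autoImplicit false

open Module

namespace G2

/-- Let `N = |{w ∈ Ω : (w, Γ w) + x ∈ W}|`, `π : W → V` the projection, `W₀ = {η : (0, η) ∈ W}`.  The
points `(w, Γ w)` counted in `N` have different first coordinates, so `N ≤ |π W| = |W| / |W₀|`, i.e.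
`|W₀| ≤ |W| / N ≤ K`.  Choose a linear map `Λ : V → H` with `(v, Λ v) ∈ W` for all `v ∈ π W` (a
linear section over `π W`, extended to `V`).  If `(w, Γ w) + x ∈ W`, then
`Γ w + x.2 + Λ (w + x.1) ∈ W₀`, so `Γ w = Λ w + (Λ x.1 + x.2 + η)` with `η ∈ W₀`; take the most
popular `η`. -/
theorem graph_linear {V H : Type} [AddCommGroup V] [Module (ZMod 2) V] [Finite V]
    [AddCommGroup H] [Module (ZMod 2) H] [Finite H] (Γ : V → H) (Ω : Set V)
    (W : Submodule (ZMod 2) (V × H)) (x : V × H) (K : ℝ)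
    (hN : {w | w ∈ Ω ∧ (w, Γ w) + x ∈ W}.Nonempty)
    (hK : nc W ≤ K * nc {w | w ∈ Ω ∧ (w, Γ w) + x ∈ W}) :
    ∃ (Λ : V →ₗ[ZMod 2] H) (c : H),
      nc {w | w ∈ Ω ∧ (w, Γ w) + x ∈ W} ≤ K * nc {w | w ∈ Ω ∧ Γ w = Λ w + c} := by
  classical
  obtain ⟨A, hA⟩ : ∃ A : Set V, A = {w | w ∈ Ω ∧ (w, Γ w) + x ∈ W} := ⟨_, rfl⟩
  rw [← hA] at hN hK ⊢
  have hAm : ∀ w ∈ A, w ∈ Ω ∧ (w, Γ w) + x ∈ W := fun w hw => by rwa [hA] at hw
  obtain ⟨W₀, hW₀⟩ : ∃ W₀ : Submodule (ZMod 2) H, W₀ = W.comap (LinearMap.inr (ZMod 2) V H) :=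
    ⟨_, rfl⟩
  have hW₀m : ∀ η, η ∈ W₀ ↔ ((0 : V), η) ∈ W := fun η => by rw [hW₀]; rfl
  -- a linear section
  obtain ⟨Λ, hΛ⟩ : ∃ Λ : V →ₗ[ZMod 2] H, ∀ p ∈ W, (p.1, Λ p.1) ∈ W := by
    obtain ⟨f, hf⟩ : ∃ f : W →ₗ[ZMod 2] V, f = (LinearMap.fst (ZMod 2) V H).comp W.subtype :=
      ⟨_, rfl⟩
    obtain ⟨s, hs⟩ := f.rangeRestrict.exists_rightInverse_of_surjective f.range_rangeRestrict
    obtain ⟨Λ, hΛ⟩ := LinearMap.exists_extend
      ((LinearMap.snd (ZMod 2) V H).comp (W.subtype.comp s))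
    refine ⟨Λ, fun p hp => ?_⟩
    have hfe : ∀ w : W, f w = (w : V × H).1 := fun w => by rw [hf]; rfl
    have h1 : f ⟨p, hp⟩ = p.1 := hfe _
    have h2 : p.1 ∈ LinearMap.range f := ⟨⟨p, hp⟩, h1⟩
    have h3 : f (s ⟨p.1, h2⟩) = p.1 := by
      have h4 := LinearMap.congr_fun hs ⟨p.1, h2⟩
      have h5 := congrArg Subtype.val h4
      exact h5
    have h4 : Λ p.1 = ((s ⟨p.1, h2⟩ : W) : V × H).2 := by
      have h5 := LinearMap.congr_fun hΛ ⟨p.1, h2⟩
      exact h5
    have h5 : ((s ⟨p.1, h2⟩ : W) : V × H).1 = p.1 := (hfe _).symm.trans h3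
    have h6 : (p.1, Λ p.1) = ((s ⟨p.1, h2⟩ : W) : V × H) := by
      rw [h4]
      exact Prod.ext h5.symm rfl
    rw [h6]
    exact (s ⟨p.1, h2⟩ : W).2
  -- cardinalities
  have hcard : nc W₀ * nc A ≤ nc W := by
    unfold nc
    rw [← Nat.cast_mul, ← Nat.card_prod]
    refine Nat.cast_le.2 (Nat.card_le_card_of_injective (fun p : W₀ × A =>
      (⟨(p.2.1, Γ p.2.1) + x + (0, p.1.1),
        W.add_mem (hAm _ p.2.2).2 ((hW₀m _).1 p.1.2)⟩ : W)) ?_)
    rintro ⟨η, w⟩ ⟨η', w'⟩ hh
    have h1 := congrArg Subtype.val hh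
    have h2 : w.1 + x.1 + 0 = w'.1 + x.1 + 0 := congrArg Prod.fst h1
    have h3 : Γ w.1 + x.2 + η.1 = Γ w'.1 + x.2 + η'.1 := congrArg Prod.snd h1
    rw [add_zero, add_zero] at h2
    have h4 : w = w' := Subtype.ext (add_right_cancel h2)
    subst h4
    have h5 : η = η' := Subtype.ext (add_left_cancel h3)
    rw [h5]
  have : Nonempty A := hN.to_subtype
  have hApos : 0 < nc A := nc_pos
  have hW₀K : nc W₀ ≤ K := le_of_mul_le_mul_right (hcard.trans hK) hApos
  -- the labels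
  have hlab : ∀ w : A, Γ w.1 + x.2 + Λ (w.1 + x.1) ∈ W₀ := by
    intro w
    have h1 := (hAm _ w.2).2
    have h2 := hΛ _ h1
    have h3 := W.add_mem h1 h2
    rw [hW₀m]
    have h4 : (w.1, Γ w.1) + x + (((w.1, Γ w.1) + x).1, Λ ((w.1, Γ w.1) + x).1) =
        ((0 : V), Γ w.1 + x.2 + Λ (w.1 + x.1)) := by
      refine Prod.ext ?_ rfl
      exact add_self (w.1 + x.1)
    rwa [h4] at h3
  obtain ⟨g, hg⟩ : ∃ g : A → W₀, ∀ w, (g w : H) = Γ w.1 + x.2 + Λ (w.1 + x.1) :=
    ⟨fun w => ⟨_, hlab w⟩, fun _ => rfl⟩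
  have : Fintype W₀ := Fintype.ofFinite _
  have hsum : su (fun η : W₀ => nc {a : A // g a = η}) = nc A := by
    rw [su_eq]
    unfold nc
    rw [← Nat.cast_sum, ← Nat.card_sigma, Nat.card_congr (Equiv.sigmaFiberEquiv g)]
  obtain ⟨η, hη⟩ := exists_ge_av (fun η : W₀ => nc {a : A // g a = η})
  rw [av, hsum, div_le_iff₀ nc_pos] at hη
  refine ⟨Λ, Λ x.1 + x.2 + η.1, ?_⟩
  have hle : nc {a : A // g a = η} ≤ nc {w | w ∈ Ω ∧ Γ w = Λ w + (Λ x.1 + x.2 + η.1)} := by
    unfold nc
    refine Nat.cast_le.2 (Nat.card_le_card_of_injective (fun a : {a : A // g a = η} =>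
      (⟨a.1.1, (hAm _ a.1.2).1, ?_⟩ :
        {w | w ∈ Ω ∧ Γ w = Λ w + (Λ x.1 + x.2 + η.1)})) ?_)
    · have h1 := hg a.1
      rw [a.2] at h1
      rw [h1, map_add]
      have h2 : Λ a.1.1 + (Λ x.1 + x.2 + (Γ a.1.1 + x.2 + (Λ a.1.1 + Λ x.1))) =
          Γ a.1.1 + (Λ a.1.1 + Λ a.1.1) + (Λ x.1 + Λ x.1) + (x.2 + x.2) := by abel
      rw [h2, add_self, add_self, add_self, add_zero, add_zero, add_zero]
    · intro a b hab
      simp only [Subtype.mk.injEq] at hab
      exact Subtype.ext (Subtype.ext hab)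
  have h0 : 0 ≤ nc {w | w ∈ Ω ∧ Γ w = Λ w + (Λ x.1 + x.2 + η.1)} := nc_nonneg _
  calc nc A ≤ nc {a : A // g a = η} * nc W₀ := hη
    _ ≤ nc {w | w ∈ Ω ∧ Γ w = Λ w + (Λ x.1 + x.2 + η.1)} * K :=
        mul_le_mul hle hW₀K (nc_nonneg _) h0
    _ = _ := mul_comm _ _

end G2
end
end
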