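import Pool.Agent.Lib.MP_f4f4db_co.G2.Akm
import Pool.Agent.Lib.MP_f4f4db_co.G2.Basic
import Pool.Agent.Lib.MP_f4f4db_co.G2.QD1
import Pool.Agent.Lib.MP_f4f4db_co.G2.SA5

section

section

/-!
# Job SP1: the large spectrum of a function `0 ≤ f ≤ ν`

(Q6) of paper 501.
-/

set_option autoImplicit false

open Module

namespace G2

variable {V M : Type} [AddCommGroup V] [Module (ZMod 2) V] [Finite V]
  [AddCommGroup M] [Module (ZMod 2) M] [Finite M]

/-- average against a trigonometric sum -/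
private theorem sp1_av_mul (f : V → ℝ) (c : Du V → ℝ) :
    (av fun y => f y * su fun l : Du V => c l * sg (l y)) = su fun l => c l * ft f l := by
  have := Fintype.ofFinite V
  have := Fintype.ofFinite (Du V)
  simp only [ft, av_eq, su_eq, Finset.mul_sum, Finset.sum_div, mul_div_assoc']
  rw [Finset.sum_comm]
  refine Finset.sum_congr rfl fun l _ => Finset.sum_congr rfl fun y _ => ?_
  ring

private theorem sp1_sq (c : Du V → ℝ) (y : V) :
    (su fun l : Du V => c l * sg (l y)) ^ 2 =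
      su fun l : Du V => (su fun l' : Du V => c l * c l' * sg ((l + l') y)) := by
  have := Fintype.ofFinite (Du V)
  simp only [su_eq, sq, Finset.sum_mul_sum]
  refine Finset.sum_congr rfl fun l _ => Finset.sum_congr rfl fun l' _ => ?_
  rw [LinearMap.add_apply, sg_add]
  ring

private theorem sp1_av_sq (w : V → ℝ) (c : Du V → ℝ) :
    (av fun y => w y * (su fun l : Du V => c l * sg (l y)) ^ 2) =
      su fun l : Du V => su fun l' : Du V => c l * c l' * ft w (l + l') := by
  have := Fintype.ofFinite V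
  have := Fintype.ofFinite (Du V)
  simp only [sp1_sq]
  simp only [ft, av_eq, su_eq, Finset.mul_sum, Finset.sum_div, mul_div_assoc']
  rw [Finset.sum_comm]
  refine Finset.sum_congr rfl fun l _ => ?_
  rw [Finset.sum_comm]
  refine Finset.sum_congr rfl fun l' _ => Finset.sum_congr rfl fun y _ => ?_
  ring

private theorem sp1_av_nu_le {q : V → M} {φ : Bil V M} (hq : IsQ q φ) {R : ℕ} (hR : HR φ R) :
    av (nu q) ≤ 1 + er M 1 R := by
  have := (abs_le.1 (av_nu hq hR)).2
  linarith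

private theorem sp1_nu_sq_le {q : V → M} {φ : Bil V M} (hq : IsQ q φ) {R : ℕ} (hR : HR φ R)
    (c : Du V → ℝ) :
    (av fun y => nu q y * (su fun l : Du V => c l * sg (l y)) ^ 2) ≤
      (1 + er M 1 R) * (su fun l => c l ^ 2) + er M 1 R * (su fun l => |c l|) ^ 2 := by
  classical
  have := Fintype.ofFinite (Du V)
  set e : ℝ := er M 1 R with he
  have he0 : 0 ≤ e := er_nonneg 1 R
  rw [sp1_av_sq]
  have hterm : ∀ l l' : Du V, c l * c l' * ft (nu q) (l + l') ≤
      (if l = l' then (1 + e) * c l ^ 2 else 0) + e * (|c l| * |c l'|) := by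
    intro l l'
    by_cases h : l = l'
    · subst h
      rw [if_pos rfl, add_self, ft_zero]
      have h1 : c l * c l * av (nu q) ≤ c l * c l * (1 + e) :=
        mul_le_mul_of_nonneg_left (sp1_av_nu_le hq hR) (mul_self_nonneg _)
      have h2 : 0 ≤ e * (|c l| * |c l|) := by positivity
      nlinarith
    · rw [if_neg h, zero_add]
      have hne : l + l' ≠ 0 := fun h0 => h (eq_of_add_eq_zero h0)
      have h1 := ft_nu hq hR hne
      calc c l * c l' * ft (nu q) (l + l') ≤ |c l * c l' * ft (nu q) (l + l')| := le_abs_self _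
        _ = |c l| * |c l'| * |ft (nu q) (l + l')| := by rw [abs_mul, abs_mul]
        _ ≤ |c l| * |c l'| * e := mul_le_mul_of_nonneg_left h1 (by positivity)
        _ = e * (|c l| * |c l'|) := by ring
  calc (su fun l : Du V => su fun l' : Du V => c l * c l' * ft (nu q) (l + l'))
      ≤ su fun l : Du V => su fun l' : Du V =>
        ((if l = l' then (1 + e) * c l ^ 2 else 0) + e * (|c l| * |c l'|)) :=
        su_le_su fun l => su_le_su fun l' => hterm l l'
    _ = _ := by
        simp only [su_eq, Finset.sum_add_distrib, Finset.sum_ite_eq, Finset.mem_univ, if_true,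
          ← Finset.mul_sum, sq, Finset.sum_mul_sum]

/-- the main inequality -/
private theorem sp1_main {q : V → M} {φ : Bil V M} (hq : IsQ q φ) {R : ℕ} (hR : HR φ R)
    (f : V → ℝ) (hf0 : ∀ y, 0 ≤ f y) (hf1 : ∀ y, f y ≤ nu q y) (c : Du V → ℝ) :
    (su fun l => c l * ft f l) ^ 2 ≤ (1 + er M 1 R) *
      ((1 + er M 1 R) * (su fun l => c l ^ 2) + er M 1 R * (su fun l => |c l|) ^ 2) := by
  set G : V → ℝ := fun y => su fun l : Du V => c l * sg (l y) with hG
  have e0 : 0 ≤ er M 1 R := er_nonneg 1 R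
  have hnu0 : ∀ y, 0 ≤ nu q y := fun y => (hf0 y).trans (hf1 y)
  have h1 : (su fun l => c l * ft f l) = av fun y => f y * G y := (sp1_av_mul f c).symm
  have h2 : |av fun y => f y * G y| ≤ av fun y => nu q y * |G y| := by
    refine (abs_av_le _).trans (av_le_av fun y => ?_)
    rw [abs_mul, abs_of_nonneg (hf0 y)]
    exact mul_le_mul_of_nonneg_right (hf1 y) (abs_nonneg _)
  have h3 := av_cs_weight (nu q) (fun y => |G y|) hnu0
  have h4 := sp1_nu_sq_le hq hR c
  have h5 : (su fun l => c l * ft f l) ^ 2 ≤ (av fun y => nu q y * |G y|) ^ 2 := by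
    rw [h1, ← sq_abs]
    exact pow_le_pow_left₀ (abs_nonneg _) h2 2
  refine h5.trans (h3.trans ?_)
  simp only [sq_abs]
  exact mul_le_mul (sp1_av_nu_le hq hR) h4 (av_nonneg fun y => mul_nonneg (hnu0 y) (sq_nonneg _))
    (by linarith)

private theorem sp1_er_le {R h : ℕ} (hh : rk M + 1 + (2 * h + 3) ≤ R) :
    er M 1 R ≤ ((1 / 2 : ℝ) ^ h) ^ 2 / 8 := by
  refine (er_le (D := 2 * h + 3) (by omega)).trans (le_of_eq ?_)
  rw [← pow_mul, pow_add, mul_comm 2 h]
  ring

private theorem sp1_nc_card {h : ℕ} (f : V → ℝ) :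
    nc {l : Du V // (1 / 2 : ℝ) ^ h ≤ |ft f l|} =
      su fun l : Du V => ind {l : Du V | (1 / 2 : ℝ) ^ h ≤ |ft f l|} l := by
  classical
  have := Fintype.ofFinite (Du V)
  rw [su_eq, nc_eq, Fintype.card_subtype]
  unfold ind
  simp only [Set.mem_setOf_eq]
  rw [Finset.sum_ite, Finset.sum_const_zero, add_zero, Finset.sum_const, nsmul_eq_mul, mul_one]

/-- Let `η = 2^(-h)`, `Λ = {l : |ft f l| ≥ η}`, `ε_l = ±1` the sign of `ft f l`,
`G = ∑_{l ∈ Λ} ε_l χ_l` (`χ_l y = sg (l y)`).  Then `η #Λ ≤ ∑_Λ |ft f l| = E f G ≤ E ν |G|`, so by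
Cauchy-Schwarz (`av_cs_weight`) `η^2 #Λ^2 ≤ E ν · E ν G^2`, and
`E ν G^2 = ∑_{l,l' ∈ Λ} ε_l ε_l' ft ν (l + l') ≤ #Λ (1 + er) + #Λ^2 er` with `er = er M 1 R`
(`av_nu`, `ft_nu`).  As `er ≤ η^2 / 8` (`er_le`), `η^2 #Λ ≤ (9/8) (9/8 + #Λ η^2/8)`, hence
`#Λ ≤ 4 / η^2`. -/
theorem spec_card {q : V → M} {φ : Bil V M} (hq : IsQ q φ) {R : ℕ} (hR : HR φ R) (f : V → ℝ)
    (hf0 : ∀ y, 0 ≤ f y) (hf1 : ∀ y, f y ≤ nu q y) (h : ℕ) (hh : rk M + 1 + (2 * h + 3) ≤ R) :
    nc {l : Du V // (1 / 2 : ℝ) ^ h ≤ |ft f l|} ≤ 4 * 4 ^ h := by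
  classical
  set η : ℝ := (1 / 2 : ℝ) ^ h with hη
  have hη0 : 0 < η := by positivity
  have hη1 : η ≤ 1 := pow_le_one₀ (by norm_num) (by norm_num)
  set n : ℝ := nc {l : Du V // η ≤ |ft f l|} with hn
  have hn0 : 0 ≤ n := nc_nonneg _
  have hnsu : n = su fun l : Du V => ind {l : Du V | η ≤ |ft f l|} l := sp1_nc_card f
  have he := sp1_er_le (M := M) hh
  rw [← hη] at he
  have he0 : 0 ≤ er M 1 R := er_nonneg 1 R
  have hmain := sp1_main hq hR f hf0 hf1
    (fun l => ind {l : Du V | η ≤ |ft f l|} l * (if 0 ≤ ft f l then 1 else -1))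
  have hc2 : (su fun l : Du V => (ind {l : Du V | η ≤ |ft f l|} l *
      (if 0 ≤ ft f l then (1 : ℝ) else -1)) ^ 2) = n := by
    rw [hnsu]
    congr 1
    funext l
    rw [mul_pow, sq, ind_mul_self]
    split_ifs <;> norm_num
  have hc1 : (su fun l : Du V => |ind {l : Du V | η ≤ |ft f l|} l *
      (if 0 ≤ ft f l then (1 : ℝ) else -1)|) = n := by
    rw [hnsu]
    congr 1
    funext l
    rw [abs_mul, abs_of_nonneg (ind_nonneg _ _)]
    split_ifs <;> norm_num
  have hcf : η * n ≤ su fun l : Du V => ind {l : Du V | η ≤ |ft f l|} l *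
      (if 0 ≤ ft f l then (1 : ℝ) else -1) * ft f l := by
    rw [hnsu, ← su_mul_left]
    refine su_le_su fun l => ?_
    by_cases hl : l ∈ {l : Du V | η ≤ |ft f l|}
    · rw [ind_pos hl]
      have hl' : η ≤ |ft f l| := hl
      split_ifs with h0
      · rw [abs_of_nonneg h0] at hl'
        linarith
      · rw [abs_of_neg (not_le.1 h0)] at hl'
        linarith
    · rw [ind_neg hl]
      linarith
  rw [hc2, hc1] at hmain
  have h1 : (η * n) ^ 2 ≤ (1 + er M 1 R) * ((1 + er M 1 R) * n + er M 1 R * n ^ 2) :=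
    (pow_le_pow_left₀ (by positivity) hcf 2).trans hmain
  have he8 : er M 1 R ≤ 1 / 8 := by
    have : η ^ 2 ≤ 1 := pow_le_one₀ hη0.le hη1
    linarith
  have h2 : (1 + er M 1 R) * ((1 + er M 1 R) * n + er M 1 R * n ^ 2) ≤
      (9 / 8) * ((9 / 8) * n + η ^ 2 / 8 * n ^ 2) := by
    apply mul_le_mul (by linarith) _ (by positivity) (by norm_num)
    apply add_le_add
    · exact mul_le_mul_of_nonneg_right (by linarith) hn0
    · exact mul_le_mul_of_nonneg_right he (by positivity)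
  have h3 : η ^ 2 * n ≤ 4 := by
    by_contra hcon
    push Not at hcon
    have hnpos : 0 < n := by
      rcases hn0.lt_or_eq with h0 | h0
      · exact h0
      · rw [← h0] at hcon
        linarith
    nlinarith [mul_lt_mul_of_pos_right hcon hnpos]
  have h4 : n ≤ 4 / η ^ 2 := by
    rw [le_div_iff₀ (by positivity)]
    linarith
  refine h4.trans (le_of_eq ?_)
  rw [hη, ← pow_mul, mul_comm h 2, pow_mul]
  rw [div_eq_mul_inv, ← inv_pow]
  norm_num

/-- `|ft f l| ≤ E f ≤ E ν ≤ 2` -/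
theorem abs_ft_le_two {q : V → M} {φ : Bil V M} (hq : IsQ q φ) {R : ℕ} (hR : HR φ R) (f : V → ℝ)
    (hf0 : ∀ y, 0 ≤ f y) (hf1 : ∀ y, f y ≤ nu q y) (hh : rk M + 1 ≤ R) (l : Du V) :
    |ft f l| ≤ 2 := by
  refine (abs_ft_le f l).trans ?_
  have h1 : (av fun y => |f y|) ≤ av (nu q) := av_le_av fun y => by
    rw [abs_of_nonneg (hf0 y)]
    exact hf1 y
  have h2 := sp1_av_nu_le hq hR
  have h3 : er M 1 R ≤ (1 / 2 : ℝ) ^ 0 := er_le (by omega)
  rw [pow_zero] at h3
  linarith

/-- the truncated Fourier series is bounded: `#Λ` terms of absolute value at most `2` -/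
theorem abs_tr_le {q : V → M} {φ : Bil V M} (hq : IsQ q φ) {R : ℕ} (hR : HR φ R) (f : V → ℝ)
    (hf0 : ∀ y, 0 ≤ f y) (hf1 : ∀ y, f y ≤ nu q y) (h : ℕ) (hh : rk M + 1 + (2 * h + 3) ≤ R)
    (y : V) : |tr f h y| ≤ 8 * 4 ^ h := by
  unfold tr
  refine (abs_su_le _).trans ?_
  have h1 : (su fun l : Du V => |ind {l : Du V | (1 / 2 : ℝ) ^ h ≤ |ft f l|} l *
      (ft f l * sg (l y))|) ≤
      su fun l : Du V => 2 * ind {l : Du V | (1 / 2 : ℝ) ^ h ≤ |ft f l|} l := by
    refine su_le_su fun l => ?_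
    rw [abs_mul, abs_mul, abs_sg, mul_one, abs_of_nonneg (ind_nonneg _ _), mul_comm]
    exact mul_le_mul_of_nonneg_right (abs_ft_le_two hq hR f hf0 hf1 (by omega) l)
      (ind_nonneg _ _)
  refine h1.trans ?_
  rw [su_mul_left, ← sp1_nc_card]
  have h2 := spec_card hq hR f hf0 hf1 h hh
  linarith

/-- Let `S = ∑_{|ft f l| < η} (ft f l)^4`, `G = ∑_{|ft f l| < η} (ft f l)^3 χ_l`.  Then
`S = E f G`, so `S^2 ≤ E ν · E ν G^2` and
`E ν G^2 = ∑_{l,l'} (ft f l)^3 (ft f l')^3 ft ν (l + l') ≤ (1 + er) ∑ (ft f l)^6 + er (∑ |ft f l|^3)^2`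
(sums over the small coefficients), `∑ (ft f l)^6 ≤ η^2 S`,
`∑ |ft f l|^3 ≤ η ∑_l (ft f l)^2 = η E f^2 ≤ η |M| E ν ≤ 2 η |M|`.  Here `er = er M 1 R ≤ 1/8` and
`er * |M|^2 ≤ er M 3 R ≤ η^2 / 8`.  If `S > 4 η^2` we get the contradiction
`4 η^2 S < S^2 ≤ (9/8) ((9/8) η^2 S + 4 η^2 η^2 / 8)`. -/
theorem spec_small {q : V → M} {φ : Bil V M} (hq : IsQ q φ) {R : ℕ} (hR : HR φ R) (f : V → ℝ)
    (hf0 : ∀ y, 0 ≤ f y) (hf1 : ∀ y, f y ≤ nu q y) (h : ℕ)
    (hh : 3 * (rk M + 1) + (2 * h + 3) ≤ R) :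
    (su fun l : Du V => ind {l : Du V | |ft f l| < (1 / 2 : ℝ) ^ h} l * ft f l ^ 4) ≤
      4 * (1 / 2) ^ (2 * h) := by
  classical
  set η : ℝ := (1 / 2 : ℝ) ^ h with hη
  have hη0 : 0 < η := by positivity
  have hη1 : η ≤ 1 := pow_le_one₀ (by norm_num) (by norm_num)
  have hη2 : (1 / 2 : ℝ) ^ (2 * h) = η ^ 2 := by rw [hη, ← pow_mul, mul_comm]
  rw [hη2]
  set S : ℝ := su fun l : Du V => ind {l : Du V | |ft f l| < η} l * ft f l ^ 4 with hS
  have hS0 : 0 ≤ S := su_nonneg fun l => mul_nonneg (ind_nonneg _ _) (by positivity)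
  have he : er M 1 R ≤ η ^ 2 / 8 := sp1_er_le (by omega)
  have he0 : 0 ≤ er M 1 R := er_nonneg 1 R
  have he8 : er M 1 R ≤ 1 / 8 := by
    have : η ^ 2 ≤ 1 := pow_le_one₀ hη0.le hη1
    linarith
  have he3 : nc M ^ 2 * er M 1 R ≤ η ^ 2 / 8 := by
    refine (nc_mul_er 2 1 R).trans ((er_le (D := 2 * h + 3) (by omega)).trans (le_of_eq ?_))
    rw [pow_add, hη2]
    ring
  have hmain := sp1_main hq hR f hf0 hf1
    (fun l => ind {l : Du V | |ft f l| < η} l * ft f l ^ 3)
  have hcf : (su fun l : Du V => ind {l : Du V | |ft f l| < η} l * ft f l ^ 3 * ft f l) = S := by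
    rw [hS]
    congr 1
    funext l
    ring
  have hc2 : (su fun l : Du V => (ind {l : Du V | |ft f l| < η} l * ft f l ^ 3) ^ 2) ≤
      η ^ 2 * S := by
    rw [hS, ← su_mul_left]
    refine su_le_su fun l => ?_
    by_cases hl : l ∈ {l : Du V | |ft f l| < η}
    · rw [ind_pos hl]
      have hl' : |ft f l| < η := hl
      have h2 : ft f l ^ 2 ≤ η ^ 2 := by
        rw [← sq_abs]
        exact pow_le_pow_left₀ (abs_nonneg _) hl'.le 2
      have h4 : 0 ≤ ft f l ^ 4 := by positivity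
      nlinarith [mul_le_mul_of_nonneg_right h2 h4]
    · rw [ind_neg hl]
      simp
  have hc1 : (su fun l : Du V => |ind {l : Du V | |ft f l| < η} l * ft f l ^ 3|) ≤
      2 * η * nc M := by
    have h1 : (su fun l : Du V => |ind {l : Du V | |ft f l| < η} l * ft f l ^ 3|) ≤
        su fun l : Du V => η * (ft f l * ft f l) := by
      refine su_le_su fun l => ?_
      by_cases hl : l ∈ {l : Du V | |ft f l| < η}
      · rw [ind_pos hl, one_mul, abs_pow]
        have hl' : |ft f l| < η := hl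
        have h2 : |ft f l| ^ 3 = |ft f l| * (ft f l * ft f l) := by
          rw [← abs_mul_abs_self (ft f l)]
          ring
        rw [h2]
        exact mul_le_mul_of_nonneg_right hl'.le (mul_self_nonneg _)
      · rw [ind_neg hl, zero_mul, abs_zero]
        exact mul_nonneg hη0.le (mul_self_nonneg _)
    rw [su_mul_left, parseval] at h1
    have h2 : (av fun y => f y * f y) ≤ nc M * av (nu q) := by
      rw [← av_mul_left]
      refine av_le_av fun y => ?_
      have h3 : f y ≤ nc M := (hf1 y).trans (nu_le q y)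
      exact mul_le_mul h3 (hf1 y) (hf0 y) (nc_nonneg M)
    have h3 : av (nu q) ≤ 2 := by
      have := sp1_av_nu_le hq hR
      linarith
    have h4 : nc M * av (nu q) ≤ nc M * 2 := mul_le_mul_of_nonneg_left h3 (nc_nonneg M)
    have h5 : η * (av fun y => f y * f y) ≤ η * (nc M * 2) :=
      mul_le_mul_of_nonneg_left (h2.trans h4) hη0.le
    linarith
  rw [hcf] at hmain
  set A : ℝ := su fun l : Du V => (ind {l : Du V | |ft f l| < η} l * ft f l ^ 3) ^ 2 with hA
  set B : ℝ := su fun l : Du V => |ind {l : Du V | |ft f l| < η} l * ft f l ^ 3| with hB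
  have hB0 : 0 ≤ B := su_nonneg fun l => abs_nonneg _
  have hA0 : 0 ≤ A := su_nonneg fun l => sq_nonneg _
  have h1 : er M 1 R * B ^ 2 ≤ η ^ 4 / 2 := by
    have h2 : B ^ 2 ≤ (2 * η * nc M) ^ 2 := pow_le_pow_left₀ hB0 hc1 2
    calc er M 1 R * B ^ 2 ≤ er M 1 R * (2 * η * nc M) ^ 2 := mul_le_mul_of_nonneg_left h2 he0
      _ = 4 * η ^ 2 * (nc M ^ 2 * er M 1 R) := by ring
      _ ≤ 4 * η ^ 2 * (η ^ 2 / 8) := mul_le_mul_of_nonneg_left he3 (by positivity)
      _ = η ^ 4 / 2 := by ring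
  have h2 : S ^ 2 ≤ (9 / 8) * ((9 / 8) * (η ^ 2 * S) + η ^ 4 / 2) := by
    refine hmain.trans (mul_le_mul (by linarith) (add_le_add ?_ h1) ?_ (by norm_num))
    · exact mul_le_mul (by linarith) hc2 hA0 (by norm_num)
    · have : 0 ≤ (1 + er M 1 R) * A := by positivity
      have : 0 ≤ er M 1 R * B ^ 2 := by positivity
      linarith
  by_contra hcon
  push Not at hcon
  have hη4 : η ^ 4 = η ^ 2 * η ^ 2 := by ring
  have hS' : 0 < S := lt_of_le_of_lt (by positivity) hcon
  have h3 : 4 * η ^ 2 * S < S ^ 2 := by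
    rw [sq S]
    exact mul_lt_mul_of_pos_right hcon hS'
  have h4 : η ^ 2 * (4 * η ^ 2) ≤ η ^ 2 * S := mul_le_mul_of_nonneg_left hcon.le (by positivity)
  have h5 : 0 < η ^ 2 * S := by positivity
  nlinarith

end G2
end

section

/-!
# Definitions for block RK (relative Kelley-Meka by sampling)
-/

set_option autoImplicit false

open Module

namespace G2

noncomputable section

variable {V : Type} [AddCommGroup V] [Module (ZMod 2) V]

/-- the sample of `F` -/
def FD (F : Set V) {D : ℕ} (y : V) (x : Fin D → V) : Set (Fin D → ZMod 2) := {α | pt y x α ∈ F}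

/-- the sample of the set `S` of shifts -/
def SD (S : Set V) {D : ℕ} (x : Fin D → V) : Set (Fin D → ZMod 2) := {A | lc x A ∈ S}

/-- the number of pairs of the sample of `F` with difference in the sample of `S` -/
def XD (F S : Set V) {D : ℕ} (y : V) (x : Fin D → V) : ℝ :=
  av fun A => ind (SD S x) A * cor (ind (FD F y x)) (ind (FD F y x)) A

/-- the remainder `1_F - ∑_{|f̂(l)| ≥ 2^(-h)} f̂(l) χ_l`, `f = |M| 1_F` -/
def gt (M : Type) [Finite V] (F : Set V) (h : ℕ) (y : V) : ℝ := ind F y - tr (wf M F) h y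

/-- fourth power of the `U^2` norm of the sample of the remainder -/
def UD (M : Type) [Finite V] (F : Set V) (h : ℕ) {D : ℕ} (y : V) (x : Fin D → V) : ℝ :=
  su fun m : Du (Fin D → ZMod 2) => ft (fun α => gt M F h (pt y x α)) m ^ 4

/-- no nonzero sum of at most `K` elements of the large spectrum vanishes on the sampled space -/
def RelP [Finite V] (f : V → ℝ) (h K : ℕ) {D : ℕ} (x : Fin D → V) : Prop :=
  ∀ T : Finset (Du V), T.card ≤ K → (∀ l ∈ T, (1 / 2 : ℝ) ^ h ≤ |ft f l|) → ∑ l ∈ T, l ≠ 0 →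
    ∃ A : Fin D → ZMod 2, (∑ l ∈ T, l) (lc x A) ≠ 0

end

end G2
end
end

section

section

/-!
# Job RK3a: from the sample back to the space (pure Fourier analysis)
-/

set_option autoImplicit false

open Module

namespace G2

variable {V : Type} [AddCommGroup V] [Module (ZMod 2) V] [Finite V]

private theorem rk3a_av_su {α β : Type} [Finite α] [Finite β] (g : α → β → ℝ) :
    (av fun a => su fun l => g a l) = su fun l => av fun a => g a l := by
  have h1 : (fun l => av fun a => g a l) = fun l => (su fun a => g a l) * (nc α)⁻¹ := by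
    funext l
    rw [av, div_eq_mul_inv]
  rw [h1, su_mul_right, su_comm, av, div_eq_mul_inv]

omit [Finite V] in
private theorem rk3a_lc_add {D : ℕ} (x : Fin D → V) (α β : Fin D → ZMod 2) :
    lc x (α + β) = lc x α + lc x β := by
  simp only [lc, Pi.add_apply, add_smul, Finset.sum_add_distrib]

omit [Finite V] in
private theorem rk3a_lc_smul {D : ℕ} (x : Fin D → V) (c : ZMod 2) (α : Fin D → ZMod 2) :
    lc x (c • α) = c • lc x α := by
  simp only [lc, Pi.smul_apply, smul_eq_mul, mul_smul, Finset.smul_sum]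

omit [Finite V] in
private theorem rk3a_pt_add {D : ℕ} (y : V) (x : Fin D → V) (α b : Fin D → ZMod 2) :
    pt y x (α + b) = pt y x b + lc x α := by
  have h := rk3a_lc_add x α b
  simp only [lc] at h
  rw [pt, h, pt, lc]
  abel

/-- (2) The average of a function `G` over a coset of a subspace of codimension at most `K` is a sum
of at most `2^K` Fourier coefficients, each of them at most `(su ft^4)^(1/4)` (`ft_pow_four_le`,
`av_fibre` for a surjective linear map with kernel `W`). -/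
theorem coset_u2 {I : Type} [AddCommGroup I] [Module (ZMod 2) I] [Finite I] (G : I → ℝ)
    (W : Submodule (ZMod 2) I) (b : I) (K s : ℕ) (hW : rk I ≤ rk W + K)
    (hG : (su fun m => ft G m ^ 4) ≤ (1 / 2) ^ (4 * s)) :
    |av fun α => G α * ind {α | α + b ∈ W} α| ≤
      2 ^ K * (1 / 2) ^ s * dn (W : Set I) := by
  have : Finite (I ⧸ W) := Finite.of_surjective W.mkQ (Submodule.mkQ_surjective W)
  have h1 : {α : I | α + b ∈ W} = {α | W.mkQ α = W.mkQ b} := by
    ext α
    change α + b ∈ W ↔ W.mkQ α = W.mkQ b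
    rw [Submodule.mkQ_apply, Submodule.mkQ_apply, Submodule.Quotient.eq, sub_eq_add_neg]
    have h2 : -b = b := by
      rw [neg_eq_iff_add_eq_zero]
      exact add_self b
    rw [h2]
  have h2 : ∀ m : Du I, |ft G m| ≤ (1 / 2 : ℝ) ^ s := by
    intro m
    have h3 := (ft_pow_four_le G m).trans hG
    rw [mul_comm, pow_mul] at h3
    have h4 : |ft G m| ^ 4 ≤ ((1 / 2 : ℝ) ^ s) ^ 4 := by
      have h5 : |ft G m| ^ 4 = ft G m ^ 4 := by
        have : Even 4 := ⟨2, rfl⟩
        exact this.pow_abs _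
      rw [h5]
      exact h3
    exact le_of_pow_le_pow_left₀ (by norm_num) (by positivity) h4
  have h3 := av_fibre W.mkQ G (W.mkQ b)
  have hn : 0 < nc (I ⧸ W) := nc_pos
  have h4 : nc (I ⧸ W) * |av fun α => G α * ind {α | α + b ∈ W} α| ≤
      nc (I ⧸ W) * (1 / 2 : ℝ) ^ s := by
    rw [h1, ← abs_of_pos hn, ← abs_mul, abs_of_pos hn, h3]
    refine (abs_su_le _).trans ?_
    rw [← nc_Du (V := I ⧸ W), ← su_const]
    refine su_le_su fun c => ?_
    rw [abs_mul, abs_sg, mul_one]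
    exact h2 _
  have h5 : |av fun α => G α * ind {α | α + b ∈ W} α| ≤ (1 / 2 : ℝ) ^ s :=
    le_of_mul_le_mul_left h4 hn
  refine h5.trans ?_
  have h6 := dn_submodule W
  have h7 : (2 : ℝ) ^ (rk I - rk W) ≤ 2 ^ K := pow_le_pow_right₀ (by norm_num) (by omega)
  have h8 : 1 ≤ 2 ^ K * dn (W : Set I) := by
    rw [← h6]
    exact mul_le_mul_of_nonneg_right h7 (dn_nonneg _)
  calc (1 / 2 : ℝ) ^ s = (1 / 2 : ℝ) ^ s * 1 := (mul_one _).symm
    _ ≤ (1 / 2 : ℝ) ^ s * (2 ^ K * dn (W : Set I)) :=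
        mul_le_mul_of_nonneg_left h8 (by positivity)
    _ = 2 ^ K * (1 / 2) ^ s * dn (W : Set I) := by ring

omit [Finite V] in
private theorem rk3a_inner (D : ℕ) (l : Du V) (y : V) (x : Fin D → V)
    (W : Submodule (ZMod 2) (Fin D → ZMod 2)) (b : Fin D → ZMod 2) :
    (av fun α => sg (l (pt y x α)) * ind {α | α + b ∈ W} α) =
      dn (W : Set (Fin D → ZMod 2)) *
        (ind {l : Du V | ∀ w ∈ W, l (lc x w) = 0} l * sg (l (pt y x b))) := by
  rw [← av_shift _ b]
  have h1 : (fun α : Fin D → ZMod 2 => sg (l (pt y x (α + b))) * ind {α | α + b ∈ W} (α + b)) =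
      fun α => sg (l (pt y x b)) *
        (sg (l (lc x α)) * ind (W : Set (Fin D → ZMod 2)) α) := by
    funext α
    have h2 : ind {α | α + b ∈ W} (α + b) = ind (W : Set (Fin D → ZMod 2)) α := by
      by_cases h : α ∈ W
      · rw [ind_pos (A := (W : Set (Fin D → ZMod 2))) h, ind_pos]
        change α + b + b ∈ W
        rwa [add_add_cancel]
      · rw [ind_neg (A := (W : Set (Fin D → ZMod 2))) h, ind_neg]
        change ¬ (α + b + b ∈ W)
        rwa [add_add_cancel]
    rw [h2, rk3a_pt_add, map_add, sg_add, mul_assoc]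
  rw [h1, av_mul_left, ← av_submodule W (fun α => sg (l (lc x α)))]
  let m : Du W :=
    { toFun := fun w => l (lc x w)
      map_add' := fun v w => by
        rw [Submodule.coe_add, rk3a_lc_add, map_add]
      map_smul' := fun c w => by
        rw [Submodule.coe_smul, rk3a_lc_smul, map_smul]
        rfl }
  have hm : (fun w : W => sg (l (lc x w))) = fun w => sg (m w) := rfl
  rw [hm]
  by_cases h : ∀ w ∈ W, l (lc x w) = 0
  · have h0 : m = 0 := by
      apply LinearMap.ext
      intro w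
      exact h w w.2
    rw [ind_pos (A := {l : Du V | ∀ w ∈ W, l (lc x w) = 0}) h, h0, av_sg_zero]
    ring
  · have h0 : m ≠ 0 := by
      intro h0
      apply h
      intro w hw
      exact LinearMap.congr_fun h0 (⟨w, hw⟩ : W)
    rw [ind_neg (A := {l : Du V | ∀ w ∈ W, l (lc x w) = 0}) h, av_sg_ne h0]
    ring

/-- (3) The average of `tr f h ∘ τ` over the coset `b + W`: for every functional `l`,
`av_{w ∈ W} sg (l (τ (b + w))) = sg (l (τ b))` if `l ∘ X` vanishes on `W`, and `0` otherwise. -/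
theorem coset_tr (f : V → ℝ) (h D : ℕ) (y : V) (x : Fin D → V)
    (W : Submodule (ZMod 2) (Fin D → ZMod 2)) (b : Fin D → ZMod 2) :
    (av fun α => tr f h (pt y x α) * ind {α | α + b ∈ W} α) =
      dn (W : Set (Fin D → ZMod 2)) * su fun l : Du V =>
        ind {l : Du V | (1 / 2 : ℝ) ^ h ≤ |ft f l| ∧ ∀ w ∈ W, l (lc x w) = 0} l *
          (ft f l * sg (l (pt y x b))) := by
  have h1 : (fun α : Fin D → ZMod 2 => tr f h (pt y x α) * ind {α | α + b ∈ W} α) =
      fun α => su fun l : Du V => ind {l : Du V | (1 / 2 : ℝ) ^ h ≤ |ft f l|} l * ft f l *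
        (sg (l (pt y x α)) * ind {α | α + b ∈ W} α) := by
    funext α
    rw [tr, ← su_mul_right]
    congr 1
    funext l
    ring
  rw [h1, rk3a_av_su, ← su_mul_left]
  congr 1
  funext l
  rw [av_mul_left, rk3a_inner]
  have h2 : ind {l : Du V | (1 / 2 : ℝ) ^ h ≤ |ft f l| ∧ ∀ w ∈ W, l (lc x w) = 0} l =
      ind {l : Du V | (1 / 2 : ℝ) ^ h ≤ |ft f l|} l *
        ind {l : Du V | ∀ w ∈ W, l (lc x w) = 0} l := by
    rw [← ind_inter]
    rfl
  rw [h2]
  ring

end G2
end

section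

/-!
# Job RK3b: the span of the relevant functionals
-/

set_option autoImplicit false

open Module

namespace G2

variable {V : Type} [AddCommGroup V] [Module (ZMod 2) V] [Finite V]

/-- the linear map `A ↦ lc x A` -/
private noncomputable def rk3b_X {D : ℕ} (x : Fin D → V) : (Fin D → ZMod 2) →ₗ[ZMod 2] V :=
  ∑ i, (LinearMap.proj i : (Fin D → ZMod 2) →ₗ[ZMod 2] ZMod 2).smulRight (x i)

omit [Finite V] in
private theorem rk3b_X_apply {D : ℕ} (x : Fin D → V) (A : Fin D → ZMod 2) :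
    rk3b_X x A = lc x A := by
  simp [rk3b_X, lc, LinearMap.sum_apply]

/-- (4) dimension of the span: if `K + 1` functionals of `Λ_W` were independent, the functionals
`l_i ∘ X`, which lie in the annihilator of `W` (dimension `≤ K`), would satisfy a relation, so a
nonempty subset `T` of them would have `(∑_T l) ∘ X = 0`, while `∑_T l ≠ 0` by independence. -/
theorem rel_rank (f : V → ℝ) (h K D : ℕ) (x : Fin D → V) (hrel : RelP f h (K + 2) x)
    (W : Submodule (ZMod 2) (Fin D → ZMod 2)) (hW : D ≤ rk W + K) :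
    ∃ (d : ℕ) (l : Fin d → Du V), d ≤ K ∧ LinearIndependent (ZMod 2) l ∧
      (∀ j, (1 / 2 : ℝ) ^ h ≤ |ft f (l j)| ∧ ∀ w ∈ W, l j (lc x w) = 0) ∧
      ∀ m : Du V, (1 / 2 : ℝ) ^ h ≤ |ft f m| → (∀ w ∈ W, m (lc x w) = 0) →
        m ∈ Submodule.span (ZMod 2) (Set.range l) := by
  classical
  set Λ : Set (Du V) := {m | (1 / 2 : ℝ) ^ h ≤ |ft f m| ∧ ∀ w ∈ W, m (lc x w) = 0} with hΛ
  obtain ⟨b, hbΛ, hspan, hli⟩ := exists_linearIndependent (ZMod 2) Λ
  have hbfin : Finite b := inferInstance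
  set d := Nat.card b with hd
  let e : Fin d ≃ b := (Finite.equivFin b).symm
  let l : Fin d → Du V := fun j => (e j : Du V)
  have hl : LinearIndependent (ZMod 2) l := hli.comp e e.injective
  have hrange : Set.range l = b := by
    ext m
    constructor
    · rintro ⟨j, rfl⟩
      exact (e j).2
    · intro hm
      exact ⟨e.symm ⟨m, hm⟩, by simp [l]⟩
  refine ⟨d, l, ?_, hl, fun j => hbΛ (e j).2, fun m h1 h2 => ?_⟩
  swap
  · rw [hrange, hspan]
    exact Submodule.subset_span ⟨h1, h2⟩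
  by_contra hcon
  push Not at hcon
  have hKd : K + 1 ≤ d := hcon
  let l' : Fin (K + 1) → Du V := fun j => l (Fin.castLE hKd j)
  have hl' : LinearIndependent (ZMod 2) l' := hl.comp _ (Fin.castLE_injective hKd)
  have hl'Λ : ∀ j, l' j ∈ Λ := fun j => hbΛ (e _).2
  -- the restrictions lie in the annihilator of `W`
  let g : Fin (K + 1) → W.dualAnnihilator := fun j =>
    ⟨(l' j).comp (rk3b_X x), by
      rw [Submodule.mem_dualAnnihilator]
      intro w hw
      rw [LinearMap.comp_apply, rk3b_X_apply]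
      exact (hl'Λ j).2 w hw⟩
  have hfr : finrank (ZMod 2) W.dualAnnihilator ≤ K := by
    have h1 := Subspace.finrank_add_finrank_dualAnnihilator_eq W
    rw [Module.finrank_fin_fun] at h1
    have h2 : D ≤ finrank (ZMod 2) W + K := hW
    omega
  have hdep : ¬ LinearIndependent (ZMod 2) g := by
    intro hg
    have h1 := hg.fintype_card_le_finrank
    rw [Fintype.card_fin] at h1
    omega
  rw [Fintype.not_linearIndependent_iff] at hdep
  obtain ⟨c, hc, i, hi⟩ := hdep
  set T0 : Finset (Fin (K + 1)) := Finset.univ.filter fun j => c j ≠ 0 with hT0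
  have hc01 : ∀ (E : Type) [AddCommGroup E] [Module (ZMod 2) E] (u : Fin (K + 1) → E),
      ∑ j, c j • u j = ∑ j ∈ T0, u j := by
    intro E _ _ u
    rw [hT0, Finset.sum_filter]
    refine Finset.sum_congr rfl fun j _ => ?_
    rcases zmod2 (c j) with h0 | h0
    · simp [h0]
    · simp [h0]
  have hsum : ∑ m ∈ T0.image l', m = ∑ j ∈ T0, l' j :=
    Finset.sum_image fun a _ b _ hab => hl'.injective hab
  have hcard : (T0.image l').card ≤ K + 2 := by
    refine Finset.card_image_le.trans ((Finset.card_le_univ _).trans ?_)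
    rw [Fintype.card_fin]
    omega
  have hne : ∑ m ∈ T0.image l', m ≠ 0 := by
    rw [hsum, ← hc01]
    intro h0
    exact hi ((Fintype.linearIndependent_iff.1 hl') c h0 i)
  obtain ⟨A, hA⟩ := hrel (T0.image l') hcard (fun m hm => by
    obtain ⟨j, -, rfl⟩ := Finset.mem_image.1 hm
    exact (hl'Λ j).1) hne
  apply hA
  rw [hsum]
  have h1 : (∑ j ∈ T0, ((g j : W.dualAnnihilator) : Module.Dual (ZMod 2) (Fin D → ZMod 2))) = 0 := by
    rw [← hc01]
    have h2 := congrArg (fun z : W.dualAnnihilator =>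
      (z : Module.Dual (ZMod 2) (Fin D → ZMod 2))) hc
    simpa using h2
  have h2 := congrArg (fun z : Module.Dual (ZMod 2) (Fin D → ZMod 2) => z A) h1
  simp only [LinearMap.sum_apply, LinearMap.zero_apply] at h2
  rw [LinearMap.sum_apply, ← h2]
  refine Finset.sum_congr rfl fun j _ => ?_
  change l' j (lc x A) = l' j (rk3b_X x A)
  rw [rk3b_X_apply]

/-- (5), (6): Let `S` be the span of the `l j`.  Then `2^d E f(y') 1[l y' = l (τ b)] =
∑_{m ∈ S} ft f m · sg (m (τ b))` (`av_fibre` for `LinearMap.pi l`, surjective by `pi_surjective`;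
`b' ↦ b' ∘ l` is a bijection of `Du (Fin d → ZMod 2)` onto `S`).  An element `m` of `S` with
`|ft f m| ≥ 2^(-h)` belongs to `Λ_W` (its restriction to `W` vanishes, as for all `l j`), and
`Λ_W ⊆ S`; so the sum differs from the sum over `Λ_W` by at most `2^d 2^(-h)`. -/
theorem span_sum (f : V → ℝ) (h K D : ℕ) (y : V) (x : Fin D → V)
    (W : Submodule (ZMod 2) (Fin D → ZMod 2)) (b : Fin D → ZMod 2) (d : ℕ) (l : Fin d → Du V)
    (hd : d ≤ K) (hl : LinearIndependent (ZMod 2) l)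
    (h1 : ∀ j, (1 / 2 : ℝ) ^ h ≤ |ft f (l j)| ∧ ∀ w ∈ W, l j (lc x w) = 0)
    (h2 : ∀ m : Du V, (1 / 2 : ℝ) ^ h ≤ |ft f m| → (∀ w ∈ W, m (lc x w) = 0) →
        m ∈ Submodule.span (ZMod 2) (Set.range l)) :
    (su fun l : Du V =>
        ind {l : Du V | (1 / 2 : ℝ) ^ h ≤ |ft f l| ∧ ∀ w ∈ W, l (lc x w) = 0} l *
          (ft f l * sg (l (pt y x b)))) - 2 ^ K * (1 / 2) ^ h ≤
      2 ^ d * av (fun y' => f y' *
        ind {y' | LinearMap.pi l y' = fun j => l j (pt y x b)} y') := by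
  classical
  set Λ : Set (Du V) := {l : Du V | (1 / 2 : ℝ) ^ h ≤ |ft f l| ∧ ∀ w ∈ W, l (lc x w) = 0} with hΛ
  set T : V →ₗ[ZMod 2] (Fin d → ZMod 2) := LinearMap.pi l with hT
  have hTs : Function.Surjective T := pi_surjective l hl
  have hnc : nc (Fin d → ZMod 2) = 2 ^ d := by
    rw [nc_finrank, Module.finrank_fin_fun]
  have hs : (fun j => l j (pt y x b)) = T (pt y x b) := rfl
  rw [hs, ← hnc, av_fibre T f (T (pt y x b))]
  have hinj : Function.Injective fun b' : Du (Fin d → ZMod 2) => b'.comp T := by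
    intro b1 b2 h12
    exact (LinearMap.cancel_right hTs).1 h12
  have hrange : ∀ m ∈ Λ, ∃ b' : Du (Fin d → ZMod 2), b'.comp T = m := by
    intro m hm
    obtain ⟨c, hc⟩ := (Submodule.mem_span_range_iff_exists_fun (ZMod 2)).1 (h2 m hm.1 hm.2)
    refine ⟨∑ i, c i • (LinearMap.proj i : (Fin d → ZMod 2) →ₗ[ZMod 2] ZMod 2), ?_⟩
    rw [← hc]
    ext v
    simp [hT, LinearMap.sum_apply]
  have hG : ∀ b' : Du (Fin d → ZMod 2), sg (b' (T (pt y x b))) = sg ((b'.comp T) (pt y x b)) :=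
    fun b' => rfl
  have e1 : (su fun m : Du V => ind Λ m * (ft f m * sg (m (pt y x b)))) =
      su fun b' : Du (Fin d → ZMod 2) =>
        ind Λ (b'.comp T) * (ft f (b'.comp T) * sg ((b'.comp T) (pt y x b))) := by
    have i1 := Fintype.ofFinite (Du V)
    have i2 := Fintype.ofFinite (Du (Fin d → ZMod 2))
    rw [su_eq, su_eq]
    symm
    refine Fintype.sum_of_injective (fun b' : Du (Fin d → ZMod 2) => b'.comp T) hinj _ _ ?_
      fun b' => rfl
    intro m hm
    have h3 : m ∉ Λ := fun h4 => hm (hrange m h4)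
    rw [ind_neg h3, zero_mul]
  rw [e1]
  have e2 : (su fun b' : Du (Fin d → ZMod 2) =>
        ind Λ (b'.comp T) * (ft f (b'.comp T) * sg ((b'.comp T) (pt y x b)))) -
      (su fun b' : Du (Fin d → ZMod 2) => ft f (b'.comp T) * sg (b' (T (pt y x b)))) ≤
      nc (Du (Fin d → ZMod 2)) * (1 / 2) ^ h := by
    rw [← su_sub, ← su_const]
    refine su_le_su fun b' => ?_
    rw [hG]
    by_cases hb : b'.comp T ∈ Λ
    · rw [ind_pos hb, one_mul, sub_self]
      positivity
    · rw [ind_neg hb, zero_mul, zero_sub]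
      have hvan : ∀ w ∈ W, (b'.comp T) (lc x w) = 0 := by
        intro w hw
        have h3 : T (lc x w) = 0 := by
          funext j
          exact (h1 j).2 w hw
        rw [LinearMap.comp_apply, h3, map_zero]
      have h4 : ¬ (1 / 2 : ℝ) ^ h ≤ |ft f (b'.comp T)| := fun h5 => hb ⟨h5, hvan⟩
      have h6 := neg_abs_le (ft f (b'.comp T) * sg ((b'.comp T) (pt y x b)))
      rw [abs_mul, abs_sg, mul_one] at h6
      linarith [not_le.1 h4]
  have h3 : nc (Du (Fin d → ZMod 2)) ≤ 2 ^ K := by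
    rw [nc_Du, hnc]
    exact pow_le_pow_right₀ one_le_two hd
  have h4 : nc (Du (Fin d → ZMod 2)) * (1 / 2 : ℝ) ^ h ≤ 2 ^ K * (1 / 2) ^ h :=
    mul_le_mul_of_nonneg_right h3 (by positivity)
  linarith

end G2
end

section

/-!
# Job RK3c: assembly of the deterministic part
-/

set_option autoImplicit false

open Module

namespace G2

variable {V : Type} [AddCommGroup V] [Module (ZMod 2) V] [Finite V]

/-- Assembly: `1_F (τ α) = gt (τ α) + tr (τ α)`; multiply by the indicator function of `b + W`,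
average, and use the four lemmas above; divide by `dn W > 0`. -/
theorem rk_conc (M : Type) (F : Set V) (h K s D : ℕ) (hs : s ≤ h) (y : V) (x : Fin D → V)
    (hU : UD M F h y x ≤ (1 / 2) ^ (4 * s)) (hrel : RelP (wf M F) h (K + 2) x)
    (W : Submodule (ZMod 2) (Fin D → ZMod 2)) (b : Fin D → ZMod 2) (hW : D ≤ rk W + K) (θ : ℝ)
    (hθ : θ * dn (W : Set (Fin D → ZMod 2)) ≤ dn {α | α ∈ FD F y x ∧ α + b ∈ W}) :
    Conc (wf M F) (θ - 2 * 2 ^ K * (1 / 2) ^ s) K h := by
  have hWpos : 0 < dn (W : Set (Fin D → ZMod 2)) := dn_pos ⟨0, W.zero_mem⟩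
  have hrk : rk (Fin D → ZMod 2) ≤ rk W + K := by
    have h1 : rk (Fin D → ZMod 2) = D := Module.finrank_fin_fun _
    rw [h1]
    exact hW
  have hu2 := coset_u2 (fun α => gt M F h (pt y x α)) W b K s hrk hU
  have htr := coset_tr (wf M F) h D y x W b
  have hsplit : dn {α | α ∈ FD F y x ∧ α + b ∈ W} =
      (av fun α => gt M F h (pt y x α) * ind {α | α + b ∈ W} α) +
      av fun α => tr (wf M F) h (pt y x α) * ind {α | α + b ∈ W} α := by
    rw [← av_add]
    unfold dn
    congr 1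
    funext α
    have h1 : ind {α | α ∈ FD F y x ∧ α + b ∈ W} α =
        ind (FD F y x) α * ind {α | α + b ∈ W} α := ind_inter (FD F y x) {α | α + b ∈ W} α
    have h2 : ind (FD F y x) α = ind F (pt y x α) := by
      by_cases h3 : pt y x α ∈ F
      · rw [ind_pos h3, ind_pos (A := FD F y x) h3]
      · rw [ind_neg h3, ind_neg (A := FD F y x) h3]
    rw [h1, h2]
    unfold gt
    ring
  rw [hsplit, htr] at hθ
  obtain ⟨d, l, hd, hl, h1, h2⟩ := rel_rank (wf M F) h K D x hrel W hW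
  have hsp := span_sum (wf M F) h K D y x W b d l hd hl h1 h2
  refine ⟨d, hd, LinearMap.pi l, fun j => l j (pt y x b), pi_surjective l hl, ?_, fun j => ?_⟩
  · refine le_trans ?_ hsp
    have h3 := (abs_le.1 hu2).2
    have h4 : (1 / 2 : ℝ) ^ h ≤ (1 / 2) ^ s := pow_le_pow_of_le_one (by norm_num) (by norm_num) hs
    have h5 : (2 : ℝ) ^ K * (1 / 2) ^ h ≤ 2 ^ K * (1 / 2) ^ s :=
      mul_le_mul_of_nonneg_left h4 (by positivity)
    have h6 : θ ≤ 2 ^ K * (1 / 2) ^ s + su fun l : Du V =>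
        ind {l : Du V | (1 / 2 : ℝ) ^ h ≤ |ft (wf M F) l| ∧ ∀ w ∈ W, l (lc x w) = 0} l *
          (ft (wf M F) l * sg (l (pt y x b))) := by
      have h7 := hθ.trans (add_le_add_left h3 _)
      rw [mul_comm θ, mul_comm ((2 : ℝ) ^ K * (1 / 2) ^ s), ← mul_add] at h7
      exact le_of_mul_le_mul_left h7 hWpos
    linarith
  · exact (h1 j).1

end G2
end

section

/-!
# Job SP2: the weighted remainder `f - ν tr f` is small in `U^2`
-/

set_option autoImplicit false

open Module

namespace G2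

section
variable {V M : Type} [AddCommGroup V] [Module (ZMod 2) V] [Finite V]
  [AddCommGroup M] [Module (ZMod 2) M] [Finite M]

private theorem sp2_su_ind {α : Type} [Finite α] (A : Set α) : su (ind A) = nc A := by
  classical
  have := Fintype.ofFinite α
  rw [su_eq, nc, Nat.card_eq_fintype_card (α := A), Fintype.card_subtype]
  unfold ind
  rw [Finset.sum_ite, Finset.sum_const_zero, add_zero, Finset.sum_const, nsmul_eq_mul, mul_one]

private theorem sp2_su_av {α β : Type} [Finite α] [Finite β] (f : α → β → ℝ) :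
    su (fun x => av (fun y => f x y)) = av (fun y => su (fun x => f x y)) := by
  have h1 : (fun x => av (fun y => f x y)) = fun x => su (fun y => f x y) * (nc β)⁻¹ := by
    funext x
    rw [av, div_eq_mul_inv]
  rw [h1, su_mul_right, su_comm, av, div_eq_mul_inv]

private theorem sp2_ft_mul (w : V → ℝ) (c : Du V → ℝ) (m : Du V) :
    ft (fun y => w y * su fun l : Du V => c l * sg (l y)) m = su fun l => c l * ft w (l + m) := by
  have h1 : (fun l : Du V => c l * ft w (l + m)) =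
      fun l => av fun y => c l * (w y * sg ((l + m) y)) := by
    funext l
    rw [av_mul_left]
    rfl
  rw [h1, sp2_su_av, ft]
  congr 1
  funext y
  rw [← su_mul_left, ← su_mul_right]
  congr 1
  funext l
  rw [LinearMap.add_apply, sg_add]
  ring

open Classical in
private theorem sp2_ft_one (k : Du V) : ft (fun _ : V => (1 : ℝ)) k = if k = 0 then 1 else 0 := by
  rw [ft]
  simp only [one_mul]
  split_ifs with h
  · subst h
    exact av_sg_zero
  · exact av_sg_ne h

private theorem sp2_ft_T (c : Du V → ℝ) (m : Du V) :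
    ft (fun y => su fun l : Du V => c l * sg (l y)) m = c m := by
  classical
  have h1 := sp2_ft_mul (fun _ : V => (1 : ℝ)) c m
  simp only [one_mul] at h1
  rw [h1]
  have := Fintype.ofFinite (Du V)
  rw [su_eq, Finset.sum_eq_single m]
  · rw [sp2_ft_one, if_pos (add_self m), mul_one]
  · intro l _ hl
    rw [sp2_ft_one, if_neg, mul_zero]
    intro h0
    exact hl (eq_of_add_eq_zero h0)
  · intro h0
    exact absurd (Finset.mem_univ m) h0

private theorem sp2_ft_one_sub {q : V → M} {φ : Bil V M} (hq : IsQ q φ) {R : ℕ} (hR : HR φ R)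
    (k : Du V) : |ft (fun y => 1 - nu q y) k| ≤ er M 1 R := by
  classical
  rw [ft_sub, sp2_ft_one]
  split_ifs with h
  · subst h
    rw [ft_zero, abs_sub_comm]
    exact av_nu hq hR
  · rw [zero_sub, abs_neg]
    exact ft_nu hq hR h

private theorem sp2_nu_sq (q : V → M) (y : V) : nu q y ^ 2 = nc M * nu q y := by
  have h1 := ind_mul_self {y | q y = 0} y
  unfold nu
  calc (nc M * ind {y | q y = 0} y) ^ 2 = nc M * (nc M * (ind {y | q y = 0} y *
        ind {y | q y = 0} y)) := by ring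
    _ = _ := by rw [h1]

private theorem sp2_arith (r h R : ℕ) (hR : pw 4 (r + h) ≤ R) :
    r + 1 + (2 * h + 3) ≤ R ∧ 3 * (r + 1) + (2 * h + 3) ≤ R ∧
      1 * (r + 1) + (7 + 5 * h + r) ≤ R := by
  have h1 : 16 + 32 * (r + h) ≤ pw 4 (r + h) := by
    unfold pw
    have h2 : (r + h + 2) ^ 4 = (r + h) ^ 4 + 8 * (r + h) ^ 3 + 24 * (r + h) ^ 2 +
        32 * (r + h) + 16 := by ring
    rw [h2]
    have h3 := Nat.zero_le ((r + h) ^ 4 + 8 * (r + h) ^ 3 + 24 * (r + h) ^ 2)
    omega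
  omega

end

/-- Write `Λ = {l : |ft f l| ≥ η}`, `η = 2^(-h)`, `g = f - ν · tr f h`.  For every `m`
`ft g m = ft f m - ∑_{l ∈ Λ} ft f l · ft ν (m + l) = a_m + b_m` where `a_m = ft f m` for `m ∉ Λ` and
`a_m = 0` for `m ∈ Λ`, and `b_m = ∑_{l ∈ Λ} ft f l (1[m = l] - ft ν (m + l))`.
`(a + b)^4 ≤ 8 a^4 + 8 b^4` and `∑ a_m^4 ≤ 4 η^2` (`spec_small`).
`b_m = ft ((1 - ν) · tr f h) m`, so `∑ b_m^2 = E ((1 - ν) tr f h)^2 ≤ (8 · 4^h)^2 E (1 - ν)^2 ≤
(8 · 4^h)^2 · 4 |M|` (Parseval, `abs_tr_le`, `ν^2 ≤ |M| ν`, `E ν ≤ 2`), and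
`|b_m| ≤ #Λ · 2 · er ≤ 8 · 4^h · er` with `er = er M 1 R` (`spec_card`, `abs_ft_le_two`, `av_nu`,
`ft_nu`).  So `∑ b_m^4 ≤ (8 · 4^h)^4 · 4 |M| er^2`, which is at most `η^2` when `R` is large
(polynomial in `rk M + h`); altogether at most `32 η^2 + 8 η^2`. -/
theorem trunc_u2 : ∃ C : ℕ, ∀ (h R : ℕ) (V M : Type) [AddCommGroup V] [Module (ZMod 2) V]
    [Finite V] [AddCommGroup M] [Module (ZMod 2) M] [Finite M] (q : V → M) (φ : Bil V M)
    (f : V → ℝ), IsQ q φ → HR φ R → pw C (rk M + h) ≤ R → (∀ y, 0 ≤ f y) → (∀ y, f y ≤ nu q y) →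
    (su fun m => ft (fun y => f y - nu q y * tr f h y) m ^ 4) ≤ 40 * (1 / 2) ^ (2 * h) := by
  refine ⟨4, ?_⟩
  intro h R V M _ _ _ _ _ _ q φ f hq hR hpw hf0 hf1
  obtain ⟨hh1, hh2, hh3⟩ := sp2_arith (rk M) h R hpw
  set Λ : Set (Du V) := {l : Du V | (1 / 2 : ℝ) ^ h ≤ |ft f l|} with hΛ
  set c : Du V → ℝ := fun l => ind Λ l * ft f l with hc
  have htr : ∀ y, tr f h y = su fun l : Du V => c l * sg (l y) := by
    intro y
    unfold tr
    congr 1
    funext l
    rw [hc]
    ring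
  have htrf : tr f h = fun y => su fun l : Du V => c l * sg (l y) := funext htr
  set b : Du V → ℝ := fun m => ft (fun y => (1 - nu q y) * tr f h y) m with hb
  -- the decomposition
  have hdec : ∀ m, ft (fun y => f y - nu q y * tr f h y) m = (1 - ind Λ m) * ft f m + b m := by
    intro m
    have h1 : b m = ft (fun y => tr f h y - nu q y * tr f h y) m := by
      rw [hb]
      simp only
      congr 1
      funext y
      ring
    have h2 : ft (tr f h) m = c m := by
      rw [htrf]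
      exact sp2_ft_T c m
    rw [h1, ft_sub, ft_sub, h2, hc]
    ring
  -- the small part
  have hcompl : ∀ m, 1 - ind Λ m = ind {l : Du V | |ft f l| < (1 / 2 : ℝ) ^ h} m := by
    intro m
    rw [← ind_compl]
    congr 1
    ext l
    exact (not_le (a := (1 / 2 : ℝ) ^ h) (b := |ft f l|))
  have hsmall : su (fun m => ((1 - ind Λ m) * ft f m) ^ 4) ≤ 4 * (1 / 2) ^ (2 * h) := by
    refine le_trans (le_of_eq ?_) (spec_small hq hR f hf0 hf1 h hh2)
    congr 1
    funext m
    rw [hcompl m]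
    have h1 := ind_mul_self {l : Du V | |ft f l| < (1 / 2 : ℝ) ^ h} m
    set x := ind {l : Du V | |ft f l| < (1 / 2 : ℝ) ^ h} m
    calc (x * ft f m) ^ 4 = (x * x) * (x * x) * ft f m ^ 4 := by ring
      _ = x * ft f m ^ 4 := by rw [h1, h1]
  -- bounds of `b`
  have her : 0 ≤ er M 1 R := er_nonneg 1 R
  have hbabs : ∀ m, |b m| ≤ 8 * 4 ^ h * er M 1 R := by
    intro m
    have h1 : b m = su fun l => c l * ft (fun y => 1 - nu q y) (l + m) := by
      rw [hb, htrf]
      exact sp2_ft_mul (fun y => 1 - nu q y) c m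
    rw [h1]
    refine (abs_su_le _).trans ?_
    have h2 : ∀ l : Du V, |c l * ft (fun y => 1 - nu q y) (l + m)| ≤ ind Λ l * (2 * er M 1 R) := by
      intro l
      rw [abs_mul, hc]
      simp only
      rw [abs_mul, abs_of_nonneg (ind_nonneg Λ l), mul_assoc]
      refine mul_le_mul_of_nonneg_left ?_ (ind_nonneg Λ l)
      exact mul_le_mul (abs_ft_le_two hq hR f hf0 hf1 (by omega) l) (sp2_ft_one_sub hq hR _)
        (abs_nonneg _) (by norm_num)
    refine (su_le_su h2).trans ?_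
    rw [su_mul_right]
    have h3 : su (fun l => ind Λ l) ≤ 4 * 4 ^ h := by
      refine le_trans (le_of_eq (sp2_su_ind Λ)) ?_
      exact spec_card hq hR f hf0 hf1 h hh1
    calc su (fun l => ind Λ l) * (2 * er M 1 R) ≤ (4 * 4 ^ h) * (2 * er M 1 R) :=
          mul_le_mul_of_nonneg_right h3 (by linarith)
      _ = 8 * 4 ^ h * er M 1 R := by ring
  have hncM : 1 ≤ nc M := one_le_nc
  have hbsq : su (fun m => b m * b m) ≤ (8 * 4 ^ h) ^ 2 * (4 * nc M) := by
    rw [hb, parseval]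
    have h1 : ∀ y, (1 - nu q y) * tr f h y * ((1 - nu q y) * tr f h y) ≤
        (8 * 4 ^ h) ^ 2 * (1 + nc M * nu q y) := by
      intro y
      have h2 : (1 - nu q y) ^ 2 ≤ 1 + nc M * nu q y := by
        have h3 := sp2_nu_sq q y
        have h4 := nu_nonneg q y
        nlinarith
      have h3 : tr f h y ^ 2 ≤ (8 * 4 ^ h) ^ 2 := by
        rw [← sq_abs]
        exact pow_le_pow_left₀ (abs_nonneg _) (abs_tr_le hq hR f hf0 hf1 h hh1 y) 2
      calc (1 - nu q y) * tr f h y * ((1 - nu q y) * tr f h y) =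
            tr f h y ^ 2 * (1 - nu q y) ^ 2 := by ring
        _ ≤ (8 * 4 ^ h) ^ 2 * (1 + nc M * nu q y) :=
            mul_le_mul h3 h2 (sq_nonneg _) (by positivity)
    refine (av_le_av h1).trans ?_
    rw [av_mul_left]
    refine mul_le_mul_of_nonneg_left ?_ (by positivity)
    rw [av_add, av_const, av_mul_left]
    have h5 : er M 1 R ≤ 1 := by
      refine (er_le hh3).trans ?_
      exact pow_le_one₀ (by norm_num) (by norm_num)
    have h6 : av (fun y => nu q y) ≤ 2 := by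
      have h7 := (abs_le.1 (av_nu hq hR)).2
      have h8 : av (fun y => nu q y) = av (nu q) := rfl
      rw [h8]
      linarith
    nlinarith
  have hb4 : su (fun m => b m ^ 4) ≤ (1 / 2) ^ (2 * h) := by
    have h1 : ∀ m, b m ^ 4 ≤ (8 * 4 ^ h * er M 1 R) ^ 2 * (b m * b m) := by
      intro m
      have h2 : b m ^ 2 ≤ (8 * 4 ^ h * er M 1 R) ^ 2 := by
        rw [← sq_abs]
        exact pow_le_pow_left₀ (abs_nonneg _) (hbabs m) 2
      calc b m ^ 4 = b m ^ 2 * (b m * b m) := by ring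
        _ ≤ _ := mul_le_mul_of_nonneg_right h2 (mul_self_nonneg _)
    refine (su_le_su h1).trans ?_
    rw [su_mul_left]
    refine (mul_le_mul_of_nonneg_left hbsq (sq_nonneg _)).trans ?_
    have h3 := er_le (M := M) hh3
    have h4 : er M 1 R ^ 2 ≤ ((1 / 2 : ℝ) ^ (7 + 5 * h + rk M)) ^ 2 :=
      pow_le_pow_left₀ her h3 2
    have h5 : nc M = 2 ^ rk M := nc_finrank
    calc (8 * 4 ^ h * er M 1 R) ^ 2 * ((8 * 4 ^ h) ^ 2 * (4 * nc M)) =
          (8 * 4 ^ h) ^ 2 * ((8 * 4 ^ h) ^ 2 * (4 * nc M)) * er M 1 R ^ 2 := by ring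
      _ ≤ (8 * 4 ^ h) ^ 2 * ((8 * 4 ^ h) ^ 2 * (4 * nc M)) *
          ((1 / 2 : ℝ) ^ (7 + 5 * h + rk M)) ^ 2 :=
          mul_le_mul_of_nonneg_left h4 (by positivity)
      _ = (1 / 2) ^ (2 * h) * (1 / 2) ^ rk M := by
          rw [h5]
          have e1 : (4 : ℝ) ^ h = 2 ^ (2 * h) := by rw [pow_mul]; norm_num
          rw [e1]
          have e2 : ∀ n : ℕ, (2 : ℝ) ^ n * (1 / 2) ^ n = 1 := by
            intro n
            rw [← mul_pow]
            norm_num
          have e3 : ((1 / 2 : ℝ) ^ (7 + 5 * h + rk M)) ^ 2 =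
              (1 / 2) ^ 14 * (1 / 2) ^ (8 * h) * (1 / 2) ^ (2 * h) * (1 / 2) ^ rk M *
                (1 / 2) ^ rk M := by
            rw [← pow_mul, ← pow_add, ← pow_add, ← pow_add, ← pow_add]
            congr 1
            ring
          have e4 : (8 * (2 : ℝ) ^ (2 * h)) ^ 2 * ((8 * 2 ^ (2 * h)) ^ 2 * (4 * 2 ^ rk M)) =
              2 ^ 14 * 2 ^ (8 * h) * 2 ^ rk M := by
            have e5 : (2 : ℝ) ^ (8 * h) = (2 ^ (2 * h)) ^ 4 := by
              rw [← pow_mul]
              congr 1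
              ring
            rw [e5]
            ring
          rw [e3, e4]
          calc (2 : ℝ) ^ 14 * 2 ^ (8 * h) * 2 ^ rk M * ((1 / 2) ^ 14 * (1 / 2) ^ (8 * h) *
                (1 / 2) ^ (2 * h) * (1 / 2) ^ rk M * (1 / 2) ^ rk M) =
                (2 ^ 14 * (1 / 2) ^ 14) * (2 ^ (8 * h) * (1 / 2) ^ (8 * h)) *
                  (2 ^ rk M * (1 / 2) ^ rk M) * ((1 / 2) ^ (2 * h) * (1 / 2) ^ rk M) := by ring
            _ = _ := by rw [e2, e2, e2]; ring
      _ ≤ (1 / 2) ^ (2 * h) * 1 :=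
          mul_le_mul_of_nonneg_left (pow_le_one₀ (by norm_num) (by norm_num)) (by positivity)
      _ = (1 / 2) ^ (2 * h) := mul_one _
  -- the conclusion
  have hfin : ∀ m, ft (fun y => f y - nu q y * tr f h y) m ^ 4 ≤
      8 * ((1 - ind Λ m) * ft f m) ^ 4 + 8 * b m ^ 4 := by
    intro m
    rw [hdec m]
    set x := (1 - ind Λ m) * ft f m
    set y := b m
    have h1 : (x + y) ^ 2 ≤ 2 * x ^ 2 + 2 * y ^ 2 := by nlinarith [sq_nonneg (x - y)]
    have h2 : (x + y) ^ 4 ≤ (2 * x ^ 2 + 2 * y ^ 2) ^ 2 := by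
      calc (x + y) ^ 4 = ((x + y) ^ 2) ^ 2 := by ring
        _ ≤ _ := pow_le_pow_left₀ (sq_nonneg _) h1 2
    nlinarith [sq_nonneg (x ^ 2 - y ^ 2)]
  refine (su_le_su hfin).trans ?_
  rw [su_add, su_mul_left, su_mul_left]
  linarith

end G2
end

section

/-!
# Job RK1: first and second moments of the sample

Everywhere `F ⊆ {q = 0}`, so `wf M F y = nu q y * ind F y`, `β = av (wf M F) = E ν 1_F ≤ 2`
(if `R` is large), and `pt y x (α + A) = pt y x α + lc x A`.
-/

set_option autoImplicit false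

open Module

namespace G2

private theorem rk1_expand {V M : Type} [AddCommGroup V] [Module (ZMod 2) V] [Finite V]
    [AddCommGroup M] [Module (ZMod 2) M] [Finite M] (q : V → M) (D : ℕ)
    (g : V → (Fin D → V) → ℝ) (b : ℝ) :
    ES q D (fun y x => (g y x - b) ^ 2) =
      ES q D (fun y x => g y x ^ 2) + (-(2 * b)) * ES q D g + b ^ 2 * ES q D (fun _ _ => 1) := by
  unfold ES
  rw [← av_mul_left, ← av_mul_left, ← av_add, ← av_add]
  congr 1
  funext z
  ring

private theorem rk1_var {V M : Type} [AddCommGroup V] [Module (ZMod 2) V] [Finite V]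
    [AddCommGroup M] [Module (ZMod 2) M] [Finite M] (q : V → M) (D : ℕ)
    (g : V → (Fin D → V) → ℝ) {b e : ℝ} (he : 0 ≤ e) (hb : 0 ≤ b) (hb2 : b ≤ 2)
    (h0 : |ES q D (fun _ _ => 1) - 1| ≤ e) (h1 : |ES q D g - b| ≤ 18 * e)
    (h2 : |ES q D (fun y x => g y x ^ 2) - b ^ 2| ≤ 19 * e) :
    ES q D (fun y x => (g y x - b) ^ 2) ≤ 200 * e := by
  rw [rk1_expand]
  obtain ⟨a1, a2⟩ := abs_le.1 h0
  obtain ⟨b1, b2⟩ := abs_le.1 h1
  obtain ⟨c1, c2⟩ := abs_le.1 h2
  have k1 : 0 ≤ b * (18 * e + (ES q D g - b)) := mul_nonneg hb (by linarith)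
  have k2 : 0 ≤ b ^ 2 * (e - (ES q D (fun _ _ => 1) - 1)) := mul_nonneg (sq_nonneg b) (by linarith)
  have k3 : b * e ≤ 2 * e := mul_le_mul_of_nonneg_right hb2 he
  have k4 : b ^ 2 * e ≤ 4 * e := mul_le_mul_of_nonneg_right (by nlinarith) he
  nlinarith

private theorem rk1_pow_nonneg (D : ℕ) : (0 : ℝ) ≤ (1 / 2) ^ D := by positivity

private theorem rk1_er {M : Type} [AddCommGroup M] [Module (ZMod 2) M] [Finite M] {C D R : ℕ}
    (hC : 1 ≤ C) (h : pw C (rk M + D) ≤ R) : er M 1 R ≤ (1 / 2 : ℝ) ^ D := by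
  apply er_le
  have h1 := pw_mono_left hC (rk M + D)
  have h2 : pw 1 (rk M + D) = rk M + D + 2 := by rw [pw, pow_one]
  omega

private theorem rk1_ind_comp {α β : Type} (f : α → β) (A : Set β) (x : α) :
    ind {x | f x ∈ A} x = ind A (f x) := by
  by_cases h : f x ∈ A
  · rw [ind_pos (A := {x | f x ∈ A}) h, ind_pos h]
  · rw [ind_neg (A := {x | f x ∈ A}) h, ind_neg h]

private theorem rk1_dn_FD {V : Type} [AddCommGroup V] [Module (ZMod 2) V] (F : Set V) {D : ℕ}
    (y : V) (x : Fin D → V) : dn (FD F y x) = av fun α => ind F (pt y x α) := by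
  exact congrArg av (funext fun α => rk1_ind_comp (pt y x) F α)

private theorem rk1_dn_SD {V : Type} [AddCommGroup V] [Module (ZMod 2) V] (S : Set V) {D : ℕ}
    (x : Fin D → V) : dn (SD S x) = av fun A => ind S (lc x A) := by
  exact congrArg av (funext fun A => rk1_ind_comp (lc x) S A)

private theorem rk1_nu_ind {V M : Type} [AddCommGroup M] {q : V → M} {F : Set V}
    (hF : ∀ y ∈ F, q y = 0) (y : V) : nu q y * ind F y = wf M F y := by
  unfold nu wf
  by_cases h : y ∈ F
  · rw [ind_pos h, ind_pos (A := {y | q y = 0}) (hF y h)]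
    ring
  · rw [ind_neg h]
    ring

private theorem rk1_pt_add {V : Type} [AddCommGroup V] [Module (ZMod 2) V] [Finite V] {D : ℕ}
    (y : V) (x : Fin D → V) (α A : Fin D → ZMod 2) : pt y x (α + A) = pt y x α + lc x A := by
  rw [pt_eq, pt_eq, lc_add, add_assoc]

private theorem rk1_beta {V M : Type} [AddCommGroup V] [Module (ZMod 2) V] [Finite V]
    [AddCommGroup M] [Module (ZMod 2) M] [Finite M] {q : V → M} {φ : Bil V M} {F : Set V}
    (hq : IsQ q φ) {R : ℕ} (hR : HR φ R) (hF : ∀ y ∈ F, q y = 0) (he : er M 1 R ≤ 1) :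
    0 ≤ av (wf M F) ∧ av (wf M F) ≤ 2 := by
  constructor
  · exact av_nonneg fun y => mul_nonneg (nc_nonneg M) (ind_nonneg F y)
  · have h1 : av (wf M F) ≤ av (nu q) := by
      refine av_le_av fun y => ?_
      rw [← rk1_nu_ind hF y]
      exact mul_le_of_le_one_right (nu_nonneg q y) (ind_le_one F y)
    have h2 := (abs_le.1 (av_nu hq hR)).2
    linarith

/-- `es_pt_avg` with `G = ind F`, `B = 1` -/
theorem rk_first : ∃ C : ℕ, ∀ (D R : ℕ) (V M : Type) [AddCommGroup V] [Module (ZMod 2) V]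
    [Finite V] [AddCommGroup M] [Module (ZMod 2) M] [Finite M] (q : V → M) (φ : Bil V M)
    (F : Set V), IsQ q φ → HR φ R → 2 ≤ D → pw C (rk M + D) ≤ R → (∀ y ∈ F, q y = 0) →
    |ES q D (fun y x => dn (FD F y x)) - av (wf M F)| ≤ 18 * (1 / 2) ^ D := by
  obtain ⟨C, hC⟩ := es_pt_avg
  refine ⟨C, ?_⟩
  intro D R V M _ _ _ _ _ _ q φ F hq hR hD hpw hF
  have h := hC D R V M q φ (ind F) 1 hq hR hD hpw fun y => by
    rw [abs_of_nonneg (ind_nonneg F y)]
    exact ind_le_one F y
  rw [mul_one] at h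
  have h1 : (fun y => nu q y * ind F y) = wf M F := funext fun y => rk1_nu_ind hF y
  have h2 : (fun (y : V) (x : Fin D → V) => dn (FD F y x)) =
      fun y x => av fun α => ind F (pt y x α) := by
    funext y x
    exact rk1_dn_FD F y x
  rw [h1] at h
  rw [h2]
  exact h

/-- `dn (FD F y x) ^ 2 = av_{α,A} 1_F(pt α) 1_F(pt α + lc A)` (substitution `α' = α + A`);
`es_two_avg` gives `E dn^2 ≤ E_{y,x} f(y) f(y+x) + 17 · 2^(-D) = β^2 + 17 · 2^(-D)`; then expand the
square, using `rk_first` and `es_mass`. -/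
theorem rk_second : ∃ C : ℕ, ∀ (D R : ℕ) (V M : Type) [AddCommGroup V] [Module (ZMod 2) V]
    [Finite V] [AddCommGroup M] [Module (ZMod 2) M] [Finite M] (q : V → M) (φ : Bil V M)
    (F : Set V), IsQ q φ → HR φ R → 2 ≤ D → pw C (rk M + D) ≤ R → (∀ y ∈ F, q y = 0) →
    ES q D (fun y x => (dn (FD F y x) - av (wf M F)) ^ 2) ≤ 200 * (1 / 2) ^ D := by
  obtain ⟨C1, hC1⟩ := rk_first
  obtain ⟨C2, hC2⟩ := es_two_avg
  obtain ⟨C3, hC3⟩ := es_mass
  refine ⟨C1 + C2 + C3 + 1, ?_⟩
  intro D R V M _ _ _ _ _ _ q φ F hq hR hD hpw hF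
  have p1 := (pw_mono_left (show C1 ≤ C1 + C2 + C3 + 1 by omega) (rk M + D)).trans hpw
  have p2 := (pw_mono_left (show C2 ≤ C1 + C2 + C3 + 1 by omega) (rk M + D)).trans hpw
  have p3 := (pw_mono_left (show C3 ≤ C1 + C2 + C3 + 1 by omega) (rk M + D)).trans hpw
  have he : er M 1 R ≤ (1 / 2 : ℝ) ^ D := rk1_er (by omega) hpw
  have he1 : er M 1 R ≤ 1 := he.trans (pow_le_one₀ (by norm_num) (by norm_num))
  obtain ⟨b0, b2⟩ := rk1_beta hq hR hF he1
  refine rk1_var q D _ (rk1_pow_nonneg D) b0 b2 (hC3 D R V M q φ hq hR hD p3)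
    (hC1 D R V M q φ F hq hR hD p1 hF) ?_
  have h := hC2 D R V M q φ (fun y x => ind F y * ind F (y + x)) 1 hq hR hD p2 fun y x => by
    rw [abs_of_nonneg (mul_nonneg (ind_nonneg F y) (ind_nonneg F _))]
    exact mul_le_one₀ (ind_le_one F y) (ind_nonneg F _) (ind_le_one F _)
  rw [mul_one] at h
  have h1 : av (fun y => av fun x => nu q y * nu q (y + x) * (ind F y * ind F (y + x))) =
      av (wf M F) ^ 2 := by
    have h3 : (fun y => av fun x => nu q y * nu q (y + x) * (ind F y * ind F (y + x))) =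
        fun y => wf M F y * av (wf M F) := by
      funext y
      have h4 : (fun x => nu q y * nu q (y + x) * (ind F y * ind F (y + x))) =
          fun x => wf M F y * wf M F (y + x) := by
        funext x
        rw [← rk1_nu_ind hF y, ← rk1_nu_ind hF (y + x)]
        ring
      rw [h4, av_mul_left, av_shift_left]
    rw [h3, av_mul_right, sq]
  have h2 : (fun (y : V) (x : Fin D → V) => dn (FD F y x) ^ 2) = fun y x =>
      av fun α => av fun A' => ind F (pt y x α) * ind F (pt y x α + lc x A') := by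
    funext y x
    have h3 : (fun α => av fun A' => ind F (pt y x α) * ind F (pt y x α + lc x A')) =
        fun α => ind F (pt y x α) * av fun β => ind F (pt y x β) := by
      funext α
      rw [av_mul_left]
      congr 1
      have h4 : (fun A' => ind F (pt y x α + lc x A')) =
          fun A' => (fun β => ind F (pt y x β)) (α + A') := by
        funext A'
        rw [← rk1_pt_add]
      exact (congrArg av h4).trans (av_shift_left (fun β => ind F (pt y x β)) α)
    rw [h3, av_mul_right, ← rk1_dn_FD, sq]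
  rw [h1] at h
  rw [h2]
  refine h.trans ?_
  have := rk1_pow_nonneg D
  linarith

/-- `E dn (SD S x)` by `es_lc_avg`; `dn (SD S x) ^ 2 = av_{A,B} 1_S(lc A) 1_S(lc B)`, `es_pair_avg`
and `iso_uniform` (`φ` is symmetric by `IsQ.symm`) give `E dn^2 ≤ dn S ^ 2 + 19 · 2^(-D)`. -/
theorem rk_third : ∃ C : ℕ, ∀ (D R : ℕ) (V M : Type) [AddCommGroup V] [Module (ZMod 2) V]
    [Finite V] [AddCommGroup M] [Module (ZMod 2) M] [Finite M] (q : V → M) (φ : Bil V M)
    (S : Set V), IsQ q φ → HR φ R → 2 ≤ D → pw C (rk M + D) ≤ R →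
    ES q D (fun _ x => (dn (SD S x) - dn S) ^ 2) ≤ 200 * (1 / 2) ^ D := by
  obtain ⟨C1, hC1⟩ := es_lc_avg
  obtain ⟨C2, hC2⟩ := es_pair_avg
  obtain ⟨C3, hC3⟩ := es_mass
  refine ⟨C1 + C2 + C3 + 1, ?_⟩
  intro D R V M _ _ _ _ _ _ q φ S hq hR hD hpw
  have p1 := (pw_mono_left (show C1 ≤ C1 + C2 + C3 + 1 by omega) (rk M + D)).trans hpw
  have p2 := (pw_mono_left (show C2 ≤ C1 + C2 + C3 + 1 by omega) (rk M + D)).trans hpw
  have p3 := (pw_mono_left (show C3 ≤ C1 + C2 + C3 + 1 by omega) (rk M + D)).trans hpw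
  have he : er M 1 R ≤ (1 / 2 : ℝ) ^ D := rk1_er (by omega) hpw
  have hS1 : ∀ y, |ind S y| ≤ 1 := fun y => by
    rw [abs_of_nonneg (ind_nonneg S y)]
    exact ind_le_one S y
  refine rk1_var q D (fun _ x => dn (SD S x)) (rk1_pow_nonneg D) (dn_nonneg S)
    ((dn_le_one S).trans (by norm_num)) (hC3 D R V M q φ hq hR hD p3) ?_ ?_
  · have h := hC1 D R V M q φ (ind S) 1 hq hR hD p1 hS1
    rw [mul_one] at h
    have h2 : (fun (_ : V) (x : Fin D → V) => dn (SD S x)) =
        fun _ x => av fun A' => ind S (lc x A') := by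
      funext _ x
      exact rk1_dn_SD S x
    rw [h2]
    exact h
  · have h := hC2 D R V M q φ (fun x x' => ind S x * ind S x') 1 hq hR hD p2 fun x x' => by
      rw [abs_mul]
      exact mul_le_one₀ (hS1 x) (abs_nonneg _) (hS1 x')
    rw [mul_one] at h
    have h2 : (fun (_ : V) (x : Fin D → V) => dn (SD S x) ^ 2) = fun _ x =>
        av fun A' => av fun B' => ind S (lc x A') * ind S (lc x B') := by
      funext _ x
      have h3 : (fun A' => av fun B' => ind S (lc x A') * ind S (lc x B')) =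
          fun A' => ind S (lc x A') * dn (SD S x) := by
        funext A'
        rw [av_mul_left, ← rk1_dn_SD]
      rw [h3, av_mul_right, ← rk1_dn_SD, sq]
    have h4 := iso_uniform hq.symm hR (ind S) (ind S) hS1 hS1
    rw [h2]
    have h5 := abs_le.1 h
    have h6 := abs_le.1 h4
    have h7 : av (ind S) * av (ind S) = dn S ^ 2 := by rw [sq, dn]
    rw [h7] at h6
    exact abs_le.2 ⟨by linarith [h5.1, h6.1], by linarith [h5.2, h6.2]⟩

/-- `es_two_avg` with `G y x = 1_F(y) 1_F(y+x) 1_S(x)`; `ν(y) ν(y+x) G = f(y) f(y+x) 1_S(x)` -/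
theorem rk_four : ∃ C : ℕ, ∀ (D R : ℕ) (V M : Type) [AddCommGroup V] [Module (ZMod 2) V]
    [Finite V] [AddCommGroup M] [Module (ZMod 2) M] [Finite M] (q : V → M) (φ : Bil V M)
    (F S : Set V), IsQ q φ → HR φ R → 2 ≤ D → pw C (rk M + D) ≤ R → (∀ y ∈ F, q y = 0) →
    |ES q D (fun y x => XD F S y x) - av (fun x => ind S x * cor (wf M F) (wf M F) x)| ≤
      17 * (1 / 2) ^ D := by
  obtain ⟨C2, hC2⟩ := es_two_avg
  refine ⟨C2, ?_⟩
  intro D R V M _ _ _ _ _ _ q φ F S hq hR hD hpw hF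
  have h := hC2 D R V M q φ (fun y x => ind F y * ind F (y + x) * ind S x) 1 hq hR hD hpw
    fun y x => by
      rw [abs_of_nonneg (mul_nonneg (mul_nonneg (ind_nonneg F y) (ind_nonneg F _))
        (ind_nonneg S x))]
      exact mul_le_one₀ (mul_le_one₀ (ind_le_one F y) (ind_nonneg F _) (ind_le_one F _))
        (ind_nonneg S _) (ind_le_one S _)
  rw [mul_one] at h
  have h1 : av (fun y => av fun x => nu q y * nu q (y + x) *
      (ind F y * ind F (y + x) * ind S x)) =
      av (fun x => ind S x * cor (wf M F) (wf M F) x) := by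
    rw [av_comm]
    congr 1
    funext x
    rw [cor, ← av_mul_left]
    congr 1
    funext y
    rw [← rk1_nu_ind hF y, ← rk1_nu_ind hF (y + x)]
    ring
  have h2 : (fun (y : V) (x : Fin D → V) => XD F S y x) = fun y x =>
      av fun α => av fun A' => ind F (pt y x α) * ind F (pt y x α + lc x A') *
        ind S (lc x A') := by
    funext y x
    rw [XD, av_comm]
    congr 1
    funext A'
    rw [cor, ← av_mul_left]
    congr 1
    funext α
    have e1 : ind (SD S x) A' = ind S (lc x A') := rk1_ind_comp (lc x) S A'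
    have e2 : ind (FD F y x) α = ind F (pt y x α) := rk1_ind_comp (pt y x) F α
    have e3 : ind (FD F y x) (α + A') = ind F (pt y x α + lc x A') := by
      rw [← rk1_pt_add]
      exact rk1_ind_comp (pt y x) F (α + A')
    rw [e1, e2, e3]
    ring
  rw [h1] at h
  rw [h2]
  exact h

end G2
end
end
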